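import Mathlib

-- part Pool.Agent.Lib.MP_aed2da_nt.Basic
section

namespace Pool.Agent.Lib.MP_aed2da_nt

/-- totally positive element of a field -/
def TotPos {K : Type*} [Field K] (x : K) : Prop := ∀ σ : K →+* ℝ, 0 < σ x

end Pool.Agent.Lib.MP_aed2da_nt
end

-- part Pool.Agent.Lib.MP_aed2da_nt.Genus
section

open NumberField QuadraticAlgebra
open scoped nonZeroDivisors

namespace Pool.Agent.Lib.MP_aed2da_nt

namespace Genus

section alg
variable {O : Type*} [CommRing O] {a s : O}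

/-- The conjugate ideal. -/
def cj (I : Ideal (QuadraticAlgebra O a s)) : Ideal (QuadraticAlgebra O a s) :=
  I.map (starRingEnd _)

theorem cj_mul (I J : Ideal (QuadraticAlgebra O a s)) : cj (I * J) = cj I * cj J :=
  Ideal.map_mul _ _ _

theorem cj_span (x : QuadraticAlgebra O a s) : cj (Ideal.span {x}) = Ideal.span {star x} := by
  rw [cj, Ideal.map_span, Set.image_singleton]; rfl

theorem cj_cj (I : Ideal (QuadraticAlgebra O a s)) : cj (cj I) = I := by
  rw [cj, cj, Ideal.map_map]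
  convert Ideal.map_id I
  ext x <;> simp

theorem star_mem_cj {I : Ideal (QuadraticAlgebra O a s)} {x} (hx : x ∈ I) : star x ∈ cj I :=
  Ideal.mem_map_of_mem (starRingEnd _) hx

theorem cj_ne_zero {I : Ideal (QuadraticAlgebra O a s)} (hI : I ≠ 0) : cj I ≠ 0 := by
  intro h
  apply hI
  rw [← cj_cj I, h]
  exact Ideal.map_bot

theorem span_mul_star (x : QuadraticAlgebra O a s) :
    Ideal.span {x} * Ideal.span {star x} = Ideal.span {algebraMap O _ (norm x)} := by
  rw [Ideal.span_singleton_mul_span_singleton, algebraMap_norm_eq_mul_star]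

variable [IsDomain O] [IsPrincipalIdealRing O]

/-- Ambiguous ideals are principal. -/
theorem principal_of_cj (hω : Prime (s ^ 2 + 4 * a) ∨ IsUnit (s ^ 2 + 4 * a))
    {I : Ideal (QuadraticAlgebra O a s)} (hI : cj I = I) : I.IsPrincipal := by
  have hst : ∀ z ∈ I, star z ∈ I := fun z hz => hI ▸ star_mem_cj hz
  let δ : QuadraticAlgebra O a s := ⟨-s, 2⟩
  have hδ : δ * δ = algebraMap O _ (s ^ 2 + 4 * a) := by
    ext <;> simp [δ, sq] <;> ring
  have hcop : ∀ t, ¬ s ^ 2 + 4 * a ∣ t ∨ IsUnit (s ^ 2 + 4 * a) → IsCoprime (s ^ 2 + 4 * a) t := by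
    rintro t (ht | ht)
    · rcases hω with h | h
      · exact h.irreducible.coprime_iff_not_dvd.mpr ht
      · exact absurd h.dvd ht
    · exact (isCoprime_mul_unit_left_left ht 1 t).mpr isCoprime_one_left |>.of_mul_left_left
  have h2 : IsCoprime (s ^ 2 + 4 * a) 2 := by
    rcases hω with h | h
    · refine hcop 2 (Or.inl ?_)
      rintro ⟨c, hc⟩
      have h3 : s ^ 2 + 4 * a ∣ s := h.dvd_of_dvd_pow (n := 2)
        ⟨1 - c * 2 * a, by linear_combination (-2 * a) * hc⟩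
      obtain ⟨d, hd⟩ := h3
      refine h.not_isUnit (IsUnit.of_mul_eq_one (d ^ 2 + c ^ 2 * a) (mul_left_cancel₀ h.ne_zero ?_))
      linear_combination (-(s + (s ^ 2 + 4 * a) * d)) * hd -
        a * (2 + (s ^ 2 + 4 * a) * c) * hc
    · exact hcop 2 (Or.inr h)
  obtain ⟨c, hc⟩ : ∃ c, (I.restrictScalars O).map (imₗ a s) = Ideal.span {c} :=
    (IsPrincipalIdealRing.principal _).principal
  have him : ∀ z ∈ I, c ∣ z.im := fun z hz =>
    Ideal.mem_span_singleton.mp (hc ▸ Submodule.mem_map_of_mem (f := imₗ a s) hz)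
  have hdiv : ∀ z ∈ I, algebraMap O (QuadraticAlgebra O a s) c ∣ z := by
    intro z hz
    refine algebraMap_dvd_iff.mpr ⟨?_, him z hz⟩
    have := (him _ (I.mul_mem_left ⟨0, 1⟩ hz)).sub ((him z hz).mul_left s)
    simpa using this
  have hcδ : algebraMap O _ c * δ ∈ I := by
    obtain ⟨z, hz, e⟩ : c ∈ (I.restrictScalars O).map (imₗ a s) :=
      hc ▸ Ideal.mem_span_singleton_self c
    convert I.sub_mem hz (hst z hz) using 1
    have e' : z.im = c := e
    ext <;> simp [δ, ← e'] <;> ring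
  by_cases h : algebraMap O (QuadraticAlgebra O a s) c ∈ I
  · exact ⟨⟨_, le_antisymm (fun z hz => Ideal.mem_span_singleton.mpr (hdiv z hz))
      ((Ideal.span_singleton_le_iff_mem _).mpr h)⟩⟩
  refine ⟨⟨_, le_antisymm (fun z hz => Ideal.mem_span_singleton.mpr ?_)
    ((Ideal.span_singleton_le_iff_mem _).mpr hcδ)⟩⟩
  obtain ⟨y, rfl⟩ := hdiv z hz
  refine mul_dvd_mul_left _ ?_
  have e : 2 * y = algebraMap O _ (trace y) + algebraMap O _ y.im * δ := by
    ext <;> simp [δ, trace_def] <;> ring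
  by_cases ht : s ^ 2 + 4 * a ∣ trace y
  · obtain ⟨p, q, hpq⟩ := h2
    obtain ⟨t, ht⟩ := ht
    refine ⟨algebraMap O _ p * δ * y + algebraMap O _ q *
      (δ * algebraMap O _ t + algebraMap O _ y.im), ?_⟩
    have e2 := congrArg (algebraMap O (QuadraticAlgebra O a s)) hpq
    rw [ht, map_mul, ← hδ] at e
    rw [map_add, map_mul, map_mul, ← hδ, map_ofNat, map_one] at e2
    linear_combination (-y) * e2 + algebraMap O (QuadraticAlgebra O a s) q * e
  · obtain ⟨p, q, hpq⟩ := hcop _ (Or.inl ht)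
    refine absurd ?_ h
    have e2 := congrArg (algebraMap O (QuadraticAlgebra O a s)) hpq
    rw [map_add, map_mul, map_mul, ← hδ, map_one] at e2
    convert I.add_mem (I.mul_mem_left (algebraMap O _ p * δ - algebraMap O _ q * algebraMap O _ y.im)
      hcδ) (I.mul_mem_left (2 * algebraMap O _ q) hz) using 1
    linear_combination (-algebraMap O (QuadraticAlgebra O a s) c) * e2 -
      algebraMap O (QuadraticAlgebra O a s) c * algebraMap O (QuadraticAlgebra O a s) q * e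

theorem exists_split (hω : Squarefree (s ^ 2 + 4 * a)) {κ : O} (hκ : Prime κ) (h2 : ¬ κ ∣ 2)
    (hr : ∃ r, κ ∣ s ^ 2 + 4 * a - r ^ 2) :
    ∃ P : Ideal (QuadraticAlgebra O a s), P * cj P = Ideal.span {algebraMap O _ κ} := by
  obtain ⟨r, m, hm⟩ := hr
  obtain ⟨p, q, hpq⟩ := hκ.irreducible.coprime_iff_not_dvd.mpr h2
  let z : QuadraticAlgebra O a s := ⟨q * (r - s), 1⟩
  have h4 : 4 * norm z = trace z ^ 2 - (s ^ 2 + 4 * a) := by
    simp [norm_def, trace_def]; ring
  have ht : trace z = r - p * κ * (r - s) := by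
    simp only [trace_def, z]; linear_combination (r - s) * hpq
  obtain ⟨n, hn⟩ : κ ∣ norm z := by
    refine (hκ.dvd_or_dvd (a := 2 ^ 2) ?_).resolve_left fun h => h2 (hκ.dvd_of_dvd_pow h)
    refine ⟨-m - 2 * r * p * (r - s) + p ^ 2 * κ * (r - s) ^ 2, ?_⟩
    rw [ht] at h4
    linear_combination h4 - hm
  let k := algebraMap O (QuadraticAlgebra O a s) κ
  have hk : star k = k := by ext <;> simp [k]
  have e : cj (Ideal.span {k, z}) = Ideal.span {k, star z} := by
    rw [cj, Ideal.map_span, Set.image_pair]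
    exact congrArg (fun x => Ideal.span {x, star z}) hk
  refine ⟨Ideal.span {k, z}, ?_⟩
  rw [e, Ideal.span_pair_mul_span_pair, ← algebraMap_norm_eq_mul_star, hn, map_mul]
  refine le_antisymm (Ideal.span_le.mpr ?_) ((Ideal.span_singleton_le_iff_mem _).mpr ?_)
  · rintro _ (rfl | rfl | rfl | rfl) <;> exact Ideal.mem_span_singleton.mpr (by simp [k])
  · set J := Ideal.span {k * k, k * star z, z * k, k * algebraMap O _ n}
    have m1 : k * k ∈ J := Ideal.subset_span (by simp)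
    have m2 : k * star z ∈ J := Ideal.subset_span (by simp)
    have m3 : z * k ∈ J := Ideal.subset_span (by simp)
    have m4 : k * algebraMap O _ n ∈ J := Ideal.subset_span (by simp)
    have key : ∀ t, ¬ κ ∣ t → k * algebraMap O _ t ∈ J → k ∈ J := by
      intro t ht hJ
      obtain ⟨p, q, hpq⟩ := hκ.irreducible.coprime_iff_not_dvd.mpr ht
      have e2 := congrArg (algebraMap O (QuadraticAlgebra O a s)) hpq
      rw [map_add, map_mul, map_mul, map_one] at e2
      convert J.add_mem (J.mul_mem_left (algebraMap O _ p) m1)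
        (J.mul_mem_left (algebraMap O _ q) hJ) using 1
      linear_combination (-k) * e2
    by_cases h : κ ∣ n
    · refine key (trace z) ?_ ?_
      · rintro ⟨t, ht⟩
        obtain ⟨n', rfl⟩ := h
        refine hκ.not_isUnit (hω κ ⟨t ^ 2 - 4 * n', ?_⟩)
        rw [ht, hn] at h4
        linear_combination h4
      · rw [algebraMap_trace_eq_add_star, mul_add, mul_comm k z]
        exact J.add_mem m3 m2
    · exact key n h m4

theorem exists_norm_ideal (hω : Squarefree (s ^ 2 + 4 * a)) (β : O) (hβ : β ≠ 0)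
    (h : ∀ κ : O, Prime κ → κ ∣ β → ¬ κ ∣ 2 ∧ ∃ r, κ ∣ s ^ 2 + 4 * a - r ^ 2) :
    ∃ P : Ideal (QuadraticAlgebra O a s), P * cj P = Ideal.span {algebraMap O _ β} := by
  induction β using UniqueFactorizationMonoid.induction_on_prime with
  | h₁ => exact absurd rfl hβ
  | h₂ x hx =>
    refine ⟨Ideal.span {1}, ?_⟩
    rw [cj_span, star_one, Ideal.span_singleton_mul_span_singleton, mul_one,
      Ideal.span_singleton_one, Ideal.span_singleton_eq_top.mpr (hx.map _)]
  | h₃ x p hx hp ih =>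
    obtain ⟨P, hP⟩ := exists_split hω hp (h p hp (by simp)).1 (h p hp (by simp)).2
    obtain ⟨Q, hQ⟩ := ih hx fun κ hκ hd => h κ hκ (hd.mul_left p)
    refine ⟨P * Q, ?_⟩
    rw [cj_mul, mul_mul_mul_comm, hP, hQ, Ideal.span_singleton_mul_span_singleton, map_mul]

variable [IsDedekindDomain (QuadraticAlgebra O a s)]

omit [IsPrincipalIdealRing O] in
theorem assoc_of_eq {x y : QuadraticAlgebra O a s} {I J : Ideal (QuadraticAlgebra O a s)}
    {β : O} (hI : I * cj I = Ideal.span {algebraMap O _ β}) (hJ : J ≠ 0)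
    (h : Ideal.span {x} * (I * cj J) = Ideal.span {y} * J) :
    ∃ u : Oˣ, β * norm x = u * norm y := by
  have h' := congrArg cj h
  rw [cj_mul, cj_mul, cj_mul, cj_cj, cj_span, cj_span] at h'
  have e : Ideal.span {x} * Ideal.span {star x} * (I * cj I) * (J * cj J) =
      Ideal.span {y} * Ideal.span {star y} * (J * cj J) := by
    calc _ = (Ideal.span {x} * (I * cj J)) * (Ideal.span {star x} * (cj I * J)) := by ring
      _ = _ := by rw [h, h']; ring
  have e2 := mul_right_cancel₀ (mul_ne_zero hJ (cj_ne_zero hJ)) e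
  rw [span_mul_star, span_mul_star, hI, Ideal.span_singleton_mul_span_singleton, ← map_mul,
    Ideal.span_singleton_eq_span_singleton] at e2
  obtain ⟨u, hu⟩ := associated_of_dvd_dvd (algebraMap_dvd_iff_dvd.mp e2.symm.dvd)
    (algebraMap_dvd_iff_dvd.mp e2.dvd)
  exact ⟨u, by linear_combination -hu⟩

open Classical in
/-- The class of an ideal. -/
noncomputable def cl (I : Ideal (QuadraticAlgebra O a s)) : ClassGroup (QuadraticAlgebra O a s) :=
  if h : I = 0 then 1 else ClassGroup.mk0 ⟨I, mem_nonZeroDivisors_of_ne_zero h⟩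

omit [IsDomain O] [IsPrincipalIdealRing O] in
theorem cl_mul {I J : Ideal (QuadraticAlgebra O a s)} (hI : I ≠ 0) (hJ : J ≠ 0) :
    cl (I * J) = cl I * cl J := by
  rw [cl, cl, cl, dif_neg hI, dif_neg hJ, dif_neg (mul_ne_zero hI hJ), ← map_mul]; rfl

omit [IsDomain O] [IsPrincipalIdealRing O] in
theorem cl_eq_one {I : Ideal (QuadraticAlgebra O a s)} (h : I.IsPrincipal) : cl I = 1 := by
  rw [cl]
  split_ifs
  · rfl
  · exact (ClassGroup.mk0_eq_one_iff _).mpr h

omit [IsDomain O] [IsPrincipalIdealRing O] in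
theorem cl_eq {I J : Ideal (QuadraticAlgebra O a s)} (hI : I ≠ 0) (hJ : J ≠ 0)
    (h : cl I = cl J) : ∃ x y : QuadraticAlgebra O a s, x ≠ 0 ∧ y ≠ 0 ∧
      Ideal.span {x} * I = Ideal.span {y} * J := by
  rw [cl, cl, dif_neg hI, dif_neg hJ, ClassGroup.mk0_eq_mk0_iff] at h
  obtain ⟨x, y, hx, hy, h⟩ := h
  exact ⟨x, y, hx, hy, h⟩

omit [IsDomain O] [IsPrincipalIdealRing O] in
theorem cl_surj (g : ClassGroup (QuadraticAlgebra O a s)) : ∃ I, I ≠ 0 ∧ cl I = g := by
  obtain ⟨⟨I, hI⟩, rfl⟩ := ClassGroup.mk0_surjective g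
  exact ⟨I, nonZeroDivisors.ne_zero hI, dif_neg (nonZeroDivisors.ne_zero hI)⟩

theorem cl_cj (hω : Prime (s ^ 2 + 4 * a) ∨ IsUnit (s ^ 2 + 4 * a))
    {I : Ideal (QuadraticAlgebra O a s)} (hI : I ≠ 0) : cl (cj I) = (cl I)⁻¹ := by
  rw [eq_inv_iff_mul_eq_one, ← cl_mul (cj_ne_zero hI) hI]
  exact cl_eq_one (principal_of_cj hω (by rw [cj_mul, cj_cj, mul_comm]))

/-- Hilbert 90. -/
theorem hilbert (hω : Prime (s ^ 2 + 4 * a) ∨ IsUnit (s ^ 2 + 4 * a))
    {I : Ideal (QuadraticAlgebra O a s)} (hI : I ≠ 0) {x y ε : QuadraticAlgebra O a s} (hx : x ≠ 0)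
    (hε : IsUnit (norm ε)) (h : Ideal.span {x} * I = Ideal.span {y} * cj I)
    (hn : norm x = norm ε * norm y) : cl I = 1 := by
  rw [← Ideal.span_singleton_mul_left_unit (isUnit_iff_norm_isUnit.mpr hε) y] at h
  rw [← map_mul] at hn
  generalize ε * y = y at h hn
  have hx' : Ideal.span {x} ≠ 0 := by simpa using hx
  by_cases h0 : x + y = 0
  · rw [eq_neg_of_add_eq_zero_right h0, Ideal.span_singleton_neg] at h
    exact cl_eq_one (principal_of_cj hω (mul_left_cancel₀ hx' h).symm)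
  have e := congrArg (algebraMap O (QuadraticAlgebra O a s)) hn
  rw [algebraMap_norm_eq_mul_star, algebraMap_norm_eq_mul_star] at e
  have h1 : Ideal.span {x * star (x + y)} ≠ 0 := by simpa [-star_add] using ⟨hx, h0⟩
  have := cl_eq_one (principal_of_cj hω (I := Ideal.span {x * star (x + y)} * I) ?_)
  · rwa [cl_mul h1 hI, cl_eq_one ⟨⟨_, rfl⟩⟩, one_mul] at this
  refine mul_left_cancel₀ hx' ?_
  rw [mul_left_comm, h, cj_mul, cj_span, ← mul_assoc, ← mul_assoc,
    Ideal.span_singleton_mul_span_singleton, Ideal.span_singleton_mul_span_singleton]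
  congr 3
  simp only [star_mul, star_add, star_star]
  linear_combination x * e

theorem sq_class (hω : Prime (s ^ 2 + 4 * a) ∨ IsUnit (s ^ 2 + 4 * a))
    {I : Ideal (QuadraticAlgebra O a s)} {β : O} (hβ : β ≠ 0)
    (hI : I * cj I = Ideal.span {algebraMap O _ β})
    (h : cl I ∈ (powMonoidHom 2 : ClassGroup (QuadraticAlgebra O a s) →* _).range) :
    ∃ (x y : QuadraticAlgebra O a s) (u : Oˣ), x ≠ 0 ∧ y ≠ 0 ∧ β * norm x = u * norm y := by
  have hI0 : I ≠ 0 := by
    rintro rfl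
    rw [zero_mul, eq_comm, Ideal.zero_eq_bot, Ideal.span_singleton_eq_bot] at hI
    exact hβ (algebraMap_injective (hI.trans (map_zero _).symm))
  obtain ⟨g, hg⟩ := h
  obtain ⟨J, hJ, rfl⟩ := cl_surj g
  obtain ⟨x, y, hx, hy, e⟩ := cl_eq (mul_ne_zero hI0 (cj_ne_zero hJ)) hJ
    (by rw [cl_mul hI0 (cj_ne_zero hJ), cl_cj hω hJ, ← hg, powMonoidHom_apply]; group)
  obtain ⟨u, hu⟩ := assoc_of_eq hI hJ e
  exact ⟨x, y, u, hx, hy, hu⟩

theorem two_torsion (hω : Prime (s ^ 2 + 4 * a) ∨ IsUnit (s ^ 2 + 4 * a))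
    {g : ClassGroup (QuadraticAlgebra O a s)} (hg : g ^ 2 = 1) :
    ∃ (I : Ideal (QuadraticAlgebra O a s)) (x y : QuadraticAlgebra O a s) (u : Oˣ), I ≠ 0 ∧
      cl I = g ∧ x ≠ 0 ∧ y ≠ 0 ∧ Ideal.span {x} * I = Ideal.span {y} * cj I ∧
      norm x = u * norm y := by
  obtain ⟨I, hI, rfl⟩ := cl_surj g
  obtain ⟨x, y, hx, hy, e⟩ := cl_eq hI (cj_ne_zero hI)
    (by rw [cl_cj hω hI, eq_inv_iff_mul_eq_one, ← sq, hg])
  obtain ⟨u, hu⟩ := assoc_of_eq (I := Ideal.span {1}) (β := 1) (x := x) (y := y)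
    (by rw [cj_span]; simp) (cj_ne_zero hI) (by simpa [cj_cj] using e)
  exact ⟨I, x, y, u, hI, rfl, hx, hy, e, by rwa [one_mul] at hu⟩

end alg

section nf
variable {K : Type*} [Field K] [NumberField K] {a s : 𝓞 K}

omit [NumberField K] in
theorem TotPos.of_mul {x y z : K} (h : x * y = z) (hy : TotPos y) (hz : TotPos z) : TotPos x := by
  intro σ
  have := hz σ
  rw [← h, map_mul] at this
  exact (pos_iff_pos_of_mul_pos this).mpr (hy σ)

omit [NumberField K] in
theorem TotPos.mul {x y : K} (hx : TotPos x) (hy : TotPos y) : TotPos (x * y) := fun σ => by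
  rw [map_mul]; exact mul_pos (hx σ) (hy σ)

theorem TotPos.ne_zero [IsTotallyReal K] {x : K} (hx : TotPos x) : x ≠ 0 := by
  rintro rfl
  obtain ⟨w⟩ : Nonempty (InfinitePlace K) := inferInstance
  simpa using hx (InfinitePlace.embedding_of_isReal (IsTotallyReal.isReal w))

omit [NumberField K] in
theorem norm_pos {a s : K} (hneg : TotPos (-(s ^ 2 + 4 * a))) {z : QuadraticAlgebra K a s}
    (hz : z ≠ 0) : TotPos (norm z) := by
  intro σ
  have h := hneg σ
  simp only [norm_def, map_sub, map_add, map_mul, map_neg, map_pow, map_ofNat] at h ⊢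
  by_cases hy : z.im = 0
  · have hx : σ z.re ≠ 0 := (map_ne_zero σ).mpr fun hx => hz (by ext <;> simp [hx, hy])
    rw [hy, map_zero]
    simpa using hx
  · have := mul_pos h (sq_pos_of_ne_zero ((map_ne_zero σ).mpr hy))
    nlinarith [sq_nonneg (2 * σ z.re + σ s * σ z.im)]

/-- The inclusion in the quadratic extension. -/
def phi (a s : 𝓞 K) : QuadraticAlgebra (𝓞 K) a s →+* QuadraticAlgebra K (a : K) (s : K) where
  toFun z := ⟨z.re, z.im⟩
  map_one' := by ext <;> simp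
  map_zero' := by ext <;> simp
  map_mul' z w := by ext <;> simp
  map_add' z w := by ext <;> simp

omit [NumberField K] in
theorem phi_injective : Function.Injective (phi a s) := by
  intro z w h
  ext
  · exact congrArg QuadraticAlgebra.re h
  · exact congrArg QuadraticAlgebra.im h

omit [NumberField K] in
theorem norm_phi (z : QuadraticAlgebra (𝓞 K) a s) : norm (phi a s z) = ((norm z : 𝓞 K) : K) := by
  simp [norm_def, phi]

theorem dedekind [IsTotallyReal K] [IsPrincipalIdealRing (𝓞 K)] (hω : Squarefree (s ^ 2 + 4 * a))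
    (hneg : TotPos (-((s : K) ^ 2 + 4 * a))) :
    ∃ _ : IsDedekindDomain (QuadraticAlgebra (𝓞 K) a s),
      Finite (ClassGroup (QuadraticAlgebra (𝓞 K) a s)) := by
  have : Fact (∀ r : K, r ^ 2 ≠ a + s * r) := ⟨fun r hr =>
    TotPos.ne_zero (norm_pos hneg (z := ⟨r, -1⟩) (fun h => by simpa using congrArg im h))
      (by simp only [norm_def]; linear_combination hr)⟩
  let := (phi a s).toAlgebra
  have : IsDomain (QuadraticAlgebra (𝓞 K) a s) := phi_injective.isDomain _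
  have : FiniteDimensional ℚ (QuadraticAlgebra K (a : K) (s : K)) := Module.Finite.trans K _
  have : IsIntegralClosure (QuadraticAlgebra (𝓞 K) a s) ℤ (QuadraticAlgebra K (a : K) (s : K)) := by
    have fin : Module.Finite ℤ (QuadraticAlgebra (𝓞 K) a s) := Module.Finite.trans (𝓞 K) _
    have hin : ∀ z, IsIntegral ℤ (phi a s z) := fun z =>
      (Algebra.IsIntegral.isIntegral (R := ℤ) z).map (phi a s).toIntAlgHom
    refine ⟨phi_injective, fun {z} => ⟨fun hz => ?_, ?_⟩⟩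
    swap
    · rintro ⟨y, rfl⟩; exact hin y
    have hs : IsIntegral ℤ (star z) := hz.map (starRingEnd _).toIntAlgHom
    have key : ∀ t : K, IsIntegral ℤ (algebraMap K (QuadraticAlgebra K (a : K) (s : K)) t) →
        ∃ r : 𝓞 K, (r : K) = t := fun t ht =>
      ⟨⟨t, (isIntegral_algHom_iff (algebraMap K _).toIntAlgHom algebraMap_injective).mp ht⟩, rfl⟩
    obtain ⟨r, hr⟩ := key (z.im ^ 2 * (s ^ 2 + 4 * a)) (by
      have e : algebraMap K _ (z.im ^ 2 * (s ^ 2 + 4 * a)) = (z - star z) ^ 2 := by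
        ext <;> simp [sq] <;> ring
      exact e ▸ (hz.sub hs).pow 2)
    obtain ⟨p, q, hpq, e⟩ := IsFractionRing.exists_reduced_fraction (𝓞 K) z.im
    have e' : z.im * algebraMap (𝓞 K) K q = algebraMap (𝓞 K) K p := by rw [← e]; exact IsLocalization.mk'_spec _ _ _
    have h1 : (q : 𝓞 K) * q ∣ s ^ 2 + 4 * a := by
      refine (hpq.symm.mul_left hpq.symm).pow_right (n := 2) |>.dvd_of_dvd_mul_left ⟨r, ?_⟩
      apply RingOfIntegers.coe_injective
      push_cast
      change algebraMap (𝓞 K) K p ^ 2 * ((s : K) ^ 2 + 4 * a) =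
        algebraMap (𝓞 K) K q * algebraMap (𝓞 K) K q * (r : K)
      rw [hr, ← e']; ring
    obtain ⟨v, hv⟩ := (hω _ h1).exists_right_inv
    have hy : ((p * v : 𝓞 K) : K) = z.im := by
      have := congrArg (algebraMap (𝓞 K) K) hv
      rw [map_mul, map_one] at this
      refine (map_mul (algebraMap (𝓞 K) K) p v).trans ?_
      linear_combination (-algebraMap (𝓞 K) K v) * e' + z.im * this
    obtain ⟨x, hx⟩ := key z.re (by
      have e : algebraMap K _ z.re = z - phi a s ⟨0, p * v⟩ := by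
        ext <;> simp [phi, ← hy]
      exact e ▸ hz.sub (hin ⟨0, p * v⟩))
    exact ⟨⟨x, p * v⟩, QuadraticAlgebra.ext hx hy⟩
  exact ⟨IsIntegralClosure.isDedekindDomain ℤ ℚ (QuadraticAlgebra K (a : K) (s : K)) _,
    @Finite.of_fintype _ (ClassGroup.fintypeOfAdmissibleOfFinite ℚ
      (QuadraticAlgebra K (a : K) (s : K)) AbsoluteValue.absIsAdmissible)⟩

end nf

theorem mod_squares {G B : Type*} [CommGroup G] [Finite B] (g : B → G)
    (hg : ∀ x, ∃ b z, x = z ^ 2 * g b) {n : ℕ} (u : Fin n → G)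
    (hind : ∀ J : Finset (Fin n), J.Nonempty → ¬ IsSquare (∏ j ∈ J, u j))
    (hB : Nat.card B ≤ 2 ^ n) (w : G) :
    ∃ (J : Finset (Fin n)) (z : G), w = z ^ 2 * ∏ j ∈ J, u j := by
  let S := (powMonoidHom 2 : G →* G).range
  let π := QuotientGroup.mk' S
  have h2 : ∀ x, π x ^ 2 = 1 := fun x => by
    rw [← map_pow]; exact (QuotientGroup.eq_one_iff _).mpr ⟨x, rfl⟩
  have hg' : Function.Surjective fun b => π (g b) := by
    intro x
    obtain ⟨x, rfl⟩ := QuotientGroup.mk'_surjective S x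
    obtain ⟨b, z, rfl⟩ := hg x
    exact ⟨b, by rw [map_mul, map_pow, h2, one_mul]⟩
  have : Finite (G ⧸ S) := Finite.of_surjective _ hg'
  let f : Finset (Fin n) → G ⧸ S := fun J => π (∏ j ∈ J, u j)
  have hf : Function.Injective f := by
    intro J J' h
    by_contra hne
    refine hind (symmDiff J J') (Finset.nonempty_iff_ne_empty.mpr
      (mt symmDiff_eq_bot.mp hne)) ?_
    have e1 : f J = f (J \ J') * f (J ∩ J') := by
      simp only [f]; rw [← map_mul, mul_comm, Finset.prod_inter_mul_prod_sdiff]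
    have e2 : f J' = f (J' \ J) * f (J ∩ J') := by
      simp only [f]; rw [← map_mul, mul_comm, Finset.inter_comm, Finset.prod_inter_mul_prod_sdiff]
    have e3 : f (symmDiff J J') = f (J \ J') * f (J' \ J) := by
      simp only [f]
      rw [← map_mul, ← Finset.prod_union disjoint_sdiff_sdiff]; rfl
    rw [mul_right_cancel (e1.symm.trans (h.trans e2)), ← sq, h2] at e3
    obtain ⟨z, hz⟩ := (QuotientGroup.eq_one_iff _).mp e3
    exact ⟨z, by rw [← hz, ← sq]; rfl⟩
  obtain ⟨J, hJ⟩ := (hf.bijective_of_nat_card_le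
    ((Nat.card_le_card_of_surjective _ hg').trans (by simpa using hB))).2 (π w)
  obtain ⟨_, ⟨z, rfl⟩, hz⟩ := (QuotientGroup.mk'_eq_mk' S).mp hJ
  exact ⟨J, z, by rw [← hz, mul_comm]; rfl⟩

end Genus

open Genus

variable {K : Type*} [Field K] [NumberField K] [IsTotallyReal K] [IsPrincipalIdealRing (𝓞 K)]

/-- genus theory for a CM extension with at most one ramified prime -/
theorem norm_form_rep (s a η : 𝓞 K) (hω : Prime (s ^ 2 + 4 * a) ∨ IsUnit (s ^ 2 + 4 * a))
    (hneg : TotPos ((-(s ^ 2 + 4 * a) : 𝓞 K) : K))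
    (hU : ∀ u : (𝓞 K)ˣ, TotPos ((u : 𝓞 K) : K) → ∃ w : (𝓞 K)ˣ,
      (u : 𝓞 K) = w ^ 2 ∨ (u : 𝓞 K) = η * w ^ 2)
    (hcase : (∃ x y : 𝓞 K, η = x ^ 2 + s * x * y - a * y ^ 2) ∨
      (∃ κ : 𝓞 K, Prime κ ∧ ¬ κ ∣ 2 ∧ (∃ r : 𝓞 K, κ ∣ s ^ 2 + 4 * a - r ^ 2) ∧
        ∀ w : (𝓞 K)ˣ, ¬ TotPos ((w * κ : 𝓞 K) : K)))
    (β : 𝓞 K) (hβ : TotPos (β : K))
    (hsplit : ∀ κ : 𝓞 K, Prime κ → κ ∣ β → ¬ κ ∣ 2 ∧ ∃ r : 𝓞 K, κ ∣ s ^ 2 + 4 * a - r ^ 2) :
    ∃ x y : K, (β : K) = x ^ 2 + s * x * y - a * y ^ 2 := by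
  have hsf : Squarefree (s ^ 2 + 4 * a) := hω.elim (·.squarefree) (·.squarefree)
  have hneg' : TotPos (-((s : K) ^ 2 + 4 * a)) := by
    convert hneg using 1
    simp [map_ofNat]
  obtain ⟨_, _⟩ := dedekind hsf hneg'
  have hpos : ∀ z : QuadraticAlgebra (𝓞 K) a s, z ≠ 0 → TotPos ((norm z : 𝓞 K) : K) := fun z hz =>
    norm_phi z ▸ norm_pos hneg' ((map_ne_zero_iff _ phi_injective).mpr hz)
  have hβ0 : β ≠ 0 := fun h => TotPos.ne_zero hβ (by simp [h])
  let sq : ClassGroup (QuadraticAlgebra (𝓞 K) a s) →* _ := powMonoidHom 2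
  have hT : ∀ g ∈ sq.ker, g ≠ 1 → ∃ (I : Ideal (QuadraticAlgebra (𝓞 K) a s))
      (x y : QuadraticAlgebra (𝓞 K) a s) (w : (𝓞 K)ˣ), I ≠ 0 ∧ cl I = g ∧ x ≠ 0 ∧ y ≠ 0 ∧
      Ideal.span {x} * I = Ideal.span {y} * cj I ∧ IsUnit η ∧ norm x = η * w ^ 2 * norm y := by
    intro g hg hg1
    obtain ⟨I, x, y, u, hI, rfl, hx, hy, e, hn⟩ := two_torsion hω hg
    obtain ⟨w, hw | hw⟩ := hU u (TotPos.of_mul (by rw [hn]; simp) (hpos y hy) (hpos x hx))
    · exact absurd (hilbert hω hI hx (ε := algebraMap _ _ (w : 𝓞 K)) (by simp) e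
        (by rw [hn, hw, QuadraticAlgebra.norm_algebraMap])) hg1
    · exact ⟨I, x, y, w, hI, rfl, hx, hy, e, isUnit_of_mul_isUnit_left (hw ▸ u.isUnit), hw ▸ hn⟩
  obtain ⟨I, hI⟩ := exists_norm_ideal hsf β hβ0 hsplit
  have key : (∃ x y : QuadraticAlgebra (𝓞 K) a s, y ≠ 0 ∧ norm x = η * norm y) ∧
      cl I ∈ sq.range := by
    rcases hcase with ⟨x, y, h⟩ | ⟨κ, hκ, hκ2, hr, hκp⟩
    · have hη : norm (⟨x, y⟩ : QuadraticAlgebra (𝓞 K) a s) = η := by rw [h, norm_def]; ring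
      refine ⟨⟨⟨x, y⟩, 1, one_ne_zero, by simp [hη]⟩, ?_⟩
      have : sq.ker = ⊥ := by
        refine (Subgroup.eq_bot_iff_forall _).mpr fun g hg => by_contra fun hg1 => ?_
        obtain ⟨J, x', y', w, hJ, rfl, hx, hy, e, hu, hn⟩ := hT g hg hg1
        exact hg1 (hilbert hω hJ hx (ε := ⟨x, y⟩ * algebraMap _ _ (w : 𝓞 K))
          (by simp [hη, hu]) e (by rw [hn, map_mul, hη, QuadraticAlgebra.norm_algebraMap]))
      rw [Subgroup.index_eq_one.mp (Subgroup.index_range.trans (by rw [this, Subgroup.card_bot]))]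
      trivial
    · have hns : ∀ (γ : 𝓞 K) (J : Ideal (QuadraticAlgebra (𝓞 K) a s)), TotPos (γ : K) →
          J * cj J = Ideal.span {algebraMap _ _ (γ * κ)} → cl J ∉ sq.range := by
        intro γ J hγ hJ h
        obtain ⟨x, y, u, hx, hy, e⟩ := sq_class hω
          (mul_ne_zero (fun h => TotPos.ne_zero hγ (by simp [h])) hκ.ne_zero) hJ h
        have e2 : (u⁻¹ : (𝓞 K)ˣ) * κ * (γ * norm x) = norm y := by
          rw [mul_assoc, ← mul_assoc κ, mul_comm κ, e, Units.inv_mul_cancel_left]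
        exact hκp u⁻¹ (TotPos.of_mul (by rw [← e2]; simp) (TotPos.mul hγ (hpos x hx)) (hpos y hy))
      obtain ⟨P, hP⟩ := exists_split hsf hκ hκ2 hr
      have hP1 := hns 1 P (fun σ => by simp) (by rwa [one_mul])
      obtain ⟨t, ht, ht1⟩ : ∃ t ∈ sq.ker, t ≠ 1 := by
        by_contra! h
        rw [Subgroup.index_eq_one.mp (Subgroup.index_range.trans (by
          rw [(Subgroup.eq_bot_iff_forall _).mpr h, Subgroup.card_bot]))] at hP1
        exact hP1 trivial
      obtain ⟨J, x, y, w, hJ, rfl, hx, hy, e, hu, hn⟩ := hT t ht ht1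
      refine ⟨⟨x, algebraMap _ _ (w : 𝓞 K) * y, mul_ne_zero (w.isUnit.map _).ne_zero hy,
        by rw [hn, map_mul, QuadraticAlgebra.norm_algebraMap, mul_assoc]⟩, ?_⟩
      have h2 : sq.range.index = 2 := by
        rw [Subgroup.index_range, Nat.card_eq_two_iff' (1 : sq.ker)]
        refine ⟨⟨_, ht⟩, fun h => ht1 (congrArg Subtype.val h), ?_⟩
        rintro ⟨g, hg⟩ hg1
        obtain ⟨J', x', y', w', hJ', rfl, hx', hy', e', -, hn'⟩ :=
          hT g hg fun h => hg1 (Subtype.ext h)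
        have := hilbert hω (mul_ne_zero hJ hJ') (mul_ne_zero hx hx') (y := y * y')
          (ε := algebraMap _ _ (η * w * w')) (by simp [hu])
          (by rw [cj_mul, ← Ideal.span_singleton_mul_span_singleton,
            ← Ideal.span_singleton_mul_span_singleton, mul_mul_mul_comm, e, e', mul_mul_mul_comm])
          (by rw [QuadraticAlgebra.norm_algebraMap, map_mul, map_mul, hn, hn']; ring)
        rw [cl_mul hJ hJ'] at this
        exact Subtype.ext (mul_left_cancel (this.trans (ht.symm.trans (pow_two _))))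
      have hne : ∀ (γ : 𝓞 K) (J : Ideal (QuadraticAlgebra (𝓞 K) a s)), γ ≠ 0 →
          J * cj J = Ideal.span {algebraMap _ _ γ} → J ≠ 0 := by
        rintro γ _ hγ h rfl
        rw [zero_mul, eq_comm, Ideal.zero_eq_bot, Ideal.span_singleton_eq_bot] at h
        exact hγ (algebraMap_injective (h.trans (map_zero _).symm))
      by_contra hI1
      refine hns β (I * P) hβ ?_ ?_
      · rw [cj_mul, mul_mul_mul_comm, hI, hP, Ideal.span_singleton_mul_span_singleton, map_mul]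
      · rw [cl_mul (hne _ _ hβ0 hI) (hne _ _ hκ.ne_zero hP), Subgroup.mul_mem_iff_of_index_two h2]
        exact iff_of_false hI1 hP1
  obtain ⟨⟨x', y', hy', hη⟩, h⟩ := key
  obtain ⟨x, y, u, hx, hy, e⟩ := sq_class hω hβ0 hI h
  obtain ⟨x, y, hx, e⟩ : ∃ x y : QuadraticAlgebra (𝓞 K) a s, x ≠ 0 ∧ β * norm x = norm y := by
    obtain ⟨w, hw | hw⟩ := hU u (TotPos.of_mul (by rw [← map_mul, ← e]; simp) (hpos y hy)
      (TotPos.mul hβ (hpos x hx)))
    · exact ⟨x, algebraMap _ _ (w : 𝓞 K) * y, hx, by rw [e, hw, map_mul, QuadraticAlgebra.norm_algebraMap]⟩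
    · exact ⟨x * y', algebraMap _ _ (w : 𝓞 K) * y * x', mul_ne_zero hx hy', by
        rw [map_mul, map_mul, map_mul, ← mul_assoc, e, hw, QuadraticAlgebra.norm_algebraMap, hη]; ring⟩
  have hn := TotPos.ne_zero (hpos x hx)
  have e2 := norm_phi (y * star x)
  rw [map_mul QuadraticAlgebra.norm, QuadraticAlgebra.norm_star, ← e, norm_def] at e2
  refine ⟨(phi a s (y * star x)).re / (norm x : 𝓞 K), (phi a s (y * star x)).im / (norm x : 𝓞 K), ?_⟩
  simp only [RingOfIntegers.coe_eq_algebraMap, map_mul (algebraMap (𝓞 K) K)] at e2 hn ⊢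
  field_simp
  linear_combination -e2

omit [IsPrincipalIdealRing (𝓞 K)] in
/-- units modulo squares -/
theorem units_mod_squares {n : ℕ} (hn : Module.finrank ℚ K = n) (u : Fin n → (𝓞 K)ˣ)
    (hind : ∀ J : Finset (Fin n), J.Nonempty → ¬ IsSquare (∏ j ∈ J, u j))
    (w : (𝓞 K)ˣ) : ∃ (J : Finset (Fin n)) (z : (𝓞 K)ˣ), w = z ^ 2 * ∏ j ∈ J, u j := by
  refine mod_squares (fun b : Fin 2 × (Fin (Units.rank K) → Fin 2) =>
    (-1) ^ (b.1 : ℕ) * ∏ i, Units.fundSystem K i ^ (b.2 i : ℕ)) (fun x => ?_) u hind ?_ w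
  · obtain ⟨⟨ζ, e⟩, rfl, -⟩ := Units.exist_unique_eq_mul_prod K x
    have h1 : ∀ m : ℤ, ∃ (k : ℤ) (r : Fin 2), m = k * 2 + (r : ℕ) := fun m => by
      obtain ⟨k, rfl | rfl⟩ := Int.even_or_odd' m
      exacts [⟨k, 0, by simp [mul_comm]⟩, ⟨k, 1, by simp [mul_comm]⟩]
    choose k r hk using h1
    obtain ⟨c, hc⟩ : ∃ c : Fin 2, ζ.1 = (-1) ^ (c : ℕ) := by
      obtain ⟨v⟩ : Nonempty (InfinitePlace K) := inferInstance
      obtain ⟨m, hm, h1⟩ := isOfFinOrder_iff_pow_eq_one.mp ((CommGroup.mem_torsion _).mp ζ.2)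
      let τ := InfinitePlace.embedding_of_isReal (IsTotallyReal.isReal v)
      let σ := τ.comp (algebraMap (𝓞 K) K)
      have hσ : Function.Injective σ := τ.injective.comp RingOfIntegers.coe_injective
      have h3 : σ ζ.1 ^ m = 1 := by rw [← map_pow, ← Units.val_pow_eq_pow_val, h1]; simp
      rcases (pow_eq_one_iff_of_ne_zero hm.ne').mp h3 with h4 | ⟨h4, -⟩
      · exact ⟨0, Units.ext (hσ (by simpa using h4))⟩
      · exact ⟨1, Units.ext (hσ (by simpa using h4))⟩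
    refine ⟨(c, fun i => r (e i)), ∏ i, Units.fundSystem K i ^ k (e i), ?_⟩
    simp only [hc]
    rw [mul_left_comm, ← Finset.prod_pow, ← Finset.prod_mul_distrib]
    congr 2
    funext i
    conv_lhs => rw [hk (e i), zpow_add, zpow_mul, zpow_natCast, zpow_ofNat]
  · have h1 : Units.rank K + 1 = n := by
      rw [Units.rank, Nat.sub_add_cancel Fintype.card_pos, ← hn, IsTotallyReal.finrank,
        InfinitePlace.card_eq_nrRealPlaces_add_nrComplexPlaces,
        IsTotallyReal.nrComplexPlaces_eq_zero, add_zero]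
    simp [← h1, pow_succ']

end Pool.Agent.Lib.MP_aed2da_nt
end

-- part Pool.Agent.Lib.MP_aed2da_nt.QCheb
section

/-!
Primes of a number field with prescribed quadratic residue symbols.
-/

namespace Pool.Agent.Lib.MP_aed2da_nt

open NumberField

namespace QC

open Filter Topology Asymptotics

section Zeta

variable {F : Type*} [Field F] [NumberField F]

/-- The weight `N(I)^(-s)`. -/
noncomputable def w (s : ℝ) (I : Ideal (𝓞 F)) : ℝ := (Ideal.absNorm I : ℝ) ^ (-s)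

theorem w_nonneg (s : ℝ) (I : Ideal (𝓞 F)) : 0 ≤ w s I := by unfold w; positivity

theorem w_mul (s : ℝ) (I J : Ideal (𝓞 F)) : w s (I * J) = w s I * w s J := by
  simp only [w, map_mul, Nat.cast_mul]
  exact Real.mul_rpow (by positivity) (by positivity)

theorem w_bot {s : ℝ} (hs : s ≠ 0) : w s (⊥ : Ideal (𝓞 F)) = 0 := by
  simp [w, hs]

theorem w_top (s : ℝ) : w s (⊤ : Ideal (𝓞 F)) = 1 := by simp [w]

theorem w_anti {s t : ℝ} (hs : 0 < s) (h : s ≤ t) (I : Ideal (𝓞 F)) : w t I ≤ w s I := by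
  by_cases hI : I = ⊥
  · subst hI
    rw [w_bot hs.ne', w_bot (by linarith)]
  · have : (1 : ℝ) ≤ Ideal.absNorm I := by
      exact_mod_cast Nat.one_le_iff_ne_zero.2 fun e => hI (Ideal.absNorm_eq_zero_iff.1 e)
    exact Real.rpow_le_rpow_of_exponent_le this (by linarith)

theorem two_le {P : Ideal (𝓞 F)} (h : P.IsMaximal) : 2 ≤ Ideal.absNorm P := by
  have h0 : Ideal.absNorm P ≠ 0 := fun e =>
    Ring.ne_bot_of_isMaximal_of_not_isField h (RingOfIntegers.not_isField F)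
      (Ideal.absNorm_eq_zero_iff.1 e)
  have h1 : Ideal.absNorm P ≠ 1 := fun e => h.ne_top (Ideal.absNorm_eq_one_iff.1 e)
  omega

theorem w_le_half {s : ℝ} (hs : 1 ≤ s) {P : Ideal (𝓞 F)} (h : P.IsMaximal) : w s P ≤ 1 / 2 := by
  refine (w_anti one_pos hs P).trans ?_
  have : (2 : ℝ) ≤ Ideal.absNorm P := by exact_mod_cast two_le h
  rw [w, Real.rpow_neg_one, ← one_div]
  gcongr

theorem w_sq {s : ℝ} (hs : 1 ≤ s) (I : Ideal (𝓞 F)) : w s I ^ 2 ≤ w 2 I := by
  refine le_trans (le_of_eq ?_) (w_anti two_pos (show 2 ≤ 2 * s by linarith) I)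
  rw [w, w, ← Real.rpow_natCast, ← Real.rpow_mul (by positivity)]
  congr 1
  push_cast
  ring

theorem tsum_fiber (s : ℝ) (n : ℕ) :
    ∑' I : (fun I : Ideal (𝓞 F) => Ideal.absNorm I) ⁻¹' {n}, w s I.1 =
      (Nat.card {I : Ideal (𝓞 F) // Ideal.absNorm I = n} : ℝ) * (n : ℝ) ^ (-s) := by
  have : ∀ I : (fun I : Ideal (𝓞 F) => Ideal.absNorm I) ⁻¹' {n}, w s I.1 = (n : ℝ) ^ (-s) := by
    rintro ⟨I, hI⟩
    have h : Ideal.absNorm I = n := hI
    simp [w, h]
  rw [tsum_congr this, tsum_const, nsmul_eq_mul]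
  rfl

theorem term_eq {s : ℝ} (hs : s ≠ 0) (n : ℕ) :
    LSeries.term (fun n => (Nat.card {I : Ideal (𝓞 F) // Ideal.absNorm I = n} : ℂ)) s n =
      (((Nat.card {I : Ideal (𝓞 F) // Ideal.absNorm I = n} : ℝ) * (n : ℝ) ^ (-s) : ℝ) : ℂ) := by
  rcases eq_or_ne n 0 with rfl | hn
  · simp [hs]
  · rw [LSeries.term_of_ne_zero hn]
    push_cast
    rw [Complex.ofReal_cpow (by positivity), div_eq_mul_inv, ← Complex.cpow_neg]
    simp

theorem summable_of_LS {s : ℝ} (hs : s ≠ 0) (h : LSeriesSummable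
    (fun n => (Nat.card {I : Ideal (𝓞 F) // Ideal.absNorm I = n} : ℂ)) s) :
    Summable (w (F := F) s) := by
  have h1 : Summable fun n : ℕ =>
      (Nat.card {I : Ideal (𝓞 F) // Ideal.absNorm I = n} : ℝ) * (n : ℝ) ^ (-s) :=
    Complex.summable_ofReal.1 (h.congr (term_eq hs))
  rw [← (Equiv.sigmaFiberEquiv fun I : Ideal (𝓞 F) => Ideal.absNorm I).summable_iff]
  refine (summable_sigma_of_nonneg fun x => w_nonneg _ _).2 ⟨fun n => ?_, ?_⟩
  · have : Finite {I : Ideal (𝓞 F) // Ideal.absNorm I = n} :=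
      (Ideal.finite_setOfPred_absNorm_eq n).to_subtype
    exact Summable.of_finite
  · exact h1.congr fun n => (tsum_fiber s n).symm

theorem zeta_eq {s : ℝ} (hs : s ≠ 0) (h : Summable (w (F := F) s)) :
    dedekindZeta F s = ((∑' I, w (F := F) s I : ℝ) : ℂ) := by
  have h1 := (h.hasSum.tsum_fiberwise fun I : Ideal (𝓞 F) => Ideal.absNorm I).tsum_eq
  rw [← h1, Complex.ofReal_tsum, dedekindZeta, LSeries]
  refine tsum_congr fun n => ?_
  rw [tsum_fiber, term_eq hs]

variable (F) in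
theorem ev_summable : ∀ᶠ s : ℝ in 𝓝[>] 1, Summable (w (F := F) s) := by
  have h := (tendsto_sub_one_mul_dedekindZeta_nhdsGT F).eventually_ne
    (Complex.ofReal_ne_zero.2 (dedekindZeta_residue_ne_zero F))
  filter_upwards [h, self_mem_nhdsWithin] with s h1 h2
  refine summable_of_LS (by have : 1 < s := h2; linarith) (by_contra fun h3 => h1 ?_)
  rw [dedekindZeta, LSeries.eq_zero_of_not_LSeriesSummable _ _ h3, mul_zero]

theorem summable_w {s : ℝ} (hs : 1 < s) : Summable (w (F := F) s) := by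
  obtain ⟨t, h1, h2⟩ := ((ev_summable F).and (Ioo_mem_nhdsGT hs)).exists
  exact h1.of_nonneg_of_le (w_nonneg _) (w_anti (by linarith [h2.1]) h2.2.le)

variable (F) in
theorem tendsto_Z : Tendsto (fun s : ℝ => (s - 1) * ∑' I, w (F := F) s I) (𝓝[>] 1)
    (𝓝 (dedekindZeta_residue F)) := by
  have h := (Complex.continuous_re.tendsto _).comp (tendsto_sub_one_mul_dedekindZeta_nhdsGT F)
  refine h.congr' ?_
  filter_upwards [self_mem_nhdsWithin] with s hs
  have hs : 1 < s := hs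
  simp only [Function.comp_apply]
  rw [zeta_eq (by linarith) (summable_w hs)]
  norm_cast

theorem summable_ite {s : ℝ} (hs : 1 < s) (c : Ideal (𝓞 F) → Prop) [DecidablePred c] :
    Summable fun I => if c I then w s I else 0 :=
  (summable_w hs).of_nonneg_of_le (fun I => by split_ifs; exacts [w_nonneg _ _, le_rfl])
    fun I => by split_ifs; exacts [le_rfl, w_nonneg _ _]

open Classical in
theorem sieve {s : ℝ} (hs : 1 < s) (T : Finset (Ideal (𝓞 F))) (hT : ∀ P ∈ T, P.IsMaximal) :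
    ∑' I, (if ∀ P ∈ T, ¬ P ∣ I then w s I else 0) =
      (∑' I, w (F := F) s I) * ∏ P ∈ T, (1 - w s P) := by
  induction T using Finset.induction_on with
  | empty => simp
  | insert P T hP ih =>
    have hpr : ∀ Q ∈ insert P T, Prime Q := fun Q hQ => Ideal.prime_of_isPrime
      (Ring.ne_bot_of_isMaximal_of_not_isField (hT Q hQ) (RingOfIntegers.not_isField F))
      (hT Q hQ).isPrime
    rw [Finset.prod_insert hP, mul_left_comm, ← ih fun Q hQ => hT Q (Finset.mem_insert_of_mem hQ)]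
    have h1 : ∑' I, (if P ∣ I ∧ ∀ Q ∈ T, ¬ Q ∣ I then w s I else 0) =
        w s P * ∑' I, (if ∀ Q ∈ T, ¬ Q ∣ I then w s I else 0) := by
      rw [← (mul_right_injective₀ (hpr P (Finset.mem_insert_self _ _)).ne_zero).tsum_eq,
        ← tsum_mul_left]
      · refine tsum_congr fun J => ?_
        have : (P ∣ P * J ∧ ∀ Q ∈ T, ¬ Q ∣ P * J) ↔ ∀ Q ∈ T, ¬ Q ∣ J := by
          refine ⟨fun h Q hQ e => h.2 Q hQ (e.mul_left _), fun h => ⟨dvd_mul_right _ _,
            fun Q hQ e => ?_⟩⟩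
          rcases (hpr Q (Finset.mem_insert_of_mem hQ)).dvd_or_dvd e with e | e
          · have := (hT P (Finset.mem_insert_self _ _)).eq_of_le
              (hT Q (Finset.mem_insert_of_mem hQ)).ne_top (Ideal.le_of_dvd e)
            exact hP (this ▸ hQ)
          · exact h Q hQ e
        simp only [this, w_mul, mul_ite, mul_zero]
      · intro I hI
        by_contra h
        refine hI (if_neg fun h2 => h ?_)
        obtain ⟨J, rfl⟩ := h2.1
        exact ⟨J, rfl⟩
    rw [sub_mul, one_mul, ← h1, ← (summable_ite hs _).tsum_sub (summable_ite hs _)]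
    refine tsum_congr fun I => ?_
    simp only [Finset.forall_mem_insert]
    by_cases h2 : P ∣ I <;> by_cases h3 : ∀ Q ∈ T, ¬ Q ∣ I <;> simp [h2, h3]

open Classical in
/-- The weight restricted to maximal ideals. -/
noncomputable def pw (s : ℝ) (I : Ideal (𝓞 F)) : ℝ := if I.IsMaximal then w s I else 0

theorem pw_nonneg (s : ℝ) (I : Ideal (𝓞 F)) : 0 ≤ pw s I := by
  unfold pw; split_ifs; exacts [w_nonneg _ _, le_rfl]

theorem pw_le (s : ℝ) (I : Ideal (𝓞 F)) : pw s I ≤ w s I := by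
  unfold pw; split_ifs; exacts [le_rfl, w_nonneg _ _]

theorem summable_pw {s : ℝ} (hs : 1 < s) : Summable (pw (F := F) s) :=
  (summable_w hs).of_nonneg_of_le (pw_nonneg _) (pw_le _)

theorem one_le_Z {s : ℝ} (hs : 1 < s) : 1 ≤ ∑' I, w (F := F) s I := by
  rw [← w_top (F := F) s]
  exact (summable_w hs).le_tsum _ fun _ _ => w_nonneg _ _

open Classical in
theorem P_le {s : ℝ} (hs : 1 < s) : ∑' I, pw (F := F) s I ≤ Real.log (∑' I, w (F := F) s I) := by
  refine (summable_pw hs).tsum_le_of_sum_le fun u => ?_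
  have hZ := one_le_Z (F := F) hs
  rw [Real.le_log_iff_exp_le (by linarith)]
  simp only [pw]
  rw [← Finset.sum_filter]
  set T := u.filter Ideal.IsMaximal
  have hT : ∀ P ∈ T, P.IsMaximal := fun P hP => (Finset.mem_filter.1 hP).2
  have h1 : 1 ≤ (∑' I, w (F := F) s I) * ∏ P ∈ T, (1 - w s P) := by
    rw [← sieve hs T hT]
    refine le_trans (le_of_eq ?_) (Summable.le_tsum ?_ ⊤ fun I _ => ?_)
    · rw [if_pos fun P hP e => (hT P hP).ne_top (top_le_iff.1 (Ideal.le_of_dvd e)), w_top]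
    · exact summable_ite hs _
    · split_ifs; exacts [w_nonneg _ _, le_rfl]
  have h2 : ∏ P ∈ T, (1 - w s P) ≤ Real.exp (-∑ P ∈ T, w s P) := by
    rw [← Finset.sum_neg_distrib, Real.exp_sum]
    exact Finset.prod_le_prod (fun P hP => by linarith [w_le_half hs.le (hT P hP)])
      fun P _ => Real.one_sub_le_exp_neg _
  have h3 := h1.trans (mul_le_mul_of_nonneg_left h2 (by linarith))
  rwa [Real.exp_neg, ← div_eq_mul_inv, le_div_iff₀ (Real.exp_pos _), one_mul] at h3

theorem exp_le {x : ℝ} (h : x ≤ 1 / 2) : Real.exp (-(x + 2 * x ^ 2)) ≤ 1 - x := by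
  rw [Real.exp_neg, inv_le_comm₀ (Real.exp_pos _) (by linarith)]
  refine le_trans ?_ (Real.add_one_le_exp _)
  rw [inv_le_iff_one_le_mul₀ (by linarith)]
  nlinarith [mul_nonneg (sq_nonneg x) (show 0 ≤ 1 - 2 * x by linarith)]

open Classical in
theorem le_P {s : ℝ} (hs : 1 < s) : Real.log (∑' I, w (F := F) s I) ≤
    ∑' I, pw (F := F) s I + (Real.log 2 + 2 * ∑' I, w (F := F) 2 I) := by
  have hZ := one_le_Z (F := F) hs
  obtain ⟨U, hU⟩ := (summable_w (F := F) hs).tsum_vanishing (gt_mem_nhds one_pos)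
  set T := (U.erase ⊥).biUnion fun I => (UniqueFactorizationMonoid.normalizedFactors I).toFinset
    with hTd
  have hT : ∀ P ∈ T, P.IsMaximal := by
    intro P hP
    obtain ⟨I, -, h⟩ := Finset.mem_biUnion.1 hP
    have := UniqueFactorizationMonoid.prime_of_normalized_factor P (Multiset.mem_toFinset.1 h)
    exact (Ideal.isPrime_of_prime this).isMaximal this.ne_zero
  have h1 : (∑' I, w (F := F) s I) * ∏ P ∈ T, (1 - w s P) ≤ 2 := by
    rw [← sieve hs T hT]
    have h2 := hU ((↑U)ᶜ) disjoint_compl_left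
    rw [tsum_subtype] at h2
    have h3 : Summable ((↑U : Set (Ideal (𝓞 F)))ᶜ.indicator (w s)) := (summable_w hs).indicator _
    have h4 : HasSum (fun I : Ideal (𝓞 F) => if I = ⊤ then (1 : ℝ) else 0) 1 := hasSum_ite_eq _ _
    have h5 := h4.add h3.hasSum
    have h6 : ∀ I : Ideal (𝓞 F), (if ∀ P ∈ T, ¬ P ∣ I then w s I else 0) ≤
        (if I = ⊤ then (1 : ℝ) else 0) + (↑U : Set (Ideal (𝓞 F)))ᶜ.indicator (w s) I := by
      intro I
      have h7 : 0 ≤ (↑U : Set (Ideal (𝓞 F)))ᶜ.indicator (w s) I :=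
        Set.indicator_nonneg (fun _ _ => w_nonneg _ _) _
      by_cases h8 : I = ⊤
      · subst h8
        rw [if_pos rfl, w_top]
        split_ifs <;> linarith
      rw [if_neg h8, zero_add]
      split_ifs with h9
      · by_cases h10 : I = ⊥
        · subst h10
          rwa [w_bot (by linarith)]
        rw [Set.indicator_of_mem]
        intro hI
        obtain ⟨P, hP⟩ := UniqueFactorizationMonoid.exists_mem_normalizedFactors h10
          (fun e => h8 (Ideal.isUnit_iff.1 e))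
        exact h9 P (Finset.mem_biUnion.2 ⟨I, Finset.mem_erase.2 ⟨h10, hI⟩,
          Multiset.mem_toFinset.2 hP⟩) (UniqueFactorizationMonoid.dvd_of_mem_normalizedFactors hP)
      · exact h7
    refine (Summable.tsum_le_tsum h6 ?_ h5.summable).trans ?_
    · exact summable_ite hs _
    · rw [h5.tsum_eq]
      have : (∑' I, (↑U : Set (Ideal (𝓞 F)))ᶜ.indicator (w s) I) < 1 := h2
      linarith
  have h2 : Real.exp (-(∑' I, pw (F := F) s I + 2 * ∑' I, w (F := F) 2 I)) ≤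
      ∏ P ∈ T, (1 - w s P) := by
    refine le_trans ?_ (Finset.prod_le_prod (fun P _ => (Real.exp_pos _).le)
      fun P hP => exp_le (w_le_half hs.le (hT P hP)))
    rw [← Real.exp_sum, Finset.sum_neg_distrib, Real.exp_le_exp, neg_le_neg_iff,
      Finset.sum_add_distrib, ← Finset.mul_sum]
    gcongr
    · refine le_trans (le_of_eq (Finset.sum_congr rfl fun P hP => ?_))
        ((summable_pw hs).sum_le_tsum T fun _ _ => pw_nonneg _ _)
      rw [pw, if_pos (hT P hP)]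
    · exact (Finset.sum_le_sum fun P _ => w_sq hs.le P).trans
        ((summable_w one_lt_two).sum_le_tsum T fun _ _ => w_nonneg _ _)
  have h3 := Real.log_le_log (by positivity)
    ((mul_le_mul_of_nonneg_left h2 (by linarith)).trans h1)
  rw [Real.log_mul (by positivity) (by positivity), Real.log_exp] at h3
  linarith

variable (F) in
theorem P_bigO : (fun s : ℝ => ∑' I, pw (F := F) s I + Real.log (s - 1)) =O[𝓝[>] 1]
    fun _ => (1 : ℝ) := by
  have h1 := ((tendsto_Z F).log (dedekindZeta_residue_ne_zero F)).isBigO_one ℝ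
  have h2 : (fun s : ℝ => Real.log (∑' I, w (F := F) s I) - ∑' I, pw (F := F) s I) =O[𝓝[>] 1]
      fun _ => (1 : ℝ) := by
    refine IsBigO.of_bound (Real.log 2 + 2 * ∑' I, w (F := F) 2 I) ?_
    filter_upwards [self_mem_nhdsWithin] with s hs
    have hs : 1 < s := hs
    rw [norm_one, mul_one, Real.norm_eq_abs, abs_of_nonneg (by linarith [P_le (F := F) hs])]
    linarith [le_P (F := F) hs]
  refine (h1.sub h2).congr' ?_ EventuallyEq.rfl
  filter_upwards [self_mem_nhdsWithin] with s hs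
  have hs : 1 < s := hs
  rw [Real.log_mul (by linarith) (by linarith [one_le_Z (F := F) hs])]
  ring

end Zeta

section Chi

variable {K : Type*} [Field K] [NumberField K]

open Classical in
/-- The quadratic residue symbol of `x` modulo `q`. -/
noncomputable def chi (q : Ideal (𝓞 K)) (x : 𝓞 K) : ℝ :=
  if x ∈ q then 0 else if ∃ r : 𝓞 K, x - r ^ 2 ∈ q then 1 else -1

omit [NumberField K] in
theorem abs_chi_le (q : Ideal (𝓞 K)) (x : 𝓞 K) : |chi q x| ≤ 1 := by
  unfold chi; split_ifs <;> simp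

theorem exists_chi_hom {q : Ideal (𝓞 K)} (hq : q.IsMaximal) :
    ∃ f : 𝓞 K →* ℝ, ∀ x, chi q x = f x := by
  classical
  have h0 := Ring.ne_bot_of_isMaximal_of_not_isField hq (RingOfIntegers.not_isField K)
  have : Finite (𝓞 K ⧸ q) := Ideal.finiteQuotientOfFreeOfNeBot q h0
  let _ := Fintype.ofFinite (𝓞 K ⧸ q)
  let _ := Ideal.Quotient.field q
  refine ⟨((Int.castRingHom ℝ : ℤ →* ℝ).comp (quadraticChar (𝓞 K ⧸ q)).toMonoidHom).comp
    (Ideal.Quotient.mk q : 𝓞 K →* _), fun x => ?_⟩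
  change chi q x = ((quadraticChar (𝓞 K ⧸ q) (Ideal.Quotient.mk q x) : ℤ) : ℝ)
  have h1 : (∃ r : 𝓞 K, x - r ^ 2 ∈ q) ↔ IsSquare (Ideal.Quotient.mk q x) := by
    constructor
    · rintro ⟨r, hr⟩
      exact ⟨Ideal.Quotient.mk q r, by rw [← map_mul, ← sq]; exact Ideal.Quotient.eq.2 hr⟩
    · rintro ⟨r, hr⟩
      obtain ⟨r, rfl⟩ := Ideal.Quotient.mk_surjective r
      exact ⟨r, Ideal.Quotient.eq.1 (by rw [hr, sq, map_mul])⟩
  rw [chi, quadraticChar_apply, quadraticCharFun, h1]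
  simp only [Ideal.Quotient.eq_zero_iff_mem]
  split_ifs <;> simp

theorem one_le_mul_w {x : 𝓞 K} (hx : x ≠ 0) {q : Ideal (𝓞 K)} (h : x ∈ q) :
    1 ≤ (Ideal.absNorm (Ideal.span {x}) : ℝ) ^ 2 * w 2 q := by
  have h1 : 0 < Ideal.absNorm (Ideal.span {x}) := Nat.pos_of_ne_zero fun e =>
    hx (Ideal.span_singleton_eq_bot.1 (Ideal.absNorm_eq_zero_iff.1 e))
  have h2 := Ideal.absNorm_dvd_absNorm_of_le ((Ideal.span_singleton_le_iff_mem _).2 h)
  have h3 : (0 : ℝ) < Ideal.absNorm q := by exact_mod_cast Nat.pos_of_dvd_of_pos h2 h1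
  have h4 : (Ideal.absNorm q : ℝ) ≤ Ideal.absNorm (Ideal.span {x}) := by
    exact_mod_cast Nat.le_of_dvd h1 h2
  rw [w, Real.rpow_neg h3.le, Real.rpow_two, ← div_eq_mul_inv, one_le_div (by positivity)]
  gcongr

end Chi

section Ext

variable {K E : Type*} [Field K] [NumberField K] [Field E] [NumberField E] [Algebra K E]

variable (E) in
/-- The primes above `q`. -/
noncomputable abbrev PO (q : Ideal (𝓞 K)) : Finset (Ideal (𝓞 E)) :=
  IsDedekindDomain.primesOverFinset q (𝓞 E)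

theorem mem_T {q : Ideal (𝓞 K)} (hq : q.IsMaximal) {P : Ideal (𝓞 E)} :
    P ∈ PO E q ↔ P.IsMaximal ∧ P.under (𝓞 K) = q := by
  have h0 := Ring.ne_bot_of_isMaximal_of_not_isField hq (RingOfIntegers.not_isField K)
  rw [IsDedekindDomain.mem_primesOverFinset_iff h0]
  refine ⟨fun ⟨h1, h2⟩ => ⟨h1.isMaximal ?_, h2.over.symm⟩, fun ⟨h1, h2⟩ => ⟨h1.isPrime, ⟨h2.symm⟩⟩⟩
  exact Ideal.ne_bot_of_liesOver_of_ne_bot h0 P

theorem fiber_sum (s : ℝ) {q : Ideal (𝓞 K)} (hq : q.IsMaximal) :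
    ∑' P : (fun P : Ideal (𝓞 E) => P.under (𝓞 K)) ⁻¹' {q}, pw s P.1 =
      ∑ P ∈ PO E q, w s P := by
  rw [tsum_subtype _ (pw s), tsum_eq_sum (s := PO E q)]
  · refine Finset.sum_congr rfl fun P hP => ?_
    rw [mem_T hq] at hP
    rw [Set.indicator_of_mem (by exact hP.2), pw, if_pos hP.1]
  · intro P hP
    rw [mem_T hq] at hP
    exact Set.indicator_apply_eq_zero.2 fun h => if_neg fun h2 => hP ⟨h2, h⟩

theorem fiber_zero (s : ℝ) {q : Ideal (𝓞 K)} (hq : ¬ q.IsMaximal) :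
    ∑' P : (fun P : Ideal (𝓞 E) => P.under (𝓞 K)) ⁻¹' {q}, pw s P.1 = 0 := by
  rw [← tsum_zero (β := (fun P : Ideal (𝓞 E) => P.under (𝓞 K)) ⁻¹' {q}) (L := .unconditional _)]
  refine tsum_congr fun P => if_neg fun h => hq ?_
  have h1 : P.1.under (𝓞 K) = q := P.2
  have h2 : P.1.IsMaximal := h
  rw [← h1]
  exact Ideal.IsMaximal.under _ _

theorem norm_T {q : Ideal (𝓞 K)} (hq : q.IsMaximal) {P : Ideal (𝓞 E)}
    (hP : P ∈ PO E q) :
    Ideal.absNorm P = Ideal.absNorm q ^ q.inertiaDeg' P ∧ 1 ≤ q.inertiaDeg' P := by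
  have : P.LiesOver q := ⟨((mem_T hq).1 hP).2.symm⟩
  exact ⟨Ideal.absNorm_eq_pow_inertiaDeg'_of_liesOver P q hq.isPrime
    (Ring.ne_bot_of_isMaximal_of_not_isField hq (RingOfIntegers.not_isField K)),
    Ideal.inertiaDeg'_pos q P⟩

theorem sum_f_le (h2 : Module.finrank K E = 2) {q : Ideal (𝓞 K)} (hq : q.IsMaximal) :
    ∑ P ∈ PO E q, q.inertiaDeg' P ≤ 2 := by
  have h1 := Finset.prod_primes_dvd (s := PO E q)
    (q.map (algebraMap (𝓞 K) (𝓞 E)))
    (fun P hP => Ideal.prime_of_isPrime (Ring.ne_bot_of_isMaximal_of_not_isField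
      ((mem_T hq).1 hP).1 (RingOfIntegers.not_isField E)) ((mem_T hq).1 hP).1.isPrime)
    fun P hP => Ideal.dvd_iff_le.2 (Ideal.map_le_iff_le_comap.2 ((mem_T hq).1 hP).2.ge)
  have h3 := map_dvd Ideal.absNorm h1
  rw [Ideal.absNorm_algebraMap, ← IsFractionRing.finrank_eq (𝓞 K) K (𝓞 E) E, h2, map_prod,
    Finset.prod_congr rfl fun P hP => (norm_T hq hP).1, Finset.prod_pow_eq_pow_sum] at h3
  exact (Nat.pow_dvd_pow_iff_le_right (two_le hq)).1 h3

theorem card_T_le (h2 : Module.finrank K E = 2) {q : Ideal (𝓞 K)} (hq : q.IsMaximal) :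
    (PO E q).card ≤ 2 := by
  rw [Finset.card_eq_sum_ones]
  exact (Finset.sum_le_sum fun P hP => (norm_T hq hP).2).trans (sum_f_le h2 hq)

theorem sum_T_le (h2 : Module.finrank K E = 2) {q : Ideal (𝓞 K)} (hq : q.IsMaximal) {s c : ℝ}
    (hc : 0 ≤ c) (h : ∀ P ∈ PO E q, w s P ≤ c) :
    ∑ P ∈ PO E q, w s P ≤ 2 * c := by
  refine (Finset.sum_le_card_nsmul _ _ _ h).trans ?_
  rw [nsmul_eq_mul]
  gcongr
  exact_mod_cast card_T_le h2 hq

theorem two_le_f {d : 𝓞 K} {θ : 𝓞 E} (hθ : θ ^ 2 = algebraMap (𝓞 K) (𝓞 E) d)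
    {q : Ideal (𝓞 K)} (hq : q.IsMaximal) (hd : ¬ ∃ r : 𝓞 K, d - r ^ 2 ∈ q) {P : Ideal (𝓞 E)}
    (hP : P ∈ PO E q) : 2 ≤ q.inertiaDeg' P := by
  obtain ⟨h1, h2⟩ := norm_T hq hP
  obtain ⟨h3, h4⟩ := (mem_T hq).1 hP
  by_contra h
  have h5 : q.inertiaDeg' P = 1 := by omega
  rw [h5, pow_one, Ideal.absNorm_apply, Ideal.absNorm_apply, Submodule.cardQuot_apply,
    Submodule.cardQuot_apply] at h1
  have : Finite (𝓞 E ⧸ P) := Ideal.finiteQuotientOfFreeOfNeBot P
    (Ring.ne_bot_of_isMaximal_of_not_isField h3 (RingOfIntegers.not_isField E))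
  have h6 := (Nat.bijective_iff_injective_and_card _).2
    ⟨Ideal.quotientMap_injective' (f := algebraMap (𝓞 K) (𝓞 E)) (J := q) (I := P) (H := h4.ge)
      h4.le, h1.symm⟩
  obtain ⟨r, hr⟩ := h6.2 (Ideal.Quotient.mk P θ)
  obtain ⟨r, rfl⟩ := Ideal.Quotient.mk_surjective r
  rw [Ideal.quotientMap_mk] at hr
  refine hd ⟨r, ?_⟩
  rw [← h4, Ideal.under_def, Ideal.mem_comap, map_sub, ← hθ, map_pow, ← Ideal.Quotient.eq, map_pow,
    map_pow, hr]

theorem split_sum (h2 : Module.finrank K E = 2) {d : 𝓞 K} {θ : 𝓞 E}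
    (hθ : θ ^ 2 = algebraMap (𝓞 K) (𝓞 E) d) (τ : 𝓞 E →ₐ[𝓞 K] 𝓞 E) (hτ : τ θ = -θ)
    {q : Ideal (𝓞 K)} (hq : q.IsMaximal) (hd : 2 * d ∉ q) {r : 𝓞 K} (hr : d - r ^ 2 ∈ q) (s : ℝ) :
    ∑ P ∈ PO E q, w s P = 2 * w s q := by
  classical
  have h0 := Ring.ne_bot_of_isMaximal_of_not_isField hq (RingOfIntegers.not_isField K)
  obtain ⟨P, h3, h4⟩ := Ideal.exists_ideal_over_maximal_of_isIntegral (S := 𝓞 E) q
    (by rw [(RingHom.injective_iff_ker_eq_bot _).1
          (FaithfulSMul.algebraMap_injective (𝓞 K) (𝓞 E))]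
        exact bot_le)
  have h5 : (P.comap τ).under (𝓞 K) = q := by
    rw [← h4]
    ext x
    simp [Ideal.under_def, Ideal.mem_comap]
  have h6 : (P.comap τ).IsMaximal := (Ideal.IsPrime.comap τ).isMaximal fun e => h0 (by
    rw [← h5, e, Ideal.under_bot])
  have hne : P ≠ P.comap τ := by
    intro e
    have h7 : (θ - algebraMap _ _ r) * (θ + algebraMap _ _ r) ∈ P := by
      have : algebraMap (𝓞 K) (𝓞 E) (d - r ^ 2) ∈ P := by rw [← Ideal.mem_comap, h4]; exact hr
      convert this using 1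
      rw [map_sub, ← hθ, map_pow]
      ring
    have h8 : algebraMap (𝓞 K) (𝓞 E) (2 * r) ∈ P := by
      rw [map_mul, map_ofNat]
      rcases h3.isPrime.mem_or_mem h7 with h | h
      · have h' := h
        rw [e, Ideal.mem_comap, map_sub, hτ, AlgHom.commutes] at h'
        convert P.neg_mem (P.add_mem h h') using 1
        ring
      · have h' := h
        rw [e, Ideal.mem_comap, map_add, hτ, AlgHom.commutes] at h'
        convert P.add_mem h h' using 1
        ring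
    rw [← Ideal.mem_comap, h4] at h8
    refine hd ?_
    convert q.add_mem (q.mul_mem_left 2 hr) (q.mul_mem_left r h8) using 1
    ring
  have hP : P ∈ PO E q := (mem_T hq).2 ⟨h3, h4⟩
  have hP' : P.comap τ ∈ PO E q := (mem_T hq).2 ⟨h6, h5⟩
  have h7 : PO E q = {P, P.comap τ} := by
    refine (Finset.eq_of_subset_of_card_le ?_ ?_).symm
    · exact Finset.insert_subset hP (Finset.singleton_subset_iff.2 hP')
    · rw [Finset.card_pair hne]
      exact card_T_le h2 hq
  have h8 := sum_f_le h2 hq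
  obtain ⟨a1, a2⟩ := norm_T hq hP
  obtain ⟨b1, b2⟩ := norm_T hq hP'
  rw [h7, Finset.sum_pair hne] at h8 ⊢
  rw [show q.inertiaDeg' P = 1 by omega, pow_one] at a1
  rw [show q.inertiaDeg' (P.comap τ) = 1 by omega, pow_one] at b1
  rw [w, w, w, a1, b1, two_mul]

theorem fiber_est (h2 : Module.finrank K E = 2) {d : 𝓞 K} (hd0 : d ≠ 0) {θ : 𝓞 E}
    (hθ : θ ^ 2 = algebraMap (𝓞 K) (𝓞 E) d) (τ : 𝓞 E →ₐ[𝓞 K] 𝓞 E) (hτ : τ θ = -θ)
    {s : ℝ} (hs : 1 < s) (q : Ideal (𝓞 K)) :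
    |∑' P : (fun P : Ideal (𝓞 E) => P.under (𝓞 K)) ⁻¹' {q}, pw s P.1 -
      (pw s q + chi q d * pw s q)| ≤
      2 * ((Ideal.absNorm (Ideal.span {2 * d}) : ℝ) ^ 2 * w 2 q) := by
  have h2d : 2 * d ≠ 0 := mul_ne_zero two_ne_zero hd0
  have hw := w_nonneg 2 q
  by_cases hq : q.IsMaximal
  swap
  · rw [fiber_zero s hq, pw, if_neg hq]
    simp only [mul_zero, add_zero, sub_zero, abs_zero]
    positivity
  rw [fiber_sum s hq, pw, if_pos hq]
  have h0 : 0 ≤ ∑ P ∈ PO E q, w s P := Finset.sum_nonneg fun _ _ => w_nonneg _ _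
  by_cases hd : 2 * d ∈ q
  · have h3 := one_le_mul_w h2d hd
    have h4 := sum_T_le h2 hq (s := s) (by norm_num) fun P hP => w_le_half hs.le ((mem_T hq).1 hP).1
    have h5 := w_le_half hs.le hq
    have h6 := w_nonneg s q
    have h7 := abs_le.1 (abs_chi_le q d)
    rw [abs_le]
    constructor <;> nlinarith
  have hd' : d ∉ q := fun h => hd (q.mul_mem_left _ h)
  by_cases hr : ∃ r : 𝓞 K, d - r ^ 2 ∈ q
  · rw [chi, if_neg hd', if_pos hr, split_sum h2 hθ τ hτ hq hd hr.choose_spec]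
    rw [show 2 * w s q - (w s q + 1 * w s q) = 0 by ring, abs_zero]
    positivity
  · rw [chi, if_neg hd', if_neg hr, show w s q + -1 * w s q = 0 by ring, sub_zero, abs_of_nonneg h0]
    have h3 : (1 : ℝ) ≤ Ideal.absNorm (Ideal.span {2 * d}) := by
      exact_mod_cast Nat.one_le_iff_ne_zero.2 fun e =>
        h2d (Ideal.span_singleton_eq_bot.1 (Ideal.absNorm_eq_zero_iff.1 e))
    refine sum_T_le h2 hq (by positivity) fun P hP => (w_anti one_pos hs.le P).trans ?_
    refine le_trans ?_ (le_mul_of_one_le_left hw (one_le_pow₀ h3))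
    have h4 : (1 : ℝ) ≤ Ideal.absNorm q := by exact_mod_cast one_le_two.trans (two_le hq)
    rw [w, w, (norm_T hq hP).1, Real.rpow_neg_one, Real.rpow_neg (by positivity), Real.rpow_two]
    push_cast
    gcongr
    exact two_le_f hθ hq hr hP

theorem summable_chi {s : ℝ} (hs : 1 < s) (d : 𝓞 K) : Summable fun q => chi q d * pw s q := by
  refine (summable_pw hs).of_norm_bounded fun q => ?_
  rw [norm_mul, Real.norm_eq_abs, Real.norm_of_nonneg (pw_nonneg _ _)]
  exact mul_le_of_le_one_left (pw_nonneg _ _) (abs_chi_le _ _)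

theorem chi_bigO_of (h2 : Module.finrank K E = 2) {d : 𝓞 K} (hd0 : d ≠ 0) {θ : 𝓞 E}
    (hθ : θ ^ 2 = algebraMap (𝓞 K) (𝓞 E) d) (τ : 𝓞 E →ₐ[𝓞 K] 𝓞 E) (hτ : τ θ = -θ) :
    (fun s : ℝ => ∑' q, chi q d * pw s q) =O[𝓝[>] 1] fun _ => (1 : ℝ) := by
  have h1 : (fun s : ℝ => ∑' P, pw (F := E) s P - (∑' q, pw (F := K) s q +
      ∑' q, chi q d * pw s q)) =O[𝓝[>] 1] fun _ => (1 : ℝ) := by
    refine IsBigO.of_bound (2 * ((Ideal.absNorm (Ideal.span {2 * d}) : ℝ) ^ 2 *
      ∑' q, w (F := K) 2 q)) ?_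
    filter_upwards [self_mem_nhdsWithin] with s hs
    have hs : 1 < s := hs
    have h3 := ((summable_pw (F := E) hs).hasSum.tsum_fiberwise
      fun P : Ideal (𝓞 E) => P.under (𝓞 K)).sub
      ((summable_pw hs).hasSum.add (summable_chi hs d).hasSum)
    rw [norm_one, mul_one]
    exact h3.norm_le_of_bounded (((summable_w one_lt_two).hasSum.mul_left _).mul_left _)
      (fiber_est h2 hd0 hθ τ hτ hs)
  refine (((P_bigO E).sub (P_bigO K)).sub h1).congr_left fun s => ?_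
  ring

end Ext

theorem chi_bigO {K : Type*} [Field K] [NumberField K] {d : 𝓞 K} (hd : ¬ IsSquare (d : K)) :
    (fun s : ℝ => ∑' q, chi q d * pw s q) =O[𝓝[>] 1] fun _ => (1 : ℝ) := by
  have : Fact (∀ r : K, r ^ 2 ≠ (d : K) + 0 * r) :=
    ⟨fun r h => hd ⟨r, by rw [← sq, h]; ring⟩⟩
  have : NumberField (QuadraticAlgebra K (d : K) 0) := NumberField.of_module_finite K _
  have h1 : (QuadraticAlgebra.omega : QuadraticAlgebra K (d : K) 0) ^ 2 = algebraMap K _ (d : K) := by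
    ext <;> simp [sq]
  let θ : 𝓞 (QuadraticAlgebra K (d : K) 0) := ⟨QuadraticAlgebra.omega, by
    refine IsIntegral.of_pow two_pos ?_
    rw [h1]
    exact d.isIntegral_coe.algebraMap⟩
  let σ : QuadraticAlgebra K (d : K) 0 →ₐ[K] QuadraticAlgebra K (d : K) 0 :=
    QuadraticAlgebra.lift ⟨-QuadraticAlgebra.omega, by
      rw [neg_mul_neg, ← sq, h1, zero_smul, add_zero, Algebra.algebraMap_eq_smul_one]⟩
  refine chi_bigO_of (E := QuadraticAlgebra K (d : K) 0) (θ := θ)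
    (QuadraticAlgebra.finrank_eq_two _ _) (fun e => hd (by simp [e])) ?_
    (RingOfIntegers.mapAlgHom σ) ?_
  · exact RingOfIntegers.ext h1
  · refine RingOfIntegers.ext ?_
    change σ QuadraticAlgebra.omega = -QuadraticAlgebra.omega
    simp [σ]

end QC

variable {K : Type*} [Field K] [NumberField K]

open Filter Topology Asymptotics QC in
theorem exists_prime_prescribed {ι : Type*} [Fintype ι] (d : ι → 𝓞 K) (ε : ι → Prop)
    (hind : ∀ J : Finset ι, J.Nonempty → ¬ IsSquare (((∏ i ∈ J, d i : 𝓞 K)) : K))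
    (S : Finset (Ideal (𝓞 K))) :
    ∃ P : Ideal (𝓞 K), P.IsMaximal ∧ P ∉ S ∧ (2 : 𝓞 K) ∉ P ∧
      ∀ i, d i ∉ P ∧ ((∃ r : 𝓞 K, d i - r ^ 2 ∈ P) ↔ ε i) := by
  classical
  by_contra hcon
  let e : ι → ℝ := fun i => if ε i then 1 else -1
  have hd : ∀ i, d i ≠ 0 := fun i h => hind {i} (Finset.singleton_nonempty i) (by simp [h])
  have hD : 2 * ∏ i, d i ≠ 0 := mul_ne_zero two_ne_zero (Finset.prod_ne_zero_iff.2 fun i _ => hd i)
  set B := S ∪ (UniqueFactorizationMonoid.normalizedFactors (Ideal.span {2 * ∏ i, d i})).toFinset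
    with hB
  have hexp : ∀ s q, (∏ i, (1 + e i * chi q (d i))) * pw s q =
      ∑ J ∈ Finset.univ.powerset, (∏ i ∈ J, e i) * (chi q (∏ i ∈ J, d i) * pw s q) := by
    intro s q
    by_cases hq : q.IsMaximal
    · obtain ⟨f, hf⟩ := exists_chi_hom hq
      rw [Finset.prod_one_add, Finset.sum_mul]
      refine Finset.sum_congr rfl fun J _ => ?_
      simp only [hf, map_prod, Finset.prod_mul_distrib, mul_assoc]
    · simp [pw, hq]
  have hzero : ∀ s, ∀ q ∉ B, (∏ i, (1 + e i * chi q (d i))) * pw s q = 0 := by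
    intro s q hqB
    by_cases hq : q.IsMaximal
    swap
    · simp [pw, hq]
    rw [hB, Finset.mem_union, not_or, Multiset.mem_toFinset, Ideal.mem_normalizedFactors_iff
      (by rwa [Ne, Ideal.span_singleton_eq_bot]), Ideal.span_singleton_le_iff_mem] at hqB
    have h1 : 2 * ∏ i, d i ∉ q := fun h => hqB.2 ⟨hq.isPrime, h⟩
    have h2 : ∀ i, d i ∉ q := fun i h => h1 (q.mul_mem_left _
      (Ideal.mem_of_dvd q (Finset.dvd_prod_of_mem _ (Finset.mem_univ i)) h))
    obtain ⟨i, hi⟩ : ∃ i, ¬ ((∃ r : 𝓞 K, d i - r ^ 2 ∈ q) ↔ ε i) := by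
      by_contra h
      exact hcon ⟨q, hq, hqB.1, fun h3 => h1 (q.mul_mem_right _ h3), fun i =>
        ⟨h2 i, by_contra fun h3 => h ⟨i, h3⟩⟩⟩
    refine mul_eq_zero_of_left (Finset.prod_eq_zero (Finset.mem_univ i) ?_) _
    rw [chi, if_neg (h2 i)]
    by_cases h3 : ε i <;> by_cases h4 : ∃ r : 𝓞 K, d i - r ^ 2 ∈ q
    · exact absurd (iff_of_true h4 h3) hi
    · rw [if_neg h4]; simp [e, h3]
    · rw [if_pos h4]; simp [e, h3]
    · exact absurd (iff_of_false h4 h3) hi
  have h1 : (fun s : ℝ => ∑' q, (∏ i, (1 + e i * chi q (d i))) * pw s q) =O[𝓝[>] 1]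
      fun _ => (1 : ℝ) := by
    refine IsBigO.of_bound (∑ q ∈ B, |∏ i, (1 + e i * chi q (d i))|) ?_
    filter_upwards [self_mem_nhdsWithin] with s hs
    have hs : 1 < s := hs
    rw [tsum_eq_sum (hzero s), norm_one, mul_one]
    refine (norm_sum_le _ _).trans (Finset.sum_le_sum fun q _ => ?_)
    rw [norm_mul, Real.norm_eq_abs, Real.norm_of_nonneg (pw_nonneg _ _)]
    refine mul_le_of_le_one_right (abs_nonneg _) ?_
    unfold pw
    split_ifs with h
    · linarith [w_le_half hs.le h]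
    · exact zero_le_one
  have h2 : (fun s : ℝ => ∑ J ∈ Finset.univ.powerset.erase ∅,
      (∏ i ∈ J, e i) * ∑' q, chi q (∏ i ∈ J, d i) * pw s q) =O[𝓝[>] 1] fun _ => (1 : ℝ) :=
    IsBigO.fun_sum fun J hJ => (chi_bigO (hind J (Finset.nonempty_iff_ne_empty.2
      (Finset.mem_erase.1 hJ).1))).const_mul_left _
  have h3 : (fun s : ℝ => Real.log (s - 1)) =O[𝓝[>] 1] fun _ => (1 : ℝ) := by
    refine ((P_bigO K).sub (h1.sub h2)).congr' ?_ EventuallyEq.rfl
    filter_upwards [self_mem_nhdsWithin] with s hs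
    have hs : 1 < s := hs
    rw [tsum_congr (hexp s), Summable.tsum_finsetSum fun J _ => (summable_chi hs _).mul_left _,
      ← Finset.add_sum_erase _ _ (Finset.empty_mem_powerset _)]
    simp only [tsum_mul_left, Finset.prod_empty, one_mul]
    have : ∑' q : Ideal (𝓞 K), chi q 1 * pw s q = ∑' q : Ideal (𝓞 K), pw s q := by
      refine tsum_congr fun q => ?_
      by_cases hq : q.IsMaximal
      · obtain ⟨f, hf⟩ := exists_chi_hom hq
        rw [hf, map_one, one_mul]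
      · simp [pw, hq]
    rw [this]
    ring
  have h4 : Tendsto (fun s : ℝ => Real.log (s - 1)) (𝓝[>] 1) atBot := by
    refine Real.tendsto_log_nhdsGT_zero.comp ?_
    refine tendsto_nhdsWithin_iff.2 ⟨?_, ?_⟩
    · have : Tendsto (fun s : ℝ => s - 1) (𝓝 1) (𝓝 (1 - 1)) := tendsto_id.sub_const 1
      rw [sub_self] at this
      exact this.mono_left nhdsWithin_le_nhds
    · filter_upwards [self_mem_nhdsWithin] with s hs
      exact sub_pos.2 (show 1 < s from hs)
  obtain ⟨c, hc⟩ := h3.bound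
  obtain ⟨s, h5, h6⟩ := (hc.and (h4.eventually_lt_atBot (-c))).exists
  rw [norm_one, mul_one, Real.norm_eq_abs, abs_le] at h5
  linarith [h5.1]

end Pool.Agent.Lib.MP_aed2da_nt
end
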