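import Mathlib
import Pool.Agent.Lib.MP_aed2da_nt.QCheb

-- part Pool.Agent.Lib.MP_aed2da_nt.QAvg
section

/-! Means of periodic functions on abelian groups. -/

namespace Pool.Agent.Lib.MP_aed2da_nt.QR

open Finset

section avg
variable {M M' : Type*} [AddCommGroup M] [AddCommGroup M']

/-- the group of periods -/
def per (f : M → ℂ) : AddSubgroup M where
  carrier := {h | ∀ x, f (x + h) = f x}
  add_mem' := by
    intro a b ha hb x
    rw [← add_assoc, hb, ha]
  zero_mem' := by intro x; simp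
  neg_mem' := by
    intro a ha x
    have := ha (x + -a)
    simpa using this.symm

lemma mem_per {f : M → ℂ} {h : M} : h ∈ per f ↔ ∀ x, f (x + h) = f x := Iff.rfl

/-- the mean value over a period -/
noncomputable def avg (f : M → ℂ) : ℂ :=
  (∑ᶠ q : M ⧸ per f, f q.out) / (Nat.card (M ⧸ per f) : ℂ)

lemma out_mk {f : M → ℂ} {H : AddSubgroup M} (hH : H ≤ per f) (x : M) :
    f ((x : M ⧸ H).out) = f x := by
  obtain ⟨h, hh⟩ := QuotientAddGroup.mk_out_eq_add H x
  rw [hh]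
  exact hH h.2 x

lemma avg_comp (φ : M →+ M') (hφ : Function.Surjective φ) (f : M' → ℂ) :
    avg (fun x => f (φ x)) = avg f := by
  have hp : per (fun x => f (φ x)) = (per f).comap φ := by
    ext h
    simp only [mem_per, AddSubgroup.mem_comap, map_add]
    constructor
    · intro H y
      obtain ⟨x, rfl⟩ := hφ y
      exact H x
    · intro H x
      exact H _
  let g : M ⧸ per (fun x => f (φ x)) →+ M' ⧸ per f :=
    QuotientAddGroup.map _ _ φ (by rw [hp])
  have hg : Function.Bijective g := by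
    constructor
    · rw [injective_iff_map_eq_zero]
      intro q hq
      induction q using QuotientAddGroup.induction_on with | H x =>
      rw [QuotientAddGroup.eq_zero_iff, hp]
      simpa [g] using hq
    · intro q
      induction q using QuotientAddGroup.induction_on with | H y =>
      obtain ⟨x, rfl⟩ := hφ y
      exact ⟨x, by simp [g]⟩
  unfold avg
  rw [Nat.card_congr (Equiv.ofBijective g hg)]
  congr 1
  rw [← finsum_comp_equiv (Equiv.ofBijective g hg)]
  refine finsum_congr fun q => ?_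
  induction q using QuotientAddGroup.induction_on with | H x =>
  have h1 := out_mk (f := fun x => f (φ x)) le_rfl x
  have h2 := out_mk (f := f) le_rfl (φ x)
  simp only [Equiv.ofBijective_apply, g, QuotientAddGroup.map_mk]
  rw [h1, h2]

lemma avg_fin [Fintype M] (f : M → ℂ) : avg f = (∑ x, f x) / (Fintype.card M : ℂ) := by
  classical
  unfold avg
  let _ : Fintype (M ⧸ per f) := Fintype.ofFinite _
  rw [finsum_eq_sum_of_fintype]
  have h1 : ∑ x, f x = (Nat.card (per f) : ℂ) * ∑ q : M ⧸ per f, f q.out := by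
    have hb : Function.Bijective (fun x : (M ⧸ per f) × per f => x.1.out + (x.2 : M)) := by
      constructor
      · rintro ⟨q, h⟩ ⟨q', h'⟩ e
        have e1 : ((q.out + h : M) : M ⧸ per f) = (q'.out + h' : M) := congrArg _ e
        simp only [QuotientAddGroup.mk_add_of_mem _ h.2, QuotientAddGroup.mk_add_of_mem _ h'.2,
          QuotientAddGroup.out_eq'] at e1
        subst e1
        simpa using e
      · intro x
        refine ⟨((x : M ⧸ per f), ⟨-(x : M ⧸ per f).out + x, ?_⟩), by simp⟩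
        rw [← QuotientAddGroup.eq]; simp
    rw [← hb.sum_comp, Fintype.sum_prod_type, Finset.mul_sum]
    refine Finset.sum_congr rfl fun q _ => ?_
    rw [Finset.sum_congr rfl (g := fun _ => f q.out) (fun h _ => h.2 _)]
    simp
  have h2 : (Fintype.card M : ℂ) = (Nat.card (per f) : ℂ) * Nat.card (M ⧸ per f) := by
    rw [← Nat.card_eq_fintype_card, AddSubgroup.card_eq_card_quotient_mul_card_addSubgroup (per f)]
    push_cast; ring
  have h3 : (Nat.card (per f) : ℂ) ≠ 0 := by exact_mod_cast Nat.card_pos.ne'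
  rw [h1, h2, mul_div_mul_left _ _ h3]

lemma avg_eq {A : Type*} [AddCommGroup A] [Fintype A] (π : M →+ A) (hπ : Function.Surjective π)
    (F : A → ℂ) (f : M → ℂ) (hf : ∀ x, f x = F (π x)) :
    avg f = (∑ a, F a) / (Fintype.card A : ℂ) := by
  rw [← avg_fin, ← avg_comp π hπ F]
  congr 1
  exact funext hf

lemma avg_one : avg (fun _ : M => (1 : ℂ)) = 1 := by
  rw [avg_eq (A := Unit) 0 (fun _ => ⟨0, rfl⟩) (fun _ => 1) _ (fun _ => rfl)]
  simp

lemma avg_prod (f : M → ℂ) (g : M' → ℂ) [(per f).FiniteIndex] [(per g).FiniteIndex] :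
    avg (fun x : M × M' => f x.1 * g x.2) = avg f * avg g := by
  classical
  let _ : Fintype (M ⧸ per f) := Fintype.ofFinite _
  let _ : Fintype (M' ⧸ per g) := Fintype.ofFinite _
  rw [avg_eq (QuotientAddGroup.mk' (per f)) (QuotientAddGroup.mk'_surjective _)
    (fun q => f q.out) f (fun x => (out_mk le_rfl x).symm),
    avg_eq (QuotientAddGroup.mk' (per g)) (QuotientAddGroup.mk'_surjective _)
    (fun q => g q.out) g (fun x => (out_mk le_rfl x).symm),
    avg_eq ((QuotientAddGroup.mk' (per f)).prodMap (QuotientAddGroup.mk' (per g)))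
      ((QuotientAddGroup.mk'_surjective _).prodMap (QuotientAddGroup.mk'_surjective _))
      (fun q => f q.1.out * g q.2.out) _
      (fun x => by simp [out_mk (f := f) le_rfl, out_mk (f := g) le_rfl])]
  rw [Fintype.sum_prod_type, Fintype.card_prod, div_mul_div_comm, Finset.sum_mul_sum]
  push_cast; rfl

lemma avg_pi {ι : Type*} [Fintype ι] (f : ι → M → ℂ) (hf : ∀ i, (per (f i)).FiniteIndex) :
    avg (fun x : ι → M => ∏ i, f i (x i)) = ∏ i, avg (f i) := by
  classical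
  let _ : ∀ i, Fintype (M ⧸ per (f i)) := fun i => Fintype.ofFinite _
  let π : (ι → M) →+ (∀ i, M ⧸ per (f i)) :=
    { toFun := fun x i => (x i : M ⧸ per (f i))
      map_zero' := by ext; simp
      map_add' := by intros; ext; simp }
  have hπ : Function.Surjective π := fun q => ⟨fun i => (q i).out, by ext; simp [π]⟩
  rw [avg_eq π hπ (fun q => ∏ i, f i (q i).out) _
    (fun x => Finset.prod_congr rfl fun i _ => (out_mk le_rfl (x i)).symm)]
  rw [Finset.prod_congr rfl (fun i _ => avg_eq (QuotientAddGroup.mk' (per (f i)))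
    (QuotientAddGroup.mk'_surjective _) (fun q => f i q.out) (f i)
    (fun x => (out_mk le_rfl x).symm))]
  rw [Finset.prod_div_distrib, Finset.prod_univ_sum, Fintype.card_pi]
  simp

lemma sum_eq_zero_of_shift {A : Type*} [AddCommGroup A] (s : Finset A) (F : A → ℂ) (h : A) (c : ℂ)
    (hc : c ≠ 1) (hs : ∀ b, b ∈ s ↔ b + h ∈ s) (hF : ∀ b ∈ s, F (b + h) = c * F b) :
    ∑ b ∈ s, F b = 0 := by
  have h1 : ∑ b ∈ s, F (b + h) = ∑ b ∈ s, F b :=
    Finset.sum_equiv (Equiv.addRight h) (fun b => by simpa using hs b) (fun b _ => rfl)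
  rw [Finset.sum_congr rfl hF, ← Finset.mul_sum] at h1
  have : (c - 1) * ∑ b ∈ s, F b = 0 := by rw [sub_mul, h1]; ring
  exact (mul_eq_zero.1 this).resolve_left (sub_ne_zero.2 hc)

lemma avg_sub (f : M → ℂ) (M₀ : AddSubgroup M) [(per f).FiniteIndex] [M₀.FiniteIndex]
    (h : ∀ a ∉ M₀, ∃ h ∈ M₀, ∃ c : ℂ, c ≠ 1 ∧ ∀ b, b - a ∈ M₀ → f (b + h) = c * f b) :
    ∃ c : ℝ, 0 < c ∧ avg (fun x : M₀ => f x) = c * avg f := by
  classical
  let H := per f ⊓ M₀
  let _ : Fintype (M ⧸ H) := Fintype.ofFinite _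
  let A₀ := M₀.map (QuotientAddGroup.mk' H)
  have hmem : ∀ x : M, (x : M ⧸ H) ∈ A₀ ↔ x ∈ M₀ := by
    intro x
    constructor
    · rintro ⟨y, hy, hxy⟩
      have : -y + x ∈ H := QuotientAddGroup.eq.1 hxy
      simpa using M₀.add_mem hy this.2
    · intro hx
      exact ⟨x, hx, rfl⟩
  let F : M ⧸ H → ℂ := fun q => f q.out
  have hF : ∀ x : M, F x = f x := fun x => out_mk inf_le_left x
  have e1 := avg_eq (QuotientAddGroup.mk' H) (QuotientAddGroup.mk'_surjective _) F f
    (fun x => (hF x).symm)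
  let π : M₀ →+ A₀ := (QuotientAddGroup.mk' H).addSubgroupMap M₀
  have e2 := avg_eq π ((QuotientAddGroup.mk' H).addSubgroupMap_surjective M₀)
    (fun a => F a) (fun x : M₀ => f x) (fun x => (hF x).symm)
  have e3 : ∑ a, F a = ∑ a : A₀, F a := by
    let _ : Fintype ((M ⧸ H) ⧸ A₀) := Fintype.ofFinite _
    rw [← Finset.sum_fiberwise Finset.univ (fun a : M ⧸ H => (a : (M ⧸ H) ⧸ A₀)),
      Finset.sum_eq_single 0]
    · rw [← Finset.sum_subtype (p := fun a => a ∈ A₀)]
      intro a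
      simp
    · intro q _ hq
      induction q using QuotientAddGroup.induction_on with | H a =>
      induction a using QuotientAddGroup.induction_on with | H a =>
      rw [Ne, QuotientAddGroup.eq_zero_iff, hmem] at hq
      obtain ⟨k, hk, c, hc, hb⟩ := h a hq
      refine sum_eq_zero_of_shift _ F (k : M ⧸ H) c hc (fun b => ?_) (fun b hb' => ?_)
      · have : ((k : M ⧸ H) : (M ⧸ H) ⧸ A₀) = 0 := by
          rw [QuotientAddGroup.eq_zero_iff, hmem]; exact hk
        simp [this]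
      · induction b using QuotientAddGroup.induction_on with | H b =>
        rw [← QuotientAddGroup.mk_add, hF, hF]
        apply hb
        simp only [Finset.mem_filter, Finset.mem_univ, true_and] at hb'
        rw [QuotientAddGroup.eq, ← QuotientAddGroup.mk_neg, ← QuotientAddGroup.mk_add, hmem] at hb'
        simpa [sub_eq_add_neg, add_comm] using M₀.neg_mem hb'
    · simp
  have p1 : (0 : ℝ) < Fintype.card (M ⧸ H) := by exact_mod_cast Fintype.card_pos
  have p2 : (0 : ℝ) < Fintype.card A₀ := by exact_mod_cast Fintype.card_pos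
  refine ⟨Fintype.card (M ⧸ H) / Fintype.card A₀, div_pos p1 p2, ?_⟩
  rw [e1, e2, e3]
  have q1 : (Fintype.card (M ⧸ H) : ℂ) ≠ 0 := by exact_mod_cast p1.ne'
  have q2 : (Fintype.card A₀ : ℂ) ≠ 0 := by exact_mod_cast p2.ne'
  push_cast
  field_simp

lemma finiteIndex_of_nsmul [Module.Finite ℤ M] (H : AddSubgroup M)
    (h : ∀ x, ∃ N : ℤ, N ≠ 0 ∧ N • x ∈ H) : H.FiniteIndex := by
  have : Finite (M ⧸ H) := by
    have : Module.Finite ℤ (M ⧸ H) :=
      Module.Finite.of_surjective (QuotientAddGroup.mk' H).toIntLinearMap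
        (QuotientAddGroup.mk'_surjective H)
    apply Module.finite_of_fg_torsion
    intro q
    induction q using QuotientAddGroup.induction_on with | H x =>
    obtain ⟨N, hN, hx⟩ := h x
    refine ⟨⟨N, mem_nonZeroDivisors_of_ne_zero hN⟩, ?_⟩
    change N • (x : M ⧸ H) = 0
    rw [← QuotientAddGroup.mk_zsmul, QuotientAddGroup.eq_zero_iff]
    exact hx
  exact AddSubgroup.finiteIndex_of_finite_quotient

end avg

end Pool.Agent.Lib.MP_aed2da_nt.QR
end

-- part Pool.Agent.Lib.MP_aed2da_nt.QOne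
section

/-! The one variable quadratic Gauss sum up to a positive constant (Landsberg-Schaar). -/

namespace Pool.Agent.Lib.MP_aed2da_nt.QR

open Complex Filter Topology Real

/-- the additive character of the reals -/
noncomputable def ee (t : ℝ) : ℂ := cexp (2 * π * I * t)

lemma ee_add (s t : ℝ) : ee (s + t) = ee s * ee t := by
  unfold ee; rw [← Complex.exp_add]; push_cast; ring_nf

lemma ee_eq_one {t : ℝ} : ee t = 1 ↔ ∃ n : ℤ, t = n := by
  unfold ee
  rw [Complex.exp_eq_one_iff]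
  refine exists_congr fun n => ?_
  have h : (2 * π * I : ℂ) ≠ 0 := Complex.two_pi_I_ne_zero
  rw [mul_comm (n : ℂ), mul_right_inj' h]
  exact_mod_cast Iff.rfl

lemma ee_int (n : ℤ) : ee n = 1 := ee_eq_one.2 ⟨n, rfl⟩

lemma ee_neg (t : ℝ) : ee (-t) = (starRingEnd ℂ) (ee t) := by
  unfold ee; rw [← Complex.exp_conj]; simp [map_ofNat]

lemma ee_sum {ι : Type*} (s : Finset ι) (t : ι → ℝ) : ee (∑ i ∈ s, t i) = ∏ i ∈ s, ee (t i) := by
  unfold ee; rw [← Complex.exp_sum]; push_cast; rw [Finset.mul_sum]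

lemma tsum_res {N : ℕ} [NeZero N] {f : ℤ → ℂ} (hf : Summable f) :
    ∑' n, f n = ∑ r : ZMod N, ∑' k : ℤ, f (r.val + N * k) := by
  have hb : Function.Bijective (fun x : ZMod N × ℤ => (x.1.val : ℤ) + N * x.2) := by
    constructor
    · rintro ⟨r, k⟩ ⟨r', k'⟩ e
      have e1 := congrArg (Int.cast : ℤ → ZMod N) e
      simp only [Int.cast_add, Int.cast_natCast, ZMod.natCast_zmod_val, Int.cast_mul,
        ZMod.natCast_self, zero_mul, add_zero] at e1
      subst e1
      simpa [NeZero.ne N] using e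
    · intro n
      refine ⟨((n : ZMod N), n / N), ?_⟩
      simp only [ZMod.val_intCast]
      exact Int.emod_add_mul_ediv n N
  let e := Equiv.ofBijective _ hb
  rw [← e.tsum_eq]
  exact (Summable.tsum_prod (e.summable_iff.2 hf)).trans (tsum_fintype _)

lemma summable_theta {a : ℂ} (ha : 0 < a.re) :
    Summable (fun n : ℤ => cexp (-π * a * (n : ℂ) ^ 2)) := by
  have := (hasSum_jacobiTheta₂_term 0 (τ := I * a) (by simpa using ha)).summable
  refine this.congr fun n => ?_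
  rw [jacobiTheta₂_term]
  congr 1
  linear_combination (π * n ^ 2 * a : ℂ) * I_sq

lemma theta_id (m : ℕ) [NeZero (2 * m)] (hm : 0 < m) {t : ℝ} (ht : 0 < t) :
    (1 / (t * (2 * m) ^ 2) - I / (2 * m) : ℂ) ^ (1 / 2 : ℂ) *
      ∑ r : ZMod (2 * m), ee ((r.val : ℝ) ^ 2 / (4 * m)) *
        (HurwitzZeta.cosKernel (((r.val : ℝ) / (2 * m) : ℝ) : UnitAddCircle) t : ℂ) =
    (1 + I / (2 * m * t)) ^ (1 / 2 : ℂ) * jacobiTheta (I * t - 1 / (2 * m)) := by
  have hm' : (0 : ℝ) < m := by exact_mod_cast hm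
  have hmc : (m : ℂ) ≠ 0 := by exact_mod_cast hm.ne'
  have htc : (t : ℂ) ≠ 0 := by exact_mod_cast ht.ne'
  set a : ℂ := 1 / (t * (2 * m) ^ 2) - I / (2 * m) with ha
  have ha' : a = ((1 / (t * (2 * m) ^ 2) : ℝ) : ℂ) + ((-1 / (2 * m) : ℝ) : ℂ) * I := by
    rw [ha]; push_cast; ring
  have hre : 0 < a.re := by
    rw [ha']; simp only [add_re, ofReal_re, mul_re, I_re, mul_zero, ofReal_im, zero_mul, sub_self,
      add_zero]; positivity
  set w : ℂ := t + I / (2 * m) with hw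
  have hw' : w = t + ((1 / (2 * m) : ℝ) : ℂ) * I := by rw [hw]; push_cast; ring
  have hwre : 0 < w.re := by rw [hw']; simpa using ht
  have ha0 : a ≠ 0 := fun h => by simp [h] at hre
  have hw0 : w ≠ 0 := fun h => by simp [h] at hwre
  have h1 := Complex.tsum_exp_neg_mul_int_sq hre
  have h2 := Complex.tsum_exp_neg_mul_int_sq hwre
  have h3 : ∑' n : ℤ, cexp (-π / a * (n : ℂ) ^ 2) = ∑' n : ℤ, cexp (-π / w * (n : ℂ) ^ 2) := by
    refine tsum_congr fun n => ?_
    have e : 1 / a = 1 / w + 2 * m * I := by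
      rw [div_add' _ _ _ hw0, div_eq_div_iff ha0 hw0, ha, hw]
      field_simp
      linear_combination (-1 + 2 * t * m * I + 4 * t ^ 2 * m ^ 2) * I_sq
    have : -π / a * (n : ℂ) ^ 2 = -π / w * (n : ℂ) ^ 2 + ((-(m * n ^ 2) : ℤ) : ℂ) * (2 * π * I) := by
      rw [div_eq_mul_one_div, e]; push_cast; ring
    rw [this, Complex.exp_add, Complex.exp_int_mul_two_pi_mul_I, mul_one]
  have h4 : ∑' n : ℤ, cexp (-π * w * (n : ℂ) ^ 2) = jacobiTheta (I * t - 1 / (2 * m)) := by
    refine tsum_congr fun n => ?_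
    congr 1
    rw [hw]
    linear_combination (-π * n ^ 2 * t : ℂ) * I_sq
  have h5 : ∑' n : ℤ, cexp (-π * a * (n : ℂ) ^ 2) = (t : ℂ) ^ (1 / 2 : ℂ) *
      ∑ r : ZMod (2 * m), ee ((r.val : ℝ) ^ 2 / (4 * m)) *
        (HurwitzZeta.cosKernel (((r.val : ℝ) / (2 * m) : ℝ) : UnitAddCircle) t : ℂ) := by
    rw [tsum_res (N := 2 * m) (summable_theta hre), Finset.mul_sum]
    refine Finset.sum_congr rfl fun r _ => ?_
    have k1 := HurwitzZeta.hasSum_int_evenKernel ((r.val : ℝ) / (2 * m)) (one_div_pos.2 ht)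
    rw [HurwitzZeta.evenKernel_functional_equation, one_div_one_div, Real.div_rpow zero_le_one ht.le,
      Real.one_rpow, one_div_one_div, ← hasSum_ofReal] at k1
    have k2 := (k1.mul_left (ee ((r.val : ℝ) ^ 2 / (4 * m)))).tsum_eq
    rw [ofReal_mul, ofReal_cpow ht.le] at k2
    push_cast at k2
    rw [mul_left_comm, ← k2]
    refine tsum_congr fun k => ?_
    have k3 : ee ((r.val : ℝ) ^ 2 / (4 * m)) =
        ee ((r.val : ℝ) ^ 2 / (4 * m) + ((r.val * k + m * k ^ 2 : ℤ) : ℝ)) := by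
      rw [ee_add, ee_int, mul_one]
    rw [k3, ee, ← Complex.exp_add]
    congr 1
    rw [ha]
    push_cast
    field_simp
    ring
  have h6 : w ^ (1 / 2 : ℂ) = (t : ℂ) ^ (1 / 2 : ℂ) * (1 + I / (2 * m * t)) ^ (1 / 2 : ℂ) := by
    have e : w = t * (1 + I / (2 * m * t)) := by rw [hw]; field_simp
    have h0 : (1 + I / (2 * m * t) : ℂ) ≠ 0 := fun h => hw0 (by rw [e, h, mul_zero])
    rw [cpow_def_of_ne_zero hw0, cpow_def_of_ne_zero htc, cpow_def_of_ne_zero h0,
      ← Complex.exp_add, e, log_ofReal_mul ht h0, ofReal_log ht.le]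
    ring_nf
  have n1 : a ^ (1 / 2 : ℂ) ≠ 0 := by simp [ha0]
  have n2 : w ^ (1 / 2 : ℂ) ≠ 0 := by simp [hw0]
  have n3 : (t : ℂ) ^ (1 / 2 : ℂ) ≠ 0 := by simp [htc]
  rw [h3, h5] at h1
  rw [h4] at h2
  apply mul_left_cancel₀ n3
  rw [← mul_assoc, ← mul_assoc, ← h6, h2, mul_comm ((t : ℂ) ^ (1 / 2 : ℂ)), mul_assoc, h1]
  field_simp

lemma gauss_one (m : ℕ) [NeZero (2 * m)] (hm : 0 < m) :
    (-I / (2 * m) : ℂ) ^ (1 / 2 : ℂ) * ∑ r : ZMod (2 * m), ee ((r.val : ℝ) ^ 2 / (4 * m)) = 1 := by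
  have hm' : (0 : ℝ) < m := by exact_mod_cast hm
  have hinv : Tendsto (fun t : ℝ => ((t : ℂ))⁻¹) atTop (𝓝 0) := by
    have := (continuous_ofReal.tendsto 0).comp tendsto_inv_atTop_zero
    simpa [Function.comp_def] using this
  have hexp : ∀ p : ℝ, 0 < p → Tendsto (fun t : ℝ => rexp (-p * t)) atTop (𝓝 0) := fun p hp =>
    Real.tendsto_exp_atBot.comp (tendsto_id.const_mul_atTop_of_neg (neg_neg_of_pos hp))
  have l1 : Tendsto (fun t : ℝ => (1 / (t * (2 * m) ^ 2) - I / (2 * m) : ℂ) ^ (1 / 2 : ℂ)) atTop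
      (𝓝 ((-I / (2 * m) : ℂ) ^ (1 / 2 : ℂ))) := by
    have hs : (-I / (2 * m) : ℂ) ∈ slitPlane := by
      right
      have : (-I / (2 * m) : ℂ) = ((-1 / (2 * m) : ℝ) : ℂ) * I := by push_cast; ring
      rw [this]
      simp only [mul_im, ofReal_re, I_im, mul_one, ofReal_im, I_re, mul_zero, add_zero]
      exact (div_neg_of_neg_of_pos (by norm_num) (by positivity)).ne
    refine (continuousAt_cpow_const hs).tendsto.comp ?_
    have := (hinv.mul_const (((2 * m : ℂ) ^ 2)⁻¹)).sub_const (I / (2 * m))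
    convert this using 2
    · simp [mul_comm]
    · ring
  have l2 : ∀ x : UnitAddCircle, Tendsto (fun t : ℝ => (HurwitzZeta.cosKernel x t : ℂ)) atTop
      (𝓝 1) := by
    intro x
    obtain ⟨p, hp, h⟩ := HurwitzZeta.isBigO_atTop_cosKernel_sub x
    have := tendsto_sub_nhds_zero_iff.1 (h.trans_tendsto (hexp p hp))
    exact (continuous_ofReal.tendsto 1).comp this
  have l3 : Tendsto (fun t : ℝ => (1 + I / (2 * m * t) : ℂ) ^ (1 / 2 : ℂ)) atTop (𝓝 1) := by
    have h := (continuousAt_cpow_const (b := 1 / 2) one_mem_slitPlane).tendsto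
    rw [one_cpow] at h
    refine h.comp ?_
    have := (hinv.const_mul (I / (2 * m))).const_add 1
    convert this using 2
    · ring
    · ring
  have l4 : Tendsto (fun t : ℝ => jacobiTheta (I * t - 1 / (2 * m))) atTop (𝓝 1) := by
    have him : ∀ t : ℝ, (I * t - 1 / (2 * m) : ℂ).im = t := by
      intro t
      have : (1 / (2 * m) : ℂ) = ((1 / (2 * m) : ℝ) : ℂ) := by push_cast; rfl
      rw [this, sub_im, ofReal_im]; simp
    have ht : Tendsto (fun t : ℝ => (I * t - 1 / (2 * m) : ℂ)) atTop (comap im atTop) := by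
      rw [tendsto_comap_iff]
      simp only [Function.comp_def, him]
      exact tendsto_id
    have h := isBigO_at_im_infty_jacobiTheta_sub_one.comp_tendsto ht
    simp only [Function.comp_def, him] at h
    exact tendsto_sub_nhds_zero_iff.1 (h.trans_tendsto (hexp π pi_pos))
  have L := l1.mul (tendsto_finsetSum (Finset.univ : Finset (ZMod (2 * m))) fun r _ =>
    (l2 (((r.val : ℝ) / (2 * m) : ℝ) : UnitAddCircle)).const_mul (ee ((r.val : ℝ) ^ 2 / (4 * m))))
  have R := l3.mul l4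
  simp only [mul_one] at L R
  refine tendsto_nhds_unique L (R.congr' ?_)
  filter_upwards [eventually_gt_atTop 0] with t ht
  exact (theta_id m hm ht).symm

lemma per_one (m : ℤ) (hm : m ≠ 0) (j : ℤ) :
    2 * m * j ∈ per (fun k : ℤ => ee ((k : ℝ) ^ 2 / (4 * m))) := by
  intro k
  have hm' : (m : ℝ) ≠ 0 := by exact_mod_cast hm
  beta_reduce
  rw [← mul_one (ee ((k : ℝ) ^ 2 / _)), ← ee_int (k * j + m * j ^ 2), ← ee_add]
  congr 1
  push_cast
  field_simp
  ring

lemma avg_one_sum (m : ℕ) [NeZero (2 * m)] (s : ℤ) (hs : s = 1 ∨ s = -1) (hm : 0 < m) :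
    avg (fun k : ℤ => ee ((k : ℝ) ^ 2 / (4 * ((s * m : ℤ) : ℝ)))) =
      (∑ r : ZMod (2 * m), ee ((r.val : ℝ) ^ 2 / (4 * ((s * m : ℤ) : ℝ)))) / ((2 * m : ℕ) : ℂ) := by
  have hsm : s * m ≠ 0 := by rcases hs with rfl | rfl <;> simp [hm.ne']
  rw [avg_eq (Int.castAddHom (ZMod (2 * m))) ZMod.intCast_surjective
    (fun r => ee ((r.val : ℝ) ^ 2 / (4 * ((s * m : ℤ) : ℝ)))), ZMod.card]
  intro k
  have h := per_one (s * m) hsm (s * (k / (2 * m : ℕ))) (k % (2 * m : ℕ))
  have e : k % (2 * m : ℕ) + 2 * (s * m) * (s * (k / (2 * m : ℕ))) = k := by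
    have := Int.emod_add_mul_ediv k (2 * m : ℕ)
    rcases hs with rfl | rfl <;> push_cast at this ⊢ <;> linear_combination this
  beta_reduce at h
  rw [e] at h
  rw [h, ← ZMod.val_intCast]
  simp

lemma avg_one_var (m : ℤ) (hm : m ≠ 0) : ∃ c : ℝ, 0 < c ∧
    avg (fun k : ℤ => ee ((k : ℝ) ^ 2 / (4 * m))) = c * (if 0 < m then 1 + I else 1 - I) := by
  obtain ⟨n, hn⟩ := Int.eq_nat_or_neg m
  have hn0 : 0 < n := by
    rcases hn with rfl | rfl <;> simpa [Nat.pos_iff_ne_zero] using hm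
  have hn' : (0 : ℝ) < n := by exact_mod_cast hn0
  have : NeZero (2 * n) := ⟨by omega⟩
  have g := gauss_one n hn0
  have hq : (0 : ℝ) < √n := Real.sqrt_pos.2 hn'
  have hq2 : ((√n : ℝ) : ℂ) ^ 2 = n := by exact_mod_cast Real.sq_sqrt hn'.le
  have hqc : ((√n : ℝ) : ℂ) ≠ 0 := by exact_mod_cast hq.ne'
  have hnc : (n : ℂ) ≠ 0 := by exact_mod_cast hn0.ne'
  have e : (-I / (2 * n) : ℂ) = ((1 - I) / (2 * (√n : ℝ))) ^ 2 := by
    rw [div_pow, mul_pow, hq2]; field_simp
    linear_combination (-1 : ℂ) * I_sq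
  have hre : 0 < ((1 - I) / (2 * (√n : ℝ)) : ℂ).re := by
    have : ((1 - I) / (2 * (√n : ℝ)) : ℂ) = ((1 / (2 * √n) : ℝ) : ℂ) * (1 - I) := by
      push_cast; ring
    rw [this, re_ofReal_mul]; simp [hq]
  rw [e, one_div (2 : ℂ), sq_cpow_two_inv hre] at g
  have g' : ∑ r : ZMod (2 * n), ee ((r.val : ℝ) ^ 2 / (4 * n)) = (√n : ℝ) * (1 + I) := by
    field_simp at g
    linear_combination (1 + I) / 2 * g + (1 / 2 * ∑ r : ZMod (2 * n),
      ee ((r.val : ℝ) ^ 2 / (4 * n))) * I_sq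
  refine ⟨√n / (2 * n), by positivity, ?_⟩
  rcases hn with rfl | rfl
  · have := avg_one_sum n 1 (Or.inl rfl) hn0
    simp only [one_mul, Int.cast_natCast] at this ⊢
    rw [this, g', if_pos (by exact_mod_cast hn0)]
    push_cast; ring
  · have := avg_one_sum n (-1) (Or.inr rfl) hn0
    simp only [neg_mul, one_mul] at this
    rw [this, if_neg (by simp)]
    simp only [Int.cast_neg, Int.cast_natCast, mul_neg, div_neg, ee_neg]
    rw [← map_sum, g']
    simp; ring

end Pool.Agent.Lib.MP_aed2da_nt.QR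
end

-- part Pool.Agent.Lib.MP_aed2da_nt.QGauss
section

/-! Quadratic Gauss sums over a number field and the Milgram formula. -/

namespace Pool.Agent.Lib.MP_aed2da_nt.QR

open NumberField Module

variable {K : Type*} [Field K] [NumberField K]

/-- `γ` generates the inverse different -/
def IsDiff (γ : K) : Prop := ∀ w : K,
  (∀ z : 𝓞 K, ∃ n : ℤ, Algebra.trace ℚ K (γ * (w * z)) = n) ↔ ∃ x : 𝓞 K, (x : K) = w

lemma exists_isDiff [IsPrincipalIdealRing (𝓞 K)] : ∃ γ : K, γ ≠ 0 ∧ IsDiff γ := by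
  obtain ⟨γ, hγ⟩ := (FractionalIdeal.isPrincipal_iff
    (FractionalIdeal.dual ℤ ℚ (1 : FractionalIdeal (nonZeroDivisors (𝓞 K)) K))).1 inferInstance
  have h0 : γ ≠ 0 := by
    rintro rfl
    exact FractionalIdeal.dual_ne_zero ℤ ℚ
      (I := (1 : FractionalIdeal (nonZeroDivisors (𝓞 K)) K)) one_ne_zero (hγ.trans (by simp))
  refine ⟨γ, h0, fun w => ?_⟩
  have h := FractionalIdeal.mem_dual (A := ℤ) (K := ℚ)
    (I := (1 : FractionalIdeal (nonZeroDivisors (𝓞 K)) K)) one_ne_zero (x := γ * w)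
  rw [hγ, FractionalIdeal.mem_spanSingleton] at h
  constructor
  · intro H
    obtain ⟨x, hx⟩ := h.2 (by
      intro a ha
      obtain ⟨z, rfl⟩ := (FractionalIdeal.mem_one_iff _).1 ha
      obtain ⟨n, hn⟩ := H z
      exact ⟨n, by simpa [mul_assoc] using hn.symm⟩)
    refine ⟨x, mul_left_cancel₀ h0 ?_⟩
    rw [← hx, Algebra.smul_def, mul_comm]
  · rintro ⟨x, rfl⟩ z
    obtain ⟨n, hn⟩ := h.1 ⟨x, by rw [Algebra.smul_def, mul_comm]⟩ z
      ((FractionalIdeal.mem_one_iff _).2 ⟨z, rfl⟩)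
    exact ⟨n, by simpa [mul_assoc] using hn.symm⟩

/-- the additive character of `K` with conductor the ring of integers -/
noncomputable def ps (γ y : K) : ℂ := ee ((Algebra.trace ℚ K (γ * y) : ℚ) : ℝ)

lemma ps_add (γ x y : K) : ps γ (x + y) = ps γ x * ps γ y := by
  unfold ps; rw [mul_add, map_add, Rat.cast_add, ee_add]

lemma ps_eq_one {γ y : K} : ps γ y = 1 ↔ ∃ n : ℤ, Algebra.trace ℚ K (γ * y) = n := by
  unfold ps; rw [ee_eq_one]; exact exists_congr fun n => by exact_mod_cast Iff.rfl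

variable {γ : K}

lemma tr_int (hγ : IsDiff γ) (x : 𝓞 K) : ∃ n : ℤ, Algebra.trace ℚ K (γ * x) = n := by
  simpa using (hγ x).2 ⟨x, rfl⟩ 1

lemma ps_add_int (hγ : IsDiff γ) {x y : K} (z : 𝓞 K) (h : x = y + z) : ps γ x = ps γ y := by
  rw [h, ps_add, ps_eq_one.2 (tr_int hγ z), mul_one]

lemma exists_ps_ne (hγ : IsDiff γ) {w : K} (hw : ¬ ∃ x : 𝓞 K, (x : K) = w) :
    ∃ z : 𝓞 K, ps γ (w * z) ≠ 1 := by
  by_contra! h
  exact hw ((hγ w).1 fun z => ps_eq_one.1 (h z))

/-- the normalised quadratic Gauss sum -/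
noncomputable def Gs (γ c : K) : ℂ := avg (fun x : 𝓞 K => ps γ (c * (x : K) ^ 2))

lemma exists_den (c : K) : ∃ (N : ℤ) (x : 𝓞 K), N ≠ 0 ∧ (N : K) * c = x := by
  have : Algebra.IsAlgebraic ℤ K := IsFractionRing.comap_isAlgebraic_iff.2
    (inferInstance : Algebra.IsAlgebraic ℚ K)
  obtain ⟨N, hN, h⟩ := (this.1 c).exists_integral_multiple
  exact ⟨N, ⟨N • c, h⟩, hN, by simp⟩

lemma per_fin (hγ : IsDiff γ) (c : K) :
    (per (fun x : 𝓞 K => ps γ (c * (x : K) ^ 2))).FiniteIndex := by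
  obtain ⟨N, x, hN, h⟩ := exists_den c
  refine finiteIndex_of_nsmul _ fun y => ⟨N, hN, fun z => ?_⟩
  refine ps_add_int hγ (x * (2 * z * y + N * y ^ 2)) ?_
  simp only [zsmul_eq_mul, map_add, map_mul, map_pow, map_ofNat, map_intCast]
  linear_combination (2 * z * y + N * y ^ 2 : K) * h

lemma Gs_add_int (hγ : IsDiff γ) {c c' : K} (z : 𝓞 K) (h : c = c' + z) : Gs γ c = Gs γ c' := by
  unfold Gs
  congr 1
  funext x
  refine ps_add_int hγ (z * x ^ 2) ?_
  push_cast
  rw [h]; ring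

lemma Gs_int (hγ : IsDiff γ) (z : 𝓞 K) : Gs γ z = 1 := by
  rw [Gs_add_int hγ (c' := 0) z (by simp), ← avg_one (M := 𝓞 K), Gs]
  congr 1
  funext x
  simpa using ps_eq_one.2 (tr_int hγ 0)

/-- the map `(x, y) ↦ s x + t y` -/
def lin2 (s t : 𝓞 K) : 𝓞 K × 𝓞 K →+ 𝓞 K where
  toFun x := s * x.1 + t * x.2
  map_zero' := by simp
  map_add' := by intros; simp; ring

omit [NumberField K] in
lemma lin2_surj {s t : 𝓞 K} (h : IsCoprime s t) : Function.Surjective (lin2 s t) := by
  obtain ⟨u, v, huv⟩ := h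
  intro x
  refine ⟨(u * x, v * x), ?_⟩
  change s * (u * x) + t * (v * x) = x
  linear_combination x * huv

lemma Gs_sq (hγ : IsDiff γ) {t a : 𝓞 K} (b : 𝓞 K) (ha : a ≠ 0) (h : IsCoprime t a) :
    Gs γ ((t : K) ^ 2 * b / a) = Gs γ (b / a) := by
  have ha' : (a : K) ≠ 0 := by exact_mod_cast ha
  unfold Gs
  refine (avg_comp (AddMonoidHom.fst (𝓞 K) (𝓞 K)) Prod.fst_surjective _).symm.trans
    (Eq.trans ?_ (avg_comp (lin2 t a) (lin2_surj h) _))
  congr 1
  funext x
  symm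
  refine ps_add_int hγ (b * (2 * t * x.1 * x.2 + a * x.2 ^ 2)) ?_
  simp only [lin2, AddMonoidHom.coe_mk, ZeroHom.coe_mk, AddMonoidHom.coe_fst, map_add, map_mul,
    map_pow, map_ofNat]
  field_simp
  ring

lemma Gs_crt (hγ : IsDiff γ) {a₁ a₂ : 𝓞 K} (b : 𝓞 K) (h₁ : a₁ ≠ 0) (h₂ : a₂ ≠ 0)
    (h : IsCoprime a₁ a₂) :
    Gs γ (b / (a₁ * a₂)) = Gs γ (b * a₂ / a₁) * Gs γ (b * a₁ / a₂) := by
  have h₁' : (a₁ : K) ≠ 0 := by exact_mod_cast h₁
  have h₂' : (a₂ : K) ≠ 0 := by exact_mod_cast h₂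
  unfold Gs
  have := per_fin hγ (b * a₂ / a₁)
  have := per_fin hγ (b * a₁ / a₂)
  rw [← avg_comp (lin2 a₂ a₁) (lin2_surj h.symm), ← avg_prod]
  congr 1
  funext x
  rw [← ps_add]
  refine ps_add_int hγ (2 * b * x.1 * x.2) ?_
  simp only [lin2, AddMonoidHom.coe_mk, ZeroHom.coe_mk, map_add, map_mul, map_ofNat]
  field_simp
  ring

lemma sum_sq_field {F : Type*} [Field F] [Fintype F] [DecidableEq F] (hF : ringChar F ≠ 2)
    (θ : F → ℂ) : ∑ x, θ (x ^ 2) = ∑ y, ((quadraticChar F y : ℤ) + 1 : ℂ) * θ y := by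
  rw [← Finset.sum_fiberwise Finset.univ (fun x : F => x ^ 2)]
  refine Finset.sum_congr rfl fun y _ => ?_
  rw [Finset.sum_congr rfl (g := fun _ => θ y) (fun x hx => by rw [(Finset.mem_filter.1 hx).2])]
  have := quadraticChar_card_sqrts hF y
  rw [Set.toFinset_ofPred] at this
  rw [Finset.sum_const, nsmul_eq_mul]
  congr 1
  exact_mod_cast this

open Classical in
/-- the quadratic residue symbol -/
noncomputable def chi (p u : 𝓞 K) : ℝ := if ∃ r : 𝓞 K, p ∣ u - r ^ 2 then 1 else -1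

lemma Gs_chi [IsPrincipalIdealRing (𝓞 K)] (hγ : IsDiff γ) {p u b : 𝓞 K} (hp : Prime p)
    (hp2 : ¬ p ∣ 2) (hu : ¬ p ∣ u) (hb : ¬ p ∣ b) :
    Gs γ (u * b / p) = chi p u * Gs γ (b / p) := by
  classical
  have hp' : (p : K) ≠ 0 := by exact_mod_cast hp.ne_zero
  unfold chi
  split_ifs with h
  · obtain ⟨r, z, hz⟩ := h
    have hr : IsCoprime r p := by
      refine (hp.irreducible.coprime_iff_not_dvd.2 fun h => hu ?_).symm
      have : u = r ^ 2 + p * z := by linear_combination hz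
      rw [this]
      exact dvd_add (h.pow two_ne_zero) (dvd_mul_right _ _)
    rw [Complex.ofReal_one, one_mul, ← Gs_sq hγ b hp.ne_zero hr]
    refine Gs_add_int hγ (z * b) ?_
    have : (u : K) = r ^ 2 + p * z := by exact_mod_cast (by linear_combination hz)
    push_cast
    rw [this]; field_simp
  · let P := Ideal.span {p}
    have : P.IsMaximal := PrincipalIdealRing.isMaximal_of_irreducible hp.irreducible
    let _ := Ideal.Quotient.field P
    have : Finite (𝓞 K ⧸ P) := Ideal.finiteQuotientOfFreeOfNeBot _ (by simp [P, hp.ne_zero])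
    let _ := Fintype.ofFinite (𝓞 K ⧸ P)
    let π := Ideal.Quotient.mk P
    have hπ : ∀ x, π x = 0 ↔ p ∣ x := fun x => by
      rw [Ideal.Quotient.eq_zero_iff_mem, Ideal.mem_span_singleton]
    have hF : ringChar (𝓞 K ⧸ P) ≠ 2 := by
      intro h2
      have := ringChar.Nat.cast_ringChar (R := 𝓞 K ⧸ P)
      rw [h2] at this
      exact hp2 ((hπ 2).1 (by rw [map_ofNat]; exact_mod_cast this))
    let θ : 𝓞 K ⧸ P → ℂ := fun q => ps γ (b * (q.out : 𝓞 K) / p)
    have hθ : ∀ x, θ (π x) = ps γ (b * x / p) := by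
      intro x
      obtain ⟨z, hz⟩ := (hπ ((π x).out - x)).1 (by simp [π])
      refine ps_add_int hγ (b * z) ?_
      have : ((π x).out : K) = x + p * z := by exact_mod_cast (by linear_combination hz)
      push_cast
      rw [this]; field_simp
    have e1 := avg_eq π.toAddMonoidHom Ideal.Quotient.mk_surjective (fun q => θ (q ^ 2))
      (fun x : 𝓞 K => ps γ (b / p * (x : K) ^ 2)) (fun x => by
        change _ = θ (π x ^ 2)
        rw [← map_pow π, hθ]; push_cast; ring_nf)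
    have e2 := avg_eq π.toAddMonoidHom Ideal.Quotient.mk_surjective (fun q => θ (π u * q ^ 2))
      (fun x : 𝓞 K => ps γ (u * b / p * (x : K) ^ 2)) (fun x => by
        change _ = θ (π u * π x ^ 2)
        rw [← map_pow π, ← map_mul π, hθ]; push_cast; ring_nf)
    have hu0 : π u ≠ 0 := fun h => hu ((hπ u).1 h)
    have hχ : quadraticChar _ (π u) = -1 := by
      rw [quadraticChar_neg_one_iff_not_isSquare]
      rintro ⟨q, hq⟩
      obtain ⟨r, rfl⟩ := Ideal.Quotient.mk_surjective q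
      exact h ⟨r, (hπ _).1 (by rw [map_sub, map_pow, hq, sq, sub_self])⟩
    have h0 : ∑ q, θ q = 0 := by
      obtain ⟨z, hz⟩ := exists_ps_ne hγ (w := b / p) (by
        rintro ⟨x, hx⟩
        refine hb ⟨x, ?_⟩
        have : (b : K) = p * x := by rw [hx]; field_simp
        exact_mod_cast this)
      refine sum_eq_zero_of_shift _ θ (π z) _ hz (by simp) fun q _ => ?_
      obtain ⟨y, rfl⟩ := Ideal.Quotient.mk_surjective q
      change θ (π y + π z) = _ * θ (π y)
      rw [← map_add, hθ, hθ, ← ps_add]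
      push_cast; ring_nf
    have h1 : ∑ q, θ (π u * q) = 0 := by
      rw [← h0]; exact Equiv.sum_comp (Equiv.mulLeft₀ _ hu0) θ
    unfold Gs
    rw [e1, e2, sum_sq_field hF θ, sum_sq_field hF (fun q => θ (π u * q)),
      ← Equiv.sum_comp (Equiv.mulLeft₀ _ hu0) (fun y => ((quadraticChar _ y : ℤ) + 1 : ℂ) * θ y)]
    simp only [Equiv.mulLeft₀_apply, map_mul, hχ, add_mul, Finset.sum_add_distrib, one_mul, h1]
    simp [neg_div]

end Pool.Agent.Lib.MP_aed2da_nt.QR
end

-- part Pool.Agent.Lib.MP_aed2da_nt.QMilgram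
section

/-! The Milgram formula up to a positive constant for a totally real field. -/

namespace Pool.Agent.Lib.MP_aed2da_nt.QR

open NumberField Module Finset

lemma sig_le {ι S : Type*} [Fintype ι] [Fintype S] (v : ι → S → ℝ) (c : S → ℝ) (m : ι → ℝ)
    (h0 : ∀ i j, i ≠ j → ∑ s, c s * (v i s * v j s) = 0)
    (h1 : ∀ i, ∑ s, c s * (v i s * v i s) = m i) :
    #{i | 0 < m i} ≤ #{s | 0 < c s} := by
  classical
  have hli : LinearIndependent ℝ
      (fun (i : {i // 0 < m i}) (s : {s // 0 < c s}) => v i s) := by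
    rw [Fintype.linearIndependent_iff]
    intro t ht
    have e : ∑ s, c s * (∑ i : {i // 0 < m i}, t i * v i s) ^ 2
        = ∑ i : {i // 0 < m i}, t i ^ 2 * m i := by
      simp only [sq, Finset.sum_mul_sum]
      simp only [Finset.mul_sum]
      rw [Finset.sum_comm]
      refine Finset.sum_congr rfl fun i _ => ?_
      rw [Finset.sum_comm, Finset.sum_eq_single i]
      · rw [← h1, Finset.mul_sum]
        exact Finset.sum_congr rfl fun s _ => by ring
      · intro j _ hj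
        have := h0 i j (fun h => hj (Subtype.ext h).symm)
        have := congrArg (t i * t j * ·) this
        simp only [mul_zero, Finset.mul_sum] at this
        exact (Finset.sum_congr rfl fun s _ => by ring).trans this
      · simp
    have le : ∑ s, c s * (∑ i : {i // 0 < m i}, t i * v i s) ^ 2 ≤ 0 := by
      refine Finset.sum_nonpos fun s _ => ?_
      by_cases hs : 0 < c s
      · have := congrFun ht ⟨s, hs⟩
        simp only [Finset.sum_apply, Pi.smul_apply, smul_eq_mul, Pi.zero_apply] at this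
        rw [this]; simp
      · exact mul_nonpos_of_nonpos_of_nonneg (not_lt.1 hs) (sq_nonneg _)
    rw [e] at le
    have nn : ∀ i ∈ (univ : Finset {i // 0 < m i}), 0 ≤ t i ^ 2 * m i :=
      fun i _ => mul_nonneg (sq_nonneg _) i.2.le
    intro i
    have := (Finset.sum_eq_zero_iff_of_nonneg nn).1 (le_antisymm le (Finset.sum_nonneg nn)) i
      (mem_univ _)
    simpa [i.2.ne'] using this
  have := hli.fintype_card_le_finrank
  simpa [Fintype.card_subtype] using this

lemma prod_sig {ι S : Type*} [Fintype ι] [Fintype S] (v : ι → S → ℝ) (c : S → ℝ) (m : ι → ℝ)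
    (h0 : ∀ i j, i ≠ j → ∑ s, c s * (v i s * v j s) = 0)
    (h1 : ∀ i, ∑ s, c s * (v i s * v i s) = m i) (hm : ∀ i, m i ≠ 0)
    (hc : Fintype.card ι = Fintype.card S) (A B : ℂ) :
    ∏ i, (if 0 < m i then A else B) = ∏ s, (if 0 < c s then A else B) := by
  classical
  have a1 := sig_le v c m h0 h1
  have a2 := sig_le v (fun s => -c s) (fun i => -m i)
    (fun i j h => by simp [h0 i j h]) (fun i => by simp [h1 i])
  have a3 : #{i | 0 < -m i} = #{i | ¬ 0 < m i} := by
    congr 1; ext i; simp [lt_iff_le_and_ne, hm i, (hm i).symm]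
  have a4 : #{s | 0 < -c s} ≤ #{s | ¬ 0 < c s} :=
    card_le_card fun s => by simpa using le_of_lt
  have a5 := card_filter_add_card_filter_not (s := univ) (fun i => 0 < m i)
  have a6 := card_filter_add_card_filter_not (s := univ) (fun s => 0 < c s)
  rw [card_univ] at a5 a6
  rw [prod_ite, prod_ite]
  simp only [prod_const]
  congr 2 <;> omega

variable {K : Type*} [Field K] [NumberField K]

lemma exists_orth {d : K} (hd : d ≠ 0) : ∃ e : Fin (finrank ℚ K) → 𝓞 K,
    (∀ i j, i ≠ j → Algebra.trace ℚ K (d * (e i * e j)) = 0) ∧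
    (∀ i, Algebra.trace ℚ K (d * (e i * e i)) ≠ 0) ∧
    ∀ y : K, (∀ i, Algebra.trace ℚ K (d * (y * e i)) = 0) → y = 0 := by
  let B : LinearMap.BilinForm ℚ K := (Algebra.traceForm ℚ K).compLeft (LinearMap.mulLeft ℚ d)
  have hB : ∀ x y, B x y = Algebra.trace ℚ K (d * (x * y)) := fun x y => by
    simp [B, mul_assoc]
  obtain ⟨v, hv⟩ := LinearMap.BilinForm.exists_orthogonal_basis (B := B)
    ⟨fun x y => by simp [hB, mul_comm]⟩
  have hnd : ∀ y : K, (∀ i, B y (v i) = 0) → y = 0 := by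
    intro y hy
    have : B y = 0 := v.ext hy
    have h := (traceForm_nondegenerate ℚ K).1 (d * y) fun z => by
      simpa [hB, mul_assoc] using LinearMap.congr_fun this z
    exact (mul_eq_zero.1 h).resolve_left hd
  choose N e hN he using fun i => exists_den (v i)
  have he' : ∀ i, (e i : K) = (N i : ℚ) • v i := fun i => by rw [← he]; simp [Algebra.smul_def]
  have hN' : ∀ i, (N i : ℚ) ≠ 0 := fun i => by exact_mod_cast hN i
  refine ⟨e, fun i j h => ?_, fun i h => ?_, fun y hy => hnd y fun i => ?_⟩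
  · rw [← hB, he', he']
    simp [LinearMap.isOrthoᵢ_def.1 hv i j h]
  · rw [← hB, he'] at h
    refine v.ne_zero i (hnd _ fun j => ?_)
    by_cases hij : i = j
    · subst hij; simpa [hN' i] using h
    · exact LinearMap.isOrthoᵢ_def.1 hv i j hij
  · have := hy i
    rw [← hB, he'] at this
    simpa [hN' i] using this

variable {γ : K}

lemma milgram_aux (hγ : IsDiff γ) {a : 𝓞 K} (ha : a ≠ 0)
    {ι : Type*} [Fintype ι] (e : ι → 𝓞 K) (m : ι → ℤ)
    (h0 : ∀ i j, i ≠ j → Algebra.trace ℚ K (γ * a * (e i * e j)) = 0)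
    (h1 : ∀ i, Algebra.trace ℚ K (γ * a * (e i * e i)) = m i) (hm : ∀ i, m i ≠ 0)
    (h2 : ∀ y : K, (∀ i, Algebra.trace ℚ K (γ * a * (y * e i)) = 0) → y = 0) :
    ∃ c : ℝ, 0 < c ∧ Gs γ (1 / (4 * a)) =
      c * ∏ i, (if 0 < (m i : ℝ) then 1 + Complex.I else 1 - Complex.I) := by
  classical
  have ha' : (a : K) ≠ 0 := by exact_mod_cast ha
  have hm' : ∀ i, (m i : ℚ) ≠ 0 := fun i => by exact_mod_cast hm i
  let y : (ι → ℤ) →+ K :=
    { toFun := fun k => ∑ i, ((k i : ℚ) / (2 * m i)) • (e i : K)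
      map_zero' := by simp
      map_add' := by intros; simp [add_div, add_smul, sum_add_distrib] }
  have hy : ∀ k j, Algebra.trace ℚ K (γ * a * (y k * e j)) = k j / 2 := by
    intro k j
    simp only [y, AddMonoidHom.coe_mk, ZeroHom.coe_mk, sum_mul, mul_sum, map_sum, smul_mul_assoc,
      mul_smul_comm, map_smul]
    rw [sum_eq_single j (fun i _ hi => by rw [h0 i j hi, smul_zero]) (by simp), h1, smul_eq_mul]
    field_simp [hm' j]
  have hsurj : ∀ x : 𝓞 K, ∃ k, 2 * a * y k = x := by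
    intro x
    choose k hk using fun i => tr_int hγ (x * e i)
    refine ⟨k, ?_⟩
    have : y k - x / (2 * a) = 0 := h2 _ fun i => by
      have : γ * a * ((y k - x / (2 * a)) * e i) =
          γ * a * (y k * e i) - (1 / 2 : ℚ) • (γ * (x * e i : 𝓞 K)) := by
        rw [Algebra.smul_def]; simp only [map_mul, map_div₀, map_one, map_ofNat]; field_simp
      rw [this, map_sub, map_smul, hy, hk, smul_eq_mul]; ring
    rw [sub_eq_zero.1 this]; field_simp
  let f : (ι → ℤ) → ℂ := fun k => ps γ (a * y k ^ 2)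
  have hf : f = fun k => ∏ i, ee ((k i : ℝ) ^ 2 / (4 * m i)) := by
    funext k
    rw [← ee_sum]
    simp only [f, ps]
    congr 1
    have : γ * (a * y k ^ 2) = ∑ j, ((k j : ℚ) / (2 * m j)) • (γ * a * (y k * e j)) := by
      have : y k = ∑ i, ((k i : ℚ) / (2 * m i)) • (e i : K) := rfl
      simp only [← mul_smul_comm, ← mul_sum, ← this]; ring
    rw [this, map_sum]
    push_cast
    refine sum_congr rfl fun j _ => ?_
    rw [map_smul, hy, smul_eq_mul]
    push_cast
    ring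
  let M₀ : AddSubgroup (ι → ℤ) :=
    (algebraMap (𝓞 K) K).range.toAddSubgroup.comap ((AddMonoidHom.mulLeft (2 * a : K)).comp y)
  have hM : ∀ k, k ∈ M₀ ↔ ∃ x : 𝓞 K, (x : K) = 2 * a * y k := fun k => Iff.rfl
  have hN : (∏ i, 2 * m i) ≠ 0 := prod_ne_zero_iff.2 fun i _ => mul_ne_zero two_ne_zero (hm i)
  have : (per f).FiniteIndex := by
    refine finiteIndex_of_nsmul _ fun k => ⟨_, hN, fun z => ?_⟩
    rw [hf]
    refine prod_congr rfl fun i _ => ?_
    obtain ⟨r, hr⟩ := dvd_prod_of_mem (fun i => 2 * m i) (mem_univ i)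
    have := per_one (m i) (hm i) (r * k i) (z i)
    simpa [hr, mul_assoc] using this
  have : M₀.FiniteIndex := by
    refine finiteIndex_of_nsmul _ fun k => ?_
    obtain ⟨N, x, hN, h⟩ := exists_den (2 * a * y k)
    exact ⟨N, hN, (hM _).2 ⟨x, by rw [map_zsmul, ← h, zsmul_eq_mul]; ring⟩⟩
  obtain ⟨c, hc, h⟩ := avg_sub f M₀ (by
    intro k hk
    obtain ⟨z, hz⟩ := exists_ps_ne hγ (fun h => hk ((hM k).2 h))
    obtain ⟨l, hl⟩ := hsurj (2 * a * z)
    have hl' : y l = z := by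
      simp only [map_mul, map_ofNat] at hl
      exact mul_left_cancel₀ (mul_ne_zero two_ne_zero ha') hl
    refine ⟨l, (hM l).2 ⟨_, hl.symm⟩, _, hz, fun b hb => ?_⟩
    obtain ⟨x, hx⟩ := (hM _).1 hb
    simp only [f]
    rw [← ps_add, map_add, hl']
    refine ps_add_int hγ (x * z + a * z ^ 2) ?_
    rw [map_sub] at hx
    simp only [map_add, map_mul, map_pow]
    linear_combination (-z : K) * hx)
  choose g hg using fun k : M₀ => (hM k).1 k.2
  have hinj : Function.Injective (algebraMap (𝓞 K) K) := RingOfIntegers.coe_injective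
  let φ : M₀ →+ 𝓞 K :=
    { toFun := g
      map_zero' := hinj (by simpa using hg 0)
      map_add' := fun k l => hinj (by
        rw [map_add]
        change (g (k + l) : K) = g k + g l
        rw [hg, hg, hg, AddSubgroup.coe_add, map_add]; ring) }
  have hφ : Function.Surjective φ := by
    intro x
    obtain ⟨k, hk⟩ := hsurj x
    exact ⟨⟨k, (hM k).2 ⟨x, hk.symm⟩⟩, hinj ((hg _).trans hk)⟩
  have e1 : Gs γ (1 / (4 * a)) = avg (fun x : M₀ => f x) := by
    rw [Gs, ← avg_comp φ hφ]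
    congr 1
    funext k
    change ps γ (_ * (g k : K) ^ 2) = ps γ _
    rw [hg]
    congr 1
    field_simp
    ring
  choose c' hc' h' using fun i => avg_one_var (m i) (hm i)
  refine ⟨c * ∏ i, c' i, mul_pos hc (prod_pos fun i _ => hc' i), ?_⟩
  rw [e1, h, hf, avg_pi (fun i (k : ℤ) => ee ((k : ℝ) ^ 2 / (4 * m i))) (fun i =>
    finiteIndex_of_nsmul _ fun k => ⟨2 * m i, mul_ne_zero two_ne_zero (hm i), per_one _ (hm i) k⟩)]
  simp only [h', prod_mul_distrib, Int.cast_pos]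
  push_cast
  ring

variable [IsTotallyReal K]

/-- the real embedding attached to a complex embedding -/
noncomputable def rl (φ : K →+* ℂ) : K →+* ℝ :=
  (IsTotallyReal.complexEmbedding_isReal φ).embedding

lemma trace_eq (x : K) : ((Algebra.trace ℚ K x : ℚ) : ℝ) = ∑ φ : K →+* ℂ, rl φ x := by
  have := trace_eq_sum_embeddings ℂ (K := ℚ) (L := K) (x := x)
  rw [← Fintype.sum_equiv (RingHom.equivRatAlgHom K ℂ) (fun φ => φ x) (fun φ => φ x)
    (fun _ => by simp [RingHom.equivRatAlgHom_apply])] at this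
  apply Complex.ofReal_injective
  push_cast
  simpa [rl] using this

/-- the eighth root of unity (up to a positive factor) attached to the signature -/
noncomputable def EE (d : K) : ℂ :=
  ∏ φ : K →+* ℂ, (if 0 < rl φ d then 1 + Complex.I else 1 - Complex.I)

lemma EE_ne (d : K) : EE d ≠ 0 := by
  refine prod_ne_zero_iff.2 fun φ _ => ?_
  split_ifs <;> exact fun h => by simpa using congrArg Complex.re h

lemma EE_congr {d d' : K} (h : ∀ σ : K →+* ℝ, 0 < σ (d * d')) : EE d = EE d' := by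
  refine prod_congr rfl fun φ _ => if_congr ?_ rfl rfl
  have := h (rl φ)
  rw [map_mul] at this
  exact ⟨fun h => pos_of_mul_pos_right (mul_comm (rl φ d) _ ▸ this) h.le,
    fun h => pos_of_mul_pos_left this h.le⟩

theorem milgram (hγ0 : γ ≠ 0) (hγ : IsDiff γ) {a : 𝓞 K} (ha : a ≠ 0) :
    ∃ c : ℝ, 0 < c ∧ Gs γ (1 / (4 * a)) = c * EE (γ * a) := by
  have ha' : (a : K) ≠ 0 := by exact_mod_cast ha
  obtain ⟨e, h0, h1, h2⟩ := exists_orth (mul_ne_zero hγ0 ha')
  choose m hm using fun i => tr_int hγ (a * (e i * e i))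
  simp only [map_mul, ← mul_assoc γ] at hm
  have hm0 : ∀ i, m i ≠ 0 := fun i h => h1 i (by rw [hm, h]; simp)
  obtain ⟨c, hc, h⟩ := milgram_aux hγ ha e m h0 hm hm0 h2
  refine ⟨c, hc, ?_⟩
  rw [h, prod_sig (fun i (φ : K →+* ℂ) => rl φ (e i)) (fun φ => rl φ (γ * a)) (fun i => (m i : ℝ))
    (fun i j hij => ?_) (fun i => ?_) (fun i => by exact_mod_cast hm0 i)
    (by simp [NumberField.Embeddings.card])]
  · rfl
  · simp only [← map_mul (rl _), ← trace_eq, h0 i j hij]; simp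
  · simp only [← map_mul (rl _), ← trace_eq, hm i]; simp

end Pool.Agent.Lib.MP_aed2da_nt.QR
end

-- part Pool.Agent.Lib.MP_aed2da_nt.QRecip
section

/-! Quadratic reciprocity (Hecke) over a totally real field of class number one. -/

namespace Pool.Agent.Lib.MP_aed2da_nt

open NumberField

namespace QR

variable {K : Type*} [Field K] [NumberField K] {γ : K}

lemma Gs_unit (hγ : IsDiff γ) (u : (𝓞 K)ˣ) {a : 𝓞 K} (ha : a ≠ 0) :
    Gs γ (1 / ((u * a : 𝓞 K) : K)) = Gs γ (((u : 𝓞 K) : K) / a) := by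
  have ha' : (a : K) ≠ 0 := by exact_mod_cast ha
  have hu : ((u : 𝓞 K) : K) ≠ 0 := by exact_mod_cast u.ne_zero
  have h := Gs_sq hγ (t := u) (a := u * a) 1 (mul_ne_zero u.ne_zero ha)
    ⟨(u⁻¹ : (𝓞 K)ˣ), 0, by simp⟩
  simp only [map_one] at h
  rw [← h]
  congr 1
  simp only [map_mul]
  field_simp

omit [NumberField K] in
lemma chi_mul_pos {p q u v : 𝓞 K} (h : 0 < chi p u * chi q v) :
    (∃ r : 𝓞 K, p ∣ u - r ^ 2) ↔ (∃ r : 𝓞 K, q ∣ v - r ^ 2) := by
  unfold chi at h
  split_ifs at h with h1 h2 h2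
  · simp [h1, h2]
  · norm_num at h
  · norm_num at h
  · simp [h1, h2]

lemma Gs_prod [IsPrincipalIdealRing (𝓞 K)] (hγ : IsDiff γ) (u : (𝓞 K)ˣ) {ι : Type*}
    (I : Finset ι) (l : ι → 𝓞 K) (hl : ∀ i ∈ I, Prime (l i) ∧ ¬ l i ∣ 2)
    (hc : ∀ i ∈ I, ∀ j ∈ I, i ≠ j → ¬ l i ∣ l j) (b : 𝓞 K) (hb : ∀ i ∈ I, ¬ l i ∣ b) :
    Gs γ ((u : 𝓞 K) * b / (∏ i ∈ I, l i : 𝓞 K)) =
      (∏ i ∈ I, chi (l i) u : ℝ) * Gs γ (b / (∏ i ∈ I, l i : 𝓞 K)) := by
  classical
  induction I using Finset.induction_on generalizing b with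
  | empty =>
    have := Gs_int hγ (u * b)
    simp only [map_mul] at this
    simp [Gs_int hγ, this]
  | insert j I hj ih =>
    obtain ⟨hp, hp2⟩ := hl j (Finset.mem_insert_self _ _)
    have hl' : ∀ i ∈ I, Prime (l i) ∧ ¬ l i ∣ 2 := fun i hi => hl i (Finset.mem_insert_of_mem hi)
    have hne : ∀ i ∈ I, j ≠ i := fun i hi h => hj (h ▸ hi)
    have hL : ¬ l j ∣ ∏ i ∈ I, l i := by
      rw [hp.dvd_finsetProd_iff]
      rintro ⟨i, hi, h⟩
      exact hc j (Finset.mem_insert_self _ _) i (Finset.mem_insert_of_mem hi) (hne i hi) h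
    have hL0 : ∏ i ∈ I, l i ≠ 0 := fun h => hL (h ▸ dvd_zero _)
    have hco := hp.irreducible.coprime_iff_not_dvd.2 hL
    have e1 := Gs_crt hγ (u * b) hp.ne_zero hL0 hco
    have e2 := Gs_crt hγ b hp.ne_zero hL0 hco
    have e3 := Gs_chi hγ (u := u) (b := b * ∏ i ∈ I, l i) hp hp2
      (fun h => hp.not_isUnit (isUnit_of_dvd_unit h u.isUnit))
      (fun h => (hp.dvd_or_dvd h).elim (hb j (Finset.mem_insert_self _ _)) hL)
    have e4 := ih hl' (fun i hi k hk => hc i (Finset.mem_insert_of_mem hi) k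
      (Finset.mem_insert_of_mem hk)) (b * l j) (fun i hi h => ((hl' i hi).1.dvd_or_dvd h).elim
        (hb i (Finset.mem_insert_of_mem hi))
        (hc i (Finset.mem_insert_of_mem hi) j (Finset.mem_insert_self _ _) (hne i hi).symm))
    rw [Finset.prod_insert hj, Finset.prod_insert hj]
    simp only [map_mul, mul_assoc] at e1 e2 e3 e4 ⊢
    rw [e1, e2, e3, e4]
    push_cast
    ring

variable [IsTotallyReal K]

lemma key (hγ0 : γ ≠ 0) (hγ : IsDiff γ) {a : 𝓞 K} (ha : a ≠ 0) (h2 : IsCoprime a 2) :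
    ∃ c : ℝ, 0 < c ∧ Gs γ (1 / a) * Gs γ (a / 4) = c * EE (γ * a) := by
  obtain ⟨c, hc, h⟩ := milgram hγ0 hγ ha
  refine ⟨c, hc, ?_⟩
  have h4 : IsCoprime a 4 := by
    have := h2.pow_right (n := 2)
    rwa [show (2 : 𝓞 K) ^ 2 = 4 by norm_num] at this
  have e1 := Gs_crt hγ 1 ha (by norm_num) h4
  have e2 := Gs_sq hγ 1 ha h2.symm
  simp only [map_one, map_ofNat, one_mul, mul_one] at e1 e2
  rw [← h, mul_comm (4 : K), e1, ← e2]
  norm_num

lemma cmp (hγ0 : γ ≠ 0) (hγ : IsDiff γ) {a a' : 𝓞 K} (h2 : IsCoprime a 2)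
    (hs : TotPos ((a * a' : 𝓞 K) : K)) (h4 : ∃ t : 𝓞 K, 4 ∣ a - a' * t ^ 2) :
    Gs γ (1 / a') ≠ 0 ∧ ∃ c : ℝ, 0 < c ∧ Gs γ (1 / a) = c * Gs γ (1 / a') := by
  obtain ⟨t, z, hz⟩ := h4
  obtain ⟨φ⟩ : Nonempty (K →+* ℂ) := inferInstance
  have h0 : a * a' ≠ 0 := fun h => by simpa [h] using hs (rl φ)
  have ea : a = a' * t ^ 2 + 2 * (2 * z) := by linear_combination hz
  have h2' : IsCoprime (a' * t ^ 2) 2 := by
    rw [ea] at h2
    exact h2.of_add_mul_left_left
  have ht : IsCoprime t 4 := by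
    have := ((IsCoprime.pow_left_iff two_pos).1 h2'.of_mul_left_right).pow_right (n := 2)
    rwa [show (2 : 𝓞 K) ^ 2 = 4 by norm_num] at this
  obtain ⟨c, hc, h⟩ := key hγ0 hγ (left_ne_zero_of_mul h0) h2
  obtain ⟨c', hc', h'⟩ := key hγ0 hγ (right_ne_zero_of_mul h0) h2'.of_mul_left_left
  have e1 : Gs γ (a / 4) = Gs γ (a' / 4) := by
    have := Gs_sq hγ a' (by norm_num) ht
    simp only [map_ofNat] at this
    rw [← this]
    refine Gs_add_int hγ z ?_
    rw [ea]
    simp only [map_add, map_mul, map_pow, map_ofNat]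
    ring
  have e2 : EE (γ * a) = EE (γ * a') := by
    refine EE_congr fun σ => ?_
    have := mul_pos (sq_pos_of_ne_zero ((map_ne_zero σ).2 hγ0)) (hs σ)
    simp only [map_mul] at this ⊢
    linarith
  have hcc : (c' : ℂ) ≠ 0 := by exact_mod_cast hc'.ne'
  have n := mul_ne_zero hcc (EE_ne (γ * a'))
  rw [← h'] at n
  refine ⟨left_ne_zero_of_mul n, c / c', div_pos hc hc', ?_⟩
  apply mul_right_cancel₀ (right_ne_zero_of_mul n)
  rw [mul_assoc, h', ← e1, h, e2]
  push_cast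
  field_simp

end QR

open QR

section B
variable {K : Type*} [Field K] [NumberField K] [IsTotallyReal K] [IsPrincipalIdealRing (𝓞 K)]

/-- quadratic reciprocity for a totally positive primary prime -/
theorem recip_primary (p q : 𝓞 K) (hp : Prime p) (hq : Prime q) (hp2 : ¬ p ∣ 2) (hq2 : ¬ q ∣ 2)
    (hpq : ¬ p ∣ q) (hpos : TotPos (p : K)) (h4 : ∃ t : 𝓞 K, 4 ∣ p - t ^ 2) :
    (∃ r : 𝓞 K, q ∣ p - r ^ 2) ↔ (∃ r : 𝓞 K, p ∣ q - r ^ 2) := by
  obtain ⟨γ, hγ0, hγ⟩ := exists_isDiff (K := K)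
  obtain ⟨t, ht⟩ := h4
  have cp := hp.irreducible.coprime_iff_not_dvd.2 hp2
  have cq := hq.irreducible.coprime_iff_not_dvd.2 hq2
  have cpq := hp.irreducible.coprime_iff_not_dvd.2 hpq
  have hq0 : (q : K) ≠ 0 := by exact_mod_cast hq.ne_zero
  obtain ⟨-, c, hc, e1⟩ := cmp hγ0 hγ (a' := 1) cp (by simpa using hpos) ⟨t, by simpa using ht⟩
  obtain ⟨n, c', hc', e2⟩ := cmp hγ0 hγ (a' := q) (cp.mul_left cq) (by
    intro σ
    have := mul_pos (hpos σ) (sq_pos_of_ne_zero ((map_ne_zero σ).2 hq0))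
    simp only [map_mul] at this ⊢
    linarith) ⟨t, by
      have := ht.mul_left q
      convert this using 1; ring⟩
  have e3 := Gs_crt hγ 1 hp.ne_zero hq.ne_zero cpq
  have e4 := Gs_chi hγ (b := 1) hp hp2 hpq (fun h => hp.not_isUnit (isUnit_of_dvd_one h))
  have e5 := Gs_chi hγ (b := 1) hq hq2 (hq.irreducible.coprime_iff_not_dvd.1 cpq.symm)
    (fun h => hq.not_isUnit (isUnit_of_dvd_one h))
  have e6 := Gs_int hγ 1
  simp only [map_one, map_mul, mul_one, one_mul, div_one] at e1 e2 e3 e4 e5 e6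
  rw [e3, e4, e5, e1, e6, ← mul_assoc] at e2
  have e7 : chi p q * (c * 1) * chi q p = c' := by exact_mod_cast mul_right_cancel₀ n e2
  refine chi_mul_pos (pos_of_mul_pos_left (b := c) ?_ hc.le)
  linarith

open Classical in
/-- the symbol of a unit only depends on signs and class mod 4 -/
theorem unit_symbol (u w : (𝓞 K)ˣ) (p : 𝓞 K) (hp : Prime p) (hp2 : ¬ p ∣ 2)
    {ι : Type*} (I : Finset ι) (l : ι → 𝓞 K) (hl : ∀ i ∈ I, Prime (l i) ∧ ¬ l i ∣ 2)
    (hc : ∀ i ∈ I, ∀ j ∈ I, i ≠ j → ¬ l i ∣ l j)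
    (hsign : TotPos ((p * (w * ∏ i ∈ I, l i) : 𝓞 K) : K))
    (h4 : ∃ t : 𝓞 K, 4 ∣ p - w * (∏ i ∈ I, l i) * t ^ 2) :
    (∃ r : 𝓞 K, p ∣ u - r ^ 2) ↔
      Even (I.filter (fun i => ¬ ∃ r : 𝓞 K, l i ∣ u - r ^ 2)).card := by
  obtain ⟨γ, hγ0, hγ⟩ := exists_isDiff (K := K)
  obtain ⟨t, ht⟩ := h4
  have cp := hp.irreducible.coprime_iff_not_dvd.2 hp2
  have hu0 : ((u : 𝓞 K) : K) ≠ 0 := by exact_mod_cast u.ne_zero
  have hL0 : ∏ i ∈ I, l i ≠ 0 := Finset.prod_ne_zero_iff.2 fun i hi => (hl i hi).1.ne_zero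
  obtain ⟨n, c, hc0, e1⟩ := cmp hγ0 hγ cp hsign ⟨t, ht⟩
  obtain ⟨-, c', hc', e2⟩ := cmp hγ0 hγ (a := u * p) (a' := (u * w : (𝓞 K)ˣ) * ∏ i ∈ I, l i)
    (IsCoprime.mul_left ⟨(u⁻¹ : (𝓞 K)ˣ), 0, by simp⟩ cp) (by
    intro σ
    have := mul_pos (hsign σ) (sq_pos_of_ne_zero ((map_ne_zero σ).2 hu0))
    simp only [map_mul, Units.val_mul] at this ⊢
    linarith) ⟨t, by
      have := ht.mul_left u
      convert this using 1; push_cast; ring⟩
  rw [Gs_unit hγ _ hL0] at n e1 e2
  rw [Gs_unit hγ _ hp.ne_zero] at e2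
  have e3 := Gs_chi hγ (u := u) (b := 1) hp hp2
    (fun h => hp.not_isUnit (isUnit_of_dvd_unit h u.isUnit))
    (fun h => hp.not_isUnit (isUnit_of_dvd_one h))
  have e4 := Gs_prod hγ u I l hl hc w
    (fun i hi h => (hl i hi).1.not_isUnit (isUnit_of_dvd_unit h w.isUnit))
  simp only [map_one, map_mul, mul_one, Units.val_mul] at e2 e3 e4
  rw [e3, e4, e1, ← mul_assoc, ← mul_assoc] at e2
  have e7 : chi p u * c = c' * ∏ i ∈ I, chi (l i) u := by
    exact_mod_cast mul_right_cancel₀ n e2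
  have e8 : ∏ i ∈ I, chi (l i) u =
      (-1) ^ (I.filter (fun i => ¬ ∃ r : 𝓞 K, l i ∣ u - r ^ 2)).card := by
    simp only [chi]
    rw [Finset.prod_ite]
    simp
  rw [e8, chi] at e7
  rcases Nat.even_or_odd (I.filter (fun i => ¬ ∃ r : 𝓞 K, l i ∣ u - r ^ 2)).card with h | h
  · rw [h.neg_one_pow] at e7
    split_ifs at e7 with h1
    · simp only [h1, h]
    · linarith
  · rw [h.neg_one_pow] at e7
    split_ifs at e7 with h1
    · linarith
    · simp only [h1, false_iff, Nat.not_even_iff_odd]; exact h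
end B

end Pool.Agent.Lib.MP_aed2da_nt
end
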