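import Pool.Agent.Lib.MP_aed2da_nt.QCheb

-- part Pool.Agent.Lib.MP_aed2da_nt.Mink
section

/-! Minkowski's theorem for subgroups of finite index. -/

open NumberField Quaternion

namespace Pool.Agent.Lib.MP_aed2da_nt

open MeasureTheory Module

/-- Minkowski for a subgroup of finite index of the integer lattice -/
theorem mink_subgroup {ι : Type*} [Fintype ι] [DecidableEq ι] [Nonempty ι] (T : Matrix ι ι ℝ)
    (hT : T.det ≠ 0) (H : AddSubgroup (ι → ℤ)) (hH : H.index ≠ 0) (r : ℝ)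
    (hr : 2 ^ Fintype.card ι * (H.index : ℝ) * |T.det| <
      (MeasureTheory.volume (Metric.ball (0 : EuclideanSpace ℝ ι) r)).toReal) :
    ∃ x ∈ H, x ≠ 0 ∧ ∑ i, (T.mulVec (fun j => (x j : ℝ)) i) ^ 2 < r ^ 2 := by
  have : H.FiniteIndex := ⟨hH⟩
  have hrk : finrank ℤ H = Fintype.card ι := by
    rw [AddSubgroup.finrank_eq_of_finiteIndex, finrank_fintype_fun_eq_card]
  have : Module.Finite ℤ H := inferInstanceAs (Module.Finite ℤ H.toIntSubmodule)
  have : Module.Free ℤ H := inferInstanceAs (Module.Free ℤ H.toIntSubmodule)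
  let bN : Basis ι ℤ H := (finBasisOfFinrankEq ℤ H hrk).reindex (Fintype.equivFin ι).symm
  have hi := AddSubgroup.index_eq_natAbs_det (Pi.basisFun ℤ ι) H bN
  rw [Pi.basisFun_det_apply] at hi
  let B : Matrix ι ι ℤ := Matrix.of fun j => (bN j : ι → ℤ)
  let A : Matrix ι ι ℝ := B.map (Int.castRingHom ℝ) * T.transpose
  have hA : |A.det| = H.index * |T.det| := by
    rw [Matrix.det_mul, Matrix.det_transpose, abs_mul, hi, ← RingHom.mapMatrix_apply,
      ← RingHom.map_det, Nat.cast_natAbs, Int.cast_abs]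
    rfl
  have hA0 : A.det ≠ 0 := by
    rw [← abs_ne_zero, hA]
    exact mul_ne_zero (Nat.cast_ne_zero.2 hH) (abs_ne_zero.2 hT)
  let b := basisOfLinearIndependentOfCardEqFinrank
    (Matrix.linearIndependent_rows_of_det_ne_zero hA0) (finrank_fintype_fun_eq_card ℝ).symm
  have hb : ⇑b = fun i => A i := coe_basisOfLinearIndependentOfCardEqFinrank _ _
  let s : Set (ι → ℝ) := WithLp.toLp 2 ⁻¹' Metric.ball (0 : EuclideanSpace ℝ ι) r
  have hs : volume s = volume (Metric.ball (0 : EuclideanSpace ℝ ι) r) :=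
    (PiLp.volume_preserving_toLp ι).measure_preimage measurableSet_ball.nullMeasurableSet
  have : Countable (Submodule.span ℤ (Set.range b)).toAddSubgroup :=
    inferInstanceAs (Countable (Submodule.span ℤ (Set.range b)))
  obtain ⟨⟨y, hy⟩, h0, hm⟩ := exists_ne_zero_mem_lattice_of_measure_mul_two_pow_lt_measure
    (ZSpan.isAddFundamentalDomain' b volume) (s := s) (fun x hx => by simpa [s] using hx)
    ((convex_ball _ _).linear_preimage (WithLp.linearEquiv 2 ℝ (ι → ℝ)).symm.toLinearMap) (by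
      have e2 : ENNReal.ofReal |A.det| * 2 ^ Fintype.card ι =
          ENNReal.ofReal (|A.det| * 2 ^ Fintype.card ι) := by
        rw [ENNReal.ofReal_mul (abs_nonneg _), ENNReal.ofReal_pow (by norm_num),
          ENNReal.ofReal_ofNat]
      rw [ZSpan.volume_fundamentalDomain, hs, finrank_fintype_fun_eq_card, hb,
        ← ENNReal.ofReal_toReal measure_ball_lt_top.ne]
      refine e2.trans_lt ?_
      rw [ENNReal.ofReal_lt_ofReal_iff (lt_of_le_of_lt (by positivity) hr), hA]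
      linarith)
  obtain ⟨c, rfl⟩ := (Submodule.mem_span_range_iff_exists_fun ℤ).1 hy
  have key : ∑ i, c i • b i =
      T.mulVec fun j => (((∑ i, c i • bN i : H) : ι → ℤ) j : ℝ) := by
    funext k
    have e3 : ∀ i, b i k = ∑ j, ((bN i : ι → ℤ) j : ℝ) * T k j := fun i => by rw [hb]; rfl
    simp only [Matrix.mulVec, dotProduct, Finset.sum_apply, Pi.smul_apply, e3,
      AddSubgroup.val_finsetSum, AddSubgroup.coe_zsmul]
    simp only [zsmul_eq_mul, Int.cast_sum, Finset.mul_sum, Int.cast_mul, Int.cast_id]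
    rw [Finset.sum_comm]
    exact Finset.sum_congr rfl fun _ _ => Finset.sum_congr rfl fun _ _ => by ring
  refine ⟨_, (∑ i, c i • bN i : H).2, fun h => h0 (Subtype.ext ?_), ?_⟩
  · change ∑ i, c i • b i = 0
    rw [key, h]
    simp [← Pi.zero_def]
  · have h1 : ‖(WithLp.toLp 2 (∑ i, c i • b i) : EuclideanSpace ℝ ι)‖ < r :=
      mem_ball_zero_iff.1 hm
    rw [← key]
    have h2 := EuclideanSpace.real_norm_sq_eq (WithLp.toLp 2 (∑ i, c i • b i) : EuclideanSpace ℝ ι)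
    rw [← h2]
    exact pow_lt_pow_left₀ h1 (norm_nonneg _) two_ne_zero

theorem mink_amgm (a : Fin 4 → ℝ) (h : ∀ i, 0 ≤ a i) {s : ℝ} (hs : ∑ i, a i < s) :
    ∏ i, a i ≤ s ^ 4 / 256 := by
  rw [Fin.sum_univ_four] at hs
  rw [Fin.prod_univ_four]
  have h0 := h 0
  have h1 := h 1
  have h2 := h 2
  have h3 := h 3
  have e1 : a 0 * a 1 ≤ ((a 0 + a 1) / 2) ^ 2 := by nlinarith [sq_nonneg (a 0 - a 1)]
  have e2 : a 2 * a 3 ≤ ((a 2 + a 3) / 2) ^ 2 := by nlinarith [sq_nonneg (a 2 - a 3)]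
  have e3 : (a 0 + a 1) / 2 * ((a 2 + a 3) / 2) ≤ (s / 4) ^ 2 := by
    have : ((a 0 + a 1 + a 2 + a 3) / 4) ^ 2 ≤ (s / 4) ^ 2 := by gcongr
    nlinarith [sq_nonneg (a 0 + a 1 - a 2 - a 3)]
  calc a 0 * a 1 * a 2 * a 3 = (a 0 * a 1) * (a 2 * a 3) := by ring
    _ ≤ ((a 0 + a 1) / 2) ^ 2 * ((a 2 + a 3) / 2) ^ 2 := by gcongr
    _ = ((a 0 + a 1) / 2 * ((a 2 + a 3) / 2)) ^ 2 := by ring
    _ ≤ ((s / 4) ^ 2) ^ 2 := by gcongr
    _ = s ^ 4 / 256 := by ring

theorem mink_vol {ι : Type*} [Fintype ι] [Nonempty ι] {k : ℕ} (hk : Fintype.card ι = 2 * k) {r : ℝ}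
    (hr : 0 ≤ r) : (volume (Metric.ball (0 : EuclideanSpace ℝ ι) r)).toReal =
      r ^ (2 * k) * (Real.pi ^ k / k.factorial) := by
  have h : finrank ℝ (EuclideanSpace ℝ ι) = 2 * k := by rw [finrank_euclideanSpace, hk]
  rw [InnerProductSpace.volume_ball_of_dim_even h, h, ENNReal.toReal_mul, ENNReal.toReal_pow,
    ENNReal.toReal_ofReal hr, ENNReal.toReal_ofReal (by positivity)]

variable {O : Type*} [CommRing O]

theorem mink_mulVec (b : Module.Basis (Fin 4) ℤ O) (σ : Fin 4 → O →+* ℝ) (x : Fin 4 → ℤ)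
    (i : Fin 4) : ∑ j, σ i (b j) * (x j : ℝ) = σ i (b.equivFun.symm x) := by
  simp [mul_comm]

/-- rank 4; 2/pi^2 < 2027/10000 -/
theorem mink_four (b : Module.Basis (Fin 4) ℤ O) (σ : Fin 4 → O →+* ℝ) (D : ℕ) (hD0 : 0 < D)
    (hD : (Matrix.of fun i j => σ i (b j)).det ^ 2 = D) (I : AddSubgroup O) (hI : I.index ≠ 0) :
    ∃ x ∈ I, x ≠ 0 ∧ (∏ i, σ i x) ^ 2 ≤ (2027 / 10000) ^ 2 * D * (I.index : ℝ) ^ 2 := by
  have hT : (Matrix.of fun i j => σ i (b j)).det ≠ 0 := fun h => by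
    rw [h] at hD
    exact hD0.ne (by exact_mod_cast (zero_pow two_ne_zero).symm.trans hD)
  have hT' := abs_pos.2 hT
  have hI' : (0 : ℝ) < I.index := by positivity
  let e : (Fin 4 → ℤ) ≃+ O := b.equivFun.symm.toAddEquiv
  have hi : (I.comap e.toAddMonoidHom).index = I.index :=
    I.index_comap_of_surjective e.surjective
  obtain ⟨r, hr0, hr⟩ : ∃ r : ℝ, 0 ≤ r ∧ r ^ 4 = 16 * (2027 / 10000) * I.index *
      |(Matrix.of fun i j => σ i (b j)).det| :=
    ⟨_, Real.rpow_nonneg (by positivity) _, Real.rpow_inv_natCast_pow (by positivity) four_ne_zero⟩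
  obtain ⟨x, hx, hx0, h⟩ := mink_subgroup _ hT (I.comap e.toAddMonoidHom) (hi ▸ hI) r (by
    rw [mink_vol (k := 2) (by simp) hr0, hi, hr]
    have h1 : 3.141592 ^ 2 < Real.pi ^ 2 := by gcongr; exact Real.pi_gt_d6
    have h2 := mul_pos hI' hT'
    simp only [Fintype.card_fin, Nat.factorial]
    push_cast
    nlinarith)
  refine ⟨e x, hx, fun h => hx0 (e.map_eq_zero_iff.1 h), ?_⟩
  simp only [Matrix.mulVec, dotProduct, Matrix.of_apply, mink_mulVec] at h
  rw [← Finset.prod_pow]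
  refine (mink_amgm _ (fun i => sq_nonneg _) h).trans (le_of_eq ?_)
  rw [← hD, ← sq_abs (Matrix.det _), ← pow_mul, show 2 * 4 = 4 * 2 from rfl, pow_mul, hr]
  ring

/-- rank 16; 8!/pi^8 < 17/4 -/
theorem mink_sixteen (b : Module.Basis (Fin 4) ℤ O) (σ : Fin 4 → O →+* ℝ) (D : ℕ) (hD0 : 0 < D)
    (hD : (Matrix.of fun i j => σ i (b j)).det ^ 2 = D) (I : AddSubgroup ℍ[O]) (hI : I.index ≠ 0) :
    ∃ y ∈ I, y ≠ 0 ∧ (∏ i, σ i (normSq y)) ^ 2 ≤ 17 / 4 * (D : ℝ) ^ 2 * I.index := by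
  have hD' : (0 : ℝ) < D := by positivity
  have hI' : (0 : ℝ) < I.index := by positivity
  let T : Matrix (Fin 4 × Fin 4) (Fin 4 × Fin 4) ℝ :=
    Matrix.kronecker (1 : Matrix (Fin 4) (Fin 4) ℝ) (Matrix.of fun i j => σ i (b j))
  have hT : T.det = (D : ℝ) ^ 2 := by
    refine (Matrix.det_kronecker _ _).trans ?_
    rw [← hD, Matrix.det_one, Fintype.card_fin]
    ring
  let e : (Fin 4 × Fin 4 → ℤ) ≃+ ℍ[O] :=
    ((LinearEquiv.curry ℤ ℤ (Fin 4) (Fin 4)).toAddEquiv.trans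
      (AddEquiv.piCongrRight fun _ => b.equivFun.symm.toAddEquiv)).trans
      (QuaternionAlgebra.addEquivTuple _ _ _).symm
  have hi : (I.comap e.toAddMonoidHom).index = I.index :=
    I.index_comap_of_surjective e.surjective
  obtain ⟨r, hr0, hr⟩ : ∃ r : ℝ, 0 ≤ r ∧ r ^ 16 = 65536 * (17 / 4) * I.index * (D : ℝ) ^ 2 :=
    ⟨_, Real.rpow_nonneg (by positivity) _, Real.rpow_inv_natCast_pow (by positivity) (by norm_num)⟩
  obtain ⟨x, hx, hx0, h⟩ := mink_subgroup T (by rw [hT]; positivity) (I.comap e.toAddMonoidHom)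
    (hi ▸ hI) r (by
    rw [mink_vol (k := 8) (by simp) hr0, hi, hr, hT, abs_of_pos (by positivity)]
    have h1 : 3.141592 ^ 8 < Real.pi ^ 8 := by gcongr; exact Real.pi_gt_d6
    have h2 := mul_pos hI' (pow_pos hD' 2)
    simp only [Fintype.card_prod, Fintype.card_fin, Nat.factorial]
    push_cast
    nlinarith)
  refine ⟨e x, hx, fun h => hx0 (e.map_eq_zero_iff.1 h), ?_⟩
  have h1 : ∀ k i, T.mulVec (fun j => (x j : ℝ)) (k, i) =
      σ i (b.equivFun.symm fun j => x (k, j)) := by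
    intro k i
    rw [← mink_mulVec]
    simp [T, Matrix.mulVec, dotProduct, Fintype.sum_prod_type, Matrix.one_apply]
  have h2 : ∀ i, σ i (normSq (e x)) = ∑ k, σ i (b.equivFun.symm fun j => x (k, j)) ^ 2 := by
    intro i
    rw [normSq_def', Fin.sum_univ_four]
    simp only [map_add, map_pow]
    rfl
  rw [Fintype.sum_prod_type, Finset.sum_comm] at h
  simp only [h1, ← h2] at h
  have h3 : ∀ i, 0 ≤ σ i (normSq (e x)) := fun i => by
    rw [h2]
    positivity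
  have h4 := mink_amgm _ h3 h
  refine (pow_le_pow_left₀ (Finset.prod_nonneg fun i _ => h3 i) h4 2).trans (le_of_eq ?_)
  rw [div_pow, ← pow_mul, ← pow_mul, hr]
  ring

end Pool.Agent.Lib.MP_aed2da_nt
end

-- part Pool.Agent.Lib.MP_aed2da_nt.QuatPID
section

open NumberField Quaternion

namespace Pool.Agent.Lib.MP_aed2da_nt
namespace QPID

section Map
variable {R S : Type*} [CommRing R] [CommRing S]

/-- coordinatewise image of a quaternion -/
def qmap (f : R →+* S) : ℍ[R] →+* ℍ[S] where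
  toFun q := ⟨f q.re, f q.imI, f q.imJ, f q.imK⟩
  map_one' := by ext <;> simp
  map_mul' a b := by ext <;> simp
  map_zero' := by ext <;> simp
  map_add' a b := by ext <;> simp

variable (f : R →+* S)

@[simp] lemma qmap_re (q : ℍ[R]) : (qmap f q).re = f q.re := rfl
@[simp] lemma qmap_imI (q : ℍ[R]) : (qmap f q).imI = f q.imI := rfl
@[simp] lemma qmap_imJ (q : ℍ[R]) : (qmap f q).imJ = f q.imJ := rfl
@[simp] lemma qmap_imK (q : ℍ[R]) : (qmap f q).imK = f q.imK := rfl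

lemma qmap_smul (r : R) (q : ℍ[R]) : qmap f (r • q) = f r • qmap f q := by
  ext <;> simp

lemma qmap_star (q : ℍ[R]) : qmap f (star q) = star (qmap f q) := by
  ext <;> simp

lemma qmap_coe (r : R) : qmap f (r : ℍ[R]) = (f r : ℍ[S]) := by
  ext <;> simp

lemma normSq_qmap (q : ℍ[R]) : normSq (qmap f q) = f (normSq q) := by
  simp [normSq_def']

lemma qmap_inj (hf : Function.Injective f) : Function.Injective (qmap f) := by
  intro a b h
  ext
  · exact hf (congrArg QuaternionAlgebra.re h)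
  · exact hf (congrArg QuaternionAlgebra.imI h)
  · exact hf (congrArg QuaternionAlgebra.imJ h)
  · exact hf (congrArg QuaternionAlgebra.imK h)

lemma qmap_surj (hf : Function.Surjective f) : Function.Surjective (qmap f) := by
  intro w
  obtain ⟨a, ha⟩ := hf w.re
  obtain ⟨b, hb⟩ := hf w.imI
  obtain ⟨c, hc⟩ := hf w.imJ
  obtain ⟨d, hd⟩ := hf w.imK
  refine ⟨⟨a, b, c, d⟩, ?_⟩
  ext <;> simp [*]

lemma qmap_eq_zero {p : R} (hf : ∀ a, f a = 0 ↔ p ∣ a) (x : ℍ[R]) :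
    qmap f x = 0 ↔ ∃ w : ℍ[R], x = p • w := by
  constructor
  · intro h
    obtain ⟨a, ha⟩ := (hf _).1 (show f x.re = 0 from congrArg QuaternionAlgebra.re h)
    obtain ⟨b, hb⟩ := (hf _).1 (show f x.imI = 0 from congrArg QuaternionAlgebra.imI h)
    obtain ⟨c, hc⟩ := (hf _).1 (show f x.imJ = 0 from congrArg QuaternionAlgebra.imJ h)
    obtain ⟨d, hd⟩ := (hf _).1 (show f x.imK = 0 from congrArg QuaternionAlgebra.imK h)
    refine ⟨⟨a, b, c, d⟩, ?_⟩
    ext <;> simp [*]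
  · rintro ⟨w, rfl⟩
    rw [qmap_smul, (hf p).2 dvd_rfl, zero_smul]

end Map

section Fld
variable {F : Type*} [Field F]

lemma cancel_left {w y : ℍ[F]} (hw : normSq w ≠ 0) (h : w * y = 0) : y = 0 := by
  have h1 : normSq w • y = 0 := by
    rw [← coe_mul_eq_smul, ← star_mul_self, mul_assoc, h, mul_zero]
  exact (smul_eq_zero.1 h1).resolve_left hw

lemma indep_right (h2 : (2 : F) ≠ 0) {x : ℍ[F]} (hx : x ≠ 0) :
    ∃ e : ℍ[F], ∀ a b : F, a • x + b • (x * e) = 0 → a = 0 ∧ b = 0 := by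
  by_contra hcon
  push Not at hcon
  have key : ∀ e : ℍ[F], ∃ l : F, x * e = l • x := by
    intro e
    obtain ⟨a, b, hab, hne⟩ := hcon e
    have hb : b ≠ 0 := by
      rintro rfl
      have : a • x = 0 := by simpa using hab
      exact hne ((smul_eq_zero.1 this).resolve_right hx) rfl
    refine ⟨-(b⁻¹ * a), ?_⟩
    have h3 : b • (x * e) = -(a • x) := eq_neg_of_add_eq_zero_right hab
    calc x * e = b⁻¹ • (b • (x * e)) := by rw [smul_smul, inv_mul_cancel₀ hb, one_smul]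
      _ = _ := by rw [h3, smul_neg, smul_smul, neg_smul]
  obtain ⟨l, hl⟩ := key ⟨0, 1, 0, 0⟩
  obtain ⟨m, hm⟩ := key ⟨0, 0, 1, 0⟩
  set i : ℍ[F] := ⟨0, 1, 0, 0⟩ with hi
  set j : ℍ[F] := ⟨0, 0, 1, 0⟩ with hj
  have hii : i * i = -1 := by ext <;> simp [hi]
  have hjj : j * j = -1 := by ext <;> simp [hj]
  have hij : i * j + j * i = 0 := by ext <;> simp [hi, hj]
  have e1 : (l * l + 1) • x = 0 := by
    have : x * (i * i) = (l * l) • x := by
      rw [← mul_assoc, hl, smul_mul_assoc, hl, smul_smul]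
    rw [add_smul, ← this, hii]; simp
  have e2 : (m * m + 1) • x = 0 := by
    have : x * (j * j) = (m * m) • x := by
      rw [← mul_assoc, hm, smul_mul_assoc, hm, smul_smul]
    rw [add_smul, ← this, hjj]; simp
  have e3 : (l * m + m * l) • x = 0 := by
    have a1 : x * (i * j) = (l * m) • x := by
      rw [← mul_assoc, hl, smul_mul_assoc, hm, smul_smul]
    have a2 : x * (j * i) = (m * l) • x := by
      rw [← mul_assoc, hm, smul_mul_assoc, hl, smul_smul]
    rw [add_smul, ← a1, ← a2, ← mul_add, hij, mul_zero]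
  have f1 := (smul_eq_zero.1 e1).resolve_right hx
  have f2 := (smul_eq_zero.1 e2).resolve_right hx
  have f3 := (smul_eq_zero.1 e3).resolve_right hx
  have f4 : l * m = 0 := by
    apply mul_left_cancel₀ h2
    linear_combination f3
  rcases mul_eq_zero.1 f4 with h | h
  · rw [h] at f1; simp at f1
  · rw [h] at f2; simp at f2

lemma indep_left (h2 : (2 : F) ≠ 0) {x : ℍ[F]} (hx : x ≠ 0) :
    ∃ e : ℍ[F], ∀ a b : F, a • x + b • (e * x) = 0 → a = 0 ∧ b = 0 := by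
  obtain ⟨e, he⟩ := indep_right h2 (x := star x) (by simpa using hx)
  refine ⟨star e, fun a b h => he a b ?_⟩
  have := congrArg star h
  rwa [star_add, Quaternion.star_smul, Quaternion.star_smul, star_mul, star_star, star_zero] at this

lemma exists_mul_mul_ne_zero (h2 : (2 : F) ≠ 0) {x q : ℍ[F]} (hx : x ≠ 0) (hq : q ≠ 0) :
    ∃ a : ℍ[F], x * a * q ≠ 0 := by
  by_contra hcon
  push Not at hcon
  set i : ℍ[F] := ⟨0, 1, 0, 0⟩ with hi
  set j : ℍ[F] := ⟨0, 0, 1, 0⟩ with hj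
  set k : ℍ[F] := ⟨0, 0, 0, 1⟩ with hk
  have key : ∀ u : ℍ[F], (q * u).re = 0 := by
    intro u
    have h1 : ∀ w : ℍ[F], ((4 * w.re : F) : ℍ[F]) = w - i * w * i - j * w * j - k * w * k := by
      intro w
      ext <;> simp [hi, hj, hk]
      ring
    have h3 : (4 * (q * u).re) • x = 0 := by
      rw [← mul_coe_eq_smul, h1]
      have e0 : x * (q * u) = 0 := by rw [← mul_assoc, ← mul_one x, hcon, zero_mul]
      have e1 : ∀ e : ℍ[F], x * (e * (q * u) * e) = 0 := by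
        intro e
        rw [show x * (e * (q * u) * e) = (x * e * q) * (u * e) by simp only [mul_assoc], hcon,
          zero_mul]
      rw [mul_sub, mul_sub, mul_sub, e0, e1, e1, e1]; simp
    have h4 : (4 : F) ≠ 0 := by
      rw [show (4 : F) = 2 * 2 by norm_num]; exact mul_ne_zero h2 h2
    exact (mul_eq_zero.1 ((smul_eq_zero.1 h3).resolve_right hx)).resolve_left h4
  apply hq
  have a0 := key 1
  have a1 := key i
  have a2 := key j
  have a3 := key k
  simp [hi, hj, hk] at a0 a1 a2 a3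
  ext <;> simp [*]

lemma im_pow (γ : ℍ[F]) (m : ℕ) : ∃ b : F, (γ ^ m).imI = b * γ.imI ∧ (γ ^ m).imJ = b * γ.imJ ∧
    (γ ^ m).imK = b * γ.imK := by
  induction m with
  | zero => exact ⟨0, by simp⟩
  | succ m ih =>
    obtain ⟨b, h1, h2, h3⟩ := ih
    refine ⟨(γ ^ m).re + b * γ.re, ?_, ?_, ?_⟩ <;>
    · rw [pow_succ]
      simp only [imI_mul, imJ_mul, imK_mul, h1, h2, h3]
      ring

lemma orbit [Finite F] (h2 : (2 : F) ≠ 0) {q γ x : ℍ[F]} (hq0 : q ≠ 0) (hq : normSq q = 0)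
    (hx : x ≠ 0) (hγ : ¬ ∃ r : F, γ.imI ^ 2 + γ.imJ ^ 2 + γ.imK ^ 2 + r ^ 2 = 0)
    (hord : ∀ m : ℕ, 0 < m → m ≤ Nat.card F →
      ¬ ((γ ^ m).imI = 0 ∧ (γ ^ m).imJ = 0 ∧ (γ ^ m).imK = 0)) :
    ∃ (n : ℕ) (a : ℍ[F]), γ ^ n * q = x * a ∧ γ ^ n * q ≠ 0 := by
  have hn : normSq γ ≠ 0 := by
    intro h
    exact hγ ⟨γ.re, by rw [normSq_def'] at h; linear_combination h⟩
  have hnn : ∀ n : ℕ, normSq (γ ^ n) ≠ 0 := fun n => by rw [map_pow]; exact pow_ne_zero _ hn
  have hne : ∀ n : ℕ, γ ^ n * q ≠ 0 := fun n h => hq0 (cancel_left (hnn n) h)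
  let f : ℍ[F] →ₗ[F] ℍ[F] := LinearMap.mulRight F (star q)
  have hrank : Module.finrank F (LinearMap.ker f) ≤ 2 := by
    obtain ⟨e, he⟩ := indep_left h2 (x := star q) (by simpa using hq0)
    have h1 := LinearMap.finrank_range_add_finrank_ker f
    rw [Quaternion.finrank_eq_four] at h1
    let v : Fin 2 → LinearMap.range f := ![⟨star q, 1, by simp [f]⟩, ⟨e * star q, e, by simp [f]⟩]
    have hv : LinearIndependent F v := by
      rw [LinearIndependent.pair_iff]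
      intro a b hab
      exact he a b (congrArg Subtype.val hab)
    have h3 := hv.fintype_card_le_finrank
    simp only [Fintype.card_fin] at h3
    omega
  have hmem : ∀ w : ℍ[F], w * q ∈ LinearMap.ker f := by
    intro w
    simp [f, mul_assoc, self_mul_star, hq]
  have : Finite (LinearMap.ker f) := Module.finite_of_finite F
  have hN : 0 < Nat.card F := Nat.card_pos
  have hcard : Nat.card (LinearMap.ker f) ≤ Nat.card F ^ 2 := by
    rw [Module.natCard_eq_pow_finrank (K := F)]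
    exact Nat.pow_le_pow_right hN hrank
  have hlt : ∀ (c d : F) (m n : ℕ), d ≠ 0 → m < n → n ≤ Nat.card F →
      c • (γ ^ m * q) ≠ d • (γ ^ n * q) := by
    intro c d m n hd hmn hnN h
    obtain ⟨k, rfl⟩ : ∃ k, n = m + k := ⟨n - m, by omega⟩
    have h1 : γ ^ m * ((d • γ ^ k - (c : ℍ[F])) * q) = 0 := by
      rw [sub_mul, mul_sub, coe_mul_eq_smul, mul_smul_comm, h, smul_mul_assoc, mul_smul_comm,
        pow_add, mul_assoc, sub_self]
    have h3 := cancel_left (hnn m) h1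
    obtain ⟨b, b1, b2, b3⟩ := im_pow γ k
    have hb : b ≠ 0 := by
      rintro rfl
      exact hord k (by omega) (by omega) ⟨by simpa using b1, by simpa using b2, by simpa using b3⟩
    refine hq0 (cancel_left ?_ h3)
    intro h4
    refine hγ ⟨(d * (γ ^ k).re - c) / (d * b), ?_⟩
    rw [normSq_def'] at h4
    simp only [re_sub, imI_sub, imJ_sub, imK_sub, re_smul, imI_smul, imJ_smul, imK_smul,
      re_coe, imI_coe, imJ_coe, imK_coe, smul_eq_mul, b1, b2, b3] at h4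
    field_simp
    linear_combination h4
  let φ : Option (Fˣ × Fin (Nat.card F + 1)) → LinearMap.ker f := fun o =>
    match o with
    | none => 0
    | some cn => (cn.1 : F) • ⟨γ ^ (cn.2 : ℕ) * q, hmem _⟩
  have hφ : Function.Injective φ := by
    rintro (_ | ⟨c, m⟩) (_ | ⟨d, n⟩) h
    · rfl
    · exfalso
      have h1 : (0 : ℍ[F]) = (d : F) • (γ ^ (n : ℕ) * q) := congrArg Subtype.val h
      exact hne _ ((smul_eq_zero.1 h1.symm).resolve_left d.ne_zero)
    · exfalso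
      have h1 : (c : F) • (γ ^ (m : ℕ) * q) = 0 := congrArg Subtype.val h
      exact hne _ ((smul_eq_zero.1 h1).resolve_left c.ne_zero)
    · have h1 : (c : F) • (γ ^ (m : ℕ) * q) = (d : F) • (γ ^ (n : ℕ) * q) := congrArg Subtype.val h
      have hmn : m = n := by
        rcases lt_trichotomy (m : ℕ) n with h3 | h3 | h3
        · exact absurd h1 (hlt _ _ _ _ d.ne_zero h3 (by omega))
        · exact Fin.ext h3
        · exact absurd h1.symm (hlt _ _ _ _ c.ne_zero h3 (by omega))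
      subst hmn
      have hcd : (c : F) = d := smul_left_injective F (hne _) h1
      rw [Units.ext hcd]
  have hbij : Function.Bijective φ := by
    refine hφ.bijective_of_nat_card_le (hcard.trans (le_of_eq ?_))
    rw [Finite.card_option, Nat.card_prod, Nat.card_units, Nat.card_eq_fintype_card (α := Fin _),
      Fintype.card_fin]
    obtain ⟨N, hN'⟩ : ∃ N, Nat.card F = N + 1 := ⟨Nat.card F - 1, by omega⟩
    rw [hN']
    simp only [Nat.add_sub_cancel]
    ring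
  obtain ⟨a, ha⟩ := exists_mul_mul_ne_zero h2 hx hq0
  obtain ⟨o, ho⟩ := hbij.2 ⟨x * a * q, hmem _⟩
  rcases o with _ | ⟨c, n⟩
  · exact absurd (congrArg Subtype.val ho).symm ha
  · have h1 : (c : F) • (γ ^ (n : ℕ) * q) = x * a * q := congrArg Subtype.val ho
    refine ⟨n, (c : F)⁻¹ • (a * q), ?_, hne _⟩
    rw [mul_smul_comm, ← mul_assoc, ← h1, smul_smul, inv_mul_cancel₀ c.ne_zero, one_smul]

end Fld

section Idx
variable {O : Type*} [CommRing O]

lemma norm_quat (y : ℍ[O]) : Algebra.norm O y = normSq y ^ 2 := by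
  rw [Algebra.norm_eq_matrix_det (QuaternionAlgebra.basisOneIJK (-1) 0 (-1)) y]
  have : Algebra.leftMulMatrix (QuaternionAlgebra.basisOneIJK (-1 : O) 0 (-1)) y =
      !![y.re, -y.imI, -y.imJ, -y.imK; y.imI, y.re, -y.imK, y.imJ;
        y.imJ, y.imK, y.re, -y.imI; y.imK, -y.imJ, y.imI, y.re] := by
    ext i j
    rw [Algebra.leftMulMatrix_eq_repr_mul]
    fin_cases i <;> fin_cases j <;> simp [QuaternionAlgebra.basisOneIJK]
  refine (congrArg Matrix.det this).trans ?_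
  rw [normSq_def']
  simp [Matrix.det_succ_row_zero, Fin.sum_univ_succ, Fin.succAbove]
  ring

lemma index_mul [IsDomain O] [IsPrincipalIdealRing O] [Module.Free ℤ O] [Module.Finite ℤ O]
    (y : ℍ[O]) (hy : normSq y ≠ 0) :
    (AddMonoidHom.mulLeft y).range.index = Ideal.absNorm (Ideal.span {normSq y}) ^ 2 := by
  have : Module.Free ℤ ℍ[O] := Module.Free.trans (S := O)
  have : Module.Finite ℤ ℍ[O] := Module.Finite.trans O ℍ[O]
  have hinj : Function.Injective (LinearMap.mulLeft ℤ y) := by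
    intro a b hab
    have h1 : normSq y • (a - b) = 0 := by
      have hab' : y * a = y * b := hab
      rw [← coe_mul_eq_smul, ← star_mul_self, mul_assoc, mul_sub, hab', sub_self, mul_zero]
    exact sub_eq_zero.1 ((smul_eq_zero.1 h1).resolve_left hy)
  have h := Submodule.natAbs_det_equiv (LinearMap.range (LinearMap.mulLeft ℤ y))
    (LinearEquiv.ofInjective _ hinj)
  have h1 : (LinearMap.range (LinearMap.mulLeft ℤ y)).subtype ∘ₗ AddMonoidHom.toIntLinearMap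
      ((LinearEquiv.ofInjective _ hinj : ℍ[O] ≃ₗ[ℤ] _) : ℍ[O] →+ _) = Algebra.lmul ℤ ℍ[O] y := by
    ext1 z; rfl
  rw [h1, ← Algebra.norm_apply, ← Algebra.norm_norm (S := O), norm_quat, map_pow,
    Int.natAbs_pow, ← Ideal.absNorm_span_singleton] at h
  rw [h]
  rfl

end Idx

section Main
variable {O : Type*} [CommRing O] (K : Type*) [Field K] [Algebra O K]

/-- the ring of quaternions that become integral after multiplication by a power of `s` -/
def AR (s : O) : Subring ℍ[K] where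
  carrier := {z | ∃ (n : ℕ) (h : ℍ[O]), algebraMap O K s ^ n • z = qmap (algebraMap O K) h}
  mul_mem' := by
    rintro a b ⟨m, g, hg⟩ ⟨n, h, hh⟩
    exact ⟨m + n, g * h, by rw [map_mul, ← hg, ← hh, smul_mul_smul_comm, pow_add]⟩
  one_mem' := ⟨0, 1, by simp⟩
  add_mem' := by
    rintro a b ⟨m, g, hg⟩ ⟨n, h, hh⟩
    refine ⟨m + n, s ^ n • g + s ^ m • h, ?_⟩
    rw [map_add, qmap_smul, qmap_smul, ← hg, ← hh, smul_add, smul_smul, smul_smul, map_pow,
      map_pow, ← pow_add, ← pow_add, add_comm n m]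
  zero_mem' := ⟨0, 0, by simp⟩
  neg_mem' := by
    rintro a ⟨m, g, hg⟩
    exact ⟨m, -g, by rw [map_neg, ← hg, smul_neg]⟩

variable {K} {s : O}

lemma mem_AR {z : ℍ[K]} : z ∈ AR K s ↔
    ∃ (n : ℕ) (h : ℍ[O]), algebraMap O K s ^ n • z = qmap (algebraMap O K) h := Iff.rfl

lemma qmap_mem (h : ℍ[O]) : qmap (algebraMap O K) h ∈ AR K s := ⟨0, h, by simp⟩

lemma smul_mem (c : O) {z : ℍ[K]} (hz : z ∈ AR K s) : algebraMap O K c • z ∈ AR K s := by
  rw [← coe_mul_eq_smul, ← qmap_coe]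
  exact mul_mem (qmap_mem _) hz

lemma of_smul_mem {c : O} {k : ℕ} (hc : c ∣ s ^ k) {z : ℍ[K]}
    (hz : algebraMap O K c • z ∈ AR K s) : z ∈ AR K s := by
  obtain ⟨d, hd⟩ := hc
  obtain ⟨n, h, hh⟩ := smul_mem d hz
  refine ⟨n + k, h, ?_⟩
  rw [← hh, smul_smul, smul_smul, pow_add, ← map_pow _ s k, hd, map_mul]
  congr 1
  ring

lemma dvd_of_mem [IsFractionRing O K] {p : O} (hp : Prime p) (hps : ¬ p ∣ s) {z : ℍ[K]}
    {h : ℍ[O]} (hz : algebraMap O K p • z = qmap (algebraMap O K) h) (hA : z ∈ AR K s) :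
    ∃ w : ℍ[O], h = p • w := by
  obtain ⟨n, h', hh⟩ := hA
  have h1 : s ^ n • h = p • h' := by
    apply qmap_inj (algebraMap O K) (IsFractionRing.injective O K)
    rw [qmap_smul, qmap_smul, ← hz, ← hh, map_pow, smul_comm]
  have h2 : ∀ a b : O, s ^ n * a = p * b → p ∣ a := fun a b hab =>
    (hp.dvd_or_dvd (hab ▸ dvd_mul_right p b : p ∣ s ^ n * a)).resolve_left
      (fun h3 => hps (hp.dvd_of_dvd_pow h3))
  obtain ⟨a, ha⟩ := h2 h.re h'.re (congrArg QuaternionAlgebra.re h1)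
  obtain ⟨b, hb⟩ := h2 h.imI h'.imI (congrArg QuaternionAlgebra.imI h1)
  obtain ⟨c, hc⟩ := h2 h.imJ h'.imJ (congrArg QuaternionAlgebra.imJ h1)
  obtain ⟨d, hd⟩ := h2 h.imK h'.imK (congrArg QuaternionAlgebra.imK h1)
  refine ⟨⟨a, b, c, d⟩, ?_⟩
  ext <;> simp [*]

/-- left translate of an additive subgroup -/
def L (g : ℍ[K]) (J : AddSubgroup ℍ[K]) : AddSubgroup ℍ[K] := J.map (AddMonoidHom.mulLeft g)

lemma mem_L {g z : ℍ[K]} {J : AddSubgroup ℍ[K]} : z ∈ L g J ↔ ∃ a ∈ J, g * a = z := Iff.rfl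

lemma L_L (g h : ℍ[K]) (J : AddSubgroup ℍ[K]) : L g (L h J) = L (g * h) J := by
  ext z
  simp only [mem_L]
  constructor
  · rintro ⟨_, ⟨a, ha, rfl⟩, rfl⟩
    exact ⟨a, ha, mul_assoc _ _ _⟩
  · rintro ⟨a, ha, rfl⟩
    exact ⟨_, ⟨a, ha, rfl⟩, (mul_assoc _ _ _).symm⟩

lemma L_one (J : AddSubgroup ℍ[K]) : L 1 J = J := by
  ext z
  simp [mem_L]

lemma L_mono (g : ℍ[K]) {I J : AddSubgroup ℍ[K]} (h : I ≤ J) : L g I ≤ L g J :=
  AddSubgroup.map_mono h

lemma relIndex_L (g : ℍ[K]ˣ) (I J : AddSubgroup ℍ[K]) :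
    (L g I).relIndex (L g J) = I.relIndex J :=
  AddSubgroup.relIndex_map_map_of_injective I J (fun _ _ h => g.mul_right_inj.1 h)

/-- a quaternion of nonzero norm is a unit -/
noncomputable def mkUnit (w : ℍ[K]) (hw : normSq w ≠ 0) : ℍ[K]ˣ where
  val := w
  inv := (normSq w)⁻¹ • star w
  val_inv := by rw [mul_smul_comm, self_mul_star, smul_coe, inv_mul_cancel₀ hw]; rfl
  inv_val := by rw [smul_mul_assoc, star_mul_self, smul_coe, inv_mul_cancel₀ hw]; rfl

variable [IsDomain O] [IsPrincipalIdealRing O] [Module.Free ℤ O] [Module.Finite ℤ O]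
  [IsFractionRing O K]

lemma relIndex_dvd (y : ℍ[O]) (hy : normSq y ≠ 0) :
    (L (qmap (algebraMap O K) y) (AR K s).toAddSubgroup).relIndex (AR K s).toAddSubgroup ∣
      Ideal.absNorm (Ideal.span {normSq y}) ^ 2 := by
  set Y := L (qmap (algebraMap O K) y) (AR K s).toAddSubgroup with hY
  set ν := normSq y with hν
  have hfin : Finite (O ⧸ Ideal.span {ν}) := by
    rw [← Ideal.absNorm_ne_zero_iff, Ne, Ideal.absNorm_eq_zero_iff, Ideal.span_singleton_eq_bot]
    exact hy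
  obtain ⟨e, d, hd, hed⟩ : ∃ e d : ℕ, 0 < d ∧ ν ∣ s ^ e * (s ^ d - 1) := by
    obtain ⟨a, b, hab, h⟩ := Finite.exists_ne_map_eq_of_infinite
      (fun n : ℕ => Ideal.Quotient.mk (Ideal.span {ν}) (s ^ n))
    wlog hlt : a < b generalizing a b
    · exact this b a hab.symm h.symm (by omega)
    refine ⟨a, b - a, by omega, ?_⟩
    rw [mul_sub, ← pow_add, mul_one, show a + (b - a) = b by omega, ← Ideal.mem_span_singleton,
      ← Ideal.Quotient.eq]
    exact h.symm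
  have hsup : (AR K s).toAddSubgroup = (qmap (algebraMap O K)).toAddMonoidHom.range ⊔ Y := by
    apply le_antisymm
    · intro a ha
      obtain ⟨k, h, hh⟩ := ha
      obtain ⟨c, hc⟩ : ν ∣ s ^ e * (s ^ (d * k) - 1) :=
        hed.trans (mul_dvd_mul_left _ (by
          rw [pow_mul]; simpa using sub_dvd_pow_sub_pow (s ^ d) 1 k))
      have hs1 : algebraMap O K s ^ (d * k) • a ∈ (qmap (algebraMap O K)).toAddMonoidHom.range := by
        refine ⟨s ^ (d * k - k) • h, ?_⟩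
        have : k ≤ d * k := Nat.le_mul_of_pos_left k hd
        change qmap (algebraMap O K) _ = _
        rw [qmap_smul, ← hh, smul_smul, map_pow, ← pow_add, show d * k - k + k = d * k by omega]
      have hs2 : algebraMap O K (s ^ (d * k) - 1) • a ∈ Y := by
        have hν' : algebraMap O K ν ≠ 0 := fun h0 =>
          hy (IsFractionRing.injective O K (h0.trans (map_zero _).symm))
        refine ⟨(algebraMap O K ν)⁻¹ • algebraMap O K (s ^ (d * k) - 1) •
          (qmap (algebraMap O K) (star y) * a), ?_, ?_⟩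
        · refine of_smul_mem (c := s ^ e) (k := e) dvd_rfl ?_
          have h5 : algebraMap O K (s ^ e) * ((algebraMap O K ν)⁻¹ *
              algebraMap O K (s ^ (d * k) - 1)) = algebraMap O K c := by
            rw [mul_left_comm, ← map_mul, hc, map_mul, ← mul_assoc, inv_mul_cancel₀ hν', one_mul]
          rw [smul_smul ((algebraMap O K ν)⁻¹), smul_smul, h5]
          exact smul_mem c (mul_mem (qmap_mem _) ⟨k, h, hh⟩)
        · change qmap (algebraMap O K) y * _ = _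
          rw [mul_smul_comm, mul_smul_comm, ← mul_assoc, ← map_mul, self_mul_star, qmap_coe,
            coe_mul_eq_smul, smul_comm _ (algebraMap O K (normSq y)), smul_smul,
            inv_mul_cancel₀ hν', one_smul]
      have : a = algebraMap O K s ^ (d * k) • a - algebraMap O K (s ^ (d * k) - 1) • a := by
        rw [map_sub, map_pow, map_one, sub_smul, one_smul, sub_sub_cancel]
      rw [this]
      exact sub_mem (AddSubgroup.mem_sup_left hs1) (AddSubgroup.mem_sup_right hs2)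
    · refine sup_le ?_ ?_
      · rintro _ ⟨h, rfl⟩
        exact qmap_mem h
      · rintro _ ⟨a, ha, rfl⟩
        exact (AR K s).mul_mem (qmap_mem y) ha
  conv_lhs => rw [hsup]
  rw [AddSubgroup.relIndex_sup_right, ← AddSubgroup.index_comap, hν, ← index_mul y hy]
  apply AddSubgroup.index_dvd_of_le
  rintro _ ⟨w, rfl⟩
  exact ⟨qmap (algebraMap O K) w, qmap_mem w, (map_mul (qmap (algebraMap O K)) y w).symm⟩

omit [IsDomain O] [IsPrincipalIdealRing O] [Module.Free ℤ O] [Module.Finite ℤ O] in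
lemma relIndex_odd (hs2 : (2 : O) ∣ s) (g : ℍ[K])
    (h0 : (L g (AR K s).toAddSubgroup).relIndex (AR K s).toAddSubgroup ≠ 0) (h2 : (2 : O) ≠ 0) :
    ¬ 2 ∣ (L g (AR K s).toAddSubgroup).relIndex (AR K s).toAddSubgroup := by
  intro hdvd
  have : Finite ((AR K s).toAddSubgroup ⧸
      (L g (AR K s).toAddSubgroup).addSubgroupOf (AR K s).toAddSubgroup) :=
    Nat.finite_of_card_ne_zero h0
  have : Fact (Nat.Prime 2) := ⟨Nat.prime_two⟩
  obtain ⟨x, hx⟩ := exists_prime_addOrderOf_dvd_card' (G := (AR K s).toAddSubgroup ⧸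
      (L g (AR K s).toAddSubgroup).addSubgroupOf (AR K s).toAddSubgroup) 2 hdvd
  obtain ⟨a, rfl⟩ := QuotientAddGroup.mk_surjective x
  have h1 := addOrderOf_nsmul_eq_zero (a : (AR K s).toAddSubgroup ⧸
      (L g (AR K s).toAddSubgroup).addSubgroupOf (AR K s).toAddSubgroup)
  rw [hx, ← QuotientAddGroup.mk_nsmul, QuotientAddGroup.eq_zero_iff,
    AddSubgroup.mem_addSubgroupOf] at h1
  obtain ⟨b, hb, hab⟩ := h1
  have h2' : algebraMap O K 2 ≠ 0 := fun h0 =>
    h2 (IsFractionRing.injective O K (h0.trans (map_zero _).symm))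
  have h3 : (a : (AR K s).toAddSubgroup ⧸
      (L g (AR K s).toAddSubgroup).addSubgroupOf (AR K s).toAddSubgroup) = 0 := by
    rw [QuotientAddGroup.eq_zero_iff, AddSubgroup.mem_addSubgroupOf]
    refine ⟨(algebraMap O K 2)⁻¹ • b, ?_, ?_⟩
    · refine of_smul_mem (c := 2) (k := 1) (by simpa using hs2) ?_
      rwa [smul_smul, mul_inv_cancel₀ h2', one_smul]
    · have hab' : g * b = algebraMap O K 2 • (a : ℍ[K]) := by
        rw [map_ofNat, ofNat_smul_eq_nsmul]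
        exact hab
      change g * _ = _
      rw [mul_smul_comm, hab', smul_smul, inv_mul_cancel₀ h2', one_smul]
  rw [h3, addOrderOf_zero] at hx
  omega

omit [IsPrincipalIdealRing O] [Module.Free ℤ O] [Module.Finite ℤ O] in
lemma exists_denom (z : ℍ[K]) : ∃ (d : O) (h : ℍ[O]), d ≠ 0 ∧
    algebraMap O K d • z = qmap (algebraMap O K) h := by
  classical
  obtain ⟨b, hb⟩ := IsLocalization.exist_integer_multiples_of_finset (nonZeroDivisors O)
    (S := K) {z.re, z.imI, z.imJ, z.imK}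
  obtain ⟨x0, h0⟩ := hb z.re (by simp)
  obtain ⟨x1, h1⟩ := hb z.imI (by simp)
  obtain ⟨x2, h2⟩ := hb z.imJ (by simp)
  obtain ⟨x3, h3⟩ := hb z.imK (by simp)
  refine ⟨b, ⟨x0, x1, x2, x3⟩, nonZeroDivisors.coe_ne_zero b, ?_⟩
  ext <;> simp [*, Algebra.smul_def]

omit [Module.Free ℤ O] [Module.Finite ℤ O] in
lemma exists_prime_denom {J : AddSubgroup ℍ[K]} (hJ : ∀ z ∈ J, ∀ a ∈ AR K s, z * a ∈ J)
    {z : ℍ[K]} (hz : z ∈ J) (hzA : z ∉ AR K s) :
    ∃ (p : O) (w : ℍ[K]) (x : ℍ[O]), Prime p ∧ ¬ p ∣ s ∧ w ∈ J ∧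
      algebraMap O K p • w = qmap (algebraMap O K) x ∧ ¬ ∃ u : ℍ[O], x = p • u := by
  have hsm : ∀ (c : O) (z : ℍ[K]), z ∈ J → algebraMap O K c • z ∈ J := by
    intro c z hz
    rw [← mul_coe_eq_smul, ← qmap_coe]
    exact hJ z hz _ (qmap_mem _)
  have key : ∀ d : O, d ≠ 0 → ∀ z ∈ J, z ∉ AR K s → algebraMap O K d • z ∈ AR K s →
      ∃ (p : O) (w : ℍ[K]), Prime p ∧ w ∈ J ∧ w ∉ AR K s ∧ algebraMap O K p • w ∈ AR K s := by
    intro d
    induction d using UniqueFactorizationMonoid.induction_on_prime with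
    | h₁ => intro h; exact absurd rfl h
    | h₂ u hu =>
      intro _ z _ hzA h
      exact absurd (of_smul_mem (k := 0) (by simpa using hu.dvd) h) hzA
    | h₃ a p ha hp ih =>
      intro _ z hz hzA h
      by_cases h1 : algebraMap O K a • z ∈ AR K s
      · exact ih ha z hz hzA h1
      · exact ⟨p, algebraMap O K a • z, hp, hsm a z hz, h1, by rwa [smul_smul, ← map_mul]⟩
  obtain ⟨d, h, hd, hdz⟩ := exists_denom (O := O) z
  obtain ⟨p, w, hp, hw, hwA, n, x, hx⟩ := key d hd z hz hzA (hdz ▸ qmap_mem h)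
  have hp0 : algebraMap O K p ≠ 0 := fun h0 =>
    hp.ne_zero (IsFractionRing.injective O K (h0.trans (map_zero _).symm))
  refine ⟨p, algebraMap O K (s ^ n) • w, x, hp, fun hps => hwA ?_, hsm _ _ hw, ?_, ?_⟩
  · exact of_smul_mem (k := 1) (by simpa using hps) ⟨n, x, hx⟩
  · rw [← hx, map_pow, smul_comm]
  · rintro ⟨u, rfl⟩
    refine hwA ⟨n, u, ?_⟩
    rw [qmap_smul, smul_comm] at hx
    exact smul_right_injective _ hp0 hx

lemma step (hs2 : (2 : O) ∣ s) (C : ℕ)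
    (hprime : ∀ p : O, Prime p → ¬ p ∣ s → Ideal.absNorm (Ideal.span {p}) ≤ C →
      (∃ (q : ℍ[O]) (c : O) (k : ℕ), normSq q = p * c ∧ c ∣ s ^ k) ∧
      (∃ (γ : ℍ[O]) (k : ℕ), normSq γ ∣ s ^ k ∧
        (¬ ∃ r : O, p ∣ γ.imI ^ 2 + γ.imJ ^ 2 + γ.imK ^ 2 + r ^ 2) ∧
        ∀ m : ℕ, 0 < m → m ≤ Ideal.absNorm (Ideal.span {p}) →
          ¬ (p ∣ (γ ^ m).imI ∧ p ∣ (γ ^ m).imJ ∧ p ∣ (γ ^ m).imK)))
    (hs0 : s ≠ 0) {J : AddSubgroup ℍ[K]} (hAJ : (AR K s).toAddSubgroup ≤ J)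
    (hJ : ∀ z ∈ J, ∀ a ∈ AR K s, z * a ∈ J)
    (h0 : (AR K s).toAddSubgroup.relIndex J ≠ 0) (hC : (AR K s).toAddSubgroup.relIndex J ≤ C ^ 2)
    {z : ℍ[K]} (hz : z ∈ J) (hzA : z ∉ AR K s) :
    ∃ g : ℍ[K]ˣ, (g : ℍ[K]) ∈ J ∧ (g : ℍ[K]) ∉ AR K s ∧ ((g⁻¹ : ℍ[K]ˣ) : ℍ[K]) ∈ AR K s := by
  have hsm : ∀ (c : O) (z : ℍ[K]), z ∈ J → algebraMap O K c • z ∈ J := by
    intro c z hz
    rw [← mul_coe_eq_smul, ← qmap_coe]
    exact hJ z hz _ (qmap_mem _)
  have hne : ∀ c : O, c ≠ 0 → algebraMap O K c ≠ 0 := fun c hc h0 =>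
    hc (IsFractionRing.injective O K (h0.trans (map_zero _).symm))
  obtain ⟨p, w, x, hp, hps, hw, hwx, hx⟩ := exists_prime_denom hJ hz hzA
  have hp0 := hne p hp.ne_zero
  -- a common ending
  have fin : ∀ (y : ℍ[O]) (c : O) (k : ℕ), (normSq y = p * c ∨ normSq y = c) → c ∣ s ^ k →
      (¬ ∃ u : ℍ[O], y = p • u) → (algebraMap O K p)⁻¹ • qmap (algebraMap O K) y ∈ J →
      ∃ g : ℍ[K]ˣ, (g : ℍ[K]) ∈ J ∧ (g : ℍ[K]) ∉ AR K s ∧ ((g⁻¹ : ℍ[K]ˣ) : ℍ[K]) ∈ AR K s := by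
    intro y c k hy hc hyp hyJ
    have hc0 : c ≠ 0 := by
      rintro rfl
      exact pow_ne_zero k hs0 (zero_dvd_iff.1 hc)
    have hc0' := hne c hc0
    have hy0 : algebraMap O K (normSq y) ≠ 0 := by
      apply hne
      rcases hy with h | h <;> rw [h]
      · exact mul_ne_zero hp.ne_zero hc0
      · exact hc0
    have hn : normSq ((algebraMap O K p)⁻¹ • qmap (algebraMap O K) y) =
        (algebraMap O K p)⁻¹ ^ 2 * algebraMap O K (normSq y) := by
      rw [normSq_smul, normSq_qmap]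
    refine ⟨mkUnit ((algebraMap O K p)⁻¹ • qmap (algebraMap O K) y)
      (by rw [hn]; exact mul_ne_zero (pow_ne_zero _ (inv_ne_zero hp0)) hy0), hyJ, ?_, ?_⟩
    · intro hA
      refine hyp (dvd_of_mem hp hps ?_ hA)
      change algebraMap O K p • ((algebraMap O K p)⁻¹ • qmap (algebraMap O K) y) = _
      rw [smul_smul, mul_inv_cancel₀ hp0, one_smul]
    · change (normSq ((algebraMap O K p)⁻¹ • qmap (algebraMap O K) y))⁻¹ •
        star ((algebraMap O K p)⁻¹ • qmap (algebraMap O K) y) ∈ _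
      refine of_smul_mem hc ?_
      rw [hn, Quaternion.star_smul, smul_smul, smul_smul, ← qmap_star]
      rcases hy with h | h
      · have : algebraMap O K c * ((algebraMap O K p)⁻¹ ^ 2 * algebraMap O K (normSq y))⁻¹ *
            (algebraMap O K p)⁻¹ = 1 := by
          rw [h, map_mul]; field_simp
        rw [this, one_smul]
        exact qmap_mem _
      · have : algebraMap O K c * ((algebraMap O K p)⁻¹ ^ 2 * algebraMap O K (normSq y))⁻¹ *
            (algebraMap O K p)⁻¹ = algebraMap O K p := by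
          rw [h]; field_simp
        rw [this]
        exact smul_mem _ (qmap_mem _)
  have hw' : w = (algebraMap O K p)⁻¹ • qmap (algebraMap O K) x := by
    rw [← hwx, smul_smul, inv_mul_cancel₀ hp0, one_smul]
  have hmax : (Ideal.span {p}).IsMaximal :=
    PrincipalIdealRing.isMaximal_of_irreducible hp.irreducible
  let F := O ⧸ Ideal.span {p}
  let _ : Field F := Ideal.Quotient.field _
  let π : O →+* F := Ideal.Quotient.mk _
  have hπ : ∀ a, π a = 0 ↔ p ∣ a := fun a =>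
    Ideal.Quotient.eq_zero_iff_mem.trans Ideal.mem_span_singleton
  have hπs : Function.Surjective π := Ideal.Quotient.mk_surjective
  have hN0 : Ideal.absNorm (Ideal.span {p}) ≠ 0 := by
    rw [Ne, Ideal.absNorm_eq_zero_iff, Ideal.span_singleton_eq_bot]
    exact hp.ne_zero
  have : Finite F := (Ideal.absNorm_ne_zero_iff _).1 hN0
  have hcard : Nat.card F = Ideal.absNorm (Ideal.span {p}) := rfl
  have h2 : (2 : F) ≠ 0 := by
    intro h
    exact hps (((hπ 2).1 (by rw [map_ofNat]; exact h)).trans hs2)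
  have hx0 : qmap π x ≠ 0 := fun h => hx ((qmap_eq_zero π hπ x).1 h)
  -- the norm of p is small
  have hNC : Ideal.absNorm (Ideal.span {p}) ≤ C := by
    obtain ⟨e, he⟩ := indep_right h2 hx0
    obtain ⟨e, rfl⟩ := qmap_surj π hπs e
    let ψ : O × O →+ ℍ[K] :=
      { toFun := fun ab => algebraMap O K ab.1 • w +
          algebraMap O K ab.2 • (w * qmap (algebraMap O K) e)
        map_zero' := by simp
        map_add' := by
          intro a b
          simp only [Prod.fst_add, Prod.snd_add, map_add, add_smul]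
          abel }
    have hψJ : ψ.range ≤ J := by
      rintro _ ⟨ab, rfl⟩
      exact add_mem (hsm _ _ hw) (hsm _ _ (hJ w hw _ (qmap_mem e)))
    have h3 := AddSubgroup.relIndex_le_of_le_right hψJ h0
    have h4 : (AR K s).toAddSubgroup.relIndex ψ.range ≠ 0 := fun h =>
      h0 (AddSubgroup.relIndex_eq_zero_of_le_right hψJ h)
    rw [← AddSubgroup.index_comap] at h3 h4
    have h5 : (AR K s).toAddSubgroup.comap ψ ≤
        (Ideal.span {p}).toAddSubgroup.prod (Ideal.span {p}).toAddSubgroup := by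
      rintro ⟨a, b⟩ hab
      have h6 : algebraMap O K p • ψ (a, b) = qmap (algebraMap O K) (a • x + b • (x * e)) := by
        change algebraMap O K p • (algebraMap O K a • w +
          algebraMap O K b • (w * qmap (algebraMap O K) e)) = _
        rw [map_add, qmap_smul, qmap_smul, map_mul, ← hwx, smul_add, smul_mul_assoc,
          smul_comm _ (algebraMap O K a), smul_comm _ (algebraMap O K b)]
      have h7 := (qmap_eq_zero π hπ _).2 (dvd_of_mem hp hps h6 hab)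
      rw [map_add, qmap_smul, qmap_smul, map_mul] at h7
      obtain ⟨ha, hb⟩ := he _ _ h7
      exact ⟨Ideal.Quotient.eq_zero_iff_mem.1 ha, Ideal.Quotient.eq_zero_iff_mem.1 hb⟩
    have h8 := Nat.le_of_dvd (Nat.pos_of_ne_zero h4) (AddSubgroup.index_dvd_of_le h5)
    rw [AddSubgroup.index_prod] at h8
    have h9 : Ideal.absNorm (Ideal.span {p}) ^ 2 ≤ C ^ 2 := by
      rw [sq]
      exact (h8.trans h3).trans hC
    exact (Nat.pow_le_pow_iff_left (by norm_num)).1 h9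
  obtain ⟨⟨q, c, k, hq, hc⟩, γ, l, hγ, hγ1, hγ2⟩ := hprime p hp hps hNC
  have hpc : ¬ p ∣ c := fun h => hps (hp.dvd_of_dvd_pow (h.trans hc))
  have hq0 : qmap π q ≠ 0 := by
    intro h
    obtain ⟨u, rfl⟩ := (qmap_eq_zero π hπ q).1 h
    rw [normSq_smul, sq, mul_assoc] at hq
    exact hpc ⟨_, (mul_left_cancel₀ hp.ne_zero hq).symm⟩
  obtain ⟨n, a, ha, ha0⟩ := orbit h2 (q := qmap π q) (γ := qmap π γ) (x := qmap π x) hq0
    (by rw [normSq_qmap, hπ, hq]; exact dvd_mul_right _ _) hx0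
    (by
      rintro ⟨r, hr⟩
      obtain ⟨r, rfl⟩ := hπs r
      refine hγ1 ⟨r, (hπ _).1 ?_⟩
      simpa using hr)
    (by
      intro m hm hmN h
      rw [← map_pow] at h
      exact hγ2 m hm (hcard ▸ hmN) ⟨(hπ _).1 h.1, (hπ _).1 h.2.1, (hπ _).1 h.2.2⟩)
  obtain ⟨a, rfl⟩ := qmap_surj π hπs a
  rw [← map_pow, ← map_mul] at ha0
  rw [← map_pow, ← map_mul, ← map_mul, ← sub_eq_zero, ← map_sub] at ha
  obtain ⟨u, hu⟩ := (qmap_eq_zero π hπ _).1 ha
  refine fin (γ ^ n * q) (normSq γ ^ n * c) (l * n + k) (Or.inl ?_) ?_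
    (fun h => ha0 ((qmap_eq_zero π hπ _).2 h)) ?_
  · rw [map_mul, map_pow, hq]; ring
  · rw [pow_add, pow_mul]
    exact mul_dvd_mul (pow_dvd_pow_of_dvd hγ n) hc
  · rw [eq_add_of_sub_eq hu, map_add, smul_add, qmap_smul, smul_smul, inv_mul_cancel₀ hp0,
      one_smul, map_mul, ← smul_mul_assoc, ← hw']
    exact add_mem (hAJ (qmap_mem u)) (hJ w hw _ (qmap_mem a))

lemma principal (hs2 : (2 : O) ∣ s) (C : ℕ)
    (hprime : ∀ p : O, Prime p → ¬ p ∣ s → Ideal.absNorm (Ideal.span {p}) ≤ C →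
      (∃ (q : ℍ[O]) (c : O) (k : ℕ), normSq q = p * c ∧ c ∣ s ^ k) ∧
      (∃ (γ : ℍ[O]) (k : ℕ), normSq γ ∣ s ^ k ∧
        (¬ ∃ r : O, p ∣ γ.imI ^ 2 + γ.imJ ^ 2 + γ.imK ^ 2 + r ^ 2) ∧
        ∀ m : ℕ, 0 < m → m ≤ Ideal.absNorm (Ideal.span {p}) →
          ¬ (p ∣ (γ ^ m).imI ∧ p ∣ (γ ^ m).imJ ∧ p ∣ (γ ^ m).imK)))
    (hs0 : s ≠ 0) (n : ℕ) : ∀ J : AddSubgroup ℍ[K], (AR K s).toAddSubgroup ≤ J →
      (∀ z ∈ J, ∀ a ∈ AR K s, z * a ∈ J) → (AR K s).toAddSubgroup.relIndex J = n → n ≠ 0 →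
      n ≤ C ^ 2 → ∃ g : ℍ[K]ˣ, J = L g (AR K s).toAddSubgroup := by
  induction n using Nat.strong_induction_on with
  | _ n ih =>
  intro J hAJ hJ hn h0 hC
  by_cases hle : J ≤ (AR K s).toAddSubgroup
  · exact ⟨1, by rw [Units.val_one, L_one]; exact le_antisymm hle hAJ⟩
  obtain ⟨z, hz, hzA⟩ := SetLike.not_le_iff_exists.1 hle
  obtain ⟨g, hgJ, hgA, hgi⟩ := step hs2 C hprime hs0 hAJ hJ (hn ▸ h0) (hn ▸ hC) hz hzA
  have h1 : (AR K s).toAddSubgroup ≤ L g (AR K s).toAddSubgroup := by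
    intro a ha
    exact ⟨(g⁻¹ : ℍ[K]ˣ) * a, (AR K s).mul_mem hgi ha, by simp⟩
  have h2 : L g (AR K s).toAddSubgroup ≤ J := by
    rintro _ ⟨a, ha, rfl⟩
    exact hJ _ hgJ a ha
  have h3 := AddSubgroup.relIndex_mul_relIndex _ _ _ h1 h2
  have h4 : (AR K s).toAddSubgroup.relIndex (L g (AR K s).toAddSubgroup) ≠ 1 := by
    rw [Ne, AddSubgroup.relIndex_eq_one]
    intro h
    exact hgA (h ⟨1, (AR K s).one_mem, mul_one _⟩)
  have h5 : (AR K s).toAddSubgroup.relIndex (L (g⁻¹ : ℍ[K]ˣ) J) =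
      (L g (AR K s).toAddSubgroup).relIndex J := by
    rw [← relIndex_L g, L_L, Units.mul_inv, L_one]
  rw [hn] at h3
  have h6 : (L g (AR K s).toAddSubgroup).relIndex J ≠ 0 := by
    intro h; rw [h, mul_zero] at h3; exact h0 h3.symm
  have h7 : (AR K s).toAddSubgroup.relIndex (L g (AR K s).toAddSubgroup) ≠ 0 := by
    intro h; rw [h, zero_mul] at h3; exact h0 h3.symm
  have h8 : (L g (AR K s).toAddSubgroup).relIndex J < n := by
    rw [← h3]
    exact lt_mul_of_one_lt_left (Nat.pos_of_ne_zero h6) (by omega)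
  obtain ⟨g', hg'⟩ := ih _ h8 (L (g⁻¹ : ℍ[K]ˣ) J) (by
      have := L_mono ((g⁻¹ : ℍ[K]ˣ) : ℍ[K]) h2
      rwa [L_L, Units.inv_mul, L_one] at this)
    (by
      rintro _ ⟨w, hw, rfl⟩ a ha
      exact ⟨w * a, hJ w hw a ha, (mul_assoc _ _ _).symm⟩) h5 h6 (by omega)
  refine ⟨g * g', ?_⟩
  rw [Units.val_mul, ← L_L, ← hg', L_L, Units.mul_inv, L_one]

end Main

lemma normSq_ne_zero_of {O : Type*} [CommRing O] (τ : O →+* ℝ) (hτ : Function.Injective τ)
    {y : ℍ[O]} (hy : y ≠ 0) : normSq y ≠ 0 := by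
  intro h
  apply hy
  apply qmap_inj τ hτ
  rw [map_zero, ← Quaternion.normSq_eq_zero, normSq_qmap, h, map_zero]

lemma re_mul_comm {R : Type*} [CommRing R] (a b : ℍ[R]) : (a * b).re = (b * a).re := by
  simp only [re_mul]; ring

end QPID

open QPID in
/-- JOB E (file QuatPID.lean): clearing denominators away from `s` -/
theorem clear_denominators {O : Type*} [CommRing O] [IsDomain O] [IsPrincipalIdealRing O]
    [Module.Free ℤ O]
    [Module.Finite ℤ O] {K : Type*} [Field K] [Algebra O K] [IsFractionRing O K]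
    (τ : O →+* ℝ) (hτ : Function.Injective τ) (s : O) (hs0 : s ≠ 0) (hs2 : (2 : O) ∣ s)
    (M : AddSubgroup ℍ[O]) (hM0 : M.index ≠ 0) (hM : ∀ y ∈ M, (4 : O) ∣ normSq y) (C : ℕ)
    (hMink : ∀ I : AddSubgroup ℍ[O], I ≤ M → I.index ≠ 0 → ∃ y ∈ I, y ≠ 0 ∧
      Ideal.absNorm (Ideal.span {normSq y}) ^ 2 ≤
        Ideal.absNorm (Ideal.span {(4 : O)}) ^ 2 * C ^ 2 * I.relIndex M)
    (hprime : ∀ p : O, Prime p → ¬ p ∣ s → Ideal.absNorm (Ideal.span {p}) ≤ C →
      (∃ (q : ℍ[O]) (c : O) (k : ℕ), normSq q = p * c ∧ c ∣ s ^ k) ∧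
      (∃ (γ : ℍ[O]) (k : ℕ), normSq γ ∣ s ^ k ∧
        (¬ ∃ r : O, p ∣ γ.imI ^ 2 + γ.imJ ^ 2 + γ.imK ^ 2 + r ^ 2) ∧
        ∀ m : ℕ, 0 < m → m ≤ Ideal.absNorm (Ideal.span {p}) →
          ¬ (p ∣ (γ ^ m).imI ∧ p ∣ (γ ^ m).imJ ∧ p ∣ (γ ^ m).imK)))
    (β : O) (hβ : ∃ x y z : K, algebraMap O K β = x ^ 2 + y ^ 2 + z ^ 2) :
    ∃ (n : ℕ) (x y z : O), s ^ (2 * n) * β = x ^ 2 + y ^ 2 + z ^ 2 := by
  obtain ⟨x, y, z, hβ⟩ := hβ
  set v : ℍ[K] := ⟨0, x, y, z⟩ with hv
  have hvn : normSq v = algebraMap O K β := by rw [normSq_def', hβ]; simp [hv]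
  have hvv : v * v = -((algebraMap O K β : K) : ℍ[K]) := by
    have hsv : star v = -v := by ext <;> simp [hv]
    rw [← hvn, ← star_mul_self, hsv, neg_mul, neg_neg]
  have hne : ∀ c : O, c ≠ 0 → algebraMap O K c ≠ 0 := fun c hc h0 =>
    hc (IsFractionRing.injective O K (h0.trans (map_zero _).symm))
  have h2 : (2 : O) ≠ 0 := by
    rintro h
    rw [h, zero_dvd_iff] at hs2
    exact hs0 hs2
  obtain ⟨t, V, ht, hV⟩ := exists_denom (O := O) v
  set A := (AR K s).toAddSubgroup with hA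
  set T : ℍ[K] := qmap (algebraMap O K) (t : ℍ[O]) with hT
  have hT' : ∀ a, T * a = algebraMap O K t • a := fun a => by
    rw [hT, qmap_coe, coe_mul_eq_smul]
  set J : AddSubgroup ℍ[K] := L T A ⊔ L (qmap (algebraMap O K) V) A with hJ
  have hJA : J ≤ A := by
    refine sup_le ?_ ?_ <;> rintro _ ⟨a, ha, rfl⟩ <;> exact (AR K s).mul_mem (qmap_mem _) ha
  have hJr : ∀ w ∈ J, ∀ a ∈ AR K s, w * a ∈ J := by
    intro w hw a ha
    obtain ⟨_, ⟨b, hb, rfl⟩, _, ⟨c, hc, rfl⟩, rfl⟩ := AddSubgroup.mem_sup.1 hw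
    rw [add_mul]
    exact add_mem (AddSubgroup.mem_sup_left ⟨b * a, (AR K s).mul_mem hb ha, (mul_assoc _ _ _).symm⟩)
      (AddSubgroup.mem_sup_right ⟨c * a, (AR K s).mul_mem hc ha, (mul_assoc _ _ _).symm⟩)
  have hJv : ∀ w ∈ J, v * w ∈ J := by
    intro w hw
    obtain ⟨_, ⟨b, hb, rfl⟩, _, ⟨c, hc, rfl⟩, rfl⟩ := AddSubgroup.mem_sup.1 hw
    rw [mul_add]
    refine add_mem (AddSubgroup.mem_sup_right ⟨b, hb, ?_⟩)
      (AddSubgroup.mem_sup_left ⟨-(algebraMap O K β • c), neg_mem (smul_mem β hc), ?_⟩)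
    · change qmap (algebraMap O K) V * b = v * (T * b)
      rw [← hV, hT', smul_mul_assoc, mul_smul_comm]
    · change T * _ = v * (qmap (algebraMap O K) V * c)
      rw [← hV, hT', smul_mul_assoc, mul_smul_comm, ← mul_assoc, hvv, neg_mul, coe_mul_eq_smul]
  have hN0 : ∀ c : O, c ≠ 0 → Ideal.absNorm (Ideal.span {c}) ≠ 0 := fun c hc => by
    rw [Ne, Ideal.absNorm_eq_zero_iff, Ideal.span_singleton_eq_bot]
    exact hc
  have hn0 : J.relIndex A ≠ 0 := by
    have ht2 : normSq (t : ℍ[O]) ≠ 0 := by rw [normSq_coe]; exact pow_ne_zero _ ht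
    have h3 := relIndex_dvd (K := K) (s := s) (t : ℍ[O]) ht2
    have h4 : (L T A).relIndex A ≠ 0 := ne_zero_of_dvd_ne_zero (pow_ne_zero _ (hN0 _ ht2)) h3
    exact fun h => h4 (AddSubgroup.relIndex_eq_zero_of_le_left le_sup_left h)
  have hrange : ∀ N : AddSubgroup ℍ[O], N.map (qmap (algebraMap O K)).toAddMonoidHom ≤ A := by
    rintro N _ ⟨h, -, rfl⟩
    exact qmap_mem h
  set I := M ⊓ J.comap (qmap (algebraMap O K)).toAddMonoidHom with hI
  have hI0 : I.index ≠ 0 := by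
    refine AddSubgroup.index_inf_ne_zero hM0 ?_
    rw [← AddSubgroup.relIndex_top_right, AddSubgroup.relIndex_comap]
    exact fun h => hn0 (AddSubgroup.relIndex_eq_zero_of_le_right (hrange _) h)
  have hI1 : I.relIndex M ≤ J.relIndex A := by
    rw [hI, AddSubgroup.inf_relIndex_left, AddSubgroup.relIndex_comap]
    exact AddSubgroup.relIndex_le_of_le_right (hrange _) hn0
  obtain ⟨y₀, ⟨hyM, hyJ⟩, hy0, hy⟩ := hMink I inf_le_left hI0
  have hyn := normSq_ne_zero_of τ hτ hy0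
  obtain ⟨ν, hν⟩ := hM y₀ hyM
  have hν0 : ν ≠ 0 := by rintro rfl; exact hyn (by simpa using hν)
  have hmul : Ideal.absNorm (Ideal.span {normSq y₀}) =
      Ideal.absNorm (Ideal.span {(4 : O)}) * Ideal.absNorm (Ideal.span {ν}) := by
    rw [hν, ← Ideal.span_singleton_mul_span_singleton, map_mul]
  have h4 : Ideal.absNorm (Ideal.span {(4 : O)}) = 2 ^ (2 * Module.finrank ℤ O) := by
    rw [Ideal.absNorm_span_singleton, show (4 : O) = algebraMap ℤ O 4 by simp,
      Algebra.norm_algebraMap, Int.natAbs_pow, pow_mul]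
    rfl
  obtain ⟨Y, hY⟩ : ∃ Y : ℍ[K]ˣ, (Y : ℍ[K]) = qmap (algebraMap O K) y₀ :=
    ⟨mkUnit (qmap (algebraMap O K) y₀) (by rw [normSq_qmap]; exact hne _ hyn), rfl⟩
  have hdvd := relIndex_dvd (K := K) (s := s) y₀ hyn
  rw [← hY, ← hA] at hdvd
  have hY0 : (L Y A).relIndex A ≠ 0 := ne_zero_of_dvd_ne_zero (pow_ne_zero _ (hN0 _ hyn)) hdvd
  have hodd := relIndex_odd hs2 (Y : ℍ[K]) hY0 h2
  have hdvd' : (L Y A).relIndex A ∣ Ideal.absNorm (Ideal.span {ν}) ^ 2 := by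
    rw [hmul, mul_pow, h4, ← pow_mul] at hdvd
    refine Nat.Coprime.dvd_of_dvd_mul_left ?_ hdvd
    exact Nat.Coprime.pow_right _ ((Nat.prime_two.coprime_iff_not_dvd.2 hodd).symm)
  have hle : (L Y A).relIndex A ≤ C ^ 2 * J.relIndex A := by
    refine (Nat.le_of_dvd (Nat.pos_of_ne_zero (pow_ne_zero _ (hN0 _ hν0))) hdvd').trans ?_
    rw [hmul, mul_pow, mul_assoc] at hy
    have h5 := Nat.le_of_mul_le_mul_left hy (by rw [h4]; positivity)
    exact h5.trans (Nat.mul_le_mul_left _ hI1)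
  have hYJ : L Y A ≤ J := by
    rintro _ ⟨a, ha, rfl⟩
    change (Y : ℍ[K]) * a ∈ J
    rw [hY]
    exact hJr _ hyJ a ha
  have h6 := AddSubgroup.relIndex_mul_relIndex _ _ _ hYJ hJA
  have h7 : A.relIndex (L (Y⁻¹ : ℍ[K]ˣ) J) = (L Y A).relIndex J := by
    rw [← relIndex_L Y, L_L, Units.mul_inv, L_one]
  have h10 : A ≤ L (Y⁻¹ : ℍ[K]ˣ) J := by
    have := L_mono ((Y⁻¹ : ℍ[K]ˣ) : ℍ[K]) hYJ
    rwa [L_L, Units.inv_mul, L_one] at this
  have h11 : ∀ z ∈ L (Y⁻¹ : ℍ[K]ˣ) J, ∀ a ∈ AR K s, z * a ∈ L (Y⁻¹ : ℍ[K]ˣ) J := by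
    rintro _ ⟨w, hw, rfl⟩ a ha
    exact ⟨w * a, hJr w hw a ha, (mul_assoc _ _ _).symm⟩
  have h12 : (L Y A).relIndex J ≠ 0 := by
    intro h
    rw [h, zero_mul] at h6
    exact hY0 h6.symm
  have h13 : (L Y A).relIndex J ≤ C ^ 2 := by
    rw [← h6] at hle
    exact Nat.le_of_mul_le_mul_right hle (Nat.pos_of_ne_zero hn0)
  have h14 := principal (K := K) hs2 C hprime hs0 ((L Y A).relIndex J) (L (Y⁻¹ : ℍ[K]ˣ) J)
  rw [← hA] at h14
  have h15 := h14 h10 h11 h7 h12 h13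
  obtain ⟨g, hg⟩ := h15
  have hJg : J = L (Y * g : ℍ[K]ˣ) A := by
    rw [Units.val_mul, ← L_L, ← hg, L_L, Units.mul_inv, L_one]
  generalize Y * g = h at hJg
  have hhJ : (h : ℍ[K]) ∈ J := by
    rw [hJg]
    exact ⟨1, (AR K s).one_mem, mul_one _⟩
  have hvh := hJv _ hhJ
  rw [hJg] at hvh
  obtain ⟨w, ⟨n, W, hW⟩, hw⟩ := hvh
  change (h : ℍ[K]) * w = v * h at hw
  have hw' : w = (h⁻¹ : ℍ[K]ˣ) * (v * h) := by rw [← hw, Units.inv_mul_cancel_left]
  have hre : w.re = 0 := by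
    rw [hw', re_mul_comm, mul_assoc, Units.mul_inv, mul_one]
  have hwn : normSq w = algebraMap O K β := by
    have h8 : normSq ((h⁻¹ : ℍ[K]ˣ) : ℍ[K]) * normSq (h : ℍ[K]) = 1 := by
      rw [← map_mul, Units.inv_mul, map_one]
    rw [hw', map_mul, map_mul, hvn]
    linear_combination algebraMap O K β * h8
  have hW0 : W.re = 0 := by
    apply IsFractionRing.injective O K
    have := congrArg QuaternionAlgebra.re hW
    rw [map_zero]
    simpa [hre] using this.symm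
  refine ⟨n, W.imI, W.imJ, W.imK, ?_⟩
  have h9 : normSq W = W.imI ^ 2 + W.imJ ^ 2 + W.imK ^ 2 := by
    rw [normSq_def', hW0]; ring
  rw [← h9]
  apply IsFractionRing.injective O K
  rw [← normSq_qmap, ← hW, normSq_smul, hwn, map_mul, map_pow, ← pow_mul, mul_comm n 2]

end Pool.Agent.Lib.MP_aed2da_nt
end
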