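import Pool.Agent.Lib.MP_aed2da_nt.FracB
import Pool.Agent.Lib.MP_aed2da_nt.QuatPID

-- part Pool.Agent.Lib.MP_aed2da_nt.Data
section

/-! Numerical data of the six fields. -/

namespace Pool.Agent.Lib.MP_aed2da_nt

/-! ### field 23 -/

/-- images of the generators under the four automorphisms -/
def gal23 : Fin 4 → Q P23 × Q P23 :=
  ![(⟨0, 1, 0, 0⟩, ⟨0, 0, 1, 0⟩),
    (⟨0, 1, 0, 0⟩, ⟨0, 1, -1, 0⟩),
    (⟨0, -1, 0, 0⟩, ⟨0, 0, -1, 0⟩),
    (⟨0, -1, 0, 0⟩, ⟨0, -1, 1, 0⟩)]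
lemma rel23 (i : Fin 4) : Q.Rel P23 (gal23 i).1 (gal23 i).2 := by
  fin_cases i <;> exact ⟨by decide, by decide⟩
def tau23 (i : Fin 4) : Q P23 →+* Q P23 := Q.lift _ _ (rel23 i)
def M23 : Fin 4 → Fin 4 → ℤ :=
  ![![1099511627776, 1554944255988, 2124093355148, 3003921630597],
    ![1099511627776, 1554944255988, -569149099160, -804898375045],
    ![1099511627776, -1554944255988, -2124093355148, 3003921630597],
    ![1099511627776, -1554944255988, 569149099160, -804898375045]]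
/-- odd part of the denominator -/
def t23 : Q P23 := ⟨1, 0, 0, 0⟩
/-- conditions: 0 odd N=2, 1 a N=9 -/
def Ls23 : List (Lit P23) :=
  [⟨2, 1, ⟨1, 0, 1, 0⟩, ⟨0, 0, 0, 0⟩, 2⟩,
   ⟨3, 3, ⟨1, 0, 0, 1⟩, ⟨0, 1, 2, 0⟩, 78⟩]
def fm23 : Fm :=
  (.and (.lit 0) (.lit 1))
def Nmax23 : ℤ := 0

/-! ### field 35 -/

/-- images of the generators under the four automorphisms -/
def gal35 : Fin 4 → Q P35 × Q P35 :=
  ![(⟨0, 1, 0, 0⟩, ⟨0, 0, 1, 0⟩),
    (⟨0, 1, 0, 0⟩, ⟨0, 0, -1, 0⟩),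
    (⟨1, -1, 0, 0⟩, ⟨0, 0, 1, 0⟩),
    (⟨1, -1, 0, 0⟩, ⟨0, 0, -1, 0⟩)]
lemma rel35 (i : Fin 4) : Q.Rel P35 (gal35 i).1 (gal35 i).2 := by
  fin_cases i <;> exact ⟨by decide, by decide⟩
def tau35 (i : Fin 4) : Q P35 →+* Q P35 := Q.lift _ _ (rel35 i)
def M35 : Fin 4 → Fin 4 → ℤ :=
  ![![1099511627776, 1779047184767, 1904410002821, 3081400113079],
    ![1099511627776, 1779047184767, -1904410002821, -3081400113079],
    ![1099511627776, -679535556991, 1904410002821, -1176990110259],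
    ![1099511627776, -679535556991, -1904410002821, 1176990110259]]
/-- odd part of the denominator -/
def t35 : Q P35 := ⟨-2, 0, 0, -1⟩
/-- conditions: 0 odd N=4, 1 a N=9, 2 ar N=11, 3 ar N=11, 4 ar N=11, 5 ar N=11 -/
def Ls35 : List (Lit P35) :=
  [⟨2, 2, ⟨1, 0, 1, 0⟩, ⟨0, 1, 0, 1⟩, 14⟩,
   ⟨3, 3, ⟨1, 0, 0, 0⟩, ⟨0, 1, 0, 0⟩, 278⟩,
   ⟨11, 1, ⟨1, 4, 5, 9⟩, ⟨0, 0, 0, 0⟩, 1477⟩,
   ⟨11, 1, ⟨1, 4, 6, 2⟩, ⟨0, 0, 0, 0⟩, 1477⟩,
   ⟨11, 1, ⟨1, 8, 5, 7⟩, ⟨0, 0, 0, 0⟩, 1477⟩,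
   ⟨11, 1, ⟨1, 8, 6, 4⟩, ⟨0, 0, 0, 0⟩, 1477⟩]
def fm35 : Fm :=
  (.and (.lit 0) (.and (.lit 1) (.or (.lit 2) (.or (.lit 3) (.or (.lit 4) (.lit 5))))))
def Nmax35 : ℤ := 0

/-! ### field 37 -/

/-- images of the generators under the four automorphisms -/
def gal37 : Fin 4 → Q P37 × Q P37 :=
  ![(⟨0, 1, 0, 0⟩, ⟨0, 0, 1, 0⟩),
    (⟨0, 1, 0, 0⟩, ⟨0, 0, -1, 0⟩),
    (⟨1, -1, 0, 0⟩, ⟨0, 0, -3, 1⟩),
    (⟨1, -1, 0, 0⟩, ⟨0, 0, 3, -1⟩)]
lemma rel37 (i : Fin 4) : Q.Rel P37 (gal37 i).1 (gal37 i).2 := by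
  fin_cases i <;> exact ⟨by decide, by decide⟩
def tau37 (i : Fin 4) : Q P37 →+* Q P37 := Q.lift _ _ (rel37 i)
def M37 : Fin 4 → Fin 4 → ℤ :=
  ![![1099511627776, 3069053444772, 2406722166770, 6717854336361],
    ![1099511627776, 3069053444772, -2406722166770, -6717854336361],
    ![1099511627776, -1969541816996, -502312163949, 899785674922],
    ![1099511627776, -1969541816996, 502312163949, -899785674922]]
/-- odd part of the denominator -/
def t37 : Q P37 := ⟨-1, 0, -1, 0⟩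
/-- conditions: 0 odd N=4, 1 av N=3, 2 av N=3 -/
def Ls37 : List (Lit P37) :=
  [⟨2, 2, ⟨1, 0, 1, 1⟩, ⟨0, 1, 1, 0⟩, 14⟩,
   ⟨3, 3, ⟨1, 0, 0, 2⟩, ⟨0, 1, 1, 1⟩, 141⟩,
   ⟨3, 3, ⟨1, 0, 0, 1⟩, ⟨0, 1, 2, 2⟩, 141⟩]
def fm37 : Fm :=
  (.and (.lit 0) (.and (.lit 1) (.lit 2)))
def Nmax37 : ℤ := 0

/-! ### field 27 -/

/-- images of the generators under the four automorphisms -/
def gal27 : Fin 4 → Q P27 × Q P27 :=
  ![(⟨0, 1, 0, 0⟩, ⟨0, 0, 1, 0⟩),
    (⟨0, 1, 0, 0⟩, ⟨0, 1, -1, 0⟩),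
    (⟨0, -1, 0, 0⟩, ⟨0, 0, -1, 0⟩),
    (⟨0, -1, 0, 0⟩, ⟨0, -1, 1, 0⟩)]
lemma rel27 (i : Fin 4) : Q.Rel P27 (gal27 i).1 (gal27 i).2 := by
  fin_cases i <;> exact ⟨by decide, by decide⟩
def tau27 (i : Fin 4) : Q P27 →+* Q P27 := Q.lift _ _ (rel27 i)
def M27 : Fin 4 → Fin 4 → ℤ :=
  ![![1099511627776, 1554944255988, 2834470029950, 4008545958495],
    ![1099511627776, 1554944255988, -1279525773962, -1809522702943],
    ![1099511627776, -1554944255988, -2834470029950, 4008545958495],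
    ![1099511627776, -1554944255988, 1279525773962, -1809522702943]]
/-- odd part of the denominator -/
def t27 : Q P27 := ⟨-2, 0, -1, 0⟩
/-- conditions: 0 odd N=2, 1 a N=7, 2 a N=7, 3 a N=9, 4 a N=9, 5 ar N=7, 6 ar N=7, 7 ar N=9, 8 ar N=9 -/
def Ls27 : List (Lit P27) :=
  [⟨2, 1, ⟨1, 0, 1, 0⟩, ⟨0, 0, 0, 0⟩, 2⟩,
   ⟨7, 1, ⟨1, 3, 5, 1⟩, ⟨0, 0, 0, 0⟩, 104⟩,
   ⟨7, 1, ⟨1, 4, 2, 1⟩, ⟨0, 0, 0, 0⟩, 104⟩,
   ⟨3, 3, ⟨1, 0, 0, 0⟩, ⟨0, 1, 0, 0⟩, 78⟩,
   ⟨3, 3, ⟨1, 0, 0, 2⟩, ⟨0, 1, 1, 0⟩, 78⟩,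
   ⟨7, 1, ⟨1, 3, 5, 1⟩, ⟨0, 0, 0, 0⟩, 105⟩,
   ⟨7, 1, ⟨1, 4, 2, 1⟩, ⟨0, 0, 0, 0⟩, 105⟩,
   ⟨3, 3, ⟨1, 0, 0, 0⟩, ⟨0, 1, 0, 0⟩, 79⟩,
   ⟨3, 3, ⟨1, 0, 0, 2⟩, ⟨0, 1, 1, 0⟩, 79⟩]
def fm27 : Fm :=
  (.and (.lit 0) (.or (.and (.or (.and (.lit 5) (.lit 2)) (.and (.lit 1) (.lit 6))) (.and (.lit 3) (.lit 4))) (.and (.lit 1) (.and (.lit 2) (.or (.and (.lit 7) (.lit 4)) (.and (.lit 3) (.lit 8)))))))
def Nmax27 : ℤ := 4489

/-! ### field 56 -/

/-- images of the generators under the four automorphisms -/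
def gal56 : Fin 4 → Q P56 × Q P56 :=
  ![(⟨0, 1, 0, 0⟩, ⟨0, 0, 1, 0⟩),
    (⟨0, 1, 0, 0⟩, ⟨0, 0, -1, 0⟩),
    (⟨1, -1, 0, 0⟩, ⟨0, 0, 1, 0⟩),
    (⟨1, -1, 0, 0⟩, ⟨0, 0, -1, 0⟩)]
lemma rel56 (i : Fin 4) : Q.Rel P56 (gal56 i).1 (gal56 i).2 := by
  fin_cases i <;> exact ⟨by decide, by decide⟩
def tau56 (i : Fin 4) : Q P56 →+* Q P56 := Q.lift _ _ (rel56 i)
def M56 : Fin 4 → Fin 4 → ℤ :=
  ![![1099511627776, 1779047184767, 2693242454308, 4357757831015],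
    ![1099511627776, 1779047184767, -2693242454308, -4357757831015],
    ![1099511627776, -679535556991, 2693242454308, -1664515376707],
    ![1099511627776, -679535556991, -2693242454308, 1664515376707]]
/-- odd part of the denominator -/
def t56 : Q P56 := ⟨-1, -1, -1, 0⟩
/-- conditions: 0 odd N=4, 1 a N=5, 2 a N=5, 3 ar N=5, 4 ar N=5, 5 a N=9, 6 a N=19, 7 a N=19, 8 a N=19, 9 a N=19 -/
def Ls56 : List (Lit P56) :=
  [⟨2, 2, ⟨1, 0, 0, 0⟩, ⟨0, 1, 0, 0⟩, 14⟩,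
   ⟨5, 1, ⟨1, 3, 1, 3⟩, ⟨0, 0, 0, 0⟩, 18⟩,
   ⟨5, 1, ⟨1, 3, 4, 2⟩, ⟨0, 0, 0, 0⟩, 18⟩,
   ⟨5, 1, ⟨1, 3, 1, 3⟩, ⟨0, 0, 0, 0⟩, 19⟩,
   ⟨5, 1, ⟨1, 3, 4, 2⟩, ⟨0, 0, 0, 0⟩, 19⟩,
   ⟨3, 3, ⟨1, 0, 0, 0⟩, ⟨0, 1, 0, 0⟩, 278⟩,
   ⟨19, 1, ⟨1, 15, 5, 18⟩, ⟨0, 0, 0, 0⟩, 324876⟩,
   ⟨19, 1, ⟨1, 15, 14, 1⟩, ⟨0, 0, 0, 0⟩, 324876⟩,
   ⟨19, 1, ⟨1, 5, 5, 6⟩, ⟨0, 0, 0, 0⟩, 324876⟩,
   ⟨19, 1, ⟨1, 5, 14, 13⟩, ⟨0, 0, 0, 0⟩, 324876⟩]
def fm56 : Fm :=
  (.and (.lit 0) (.and (.lit 5) (.or (.and (.lit 3) (.and (.lit 2) (.or (.lit 6) (.lit 8)))) (.and (.lit 1) (.and (.lit 4) (.or (.lit 7) (.lit 9)))))))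
def Nmax56 : ℤ := 13945

/-! ### field 57 -/

/-- images of the generators under the four automorphisms -/
def gal57 : Fin 4 → Q P57 × Q P57 :=
  ![(⟨0, 1, 0, 0⟩, ⟨0, 0, 1, 0⟩),
    (⟨0, 1, 0, 0⟩, ⟨0, 0, -1, 0⟩),
    (⟨1, -1, 0, 0⟩, ⟨0, 0, 1, 0⟩),
    (⟨1, -1, 0, 0⟩, ⟨0, 0, -1, 0⟩)]
lemma rel57 (i : Fin 4) : Q.Rel P57 (gal57 i).1 (gal57 i).2 := by
  fin_cases i <;> exact ⟨by decide, by decide⟩
def tau57 (i : Fin 4) : Q P57 →+* Q P57 := Q.lift _ _ (rel57 i)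
def M57 : Fin 4 → Fin 4 → ℤ :=
  ![![1099511627776, 1779047184767, 2909034330719, 4706916421544],
    ![1099511627776, 1779047184767, -2909034330719, -4706916421544],
    ![1099511627776, -679535556991, 2909034330719, -1797882090825],
    ![1099511627776, -679535556991, -2909034330719, 1797882090825]]
/-- odd part of the denominator -/
def t57 : Q P57 := ⟨-2, 0, 0, -1⟩
/-- conditions: 0 odd N=4, 1 a N=9, 2 a N=9, 3 a N=29, 4 a N=29, 5 a N=29, 6 a N=29, 7 ar N=19, 8 ar N=19, 9 ar N=19, 10 ar N=19 -/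
def Ls57 : List (Lit P57) :=
  [⟨2, 2, ⟨1, 0, 1, 0⟩, ⟨0, 1, 0, 1⟩, 14⟩,
   ⟨3, 3, ⟨1, 0, 1, 0⟩, ⟨0, 1, 0, 1⟩, 278⟩,
   ⟨3, 3, ⟨1, 0, 2, 0⟩, ⟨0, 1, 0, 2⟩, 278⟩,
   ⟨29, 1, ⟨1, 24, 6, 28⟩, ⟨0, 0, 0, 0⟩, 332473074⟩,
   ⟨29, 1, ⟨1, 24, 23, 1⟩, ⟨0, 0, 0, 0⟩, 332473074⟩,
   ⟨29, 1, ⟨1, 6, 6, 7⟩, ⟨0, 0, 0, 0⟩, 332473074⟩,
   ⟨29, 1, ⟨1, 6, 23, 22⟩, ⟨0, 0, 0, 0⟩, 332473074⟩,
   ⟨19, 1, ⟨1, 5, 11, 17⟩, ⟨0, 0, 0, 0⟩, 324877⟩,
   ⟨19, 1, ⟨1, 5, 8, 2⟩, ⟨0, 0, 0, 0⟩, 324877⟩,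
   ⟨19, 1, ⟨1, 15, 11, 13⟩, ⟨0, 0, 0, 0⟩, 324877⟩,
   ⟨19, 1, ⟨1, 15, 8, 6⟩, ⟨0, 0, 0, 0⟩, 324877⟩]
def fm57 : Fm :=
  (.and (.lit 0) (.and (.lit 1) (.and (.lit 2) (.and (.or (.and (.lit 3) (.lit 4)) (.and (.lit 5) (.lit 6))) (.or (.lit 7) (.or (.lit 8) (.or (.lit 9) (.lit 10))))))))
def Nmax57 : ℤ := 35449

end Pool.Agent.Lib.MP_aed2da_nt
end

-- part Pool.Agent.Lib.MP_aed2da_nt.Clear
section

/-!
Clearing denominators in sums of three squares away from `s`, with a primitive version, and a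
kernel checker for the hypothesis on small primes.
-/

open Quaternion

namespace Pool.Agent.Lib.MP_aed2da_nt
namespace Clr
open QPID

/-- the standard basis of the quaternions -/
def bs (R : Type*) [CommRing R] (i : Fin 4) : ℍ[R] :=
  ⟨if i = 0 then 1 else 0, if i = 1 then 1 else 0, if i = 2 then 1 else 0, if i = 3 then 1 else 0⟩

section
variable {R S : Type*} [CommRing R] [CommRing S]

@[simp] lemma bs_re (i : Fin 4) : (bs R i).re = if i = 0 then 1 else 0 := rfl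
@[simp] lemma bs_imI (i : Fin 4) : (bs R i).imI = if i = 1 then 1 else 0 := rfl
@[simp] lemma bs_imJ (i : Fin 4) : (bs R i).imJ = if i = 2 then 1 else 0 := rfl
@[simp] lemma bs_imK (i : Fin 4) : (bs R i).imK = if i = 3 then 1 else 0 := rfl

lemma normSq_bs (i : Fin 4) : normSq (bs R i) = 1 := by
  fin_cases i <;> simp [normSq_def']

lemma qmap_bs (f : R →+* S) (i : Fin 4) : qmap f (bs R i) = bs S i := by
  fin_cases i <;> ext <;> simp

lemma eq_bs (a : ℍ[R]) :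
    a = a.re • bs R 0 + a.imI • bs R 1 + a.imJ • bs R 2 + a.imK • bs R 3 := by
  ext <;> simp

end

section Fld
variable {F : Type*} [Field F]

lemma exists_bs (h2 : (2 : F) ≠ 0) {x y : ℍ[F]} (hx : x ≠ 0) (hy : y ≠ 0) :
    ∃ i, x * bs F i * y ≠ 0 := by
  by_contra h
  push Not at h
  obtain ⟨a, ha⟩ := exists_mul_mul_ne_zero h2 hx hy
  apply ha
  rw [eq_bs a]
  simp only [mul_add, add_mul, mul_smul_comm, smul_mul_assoc, h, smul_zero, add_zero]

lemma dep3 (h2 : (2 : F) ≠ 0) {q : ℍ[F]} (hq0 : q ≠ 0) (hq : normSq q = 0) (u v w : ℍ[F]) :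
    ∃ a b c : F, a • (u * q) + b • (v * q) + c • (w * q) = 0 ∧ ¬ (a = 0 ∧ b = 0 ∧ c = 0) := by
  let f : ℍ[F] →ₗ[F] ℍ[F] := LinearMap.mulRight F (star q)
  have hrank : Module.finrank F (LinearMap.ker f) ≤ 2 := by
    obtain ⟨e, he⟩ := indep_left h2 (x := star q) (by simpa using hq0)
    have h1 := LinearMap.finrank_range_add_finrank_ker f
    rw [Quaternion.finrank_eq_four] at h1
    let v : Fin 2 → LinearMap.range f := ![⟨star q, 1, by simp [f]⟩, ⟨e * star q, e, by simp [f]⟩]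
    have hv : LinearIndependent F v := by
      rw [LinearIndependent.pair_iff]
      intro a b hab
      exact he a b (congrArg Subtype.val hab)
    have h3 := hv.fintype_card_le_finrank
    simp only [Fintype.card_fin] at h3
    omega
  have hmem : ∀ w : ℍ[F], w * q ∈ LinearMap.ker f := by
    intro w
    simp [f, mul_assoc, self_mul_star, hq]
  let t : Fin 3 → LinearMap.ker f := ![⟨u * q, hmem u⟩, ⟨v * q, hmem v⟩, ⟨w * q, hmem w⟩]
  have ht : ¬ LinearIndependent F t := by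
    intro h
    have h3 := h.fintype_card_le_finrank
    simp only [Fintype.card_fin] at h3
    omega
  obtain ⟨g, hg, i, hi⟩ := Fintype.not_linearIndependent_iff.1 ht
  refine ⟨g 0, g 1, g 2, ?_, ?_⟩
  · have := congrArg Subtype.val hg
    simpa [Fin.sum_univ_three, t] using this
  · rintro ⟨h0, h1, h3⟩
    fin_cases i <;> simp_all

lemma unip (h2 : (2 : F) ≠ 0) {q v x : ℍ[F]} (hq0 : q ≠ 0) (hq : normSq q = 0) (hv0 : v ≠ 0)
    (hv : v * v = 0) (hx : x ≠ 0) : ∃ (i j : Fin 4) (r : F) (a : ℍ[F]),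
      star (bs F i) * (1 + r • v) * bs F j * q = x * a := by
  obtain ⟨j, hj⟩ := exists_bs h2 hv0 hq0
  obtain ⟨a, ha⟩ := exists_mul_mul_ne_zero h2 hx hq0
  obtain ⟨i, hi⟩ := exists_bs h2 hv0 ha
  obtain ⟨α, β, γ, h, hne⟩ := dep3 h2 hq0 hq (bs F i * x * a) (bs F j) (v * bs F j)
  have h1 : α • (v * bs F i * (x * a * q)) + β • (v * bs F j * q) = 0 := by
    have := congrArg (v * ·) h
    simp only [mul_add, mul_smul_comm, mul_zero, ← mul_assoc, hv, zero_mul, smul_zero,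
      add_zero] at this
    simpa only [← mul_assoc] using this
  have hβ : β ≠ 0 := by
    rintro rfl
    rw [zero_smul, add_zero] at h1
    have hα := (smul_eq_zero.1 h1).resolve_right hi
    subst hα
    simp only [zero_smul, zero_add] at h
    exact hne ⟨rfl, rfl, (smul_eq_zero.1 h).resolve_right hj⟩
  refine ⟨i, j, β⁻¹ * γ, -(β⁻¹ * α) • (a * q), ?_⟩
  have h3 : (1 + (β⁻¹ * γ) • v) * bs F j * q = -(β⁻¹ * α) • (bs F i * x * a * q) := by
    have h4 : β • (bs F j * q) + γ • (v * bs F j * q) = -(α • (bs F i * x * a * q)) := by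
      rw [eq_neg_iff_add_eq_zero, ← h]; abel
    calc (1 + (β⁻¹ * γ) • v) * bs F j * q
        = β⁻¹ • (β • (bs F j * q) + γ • (v * bs F j * q)) := by
          rw [smul_add, smul_smul, smul_smul, inv_mul_cancel₀ hβ, one_smul, add_mul, add_mul,
            one_mul, smul_mul_assoc, smul_mul_assoc]
      _ = _ := by rw [h4, smul_neg, smul_smul, neg_smul]
  rw [mul_assoc (star _), mul_assoc (star _), h3, mul_smul_comm, mul_smul_comm, ← mul_assoc,
    ← mul_assoc, ← mul_assoc, star_mul_self, normSq_bs]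
  simp [mul_assoc]

lemma exists_iso (h2 : (2 : F) ≠ 0) {q V : ℍ[F]} (hq0 : q ≠ 0) (hq : normSq q = 0) (hV0 : V ≠ 0)
    (hV : star V = -V) : ∃ a : ℍ[F], star (a * q) * V * (a * q) ≠ 0 := by
  by_contra h
  push Not at h
  let G : ℍ[F] →ₗ[F] ℍ[F] :=
    { toFun := fun Y => star q * (Y - star Y) * q
      map_add' := fun a b => by simp only [star_add]; noncomm_ring
      map_smul' := fun c a => by
        simp only [Quaternion.star_smul, ← smul_sub, mul_smul_comm, smul_mul_assoc,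
          RingHom.id_apply] }
  have h1 : ∀ a b : ℍ[F], G (a * V * b) = 0 := by
    intro a b
    have e1 := h (star a + b)
    have e2 := h (star a)
    have e3 := h b
    change star q * (a * V * b - star (a * V * b)) * q = 0
    simp only [star_mul, star_add, star_star, hV] at e1 e2 e3 ⊢
    have : star q * (a * V * b - star b * (-V * star a)) * q =
        star q * (a + star b) * V * ((star a + b) * q) - star q * a * V * (star a * q) -
          star q * star b * V * (b * q) := by noncomm_ring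
    rw [this, e1, e2, e3]; simp
  have h3 : ∀ w : ℍ[F], ((4 * w.re : F) : ℍ[F]) =
      w - bs F 1 * w * bs F 1 - bs F 2 * w * bs F 2 - bs F 3 * w * bs F 3 := by
    intro w
    ext <;> simp
    ring
  have h4 : ∀ e Y : ℍ[F], (4 * (V * e).re) • G Y = 0 := by
    intro e Y
    have e1 : ∀ c : ℍ[F], G (Y * (c * (V * e) * c)) = 0 := fun c => by
      rw [show Y * (c * (V * e) * c) = (Y * c) * V * (e * c) by noncomm_ring, h1]
    rw [← map_smul, ← mul_coe_eq_smul, h3, mul_sub, mul_sub, mul_sub, map_sub, map_sub, map_sub,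
      e1, e1, e1, ← mul_assoc, h1]
    simp
  have h44 : (4 : F) ≠ 0 := by
    rw [show (4 : F) = 2 * 2 by norm_num]; exact mul_ne_zero h2 h2
  have h5 : ∀ Y, G Y = 0 := by
    intro Y
    by_contra hY
    have key : ∀ e : ℍ[F], (V * e).re = 0 := fun e =>
      (mul_eq_zero.1 ((smul_eq_zero.1 (h4 e Y)).resolve_right hY)).resolve_left h44
    apply hV0
    have a0 := key (bs F 0)
    have a1 := key (bs F 1)
    have a2 := key (bs F 2)
    have a3 := key (bs F 3)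
    simp at a0 a1 a2 a3
    ext <;> simp [*]
  obtain ⟨Y, hY⟩ := exists_mul_mul_ne_zero h2 (x := star q) (by simpa using hq0) hq0
  apply hY
  have e1 : star q * (Y - star Y) * q = 0 := h5 Y
  have e2 : star q * (Y + star Y) * q = 0 := by
    rw [self_add_star', mul_coe_eq_smul, smul_mul_assoc, star_mul_self, hq]; simp
  have e3 : (2 : F) • (star q * Y * q) = 0 := by
    rw [two_smul, ← add_zero (0 : ℍ[F])]
    nth_rewrite 1 [← e1]
    rw [← e2]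
    noncomm_ring
  exact (smul_eq_zero.1 e3).resolve_left h2

end Fld

section Main
variable {O : Type*} [CommRing O]

/-- every right ideal of norm `p` becomes principal after inverting `s` -/
def Hp (s p : O) : Prop := ∀ x : ℍ[O], (¬ ∃ u : ℍ[O], x = p • u) →
  ∃ (g a u : ℍ[O]) (c : O) (k : ℕ), normSq g = p * c ∧ c ∣ s ^ k ∧ g = x * a + p • u

variable {F : Type*} [Field F] (π : O →+* F)

/-- the unipotent elements `1 + r v` that come from quaternions whose norm divides a power of `s` -/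
def RS (s : O) {v : ℍ[F]} (hv : v * v = 0) (hst : star v = -v) : AddSubgroup F where
  carrier := {r | ∃ (γ : ℍ[O]) (k : ℕ) (a : F), normSq γ ∣ s ^ k ∧ qmap π γ = a • (1 + r • v)}
  zero_mem' := ⟨1, 0, 1, by simp, by simp⟩
  add_mem' := by
    rintro r t ⟨g, k, a, hg, ha⟩ ⟨h, l, b, hh, hb⟩
    refine ⟨g * h, k + l, a * b, ?_, ?_⟩
    · rw [map_mul, pow_add]
      exact mul_dvd_mul hg hh
    · rw [map_mul, ha, hb, smul_mul_smul_comm]
      simp only [mul_add, add_mul, mul_one, one_mul, smul_mul_smul_comm, hv, smul_zero, add_zero,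
        add_smul, add_assoc]
  neg_mem' := by
    rintro r ⟨g, k, a, hg, ha⟩
    refine ⟨star g, k, a, by rwa [normSq_star], ?_⟩
    rw [qmap_star, ha, Quaternion.star_smul, star_add, star_one, Quaternion.star_smul, hst,
      smul_neg, neg_smul]

lemma mem_RS {s : O} (hs2 : (2 : O) ∣ s) (h2 : (2 : F) ≠ 0) {v : ℍ[F]} (hv : v * v = 0)
    (hst : star v = -v) (f : ℕ) (b x y z : O) (hb : π b = 0)
    (hn : x ^ 2 + y ^ 2 + z ^ 2 + b ^ 2 = 2 ^ (f + 1) * b) (l : F) (h0 : v.re = 0)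
    (hx : π x = l * v.imI) (hy : π y = l * v.imJ) (hz : π z = l * v.imK) :
    l ∈ RS π s hv hst := by
  have hf : (2 : F) ^ f ≠ 0 := pow_ne_zero _ h2
  have h1 : ((2 : F) ^ f)⁻¹ * l ∈ RS π s hv hst := by
    let γ : ℍ[O] := ⟨2 ^ f - b, x, y, z⟩
    refine ⟨γ, 2 * f, 2 ^ f, ?_, ?_⟩
    · have : normSq γ = 2 ^ (2 * f) := by
        rw [normSq_def']
        change (2 ^ f - b) ^ 2 + x ^ 2 + y ^ 2 + z ^ 2 = _
        linear_combination hn
      rw [this]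
      exact pow_dvd_pow_of_dvd hs2 _
    · rw [smul_add, smul_smul, ← mul_assoc, mul_inv_cancel₀ hf, one_mul]
      ext
      · change π (2 ^ f - b) = _
        simp [hb, h0, map_ofNat]
      · change π x = _
        simp [hx]
      · change π y = _
        simp [hy]
      · change π z = _
        simp [hz]
  have h3 := nsmul_mem h1 (2 ^ f)
  rwa [nsmul_eq_mul, Nat.cast_pow, Nat.cast_ofNat, ← mul_assoc, mul_inv_cancel₀ hf, one_mul] at h3

lemma Hp_of [IsDomain O] {s p : O} (hp0 : p ≠ 0) (hπ : ∀ a, π a = 0 ↔ p ∣ a)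
    (hπs : Function.Surjective π) (h2 : (2 : F) ≠ 0) (hps : ¬ p ∣ s) {q : ℍ[O]} {c : O} {k : ℕ}
    (hq : normSq q = p * c) (hc : c ∣ s ^ k) {v : ℍ[F]} (hv0 : v ≠ 0) (hv : v * v = 0)
    (hst : star v = -v) (hR : ∀ r, r ∈ RS π s hv hst) : Hp s p := by
  intro x hx
  have hx0 : qmap π x ≠ 0 := fun h => hx ((qmap_eq_zero π hπ x).1 h)
  have hq0 : qmap π q ≠ 0 := by
    intro h
    obtain ⟨u, rfl⟩ := (qmap_eq_zero π hπ q).1 h
    rw [normSq_smul, sq, mul_assoc] at hq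
    have h1 : π (s ^ k) = 0 := (hπ _).2 (Dvd.dvd.trans ⟨_, (mul_left_cancel₀ hp0 hq).symm⟩ hc)
    rw [map_pow] at h1
    exact hps ((hπ _).1 (pow_eq_zero_iff'.1 h1).1)
  obtain ⟨i, j, r, a, h⟩ := unip h2 hq0
    (by rw [normSq_qmap, hπ, hq]; exact dvd_mul_right _ _) hv0 hv hx0
  obtain ⟨γ, l, b, hγ, hb⟩ := hR r
  obtain ⟨A, hA⟩ := qmap_surj π hπs (b • a)
  have h1 : qmap π (star (bs O i) * γ * bs O j * q - x * A) = 0 := by
    rw [map_sub, map_mul, map_mul, map_mul, map_mul, qmap_star, qmap_bs, qmap_bs, hb, hA,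
      mul_smul_comm, smul_mul_assoc, smul_mul_assoc, h, mul_smul_comm, sub_self]
  obtain ⟨u, hu⟩ := (qmap_eq_zero π hπ _).1 h1
  refine ⟨star (bs O i) * γ * bs O j * q, A, u, normSq γ * c, l + k, ?_, ?_, ?_⟩
  · rw [map_mul, map_mul, map_mul, normSq_star, normSq_bs, normSq_bs, hq]; ring
  · rw [pow_add]
    exact mul_dvd_mul hγ hc
  · rw [← hu]; abel

variable {K : Type*} [Field K] [Algebra O K] {s : O}
variable [IsDomain O] [IsPrincipalIdealRing O] [Module.Free ℤ O] [Module.Finite ℤ O]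
  [IsFractionRing O K]

omit [Module.Finite ℤ O] in
lemma step (hs2 : (2 : O) ∣ s) (C : ℕ)
    (hprime : ∀ p : O, Prime p → ¬ p ∣ s → Ideal.absNorm (Ideal.span {p}) ≤ C → Hp s p)
    (hs0 : s ≠ 0) {J : AddSubgroup ℍ[K]} (hAJ : (AR K s).toAddSubgroup ≤ J)
    (hJ : ∀ z ∈ J, ∀ a ∈ AR K s, z * a ∈ J)
    (h0 : (AR K s).toAddSubgroup.relIndex J ≠ 0) (hC : (AR K s).toAddSubgroup.relIndex J ≤ C ^ 2)
    {z : ℍ[K]} (hz : z ∈ J) (hzA : z ∉ AR K s) :
    ∃ g : ℍ[K]ˣ, (g : ℍ[K]) ∈ J ∧ (g : ℍ[K]) ∉ AR K s ∧ ((g⁻¹ : ℍ[K]ˣ) : ℍ[K]) ∈ AR K s := by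
  have hsm : ∀ (c : O) (z : ℍ[K]), z ∈ J → algebraMap O K c • z ∈ J := by
    intro c z hz
    rw [← mul_coe_eq_smul, ← qmap_coe]
    exact hJ z hz _ (qmap_mem _)
  have hne : ∀ c : O, c ≠ 0 → algebraMap O K c ≠ 0 := fun c hc h0 =>
    hc (IsFractionRing.injective O K (h0.trans (map_zero _).symm))
  obtain ⟨p, w, x, hp, hps, hw, hwx, hx⟩ := exists_prime_denom hJ hz hzA
  have hp0 := hne p hp.ne_zero
  -- a common ending
  have fin : ∀ (y : ℍ[O]) (c : O) (k : ℕ), normSq y = p * c → c ∣ s ^ k →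
      (¬ ∃ u : ℍ[O], y = p • u) → (algebraMap O K p)⁻¹ • qmap (algebraMap O K) y ∈ J →
      ∃ g : ℍ[K]ˣ, (g : ℍ[K]) ∈ J ∧ (g : ℍ[K]) ∉ AR K s ∧ ((g⁻¹ : ℍ[K]ˣ) : ℍ[K]) ∈ AR K s := by
    intro y c k hy hc hyp hyJ
    have hc0 : c ≠ 0 := by
      rintro rfl
      exact pow_ne_zero k hs0 (zero_dvd_iff.1 hc)
    have hc0' := hne c hc0
    have hy0 : algebraMap O K (normSq y) ≠ 0 := by
      apply hne
      rw [hy]
      exact mul_ne_zero hp.ne_zero hc0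
    have hn : normSq ((algebraMap O K p)⁻¹ • qmap (algebraMap O K) y) =
        (algebraMap O K p)⁻¹ ^ 2 * algebraMap O K (normSq y) := by
      rw [normSq_smul, normSq_qmap]
    refine ⟨mkUnit ((algebraMap O K p)⁻¹ • qmap (algebraMap O K) y)
      (by rw [hn]; exact mul_ne_zero (pow_ne_zero _ (inv_ne_zero hp0)) hy0), hyJ, ?_, ?_⟩
    · intro hA
      refine hyp (dvd_of_mem hp hps ?_ hA)
      change algebraMap O K p • ((algebraMap O K p)⁻¹ • qmap (algebraMap O K) y) = _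
      rw [smul_smul, mul_inv_cancel₀ hp0, one_smul]
    · change (normSq ((algebraMap O K p)⁻¹ • qmap (algebraMap O K) y))⁻¹ •
        star ((algebraMap O K p)⁻¹ • qmap (algebraMap O K) y) ∈ _
      refine of_smul_mem hc ?_
      rw [hn, Quaternion.star_smul, smul_smul, smul_smul, ← qmap_star]
      have : algebraMap O K c * ((algebraMap O K p)⁻¹ ^ 2 * algebraMap O K (normSq y))⁻¹ *
          (algebraMap O K p)⁻¹ = 1 := by
        rw [hy, map_mul]; field_simp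
      rw [this, one_smul]
      exact qmap_mem _
  have hw' : w = (algebraMap O K p)⁻¹ • qmap (algebraMap O K) x := by
    rw [← hwx, smul_smul, inv_mul_cancel₀ hp0, one_smul]
  have hmax : (Ideal.span {p}).IsMaximal :=
    PrincipalIdealRing.isMaximal_of_irreducible hp.irreducible
  let F := O ⧸ Ideal.span {p}
  let _ : Field F := Ideal.Quotient.field _
  let π : O →+* F := Ideal.Quotient.mk _
  have hπ : ∀ a, π a = 0 ↔ p ∣ a := fun a =>
    Ideal.Quotient.eq_zero_iff_mem.trans Ideal.mem_span_singleton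
  have hπs : Function.Surjective π := Ideal.Quotient.mk_surjective
  have h2 : (2 : F) ≠ 0 := by
    intro h
    exact hps (((hπ 2).1 (by rw [map_ofNat]; exact h)).trans hs2)
  have hx0 : qmap π x ≠ 0 := fun h => hx ((qmap_eq_zero π hπ x).1 h)
  -- the norm of p is small
  have hNC : Ideal.absNorm (Ideal.span {p}) ≤ C := by
    obtain ⟨e, he⟩ := indep_right h2 hx0
    obtain ⟨e, rfl⟩ := qmap_surj π hπs e
    let ψ : O × O →+ ℍ[K] :=
      { toFun := fun ab => algebraMap O K ab.1 • w +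
          algebraMap O K ab.2 • (w * qmap (algebraMap O K) e)
        map_zero' := by simp
        map_add' := by
          intro a b
          simp only [Prod.fst_add, Prod.snd_add, map_add, add_smul]
          abel }
    have hψJ : ψ.range ≤ J := by
      rintro _ ⟨ab, rfl⟩
      exact add_mem (hsm _ _ hw) (hsm _ _ (hJ w hw _ (qmap_mem e)))
    have h3 := AddSubgroup.relIndex_le_of_le_right hψJ h0
    have h4 : (AR K s).toAddSubgroup.relIndex ψ.range ≠ 0 := fun h =>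
      h0 (AddSubgroup.relIndex_eq_zero_of_le_right hψJ h)
    rw [← AddSubgroup.index_comap] at h3 h4
    have h5 : (AR K s).toAddSubgroup.comap ψ ≤
        (Ideal.span {p}).toAddSubgroup.prod (Ideal.span {p}).toAddSubgroup := by
      rintro ⟨a, b⟩ hab
      have h6 : algebraMap O K p • ψ (a, b) = qmap (algebraMap O K) (a • x + b • (x * e)) := by
        change algebraMap O K p • (algebraMap O K a • w +
          algebraMap O K b • (w * qmap (algebraMap O K) e)) = _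
        rw [map_add, qmap_smul, qmap_smul, map_mul, ← hwx, smul_add, smul_mul_assoc,
          smul_comm _ (algebraMap O K a), smul_comm _ (algebraMap O K b)]
      have h7 := (qmap_eq_zero π hπ _).2 (dvd_of_mem hp hps h6 hab)
      rw [map_add, qmap_smul, qmap_smul, map_mul] at h7
      obtain ⟨ha, hb⟩ := he _ _ h7
      exact ⟨Ideal.Quotient.eq_zero_iff_mem.1 ha, Ideal.Quotient.eq_zero_iff_mem.1 hb⟩
    have h8 := Nat.le_of_dvd (Nat.pos_of_ne_zero h4) (AddSubgroup.index_dvd_of_le h5)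
    rw [AddSubgroup.index_prod] at h8
    have h9 : Ideal.absNorm (Ideal.span {p}) ^ 2 ≤ C ^ 2 := by
      rw [sq]
      exact (h8.trans h3).trans hC
    exact (Nat.pow_le_pow_iff_left (by norm_num)).1 h9
  obtain ⟨g, a, u, c, k, hg, hc, hu⟩ := hprime p hp hps hNC x hx
  refine fin g c k hg hc ?_ ?_
  · rintro ⟨u, rfl⟩
    rw [normSq_smul, sq, mul_assoc] at hg
    exact hps (hp.dvd_of_dvd_pow (Dvd.dvd.trans ⟨_, (mul_left_cancel₀ hp.ne_zero hg).symm⟩ hc))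
  · rw [hu, map_add, smul_add, qmap_smul, smul_smul, inv_mul_cancel₀ hp0,
      one_smul, map_mul, ← smul_mul_assoc, ← hw']
    exact add_mem (hJ w hw _ (qmap_mem a)) (hAJ (qmap_mem u))

omit [Module.Finite ℤ O] in
lemma principal (hs2 : (2 : O) ∣ s) (C : ℕ)
    (hprime : ∀ p : O, Prime p → ¬ p ∣ s → Ideal.absNorm (Ideal.span {p}) ≤ C → Hp s p)
    (hs0 : s ≠ 0) (n : ℕ) : ∀ J : AddSubgroup ℍ[K], (AR K s).toAddSubgroup ≤ J →
      (∀ z ∈ J, ∀ a ∈ AR K s, z * a ∈ J) → (AR K s).toAddSubgroup.relIndex J = n → n ≠ 0 →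
      n ≤ C ^ 2 → ∃ g : ℍ[K]ˣ, J = L g (AR K s).toAddSubgroup := by
  induction n using Nat.strong_induction_on with
  | _ n ih =>
  intro J hAJ hJ hn h0 hC
  by_cases hle : J ≤ (AR K s).toAddSubgroup
  · exact ⟨1, by rw [Units.val_one, L_one]; exact le_antisymm hle hAJ⟩
  obtain ⟨z, hz, hzA⟩ := SetLike.not_le_iff_exists.1 hle
  obtain ⟨g, hgJ, hgA, hgi⟩ := step hs2 C hprime hs0 hAJ hJ (hn ▸ h0) (hn ▸ hC) hz hzA
  have h1 : (AR K s).toAddSubgroup ≤ L g (AR K s).toAddSubgroup := by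
    intro a ha
    exact ⟨(g⁻¹ : ℍ[K]ˣ) * a, (AR K s).mul_mem hgi ha, by simp⟩
  have h2 : L g (AR K s).toAddSubgroup ≤ J := by
    rintro _ ⟨a, ha, rfl⟩
    exact hJ _ hgJ a ha
  have h3 := AddSubgroup.relIndex_mul_relIndex _ _ _ h1 h2
  have h4 : (AR K s).toAddSubgroup.relIndex (L g (AR K s).toAddSubgroup) ≠ 1 := by
    rw [Ne, AddSubgroup.relIndex_eq_one]
    intro h
    exact hgA (h ⟨1, (AR K s).one_mem, mul_one _⟩)
  have h5 : (AR K s).toAddSubgroup.relIndex (L (g⁻¹ : ℍ[K]ˣ) J) =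
      (L g (AR K s).toAddSubgroup).relIndex J := by
    rw [← relIndex_L g, L_L, Units.mul_inv, L_one]
  rw [hn] at h3
  have h6 : (L g (AR K s).toAddSubgroup).relIndex J ≠ 0 := by
    intro h; rw [h, mul_zero] at h3; exact h0 h3.symm
  have h7 : (AR K s).toAddSubgroup.relIndex (L g (AR K s).toAddSubgroup) ≠ 0 := by
    intro h; rw [h, zero_mul] at h3; exact h0 h3.symm
  have h8 : (L g (AR K s).toAddSubgroup).relIndex J < n := by
    rw [← h3]
    exact lt_mul_of_one_lt_left (Nat.pos_of_ne_zero h6) (by omega)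
  obtain ⟨g', hg'⟩ := ih _ h8 (L (g⁻¹ : ℍ[K]ˣ) J) (by
      have := L_mono ((g⁻¹ : ℍ[K]ˣ) : ℍ[K]) h2
      rwa [L_L, Units.inv_mul, L_one] at this)
    (by
      rintro _ ⟨w, hw, rfl⟩ a ha
      exact ⟨w * a, hJ w hw a ha, (mul_assoc _ _ _).symm⟩) h5 h6 (by omega)
  refine ⟨g * g', ?_⟩
  rw [Units.val_mul, ← L_L, ← hg', L_L, Units.mul_inv, L_one]

theorem core (K : Type*) [Field K] [Algebra O K] [IsFractionRing O K]
    (τ : O →+* ℝ) (hτ : Function.Injective τ) (s : O) (hs0 : s ≠ 0) (hs2 : (2 : O) ∣ s)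
    (M : AddSubgroup ℍ[O]) (hM0 : M.index ≠ 0) (hM : ∀ y ∈ M, (4 : O) ∣ normSq y) (C : ℕ)
    (hMink : ∀ I : AddSubgroup ℍ[O], I ≤ M → I.index ≠ 0 → ∃ y ∈ I, y ≠ 0 ∧
      Ideal.absNorm (Ideal.span {normSq y}) ^ 2 ≤
        Ideal.absNorm (Ideal.span {(4 : O)}) ^ 2 * C ^ 2 * I.relIndex M)
    (hprime : ∀ p : O, Prime p → ¬ p ∣ s → Ideal.absNorm (Ideal.span {p}) ≤ C → Hp s p)
    (β t : O) (V : ℍ[O]) (ht : t ≠ 0) (hV0 : V.re = 0) (hVn : normSq V = t ^ 2 * β) :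
    ∃ (n : ℕ) (W : ℍ[O]), W.re = 0 ∧ normSq W = s ^ (2 * n) * β ∧
      ∀ l : O, Prime l → ¬ l ∣ s → (∃ u : ℍ[O], W = l • u) → ∃ u : ℍ[O], V = l • u := by
  have hne : ∀ c : O, c ≠ 0 → algebraMap O K c ≠ 0 := fun c hc h0 =>
    hc (IsFractionRing.injective O K (h0.trans (map_zero _).symm))
  have h2 : (2 : O) ≠ 0 := by
    rintro h
    rw [h, zero_dvd_iff] at hs2
    exact hs0 hs2
  obtain ⟨v, hV⟩ : ∃ v : ℍ[K], algebraMap O K t • v = qmap (algebraMap O K) V :=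
    ⟨(algebraMap O K t)⁻¹ • qmap (algebraMap O K) V, by
      rw [smul_smul, mul_inv_cancel₀ (hne t ht), one_smul]⟩
  have hv0 : v.re = 0 := by
    have := congrArg QuaternionAlgebra.re hV
    simpa [hV0, ht] using this
  have hvn : normSq v = algebraMap O K β := by
    have := congrArg normSq hV
    rw [normSq_smul, normSq_qmap, hVn, map_mul, map_pow] at this
    exact mul_left_cancel₀ (pow_ne_zero 2 (hne t ht)) this
  have hvv : v * v = -((algebraMap O K β : K) : ℍ[K]) := by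
    have hsv : star v = -v := by ext <;> simp [hv0]
    rw [← hvn, ← star_mul_self, hsv, neg_mul, neg_neg]
  set A := (AR K s).toAddSubgroup with hA
  set T : ℍ[K] := qmap (algebraMap O K) (t : ℍ[O]) with hT
  have hT' : ∀ a, T * a = algebraMap O K t • a := fun a => by
    rw [hT, qmap_coe, coe_mul_eq_smul]
  set J : AddSubgroup ℍ[K] := L T A ⊔ L (qmap (algebraMap O K) V) A with hJ
  have hJA : J ≤ A := by
    refine sup_le ?_ ?_ <;> rintro _ ⟨a, ha, rfl⟩ <;> exact (AR K s).mul_mem (qmap_mem _) ha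
  have hJr : ∀ w ∈ J, ∀ a ∈ AR K s, w * a ∈ J := by
    intro w hw a ha
    obtain ⟨_, ⟨b, hb, rfl⟩, _, ⟨c, hc, rfl⟩, rfl⟩ := AddSubgroup.mem_sup.1 hw
    rw [add_mul]
    exact add_mem (AddSubgroup.mem_sup_left ⟨b * a, (AR K s).mul_mem hb ha, (mul_assoc _ _ _).symm⟩)
      (AddSubgroup.mem_sup_right ⟨c * a, (AR K s).mul_mem hc ha, (mul_assoc _ _ _).symm⟩)
  have hJv : ∀ w ∈ J, v * w ∈ J := by
    intro w hw
    obtain ⟨_, ⟨b, hb, rfl⟩, _, ⟨c, hc, rfl⟩, rfl⟩ := AddSubgroup.mem_sup.1 hw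
    rw [mul_add]
    refine add_mem (AddSubgroup.mem_sup_right ⟨b, hb, ?_⟩)
      (AddSubgroup.mem_sup_left ⟨-(algebraMap O K β • c), neg_mem (smul_mem β hc), ?_⟩)
    · change qmap (algebraMap O K) V * b = v * (T * b)
      rw [← hV, hT', smul_mul_assoc, mul_smul_comm]
    · change T * _ = v * (qmap (algebraMap O K) V * c)
      rw [← hV, hT', smul_mul_assoc, mul_smul_comm, ← mul_assoc, hvv, neg_mul, coe_mul_eq_smul]
  have hN0 : ∀ c : O, c ≠ 0 → Ideal.absNorm (Ideal.span {c}) ≠ 0 := fun c hc => by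
    rw [Ne, Ideal.absNorm_eq_zero_iff, Ideal.span_singleton_eq_bot]
    exact hc
  have hn0 : J.relIndex A ≠ 0 := by
    have ht2 : normSq (t : ℍ[O]) ≠ 0 := by rw [normSq_coe]; exact pow_ne_zero _ ht
    have h3 := relIndex_dvd (K := K) (s := s) (t : ℍ[O]) ht2
    have h4 : (L T A).relIndex A ≠ 0 := ne_zero_of_dvd_ne_zero (pow_ne_zero _ (hN0 _ ht2)) h3
    exact fun h => h4 (AddSubgroup.relIndex_eq_zero_of_le_left le_sup_left h)
  have hrange : ∀ N : AddSubgroup ℍ[O], N.map (qmap (algebraMap O K)).toAddMonoidHom ≤ A := by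
    rintro N _ ⟨h, -, rfl⟩
    exact qmap_mem h
  set I := M ⊓ J.comap (qmap (algebraMap O K)).toAddMonoidHom with hI
  have hI0 : I.index ≠ 0 := by
    refine AddSubgroup.index_inf_ne_zero hM0 ?_
    rw [← AddSubgroup.relIndex_top_right, AddSubgroup.relIndex_comap]
    exact fun h => hn0 (AddSubgroup.relIndex_eq_zero_of_le_right (hrange _) h)
  have hI1 : I.relIndex M ≤ J.relIndex A := by
    rw [hI, AddSubgroup.inf_relIndex_left, AddSubgroup.relIndex_comap]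
    exact AddSubgroup.relIndex_le_of_le_right (hrange _) hn0
  obtain ⟨y₀, ⟨hyM, hyJ⟩, hy0, hy⟩ := hMink I inf_le_left hI0
  have hyn := normSq_ne_zero_of τ hτ hy0
  obtain ⟨ν, hν⟩ := hM y₀ hyM
  have hν0 : ν ≠ 0 := by rintro rfl; exact hyn (by simpa using hν)
  have hmul : Ideal.absNorm (Ideal.span {normSq y₀}) =
      Ideal.absNorm (Ideal.span {(4 : O)}) * Ideal.absNorm (Ideal.span {ν}) := by
    rw [hν, ← Ideal.span_singleton_mul_span_singleton, map_mul]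
  have h4 : Ideal.absNorm (Ideal.span {(4 : O)}) = 2 ^ (2 * Module.finrank ℤ O) := by
    rw [Ideal.absNorm_span_singleton, show (4 : O) = algebraMap ℤ O 4 by simp,
      Algebra.norm_algebraMap, Int.natAbs_pow, pow_mul]
    rfl
  obtain ⟨Y, hY⟩ : ∃ Y : ℍ[K]ˣ, (Y : ℍ[K]) = qmap (algebraMap O K) y₀ :=
    ⟨mkUnit (qmap (algebraMap O K) y₀) (by rw [normSq_qmap]; exact hne _ hyn), rfl⟩
  have hdvd := relIndex_dvd (K := K) (s := s) y₀ hyn
  rw [← hY, ← hA] at hdvd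
  have hY0 : (L Y A).relIndex A ≠ 0 := ne_zero_of_dvd_ne_zero (pow_ne_zero _ (hN0 _ hyn)) hdvd
  have hodd := relIndex_odd hs2 (Y : ℍ[K]) hY0 h2
  have hdvd' : (L Y A).relIndex A ∣ Ideal.absNorm (Ideal.span {ν}) ^ 2 := by
    rw [hmul, mul_pow, h4, ← pow_mul] at hdvd
    refine Nat.Coprime.dvd_of_dvd_mul_left ?_ hdvd
    exact Nat.Coprime.pow_right _ ((Nat.prime_two.coprime_iff_not_dvd.2 hodd).symm)
  have hle : (L Y A).relIndex A ≤ C ^ 2 * J.relIndex A := by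
    refine (Nat.le_of_dvd (Nat.pos_of_ne_zero (pow_ne_zero _ (hN0 _ hν0))) hdvd').trans ?_
    rw [hmul, mul_pow, mul_assoc] at hy
    have h5 := Nat.le_of_mul_le_mul_left hy (by rw [h4]; positivity)
    exact h5.trans (Nat.mul_le_mul_left _ hI1)
  have hYJ : L Y A ≤ J := by
    rintro _ ⟨a, ha, rfl⟩
    change (Y : ℍ[K]) * a ∈ J
    rw [hY]
    exact hJr _ hyJ a ha
  have h6 := AddSubgroup.relIndex_mul_relIndex _ _ _ hYJ hJA
  have h7 : A.relIndex (L (Y⁻¹ : ℍ[K]ˣ) J) = (L Y A).relIndex J := by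
    rw [← relIndex_L Y, L_L, Units.mul_inv, L_one]
  have h10 : A ≤ L (Y⁻¹ : ℍ[K]ˣ) J := by
    have := L_mono ((Y⁻¹ : ℍ[K]ˣ) : ℍ[K]) hYJ
    rwa [L_L, Units.inv_mul, L_one] at this
  have h11 : ∀ z ∈ L (Y⁻¹ : ℍ[K]ˣ) J, ∀ a ∈ AR K s, z * a ∈ L (Y⁻¹ : ℍ[K]ˣ) J := by
    rintro _ ⟨w, hw, rfl⟩ a ha
    exact ⟨w * a, hJr w hw a ha, (mul_assoc _ _ _).symm⟩
  have h12 : (L Y A).relIndex J ≠ 0 := by
    intro h
    rw [h, zero_mul] at h6
    exact hY0 h6.symm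
  have h13 : (L Y A).relIndex J ≤ C ^ 2 := by
    rw [← h6] at hle
    exact Nat.le_of_mul_le_mul_right hle (Nat.pos_of_ne_zero hn0)
  have h14 := principal (K := K) hs2 C hprime hs0 ((L Y A).relIndex J) (L (Y⁻¹ : ℍ[K]ˣ) J)
  rw [← hA] at h14
  have h15 := h14 h10 h11 h7 h12 h13
  obtain ⟨g, hg⟩ := h15
  have hJg : J = L (Y * g : ℍ[K]ˣ) A := by
    rw [Units.val_mul, ← L_L, ← hg, L_L, Units.mul_inv, L_one]
  generalize Y * g = h at hJg
  have hhJ : (h : ℍ[K]) ∈ J := by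
    rw [hJg]
    exact ⟨1, (AR K s).one_mem, mul_one _⟩
  have hvh := hJv _ hhJ
  rw [hJg] at hvh
  obtain ⟨w, ⟨n, W, hW⟩, hw⟩ := hvh
  change (h : ℍ[K]) * w = v * h at hw
  have hw' : w = (h⁻¹ : ℍ[K]ˣ) * (v * h) := by rw [← hw, Units.inv_mul_cancel_left]
  have hre : w.re = 0 := by
    rw [hw', re_mul_comm, mul_assoc, Units.mul_inv, mul_one, hv0]
  have hwn : normSq w = algebraMap O K β := by
    have h8 : normSq ((h⁻¹ : ℍ[K]ˣ) : ℍ[K]) * normSq (h : ℍ[K]) = 1 := by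
      rw [← map_mul, Units.inv_mul, map_one]
    rw [hw', map_mul, map_mul, hvn]
    linear_combination algebraMap O K β * h8
  have hW0 : W.re = 0 := by
    apply IsFractionRing.injective O K
    have := congrArg QuaternionAlgebra.re hW
    rw [map_zero]
    simpa [hre] using this.symm
  refine ⟨n, W, hW0, ?_, ?_⟩
  · apply IsFractionRing.injective O K
    rw [← normSq_qmap, ← hW, normSq_smul, hwn, map_mul, map_pow, ← pow_mul, mul_comm n 2]
  · rintro l hl hls ⟨u, rfl⟩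
    have hTJ : T ∈ J := AddSubgroup.mem_sup_left ⟨1, (AR K s).one_mem, mul_one _⟩
    rw [hJg] at hTJ
    obtain ⟨a, ha, hTa⟩ := hTJ
    change (h : ℍ[K]) * a = T at hTa
    have hl0 := hne l hl.ne_zero
    refine dvd_of_mem (K := K) (z := (algebraMap O K l)⁻¹ • qmap (algebraMap O K) V) hl hls
      (by rw [smul_smul, mul_inv_cancel₀ hl0, one_smul]) ?_
    refine of_smul_mem (c := s ^ n) (k := n) dvd_rfl ?_
    have e1 : qmap (algebraMap O K) V = h * w * a := by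
      rw [hw, mul_assoc, hTa, ← hV, hT, qmap_coe, mul_coe_eq_smul]
    have e2 : (algebraMap O K l)⁻¹ • algebraMap O K s ^ n • w = qmap (algebraMap O K) u := by
      rw [hW, qmap_smul, smul_smul, inv_mul_cancel₀ hl0, one_smul]
    rw [e1, smul_comm, map_pow, ← smul_mul_assoc, ← smul_mul_assoc, ← mul_smul_comm,
      ← mul_smul_comm, e2]
    exact mul_mem (mul_mem (hJA hhJ) (qmap_mem u)) ha

end Main

section Use
variable {O : Type*} [CommRing O]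

/-- the conclusion of `core` -/
def Core (s : O) : Prop := ∀ (β t : O) (V : ℍ[O]), t ≠ 0 → V.re = 0 → normSq V = t ^ 2 * β →
  ∃ (n : ℕ) (W : ℍ[O]), W.re = 0 ∧ normSq W = s ^ (2 * n) * β ∧
    ∀ l : O, Prime l → ¬ l ∣ s → (∃ u : ℍ[O], W = l • u) → ∃ u : ℍ[O], V = l • u

lemma normSq_pure {W : ℍ[O]} (h : W.re = 0) : normSq W = W.imI ^ 2 + W.imJ ^ 2 + W.imK ^ 2 := by
  rw [normSq_def', h]; ring

lemma star_pure {W : ℍ[O]} (h : W.re = 0) : star W = -W := by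
  ext <;> simp [h]

lemma mul_self_pure {W : ℍ[O]} (h : W.re = 0) (h1 : normSq W = 0) : W * W = 0 := by
  rw [← neg_eq_zero, ← neg_mul, ← star_pure h, star_mul_self, h1, coe_zero]

lemma exists_pure {β : O} (h : S3 β) : ∃ V : ℍ[O], V.re = 0 ∧ normSq V = β := by
  obtain ⟨x, y, z, h⟩ := h
  let V : ℍ[O] := ⟨0, x, y, z⟩
  exact ⟨V, rfl, (normSq_pure rfl).trans h.symm⟩

theorem Core.clear {s : O} (H : Core s) (β t : O) (ht : t ≠ 0) (h : S3 (t ^ 2 * β)) :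
    ∃ n : ℕ, S3 (s ^ (2 * n) * β) := by
  obtain ⟨V, h0, hV⟩ := exists_pure h
  obtain ⟨n, W, hW0, hW, -⟩ := H β t V ht h0 hV
  exact ⟨n, _, _, _, hW.symm.trans (normSq_pure hW0)⟩

variable [IsDomain O] [IsPrincipalIdealRing O] [Module.Free ℤ O] [Module.Finite ℤ O]

lemma finite_quot {p : O} (hp : p ≠ 0) : Finite (O ⧸ Ideal.span {p}) := by
  rw [← Ideal.absNorm_ne_zero_iff, Ne, Ideal.absNorm_eq_zero_iff, Ideal.span_singleton_eq_bot]
  exact hp

theorem Core.prim {s : O} (H : Core s) (τ : O →+* ℝ) (hτ : Function.Injective τ)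
    (hs2 : (2 : O) ∣ s) (d t l : O) (ht : t ≠ 0) (h : S3 (t ^ 2 * d)) (hl : Prime l)
    (hls : ¬ l ∣ s) (hld : ¬ l ^ 2 ∣ d) :
    ∃ (n : ℕ) (x y z : O), s ^ (2 * n) * (l ^ 2 * d) = x ^ 2 + y ^ 2 + z ^ 2 ∧
      ¬ (l ∣ x ∧ l ∣ y ∧ l ∣ z) := by
  obtain ⟨n, h1⟩ := H.clear d t ht h
  obtain ⟨V, hV0, hV⟩ := exists_pure h1
  have hmax : (Ideal.span {l}).IsMaximal :=
    PrincipalIdealRing.isMaximal_of_irreducible hl.irreducible
  let F := O ⧸ Ideal.span {l}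
  let _ : Field F := Ideal.Quotient.field _
  let π : O →+* F := Ideal.Quotient.mk _
  have hπ : ∀ a, π a = 0 ↔ l ∣ a := fun a =>
    Ideal.Quotient.eq_zero_iff_mem.trans Ideal.mem_span_singleton
  have hπs : Function.Surjective π := Ideal.Quotient.mk_surjective
  have : Finite F := finite_quot hl.ne_zero
  have h2 : (2 : F) ≠ 0 := by
    intro h
    exact hls (((hπ 2).1 (by rw [map_ofNat]; exact h)).trans hs2)
  have : NeZero (ringChar F) := ⟨CharP.char_ne_zero_of_finite F _⟩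
  obtain ⟨a, b, hab⟩ := CharP.sq_add_sq F (ringChar F) (-1)
  let q0 : ℍ[F] := ⟨1, a, b, 0⟩
  have hq0 : q0 ≠ 0 := fun h => one_ne_zero (α := F) (congrArg QuaternionAlgebra.re h)
  have hq : normSq q0 = 0 := by
    rw [normSq_def']
    change (1 : F) ^ 2 + (a : F) ^ 2 + (b : F) ^ 2 + 0 ^ 2 = 0
    push_cast at hab
    linear_combination hab
  have hVl : qmap π V ≠ 0 := by
    intro h
    obtain ⟨u, rfl⟩ := (qmap_eq_zero π hπ V).1 h
    rw [normSq_smul] at hV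
    exact hld (hl.pow_dvd_of_dvd_mul_left 2 (fun h => hls (hl.dvd_of_dvd_pow h)) ⟨_, hV.symm⟩)
  obtain ⟨e, he⟩ := exists_iso h2 hq0 hq hVl (star_pure (by simp [hV0]))
  obtain ⟨q, hqe⟩ := qmap_surj π hπs (e * q0)
  obtain ⟨c, hc⟩ : l ∣ normSq q := by
    rw [← hπ, ← normSq_qmap, hqe, map_mul, hq, mul_zero]
  rw [← hqe, ← qmap_star, ← map_mul, ← map_mul] at he
  have hc0 : c ≠ 0 := by
    rintro rfl
    refine normSq_ne_zero_of τ hτ (y := q) ?_ (by simpa using hc)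
    rintro rfl
    simp at he
  obtain ⟨m, W, hW0, hW, hWl⟩ := H (s ^ (2 * n) * (l ^ 2 * d)) c (star q * V * q) hc0
    (by rw [re_mul_comm, ← mul_assoc, self_mul_star, coe_mul_eq_smul, re_smul, hV0, smul_zero])
    (by rw [map_mul, map_mul, normSq_star, hc, hV]; ring)
  refine ⟨m + n, W.imI, W.imJ, W.imK, ?_, ?_⟩
  · rw [← normSq_pure hW0, hW]; ring
  · rintro ⟨⟨x, hx⟩, ⟨y, hy⟩, ⟨z, hz⟩⟩
    let u : ℍ[O] := ⟨0, x, y, z⟩
    refine he ((qmap_eq_zero π hπ _).2 (hWl l hl hls ⟨u, ?_⟩))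
    ext
    · rw [hW0]; exact (mul_zero l).symm
    · exact hx
    · exact hy
    · exact hz

/-- the subgroup of small index on which the norm is divisible by four -/
lemma exists_M (h2 : (2 : O) ≠ 0) (a b : O) (hab : (4 : O) ∣ 1 + a ^ 2 + b ^ 2) :
    ∃ M : AddSubgroup ℍ[O], M.index ≠ 0 ∧ M.index ≤ Ideal.absNorm (Ideal.span {(2 : O)}) ^ 2 ∧
      ∀ y ∈ M, (4 : O) ∣ normSq y := by
  let π := Ideal.Quotient.mk (Ideal.span {(2 : O)})
  let φ : ℍ[O] →+ (O ⧸ Ideal.span {(2 : O)}) × (O ⧸ Ideal.span {(2 : O)}) :=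
    { toFun := fun y => (π (y.imJ - a * y.re - b * y.imI), π (y.imK - b * y.re + a * y.imI))
      map_zero' := by simp
      map_add' := fun x y => by
        simp only [re_add, imI_add, imJ_add, imK_add, Prod.mk_add_mk, ← map_add]
        congr 2 <;> ring }
  have := finite_quot h2
  refine ⟨φ.ker, ?_, ?_, ?_⟩
  · rw [AddSubgroup.index_ker]
    exact Nat.card_pos.ne'
  · rw [AddSubgroup.index_ker]
    refine (Nat.card_le_card_of_injective _ Subtype.val_injective).trans (le_of_eq ?_)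
    rw [Nat.card_prod, sq]
    rfl
  · intro y hy
    obtain ⟨h3, h4⟩ := Prod.ext_iff.1 hy
    obtain ⟨u, hu⟩ := Ideal.mem_span_singleton.1 (Ideal.Quotient.eq_zero_iff_mem.1 h3)
    obtain ⟨v, hv⟩ := Ideal.mem_span_singleton.1 (Ideal.Quotient.eq_zero_iff_mem.1 h4)
    obtain ⟨c, hc⟩ := hab
    refine ⟨c * (y.re ^ 2 + y.imI ^ 2) + u * (a * y.re + b * y.imI) + u ^ 2 +
      v * (b * y.re - a * y.imI) + v ^ 2, ?_⟩
    rw [normSq_def', show y.imJ = a * y.re + b * y.imI + 2 * u by linear_combination hu,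
      show y.imK = b * y.re - a * y.imI + 2 * v by linear_combination hv]
    linear_combination (y.re ^ 2 + y.imI ^ 2) * hc

omit [Module.Free ℤ O] [Module.Finite ℤ O] in
lemma Hp_cert {s p : O} (hp : Prime p) (hps : ¬ p ∣ s) (hs2 : (2 : O) ∣ s) {q : ℍ[O]} {c : O}
    {k : ℕ} (hq : normSq q = p * c) (hc : c ∣ s ^ k) {f g : ℕ} {e x y z l b x' y' z' : O}
    (he : ¬ p ∣ e) (hn : x ^ 2 + y ^ 2 + z ^ 2 + (p * e) ^ 2 = 2 ^ (f + 1) * (p * e))
    (hb : p ∣ b) (hn' : x' ^ 2 + y' ^ 2 + z' ^ 2 + b ^ 2 = 2 ^ (g + 1) * b)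
    (hx : p ∣ x' - l * x) (hy : p ∣ y' - l * y) (hz : p ∣ z' - l * z)
    (hR : ∀ R : AddSubgroup (O ⧸ Ideal.span {p}), 1 ∈ R → Ideal.Quotient.mk _ l ∈ R → ∀ r, r ∈ R) :
    Hp s p := by
  have hmax : (Ideal.span {p}).IsMaximal :=
    PrincipalIdealRing.isMaximal_of_irreducible hp.irreducible
  let F := O ⧸ Ideal.span {p}
  let _ : Field F := Ideal.Quotient.field _
  let π : O →+* F := Ideal.Quotient.mk _
  have hπ : ∀ a, π a = 0 ↔ p ∣ a := fun a =>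
    Ideal.Quotient.eq_zero_iff_mem.trans Ideal.mem_span_singleton
  have hπs : Function.Surjective π := Ideal.Quotient.mk_surjective
  have hp2 : ¬ p ∣ 2 := fun h => hps (h.trans hs2)
  have h2 : (2 : F) ≠ 0 := fun h => hp2 ((hπ 2).1 (by rw [map_ofNat]; exact h))
  let v : ℍ[F] := ⟨0, π x, π y, π z⟩
  have hst : star v = -v := star_pure rfl
  have hpe : π (p * e) = 0 := (hπ _).2 (dvd_mul_right _ _)
  have hv : v * v = 0 := by
    refine mul_self_pure rfl ?_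
    rw [normSq_pure rfl]
    have := congrArg π hn
    rw [map_mul π (2 ^ _), map_add, map_pow π (p * e), hpe] at this
    simpa [v] using this
  have hv0 : v ≠ 0 := by
    intro h
    obtain ⟨x1, rfl⟩ := (hπ x).1 (congrArg QuaternionAlgebra.imI h)
    obtain ⟨y1, rfl⟩ := (hπ y).1 (congrArg QuaternionAlgebra.imJ h)
    obtain ⟨z1, rfl⟩ := (hπ z).1 (congrArg QuaternionAlgebra.imK h)
    have h1 : p * (x1 ^ 2 + y1 ^ 2 + z1 ^ 2 + e ^ 2) = 2 ^ (f + 1) * e :=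
      mul_left_cancel₀ hp.ne_zero (by linear_combination hn)
    rcases hp.dvd_or_dvd (Dvd.intro _ h1) with h3 | h3
    · exact hp2 (hp.dvd_of_dvd_pow h3)
    · exact he h3
  have key : ∀ {u u' : O}, p ∣ u' - l * u → π u' = π l * π u := fun h => by
    rw [← map_mul, ← sub_eq_zero, ← map_sub, hπ]; exact h
  exact Hp_of π hp.ne_zero hπ hπs h2 hps hq hc hv0 hv hst (hR _
    (mem_RS π hs2 h2 hv hst f _ x y z hpe hn 1 rfl (one_mul _).symm (one_mul _).symm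
      (one_mul _).symm)
    (mem_RS π hs2 h2 hv hst g b x' y' z' ((hπ b).2 hb) hn' _ rfl (key hx) (key hy) (key hz)))

end Use

section Fin
variable {F : Type*} [CommRing F] {q : ℕ}

lemma surj_one (hq : q.Prime) (hc : Nat.card F = q) (h1 : (1 : F) ≠ 0) (r : F) :
    ∃ n : ℤ, (n : F) = r := by
  have : Fact q.Prime := ⟨hq⟩
  obtain ⟨n, hn⟩ := mem_zmultiples_of_prime_card hc (g' := r) h1
  exact ⟨n, by simpa using hn⟩

lemma sq_of_card [Nontrivial F] (hq : q.Prime) (hc : Nat.card F = q) (h0 : (q : F) = 0) {g : F}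
    {a : ℕ} (hg : g * g = a) : IsSquare (a : ZMod q) := by
  have : CharP F q := (CharP.charP_iff_prime_eq_zero hq).2 h0
  obtain ⟨n, rfl⟩ := surj_one hq hc one_ne_zero g
  refine ⟨n, ?_⟩
  have : Fact q.Prime := ⟨hq⟩
  apply (ZMod.castHom (dvd_refl q) F).injective
  simpa using hg.symm

lemma top_of_card_sq [IsDomain F] (hq : q.Prime) (hc : Nat.card F = q ^ 2) (h0 : (q : F) = 0)
    {g : F} {a : ℕ} (hg : g * g = a) (ha : ¬ IsSquare (a : ZMod q)) {m n : ℤ}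
    (hn : (n : ZMod q) ≠ 0) (R : AddSubgroup F) (h1 : 1 ∈ R) (hl : m + n * g ∈ R) (r : F) :
    r ∈ R := by
  have : CharP F q := (CharP.charP_iff_prime_eq_zero hq).2 h0
  have : Fact q.Prime := ⟨hq⟩
  let ι := ZMod.castHom (dvd_refl q) F
  let ψ : ZMod q × ZMod q →+ F :=
    { toFun := fun x => ι x.1 + ι x.2 * g
      map_zero' := by simp
      map_add' := fun x y => by simp only [Prod.fst_add, Prod.snd_add, map_add]; ring }
  have hinj : Function.Injective ψ := by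
    rw [injective_iff_map_eq_zero]
    rintro ⟨x, y⟩ h
    change ι x + ι y * g = 0 at h
    have hy : y = 0 := by
      by_contra hy
      refine ha ⟨x / y, ?_⟩
      have h3 : ι (x * x) = ι (y * y * a) := by
        rw [map_mul, map_mul, map_mul, map_natCast, ← hg]
        linear_combination (ι x - ι y * g) * h
      rw [div_mul_div_comm, ι.injective h3]
      field_simp
    subst hy
    rw [map_zero, zero_mul, add_zero, map_eq_zero] at h
    rw [h]; rfl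
  have : Finite F := Nat.finite_of_card_ne_zero (hc ▸ pow_ne_zero _ hq.ne_zero)
  have hbij := (Nat.bijective_iff_injective_and_card ψ).2
    ⟨hinj, by rw [Nat.card_prod, Nat.card_zmod, hc, sq]⟩
  obtain ⟨⟨x, y⟩, rfl⟩ := hbij.2 r
  have hι : ∀ (u : ZMod q) (t : F), t ∈ R → ι u * t ∈ R := fun u t ht => by
    rw [← ZMod.natCast_zmod_val u, map_natCast, ← nsmul_eq_mul]
    exact nsmul_mem ht _
  have h3 : (n : F) * g ∈ R := by
    have := sub_mem hl (zsmul_mem h1 m)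
    simpa using this
  refine add_mem (by simpa using hι x 1 h1) ?_
  have h4 := hι (y / n) _ h3
  rwa [← mul_assoc, ← map_intCast ι, ← map_mul, div_mul_cancel₀ _ hn] at h4

lemma nonsq_of (hq : q.Prime) (h3 : 3 ≤ q) {a : ℕ} (h : a ^ (q / 2) % q = q - 1) :
    ¬ IsSquare (a : ZMod q) := by
  have : Fact q.Prime := ⟨hq⟩
  have : Fact (2 < q) := ⟨h3⟩
  have h1 : (a : ZMod q) ^ (q / 2) = -1 := by
    rw [← Nat.cast_pow, ← ZMod.natCast_mod, h, Nat.cast_pred hq.pos, ZMod.natCast_self, zero_sub]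
  have ha : (a : ZMod q) ≠ 0 := by
    intro h0
    rw [h0, zero_pow (by omega), eq_comm, neg_eq_zero] at h1
    exact one_ne_zero h1
  rw [ZMod.euler_criterion q ha, h1]
  exact ZMod.neg_one_ne_one

end Fin
end Clr
end Pool.Agent.Lib.MP_aed2da_nt
end
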