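import Mathlib.Data.Nat.Bitwise
import Mathlib.Tactic.Ring
import Mathlib.Tactic.Linarith
import Mathlib.Tactic.NormNum

-- part Pool.Agent.Lib.MP_aed2da_nt.EngDef
section

/-!
Kernel-friendly checker for walks in a product of trees modulo a group.
An item is a path, written in base 128 (labels are at least 8; numbers below 8 are empty paths).
-/

namespace Pool.Agent.Lib.MP_aed2da_nt.Eng

inductive DB : Type
  | leaf : ℕ → DB
  | node : ℕ → DB → DB → DB

noncomputable def get (t : DB) (i : ℕ) : ℕ :=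
  DB.rec (motive := fun _ => ℕ) (fun c => c)
    (fun m _ _ a b => Bool.rec (motive := fun _ => ℕ) b a (Nat.ble i m)) t

structure Tabs where
  tT : DB
  tA : DB
  tP : DB
  dirs : ℕ

noncomputable def rowT (T : Tabs) (c : ℕ) : ℕ := get T.tT c
noncomputable def rowA (T : Tabs) (d : ℕ) : ℕ := get T.tA d
noncomputable def rowP (T : Tabs) (k : ℕ) : ℕ := get T.tP k

noncomputable def actLong (ih : ℕ → ℕ → ℕ) (x y : ℕ) : ℕ :=
  Nat.rec (motive := fun _ => ℕ) 0
    (fun d _ => Nat.add (Nat.land x 127) (Nat.shiftLeft (ih d (Nat.shiftRight y 7)) 7))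
    (Nat.land (Nat.shiftRight x 7) 1023)

noncomputable def actStep (T : Tabs) (ih : ℕ → ℕ → ℕ) (d y : ℕ) : ℕ :=
  Bool.rec (motive := fun _ => ℕ)
    (actLong ih (Nat.shiftRight (rowA T d) (Nat.mul (Nat.land y 127) 17)) y)
    (Nat.land (Nat.shiftRight (rowA T d) (Nat.mul y 17)) 127) (Nat.ble y 127)

noncomputable def actL (T : Tabs) (fuel : ℕ) : ℕ → ℕ → ℕ :=
  Nat.rec (motive := fun _ => ℕ → ℕ → ℕ) (fun _ _ => 0) (fun _ ih => actStep T ih) fuel

noncomputable def act (T : Tabs) (d y : ℕ) : ℕ := actStep T (actL T 14) d y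

noncomputable def mvLong (T : Tabs) (ih : ℕ → ℕ → ℕ) (x n r : ℕ) : ℕ :=
  Bool.rec (motive := fun _ => ℕ)
    (Nat.rec (motive := fun _ => ℕ) 0
      (fun d _ => Bool.rec (motive := fun _ => ℕ)
        (Nat.add n (Nat.shiftLeft (act T d r) 14))
        (Nat.rec (motive := fun _ => ℕ) 0
          (fun c _ => Nat.add n (Nat.shiftLeft (act T d (ih c r)) 7))
          (Nat.land (Nat.shiftRight x 24) 2047))
        (Nat.ble n 127))
      (Nat.land (Nat.shiftRight x 14) 1023))
    r (Nat.ble n 7)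

noncomputable def mvL2 (T : Tabs) (ih : ℕ → ℕ → ℕ) (x y : ℕ) : ℕ :=
  mvLong T ih x (Nat.land x 16383) (Nat.shiftRight y 7)

noncomputable def mvStep (T : Tabs) (ih : ℕ → ℕ → ℕ) (c y : ℕ) : ℕ :=
  Bool.rec (motive := fun _ => ℕ)
    (mvL2 T ih (Nat.shiftRight (rowT T c) (Nat.mul (Nat.land y 127) 35)) y)
    (Nat.land (Nat.shiftRight (rowT T c) (Nat.mul y 35)) 16383) (Nat.ble y 127)

noncomputable def mvL (T : Tabs) (fuel : ℕ) : ℕ → ℕ → ℕ :=
  Nat.rec (motive := fun _ => ℕ → ℕ → ℕ) (fun _ _ => 0) (fun _ ih => mvStep T ih) fuel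

/-- transport of the item `y` along the move with code `c` -/
noncomputable def mv (T : Tabs) (c y : ℕ) : ℕ :=
  Bool.rec (motive := fun _ => ℕ)
    (mvL2 T (mvL T 12) (Nat.shiftRight (rowT T c) (Nat.mul (Nat.land y 127) 35)) y)
    (Nat.land (Nat.shiftRight (rowT T c) (Nat.mul y 35)) 16383) (Nat.ble y 127)

/-- class after the move with code `c` -/
noncomputable def nxt (T : Tabs) (c : ℕ) : ℕ := Nat.land (Nat.shiftRight (rowT T c) 14) 15

/-- `s = 8 * slot + length` -/
noncomputable def selR (R s : ℕ) : ℕ :=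
  Nat.mod (Nat.shiftRight R (Nat.mul (Nat.shiftRight s 3) 56))
    (Nat.shiftLeft 1 (Nat.mul (Nat.land s 7) 7))

noncomputable def pat (T : Tabs) (k : ℕ) : ℕ :=
  Nat.rec (motive := fun _ => ℕ) 0
    (fun q _ => Nat.mod (Nat.shiftRight (rowP T q) (Nat.mul (Nat.land k 63) 116))
      83076749736557242056487941267521536)
    (Nat.succ (Nat.shiftRight k 6))

noncomputable def mtItem (T : Tabs) (d p y : ℕ) : Bool :=
  Bool.rec (motive := fun _ => Bool) (Nat.beq (Nat.land (act T d y) 16383) p)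
    (Nat.beq (Nat.land (Nat.shiftRight (rowA T d) (Nat.mul (Nat.land y 127) 17)) 127) p)
    (Nat.ble p 127)

noncomputable def mt (T : Tabs) (R x d : ℕ) (tr : ℕ → ℕ) (fuel : ℕ) : ℕ → ℕ → Bool :=
  Nat.rec (motive := fun _ => ℕ → ℕ → Bool) (fun _ _ => false)
    (fun _ ih P sh =>
      Bool.rec (motive := fun _ => Bool)
        (Nat.rec (motive := fun _ => Bool) false
          (fun s _ => Bool.rec (motive := fun _ => Bool) false
            (ih (Nat.shiftRight P 14) (Nat.shiftRight sh 8))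
            (Bool.rec (motive := fun _ => Bool) (mtItem T d (Nat.land P 16383) (tr (selR R s)))
              (mtItem T d (Nat.land P 16383) (tr x)) (Nat.beq s 0)))
          (Nat.land sh 255))
        true (Nat.beq P 0)) fuel

noncomputable def fin2 (T : Tabs) (n cyc R x g k P j : ℕ) (tr : ℕ → ℕ) (trc sh : ℕ) : Bool :=
  Bool.rec (motive := fun _ => Bool) false
    (Nat.rec (motive := fun _ => Bool) false
      (fun d _ => Bool.rec (motive := fun _ => Bool) false
        (mt T R x d tr 9 (Nat.shiftRight P 4) sh)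
        (Bool.rec (motive := fun _ => Bool) true
          (Bool.rec (motive := fun _ => Bool) false
            (Nat.beq (Nat.succ (Nat.add d (Nat.shiftLeft trc 10))) cyc) (Nat.beq n k))
          (Nat.ble n k)))
      (Nat.succ (Nat.add g (Nat.shiftLeft j 6))))
    (Nat.beq (Nat.land P 15) j)

noncomputable def fin (T : Tabs) (n cyc R x g k j : ℕ) (tr : ℕ → ℕ) (trc sh : ℕ) : Bool :=
  fin2 T n cyc R x g k (pat T k) j tr trc sh

noncomputable def step (T : Tabs) (ih : ℕ → (ℕ → ℕ) → ℕ → ℕ → Bool) (i : ℕ) (tr : ℕ → ℕ)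
    (trc sh y : ℕ) : Bool :=
  Bool.rec (motive := fun _ => Bool) false
    (Nat.rec (motive := fun _ => Bool) false
      (fun c _ => ih (nxt T c) (fun z => mv T c (tr z)) (Nat.add c (Nat.shiftLeft trc 11))
        (Nat.shiftRight sh 8))
      (Nat.succ (Nat.add (Nat.land y 127) (Nat.shiftLeft i 7))))
    (Nat.ble 8 y)

noncomputable def run (T : Tabs) (n cyc R x g k : ℕ) (fuel : ℕ) :
    ℕ → (ℕ → ℕ) → ℕ → ℕ → Bool :=
  Nat.rec (motive := fun _ => ℕ → (ℕ → ℕ) → ℕ → ℕ → Bool) (fun _ _ _ _ => false)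
    (fun _ ih i tr trc sh =>
      Nat.rec (motive := fun _ => Bool) (fin T n cyc R x g k i tr trc (Nat.shiftRight sh 8))
        (fun s _ => Bool.rec (motive := fun _ => Bool) (step T ih i tr trc sh (tr (selR R s)))
          (step T ih i tr trc sh (tr x)) (Nat.beq s 0))
        (Nat.land sh 255)) fuel

noncomputable def leaf (T : Tabs) (n cyc i R x w : ℕ) : Bool :=
  run T n cyc R x (Nat.land (Nat.shiftRight w 8) 63) (Nat.land (Nat.shiftRight w 14) 8191) 17
    i (fun z => z) 0 (Nat.shiftRight w 27)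

inductive Tr : Type
  | nil : Tr
  | node : ℕ → ℕ → Tr → Tr → Tr

/-- loop over the labels `lo + cnt - 1, .., lo` -/
noncomputable def kids (T : Tabs) (n cyc i R x p lo ban : ℕ) (c : ℕ → Bool) (cnt : ℕ) :
    ℕ → ℕ → Bool :=
  Nat.rec (motive := fun _ => ℕ → ℕ → Bool) (fun _ es => c es)
    (fun k ih ws es =>
      Bool.rec (motive := fun _ => Bool)
        (Bool.rec (motive := fun _ => Bool)
          (Bool.rec (motive := fun _ => Bool) false (ih (Nat.shiftRight ws (Nat.land ws 255)) es)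
            (leaf T n cyc i R (Nat.add x (Nat.shiftLeft (Nat.add lo k) p)) ws))
          (ih (Nat.shiftRight ws 8) (Nat.add (Nat.add lo k) (Nat.shiftLeft es 7)))
          (Nat.beq (Nat.land ws 255) 0))
        (ih ws es) (Nat.beq (Nat.add lo k) ban)) cnt

noncomputable def body2 (T : Tabs) (n cyc i ws : ℕ) (sub : ℕ → ℕ → ℕ → Bool)
    (R q p x dr ban : ℕ) : Bool :=
  Bool.rec (motive := fun _ => Bool) false
    (Bool.rec (motive := fun _ => Bool) false
      (Bool.rec (motive := fun _ => Bool) false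
        (kids T n cyc i R x p (Nat.land dr 127) ban (fun es => sub es R (Nat.add q p))
          (Nat.land (Nat.shiftRight dr 7) 31) ws 0)
        (Nat.ble (Bool.rec (motive := fun _ => ℕ) 2 1 (Nat.beq ban 0))
          (Nat.land (Nat.shiftRight dr 12) 3)))
      (Nat.ble 8 (Nat.shiftRight (Nat.add (Nat.shiftLeft x 7) 8) p)))
    (Nat.beq (Nat.shiftRight x p) 0)

/-- `info = slot + 16 * length + 128 * direction + 1024 * ban` -/
noncomputable def body (T : Tabs) (n cyc i info ws : ℕ) (sub : ℕ → ℕ → ℕ → Bool) (R : ℕ) : Bool :=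
  body2 T n cyc i ws sub R (Nat.mul (Nat.land info 15) 56)
    (Nat.mul (Nat.land (Nat.shiftRight info 4) 7) 7)
    (Nat.mod (Nat.shiftRight R (Nat.mul (Nat.land info 15) 56)) 72057594037927936)
    (Nat.shiftRight T.dirs (Nat.mul (Nat.land (Nat.shiftRight info 7) 7) 16))
    (Nat.shiftRight info 10)

noncomputable def chain (T : Tabs) (n cyc i : ℕ) (t : Tr) : ℕ → ℕ → ℕ → Bool :=
  Tr.rec (motive := fun _ => ℕ → ℕ → ℕ → Bool) (fun es _ _ => Nat.beq es 0)
    (fun info ws _ _ ihs ihn es R q =>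
      Bool.rec (motive := fun _ => Bool) false (ihn (Nat.shiftRight es 7) R q)
        (body T n cyc i info ws ihs (Nat.add R (Nat.shiftLeft (Nat.land es 127) q)))) t

noncomputable def mem (x : ℕ) (l : List ℕ) : Bool :=
  List.rec (motive := fun _ => Bool) false
    (fun y _ ih => Bool.rec (motive := fun _ => Bool) ih true (Nat.beq x y)) l

noncomputable def isItem (P x : ℕ) (k : ℕ) : Bool :=
  Nat.rec (motive := fun _ => Bool) (Nat.ble x 7)
    (fun k ih => Bool.rec (motive := fun _ => Bool) ih true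
      (Nat.beq x (Nat.land (Nat.shiftRight P (Nat.mul k 14)) 16383))) k

noncomputable def rootOk (P R : ℕ) (t : ℕ) : Bool :=
  Nat.rec (motive := fun _ => Bool) (Nat.beq (Nat.shiftRight R 896) 0)
    (fun t ih => Bool.rec (motive := fun _ => Bool) false ih
      (isItem P (Nat.mod (Nat.shiftRight R (Nat.mul t 56)) 72057594037927936) 8)) t

inductive Stg : Type
  | nil : Stg
  | cons : ℕ → ℕ → ℕ → ℕ → Tr → Stg → Stg

noncomputable def stage (T : Tabs) (CL : List ℕ) (n P R cyc info ws : ℕ) (sub : Tr) : Bool :=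
  Bool.rec (motive := fun _ => Bool) false
    (Bool.rec (motive := fun _ => Bool) false
      (Nat.rec (motive := fun _ => Bool) false
        (fun i _ => body T n cyc i info ws (chain T n cyc i sub) R) (Nat.succ (Nat.land P 15)))
      (Bool.rec (motive := fun _ => Bool) (mem cyc CL) true (Nat.beq cyc 0)))
    (rootOk (Nat.shiftRight P 4) R 16)

noncomputable def stages (T : Tabs) (CL : List ℕ) (hi : ℕ) (t : Stg) : ℕ → Bool :=
  Stg.rec (motive := fun _ => ℕ → Bool) (fun n => Nat.beq n hi)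
    (fun R cyc info ws sub _ ih n =>
      Bool.rec (motive := fun _ => Bool) false
        (Nat.rec (motive := fun _ => Bool) false (fun m _ => ih m) (Nat.succ (Nat.succ n)))
        (stage T CL n (pat T n) R cyc info ws sub)) t

end Pool.Agent.Lib.MP_aed2da_nt.Eng
end

-- part Pool.Agent.Lib.MP_aed2da_nt.Eng
section

/-! Soundness of the walk checker for an abstract system of states and moves. -/

namespace Pool.Agent.Lib.MP_aed2da_nt.Eng

lemma brec {α : Type} (x y : α) (b : Bool) :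
    Bool.rec (motive := fun _ => α) x y b = if b = true then y else x := by cases b <;> rfl
lemma band (x b : Bool) :
    (Bool.rec (motive := fun _ => Bool) false x b = true) ↔ (b = true ∧ x = true) := by
  cases b <;> simp
lemma bor (x b : Bool) :
    (Bool.rec (motive := fun _ => Bool) x true b = true) ↔ (b = true ∨ x = true) := by
  cases b <;> simp
lemma lnd (x k : ℕ) : Nat.land x (2 ^ k - 1) = x % 2 ^ k := Nat.and_two_pow_sub_one_eq_mod x k
lemma l3 (x : ℕ) : Nat.land x 3 = x % 4 := lnd x 2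
lemma l7 (x : ℕ) : Nat.land x 7 = x % 8 := lnd x 3
lemma l15 (x : ℕ) : Nat.land x 15 = x % 16 := lnd x 4
lemma l31 (x : ℕ) : Nat.land x 31 = x % 32 := lnd x 5
lemma l63 (x : ℕ) : Nat.land x 63 = x % 64 := lnd x 6
lemma l127 (x : ℕ) : Nat.land x 127 = x % 128 := lnd x 7
lemma l1023 (x : ℕ) : Nat.land x 1023 = x % 1024 := lnd x 10
lemma l2047 (x : ℕ) : Nat.land x 2047 = x % 2048 := lnd x 11
lemma l16383 (x : ℕ) : Nat.land x 16383 = x % 16384 := lnd x 14
lemma sr (x k : ℕ) : Nat.shiftRight x k = x / 2 ^ k := Nat.shiftRight_eq_div_pow x k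
lemma sl (x k : ℕ) : Nat.shiftLeft x k = x * 2 ^ k := Nat.shiftLeft_eq x k
lemma md (x k : ℕ) : Nat.mod x k = x % k := id rfl

structure Sys where
  St : Type
  cls : St → ℕ
  Mv : ℕ → St → St → Prop
  Act : ℕ → St → St → Prop
  Goal : Prop

variable {Y : Sys} {T : Tabs}

/-- the path `y` can be walked from `s` -/
inductive It (Y : Sys) : Y.St → ℕ → Prop
  | nil {s y} : y < 8 → It Y s y
  | cons {s s' y} : Y.Mv (y % 128) s s' → It Y s' (y / 128) → It Y s y

def MvC (Y : Sys) (c : ℕ) (s s' : Y.St) : Prop := Y.cls s = c / 128 ∧ Y.Mv (c % 128) s s'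

noncomputable def eT (T : Tabs) (c y : ℕ) : ℕ := Nat.shiftRight (rowT T c) (Nat.mul y 35)
noncomputable def eA (T : Tabs) (d y : ℕ) : ℕ := Nat.shiftRight (rowA T d) (Nat.mul y 17)

/-- the facts about the tables which do not depend on the directions used -/
structure TabOK (Y : Sys) (T : Tabs) : Prop where
  cls_lt : ∀ s, Y.cls s < 16
  nx : ∀ {c s s'}, MvC Y c s s' → Y.cls s' = nxt T c
  mv0 : ∀ {c s s' y}, MvC Y c s s' → y < 8 → It Y s' (eT T c y % 16384)
  mv1 : ∀ {c s s' y s1}, MvC Y c s s' → y < 128 → Y.Mv y s s1 →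
    (eT T c y % 16384 ≤ 7 → s1 = s') ∧
    (7 < eT T c y % 16384 → eT T c y % 16384 ≤ 127 → ∃ d c' s2 s3,
      eT T c y / 2 ^ 14 % 1024 = d + 1 ∧ eT T c y / 2 ^ 24 % 2048 = c' + 1 ∧ MvC Y c' s1 s2 ∧
      Y.Act d s2 s3 ∧ Y.Mv (eT T c y % 16384) s' s3) ∧
    (127 < eT T c y % 16384 → ∃ d s0 s3, eT T c y / 2 ^ 14 % 1024 = d + 1 ∧
      Y.Mv (eT T c y % 16384 % 128) s' s0 ∧ Y.Mv (eT T c y % 16384 / 128) s0 s3 ∧ Y.Act d s1 s3)
  act0 : ∀ {d s s' y}, Y.Act d s s' → y < 8 → eA T d y % 128 < 8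
  act1 : ∀ {d s s' y s1}, Y.Act d s s' → y < 128 → Y.Mv y s s1 →
    (eA T d y % 128 < 8 ∧ eA T d y / 2 ^ 7 % 1024 = 0) ∨ ∃ d' s1',
      eA T d y / 2 ^ 7 % 1024 = d' + 1 ∧ Y.Act d' s1 s1' ∧ Y.Mv (eA T d y % 128) s' s1'
  actEx : ∀ s g, g < 64 → ∃ s', Y.Act (g + Y.cls s * 2 ^ 6) s s' ∧ Y.cls s' = Y.cls s

/-- existence of one or two edges in the directions used -/
def DirOK (Y : Sys) (dr : ℕ) : Prop :=
  (1 ≤ dr / 2 ^ 12 % 4 → dr % 128 + dr / 2 ^ 7 % 32 ≤ 128 ∧ 0 < dr % 128 ∧
    ∀ s, ∃ k < dr / 2 ^ 7 % 32, ∃ s', Y.Mv (dr % 128 + k) s s') ∧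
  (2 ≤ dr / 2 ^ 12 % 4 → ∀ s, ∃ k < dr / 2 ^ 7 % 32, ∃ k' < dr / 2 ^ 7 % 32, k ≠ k' ∧
    (∃ s', Y.Mv (dr % 128 + k) s s') ∧ ∃ s', Y.Mv (dr % 128 + k') s s')

lemma It.mod {s : Y.St} {y : ℕ} (h : It Y s y) (L : ℕ) : It Y s (y % 128 ^ L) := by
  induction h generalizing L with
  | nil h => exact .nil (lt_of_le_of_lt (Nat.mod_le _ _) h)
  | cons h _ ih =>
    rcases L with _ | L
    · exact .nil (by simp [Nat.mod_one])
    · refine .cons (by rwa [Nat.mod_mod_of_dvd _ (dvd_pow_self _ L.succ_ne_zero)]) ?_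
      rw [pow_succ', Nat.mod_mul_right_div_self]
      exact ih L

lemma It.push {s s' : Y.St} {n z : ℕ} (hn : n < 128) (h : Y.Mv n s s') (hz : It Y s' z) :
    It Y s (n + z * 2 ^ 7) := by
  refine .cons (s' := s') ?_ ?_
  · rwa [show (n + z * 2 ^ 7) % 128 = n by omega]
  · rwa [show (n + z * 2 ^ 7) / 128 = z by omega]

lemma It.one {s s' : Y.St} {n : ℕ} (hn : n < 128) (h : Y.Mv n s s') : It Y s n := by
  simpa using It.push hn h (.nil (y := 0) (by norm_num))

lemma It.inv {s : Y.St} {y : ℕ} (h : It Y s y) (hy : 8 ≤ y) :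
    ∃ s', Y.Mv (y % 128) s s' ∧ It Y s' (y / 128) := by
  cases h with
  | nil h => omega
  | cons h1 h2 => exact ⟨_, h1, h2⟩

def ActS (Y : Sys) (f : ℕ → ℕ → ℕ) : Prop :=
  ∀ d y s s', Y.Act d s s' → It Y s y → It Y s' (f d y)

def MvS (Y : Sys) (f : ℕ → ℕ → ℕ) : Prop :=
  ∀ c y s s', MvC Y c s s' → It Y s y → It Y s' (f c y)

lemma act_fast (H : TabOK Y T) {d y : ℕ} {s s' : Y.St} (ha : Y.Act d s s') (hy : y < 128)
    (h : It Y s y) : It Y s' (eA T d y % 128) := by
  by_cases h8 : y < 8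
  · exact .nil (H.act0 ha h8)
  obtain ⟨s1, h1, -⟩ := h.inv (by omega)
  rw [Nat.mod_eq_of_lt hy] at h1
  rcases H.act1 ha hy h1 with ⟨h2, -⟩ | ⟨d', s1', -, -, h2⟩
  · exact .nil h2
  · exact It.one (Nat.mod_lt _ (by norm_num)) h2

lemma actStep_sound (H : TabOK Y T) {f : ℕ → ℕ → ℕ} (hf : ActS Y f) : ActS Y (actStep T f) := by
  intro d y s s' ha h
  rw [actStep, brec]
  split_ifs with hy
  · rw [l127]
    exact act_fast H ha (by simpa [Nat.lt_succ_iff] using hy) h
  · have hy' : 8 ≤ y := by simp at hy; omega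
    obtain ⟨s1, h1, h2⟩ := h.inv hy'
    rw [actLong, l127 y, l1023, l127, sr y 7, sr _ 7]
    change It Y s' (Nat.rec (motive := fun _ => ℕ) 0 (fun d' _ => eA T d (y % 128) % 128 +
      Nat.shiftLeft (f d' (y / 2 ^ 7)) 7) (eA T d (y % 128) / 2 ^ 7 % 1024))
    rcases H.act1 ha (Nat.mod_lt _ (by norm_num)) h1 with ⟨-, h3⟩ | ⟨d', s1', h3, h4, h5⟩
    · rw [h3]; exact .nil (y := 0) (by norm_num)
    · rw [h3]; dsimp only; rw [sl]
      exact It.push (Nat.mod_lt _ (by norm_num)) h5 (hf _ _ _ _ h4 h2)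

lemma act_sound (H : TabOK Y T) : ActS Y (act T) := by
  refine actStep_sound H ?_
  generalize 14 = n
  induction n with
  | zero => exact fun _ _ _ _ _ _ => .nil (y := 0) (by norm_num)
  | succ n ih => exact actStep_sound H ih

lemma mvStep_sound (H : TabOK Y T) {f : ℕ → ℕ → ℕ} (hf : MvS Y f) : MvS Y (mvStep T f) := by
  intro c y s s' hc h
  rw [mvStep, brec]
  split_ifs with hy
  · have hy' : y < 128 := by simpa [Nat.lt_succ_iff] using hy
    rw [l16383]
    change It Y s' (eT T c y % 16384)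
    by_cases h8 : y < 8
    · exact H.mv0 hc h8
    obtain ⟨s1, h1, -⟩ := h.inv (by omega)
    rw [Nat.mod_eq_of_lt hy'] at h1
    obtain ⟨-, h3, h4⟩ := H.mv1 hc hy' h1
    by_cases h7 : eT T c y % 16384 ≤ 7
    · exact .nil (by omega)
    by_cases h127 : eT T c y % 16384 ≤ 127
    · obtain ⟨_, _, _, _, -, -, -, -, h5⟩ := h3 (by omega) h127
      exact It.one (by omega) h5
    · obtain ⟨_, _, _, -, h5, h6, -⟩ := h4 (by omega)
      exact .cons h5 (It.one (by omega) h6)
  · have hy' : 8 ≤ y := by simp at hy; omega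
    obtain ⟨s1, h1, h2⟩ := h.inv hy'
    obtain ⟨h3, h4, h5⟩ := H.mv1 hc (Nat.mod_lt _ (by norm_num)) h1
    rw [mvL2, mvLong, l127 y, l16383, l1023, l2047, sr _ 14, sr _ 24, sr y 7, brec]
    change It Y s' (if Nat.ble (eT T c (y % 128) % 16384) 7 = true then y / 2 ^ 7 else
      Nat.rec (motive := fun _ => ℕ) 0 (fun d _ => Bool.rec (motive := fun _ => ℕ)
        (eT T c (y % 128) % 16384 + Nat.shiftLeft (act T d (y / 2 ^ 7)) 14)
        (Nat.rec (motive := fun _ => ℕ) 0 (fun c' _ => eT T c (y % 128) % 16384 +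
          Nat.shiftLeft (act T d (f c' (y / 2 ^ 7))) 7) (eT T c (y % 128) / 2 ^ 24 % 2048))
        (Nat.ble (eT T c (y % 128) % 16384) 127)) (eT T c (y % 128) / 2 ^ 14 % 1024))
    generalize eT T c (y % 128) = x at h3 h4 h5
    split_ifs with h7
    · rw [← h3 (by simpa using h7)]; exact h2
    have h7' : 7 < x % 16384 := by simpa using h7
    by_cases h127 : x % 16384 ≤ 127
    · obtain ⟨d, c', s2, s3, e1, e2, h6, h7, h8⟩ := h4 h7' h127
      rw [e1, e2]; dsimp only; rw [brec, if_pos (by simpa using h127), sl]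
      exact It.push (by omega) h8 (act_sound H _ _ _ _ h7 (hf _ _ _ _ h6 h2))
    · obtain ⟨d, s0, s3, e1, h6, h7, h8⟩ := h5 (by omega)
      rw [e1]; dsimp only; rw [brec, if_neg (by simpa using h127), sl]
      have := It.push (Nat.mod_lt _ (by norm_num)) h6
        (It.push (by omega) h7 (act_sound H _ _ _ _ h8 h2))
      rw [show y / 2 ^ 7 = y / 128 from rfl]
      convert this using 1
      omega

lemma mv_sound (H : TabOK Y T) : MvS Y (mv T) := by
  refine mvStep_sound (f := mvL T 12) H ?_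
  generalize 12 = n
  induction n with
  | zero => exact fun _ _ _ _ _ _ => .nil (y := 0) (by norm_num)
  | succ n ih => exact mvStep_sound H ih

def RootOK (Y : Sys) (s : Y.St) (R : ℕ) : Prop := ∀ t, It Y s (R / 2 ^ (t * 56) % 2 ^ 56)

lemma sel_sound {s : Y.St} {R : ℕ} (h : RootOK Y s R) (c : ℕ) : It Y s (selR R c) := by
  have h1 := (h (c / 2 ^ 3)).mod (c % 8)
  rw [show (128 : ℕ) = 2 ^ 7 from rfl, ← pow_mul,
    Nat.mod_mod_of_dvd _ (pow_dvd_pow 2 (by omega))] at h1
  rw [selR, md, sr, sr, sl, l7, one_mul, Nat.mul_eq, Nat.mul_eq, mul_comm (c % 8)]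
  exact h1

/-- a sequence of moves, the last one in the lowest digit -/
inductive Trc (Y : Sys) : ℕ → Y.St → Y.St → Prop
  | nil s : Trc Y 0 s s
  | snoc {t c s0 s s'} : Trc Y t s0 s → MvC Y c s s' → c < 2048 → Trc Y (c + t * 2 ^ 11) s0 s'

def Cyc (Y : Sys) (cyc : ℕ) (s s' : Y.St) : Prop :=
  ∃ d t s1, cyc = d + t * 2 ^ 10 + 1 ∧ d < 1024 ∧ Trc Y t s s1 ∧ Y.Act d s1 s'

def PH (Y : Sys) (P : ℕ) (s : Y.St) : Prop :=
  Y.cls s = P % 16 ∧ ∀ k, It Y s (P / 2 ^ 4 / 2 ^ (k * 14) % 16384)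

def Dead (Y : Sys) (T : Tabs) (k : ℕ) : Prop := ∀ s, PH Y (pat T k) s → Y.Goal

def Out (Y : Sys) (T : Tabs) (n cyc : ℕ) (s : Y.St) : Prop :=
  Y.Goal ∨ ∃ s', Cyc Y cyc s s' ∧ PH Y (pat T n) s'

lemma mtItem_sound (H : TabOK Y T) {d p y : ℕ} {s s' : Y.St} (ha : Y.Act d s s') (h : It Y s y)
    (hm : mtItem T d p y = true) : It Y s' p := by
  rw [mtItem, brec] at hm
  split_ifs at hm
  · rw [Nat.beq_eq, l127, l127] at hm
    rw [← hm]
    exact act_fast H ha (Nat.mod_lt _ (by norm_num)) (by simpa using h.mod 1)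
  · rw [Nat.beq_eq, l16383] at hm
    rw [← hm]
    exact (act_sound H _ _ _ _ ha h).mod 2

lemma mt_succ (R x d : ℕ) (tr : ℕ → ℕ) (f P sh : ℕ) : mt T R x d tr (f + 1) P sh =
    Bool.rec (motive := fun _ => Bool)
      (Nat.rec (motive := fun _ => Bool) false
        (fun s _ => Bool.rec (motive := fun _ => Bool) false
          (mt T R x d tr f (Nat.shiftRight P 14) (Nat.shiftRight sh 8))
          (Bool.rec (motive := fun _ => Bool) (mtItem T d (Nat.land P 16383) (tr (selR R s)))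
            (mtItem T d (Nat.land P 16383) (tr x)) (Nat.beq s 0)))
        (Nat.land sh 255))
      true (Nat.beq P 0) := rfl

lemma run_succ (n cyc R x g k f i : ℕ) (tr : ℕ → ℕ) (trc sh : ℕ) :
    run T n cyc R x g k (f + 1) i tr trc sh =
    Nat.rec (motive := fun _ => Bool) (fin T n cyc R x g k i tr trc (Nat.shiftRight sh 8))
      (fun s _ => Bool.rec (motive := fun _ => Bool)
        (step T (run T n cyc R x g k f) i tr trc sh (tr (selR R s)))
        (step T (run T n cyc R x g k f) i tr trc sh (tr x)) (Nat.beq s 0))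
      (Nat.land sh 255) := rfl

lemma kids_succ (n cyc i R x p lo ban : ℕ) (c : ℕ → Bool) (k ws es : ℕ) :
    kids T n cyc i R x p lo ban c (k + 1) ws es =
    Bool.rec (motive := fun _ => Bool)
      (Bool.rec (motive := fun _ => Bool)
        (Bool.rec (motive := fun _ => Bool) false
          (kids T n cyc i R x p lo ban c k (Nat.shiftRight ws (Nat.land ws 255)) es)
          (leaf T n cyc i R (x + (Nat.shiftLeft (lo + k) p)) ws))
        (kids T n cyc i R x p lo ban c k (Nat.shiftRight ws 8) (lo + k + Nat.shiftLeft es 7))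
        (Nat.beq (Nat.land ws 255) 0))
      (kids T n cyc i R x p lo ban c k ws es) (Nat.beq (lo + k) ban) := rfl

section
variable (H : TabOK Y T) {n cyc R x : ℕ} {s0 : Y.St} (hR : RootOK Y s0 R) (hx : It Y s0 x)
include H hR hx

lemma mt_sound {d : ℕ} {tr : ℕ → ℕ} {s s' : Y.St} (ha : Y.Act d s s')
    (htr : ∀ z, It Y s0 z → It Y s (tr z)) (fuel : ℕ) :
    ∀ P sh, mt T R x d tr fuel P sh = true → ∀ k, It Y s' (P / 2 ^ (k * 14) % 16384) := by
  induction fuel with
  | zero => intro P sh h; exact absurd h (by simp [mt])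
  | succ f ih =>
    intro P sh h k
    rw [mt_succ, bor] at h
    rcases h with h | h
    · rw [Nat.beq_eq] at h
      exact .nil (by simp [h])
    generalize Nat.land sh 255 = u at h
    rcases u with _ | u
    · exact absurd h (by simp)
    dsimp only at h
    rw [band, brec, l16383] at h
    obtain ⟨h1, h2⟩ := h
    rcases k with _ | k
    · rw [zero_mul, pow_zero, Nat.div_one]
      split_ifs at h1
      · exact mtItem_sound H ha (htr _ hx) h1
      · exact mtItem_sound H ha (htr _ (sel_sound hR _)) h1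
    · have := ih _ _ h2 k
      rwa [sr, Nat.div_div_eq_div_mul, ← pow_add, show 14 + k * 14 = (k + 1) * 14 by ring] at this

lemma fin_sound (hD : ∀ k < n, Dead Y T k) {g k j trc sh : ℕ} {tr : ℕ → ℕ} {s : Y.St}
    (hg : g < 64) (hj : Y.cls s = j) (htr : ∀ z, It Y s0 z → It Y s (tr z)) (ht : Trc Y trc s0 s)
    (h : fin T n cyc R x g k j tr trc sh = true) : Out Y T n cyc s0 := by
  rw [fin, fin2] at h
  dsimp only at h
  rw [band, band, Nat.beq_eq, l15, brec, sr (pat T k), sl j, sl trc] at h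
  obtain ⟨h1, h2, h3⟩ := h
  obtain ⟨s', ha, hc⟩ := H.actEx s g hg
  rw [hj] at ha
  have hP : PH Y (pat T k) s' := ⟨by rw [hc, hj, h1], mt_sound H hR hx ha htr _ _ _ h3⟩
  split_ifs at h2 with hk
  · rw [band, Nat.beq_eq, Nat.beq_eq] at h2
    obtain ⟨rfl, h2⟩ := h2
    have := H.cls_lt s
    exact Or.inr ⟨s', ⟨_, _, s, h2.symm, by change g + j * 2 ^ 6 < 1024; omega, ht, ha⟩, hP⟩
  · exact Or.inl (hD k (by simpa using hk) s' hP)

lemma run_sound (hD : ∀ k < n, Dead Y T k) {g k : ℕ} (hg : g < 64) (fuel : ℕ) :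
    ∀ (i : ℕ) (tr : ℕ → ℕ) (trc sh : ℕ) (s : Y.St), Y.cls s = i →
      (∀ z, It Y s0 z → It Y s (tr z)) → Trc Y trc s0 s →
      run T n cyc R x g k fuel i tr trc sh = true → Out Y T n cyc s0 := by
  induction fuel with
  | zero => intro i tr trc sh s _ _ _ h; exact absurd h (by simp [run])
  | succ f ih =>
    intro i tr trc sh s hi htr ht h
    have key : ∀ y, It Y s y → step T (run T n cyc R x g k f) i tr trc sh y = true →
        Out Y T n cyc s0 := by
      intro y hy h
      rw [step] at h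
      dsimp only at h
      rw [band, l127, sl i, sl trc, Nat.add_eq, Nat.add_eq] at h
      obtain ⟨h1, h2⟩ := h
      obtain ⟨s', h3, -⟩ := hy.inv (by simpa using h1)
      have hc : MvC Y (y % 128 + i * 2 ^ 7) s s' := ⟨by omega, by
        rwa [show (y % 128 + i * 2 ^ 7) % 128 = y % 128 by omega]⟩
      have := H.cls_lt s
      exact ih _ _ _ _ s' (H.nx hc) (fun z hz => mv_sound H _ _ _ _ hc (htr z hz))
        (ht.snoc hc (by omega)) h2
    rw [run_succ] at h
    generalize Nat.land sh 255 = u at h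
    rcases u with _ | u
    · exact fin_sound H hR hx hD hg hi htr ht h
    dsimp only at h
    rw [brec] at h
    split_ifs at h
    · exact key _ (htr _ hx) h
    · exact key _ (htr _ (sel_sound hR _)) h

lemma leaf_sound (hD : ∀ k < n, Dead Y T k) {i w : ℕ} (hi : Y.cls s0 = i)
    (h : leaf T n cyc i R x w = true) : Out Y T n cyc s0 :=
  run_sound H hR hx hD (by rw [l63]; omega) 17 _ _ _ _ s0 hi (fun _ hz => hz) (.nil _) h

end

inductive Mem (e : ℕ) : ℕ → Prop
  | here {es} : es % 128 = e → Mem e es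
  | there {es} : Mem e (es / 128) → Mem e es

lemma Mem.zero {e es : ℕ} (h : Mem e es) (h0 : es = 0) : e = 0 := by
  induction h with
  | here h => omega
  | there _ ih => exact ih (by omega)

lemma ext_exists (l : ℕ) : ∀ (s : Y.St) (x : ℕ), It Y s x → x / 2 ^ (l * 7) = 0 →
    8 ≤ (x * 2 ^ 7 + 8) / 2 ^ (l * 7) →
    ∃ s1, ∀ e s', e < 128 → Y.Mv e s1 s' → It Y s (x + e * 2 ^ (l * 7)) := by
  induction l with
  | zero =>
    intro s x _ h1 _
    refine ⟨s, fun e s' he h => ?_⟩
    rw [show x = 0 by simpa using h1]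
    simpa using It.one he h
  | succ l ih =>
    intro s x h h1 h2
    have e1 : 2 ^ ((l + 1) * 7) = 128 * 2 ^ (l * 7) := by ring
    rw [e1, ← Nat.div_div_eq_div_mul] at h1 h2
    rw [show (x * 2 ^ 7 + 8) / 128 = x by omega] at h2
    obtain ⟨s1, h3, h4⟩ := h.inv (h2.trans (Nat.div_le_self _ _))
    obtain ⟨s2, h5⟩ := ih s1 _ h4 h1 (by
      rcases l with _ | l
      · simp
      · have e2 : 2 ^ ((l + 1) * 7) = 128 * 2 ^ (l * 7) := by ring
        rw [e2, ← Nat.div_div_eq_div_mul] at h2 ⊢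
        rwa [show (x / 128 * 2 ^ 7 + 8) / 128 = x / 128 by omega])
    refine ⟨s2, fun e s' he hm => ?_⟩
    have h6 := h5 e s' he hm
    rw [e1, ← mul_assoc, mul_right_comm]
    generalize e * 2 ^ (l * 7) = u at h6
    refine .cons (s' := s1) ?_ ?_
    · rwa [show (x + u * 128) % 128 = x % 128 by omega]
    · rwa [show (x + u * 128) / 128 = x / 128 + u by omega]

lemma slot_add (B δ : ℕ) (hB : 0 < B) (t : ℕ) : ∀ R t', R / B ^ t % B + δ < B →
    (R + δ * B ^ t) / B ^ t' % B = R / B ^ t' % B + if t' = t then δ else 0 := by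
  induction t with
  | zero =>
    intro R t' h
    simp only [pow_zero, Nat.div_one, mul_one] at h ⊢
    have e : R + δ = (R % B + δ) + B * (R / B) := by have := Nat.mod_add_div R B; omega
    rcases t' with _ | t'
    · simp only [pow_zero, Nat.div_one, if_true]
      rw [e, Nat.add_mul_mod_self_left, Nat.mod_eq_of_lt h]
    · rw [pow_succ', ← Nat.div_div_eq_div_mul, ← Nat.div_div_eq_div_mul, e,
        Nat.add_mul_div_left _ _ hB, Nat.div_eq_of_lt h]
      simp
  | succ t ih =>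
    intro R t' h
    have e : δ * B ^ (t + 1) = B * (δ * B ^ t) := by ring
    rw [pow_succ', ← Nat.div_div_eq_div_mul] at h
    rcases t' with _ | t'
    · simp [e]
    · rw [e, pow_succ' B t', ← Nat.div_div_eq_div_mul, ← Nat.div_div_eq_div_mul,
        Nat.add_mul_div_left _ _ hB, ih _ _ h]
      simp

def SubOK (Y : Sys) (T : Tabs) (n cyc : ℕ) (s0 : Y.St) (sub : ℕ → ℕ → ℕ → Bool) : Prop :=
  ∀ es R q e, sub es R q = true → Mem e es → e ≠ 0 → RootOK Y s0 (R + e * 2 ^ q) →
    Out Y T n cyc s0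

section
variable (H : TabOK Y T) {n cyc i : ℕ} {s0 : Y.St} (hD : ∀ k < n, Dead Y T k) (hi : Y.cls s0 = i)
include H hD hi

lemma kids_sound {R x p lo ban k0 : ℕ} {c : ℕ → Bool} (hR : RootOK Y s0 R)
    (hx : It Y s0 (x + (lo + k0) * 2 ^ p)) (hb : lo + k0 ≠ ban) (cnt : ℕ) :
    ∀ ws es, lo + cnt ≤ 128 → k0 < cnt ∨ Mem (lo + k0) es →
      kids T n cyc i R x p lo ban c cnt ws es = true →
      Out Y T n cyc s0 ∨ ∃ es', c es' = true ∧ Mem (lo + k0) es' := by
  induction cnt with
  | zero => intro ws es _ h1 h; exact Or.inr ⟨es, h, by simpa using h1⟩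
  | succ k ih =>
    intro ws es hl h1 h
    rw [kids_succ, brec, brec, sl, sl] at h
    by_cases hk : k0 = k
    · subst hk
      rw [if_neg (by simpa using hb)] at h
      split_ifs at h
      · exact ih _ _ (by omega) (Or.inr (.here (by omega))) h
      · exact Or.inl (leaf_sound H hR hx hD hi ((band _ _).1 h).1)
    have h2 : k0 < k ∨ Mem (lo + k0) es := h1.imp (by omega) id
    split_ifs at h
    · exact ih _ _ (by omega) h2 h
    · refine ih _ _ (by omega) (h2.imp id fun h3 => .there ?_) h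
      rwa [show (lo + k + es * 2 ^ 7) / 128 = es by omega]
    · exact ih _ _ (by omega) h2 ((band _ _).1 h).2

lemma body_sound (hE : ∀ a, DirOK Y (T.dirs / 2 ^ (a * 16))) {info ws R : ℕ}
    {sub : ℕ → ℕ → ℕ → Bool} (hs : SubOK Y T n cyc s0 sub) (hR : RootOK Y s0 R)
    (h : body T n cyc i info ws sub R = true) : Out Y T n cyc s0 := by
  rw [body, body2, band, band, band, brec] at h
  simp only [md, sr, sl, l3, l7, l15, l31, l127, Nat.mul_eq, Nat.add_eq, Nat.beq_eq,
    Nat.ble_eq] at h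
  have hl : info / 2 ^ 4 % 8 < 8 := Nat.mod_lt _ (by norm_num)
  have hE' := hE (info / 2 ^ 7 % 8)
  have hx := hR (info % 16)
  rw [show (72057594037927936 : ℕ) = 2 ^ 56 by norm_num] at h
  generalize T.dirs / 2 ^ (info / 2 ^ 7 % 8 * 16) = dr at h hE'
  generalize info / 2 ^ 4 % 8 = l at h hl
  generalize info / 2 ^ 10 = ban at h
  generalize info % 16 = t at h hx
  obtain ⟨h1, h2, h3, h4⟩ := h
  obtain ⟨s1, h5⟩ := ext_exists l s0 _ hx h1 h2
  obtain ⟨hc, h0, hone⟩ := hE'.1 (by split_ifs at h3 <;> omega)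
  obtain ⟨k, hk, hb, s', hm⟩ : ∃ k < dr / 2 ^ 7 % 32, dr % 128 + k ≠ ban ∧
      ∃ s', Y.Mv (dr % 128 + k) s1 s' := by
    split_ifs at h3 with hb
    · obtain ⟨k, hk, hm⟩ := hone s1
      exact ⟨k, hk, by omega, hm⟩
    · obtain ⟨k, hk, k', hk', hne, hm, hm'⟩ := hE'.2 h3 s1
      by_cases hkb : dr % 128 + k = ban
      · exact ⟨k', hk', by omega, hm'⟩
      · exact ⟨k, hk, hkb, hm⟩
  have h6 := h5 _ _ (by omega) hm
  rcases kids_sound H hD hi hR h6 hb _ _ _ hc (Or.inl hk) h4 with h7 | ⟨es, h7, h8⟩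
  · exact h7
  refine hs _ _ _ _ h7 h8 (by omega) fun t' => ?_
  have hlt : R / (2 ^ 56) ^ t % 2 ^ 56 + (dr % 128 + k) * 2 ^ (l * 7) < 2 ^ 56 := by
    rw [← pow_mul, mul_comm 56 t]
    have a1 := (Nat.div_eq_zero_iff_lt (by positivity)).1 h1
    have a2 : (dr % 128 + k) * 2 ^ (l * 7) ≤ 127 * 2 ^ (l * 7) := Nat.mul_le_mul_right _ (by omega)
    have a3 : 2 ^ (l * 7) ≤ 2 ^ 49 := Nat.pow_le_pow_right (by norm_num) (by omega)
    omega
  have := slot_add (2 ^ 56) _ (by positivity) t R t' hlt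
  rw [← pow_mul, ← pow_mul, mul_comm 56, mul_comm 56, mul_assoc, ← pow_add, add_comm (l * 7)] at this
  rw [this]
  split_ifs with ht
  · rw [ht]; exact h6
  · exact hR t'

lemma chain_sound (hE : ∀ a, DirOK Y (T.dirs / 2 ^ (a * 16))) (t : Tr) :
    SubOK Y T n cyc s0 (chain T n cyc i t) := by
  induction t with
  | nil =>
    intro es R q e h h1 h2 _
    exact absurd (h1.zero (by simpa [chain] using h)) h2
  | node info ws sub nx ihs ihn =>
    intro es R q e h h1 h2 h3
    change Bool.rec (motive := fun _ => Bool) false _ _ = true at h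
    rw [band, l127, sl, sr] at h
    cases h1 with
    | here h1 => exact body_sound H hD hi hE ihs (by rw [h1]; exact h3) h.1
    | there h1 => exact ihn _ _ _ _ h.2 h1 h2 h3

end

lemma mem_sound {x : ℕ} {l : List ℕ} (h : mem x l = true) : x ∈ l := by
  induction l with
  | nil => exact absurd h (by simp [mem])
  | cons y l ih =>
    change Bool.rec (motive := fun _ => Bool) _ true _ = true at h
    rw [bor, Nat.beq_eq] at h
    rcases h with h | h
    · simp [h]
    · exact List.mem_cons_of_mem _ (ih h)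

lemma root_sound {P R : ℕ} {s : Y.St} (hP : ∀ k, It Y s (P / 2 ^ (k * 14) % 16384))
    (h : rootOk P R 16 = true) : RootOK Y s R := by
  have h1 : ∀ x k, isItem P x k = true → It Y s x := by
    intro x k h
    induction k with
    | zero => exact .nil (by have : x ≤ 7 := by simpa [isItem] using h
                             omega)
    | succ k ih =>
      change Bool.rec (motive := fun _ => Bool) _ true _ = true at h
      rw [bor, Nat.beq_eq, l16383, sr] at h
      rcases h with h | h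
      · rw [h]; exact hP k
      · exact ih h
  have h2 : ∀ m, rootOk P R m = true → R / 2 ^ 896 = 0 ∧
      ∀ t < m, It Y s (R / 2 ^ (t * 56) % 2 ^ 56) := by
    intro m h
    induction m with
    | zero => exact ⟨by rw [← sr, ← Nat.beq_eq]; exact h, by simp⟩
    | succ m ih =>
      change Bool.rec (motive := fun _ => Bool) false _ _ = true at h
      rw [band, md, sr] at h
      refine ⟨(ih h.2).1, fun t ht => ?_⟩
      rcases Nat.lt_succ_iff_lt_or_eq.1 ht with ht | rfl
      · exact (ih h.2).2 t ht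
      · exact h1 _ _ h.1
  intro t
  by_cases ht : t < 16
  · exact (h2 _ h).2 t ht
  · refine .nil ?_
    rw [show t * 56 = 896 + (t - 16) * 56 by omega, pow_add, ← Nat.div_div_eq_div_mul, (h2 _ h).1]
    simp

/-- an infinite repetition of the cycle implies the goal -/
def CycOK (Y : Sys) (cyc : ℕ) : Prop :=
  ∀ X : Y.St → Prop, (∀ s, X s → ∃ s', Cyc Y cyc s s' ∧ X s') → ∀ s, X s → Y.Goal

theorem stages_sound (H : TabOK Y T) (hE : ∀ a, DirOK Y (T.dirs / 2 ^ (a * 16))) {CL : List ℕ}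
    (hC : ∀ c ∈ CL, CycOK Y c) {hi : ℕ} (t : Stg) :
    ∀ n, stages T CL hi t n = true → (∀ k < n, Dead Y T k) → ∀ k < hi, Dead Y T k := by
  induction t with
  | nil => intro n h hD; rwa [← show n = hi by simpa [stages] using h]
  | cons R cyc info ws sub nx ih =>
    intro n h hD
    change Bool.rec (motive := fun _ => Bool) false (stages T CL hi nx (n + 1)) _ = true at h
    rw [band, stage] at h
    dsimp only at h
    rw [band, band, bor, l15, sr, Nat.beq_eq] at h
    obtain ⟨⟨h1, h2, h3⟩, h4⟩ := h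
    refine ih _ h4 fun k hk => ?_
    rcases Nat.lt_succ_iff_lt_or_eq.1 hk with hk | rfl
    · exact hD k hk
    intro s hs
    by_contra hG
    have key : ∀ s, PH Y (pat T k) s → ∃ s', Cyc Y cyc s s' ∧ PH Y (pat T k) s' := fun s hs =>
      (body_sound H hD hs.1 hE (chain_sound H hD hs.1 hE sub) (root_sound hs.2 h1) h3).resolve_left hG
    rcases h2 with h2 | h2
    · obtain ⟨_, ⟨_, _, _, h5, -⟩, -⟩ := key s hs
      omega
    · exact hG (hC _ (mem_sound h2) _ key s hs)

/-- the patterns numbered from `lo` to `hi` are dead if the earlier ones are -/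
def StOK (T : Tabs) (CL : List ℕ) (lo hi : ℕ) : Prop :=
  ∀ Y : Sys, TabOK Y T → (∀ a, DirOK Y (T.dirs / 2 ^ (a * 16))) → (∀ c ∈ CL, CycOK Y c) →
    (∀ k < lo, Dead Y T k) → ∀ k < hi, Dead Y T k

lemma StOK.of {CL : List ℕ} {lo hi : ℕ} (t : Stg) (h : stages T CL hi t lo = true) :
    StOK T CL lo hi := fun _ H hE hC => stages_sound H hE hC t lo h

lemma StOK.trans {CL : List ℕ} {a b c : ℕ} (h : StOK T CL a b) (h' : StOK T CL b c) :
    StOK T CL a c := fun Y H hE hC hD => h' Y H hE hC (h Y H hE hC hD)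

end Pool.Agent.Lib.MP_aed2da_nt.Eng
end
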