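import Pool.Agent.Lib.MP_aed2da_nt.Prim
import Pool.Agent.Lib.MP_aed2da_nt.Eng

-- part Pool.Agent.Lib.MP_aed2da_nt.Mat
section

/-! Fast kernel arithmetic for three by three matrices over `Q P`: exact identities through a
homomorphism to `ZMod N` with size bounds, and congruences modulo a prime. -/

namespace Pool.Agent.Lib.MP_aed2da_nt.Eng
open Clr Matrix

abbrev Mat (P : Par) := Matrix (Fin 3) (Fin 3) (Q P)

structure M9 (α : Type) where
  a : α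
  b : α
  c : α
  d : α
  e : α
  f : α
  g : α
  h : α
  i : α

section
variable {α : Type}

noncomputable def M9.tr (A : M9 α) : M9 α :=
  M9.rec (motive := fun _ => M9 α) (fun a b c d e f g h i => ⟨a, d, g, b, e, h, c, f, i⟩) A

noncomputable def M9.mul (dot : α → α → α → α → α → α → α) (A B : M9 α) : M9 α :=
  M9.rec (motive := fun _ => M9 α) (fun a b c d e f g h i =>
    M9.rec (motive := fun _ => M9 α) (fun a' b' c' d' e' f' g' h' i' =>
      ⟨dot a a' b d' c g', dot a b' b e' c h', dot a c' b f' c i',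
       dot d a' e d' f g', dot d b' e e' f h', dot d c' e f' f i',
       dot g a' h d' i g', dot g b' h e' i h', dot g c' h f' i i'⟩) B) A

noncomputable def M9.zip {β : Type} (op : α → α → β) (A B : M9 α) : M9 β :=
  M9.rec (motive := fun _ => M9 β) (fun a b c d e f g h i =>
    M9.rec (motive := fun _ => M9 β) (fun a' b' c' d' e' f' g' h' i' =>
      ⟨op a a', op b b', op c c', op d d', op e e', op f f', op g g', op h h', op i i'⟩) B) A

def M9.ofF (F : ℕ → α) : M9 α := ⟨F 0, F 1, F 2, F 3, F 4, F 5, F 6, F 7, F 8⟩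

def M9.get (A : M9 α) : Fin 3 → Fin 3 → α := ![![A.a, A.b, A.c], ![A.d, A.e, A.f], ![A.g, A.h, A.i]]

def M9.all (A : M9 Bool) : Bool :=
  A.a && A.b && A.c && A.d && A.e && A.f && A.g && A.h && A.i

lemma M9.get_ofF (F : ℕ → α) (i j : Fin 3) : (M9.ofF F).get i j = F (3 * i + j) := by
  fin_cases i <;> fin_cases j <;> rfl

lemma M9.get00 (A : M9 α) : A.get 0 0 = A.a := rfl

lemma M9.get_zip {β : Type} (op : α → α → β) (A B : M9 α) (i j : Fin 3) :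
    (A.zip op B).get i j = op (A.get i j) (B.get i j) := by
  fin_cases i <;> fin_cases j <;> rfl

lemma M9.get_tr (A : M9 α) (i j : Fin 3) : A.tr.get i j = A.get j i := by
  fin_cases i <;> fin_cases j <;> rfl

lemma M9.get_mul (dot : α → α → α → α → α → α → α) (A B : M9 α) (i j : Fin 3) :
    (A.mul dot B).get i j =
      dot (A.get i 0) (B.get 0 j) (A.get i 1) (B.get 1 j) (A.get i 2) (B.get 2 j) := by
  fin_cases i <;> fin_cases j <;> rfl

lemma M9.all_iff {A : M9 Bool} (h : A.all = true) (i j : Fin 3) : A.get i j = true := by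
  simp only [M9.all, Bool.and_eq_true] at h
  fin_cases i <;> fin_cases j <;> simp [M9.get, h]

end

variable {P : Par}

/-! ### decoding -/

def dig (kb y j : ℕ) : ℕ := Nat.mod (Nat.shiftRight y (Nat.mul kb j)) (Nat.shiftLeft 1 kb)

/-- four digits of `kb + 1` bits with offset `2 ^ kb` -/
def decQ (kb y : ℕ) : Q P :=
  ⟨dig (kb + 1) y 0 - 2 ^ kb, dig (kb + 1) y 1 - 2 ^ kb, dig (kb + 1) y 2 - 2 ^ kb,
    dig (kb + 1) y 3 - 2 ^ kb⟩

def entry (kb x t : ℕ) : ℕ := Nat.shiftRight x (Nat.mul (Nat.mul 4 (Nat.succ kb)) t)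

def decM (kb x : ℕ) : Mat P := Matrix.of fun i j => decQ kb (entry kb x (3 * i + j))

lemma bd_dec (S : Setup P) (hM : ∀ i j, |S.M i j| < 2 ^ 43) (kb y : ℕ) :
    Bd S (kb + 5) (decQ kb y) := by
  have hb : ∀ j, Bd S 3 (Q.basis j) := fun j i => by
    have h1 := S.approx i j
    have h2 : |(S.M i j : ℝ)| + 1 ≤ 2 ^ 43 := by
      rw [← Int.cast_abs]
      exact_mod_cast hM i j
    have h3 := abs_sub_abs_le_abs_sub (2 ^ 40 * S.σ i (Q.basis j)) (S.M i j : ℝ)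
    rw [abs_mul, abs_of_pos (by positivity : (0 : ℝ) < 2 ^ 40)] at h3
    linarith
  have h0 : ∀ j, Bd S kb (((dig (kb + 1) y j - 2 ^ kb : ℤ)) : Q P) := fun j i => by
    rw [map_intCast, ← Int.cast_abs]
    have : dig (kb + 1) y j < 2 ^ (kb + 1) := by
      rw [dig, md, sl, one_mul]; exact Nat.mod_lt _ (by positivity)
    have h1 : (dig (kb + 1) y j : ℤ) < 2 ^ kb * 2 := by exact_mod_cast this
    have h2 : |(dig (kb + 1) y j - 2 ^ kb : ℤ)| ≤ 2 ^ kb := abs_le.2 ⟨by omega, by omega⟩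
    exact_mod_cast h2
  have e : (decQ kb y : Q P) = (((dig (kb + 1) y 0 - 2 ^ kb : ℤ) : Q P) * Q.basis 0 +
      ((dig (kb + 1) y 1 - 2 ^ kb : ℤ) : Q P) * Q.basis 1) +
      (((dig (kb + 1) y 2 - 2 ^ kb : ℤ) : Q P) * Q.basis 2 +
      ((dig (kb + 1) y 3 - 2 ^ kb : ℤ) : Q P) * Q.basis 3) := by
    ext <;> simp only [decQ, Q.basis_apply, Q.add_a, Q.add_b, Q.add_c, Q.add_d, Q.intCast_mul_a,
      Q.intCast_mul_b, Q.intCast_mul_c, Q.intCast_mul_d] <;> simp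
  have h1 := fun i j => (h0 i).mul (hb j)
  rw [e]
  simpa using ((h1 _ _).add (h1 _ _)).add ((h1 _ _).add (h1 _ _))

lemma map_dec {A : Type*} [CommRing A] (f : Q P →+* A) (kb y : ℕ) : f (decQ kb y) =
    dig (kb + 1) y 0 + dig (kb + 1) y 1 * f Q.gw + dig (kb + 1) y 2 * f Q.gh +
      dig (kb + 1) y 3 * (f Q.gw * f Q.gh) - 2 ^ kb * (1 + f Q.gw + f Q.gh + f Q.gw * f Q.gh) := by
  rw [Q.map_eq f]
  simp only [decQ]
  push_cast
  ring

/-! ### exact identities -/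

structure Phi where
  N : ℕ
  W : ℕ
  H : ℕ
  WH : ℕ
  C : ℕ

structure TM where
  m : M9 ℕ
  k : ℕ

def Phi.ev (F : Phi) (kb y : ℕ) : ℕ :=
  Nat.mod (Nat.add (Nat.add (Nat.add (dig (Nat.succ kb) y 0) (Nat.mul (dig (Nat.succ kb) y 1) F.W))
    (Nat.add (Nat.mul (dig (Nat.succ kb) y 2) F.H) (Nat.mul (dig (Nat.succ kb) y 3) F.WH)))
    (Nat.shiftLeft F.C kb)) F.N

def dotN (N a a' b b' c c' : ℕ) : ℕ :=
  Nat.mod (Nat.add (Nat.add (Nat.mul a a') (Nat.mul b b')) (Nat.mul c c')) N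

noncomputable def mx (a b : ℕ) : ℕ := Bool.rec (motive := fun _ => ℕ) a b (Nat.ble a b)

def Phi.dec (F : Phi) (kb x : ℕ) : TM := ⟨M9.ofF fun t => F.ev kb (entry kb x t), Nat.add kb 5⟩
def Phi.sc (F : Phi) (kb y : ℕ) : TM :=
  ⟨⟨F.ev kb y, 0, 0, 0, F.ev kb y, 0, 0, 0, F.ev kb y⟩, Nat.add kb 5⟩
noncomputable def Phi.mul (F : Phi) (A B : TM) : TM :=
  ⟨A.m.mul (dotN F.N) B.m, Nat.add (Nat.add A.k B.k) 2⟩
noncomputable def Phi.add (F : Phi) (A B : TM) : TM :=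
  ⟨A.m.zip (fun x y => Nat.mod (Nat.add x y) F.N) B.m, Nat.succ (mx A.k B.k)⟩
noncomputable def TM.tr (A : TM) : TM := ⟨A.m.tr, A.k⟩
def TM.one : TM := ⟨⟨1, 0, 0, 0, 1, 0, 0, 0, 1⟩, 0⟩
noncomputable def TM.eq (A B : TM) : Bool :=
  (A.m.zip Nat.beq B.m).all && Nat.ble A.k 623 && Nat.ble B.k 623
def yN : ℕ := 590295810358705651712
def uM : M9 ℕ := ⟨1, yN, Nat.pow yN 2, 0, 0, 0, 0, 0, 0⟩
def wM : M9 ℕ := ⟨1, 0, 0, Nat.pow yN 3, 0, 0, Nat.pow yN 6, 0, 0⟩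
noncomputable def Phi.ul (F : Phi) (A : TM) : M9 ℕ := uM.mul (dotN F.N) A.m
noncomputable def Phi.wr (F : Phi) (A : TM) : M9 ℕ := A.m.mul (dotN F.N) wM

/-- test for `A * B = C * (D * E)` -/
noncomputable def Phi.chk5 (F : Phi) (A B C D E : TM) : Bool :=
  Bool.rec (motive := fun _ => Bool) false
    (Bool.rec (motive := fun _ => Bool) false
      (Nat.beq ((F.ul A).mul (dotN F.N) (F.wr B)).a
        ((F.ul C).mul (dotN F.N) (D.m.mul (dotN F.N) (F.wr E))).a)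
      (Nat.ble (Nat.add A.k B.k) 65))
    (Nat.ble (Nat.add (Nat.add C.k D.k) E.k) 63)

def Phi.ok (F : Phi) (P : Par) : Prop :=
  2 ^ 2496 < F.N ∧ ((F.W : ℤ) * F.W - (P.r + P.p * F.W)) % F.N = 0 ∧
  ((F.H : ℤ) * F.H - (P.t0 + P.t1 * F.W + (P.s0 + P.s1 * F.W) * F.H)) % F.N = 0 ∧
  F.WH = F.W * F.H % F.N ∧ (F.C + (1 + F.W + F.H + F.W * F.H)) % F.N = 0

instance (F : Phi) (P : Par) : Decidable (F.ok P) := by unfold Phi.ok; infer_instance

/-- the setup together with a large modulus -/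
structure Ctx (P : Par) (F : Phi) where
  S : Setup P
  hM : ∀ i j, |S.M i j| < 2 ^ 43
  φ : Q P →+* ZMod F.N
  hN : 2 ^ 2496 < F.N
  ev : ∀ kb y, φ (decQ kb y) = F.ev kb y

noncomputable def Ctx.of (S : Setup P) (hM : ∀ i j, |S.M i j| < 2 ^ 43) (F : Phi) (h : F.ok P) :
    Ctx P F :=
  have hz : ∀ {z : ℤ}, z % F.N = 0 → (z : ZMod F.N) = 0 := fun h =>
    (ZMod.intCast_zmod_eq_zero_iff_dvd _ _).2 (Int.dvd_of_emod_eq_zero h)
  have hrel : Q.Rel P (F.W : ZMod F.N) F.H := by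
    have e1 := hz h.2.1
    have e2 := hz h.2.2.1
    push_cast at e1 e2
    exact ⟨sub_eq_zero.1 e1, sub_eq_zero.1 e2⟩
  { S := S, hM := hM, φ := Q.lift _ _ hrel, hN := h.1
    ev := fun kb y => by
      have e1 : Q.lift _ _ hrel Q.gw = F.W := by simp [Q.lift_apply, Q.gw]
      have e2 : Q.lift _ _ hrel Q.gh = F.H := by simp [Q.lift_apply, Q.gh]
      have e3 : ((F.C + (1 + F.W + F.H + F.W * F.H) : ℕ) : ZMod F.N) = 0 :=
        (ZMod.natCast_eq_zero_iff _ _).2 (Nat.dvd_of_mod_eq_zero h.2.2.2.2)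
      rw [map_dec, e1, e2, Phi.ev, md, ZMod.natCast_mod, sl, h.2.2.2.1]
      simp only [Nat.add_eq, Nat.mul_eq, Nat.succ_eq_add_one]
      push_cast at e3 ⊢
      rw [ZMod.natCast_mod]
      push_cast
      linear_combination (-2 ^ kb) * e3 }

variable {F : Phi} (X : Ctx P F)

def Ctx.Rel (A : Mat P) (M : M9 ℕ) : Prop := ∀ i j, X.φ (A i j) = M.get i j
def Ctx.Rep (A : Mat P) (T : TM) : Prop := X.Rel A T.m ∧ ∀ i j, Bd X.S T.k (A i j)

variable {X} {A B C D E : Mat P} {a b c d e : TM}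

lemma Ctx.Rel.mul {a b : M9 ℕ} (ha : X.Rel A a) (hb : X.Rel B b) :
    X.Rel (A * B) (a.mul (dotN F.N) b) := fun i j => by
  rw [M9.get_mul, mul_apply, Fin.sum_univ_three, dotN, md, ZMod.natCast_mod]
  simp [ha _ _, hb _ _]

lemma bd_mul {k l : ℕ} (ha : ∀ i j, Bd X.S k (A i j)) (hb : ∀ i j, Bd X.S l (B i j)) (i j) :
    Bd X.S (k + l + 2) ((A * B) i j) := by
  rw [mul_apply, Fin.sum_univ_three]
  exact ((((ha _ _).mul (hb _ _)).add ((ha _ _).mul (hb _ _))).add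
    ((ha _ _).mul (hb _ _))).mono (by omega)

lemma Ctx.Rep.mul (ha : X.Rep A a) (hb : X.Rep B b) : X.Rep (A * B) (F.mul a b) :=
  ⟨ha.1.mul hb.1, bd_mul ha.2 hb.2⟩

lemma Ctx.Rep.add (ha : X.Rep A a) (hb : X.Rep B b) : X.Rep (A + B) (F.add a b) := by
  refine ⟨fun i j => ?_, fun i j => ((ha.2 i j).add (hb.2 i j)).mono ?_⟩
  · rw [Phi.add, M9.get_zip, md, ZMod.natCast_mod]
    simp [ha.1 _ _, hb.1 _ _]
  · change _ ≤ mx a.k b.k + 1
    rw [mx, brec]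
    split_ifs with h <;> simp at h <;> omega

lemma Ctx.Rep.tr (ha : X.Rep A a) : X.Rep Aᵀ a.tr :=
  ⟨fun i j => by rw [TM.tr, M9.get_tr]; exact ha.1 j i, fun i j => ha.2 j i⟩

lemma Ctx.rep_dec (kb x : ℕ) : X.Rep (decM kb x) (F.dec kb x) :=
  ⟨fun i j => by rw [Phi.dec, M9.get_ofF]; exact X.ev _ _, fun _ _ => bd_dec X.S X.hM _ _⟩

lemma bd_zero (S : Setup P) (k : ℕ) : Bd S k 0 := fun i => by simp

lemma Ctx.rep_sc (kb y : ℕ) : X.Rep ((decQ kb y : Q P) • (1 : Mat P)) (F.sc kb y) := by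
  refine ⟨fun i j => ?_, fun i j => ?_⟩
  · fin_cases i <;> fin_cases j <;> simp [M9.get, Phi.sc, X.ev]
  · by_cases h : i = j
    · simpa [h, Phi.sc] using bd_dec X.S X.hM kb y
    · simpa [h] using bd_zero X.S _

lemma Ctx.rep_one : X.Rep 1 TM.one := by
  refine ⟨fun i j => ?_, fun i j => ?_⟩
  · fin_cases i <;> fin_cases j <;> simp [M9.get, TM.one]
  · by_cases h : i = j
    · rw [h, one_apply_eq]; simpa [TM.one] using Bd.two (S := X.S) 0
    · simpa [h] using bd_zero X.S _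

lemma Ctx.zero_of {x : Q P} (hx : Bd X.S 624 x) (h : X.φ x = 0) : x = 0 := by
  have h2 : ((Q.nm x : ℤ) : ZMod F.N) = 0 := by
    rw [← map_intCast X.φ, ← Q.mul_adj, map_mul, h, zero_mul]
  have h3 : Q.nm x = 0 := by
    refine Int.eq_zero_of_abs_lt_dvd ((ZMod.intCast_zmod_eq_zero_iff_dvd _ _).1 h2)
      (hx.nm.trans_lt ?_)
    have := X.hN
    rw [show 4 * 624 = 2496 from rfl]
    generalize 2496 = n at this
    exact_mod_cast this
  by_contra hne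
  exact Pid.nm_ne_zero X.S hne h3

lemma Ctx.Rep.eq (ha : X.Rep A a) (hb : X.Rep B b) (h : a.eq b = true) : A = B := by
  simp only [TM.eq, Bool.and_eq_true, Nat.ble_eq] at h
  ext1 i j
  have h1 := M9.all_iff h.1.1 i j
  rw [M9.get_zip, Nat.beq_eq] at h1
  rw [← sub_eq_zero]
  refine X.zero_of ?_ (by rw [map_sub, ha.1, hb.1, h1, sub_self])
  rw [sub_eq_add_neg]
  exact ((ha.2 i j).add (hb.2 i j).neg).mono (by omega)

lemma dig_step {x r : Q P} (hx : Bd X.S 68 x) (h : x + yN * r = 0) : x = 0 ∧ r = 0 := by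
  have h1 : ∀ i, |X.S.σ i r| ≤ 1 / 2 := fun i => by
    have h2 := hx i
    rw [eq_neg_of_add_eq_zero_left h, map_neg, abs_neg, map_mul, map_natCast, abs_mul,
      Nat.abs_cast, yN] at h2
    push_cast at h2
    linarith
  have h2 : |(Q.nm r : ℝ)| ≤ (1 / 2) ^ 4 := by
    rw [← X.S.prod_σ, Finset.abs_prod, ← Fin.prod_const]
    exact Finset.prod_le_prod (fun i _ => abs_nonneg _) (fun i _ => h1 i)
  have h3 : |Q.nm r| < 1 := by
    have : |(Q.nm r : ℝ)| < 1 := h2.trans_lt (by norm_num)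
    rw [← Int.cast_abs] at this
    exact_mod_cast this
  have h4 : r = 0 := by
    by_contra hne
    exact Pid.nm_ne_zero X.S hne (Int.abs_lt_one_iff.1 h3)
  exact ⟨by simpa [h4] using h, h4⟩

theorem Ctx.chk5 (ha : X.Rep A a) (hb : X.Rep B b) (hc : X.Rep C c) (hd : X.Rep D d)
    (he : X.Rep E e) (h : F.chk5 a b c d e = true) : A * B = C * (D * E) := by
  rw [Phi.chk5, band, band, Phi.ul, Phi.ul, Phi.wr, Phi.wr] at h
  simp only [Nat.ble_eq, Nat.beq_eq, Nat.add_eq] at h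
  obtain ⟨h1, h2, h3⟩ := h
  have by1 : Bd X.S 69 (yN : Q P) := fun i => by rw [map_natCast, Nat.abs_cast, yN]; norm_num
  have by2 := by1.mul by1
  have by3 := by2.mul by1
  have b1 : ∀ k, Bd X.S k 1 := fun k => (by simpa using Bd.two (S := X.S) 0 : Bd X.S 0 1).mono k.zero_le
  have hy : X.φ yN = yN := map_natCast _ _
  generalize hy' : (yN : Q P) = y at by1 by2 by3 hy
  let U : Mat P := !![1, y, y * y; 0, 0, 0; 0, 0, 0]
  let W : Mat P := !![1, 0, 0; y * y * y, 0, 0; y * y * y * (y * y * y), 0, 0]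
  have hU : X.Rel U uM := fun i j => by
    fin_cases i <;> fin_cases j <;> simp [U, uM, M9.get, hy, pow_two]
  have hW : X.Rel W wM := fun i j => by
    fin_cases i <;> fin_cases j <;> simp [W, wM, M9.get, hy] <;> ring
  have bU : ∀ i j, Bd X.S 138 (U i j) := by
    simp only [Fin.forall_fin_succ, IsEmpty.forall_iff, and_true]
    exact ⟨⟨b1 _, by1.mono (by norm_num), by2⟩, ⟨bd_zero _ _, bd_zero _ _, bd_zero _ _⟩,
      bd_zero _ _, bd_zero _ _, bd_zero _ _⟩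
  have bW : ∀ i j, Bd X.S 414 (W i j) := by
    simp only [Fin.forall_fin_succ, IsEmpty.forall_iff, and_true]
    exact ⟨⟨b1 _, bd_zero _ _, bd_zero _ _⟩, ⟨by3.mono (by norm_num), bd_zero _ _, bd_zero _ _⟩,
      by3.mul by3, bd_zero _ _, bd_zero _ _⟩
  have e1 := ((hU.mul ha.1).mul (hb.1.mul hW)) 0 0
  have e2 := ((hU.mul hc.1).mul (hd.1.mul (he.1.mul hW))) 0 0
  have hΔ : ∀ i j, Bd X.S 68 ((A * B - C * (D * E)) i j) := fun i j => by
    rw [Matrix.sub_apply, sub_eq_add_neg]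
    exact ((bd_mul ha.2 hb.2 i j).add (bd_mul hc.2 (bd_mul hd.2 he.2) i j).neg).mono (by omega)
  have h4 : (U * (A * B - C * (D * E)) * W) 0 0 = 0 := by
    refine X.zero_of ((bd_mul (bd_mul bU hΔ) bW 0 0).mono (by norm_num)) ?_
    have : U * (A * B - C * (D * E)) * W = U * A * (B * W) - U * C * (D * (E * W)) := by
      simp only [mul_sub, sub_mul, Matrix.mul_assoc]
    rw [this, Matrix.sub_apply, map_sub, e1, e2, sub_eq_zero, M9.get00, M9.get00, h3]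
  rw [← sub_eq_zero]
  generalize A * B - C * (D * E) = Z at hΔ h4
  have h5 : Z 0 0 + y * (Z 1 0 + y * (Z 2 0 + y * (Z 0 1 + y * (Z 1 1 + y *
      (Z 2 1 + y * (Z 0 2 + y * (Z 1 2 + y * Z 2 2))))))) = 0 := by
    rw [← h4]
    simp [mul_apply, Fin.sum_univ_three, U, W, vecMul, dotProduct]
    ring
  subst hy'
  obtain ⟨z0, h5⟩ := dig_step (hΔ _ _) h5
  obtain ⟨z1, h5⟩ := dig_step (hΔ _ _) h5
  obtain ⟨z2, h5⟩ := dig_step (hΔ _ _) h5
  obtain ⟨z3, h5⟩ := dig_step (hΔ _ _) h5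
  obtain ⟨z4, h5⟩ := dig_step (hΔ _ _) h5
  obtain ⟨z5, h5⟩ := dig_step (hΔ _ _) h5
  obtain ⟨z6, h5⟩ := dig_step (hΔ _ _) h5
  obtain ⟨z7, z8⟩ := dig_step (hΔ _ _) h5
  ext1 i j
  fin_cases i <;> fin_cases j <;> assumption

attribute [irreducible] Phi.chk5 TM.eq

end Pool.Agent.Lib.MP_aed2da_nt.Eng
end

-- part Pool.Agent.Lib.MP_aed2da_nt.Conic
section

/-! Neighbours of a ternary lattice at a prime: parametrisation of the conic, existence of edges,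
removal of denominators. -/

namespace Pool.Agent.Lib.MP_aed2da_nt.Eng
open Matrix

section Fld
variable {F : Type*} [CommRing F]

def Jm (F : Type*) [CommRing F] : Matrix (Fin 3) (Fin 3) F := !![0, 1, 0; 1, 0, 0; 0, 0, -1]

/-- first row: a point of the conic; second row: another point of its tangent -/
def Tm (dy inf : Bool) (t : F) : Matrix (Fin 3) (Fin 3) F :=
  if inf then !![1, 0, 0; 0, 0, 1; 0, 0, 0] else
    if dy then !![t, 1, 0; 0, 0, 1; 0, 0, 0] else !![t * t, 2, 2 * t; t, 0, 1; 0, 0, 0]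

def bJ (c d : Fin 3 → F) : F := c 0 * d 1 + c 1 * d 0 - c 2 * d 2

lemma coords {Y G : Matrix (Fin 3) (Fin 3) F} (h : Y * G * Yᵀ = Jm F) (v : Fin 3 → F) :
    ∃ c, v = c ᵥ* Y := by
  have h1 : Jm F * Jm F = 1 := by
    ext i j; fin_cases i <;> fin_cases j <;> simp [Jm, mul_apply, Fin.sum_univ_three]
  have h2 : Y * (G * Yᵀ * Jm F) = 1 := by rw [← h1, ← h]; simp only [h, ← Matrix.mul_assoc]
  exact ⟨v ᵥ* (G * Yᵀ * Jm F), by rw [vecMul_vecMul, mul_eq_one_comm.1 h2, vecMul_one]⟩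

lemma bil {Y G : Matrix (Fin 3) (Fin 3) F} (h : Y * G * Yᵀ = Jm F) (c d : Fin 3 → F) :
    (c ᵥ* Y) ᵥ* G ⬝ᵥ (d ᵥ* Y) = bJ c d := by
  rw [← mulVec_transpose Y d, dotProduct_mulVec, vecMul_vecMul, vecMul_vecMul, ← Matrix.mul_assoc, h]
  simp [Jm, bJ, vecMul, dotProduct, Fin.sum_univ_three]
  ring

end Fld

section Fld2
variable {F : Type*} [Field F] {dy : Bool} (hd : dy = true ↔ (2 : F) = 0)
include hd

lemma perp {inf : Bool} {t : F} {c : Fin 3 → F} (h : bJ (Tm dy inf t 0) c = 0) :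
    ∃ a b : F, c = a • Tm dy inf t 0 + b • Tm dy inf t 1 := by
  cases inf
  · cases dy
    · have h2 : (2 : F) ≠ 0 := by simpa using hd
      refine ⟨c 1 / 2, c 2 - c 1 * t, funext fun j => ?_⟩
      simp [Tm, bJ] at h
      fin_cases j <;> simp [Tm] <;> field_simp
      · linear_combination h
      · ring
    · have h2 : (2 : F) = 0 := by simpa using hd
      refine ⟨c 1, c 2, funext fun j => ?_⟩
      simp [Tm, bJ] at h
      fin_cases j <;> simp [Tm]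
      linear_combination h - c 1 * t * h2
  · refine ⟨c 0, c 2, funext fun j => ?_⟩
    simp [Tm, bJ] at h
    fin_cases j <;> simp [Tm, h]

lemma ex_one (c : Fin 3 → F) (h : dy = true ∨ ∃ z, bJ c c + z ^ 2 = 0) :
    ∃ inf t, bJ (Tm dy inf t 0) c = 0 := by
  by_cases h1 : c 1 = 0
  · exact ⟨true, 0, by simp [Tm, bJ, h1]⟩
  cases dy
  · obtain ⟨z, hz⟩ := h.resolve_left (by simp)
    refine ⟨false, (c 2 + z) / c 1, ?_⟩
    simp only [Tm, bJ] at hz ⊢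
    simp
    field_simp
    linear_combination hz
  · refine ⟨false, -c 0 / c 1, ?_⟩
    simp [Tm, bJ]
    field_simp
    ring

lemma ex_two (h0 : dy = false) (c : Fin 3 → F) (z : F) (hz : bJ c c + z ^ 2 = 0) (hz0 : z ≠ 0) :
    ∃ inf t t', (inf = true ∨ t ≠ t') ∧ bJ (Tm dy inf t 0) c = 0 ∧ bJ (Tm dy false t' 0) c = 0 := by
  subst h0
  have h2 : (2 : F) ≠ 0 := by simpa using hd
  simp only [bJ] at hz
  by_cases h1 : c 1 = 0
  · have h3 : c 2 ≠ 0 := fun h3 => hz0 (by simpa [h1, h3] using hz)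
    refine ⟨true, 0, c 0 / c 2, Or.inl rfl, by simp [Tm, bJ, h1], ?_⟩
    simp [Tm, bJ, h1]
    field_simp
    ring
  refine ⟨false, (c 2 + z) / c 1, (c 2 - z) / c 1, Or.inr fun h => ?_, ?_, ?_⟩
  · field_simp at h
    exact mul_ne_zero h2 hz0 (by linear_combination h)
  · simp [Tm, bJ]
    field_simp
    linear_combination hz
  · simp [Tm, bJ]
    field_simp
    linear_combination hz

lemma ex_iso (c : Fin 3 → F) (hc : bJ c c = 0) : ∃ (inf : Bool) (t a : F), c = a • Tm dy inf t 0 := by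
  simp only [bJ] at hc
  by_cases h1 : c 1 = 0
  · have h3 : c 2 = 0 := by simpa [h1] using hc
    exact ⟨true, 0, c 0, funext fun j => by fin_cases j <;> simp [Tm, h1, h3]⟩
  cases dy
  · have h2 : (2 : F) ≠ 0 := by simpa using hd
    refine ⟨false, c 2 / c 1, c 1 / 2, funext fun j => ?_⟩
    fin_cases j <;> simp [Tm] <;> field_simp
    linear_combination hc
  · have h2 : (2 : F) = 0 := by simpa using hd
    have h3 : c 2 = 0 := mul_self_eq_zero.1 (by linear_combination c 0 * c 1 * h2 - hc)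
    refine ⟨false, c 0 / c 1, c 1, funext fun j => ?_⟩
    fin_cases j <;> simp [Tm, h3]
    field_simp

end Fld2

variable {P : Par}

/-! ### residue arithmetic -/

structure Res where
  pi : ℕ
  g : ℕ
  p : ℕ
  n2 : ℕ
  al : ℕ
  be : ℕ
  a1 : ℕ
  a2 : ℕ
  a3 : ℕ
  b1 : ℕ
  b2 : ℕ
  b3 : ℕ
  dy : Bool
  base : ℕ

structure F2 where
  u : ℕ
  v : ℕ

namespace Res
variable (D : Res)

def w : Q P := decQ 16 D.pi
def gg : Q P := decQ 16 D.g
def q : ℕ := Nat.mul D.p D.n2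
def rep (k : ℕ) : Q P := (k % D.p : ℕ) + (k / D.p : ℕ) * (D.gg : Q P)
def repF (k : ℕ) : F2 := ⟨Nat.mod k D.p, Nat.div k D.p⟩
def repM (x : ℕ) : Mat P := Matrix.of fun i j => D.rep (dig 5 x (3 * i + j))
def repMF (x : ℕ) : M9 F2 := M9.ofF fun t => D.repF (dig 5 x t)

noncomputable def dot (x x' y y' z z' : F2) : F2 :=
  F2.rec (motive := fun _ => F2) (fun a b => F2.rec (motive := fun _ => F2) (fun a' b' =>
  F2.rec (motive := fun _ => F2) (fun c d => F2.rec (motive := fun _ => F2) (fun c' d' =>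
  F2.rec (motive := fun _ => F2) (fun e f => F2.rec (motive := fun _ => F2) (fun e' f' =>
    ⟨Nat.mod (Nat.add (Nat.add (Nat.add (Nat.mul a a') (Nat.mul c c')) (Nat.mul e e'))
      (Nat.mul D.be (Nat.add (Nat.add (Nat.mul b b') (Nat.mul d d')) (Nat.mul f f')))) D.p,
     Nat.mod (Nat.add (Nat.add (Nat.add (Nat.add (Nat.mul a b') (Nat.mul b a'))
      (Nat.add (Nat.mul c d') (Nat.mul d c'))) (Nat.add (Nat.mul e f') (Nat.mul f e')))
      (Nat.mul D.al (Nat.add (Nat.add (Nat.mul b b') (Nat.mul d d')) (Nat.mul f f')))) D.p⟩)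
    z') z) y') y) x') x

def lin (a0 a1 a2 a3 y : ℕ) : ℕ :=
  Nat.mod (Nat.add (Nat.add (Nat.add (Nat.mul (dig 17 y 0) a0) (Nat.mul (dig 17 y 1) a1))
    (Nat.add (Nat.mul (dig 17 y 2) a2) (Nat.mul (dig 17 y 3) a3)))
    (Nat.mul (Nat.mul (Nat.pred D.p) 65536) (Nat.add (Nat.add a0 a1) (Nat.add a2 a3)))) D.p

def ev (y : ℕ) : F2 := ⟨D.lin 1 D.a1 D.a2 D.a3 y, D.lin 0 D.b1 D.b2 D.b3 y⟩
def dec (x : ℕ) : M9 F2 := M9.ofF fun t => D.ev (entry 16 x t)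
def eq (x y : F2) : Bool :=
  Nat.beq (Nat.mod x.u D.p) (Nat.mod y.u D.p) && Nat.beq (Nat.mod x.v D.p) (Nat.mod y.v D.p)
noncomputable def mul (A B : M9 F2) : M9 F2 := A.mul D.dot B

noncomputable def tF (k : ℕ) : M9 F2 :=
  Bool.rec (motive := fun _ => M9 F2) (Bool.rec (motive := fun _ => M9 F2)
    ⟨D.dot (D.repF k) (D.repF k) ⟨0, 0⟩ ⟨0, 0⟩ ⟨0, 0⟩ ⟨0, 0⟩, ⟨2, 0⟩,
      D.dot ⟨2, 0⟩ (D.repF k) ⟨0, 0⟩ ⟨0, 0⟩ ⟨0, 0⟩ ⟨0, 0⟩, D.repF k, ⟨0, 0⟩, ⟨1, 0⟩,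
      ⟨0, 0⟩, ⟨0, 0⟩, ⟨0, 0⟩⟩
    ⟨D.repF k, ⟨1, 0⟩, ⟨0, 0⟩, ⟨0, 0⟩, ⟨0, 0⟩, ⟨1, 0⟩, ⟨0, 0⟩, ⟨0, 0⟩, ⟨0, 0⟩⟩ D.dy)
    ⟨⟨1, 0⟩, ⟨0, 0⟩, ⟨0, 0⟩, ⟨0, 0⟩, ⟨0, 0⟩, ⟨1, 0⟩, ⟨0, 0⟩, ⟨0, 0⟩, ⟨0, 0⟩⟩ (Nat.beq k D.q)

def jF : M9 F2 := ⟨⟨0, 0⟩, ⟨1, 0⟩, ⟨0, 0⟩, ⟨1, 0⟩, ⟨0, 0⟩, ⟨0, 0⟩, ⟨0, 0⟩, ⟨0, 0⟩, ⟨Nat.pred D.p, 0⟩⟩

noncomputable def chkY (y gi : ℕ) : Bool :=
  ((D.mul (D.mul (D.repMF y) (D.dec gi)) (D.repMF y).tr).zip D.eq D.jF).all

noncomputable def rows (A B C : M9 F2) : Bool :=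
  D.eq A.a B.a && D.eq A.b B.b && D.eq A.c B.c && D.eq C.d ⟨0, 0⟩ && D.eq C.e ⟨0, 0⟩ &&
    D.eq C.f ⟨0, 0⟩

noncomputable def chkL (y gi gj s z k : ℕ) : Bool :=
  D.rows (D.mul (D.mul (D.tF k) (D.repMF y)) (D.dec gi))
    (D.mul (D.repMF z) (D.mul (D.dec gj) (D.dec s).tr))
    (D.mul (D.mul (D.tF k) (D.repMF y)) (D.dec s))

def ok (P : Par) : Prop :=
  0 < D.p ∧ 0 < D.n2 ∧ Q.nm (D.w : Q P) ≠ 0 ∧ Q.dvdB (D.w : Q P) D.p = true ∧
  Q.dvdB (D.w : Q P) (D.n2 * (D.gg : Q P)) = true ∧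
  Q.dvdB (D.w : Q P) ((D.gg : Q P) * D.gg - ((D.be : Q P) + (D.al : Q P) * D.gg)) = true ∧
  Q.dvdB (D.w : Q P) ((Q.gw : Q P) - ((D.a1 : Q P) + (D.b1 : Q P) * D.gg)) = true ∧
  Q.dvdB (D.w : Q P) ((Q.gh : Q P) - ((D.a2 : Q P) + (D.b2 : Q P) * D.gg)) = true ∧
  Q.dvdB (D.w : Q P) ((Q.gw : Q P) * Q.gh - ((D.a3 : Q P) + (D.b3 : Q P) * D.gg)) = true ∧ Q.dvdB (D.w : Q P) 2 = D.dy ∧
  D.p ∈ [2, 3, 5, 7, 11, 19, 29] ∧ ((Q.nm (D.w : Q P)).natAbs = D.p ∨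
    ((Q.nm (D.w : Q P)).natAbs = D.p ^ 2 ∧ Pid.noSol P D.p = true))

instance (P : Par) : Decidable (D.ok P) := by unfold ok; infer_instance

/-- the residue condition with table `tab` -/
def lit (P : Par) (tab : ℕ) : Lit P := ⟨D.p, D.n2, ⟨1, D.a1, D.a2, D.a3⟩, ⟨0, D.b1, D.b2, D.b3⟩, tab⟩

variable {D} {F : Type*} [Field F] {π : Q P →+* F}

structure Hom (D : Res) (π : Q P →+* F) : Prop where
  ker : ∀ x, π x = 0 ↔ D.w ∣ x
  surj : Function.Surjective π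
  p0 : 0 < D.p
  n0 : 0 < D.n2
  hp : (D.p : F) = 0
  hn : D.n2 * π D.gg = 0
  hg : π D.gg * π D.gg = D.be + D.al * π D.gg
  h1 : π Q.gw = D.a1 + D.b1 * π D.gg
  h2 : π Q.gh = D.a2 + D.b2 * π D.gg
  h3 : π Q.gw * π Q.gh = D.a3 + D.b3 * π D.gg
  hd : D.dy = true ↔ (2 : F) = 0

theorem prime (S : Setup P) [IsDomain (Q P)] [IsPrincipalIdealRing (Q P)] (h : D.ok P) :
    Prime (D.w : Q P) := by
  obtain ⟨h1, -, -, -, -, -, -, -, -, -, h2, h3⟩ := h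
  have hp : D.p.Prime := by
    simp only [List.mem_cons, List.not_mem_nil, or_false] at h2
    rcases h2 with h | h | h | h | h | h | h <;> rw [h] <;> norm_num
  rcases h3 with h3 | ⟨h3, h4⟩
  · exact S.prime_of_nm _ (h3 ▸ hp)
  · exact S.prime_of_nm_sq _ _ hp h3 (Pid.noSol_sound h1.ne' h4)

theorem exists_hom (S : Setup P) [IsDomain (Q P)] [IsPrincipalIdealRing (Q P)] (h : D.ok P) :
    ∃ (F : Type) (_ : Field F) (π : Q P →+* F), Hom D π := by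
  have hp := prime S h
  have hmax : (Ideal.span {(D.w : Q P)}).IsMaximal :=
    PrincipalIdealRing.isMaximal_of_irreducible hp.irreducible
  let _ : Field (Q P ⧸ Ideal.span {(D.w : Q P)}) := Ideal.Quotient.field _
  let π : Q P →+* (Q P ⧸ Ideal.span {(D.w : Q P)}) := Ideal.Quotient.mk _
  have hk : ∀ x, π x = 0 ↔ D.w ∣ x := fun x =>
    Ideal.Quotient.eq_zero_iff_mem.trans Ideal.mem_span_singleton
  obtain ⟨h1, h2, h3, h4, h5, h6, h7, h8, h9, h10, -⟩ := h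
  have hz : ∀ {x}, Q.dvdB (D.w : Q P) x = true → π x = 0 := fun h => (hk _).2 ((Q.dvdB_iff h3 _).1 h)
  refine ⟨_, _, π, hk, Ideal.Quotient.mk_surjective, h1, h2, by simpa using hz h4, by simpa using hz h5, ?_, ?_, ?_, ?_, ?_⟩
  · simpa [sub_eq_zero] using hz h6
  · simpa [sub_eq_zero] using hz h7
  · simpa [sub_eq_zero] using hz h8
  · simpa [sub_eq_zero] using hz h9
  · rw [← h10, Q.dvdB_iff h3, ← hk, map_ofNat]

def val (D : Res) (π : Q P →+* F) (a : F2) : F := a.u + a.v * π D.gg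
def Rel (D : Res) (π : Q P →+* F) (A : Matrix (Fin 3) (Fin 3) F) (M : M9 F2) : Prop :=
  ∀ i j, A i j = val D π (M.get i j)

variable (H : Hom D π)
include H

lemma Hom.mod (n : ℕ) : ((n % D.p : ℕ) : F) = n := by
  conv_rhs => rw [← Nat.mod_add_div n D.p]
  simp [H.hp]

lemma Hom.pred : ((Nat.pred D.p : ℕ) : F) = -1 := by
  rw [Nat.pred_eq_sub_one, Nat.cast_sub H.p0, H.hp]; simp

lemma Hom.dot (x x' y y' z z' : F2) : val D π (D.dot x x' y y' z z') =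
    val D π x * val D π x' + val D π y * val D π y' + val D π z * val D π z' := by
  simp only [val, Res.dot, md, H.mod, Nat.add_eq, Nat.mul_eq]
  push_cast
  linear_combination (-(x.v * x'.v + y.v * y'.v + z.v * z'.v : F)) * H.hg

lemma Hom.ev (y : ℕ) : π (decQ 16 y) = val D π (D.ev y) := by
  rw [map_dec, H.h3, H.h1, H.h2]
  simp only [val, Res.ev, lin, md, H.mod, Nat.add_eq, Nat.mul_eq]
  push_cast
  rw [H.pred]
  ring

lemma Hom.eq {x y : F2} (h : D.eq x y = true) : val D π x = val D π y := by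
  simp only [Res.eq, Bool.and_eq_true, Nat.beq_eq, md] at h
  rw [val, val, ← H.mod x.u, ← H.mod x.v, h.1, h.2, H.mod, H.mod]

omit H in
lemma val_rep (k : ℕ) : π (D.rep k) = val D π (D.repF k) := by
  simp only [rep, map_add, map_mul, map_natCast]; rfl

lemma Hom.mul {A B : Matrix (Fin 3) (Fin 3) F} {a b : M9 F2} (ha : Rel D π A a) (hb : Rel D π B b) :
    Rel D π (A * B) (D.mul a b) := fun i j => by
  rw [Res.mul, M9.get_mul, H.dot, mul_apply, Fin.sum_univ_three, ha, ha, ha, hb, hb, hb]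

omit H in
lemma Rel.tr {A : Matrix (Fin 3) (Fin 3) F} {a : M9 F2} (ha : Rel D π A a) : Rel D π Aᵀ a.tr :=
  fun i j => by rw [M9.get_tr]; exact ha j i

lemma Hom.dec (x : ℕ) : Rel D π ((decM 16 x).map π) (D.dec x) := fun i j => by
  rw [Res.dec, M9.get_ofF]; exact H.ev _

omit H in
lemma rel_rep (x : ℕ) : Rel D π ((D.repM x).map π) (D.repMF x) := fun i j => by
  rw [repMF, M9.get_ofF]; exact val_rep _

lemma Hom.tF (k : ℕ) : Rel D π (Tm D.dy (Nat.beq k D.q) (π (D.rep k))) (D.tF k) := fun i j => by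
  rw [Res.tF, val_rep]
  cases Nat.beq k D.q <;> cases D.dy <;> fin_cases i <;> fin_cases j <;>
    simp [M9.get, H.dot, Tm] <;> simp [val]

lemma Hom.chkY {y gi : ℕ} (h : D.chkY y gi = true) :
    (D.repM y).map π * (decM 16 gi).map π * ((D.repM y).map π)ᵀ = Jm F := by
  ext i j
  have h1 := M9.all_iff h i j
  rw [M9.get_zip] at h1
  rw [H.mul (H.mul (rel_rep y) (H.dec gi)) (rel_rep y).tr, H.eq h1]
  fin_cases i <;> fin_cases j <;> simp [M9.get, jF, val, Jm, H.pred, -Nat.pred_eq_sub_one]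

lemma Hom.chkL {y gi gj s z k : ℕ} (h : D.chkL y gi gj s z k = true) :
    (Tm D.dy (Nat.beq k D.q) (π (D.rep k)) 0 ᵥ* (D.repM y).map π) ᵥ* (decM 16 gi).map π =
      ((D.repM z).map π 0) ᵥ* ((decM 16 gj).map π * ((decM 16 s).map π)ᵀ) ∧
    (Tm D.dy (Nat.beq k D.q) (π (D.rep k)) 1 ᵥ* (D.repM y).map π) ᵥ* (decM 16 s).map π = 0 := by
  simp only [Res.chkL, rows, Bool.and_eq_true] at h
  obtain ⟨⟨⟨⟨⟨h1, h2⟩, h3⟩, h4⟩, h5⟩, h6⟩ := h
  have e1 := H.mul (H.mul (H.tF k) (rel_rep y)) (H.dec gi)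
  have e2 := H.mul (rel_rep z) (H.mul (H.dec gj) (H.dec s).tr)
  have e3 := H.mul (H.mul (H.tF k) (rel_rep y)) (H.dec s)
  have r : ∀ (A B : Matrix (Fin 3) (Fin 3) F) i, A i ᵥ* B = (A * B) i := fun _ _ _ => rfl
  rw [r, r, r, r, r]
  refine ⟨funext fun j => ?_, funext fun j => ?_⟩
  · rw [e1, e2]
    fin_cases j
    exacts [H.eq h1, H.eq h2, H.eq h3]
  · rw [e3]
    fin_cases j
    exacts [(H.eq h4).trans (by simp [val]), (H.eq h5).trans (by simp [val]),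
      (H.eq h6).trans (by simp [val])]

lemma Hom.code (tab : ℕ) (x : Q P) :
    (D.lit P tab).code x < D.q ∧ π x = π (D.rep ((D.lit P tab).code x)) := by
  have hp : (0 : ℤ) < D.p := by exact_mod_cast H.p0
  have hn : (0 : ℤ) < D.n2 := by exact_mod_cast H.n0
  obtain ⟨u, hu⟩ := Int.eq_ofNat_of_zero_le (Int.emod_nonneg (Q.dot (D.lit P tab).l1 x) hp.ne')
  obtain ⟨v, hv⟩ := Int.eq_ofNat_of_zero_le (Int.emod_nonneg (Q.dot (D.lit P tab).l2 x) hn.ne')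
  have hu' : u < D.p := by exact_mod_cast hu ▸ Int.emod_lt_of_pos _ hp
  have hv' : v < D.n2 := by exact_mod_cast hv ▸ Int.emod_lt_of_pos _ hn
  have e : (D.lit P tab).code x = u + D.p * v := by
    rw [Lit.code]; change (_ % (D.p : ℤ)).toNat + D.p * (_ % (D.n2 : ℤ)).toNat = _
    rw [hu, hv]; simp
  rw [e]
  refine ⟨by rw [q, Nat.mul_eq]; nlinarith, ?_⟩
  have e1 := congrArg (Int.cast : ℤ → F) (hu.symm.trans (Int.emod_def _ _))
  have e2 := congrArg (Int.cast : ℤ → F) (hv.symm.trans (Int.emod_def _ _))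
  rw [rep, Nat.add_mul_mod_self_left, Nat.add_mul_div_left _ _ H.p0, Nat.mod_eq_of_lt hu',
    Nat.div_eq_of_lt hu', zero_add, Q.map_eq π x, H.h3, H.h1, H.h2]
  simp only [lit, Q.dot] at e1 e2
  simp only [map_add, map_mul, map_natCast]
  generalize (_ : ℤ) / (D.p : ℤ) = k1 at e1
  generalize (_ : ℤ) / (D.n2 : ℤ) = k2 at e2
  push_cast at e1 e2
  linear_combination -e1 - π D.gg * e2 + k1 * H.hp + k2 * H.hn

lemma Hom.lab (inf : Bool) (t : F) : ∃ k ≤ D.q, Tm D.dy (Nat.beq k D.q) (π (D.rep k)) =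
    Tm D.dy inf t ∧ (inf = true → k = D.q) ∧ (inf = false → k < D.q ∧ π (D.rep k) = t) := by
  cases inf
  · obtain ⟨x, rfl⟩ := H.surj t
    obtain ⟨h1, h2⟩ := H.code 0 x
    refine ⟨_, h1.le, ?_, by simp, fun _ => ⟨h1, h2.symm⟩⟩
    rw [← h2, show Nat.beq _ D.q = false from Bool.eq_false_iff.2 (by simpa using h1.ne)]
  · exact ⟨D.q, le_rfl, by simp [Tm], by simp, by simp⟩

end Res

def VD (m : Q P) (v : Fin 3 → Q P) : Prop := ∀ j, m ∣ v j
def gq (G : Mat P) (v : Fin 3 → Q P) : Q P := v ᵥ* G ⬝ᵥ v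

lemma VD.ex {m : Q P} {v : Fin 3 → Q P} (h : VD m v) : ∃ u, v = m • u := by
  choose u hu using h
  exact ⟨u, funext hu⟩

lemma VD.smul (m : Q P) (v : Fin 3 → Q P) : VD m (m • v) := fun _ => dvd_mul_right _ _

lemma VD.vecMul {m : Q P} {v : Fin 3 → Q P} (h : VD m v) (A : Mat P) : VD m (v ᵥ* A) := by
  obtain ⟨u, rfl⟩ := h.ex
  rw [smul_vecMul]
  exact VD.smul _ _

lemma gq_smul (G : Mat P) (a : Q P) (v : Fin 3 → Q P) : gq G (a • v) = a ^ 2 * gq G v := by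
  simp only [gq, smul_vecMul, smul_dotProduct, dotProduct_smul, smul_eq_mul]; ring

lemma bil_vecMul (G S : Mat P) (v w : Fin 3 → Q P) :
    (v ᵥ* S) ᵥ* G ⬝ᵥ (w ᵥ* S) = v ᵥ* (S * G * Sᵀ) ⬝ᵥ w := by
  rw [← mulVec_transpose S w, dotProduct_mulVec, vecMul_vecMul, vecMul_vecMul, Matrix.mul_assoc]

lemma gq_edge {G G' S : Mat P} {a : Q P} (h : S * G' * Sᵀ = a • G) (v : Fin 3 → Q P) :
    gq G' (v ᵥ* S) = a * gq G v := by
  rw [gq, bil_vecMul, h, vecMul_smul, smul_dotProduct, smul_eq_mul, gq]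

lemma bil_symm {G : Mat P} (h : Gᵀ = G) (v w : Fin 3 → Q P) : v ᵥ* G ⬝ᵥ w = w ᵥ* G ⬝ᵥ v := by
  rw [← dotProduct_mulVec, ← vecMul_transpose, h, dotProduct_comm]

lemma Sq2.add {x y : Q P} (hx : Sq2 x) (hy : Sq2 y) : Sq2 (x + y) := by
  obtain ⟨s, a, hs⟩ := hx
  obtain ⟨t, b, ht⟩ := hy
  exact ⟨s + t, a + b - s * t, by linear_combination hs + ht⟩

lemma Sq2.sub {x y : Q P} (hx : Sq2 x) (hy : Sq2 y) : Sq2 (x - y) := by
  obtain ⟨s, a, hs⟩ := hx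
  obtain ⟨t, b, ht⟩ := hy
  exact ⟨s - t, a - b + s * t - t ^ 2, by linear_combination hs - ht⟩

lemma Sq2.mul {x : Q P} (hx : Sq2 x) (r : Q P) : Sq2 (r ^ 2 * x) := by
  obtain ⟨s, a, hs⟩ := hx
  exact ⟨r * s, r ^ 2 * a, by linear_combination r ^ 2 * hs⟩

structure GOK (G G' : Mat P) : Prop where
  inv : G * G' = 1
  symm : Gᵀ = G
  sq2 : ∀ x, Sq2 (gq G x)

lemma gok_of {G G' A B : Mat P} (h1 : G * G' = 1) (h2 : A + Aᵀ + Bᵀ * B = G) : GOK G G' := by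
  refine ⟨h1, by rw [← h2]; simp [add_comm], fun x => ?_⟩
  have h0 : ∀ r : Q P, Sq2 (r ^ 2) := fun r => ⟨r, by simp⟩
  have := Sq2.add (Sq2.add (Sq2.add (h0 ((B *ᵥ x) 0)) (h0 ((B *ᵥ x) 1))) (h0 ((B *ᵥ x) 2)))
    (⟨0, by simp⟩ : Sq2 (2 * gq A x))
  convert this using 1
  simp only [← h2, gq, vecMul, mulVec, dotProduct, Fin.sum_univ_three, Matrix.add_apply, mul_apply,
    transpose_apply]
  ring

def DyOK (w : Q P) : Prop := ∃ ρ, 2 = ρ * w ∧ ∀ b, Sq2 (ρ * b) → w ∣ b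

lemma inv_edge [IsDomain (Q P)] {G G' H S : Mat P} {a : Q P} (ha : a ≠ 0) (hG : G * G' = 1)
    (h : S * H * Sᵀ = a • G) : H * Sᵀ * G' * S = a • (1 : Mat P) := by
  have h1 : S * (H * Sᵀ * G') = a • (1 : Mat P) := by
    rw [← Matrix.mul_assoc, ← Matrix.mul_assoc, h, smul_mul_assoc, hG]
  have h2 : S.det ≠ 0 := fun h0 => by
    have := congrArg det h1
    rw [det_mul, h0, zero_mul, det_smul, det_one, mul_one] at this
    exact pow_ne_zero _ ha this.symm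
  have h3 : S * (H * Sᵀ * G' * S - a • (1 : Mat P)) = 0 := by
    rw [mul_sub, ← Matrix.mul_assoc, h1]; simp
  have h4 := congrArg (S.adjugate * ·) h3
  simp only [← Matrix.mul_assoc, adjugate_mul, smul_mul_assoc, Matrix.one_mul, Matrix.mul_zero] at h4
  exact sub_eq_zero.1 ((smul_eq_zero.1 h4).resolve_left h2)

/-- what is checked for one edge -/
structure Lab (P : Par) (D : Res) (y gi gj s z k : ℕ) : Prop where
  chk : D.chkL y gi gj s z k = true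
  edge : (decM 16 s : Mat P) * decM 16 gj * (decM 16 s)ᵀ = (D.w * D.w : Q P) • decM 16 gi
  sq2 : ∀ x, Sq2 (gq (decM 16 gj : Mat P) x)

section
variable [IsDomain (Q P)] {D : Res} {F : Type*} [Field F] {π : Q P →+* F} (H : D.Hom π)
  {y gi : ℕ} {G' : Mat P} (hG : GOK (decM 16 gi) G') (hY : D.chkY y gi = true)
include H hG

omit [IsDomain (Q P)] H hG in
lemma map_vm (v : Fin 3 → Q P) (A : Mat P) : π ∘ (v ᵥ* A) = (π ∘ v) ᵥ* A.map π :=
  funext fun i => π.map_vecMul A v i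

omit [IsDomain (Q P)] hG in
lemma vd_iff (v : Fin 3 → Q P) : VD D.w v ↔ π ∘ v = 0 := by
  simp only [VD, ← H.ker, funext_iff]; rfl

omit [IsDomain (Q P)] hG in
lemma w_ne : (D.w : Q P) ≠ 0 := fun h => by
  have h1 : (D.p : Q P) = 0 := by simpa [h] using (H.ker D.p).1 (by simpa using H.hp)
  exact H.p0.ne' (by exact_mod_cast h1)

lemma Lab.lift {gj s z k : ℕ} (L : Lab P D y gi gj s z k) : ∃ u : Fin 3 → Q P,
    π ∘ u = Tm D.dy (Nat.beq k D.q) (π (D.rep k)) 0 ᵥ* (D.repM y).map π ∧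
    u ᵥ* decM 16 s = (D.w * D.w : Q P) • D.repM z 0 := by
  refine ⟨D.repM z 0 ᵥ* (decM 16 gj * (decM 16 s)ᵀ * G'), ?_, ?_⟩
  · rw [← vecMul_vecMul, map_vm, map_vm, Matrix.map_mul, transpose_map]
    erw [← (H.chkL L.chk).1]
    rw [vecMul_vecMul, ← Matrix.map_mul, hG.inv, Matrix.map_one _ π.map_zero π.map_one, vecMul_one]
  · rw [vecMul_vecMul, inv_edge (mul_ne_zero (w_ne H) (w_ne H)) hG.inv L.edge, vecMul_smul,
      vecMul_one]

lemma Lab.zero {gj s z k : ℕ} (L : Lab P D y gi gj s z k) {v : Fin 3 → Q P} {c : Fin 3 → F}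
    (hc : π ∘ v = c ᵥ* (D.repM y).map π) (h : bJ (Tm D.dy (Nat.beq k D.q) (π (D.rep k)) 0) c = 0) :
    VD D.w (v ᵥ* decM 16 s) := by
  obtain ⟨a, b, rfl⟩ := perp H.hd h
  obtain ⟨u, h1, h2⟩ := L.lift H hG
  have h3 : π ∘ (u ᵥ* decM 16 s) = 0 := by
    rw [← vd_iff H, h2, mul_smul]; exact VD.smul _ _
  rw [map_vm, h1] at h3
  rw [vd_iff H, map_vm, hc, add_vecMul, add_vecMul, smul_vecMul, smul_vecMul, smul_vecMul,
    smul_vecMul, h3, (H.chkL L.chk).2]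
  simp

include hY

omit [IsDomain (Q P)] hG in
lemma coords' (v : Fin 3 → Q P) : ∃ c, π ∘ v = c ᵥ* (D.repM y).map π ∧
    π (gq (decM 16 gi) v) = bJ c c := by
  obtain ⟨c, hc⟩ := coords (H.chkY hY) (π ∘ v)
  exact ⟨c, hc, by rw [gq, π.map_dotProduct, map_vm, hc, bil (H.chkY hY)]⟩

variable {gj s z : ℕ → ℕ} (L : ∀ k ≤ D.q, Lab P D y gi (gj k) (s k) (z k) k)
include L

theorem dir_one (v : Fin 3 → Q P) (h : D.dy = true ∨ ∃ r, D.w ∣ gq (decM 16 gi) v + r ^ 2) :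
    ∃ k ≤ D.q, VD D.w (v ᵥ* decM 16 (s k)) := by
  obtain ⟨c, h1, h2⟩ := coords' H hY v
  obtain ⟨inf, t, h3⟩ := ex_one H.hd c (h.imp id fun ⟨r, hr⟩ =>
    ⟨π r, by simpa [h2] using (H.ker _).2 hr⟩)
  obtain ⟨k, hk, h4, -⟩ := H.lab inf t
  exact ⟨k, hk, (L k hk).zero H hG h1 (by rwa [h4])⟩

theorem dir_two (hd : D.dy = false) (v : Fin 3 → Q P) (r : Q P)
    (h : D.w ∣ gq (decM 16 gi) v + r ^ 2) (h0 : ¬ D.w ∣ gq (decM 16 gi) v) :
    ∃ k ≤ D.q, ∃ k' ≤ D.q, k ≠ k' ∧ VD D.w (v ᵥ* decM 16 (s k)) ∧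
      VD D.w (v ᵥ* decM 16 (s k')) := by
  obtain ⟨c, h1, h2⟩ := coords' H hY v
  have h5 : bJ c c + π r ^ 2 = 0 := by simpa [h2] using (H.ker _).2 h
  obtain ⟨inf, t, t', h3, h6, h7⟩ := ex_two H.hd hd c (π r) h5 fun hr =>
    h0 ((H.ker _).1 (by simpa [h2, hr] using h5))
  obtain ⟨k, hk, h4, a1, a2⟩ := H.lab inf t
  obtain ⟨k', hk', h4', -, b2⟩ := H.lab false t'
  refine ⟨k, hk, k', hk', fun e => ?_, (L k hk).zero H hG h1 (by rwa [h4]),
    (L k' hk').zero H hG h1 (by rwa [h4'])⟩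
  cases inf
  · exact h3.resolve_left (by simp) (by rw [← (a2 rfl).2, e, (b2 rfl).2])
  · have := a1 rfl
    have := (b2 rfl).1
    omega

theorem dir_red (hdy : D.dy = true → DyOK (D.w : Q P)) (v : Fin 3 → Q P) (β : Q P)
    (h : gq (decM 16 gi) v = D.w ^ 2 * β) (hβ : Sq2 β) :
    ∃ k ≤ D.q, VD (D.w * D.w) (v ᵥ* decM 16 (s k)) ∨ VD D.w v := by
  obtain ⟨c, h1, h2⟩ := coords' H hY v
  have hw := w_ne H
  have hw0 : π D.w = 0 := (H.ker _).2 dvd_rfl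
  obtain ⟨inf, t, a, h3⟩ := ex_iso H.hd c (by rw [← h2, h]; simp [hw0])
  obtain ⟨k, hk, h4, -⟩ := H.lab inf t
  refine ⟨k, hk, ?_⟩
  by_cases ha : a = 0
  · exact Or.inr ((vd_iff H v).2 (by simp [h1, h3, ha]))
  obtain ⟨l, rfl⟩ := H.surj a
  obtain ⟨u, h5, h6⟩ := (L k hk).lift H hG
  obtain ⟨x, hx⟩ : ∃ x, v - l • u = (D.w : Q P) • x := by
    refine VD.ex ((vd_iff H _).2 ?_)
    have : π ∘ (v - l • u) = π ∘ v - π l • π ∘ u := by ext; simp
    rw [this, h1, h3, h5, h4, smul_vecMul, sub_self]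
  have hv : v = l • u + (D.w : Q P) • x := by rw [← hx]; simp
  have hu : gq (decM 16 gi) u = (D.w * D.w : Q P) * gq (decM 16 (gj k)) (D.repM (z k) 0) := by
    have := gq_edge (L k hk).edge u
    rw [h6, gq_smul] at this
    exact mul_left_cancel₀ (mul_ne_zero hw hw) (by rw [← this]; ring)
  have h7 : gq (decM 16 gi) v = l ^ 2 * gq (decM 16 gi) u +
      2 * l * D.w * (u ᵥ* decM 16 gi ⬝ᵥ x) + D.w ^ 2 * gq (decM 16 gi) x := by
    rw [hv, gq, gq, gq]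
    simp only [add_vecMul, smul_vecMul, add_dotProduct, dotProduct_add, smul_dotProduct,
      dotProduct_smul, smul_eq_mul, bil_symm hG.symm x u]
    ring
  have h8 : D.w * β = l ^ 2 * D.w * gq (decM 16 (gj k)) (D.repM (z k) 0) +
      2 * l * (u ᵥ* decM 16 gi ⬝ᵥ x) + D.w * gq (decM 16 gi) x :=
    mul_left_cancel₀ hw (by rw [hu, h] at h7; linear_combination h7)
  have h9 : π (u ᵥ* decM 16 gi ⬝ᵥ x) = 0 := by
    refine (mul_eq_zero.1 (?_ : π l * _ = 0)).resolve_left ha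
    by_cases hd : D.dy = true
    · obtain ⟨ρ, h2ρ, hρ⟩ := hdy hd
      rw [← map_mul, H.ker]
      refine hρ _ ?_
      have := Sq2.sub (Sq2.sub hβ (Sq2.mul ((L k hk).sq2 (D.repM (z k) 0)) l)) (hG.sq2 x)
      convert this using 1
      exact mul_left_cancel₀ hw (by linear_combination -h8 - l * (u ᵥ* decM 16 gi ⬝ᵥ x) * h2ρ)
    · have := congrArg π h8
      simp only [map_add, map_mul, hw0, zero_mul, mul_zero, zero_add, add_zero, map_ofNat,
        mul_assoc] at this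
      exact (mul_eq_zero.1 this.symm).resolve_left (fun h2 => hd (H.hd.2 h2))
  obtain ⟨c', h10, -⟩ := coords' H hY x
  rw [π.map_dotProduct, map_vm, h5, h10, bil (H.chkY hY)] at h9
  obtain ⟨x', hx'⟩ := ((L k hk).zero H hG h10 h9).ex
  left
  rw [hv, add_vecMul, smul_vecMul, smul_vecMul, h6, hx', smul_comm l, smul_smul _ _ x', ← smul_add]
  exact VD.smul _ _

end

end Pool.Agent.Lib.MP_aed2da_nt.Eng
end

-- part Pool.Agent.Lib.MP_aed2da_nt.Conc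
section

/-! The system of representations by the classes of a genus, and the check of its tables. -/

namespace Pool.Agent.Lib.MP_aed2da_nt.Eng
open Matrix

noncomputable def allN (f : ℕ → Bool) (n : ℕ) : Bool :=
  Nat.rec (motive := fun _ => Bool) true
    (fun k ih => Bool.rec (motive := fun _ => Bool) false ih (f k)) n

lemma allN_sound {f : ℕ → Bool} {n : ℕ} (h : allN f n = true) : ∀ k < n, f k = true := by
  induction n with
  | zero => simp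
  | succ n ih =>
    intro k hk
    change Bool.rec (motive := fun _ => Bool) false (allN f n) (f n) = true at h
    rw [band] at h
    rcases Nat.lt_succ_iff_lt_or_eq.1 hk with hk | rfl
    exacts [ih h.2 k hk, h.1]

noncomputable def frc (n : ℕ) (k : ℕ → Bool) : Bool :=
  Nat.rec (motive := fun _ => Bool) false (fun m _ => k m) (Nat.succ n)
lemma frc_eq (n : ℕ) (k : ℕ → Bool) : frc n k = k n := id rfl

noncomputable def pos (n : ℕ) (k : ℕ → Bool) : Bool :=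
  Nat.rec (motive := fun _ => Bool) false (fun m _ => k m) n
lemma pos_iff {n : ℕ} {k : ℕ → Bool} (h : pos n k = true) : ∃ m, n = m + 1 ∧ k m = true := by
  cases n with
  | zero => exact absurd h (by simp [pos])
  | succ m => exact ⟨m, rfl, h⟩

lemma blef {a b : ℕ} (h : b < a) : Nat.ble a b = false :=
  Bool.eq_false_iff.2 fun h1 => absurd (Nat.le_of_ble_eq_true h1) (by omega)

structure FD where
  F : Phi
  tS : DB
  tG : DB
  tC : DB
  tY : DB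
  dirOf : ℕ
  rs : List Res
  hI : ℕ
  h : ℕ

variable {P : Par}

namespace FD
variable (E : FD)

noncomputable def s (c : ℕ) : ℕ := get E.tS c
noncomputable def g (i : ℕ) : ℕ := get E.tG i
noncomputable def tg (c : ℕ) : ℕ := Nat.land (Nat.shiftRight (E.s c) 612) 15
def dr (y : ℕ) : ℕ := Nat.land (Nat.shiftRight E.dirOf (Nat.mul 3 y)) 7
def res (a : ℕ) : Res := E.rs.getD a ⟨0, 0, 0, 0, 0, 0, 0, 0, 0, 0, 0, 0, false, 0⟩
def pc (a : ℕ) : ℕ := (E.res a).pi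
noncomputable def S (c : ℕ) : Mat P := decM 16 (E.s c)
noncomputable def G (i : ℕ) : Mat P := decM 16 (E.g i)
noncomputable def C (d : ℕ) : Mat P := decM 16 (get E.tC d)
def w (a : ℕ) : Q P := decQ 16 (E.pc a)
noncomputable def mS (c : ℕ) : TM := E.F.dec 16 (E.s c)
noncomputable def mG (i : ℕ) : TM := E.F.dec 16 (E.g i)
noncomputable def mC (d : ℕ) : TM := E.F.dec 16 (get E.tC d)
def mP (a : ℕ) : TM := E.F.sc 16 (E.pc a)
def cd (y i : ℕ) : ℕ := Nat.add y (Nat.mul i 128)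

noncomputable def chkEdge (p i c : ℕ) : Bool := frc (E.tg c) fun j =>
  E.F.chk5 (E.F.mul (E.F.sc 16 p) (E.F.sc 16 p)) (E.mG i) (E.mS c) (E.mG j) (E.mS c).tr

noncomputable def chkRev (c i j b n d : ℕ) : Bool :=
  Nat.ble n 127 && Nat.beq (E.dr n) b && Nat.beq (Nat.div d 64) i &&
    frc (cd n j) fun c2 => Nat.beq (E.tg c2) i && E.F.chk5 (E.mS c) (E.mS c2) (E.mP b) (E.mP b) (E.mC d)

noncomputable def chkSide (c i j b y n x : ℕ) : Bool :=
  pos (Nat.land (Nat.shiftRight x 14) 1023) fun d => pos (Nat.land (Nat.shiftRight x 24) 2047) fun c' =>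
  frc (cd n j) fun c2 => frc (cd y i) fun c1 =>
    Nat.beq (E.dr n) (E.dr y) && !Nat.beq (E.dr y) b && Nat.beq (E.dr (Nat.mod c' 128)) b &&
    Nat.beq (Nat.div c' 128) (E.tg c1) && Nat.beq (E.tg c') (Nat.div d 64) &&
    Nat.beq (E.tg c2) (Nat.div d 64) && E.F.chk5 (E.mS c) (E.mS c2) (E.mS c1) (E.mS c') (E.mC d)

noncomputable def chkSame (T : Tabs) (c i j b y n x : ℕ) : Bool :=
  pos (Nat.land (Nat.shiftRight (eT T c b) 14) 1023) fun d0 => frc (Nat.mod n 128) fun n0 =>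
    E.chkRev c i j b n0 d0 && Nat.beq (Nat.mod (eA T d0 y) 128) (Nat.div n 128) &&
    Nat.beq (Nat.land (Nat.shiftRight (eA T d0 y) 7) 1023) (Nat.land (Nat.shiftRight x 14) 1023) &&
    Nat.ble 1 (Nat.land (Nat.shiftRight x 14) 1023)

noncomputable def chkEnt (T : Tabs) (c i j b f y n x : ℕ) : Bool :=
  cond (Nat.ble y 7)
    (Nat.ble n 7 || pos (Nat.land (Nat.shiftRight x 14) 1023) fun d => frc n fun n0 =>
      E.chkRev c i j b n0 d)
    (Nat.beq (E.dr y) 0 || cond (Nat.ble n 7) (Nat.beq y f)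
      (cond (Nat.ble n 127) (E.chkSide c i j b y n x) (E.chkSame T c i j b y n x)))

noncomputable def chkRow (T : Tabs) (i f : ℕ) : Bool :=
  Nat.beq (E.dr f) 0 || frc (E.dr f) fun b => frc (cd f i) fun c => frc (E.tg c) fun j =>
    Nat.blt j E.hI && Nat.beq (nxt T c) j && E.chkEdge (E.pc b) i c &&
      allN (fun y => E.chkEnt T c i j b f y (Nat.mod (eT T c y) 16384) (eT T c y)) 128

noncomputable def chkT (T : Tabs) (i : ℕ) : Bool := allN (E.chkRow T i) 128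

noncomputable def chkAe (i d y x : ℕ) : Bool :=
  cond (Nat.ble y 7) (Nat.ble (Nat.mod x 128) 7) (Nat.beq (E.dr y) 0 ||
    pos (Nat.land (Nat.shiftRight x 7) 1023) fun d' => frc (cd (Nat.mod x 128) i) fun c2 =>
      frc (cd y i) fun c1 => Nat.beq (E.dr (Nat.mod x 128)) (E.dr y) &&
      Nat.beq (E.tg c2) (Nat.div d' 64) && Nat.beq (E.tg c1) (Nat.div d' 64) &&
      E.F.chk5 (E.mC d) (E.mS c2) (E.mS c1) (E.mC d') TM.one)

noncomputable def chkA (T : Tabs) (i : ℕ) : Bool :=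
  allN (fun g => frc (Nat.add g (Nat.mul i 64)) fun d =>
    E.F.chk5 TM.one (E.mG i) (E.mC d) (E.mG i) (E.mC d).tr &&
      (Nat.beq (rowA T d) 0 || allN (fun y => E.chkAe i d y (eA T d y)) 128)) 64

noncomputable def chkG : Bool :=
  Nat.ble E.hI E.h && Nat.ble E.h 16 && Nat.beq (Nat.mod E.dirOf 16777216) 0 &&
  (E.mG 0).eq TM.one && allN (fun i => frc (Nat.add i 16) fun i' => frc (Nat.add i 32) fun i1 =>
    frc (Nat.add i 48) fun i2 => E.F.chk5 (E.mG i) (E.mG i') TM.one TM.one TM.one &&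
    (E.F.add (E.F.add (E.mG i1) (E.mG i1).tr) (E.F.mul (E.mG i2).tr (E.mG i2))).eq (E.mG i)) E.h

/-- states are representations of `β` by a class, not divisible by `l` -/
noncomputable def sys (β l : Q P) (Goal : Prop) : Sys where
  St := {s : ℕ × (Fin 3 → Q P) // s.1 < E.hI ∧ gq (E.G s.1) s.2 = β ∧ ¬ VD l s.2}
  cls s := s.1.1
  Mv y s s' := y < 128 ∧ E.dr y ≠ 0 ∧ s'.1.1 = E.tg (cd y s.1.1) ∧
    (E.w (E.dr y) : Q P) • s'.1.2 = s.1.2 ᵥ* E.S (cd y s.1.1)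
  Act d s s' := s.1.1 = d / 64 ∧ s'.1.1 = s.1.1 ∧ s'.1.2 = s.1.2 ᵥ* E.C d
  Goal := Goal

variable {E} (X : Ctx P E.F)
include X

lemma rS (c : ℕ) : X.Rep (E.S c) (E.mS c) := Ctx.rep_dec _ _
lemma rG (c : ℕ) : X.Rep (E.G c) (E.mG c) := Ctx.rep_dec _ _
lemma rC (c : ℕ) : X.Rep (E.C c) (E.mC c) := Ctx.rep_dec _ _
lemma rP (a : ℕ) : X.Rep ((E.w a : Q P) • (1 : Mat P)) (E.mP a) := Ctx.rep_sc _ _

lemma edge_of {p i c : ℕ} (h : E.chkEdge p i c = true) :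
    E.S c * E.G (E.tg c) * (E.S c)ᵀ = (decQ 16 p * decQ 16 p : Q P) • (E.G i : Mat P) := by
  rw [chkEdge, frc_eq] at h
  have := Ctx.chk5 ((Ctx.rep_sc (X := X) 16 p).mul (Ctx.rep_sc 16 p)) (rG X i) (rS X c) (rG X _)
    (rS X c).tr h
  rw [Matrix.mul_assoc, ← this]
  simp [mul_smul]

omit X in
lemma dr_small (x y : ℕ) (h : x % 16777216 = 0) (hy : y < 8) : x / 2 ^ (3 * y) % 8 = 0 := by
  interval_cases y <;> omega

lemma chkG_sound (h : E.chkG = true) : E.hI ≤ E.h ∧ E.h ≤ 16 ∧ (∀ y < 8, E.dr y = 0) ∧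
    (E.G 0 : Mat P) = 1 ∧ ∀ i < E.h, GOK (E.G i : Mat P) (E.G (i + 16)) := by
  simp only [chkG, Bool.and_eq_true, Nat.ble_eq, Nat.beq_eq, frc_eq, md] at h
  obtain ⟨⟨⟨⟨h1, h2⟩, h3⟩, h4⟩, h5⟩ := h
  refine ⟨h1, h2, fun y hy => ?_, (rG X 0).eq Ctx.rep_one h4, fun i hi => ?_⟩
  · rw [dr, l7, sr, Nat.mul_eq]
    exact dr_small _ _ h3 hy
  · have h6 := allN_sound h5 i hi
    rw [Bool.and_eq_true] at h6
    exact gok_of (by simpa using Ctx.chk5 (rG X _) (rG X _) Ctx.rep_one Ctx.rep_one Ctx.rep_one h6.1)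
      ((((rG X _).add (rG X _).tr).add ((rG X _).tr.mul (rG X _))).eq (rG X _) h6.2)

omit X in
/-- facts about the primes used as directions -/
structure Dirs (E : FD) (l : Q P) : Prop where
  ne : ∀ y < 128, E.dr y ≠ 0 → (E.w (E.dr y) : Q P) ≠ 0
  nu : ∀ y < 128, E.dr y ≠ 0 → ¬ IsUnit (E.w (E.dr y) : Q P)
  cop : ∀ y < 128, ∀ y' < 128, E.dr y ≠ 0 → E.dr y' ≠ 0 → E.dr y ≠ E.dr y' →
    IsCoprime (E.w (E.dr y) : Q P) (E.w (E.dr y'))
  hl : ∀ y < 128, E.dr y ≠ 0 → ∀ x, l ∣ E.w (E.dr y) * x → l ∣ x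

omit X in
lemma vd_edge [IsDomain (Q P)] {G G' H S : Mat P} {w : Q P} {u v : Fin 3 → Q P} (hw : w ≠ 0)
    (hG : G * G' = 1) (h : S * H * Sᵀ = (w * w) • G) (hu : w • u = v ᵥ* S) :
    w • v = u ᵥ* (H * Sᵀ * G') := by
  refine smul_right_injective _ hw ?_
  dsimp only
  rw [← smul_vecMul, hu, vecMul_vecMul, ← Matrix.mul_assoc, ← Matrix.mul_assoc, h, smul_mul_assoc,
    hG, vecMul_smul, vecMul_one, mul_smul]

variable [IsDomain (Q P)] {T : Tabs} {β l : Q P} {Goal : Prop} (hG : E.chkG = true)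
  (hT : ∀ i < E.hI, E.chkT T i = true) (hA : ∀ i < E.hI, E.chkA T i = true) (hD : E.Dirs l)
include hG hT hA hD

omit hG hA hD [IsDomain (Q P)] in
lemma row_of {i f : ℕ} (hi : i < E.hI) (hf : f < 128) (h0 : E.dr f ≠ 0) :
    E.tg (cd f i) < E.hI ∧ nxt T (cd f i) = E.tg (cd f i) ∧
    E.S (cd f i) * E.G (E.tg (cd f i)) * (E.S (cd f i))ᵀ =
      (E.w (E.dr f) * E.w (E.dr f) : Q P) • (E.G i : Mat P) ∧
    ∀ y < 128, E.chkEnt T (cd f i) i (E.tg (cd f i)) (E.dr f) f y (eT T (cd f i) y % 16384)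
      (eT T (cd f i) y) = true := by
  have h := allN_sound (hT i hi) f hf
  simp only [chkRow, Bool.or_eq_true, Bool.and_eq_true, Nat.beq_eq, frc_eq, h0, false_or,
    Nat.blt_eq] at h
  exact ⟨h.1.1.1, h.1.1.2, edge_of X h.1.2, allN_sound h.2⟩

omit hG hT hD [IsDomain (Q P)] in
lemma aut_of {d : ℕ} (hd : d / 64 < E.hI) :
    (E.C d : Mat P) * E.G (d / 64) * (E.C d)ᵀ = (1 : Q P) • E.G (d / 64) ∧
    (rowA T d = 0 ∨ ∀ y < 128, E.chkAe (d / 64) d y (eA T d y) = true) := by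
  have h := allN_sound (hA _ hd) (d % 64) (Nat.mod_lt _ (by norm_num))
  simp only [Bool.or_eq_true, Bool.and_eq_true, Nat.beq_eq, frc_eq, Nat.add_eq, Nat.mul_eq,
    show d % 64 + d / 64 * 64 = d by omega] at h
  refine ⟨?_, h.2.imp id allN_sound⟩
  rw [Matrix.mul_assoc, ← Ctx.chk5 Ctx.rep_one (rG X _) (rC X _) (rG X _) (rC X _).tr h.1]
  simp

omit hA in
lemma mkMv (s : (E.sys β l Goal).St) {y : ℕ} (hy : y < 128) (h0 : E.dr y ≠ 0) {u : Fin 3 → Q P}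
    (hu : (E.w (E.dr y) : Q P) • u = s.1.2 ᵥ* E.S (cd y s.1.1)) :
    ∃ s' : (E.sys β l Goal).St, (E.sys β l Goal).Mv y s s' ∧ s'.1.2 = u := by
  obtain ⟨h1, -, h2, -⟩ := row_of X hT s.2.1 hy h0
  obtain ⟨g1, -, -, -, g2⟩ := chkG_sound X hG
  have hw := hD.ne y hy h0
  refine ⟨⟨(E.tg (cd y s.1.1), u), h1, ?_, fun h => s.2.2.2 fun j => hD.hl y hy h0 _ ?_⟩,
    ⟨hy, h0, rfl, hu⟩, rfl⟩
  · have := gq_edge h2 s.1.2
    rw [← hu, gq_smul, s.2.2.1, ← pow_two] at this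
    exact mul_left_cancel₀ (pow_ne_zero 2 hw) this
  · have := congrFun (vd_edge hw (g2 _ (s.2.1.trans_le g1)).inv h2 hu) j
    rw [Pi.smul_apply, smul_eq_mul] at this
    rw [this]
    exact h.vecMul _ j

omit hT hD [IsDomain (Q P)] in
lemma aut_inv {d : ℕ} (hd : d / 64 < E.hI) : ∃ C' : Mat P, E.C d * C' = 1 ∧ C' * E.C d = 1 := by
  obtain ⟨g1, -, -, -, g2⟩ := chkG_sound X hG
  have h : (E.C d : Mat P) * (E.G (d / 64) * (E.C d)ᵀ * E.G (d / 64 + 16)) = 1 := by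
    rw [← Matrix.mul_assoc, ← Matrix.mul_assoc, (aut_of X hA hd).1, one_smul,
      (g2 _ (hd.trans_le g1)).inv]
  exact ⟨_, h, mul_eq_one_comm.1 h⟩

omit hT hD [IsDomain (Q P)] in
lemma mkAct (s : (E.sys β l Goal).St) {d : ℕ} (hd : s.1.1 = d / 64) :
    ∃ s', (E.sys β l Goal).Act d s s' := by
  have hd' : d / 64 < E.hI := hd ▸ s.2.1
  obtain ⟨C', h1, -⟩ := aut_inv X hG hA hd'
  refine ⟨⟨(s.1.1, s.1.2 ᵥ* E.C d), s.2.1, ?_, fun h => s.2.2.2 ?_⟩, hd, rfl, rfl⟩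
  · have := gq_edge (aut_of X hA hd').1 s.1.2
    rw [← hd, s.2.2.1, one_mul] at this
    exact this
  · simpa [h1] using h.vecMul C'

omit hT hD in
lemma rev_of {c j b n d : ℕ} {s s' : (E.sys β l Goal).St} (hw : (E.w b : Q P) ≠ 0) (hb : b ≠ 0)
    (hj : s'.1.1 = j) (hs : (E.w b : Q P) • s'.1.2 = s.1.2 ᵥ* E.S c)
    (h : E.chkRev c s.1.1 j b n d = true) :
    n < 128 ∧ ∃ s0, (E.sys β l Goal).Act d s s0 ∧ (E.sys β l Goal).Mv n s' s0 := by
  simp only [chkRev, Bool.and_eq_true, Nat.ble_eq, Nat.beq_eq, frc_eq] at h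
  obtain ⟨⟨⟨h1, h2⟩, h3⟩, h4, h5⟩ := h
  obtain ⟨s0, h6⟩ := mkAct X hG hA s h3.symm
  have h7 := Ctx.chk5 (rS X _) (rS X _) (rP X _) (rP X _) (rC X _) h5
  refine ⟨by omega, s0, h6, by omega, h2 ▸ hb, by rw [h6.2.1, hj, h4], ?_⟩
  refine smul_right_injective _ hw ?_
  dsimp only
  rw [h2, ← smul_vecMul, hs, vecMul_vecMul, hj, h7, h6.2.2]
  simp [vecMul_smul]

omit hT hD [IsDomain (Q P)] in
lemma act1_of {d y : ℕ} {s s' s1 : (E.sys β l Goal).St} (ha : (E.sys β l Goal).Act d s s')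
    (hm : (E.sys β l Goal).Mv y s s1) :
    (eA T d y % 128 < 8 ∧ eA T d y / 2 ^ 7 % 1024 = 0) ∨ ∃ d' s1',
      eA T d y / 2 ^ 7 % 1024 = d' + 1 ∧ (E.sys β l Goal).Act d' s1 s1' ∧
      (E.sys β l Goal).Mv (eA T d y % 128) s' s1' := by
  obtain ⟨a1, a2, a3⟩ := ha
  obtain ⟨hy, h0, m1, m2⟩ := hm
  rcases (aut_of X hA (a1 ▸ s.2.1)).2 with h | h
  · left; simp [eA, h]
  have h8 : ¬ y ≤ 7 := fun h8 => h0 ((chkG_sound X hG).2.2.1 y (by omega))
  have h1 := h y hy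
  rw [chkAe, blef (not_le.1 h8), cond_false, Bool.or_eq_true,
    Nat.beq_eq] at h1
  obtain ⟨d', e, h2⟩ := pos_iff (h1.resolve_left h0)
  simp only [Bool.and_eq_true, Nat.beq_eq, frc_eq, md, ← a1] at h2
  obtain ⟨⟨⟨h3, h4⟩, h5⟩, h6⟩ := h2
  obtain ⟨s1', h7⟩ := mkAct X hG hA s1 (m1.trans h5)
  have h8 := Ctx.chk5 (rC X _) (rS X _) (rS X _) (rC X _) Ctx.rep_one h6
  refine Or.inr ⟨d', s1', by rwa [l1023, sr] at e, h7, Nat.mod_lt _ (by norm_num), h3 ▸ h0,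
    by rw [h7.2.1, h7.1, a2, h4]; rfl, ?_⟩
  rw [h3, h7.2.2, ← smul_vecMul, m2, a3, a2, vecMul_vecMul, vecMul_vecMul, h8, Matrix.mul_one]

theorem tabOK : TabOK (E.sys β l Goal) T := by
  obtain ⟨g1, g2, g3, -, g4⟩ := chkG_sound X hG
  have hc : ∀ {c} {s s' : (E.sys β l Goal).St}, MvC _ c s s' → cd (c % 128) s.1.1 = c := by
    intro c s s' h
    have : s.1.1 = c / 128 := h.1
    simp only [cd, Nat.add_eq, Nat.mul_eq]; omega
  refine ⟨fun s => s.2.1.trans_le (g1.trans g2), fun {c s s'} h => ?_, fun {c s s' y} h hy => ?_,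
    fun {c s s' y s1} h hy hm => ?_, fun {d s s' y} ha hy => ?_,
    fun ha _ hm => act1_of X hG hA ha hm, fun s g hg => ?_⟩
  · obtain ⟨h1, h2, h3, -⟩ := h.2
    have := (row_of X hT s.2.1 h1 h2).2.1
    rw [← h3, hc h] at this
    exact this.symm
  · obtain ⟨h1, h2, h3, h4⟩ := h.2
    have h5 := (row_of X hT s.2.1 h1 h2).2.2.2 y (by omega)
    rw [hc h] at h3 h4 h5
    rw [chkEnt, show Nat.ble y 7 = true by simp; omega, cond_true, Bool.or_eq_true] at h5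
    rcases h5 with h5 | h5
    · exact .nil (by simp at h5; omega)
    obtain ⟨d, -, h5⟩ := pos_iff h5
    rw [frc_eq] at h5
    obtain ⟨h6, s0, -, h7⟩ := rev_of X hG hA (hD.ne _ h1 h2) h2 h3 h4 h5
    exact It.one h6 h7
  · obtain ⟨h1, h2, h3, h4⟩ := h.2
    have h5 := (row_of X hT s.2.1 h1 h2).2.2.2 y hy
    have hw := hD.ne _ h1 h2
    have hm' := hm
    obtain ⟨-, m0, m1, m2⟩ := hm
    have h8 : ¬ y ≤ 7 := fun h8 => m0 (g3 y (by omega))
    rw [hc h] at h3 h4 h5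
    rw [chkEnt, blef (not_le.1 h8), cond_false, Bool.or_eq_true,
      Nat.beq_eq] at h5
    replace h5 := h5.resolve_left m0
    refine ⟨fun h7 => ?_, fun h7 h127 => ?_, fun h127 => ?_⟩
    · rw [show Nat.ble _ 7 = true by simpa using h7, cond_true, Nat.beq_eq] at h5
      rw [h5, hc h] at m1 m2
      exact Subtype.ext (Prod.ext (m1.trans h3.symm)
        (smul_right_injective _ hw (m2.trans h4.symm)))
    · rw [blef h7, cond_false,
        show Nat.ble _ 127 = true by simpa using h127, cond_true] at h5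
      obtain ⟨d, e1, h5⟩ := pos_iff h5
      obtain ⟨c', e2, h5⟩ := pos_iff h5
      simp only [Bool.and_eq_true, Nat.beq_eq, frc_eq, md, Bool.not_eq_true', ← h3,
        Bool.eq_false_iff, ne_eq] at h5
      obtain ⟨⟨⟨⟨⟨⟨a1, a2⟩, a3⟩, a4⟩, a5⟩, a6⟩, a7⟩ := h5
      have a8 := Ctx.chk5 (rS X _) (rS X _) (rS X _) (rS X _) (rC X _) a7
      generalize eT T c y % 16384 = n at h127 a1 a6 a8 ⊢
      have a9 : (E.w (E.dr (c % 128)) : Q P) • (s'.1.2 ᵥ* E.S (cd n s'.1.1)) =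
          (E.w (E.dr y) : Q P) • (s1.1.2 ᵥ* (E.S c' * E.C d)) := by
        rw [← smul_vecMul, ← smul_vecMul, h4, m2, vecMul_vecMul, vecMul_vecMul, a8]
      obtain ⟨u, hu⟩ : ∃ u, s'.1.2 ᵥ* E.S (cd n s'.1.1) = (E.w (E.dr y) : Q P) • u :=
        VD.ex fun j => (hD.cop _ hy _ h1 m0 h2 a2).dvd_of_dvd_mul_left ⟨_, congrFun a9 j⟩
      obtain ⟨s3, b1, b2⟩ := mkMv X hG hT hD s' (y := n) (by omega) (a1 ▸ m0) (by rw [a1, hu])
      have hd : d / 64 < E.hI := by rw [show d / 64 = s3.1.1 from (b1.2.2.1.trans a6).symm]; exact s3.2.1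
      obtain ⟨C', c1, c2⟩ := aut_inv X hG hA hd
      have e3 : cd (c' % 128) s1.1.1 = c' := by
        have : c' / 128 = s1.1.1 := a4.trans m1.symm
        simp only [cd, Nat.add_eq, Nat.mul_eq]; omega
      obtain ⟨s2, b3, b4⟩ := mkMv X hG hT hD s1 (y := c' % 128) (Nat.mod_lt _ (by norm_num))
        (a3 ▸ h2) (u := u ᵥ* C') (by
          rw [hu, smul_comm] at a9
          rw [a3, e3, ← smul_vecMul, smul_right_injective _ (hD.ne _ hy m0) a9, vecMul_vecMul,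
            Matrix.mul_assoc, c1, Matrix.mul_one])
      have e4 : s2.1.1 = d / 64 := by rw [b3.2.2.1, e3, a5]; rfl
      exact ⟨d, c', s2, s3, by rwa [l1023, sr] at e1, by rwa [l2047, sr] at e2,
        ⟨m1.trans a4.symm, b3⟩, ⟨e4, (b1.2.2.1.trans a6).trans e4.symm, by
          rw [b4, b2, vecMul_vecMul, c2, vecMul_one]⟩, b1⟩
    · rw [blef (lt_trans (by norm_num) h127), cond_false,
        blef h127, cond_false] at h5
      obtain ⟨d0, -, h5⟩ := pos_iff h5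
      simp only [Bool.and_eq_true, Nat.beq_eq, frc_eq, md, l1023, sr, Nat.ble_eq] at h5
      obtain ⟨⟨⟨a1, a2⟩, a3⟩, a4⟩ := h5
      obtain ⟨-, s0, b1, b2⟩ := rev_of X hG hA hw h2 h3 h4 a1
      rcases act1_of X hG hA b1 hm' with ⟨-, b3⟩ | ⟨d', s3, b3, b4, b5⟩
      · omega
      · exact ⟨d', s0, s3, a3 ▸ b3, b2, by rwa [a2] at b5, b4⟩
  · rcases (aut_of X hA (ha.1 ▸ s.2.1)).2 with h | h
    · simp [eA, h]
    have h1 := h y (by omega)
    rw [chkAe, show Nat.ble y 7 = true by simp; omega, cond_true, Nat.ble_eq, md] at h1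
    omega
  · obtain ⟨s', h⟩ := mkAct X hG hA s (d := g + s.1.1 * 2 ^ 6) (by omega)
    exact ⟨s', h, h.2.1⟩

end FD

lemma TabOK.congr {Y : Sys} {T : Tabs} (H : TabOK Y T) (tP : DB) (dirs : ℕ) :
    TabOK Y ⟨T.tT, T.tA, tP, dirs⟩ := ⟨H.1, H.2, H.3, H.4, H.5, H.6, H.7⟩

end Pool.Agent.Lib.MP_aed2da_nt.Eng
end
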