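import Pool.Agent.Lib.MP_aed2da_nt.E27d

/-! Check of the tables for the field 27. -/

namespace Pool.Agent.Lib.MP_aed2da_nt.Eng

set_option maxRecDepth 100000

theorem t27_0 : E27.chkT T27 0 = true := by decide +kernel
theorem t27_1 : E27.chkT T27 1 = true := by decide +kernel
theorem t27_2 : E27.chkT T27 2 = true := by decide +kernel
theorem t27_3 : E27.chkT T27 3 = true := by decide +kernel
theorem t27_4 : E27.chkT T27 4 = true := by decide +kernel
theorem t27_5 : E27.chkT T27 5 = true := by decide +kernel
theorem t27_6 : E27.chkT T27 6 = true := by decide +kernel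
theorem t27_7 : E27.chkT T27 7 = true := by decide +kernel
theorem t27_8 : E27.chkT T27 8 = true := by decide +kernel
theorem t27_9 : E27.chkT T27 9 = true := by decide +kernel
theorem t27_10 : E27.chkT T27 10 = true := by decide +kernel
theorem t27_11 : E27.chkT T27 11 = true := by decide +kernel
theorem t27 : ∀ i < E27.hI, E27.chkT T27 i = true := by
  intro i hi
  change i < 12 at hi
  interval_cases i
  exacts [t27_0, t27_1, t27_2, t27_3, t27_4, t27_5, t27_6, t27_7, t27_8, t27_9, t27_10, t27_11]
theorem a27_0 : E27.chkA T27 0 = true := by decide +kernel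
theorem a27_1 : E27.chkA T27 1 = true := by decide +kernel
theorem a27_2 : E27.chkA T27 2 = true := by decide +kernel
theorem a27_3 : E27.chkA T27 3 = true := by decide +kernel
theorem a27_4 : E27.chkA T27 4 = true := by decide +kernel
theorem a27_5 : E27.chkA T27 5 = true := by decide +kernel
theorem a27_6 : E27.chkA T27 6 = true := by decide +kernel
theorem a27_7 : E27.chkA T27 7 = true := by decide +kernel
theorem a27_8 : E27.chkA T27 8 = true := by decide +kernel
theorem a27_9 : E27.chkA T27 9 = true := by decide +kernel
theorem a27_10 : E27.chkA T27 10 = true := by decide +kernel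
theorem a27_11 : E27.chkA T27 11 = true := by decide +kernel
theorem a27 : ∀ i < E27.hI, E27.chkA T27 i = true := by
  intro i hi
  change i < 12 at hi
  interval_cases i
  exacts [a27_0, a27_1, a27_2, a27_3, a27_4, a27_5, a27_6, a27_7, a27_8, a27_9, a27_10, a27_11]

end Pool.Agent.Lib.MP_aed2da_nt.Eng
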