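import Pool.Agent.Lib.MP_aed2da_nt.E56d

/-! Check of the tables for the field 56. -/

namespace Pool.Agent.Lib.MP_aed2da_nt.Eng

set_option maxRecDepth 100000

theorem t56_0 : E56.chkT T56 0 = true := by decide +kernel
theorem t56_1 : E56.chkT T56 1 = true := by decide +kernel
theorem t56_2 : E56.chkT T56 2 = true := by decide +kernel
theorem t56_3 : E56.chkT T56 3 = true := by decide +kernel
theorem t56_4 : E56.chkT T56 4 = true := by decide +kernel
theorem t56_5 : E56.chkT T56 5 = true := by decide +kernel
theorem t56_6 : E56.chkT T56 6 = true := by decide +kernel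
theorem t56_7 : E56.chkT T56 7 = true := by decide +kernel
theorem t56_8 : E56.chkT T56 8 = true := by decide +kernel
theorem t56 : ∀ i < E56.hI, E56.chkT T56 i = true := by
  intro i hi
  change i < 9 at hi
  interval_cases i
  exacts [t56_0, t56_1, t56_2, t56_3, t56_4, t56_5, t56_6, t56_7, t56_8]
theorem a56_0 : E56.chkA T56 0 = true := by decide +kernel
theorem a56_1 : E56.chkA T56 1 = true := by decide +kernel
theorem a56_2 : E56.chkA T56 2 = true := by decide +kernel
theorem a56_3 : E56.chkA T56 3 = true := by decide +kernel
theorem a56_4 : E56.chkA T56 4 = true := by decide +kernel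
theorem a56_5 : E56.chkA T56 5 = true := by decide +kernel
theorem a56_6 : E56.chkA T56 6 = true := by decide +kernel
theorem a56_7 : E56.chkA T56 7 = true := by decide +kernel
theorem a56_8 : E56.chkA T56 8 = true := by decide +kernel
theorem a56 : ∀ i < E56.hI, E56.chkA T56 i = true := by
  intro i hi
  change i < 9 at hi
  interval_cases i
  exacts [a56_0, a56_1, a56_2, a56_3, a56_4, a56_5, a56_6, a56_7, a56_8]

end Pool.Agent.Lib.MP_aed2da_nt.Eng
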