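import Pool.Agent.Lib.MP_aed2da_nt.E57d

/-! Check of the tables for the field 57. -/

namespace Pool.Agent.Lib.MP_aed2da_nt.Eng

set_option maxRecDepth 100000

theorem t57_0 : E57.chkT T57 0 = true := by decide +kernel
theorem t57_1 : E57.chkT T57 1 = true := by decide +kernel
theorem t57_2 : E57.chkT T57 2 = true := by decide +kernel
theorem t57_3 : E57.chkT T57 3 = true := by decide +kernel
theorem t57_4 : E57.chkT T57 4 = true := by decide +kernel
theorem t57_5 : E57.chkT T57 5 = true := by decide +kernel
theorem t57_6 : E57.chkT T57 6 = true := by decide +kernel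
theorem t57 : ∀ i < E57.hI, E57.chkT T57 i = true := by
  intro i hi
  change i < 7 at hi
  interval_cases i
  exacts [t57_0, t57_1, t57_2, t57_3, t57_4, t57_5, t57_6]
theorem a57_0 : E57.chkA T57 0 = true := by decide +kernel
theorem a57_1 : E57.chkA T57 1 = true := by decide +kernel
theorem a57_2 : E57.chkA T57 2 = true := by decide +kernel
theorem a57_3 : E57.chkA T57 3 = true := by decide +kernel
theorem a57_4 : E57.chkA T57 4 = true := by decide +kernel
theorem a57_5 : E57.chkA T57 5 = true := by decide +kernel
theorem a57_6 : E57.chkA T57 6 = true := by decide +kernel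
theorem a57 : ∀ i < E57.hI, E57.chkA T57 i = true := by
  intro i hi
  change i < 7 at hi
  interval_cases i
  exacts [a57_0, a57_1, a57_2, a57_3, a57_4, a57_5, a57_6]

end Pool.Agent.Lib.MP_aed2da_nt.Eng
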