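import Pool.Agent.Lib.MP_aed2da_nt.Clear

/-! The six setups: Galois action, real embeddings and their approximations. -/

namespace Pool.Agent.Lib.MP_aed2da_nt

namespace Fld
variable {P : Par}

/-- the basis as a computable function -/
def eb (j : Fin 4) : Q P := ![⟨1, 0, 0, 0⟩, ⟨0, 1, 0, 0⟩, ⟨0, 0, 1, 0⟩, ⟨0, 0, 0, 1⟩] j

lemma basis_eq (j : Fin 4) : (Q.basis j : Q P) = eb j := Q.basis_apply j

structure Gal (τ : Fin 4 → (Q P →+* Q P)) : Prop where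
  comp : ∀ i j x, τ i (τ j x) = τ (vm i j) x
  zero : ∀ x, τ 0 x = x
  one : ∀ x, τ 1 x = Q.cj x
  two : τ 2 Q.gw = ⟨P.p, -1, 0, 0⟩

lemma gal_of {g : Fin 4 → Q P × Q P} (rel : ∀ i, Q.Rel P (g i).1 (g i).2)
    (h : (∀ i j, Q.lift _ _ (rel i) (g j).1 = (g (vm i j)).1 ∧
      Q.lift _ _ (rel i) (g j).2 = (g (vm i j)).2) ∧ g 0 = (Q.gw, Q.gh) ∧
      g 1 = (Q.gw, Q.cj Q.gh) ∧ (g 2).1 = ⟨P.p, -1, 0, 0⟩) :
    Gal fun i => Q.lift _ _ (rel i) := by
  obtain ⟨h1, h2, h3, h4⟩ := h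
  have e1 : ∀ i, Q.lift _ _ (rel i) Q.gw = (g i).1 := fun i => by simp [Q.lift_apply, Q.gw]
  have e2 : ∀ i, Q.lift _ _ (rel i) Q.gh = (g i).2 := fun i => by simp [Q.lift_apply, Q.gh]
  refine ⟨fun i j x => ?_, fun x => ?_, fun x => ?_, (e1 2).trans h4⟩
  · have : (Q.lift _ _ (rel i)).comp (Q.lift _ _ (rel j)) = Q.lift _ _ (rel (vm i j)) :=
      Q.hom_ext (by simp [e1, (h1 i j).1]) (by simp [e2, (h1 i j).2])
    exact DFunLike.congr_fun this x
  · rw [Q.lift_apply, h2]; exact (Q.eq_comb x).symm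
  · rw [Q.lift_apply, h3]
    ext <;> simp [Q.mul_a, Q.mul_b, Q.mul_c, Q.mul_d, Q.mul, Q.mulAux, Q.cj, Q.gw, Q.gh] <;> ring

namespace Gal
variable {τ : Fin 4 → (Q P →+* Q P)} (G : Gal τ)
include G

lemma τ_τ (i : Fin 4) (x : Q P) : τ i (τ i x) = x := by
  rw [G.comp, show vm i i = 0 by revert i; decide, G.zero]

lemma σ_τ (f : Q P →+* ℝ) (i j : Fin 4) (x : Q P) :
    f.comp (τ i) (τ j x) = f.comp (τ (vm i j)) x := congrArg f (G.comp i j x)

lemma inj {f : Q P →+* ℝ} (hf : Function.Injective f) (i : Fin 4) :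
    Function.Injective (f.comp (τ i)) :=
  hf.comp (Function.LeftInverse.injective (G.τ_τ i))

lemma two' (u v : ℤ) : τ 2 ⟨u, v, 0, 0⟩ = ⟨u + P.p * v, -v, 0, 0⟩ := by
  rw [Q.map_eq, G.two]
  ext <;> simp [mul_comm]

lemma sum_τ (x : Q P) : ∑ i, τ i x = Q.tr x := by
  have h3 : τ 3 x = τ 2 (Q.cj x) := by rw [← G.one, G.comp]; rfl
  have h : x + Q.cj x = ⟨(x + Q.cj x).a, (x + Q.cj x).b, 0, 0⟩ := by ext <;> simp [Q.cj]
  rw [Fin.sum_univ_four, G.zero, G.one, h3, add_assoc, ← map_add, h, G.two']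
  ext <;> simp only [Q.intCast_a, Q.intCast_b, Q.intCast_c, Q.intCast_d, Q.add_a, Q.add_b, Q.add_c,
    Q.add_d, Q.cj, Q.tr] <;> ring

lemma prod_τ (x : Q P) : ∏ i, τ i x = Q.nm x := by
  have h3 : τ 3 x = τ 2 (Q.cj x) := by rw [← G.one, G.comp]; rfl
  rw [Fin.prod_univ_four, G.zero, G.one, h3, mul_assoc, ← map_mul, ← Q.mul_adj, Q.adj, ← mul_assoc]
  congr 1
  rw [← G.two', ← Q.mul_cj]

lemma sum_σ (f : Q P →+* ℝ) (x : Q P) : ∑ i, f.comp (τ i) x = Q.tr x := by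
  simpa using congrArg f (G.sum_τ x)

lemma prod_σ (f : Q P →+* ℝ) (x : Q P) : ∏ i, f.comp (τ i) x = Q.nm x := by
  simpa using congrArg f (G.prod_τ x)

lemma det_sq (f : Q P →+* ℝ) {D : ℕ}
    (h : (Matrix.of fun j k : Fin 4 => Q.tr (eb j * eb k : Q P)).det = D) :
    (Matrix.of fun i j => f.comp (τ i) (Q.basis j)).det ^ 2 = D := by
  set A := Matrix.of fun i j => f.comp (τ i) (Q.basis j) with hA
  have : A.transpose * A =
      (Matrix.of fun j k : Fin 4 => Q.tr (eb j * eb k : Q P)).map (Int.castRingHom ℝ) := by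
    ext j k
    simp only [Matrix.mul_apply, Matrix.transpose_apply, hA, Matrix.of_apply, ← map_mul, basis_eq,
      G.sum_σ, Matrix.map_apply, eq_intCast]
  have h2 := congrArg Matrix.det this
  rw [Matrix.det_mul, Matrix.det_transpose, ← RingHom.mapMatrix_apply, ← RingHom.map_det, h] at h2
  simpa [sq] using h2

end Gal

/-- value of a coefficient vector in the basis `1, s, t, s t` of square roots -/
noncomputable def val (a b : ℕ) (c : ℤ × ℤ × ℤ × ℤ) : ℝ :=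
  c.1 + c.2.1 * Real.sqrt a + c.2.2.1 * Real.sqrt b + c.2.2.2 * (Real.sqrt a * Real.sqrt b)

/-- coefficient vector of `2 x` -/
def comb (u v z : ℤ × ℤ × ℤ × ℤ) (x : Q P) : ℤ × ℤ × ℤ × ℤ :=
  (2 * x.a + x.b * u.1 + x.c * v.1 + x.d * z.1, x.b * u.2.1 + x.c * v.2.1 + x.d * z.2.1,
    x.b * u.2.2.1 + x.c * v.2.2.1 + x.d * z.2.2.1, x.b * u.2.2.2 + x.c * v.2.2.2 + x.d * z.2.2.2)

def Emb (f : Q P →+* ℝ) (a b : ℕ) (u v z : ℤ × ℤ × ℤ × ℤ) : Prop :=
  ∀ x, 2 * f x = val a b (comb u v z x)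

lemma emb_of {w h : ℝ} (H : Q.Rel P w h) {a b : ℕ} {u v z : ℤ × ℤ × ℤ × ℤ}
    (h1 : 2 * w = val a b u) (h2 : 2 * h = val a b v) (h3 : 2 * (w * h) = val a b z) :
    Emb (Q.lift w h H) a b u v z := fun x => by
  simp only [val, comb, Q.lift_apply] at *
  push_cast
  linear_combination x.b * h1 + x.c * h2 + x.d * h3

lemma irr {n : ℕ} (hn : ¬ IsSquare n) {u v : ℤ} (h : (u : ℝ) + v * Real.sqrt n = 0) :
    u = 0 ∧ v = 0 := by
  have hv : v = 0 := by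
    by_contra hv
    exact ((irrational_sqrt_natCast_iff.2 hn).intCast_mul hv).ne_int (-u) (by push_cast; linarith)
  subst hv
  exact ⟨by simpa using h, rfl⟩

lemma val_eq_zero {a b : ℕ} (ha : ¬ IsSquare a) (hb : ¬ IsSquare b) (hab : ¬ IsSquare (a * b))
    {c : ℤ × ℤ × ℤ × ℤ} (h : val a b c = 0) : c.1 = 0 ∧ c.2.1 = 0 ∧ c.2.2.1 = 0 ∧ c.2.2.2 = 0 := by
  obtain ⟨α, β, γ, δ⟩ := c
  simp only [val] at h ⊢
  have hs : Real.sqrt a * Real.sqrt a = a := Real.mul_self_sqrt (by positivity)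
  have ht : Real.sqrt b * Real.sqrt b = b := Real.mul_self_sqrt (by positivity)
  have hst : Real.sqrt ((a * b : ℕ) : ℝ) = Real.sqrt a * Real.sqrt b := by
    rw [Nat.cast_mul, Real.sqrt_mul (by positivity)]
  obtain ⟨n, hn⟩ : ∃ n, n = γ ^ 2 - a * δ ^ 2 := ⟨_, rfl⟩
  obtain ⟨U, hU⟩ : ∃ U, U = a * β * δ - α * γ := ⟨_, rfl⟩
  obtain ⟨V, hV⟩ : ∃ V, V = α * δ - β * γ := ⟨_, rfl⟩
  have h1 : (n : ℝ) * Real.sqrt b = U + V * Real.sqrt a := by
    rw [hn, hU, hV]; push_cast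
    linear_combination (γ - δ * Real.sqrt a) * h + (β * δ + δ ^ 2 * Real.sqrt b) * hs
  have h2 := (irr ha (u := U ^ 2 + a * V ^ 2 - n ^ 2 * b) (v := 2 * (U * V)) (by
    push_cast
    linear_combination -(n * Real.sqrt b + U + V * Real.sqrt a) * h1 + n ^ 2 * ht - V ^ 2 * hs)).2
  have h3 : n = 0 := by
    rcases mul_eq_zero.1 (by omega : U * V = 0) with h0 | h0
    · exact (irr hab (u := -(V * a)) (v := n) (by
        rw [hst]; rw [h0] at h1; push_cast at h1 ⊢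
        linear_combination Real.sqrt a * h1 + V * hs)).2
    · exact (irr hb (u := -U) (v := n) (by rw [h0] at h1; push_cast at h1 ⊢; linarith)).2
  have h4 : γ = 0 ∧ δ = 0 := by
    have : ((γ : ℝ) + δ * Real.sqrt a) * (γ + (-δ : ℤ) * Real.sqrt a) = 0 := by
      have : (n : ℝ) = 0 := by rw [h3]; simp
      rw [hn] at this
      push_cast at this ⊢
      linear_combination this - δ ^ 2 * hs
    rcases mul_eq_zero.1 this with h0 | h0
    · exact irr ha h0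
    · exact ⟨(irr ha h0).1, by simpa using (irr ha h0).2⟩
  obtain ⟨rfl, rfl⟩ := h4
  have := irr ha (u := α) (v := β) (by simpa using h)
  exact ⟨this.1, this.2, rfl, rfl⟩

lemma sqrt_bd {n l : ℕ} (h : l ^ 2 ≤ n * 2 ^ 120 ∧ n * 2 ^ 120 ≤ (l + 1) ^ 2) :
    |2 ^ 60 * Real.sqrt n - l| ≤ 1 := by
  have e : 2 ^ 60 * Real.sqrt n = Real.sqrt ((n * 2 ^ 120 : ℕ) : ℝ) := by
    rw [Nat.cast_mul, Real.sqrt_mul (by positivity), mul_comm,
      show ((2 ^ 120 : ℕ) : ℝ) = (2 ^ 60) ^ 2 by norm_num, Real.sqrt_sq (by positivity)]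
  have h1 : (l : ℝ) ≤ Real.sqrt ((n * 2 ^ 120 : ℕ) : ℝ) :=
    Real.le_sqrt_of_sq_le (by exact_mod_cast h.1)
  have h2 : Real.sqrt ((n * 2 ^ 120 : ℕ) : ℝ) ≤ l + 1 :=
    Real.sqrt_le_iff.2 ⟨by positivity, by exact_mod_cast h.2⟩
  rw [e, abs_le]
  constructor <;> linarith

namespace Emb
variable {f : Q P →+* ℝ} {a b : ℕ} {u v z : ℤ × ℤ × ℤ × ℤ} (E : Emb f a b u v z)
include E

lemma inj (h : ¬ IsSquare a ∧ ¬ IsSquare b ∧ ¬ IsSquare (a * b))
    (h0 : ∀ x : Q P, (comb u v z x).1 = 0 → (comb u v z x).2.1 = 0 → (comb u v z x).2.2.1 = 0 →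
      (comb u v z x).2.2.2 = 0 → x = 0) : Function.Injective f :=
  (injective_iff_map_eq_zero f).2 fun x hx => by
    obtain ⟨h1, h2, h3, h4⟩ := val_eq_zero h.1 h.2.1 h.2.2 (c := comb u v z x)
      (by rw [← E, hx, mul_zero])
    exact h0 x h1 h2 h3 h4

lemma approx (τ : Fin 4 → (Q P →+* Q P)) (la lb lc : ℕ) {M : Fin 4 → Fin 4 → ℤ}
    (h : (la ^ 2 ≤ a * 2 ^ 120 ∧ a * 2 ^ 120 ≤ (la + 1) ^ 2) ∧
      (lb ^ 2 ≤ b * 2 ^ 120 ∧ b * 2 ^ 120 ≤ (lb + 1) ^ 2) ∧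
      (lc ^ 2 ≤ a * b * 2 ^ 120 ∧ a * b * 2 ^ 120 ≤ (lc + 1) ^ 2) ∧
      ∀ i j, ∀ c ∈ [comb u v z (τ i (eb j))],
        |2 ^ 60 * c.1 + c.2.1 * la + c.2.2.1 * lb + c.2.2.2 * lc - 2 ^ 21 * M i j| +
          |c.2.1| + |c.2.2.1| + |c.2.2.2| ≤ 2 ^ 21) (i j : Fin 4) :
    |2 ^ 40 * f.comp (τ i) (Q.basis j) - M i j| ≤ 1 := by
  obtain ⟨ha, hb, hc, h⟩ := h
  have h1 := sqrt_bd ha
  have h2 := sqrt_bd hb
  have h3 := sqrt_bd hc
  rw [Nat.cast_mul, Real.sqrt_mul (by positivity)] at h3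
  have h4 := E (τ i (eb j))
  have h5 := h i j _ (List.mem_singleton_self _)
  generalize comb u v z (τ i (eb j)) = c at h4 h5
  have h6 : |2 ^ 60 * (c.1 : ℝ) + c.2.1 * la + c.2.2.1 * lb + c.2.2.2 * lc - 2 ^ 21 * M i j| +
      |(c.2.1 : ℝ)| + |(c.2.2.1 : ℝ)| + |(c.2.2.2 : ℝ)| ≤ 2 ^ 21 := by exact_mod_cast h5
  have k : ∀ {x y : ℝ}, |y| ≤ 1 → |x * y| ≤ |x| := fun {x y} hy => by
    rw [abs_mul]; exact mul_le_of_le_one_right (abs_nonneg _) hy
  have k1 := abs_le.1 (k (x := c.2.1) h1)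
  have k2 := abs_le.1 (k (x := c.2.2.1) h2)
  have k3 := abs_le.1 (k (x := c.2.2.2) h3)
  have k4 := abs_le.1 (le_refl
    |2 ^ 60 * (c.1 : ℝ) + c.2.1 * la + c.2.2.1 * lb + c.2.2.2 * lc - 2 ^ 21 * M i j|)
  rw [RingHom.comp_apply, basis_eq, abs_le]
  simp only [val] at h4
  constructor <;> linarith [k1.1, k1.2, k2.1, k2.2, k3.1, k3.2, k4.1, k4.2]

end Emb

end Fld

/-! ### field 23 -/

lemma relR23 : Q.Rel P23 (Real.sqrt 2 : ℝ) ((Real.sqrt 2 + Real.sqrt 6) / 2) := by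
  have hs : Real.sqrt 2 * Real.sqrt 2 = 2 := Real.mul_self_sqrt (by norm_num)
  have ht : Real.sqrt 6 * Real.sqrt 6 = 6 := Real.mul_self_sqrt (by norm_num)
  exact ⟨by simp [P23], by simp only [P23]; push_cast; linear_combination (-1 / 4) * hs + 1 / 4 * ht⟩
lemma Fld.gal23 : Fld.Gal tau23 := Fld.gal_of rel23 (by decide +kernel)
lemma Fld.emb23 : Fld.Emb (Q.lift _ _ relR23) 2 6 ⟨0, 2, 0, 0⟩ ⟨0, 1, 1, 0⟩ ⟨2, 0, 0, 1⟩ := by
  have hs : Real.sqrt 2 * Real.sqrt 2 = 2 := Real.mul_self_sqrt (by norm_num)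
  have ht : Real.sqrt 6 * Real.sqrt 6 = 6 := Real.mul_self_sqrt (by norm_num)
  refine Fld.emb_of _ ?_ ?_ ?_ <;> simp only [Fld.val] <;> push_cast
  · ring
  · ring
  · linear_combination hs
noncomputable def S23 : Setup P23 where
  τ := tau23
  σ i := (Q.lift _ _ relR23).comp (tau23 i)
  D := 2304
  M := M23
  inj := Fld.gal23.inj (Fld.emb23.inj (by decide +kernel) fun x h1 h2 h3 h4 => by
    simp only [Fld.comb] at h1 h2 h3 h4
    ext <;> simp <;> omega)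
  τ_τ := Fld.gal23.τ_τ
  σ_τ := Fld.gal23.σ_τ _
  D_pos := by norm_num
  det_sq := Fld.gal23.det_sq _ (by decide +kernel)
  approx := Fld.emb23.approx tau23 1630477228166597776 2824069399768620282 3993837246235628775
    (by decide +kernel)
  sum_σ := Fld.gal23.sum_σ _
  prod_σ := Fld.gal23.prod_σ _
instance dom23 : IsDomain (Q P23) := S23.isDomain

/-! ### field 35 -/

lemma relR35 : Q.Rel P35 ((1 + Real.sqrt 5) / 2 : ℝ) (Real.sqrt 3) := by
  have hs : Real.sqrt 5 * Real.sqrt 5 = 5 := Real.mul_self_sqrt (by norm_num)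
  have ht : Real.sqrt 3 * Real.sqrt 3 = 3 := Real.mul_self_sqrt (by norm_num)
  exact ⟨by simp only [P35]; push_cast; linear_combination 1 / 4 * hs, by simp [P35]⟩
lemma Fld.gal35 : Fld.Gal tau35 := Fld.gal_of rel35 (by decide +kernel)
lemma Fld.emb35 : Fld.Emb (Q.lift _ _ relR35) 5 3 ⟨1, 1, 0, 0⟩ ⟨0, 0, 2, 0⟩ ⟨0, 0, 1, 1⟩ := by
  have hs : Real.sqrt 5 * Real.sqrt 5 = 5 := Real.mul_self_sqrt (by norm_num)
  have ht : Real.sqrt 3 * Real.sqrt 3 = 3 := Real.mul_self_sqrt (by norm_num)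
  refine Fld.emb_of _ ?_ ?_ ?_ <;> simp only [Fld.val] <;> push_cast
  · ring
  · ring
  · ring
noncomputable def S35 : Setup P35 where
  τ := tau35
  σ i := (Q.lift _ _ relR35).comp (tau35 i)
  D := 3600
  M := M35
  inj := Fld.gal35.inj (Fld.emb35.inj (by decide +kernel) fun x h1 h2 h3 h4 => by
    simp only [Fld.comb] at h1 h2 h3 h4
    ext <;> simp <;> omega)
  τ_τ := Fld.gal35.τ_τ
  σ_τ := Fld.gal35.σ_τ _
  D_pos := by norm_num
  det_sq := Fld.gal35.det_sq _ (by decide +kernel)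
  approx := Fld.emb35.approx tau35 2578010857022246786 1996918623117814387 4465245786826716002
    (by decide +kernel)
  sum_σ := Fld.gal35.sum_σ _
  prod_σ := Fld.gal35.prod_σ _
instance dom35 : IsDomain (Q P35) := S35.isDomain

/-! ### field 37 -/

lemma relR37 : Q.Rel P37 ((1 + Real.sqrt 21) / 2 : ℝ) ((Real.sqrt 3 + Real.sqrt 7) / 2) := by
  have hs : Real.sqrt 3 * Real.sqrt 3 = 3 := Real.mul_self_sqrt (by norm_num)
  have ht : Real.sqrt 7 * Real.sqrt 7 = 7 := Real.mul_self_sqrt (by norm_num)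
  have h21 : Real.sqrt 21 = Real.sqrt 3 * Real.sqrt 7 := by
    rw [← Real.sqrt_mul (by norm_num)]; norm_num
  exact ⟨by
    simp only [P37, h21]; push_cast
    linear_combination 1 / 4 * (Real.sqrt 7 * Real.sqrt 7) * hs + 3 / 4 * ht,
    by simp only [P37, h21]; push_cast; linear_combination 1 / 4 * hs + 1 / 4 * ht⟩
lemma Fld.gal37 : Fld.Gal tau37 := Fld.gal_of rel37 (by decide +kernel)
lemma Fld.emb37 : Fld.Emb (Q.lift _ _ relR37) 3 7 ⟨1, 0, 0, 1⟩ ⟨0, 1, 1, 0⟩ ⟨0, 4, 2, 0⟩ := by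
  have hs : Real.sqrt 3 * Real.sqrt 3 = 3 := Real.mul_self_sqrt (by norm_num)
  have ht : Real.sqrt 7 * Real.sqrt 7 = 7 := Real.mul_self_sqrt (by norm_num)
  have h21 : Real.sqrt 21 = Real.sqrt 3 * Real.sqrt 7 := by
    rw [← Real.sqrt_mul (by norm_num)]; norm_num
  refine Fld.emb_of _ ?_ ?_ ?_ <;> simp only [Fld.val, h21] <;> push_cast
  · ring
  · ring
  · linear_combination 1 / 2 * Real.sqrt 7 * hs + 1 / 2 * Real.sqrt 3 * ht
noncomputable def S37 : Setup P37 where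
  τ := tau37
  σ i := (Q.lift _ _ relR37).comp (tau37 i)
  D := 7056
  M := M37
  inj := Fld.gal37.inj (Fld.emb37.inj (by decide +kernel) fun x h1 h2 h3 h4 => by
    simp only [Fld.comb] at h1 h2 h3 h4
    ext <;> simp <;> omega)
  τ_τ := Fld.gal37.τ_τ
  σ_τ := Fld.gal37.σ_τ _
  D_pos := by norm_num
  det_sq := Fld.gal37.det_sq _ (by decide +kernel)
  approx := Fld.emb37.approx tau37 1996918623117814387 3050343582368125807 5283350065203254476
    (by decide +kernel)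
  sum_σ := Fld.gal37.sum_σ _
  prod_σ := Fld.gal37.prod_σ _
instance dom37 : IsDomain (Q P37) := S37.isDomain

/-! ### field 27 -/

lemma relR27 : Q.Rel P27 (Real.sqrt 2 : ℝ) ((Real.sqrt 2 + Real.sqrt 14) / 2) := by
  have hs : Real.sqrt 2 * Real.sqrt 2 = 2 := Real.mul_self_sqrt (by norm_num)
  have ht : Real.sqrt 14 * Real.sqrt 14 = 14 := Real.mul_self_sqrt (by norm_num)
  exact ⟨by simp [P27], by simp only [P27]; push_cast; linear_combination (-1 / 4) * hs + 1 / 4 * ht⟩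
lemma Fld.gal27 : Fld.Gal tau27 := Fld.gal_of rel27 (by decide +kernel)
lemma Fld.emb27 : Fld.Emb (Q.lift _ _ relR27) 2 14 ⟨0, 2, 0, 0⟩ ⟨0, 1, 1, 0⟩ ⟨2, 0, 0, 1⟩ := by
  have hs : Real.sqrt 2 * Real.sqrt 2 = 2 := Real.mul_self_sqrt (by norm_num)
  have ht : Real.sqrt 14 * Real.sqrt 14 = 14 := Real.mul_self_sqrt (by norm_num)
  refine Fld.emb_of _ ?_ ?_ ?_ <;> simp only [Fld.val] <;> push_cast
  · ring
  · ring
  · linear_combination hs
noncomputable def S27 : Setup P27 where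
  τ := tau27
  σ i := (Q.lift _ _ relR27).comp (tau27 i)
  D := 12544
  M := M27
  inj := Fld.gal27.inj (Fld.emb27.inj (by decide +kernel) fun x h1 h2 h3 h4 => by
    simp only [Fld.comb] at h1 h2 h3 h4
    ext <;> simp <;> omega)
  τ_τ := Fld.gal27.τ_τ
  σ_τ := Fld.gal27.σ_τ _
  D_pos := by norm_num
  det_sq := Fld.gal27.det_sq _ (by decide +kernel)
  approx := Fld.emb27.approx tau27 1630477228166597776 4313837264082735680 6100687164736251614
    (by decide +kernel)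
  sum_σ := Fld.gal27.sum_σ _
  prod_σ := Fld.gal27.prod_σ _
instance dom27 : IsDomain (Q P27) := S27.isDomain

/-! ### field 56 -/

lemma relR56 : Q.Rel P56 ((1 + Real.sqrt 5) / 2 : ℝ) (Real.sqrt 6) := by
  have hs : Real.sqrt 5 * Real.sqrt 5 = 5 := Real.mul_self_sqrt (by norm_num)
  have ht : Real.sqrt 6 * Real.sqrt 6 = 6 := Real.mul_self_sqrt (by norm_num)
  exact ⟨by simp only [P56]; push_cast; linear_combination 1 / 4 * hs, by simp [P56]⟩
lemma Fld.gal56 : Fld.Gal tau56 := Fld.gal_of rel56 (by decide +kernel)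
lemma Fld.emb56 : Fld.Emb (Q.lift _ _ relR56) 5 6 ⟨1, 1, 0, 0⟩ ⟨0, 0, 2, 0⟩ ⟨0, 0, 1, 1⟩ := by
  have hs : Real.sqrt 5 * Real.sqrt 5 = 5 := Real.mul_self_sqrt (by norm_num)
  have ht : Real.sqrt 6 * Real.sqrt 6 = 6 := Real.mul_self_sqrt (by norm_num)
  refine Fld.emb_of _ ?_ ?_ ?_ <;> simp only [Fld.val] <;> push_cast
  · ring
  · ring
  · ring
noncomputable def S56 : Setup P56 where
  τ := tau56
  σ i := (Q.lift _ _ relR56).comp (tau56 i)
  D := 14400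
  M := M56
  inj := Fld.gal56.inj (Fld.emb56.inj (by decide +kernel) fun x h1 h2 h3 h4 => by
    simp only [Fld.comb] at h1 h2 h3 h4
    ext <;> simp <;> omega)
  τ_τ := Fld.gal56.τ_τ
  σ_τ := Fld.gal56.σ_τ _
  D_pos := by norm_num
  det_sq := Fld.gal56.det_sq _ (by decide +kernel)
  approx := Fld.emb56.approx tau56 2578010857022246786 2824069399768620282 6314811151059663810
    (by decide +kernel)
  sum_σ := Fld.gal56.sum_σ _
  prod_σ := Fld.gal56.prod_σ _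
instance dom56 : IsDomain (Q P56) := S56.isDomain

/-! ### field 57 -/

lemma relR57 : Q.Rel P57 ((1 + Real.sqrt 5) / 2 : ℝ) (Real.sqrt 7) := by
  have hs : Real.sqrt 5 * Real.sqrt 5 = 5 := Real.mul_self_sqrt (by norm_num)
  have ht : Real.sqrt 7 * Real.sqrt 7 = 7 := Real.mul_self_sqrt (by norm_num)
  exact ⟨by simp only [P57]; push_cast; linear_combination 1 / 4 * hs, by simp [P57]⟩
lemma Fld.gal57 : Fld.Gal tau57 := Fld.gal_of rel57 (by decide +kernel)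
lemma Fld.emb57 : Fld.Emb (Q.lift _ _ relR57) 5 7 ⟨1, 1, 0, 0⟩ ⟨0, 0, 2, 0⟩ ⟨0, 0, 1, 1⟩ := by
  have hs : Real.sqrt 5 * Real.sqrt 5 = 5 := Real.mul_self_sqrt (by norm_num)
  have ht : Real.sqrt 7 * Real.sqrt 7 = 7 := Real.mul_self_sqrt (by norm_num)
  refine Fld.emb_of _ ?_ ?_ ?_ <;> simp only [Fld.val] <;> push_cast
  · ring
  · ring
  · ring
noncomputable def S57 : Setup P57 where
  τ := tau57
  σ i := (Q.lift _ _ relR57).comp (tau57 i)
  D := 19600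
  M := M57
  inj := Fld.gal57.inj (Fld.emb57.inj (by decide +kernel) fun x h1 h2 h3 h4 => by
    simp only [Fld.comb] at h1 h2 h3 h4
    ext <;> simp <;> omega)
  τ_τ := Fld.gal57.τ_τ
  σ_τ := Fld.gal57.σ_τ _
  D_pos := by norm_num
  det_sq := Fld.gal57.det_sq _ (by decide +kernel)
  approx := Fld.emb57.approx tau57 2578010857022246786 3050343582368125807 6820775604905358235
    (by decide +kernel)
  sum_σ := Fld.gal57.sum_σ _
  prod_σ := Fld.gal57.prod_σ _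
instance dom57 : IsDomain (Q P57) := S57.isDomain

end Pool.Agent.Lib.MP_aed2da_nt
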