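import Pool.Agent.Lib.MP_aed2da_nt.HVal
import Pool.Agent.Lib.MP_aed2da_nt.D23_0
import Pool.Agent.Lib.MP_aed2da_nt.D35_0
import Pool.Agent.Lib.MP_aed2da_nt.D37_0

/-! Sums of squares are sums of four squares, given the three-square criterion. -/

namespace Pool.Agent.Lib.MP_aed2da_nt

open H in
theorem four23 (h3 : ∀ β : Q P23, S23.Pos β → Sq2 β → Nmax23 < Q.nm β →
    Good Ls23 fm23 β → S3 β) (α : Q P23) (hα : IsSumSq α) : S4 α := by
  have h : H3 S23 Ls23 fm23 fd23.nmax := h3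
  have hN := nonsum S23 (fd := fd23) (nm := nm23)
    (.lf (ns_sound geo23 ns23_0))
  have hu := units_sound (P := P23) (B := fd23.b) (t := ut23) (by decide +kernel)
  have t := fun m => @tile_sound _ _ _ geo23 _ _ h _ _ ev23 m _ hN
  have a0_0 := ti23_0
  have a1_0 := ti23_1
  have a2_0 := ti23_2
  have a3_0 := ti23_3
  have a4_0 := ti23_4
  have a5_0 := ti23_5
  have a6_0 := ti23_6
  have b0 : AllT (BoxesOK S23) bt23_0 :=
    (.nd (.nd (.nd (t _ a0_0) (t _ a4_0)) (.nd (t _ a2_0) (t _ a6_0))) (.nd (.nd (t _ a1_0) (t _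
    a5_0)) (.nd (t _ a3_0) (.lf (cells23 h ce23_0)))))
  have b1 : AllT (BoxesOK S23) bt23_1 :=
    (.lf (trees_sound geo23 hu b0 tr23_0_0))
  exact final S23 (trees_sound geo23 hu b1 tr23_1_0) α hα

open H in
theorem four35 (h3 : ∀ β : Q P35, S35.Pos β → Sq2 β → Nmax35 < Q.nm β →
    Good Ls35 fm35 β → S3 β) (α : Q P35) (hα : IsSumSq α) : S4 α := by
  have h : H3 S35 Ls35 fm35 fd35.nmax := h3
  have hN := nonsum S35 (fd := fd35) (nm := nm35)
    (.lf (ns_sound geo35 ns35_0))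
  have hu := units_sound (P := P35) (B := fd35.b) (t := ut35) (by decide +kernel)
  have t := fun m => @tile_sound _ _ _ geo35 _ _ h _ _ ev35 m _ hN
  have a0_0 := ti35_0
  have a1_0 := ti35_1
  have a2_0 := ti35_2
  have a3_0 := ti35_3
  have a4_0 := ti35_4
  have a5_0 := ti35_5
  have a6_0 := ti35_6
  have b0 : AllT (BoxesOK S35) bt35_0 :=
    (.nd (.nd (.nd (t _ a0_0) (t _ a4_0)) (.nd (t _ a2_0) (t _ a6_0))) (.nd (.nd (t _ a1_0) (t _
    a5_0)) (.nd (t _ a3_0) (.lf (cells35 h ce35_0)))))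
  have b1 : AllT (BoxesOK S35) bt35_1 :=
    (.lf (trees_sound geo35 hu b0 tr35_0_0))
  exact final S35 (trees_sound geo35 hu b1 tr35_1_0) α hα

open H in
theorem four37 (h3 : ∀ β : Q P37, S37.Pos β → Sq2 β → Nmax37 < Q.nm β →
    Good Ls37 fm37 β → S3 β) (α : Q P37) (hα : IsSumSq α) : S4 α := by
  have h : H3 S37 Ls37 fm37 fd37.nmax := h3
  have hN := nonsum S37 (fd := fd37) (nm := nm37)
    (.lf (ns_sound geo37 ns37_0))
  have hu := units_sound (P := P37) (B := fd37.b) (t := ut37) (by decide +kernel)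
  have t := fun m => @tile_sound _ _ _ geo37 _ _ h _ _ ev37 m _ hN
  have a0_0 := ti37_0
  have a1_0 := ti37_1
  have a2_0 := ti37_2
  have a3_0 := ti37_3
  have a4_0 := ti37_4
  have a5_0 := ti37_5
  have a6_0 := ti37_6
  have a7_0 := ti37_7
  have a8_0 := ti37_8
  have a9_0 := ti37_9
  have a10_0 := ti37_10
  have a11_0 := ti37_11
  have a12_0 := ti37_12
  have a13_0 := ti37_13
  have a14_0 := ti37_14
  have a15_0 := ti37_15
  have a16_0 := ti37_16
  have a17_0 := ti37_17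
  have a18_0 := ti37_18
  have a19_0 := ti37_19
  have a20_0 := ti37_20
  have a21_0 := ti37_21
  have a22_0 := ti37_22
  have a23_0 := ti37_23
  have b0 : AllT (BoxesOK S37) bt37_0 :=
    (.nd (.nd (.nd (.nd (.nd (t _ a0_0) (t _ a16_0)) (.nd (t _ a8_0) (.lf (cells37 h ce37_0))))
    (.nd (.nd (t _ a4_0) (t _ a20_0)) (t _ a12_0))) (.nd (.nd (.nd (t _ a2_0) (t _ a18_0)) (.nd
    (t _ a10_0) (.lf (cells37 h ce37_2)))) (.nd (.nd (t _ a6_0) (t _ a22_0)) (t _ a14_0)))) (.nd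
    (.nd (.nd (.nd (t _ a1_0) (t _ a17_0)) (.nd (t _ a9_0) (.lf (cells37 h ce37_1)))) (.nd (.nd
    (t _ a5_0) (t _ a21_0)) (t _ a13_0))) (.nd (.nd (.nd (t _ a3_0) (t _ a19_0)) (t _ a11_0))
    (.nd (.nd (t _ a7_0) (t _ a23_0)) (t _ a15_0)))))
  have b1 : AllT (BoxesOK S37) bt37_1 :=
    (.lf (trees_sound geo37 hu b0 tr37_0_0))
  exact final S37 (trees_sound geo37 hu b1 tr37_1_0) α hα

end Pool.Agent.Lib.MP_aed2da_nt
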