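import Pool.Agent.Lib.MP_aed2da_nt.HVal
import Pool.Agent.Lib.MP_aed2da_nt.D27_0
import Pool.Agent.Lib.MP_aed2da_nt.D27_1
import Pool.Agent.Lib.MP_aed2da_nt.D27_2
import Pool.Agent.Lib.MP_aed2da_nt.D27_3
import Pool.Agent.Lib.MP_aed2da_nt.D27_4
import Pool.Agent.Lib.MP_aed2da_nt.D56_0
import Pool.Agent.Lib.MP_aed2da_nt.D56_1
import Pool.Agent.Lib.MP_aed2da_nt.D56_2
import Pool.Agent.Lib.MP_aed2da_nt.D56_3

/-! Sums of squares are sums of four squares, given the three-square criterion. -/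

namespace Pool.Agent.Lib.MP_aed2da_nt

open H in
theorem four27 (h3 : ∀ β : Q P27, S27.Pos β → Sq2 β → Nmax27 < Q.nm β →
    Good Ls27 fm27 β → S3 β) (α : Q P27) (hα : IsSumSq α) : S4 α := by
  have h : H3 S27 Ls27 fm27 fd27.nmax := h3
  have hN := nonsum S27 (fd := fd27) (nm := nm27)
    (.nd (.nd (.lf (ns_sound geo27 ns27_0)) (.lf (ns_sound geo27 ns27_2))) (.nd (.lf (ns_sound
    geo27 ns27_1)) (.lf (ns_sound geo27 ns27_3))))
  have hu := units_sound (P := P27) (B := fd27.b) (t := ut27) (by decide +kernel)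
  have t := fun m => @tile_sound _ _ _ geo27 _ _ h _ _ ev27 m _ hN
  have a0_0 := ti27_0
  have a1_0 := ti27_1
  have a2_0 := ti27_2
  have a3_0 := ti27_3
  have a4_0 := ti27_4
  have a5_0 := ti27_5
  have a6_0 := ti27_6
  have a7_0 := ti27_7
  have a8_0 := ti27_8
  have a9_0 := ti27_9
  have a10_0 := ti27_10
  have a11_0 := ti27_11
  have a12_0 := ti27_12
  have a13_0 := ti27_13
  have a14_0 := ti27_14
  have a15_0 := ti27_15
  have a16_0 := ti27_16
  have a17_0 := ti27_17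
  have a18_0 := ti27_18
  have a19_0 := ti27_19
  have a20_0 := ti27_20
  have a21_0 := ti27_21
  have a22_0 := ti27_22
  have a23_0 := ti27_23
  have a24_0 := ti27_24
  have a25_0 := ti27_25
  have a26_0 := ti27_26
  have a27_0 := ti27_27
  have a28_0 := ti27_28
  have a29_0 := ti27_29
  have a30_0 := ti27_30
  have a31_0 := ti27_31
  have a32_0 := ti27_32
  have a33_0 := ti27_33
  have a34_0 := ti27_34
  have a35_0 := ti27_35
  have a36_0 := ti27_36
  have a37_0 := ti27_37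
  have a38_0 := ti27_38
  have a39_0 := ti27_39
  have a40_0 := ti27_40
  have a41_0 := ti27_41
  have a42_0 := ti27_42
  have a43_0 := ti27_43
  have a44_0 := ti27_44
  have a45_0 := ti27_45
  have a46_0 := ti27_46
  have a47_0 := ti27_47
  have a48_0 := ti27_48
  have a49_0 := ti27_49
  have a50_0 := ti27_50
  have a51_0 := ti27_51
  have a52_0 := ti27_52
  have a53_0 := ti27_53
  have a54_0 := ti27_54
  have a55_0 := ti27_55
  have a56_0 := ti27_56
  have a57_0 := ti27_57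
  have a58_0 := ti27_58
  have a59_0 := ti27_59
  have a60_0 := ti27_60
  have a61_0 := ti27_61
  have a62_0 := ti27_62
  have a63_0 := ti27_63
  have a64_0 := ti27_64
  have a65_0 := ti27_65
  have a66_0 := ti27_66
  have a67_0 := ti27_67
  have a68_0 := ti27_68
  have a69_0 := ti27_69
  have a70_0 := ti27_70
  have a71_0 := ti27_71
  have a72_0 := ti27_72
  have a73_0 := ti27_73
  have a74_0 := ti27_74
  have a75_0 := ti27_75
  have a76_0 := ti27_76
  have a77_0 := ti27_77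
  have a78_0 := ti27_78
  have a79_0 := ti27_79
  have a80_0 := ti27_80
  have a81_0 := ti27_81
  have a82_0 := ti27_82
  have a83_0 := ti27_83
  have a84_0 := ti27_84
  have a85_0 := ti27_85
  have a86_0 := ti27_86
  have a87_0 := ti27_87
  have a88_0 := ti27_88
  have a89_0 := ti27_89
  have a90_0 := ti27_90
  have a91_0 := ti27_91
  have a92_0 := ti27_92
  have a93_0 := ti27_93
  have a94_0 := ti27_94
  have a95_0 := ti27_95
  have a96_0 := ti27_96
  have a97_0 := ti27_97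
  have a98_0 := ti27_98
  have a99_0 := ti27_99
  have a100_0 := ti27_100
  have a101_0 := ti27_101
  have a102_0 := ti27_102
  have a103_0 := ti27_103
  have a104_0 := ti27_104
  have a105_0 := ti27_105
  have a106_0 := ti27_106
  have a107_0 := ti27_107
  have a108_0 := ti27_108
  have a109_0 := ti27_109
  have a110_0 := ti27_110
  have a111_0 := ti27_111
  have a112_0 := ti27_112
  have a113_0 := ti27_113
  have a114_0 := ti27_114
  have a115_0 := ti27_115
  have a116_0 := ti27_116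
  have a117_0 := ti27_117
  have a118_0 := ti27_118
  have a119_0 := ti27_119
  have a120_0 := ti27_120
  have a121_0 := ti27_121
  have a122_0 := ti27_122
  have a123_0 := ti27_123
  have a124_0 := ti27_124
  have a125_0 := ti27_125
  have a126_0 := ti27_126
  have a127_0 := ti27_127
  have a128_0 := ti27_128
  have a129_0 := ti27_129
  have a130_0 := ti27_130
  have a131_0 := ti27_131
  have a132_0 := ti27_132
  have a133_0 := ti27_133
  have a134_0 := ti27_134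
  have a135_0 := ti27_135
  have a136_0 := ti27_136
  have a137_0 := ti27_137
  have a138_0 := ti27_138
  have a139_0 := ti27_139
  have a140_0 := ti27_140
  have a141_0 := ti27_141
  have a142_0 := ti27_142
  have a143_0 := ti27_143
  have a144_0 := ti27_144
  have a145_0 := ti27_145
  have a146_0 := ti27_146
  have a147_0 := ti27_147
  have a148_0 := ti27_148
  have a149_0 := ti27_149
  have a150_0 := ti27_150
  have a151_0 := ti27_151
  have a152_0 := ti27_152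
  have a153_0 := ti27_153
  have a154_0 := ti27_154
  have a155_0 := ti27_155
  have a156_0 := ti27_156
  have a157_0 := ti27_157
  have a158_0 := ti27_158
  have a159_0 := ti27_159
  have a160_0 := ti27_160
  have a161_0 := ti27_161
  have a162_0 := ti27_162
  have a163_0 := ti27_163
  have a164_0 := ti27_164
  have b0 : AllT (BoxesOK S27) bt27_0 :=
    (.nd (.nd (.nd (.nd (.nd (.nd (.nd (.nd (t _ a0_0) (t _ a128_0)) (t _ a64_0)) (.nd (.nd (t _
    a32_0) (t _ a160_0)) (t _ a96_0))) (.nd (.nd (.nd (t _ a16_0) (t _ a144_0)) (t _ a80_0))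
    (.nd (t _ a48_0) (t _ a112_0)))) (.nd (.nd (.nd (.nd (t _ a8_0) (t _ a136_0)) (t _ a72_0))
    (.nd (.nd (t _ a40_0) (.lf (cells27 h ce27_3))) (t _ a104_0))) (.nd (.nd (.nd (t _ a24_0) (t
    _ a152_0)) (t _ a88_0)) (.nd (t _ a56_0) (t _ a120_0))))) (.nd (.nd (.nd (.nd (.nd (t _
    a4_0) (t _ a132_0)) (t _ a68_0)) (.nd (.nd (t _ a36_0) (t _ a164_0)) (t _ a100_0))) (.nd
    (.nd (.nd (t _ a20_0) (t _ a148_0)) (t _ a84_0)) (.nd (t _ a52_0) (t _ a116_0)))) (.nd (.nd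
    (.nd (.nd (t _ a12_0) (t _ a140_0)) (t _ a76_0)) (.nd (t _ a44_0) (t _ a108_0))) (.nd (.nd
    (.nd (t _ a28_0) (t _ a156_0)) (t _ a92_0)) (.nd (t _ a60_0) (t _ a124_0)))))) (.nd (.nd
    (.nd (.nd (.nd (.nd (t _ a2_0) (t _ a130_0)) (t _ a66_0)) (.nd (.nd (t _ a34_0) (t _
    a162_0)) (t _ a98_0))) (.nd (.nd (.nd (t _ a18_0) (t _ a146_0)) (t _ a82_0)) (.nd (t _
    a50_0) (t _ a114_0)))) (.nd (.nd (.nd (.nd (t _ a10_0) (t _ a138_0)) (t _ a74_0)) (.nd (.nd
    (t _ a42_0) (.lf (cells27 h ce27_5))) (t _ a106_0))) (.nd (.nd (.nd (t _ a26_0) (t _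
    a154_0)) (t _ a90_0)) (.nd (t _ a58_0) (t _ a122_0))))) (.nd (.nd (.nd (.nd (.nd (t _ a6_0)
    (t _ a134_0)) (t _ a70_0)) (.nd (.nd (t _ a38_0) (.lf (cells27 h ce27_1))) (t _ a102_0)))
    (.nd (.nd (.nd (t _ a22_0) (t _ a150_0)) (t _ a86_0)) (.nd (t _ a54_0) (t _ a118_0)))) (.nd
    (.nd (.nd (.nd (t _ a14_0) (t _ a142_0)) (t _ a78_0)) (.nd (t _ a46_0) (t _ a110_0))) (.nd
    (.nd (.nd (t _ a30_0) (t _ a158_0)) (t _ a94_0)) (.nd (t _ a62_0) (t _ a126_0))))))) (.nd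
    (.nd (.nd (.nd (.nd (.nd (.nd (t _ a1_0) (t _ a129_0)) (t _ a65_0)) (.nd (.nd (t _ a33_0) (t
    _ a161_0)) (t _ a97_0))) (.nd (.nd (.nd (t _ a17_0) (t _ a145_0)) (t _ a81_0)) (.nd (t _
    a49_0) (t _ a113_0)))) (.nd (.nd (.nd (.nd (t _ a9_0) (t _ a137_0)) (t _ a73_0)) (.nd (.nd
    (t _ a41_0) (.lf (cells27 h ce27_4))) (t _ a105_0))) (.nd (.nd (.nd (t _ a25_0) (t _
    a153_0)) (t _ a89_0)) (.nd (t _ a57_0) (t _ a121_0))))) (.nd (.nd (.nd (.nd (.nd (t _ a5_0)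
    (t _ a133_0)) (t _ a69_0)) (.nd (.nd (t _ a37_0) (.lf (cells27 h ce27_0))) (t _ a101_0)))
    (.nd (.nd (.nd (t _ a21_0) (t _ a149_0)) (t _ a85_0)) (.nd (t _ a53_0) (t _ a117_0)))) (.nd
    (.nd (.nd (.nd (t _ a13_0) (t _ a141_0)) (t _ a77_0)) (.nd (t _ a45_0) (t _ a109_0))) (.nd
    (.nd (.nd (t _ a29_0) (t _ a157_0)) (t _ a93_0)) (.nd (t _ a61_0) (t _ a125_0)))))) (.nd
    (.nd (.nd (.nd (.nd (.nd (t _ a3_0) (t _ a131_0)) (t _ a67_0)) (.nd (.nd (t _ a35_0) (t _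
    a163_0)) (t _ a99_0))) (.nd (.nd (.nd (t _ a19_0) (t _ a147_0)) (t _ a83_0)) (.nd (t _
    a51_0) (t _ a115_0)))) (.nd (.nd (.nd (.nd (t _ a11_0) (t _ a139_0)) (t _ a75_0)) (.nd (.nd
    (t _ a43_0) (.lf (cells27 h ce27_6))) (t _ a107_0))) (.nd (.nd (.nd (t _ a27_0) (t _
    a155_0)) (t _ a91_0)) (.nd (t _ a59_0) (t _ a123_0))))) (.nd (.nd (.nd (.nd (.nd (t _ a7_0)
    (t _ a135_0)) (t _ a71_0)) (.nd (.nd (t _ a39_0) (.lf (cells27 h ce27_2))) (t _ a103_0)))
    (.nd (.nd (.nd (t _ a23_0) (t _ a151_0)) (t _ a87_0)) (.nd (t _ a55_0) (t _ a119_0)))) (.nd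
    (.nd (.nd (.nd (t _ a15_0) (t _ a143_0)) (t _ a79_0)) (.nd (t _ a47_0) (t _ a111_0))) (.nd
    (.nd (.nd (t _ a31_0) (t _ a159_0)) (t _ a95_0)) (.nd (t _ a63_0) (t _ a127_0))))))))
  have b1 : AllT (BoxesOK S27) bt27_1 :=
    (.nd (.nd (.lf (trees_sound geo27 hu b0 tr27_0_0)) (.lf (trees_sound geo27 hu b0 tr27_0_2)))
    (.nd (.lf (trees_sound geo27 hu b0 tr27_0_1)) (.lf (trees_sound geo27 hu b0 tr27_0_3))))
  have b2 : AllT (BoxesOK S27) bt27_2 :=
    (.lf (trees_sound geo27 hu b1 tr27_1_0))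
  exact final S27 (trees_sound geo27 hu b2 tr27_2_0) α hα

open H in
theorem four56 (h3 : ∀ β : Q P56, S56.Pos β → Sq2 β → Nmax56 < Q.nm β →
    Good Ls56 fm56 β → S3 β) (α : Q P56) (hα : IsSumSq α) : S4 α := by
  have h : H3 S56 Ls56 fm56 fd56.nmax := h3
  have hN := nonsum S56 (fd := fd56) (nm := nm56)
    (.nd (.lf (ns_sound geo56 ns56_0)) (.lf (ns_sound geo56 ns56_1)))
  have hu := units_sound (P := P56) (B := fd56.b) (t := ut56) (by decide +kernel)
  have t := fun m => @tile_sound _ _ _ geo56 _ _ h _ _ ev56 m _ hN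
  have a0_0 := ti56_0
  have a1_0 := ti56_1
  have a2_0 := ti56_2
  have a3_0 := ti56_3
  have a4_0 := ti56_4
  have a5_0 := ti56_5
  have a6_0 := ti56_6
  have a7_0 := ti56_7
  have a8_0 := ti56_8
  have a9_0 := ti56_9
  have a10_0 := ti56_10
  have a11_0 := ti56_11
  have a12_0 := ti56_12
  have a13_0 := ti56_13
  have a14_0 := ti56_14
  have a15_0 := ti56_15
  have a16_0 := ti56_16
  have a17_0 := ti56_17
  have a18_0 := ti56_18
  have a19_0 := ti56_19
  have a20_0 := ti56_20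
  have a21_0 := ti56_21
  have a22_0 := ti56_22
  have a23_0 := ti56_23
  have a24_0 := ti56_24
  have a25_0 := ti56_25
  have a26_0 := ti56_26
  have a27_0 := ti56_27
  have a28_0 := ti56_28
  have a29_0 := ti56_29
  have a30_0 := ti56_30
  have a31_0 := ti56_31
  have a32_0 := ti56_32
  have a33_0 := ti56_33
  have a34_0 := ti56_34
  have a35_0 := ti56_35
  have a36_0 := ti56_36
  have a37_0 := ti56_37
  have a38_0 := ti56_38
  have a39_0 := ti56_39
  have a40_0 := ti56_40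
  have a41_0 := ti56_41
  have a42_0 := ti56_42
  have a43_0 := ti56_43
  have a44_0 := ti56_44
  have a45_0 := ti56_45
  have a46_0 := ti56_46
  have a47_0 := ti56_47
  have a48_0 := ti56_48
  have a49_0 := ti56_49
  have a50_0 := ti56_50
  have a51_0 := ti56_51
  have a52_0 := ti56_52
  have a53_0 := ti56_53
  have a54_0 := ti56_54
  have a55_0 := ti56_55
  have a56_0 := ti56_56
  have a57_0 := ti56_57
  have a58_0 := ti56_58
  have a59_0 := ti56_59
  have a60_0 := ti56_60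
  have a61_0 := ti56_61
  have a62_0 := ti56_62
  have a63_0 := ti56_63
  have a64_0 := ti56_64
  have a65_0 := ti56_65
  have a66_0 := ti56_66
  have a67_0 := ti56_67
  have a68_0 := ti56_68
  have a69_0 := ti56_69
  have a70_0 := ti56_70
  have a71_0 := ti56_71
  have a72_0 := ti56_72
  have a73_0 := ti56_73
  have a74_0 := ti56_74
  have a75_0 := ti56_75
  have a76_0 := ti56_76
  have a77_0 := ti56_77
  have a78_0 := ti56_78
  have a79_0 := ti56_79
  have a80_0 := ti56_80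
  have a81_0 := ti56_81
  have a82_0 := ti56_82
  have a83_0 := ti56_83
  have a84_0 := ti56_84
  have a85_0 := ti56_85
  have a86_0 := ti56_86
  have a87_0 := ti56_87
  have a88_0 := ti56_88
  have a89_0 := ti56_89
  have a90_0 := ti56_90
  have a91_0 := ti56_91
  have a92_0 := ti56_92
  have a93_0 := ti56_93
  have a94_0 := ti56_94
  have a95_0 := ti56_95
  have a96_0 := ti56_96
  have a97_0 := ti56_97
  have a98_0 := ti56_98
  have a99_0 := ti56_99
  have a100_0 := ti56_100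
  have a101_0 := ti56_101
  have a102_0 := ti56_102
  have a103_0 := ti56_103
  have a104_0 := ti56_104
  have a105_0 := ti56_105
  have a106_0 := ti56_106
  have a107_0 := ti56_107
  have a108_0 := ti56_108
  have a109_0 := ti56_109
  have a110_0 := ti56_110
  have a111_0 := ti56_111
  have a112_0 := ti56_112
  have a113_0 := ti56_113
  have a114_0 := ti56_114
  have a115_0 := ti56_115
  have a116_0 := ti56_116
  have a117_0 := ti56_117
  have a118_0 := ti56_118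
  have a119_0 := ti56_119
  have a120_0 := ti56_120
  have a121_0 := ti56_121
  have a122_0 := ti56_122
  have a123_0 := ti56_123
  have a124_0 := ti56_124
  have a125_0 := ti56_125
  have a126_0 := ti56_126
  have a127_0 := ti56_127
  have a128_0 := ti56_128
  have a129_0 := ti56_129
  have a130_0 := ti56_130
  have a131_0 := ti56_131
  have a132_0 := ti56_132
  have a133_0 := ti56_133
  have a134_0 := ti56_134
  have a135_0 := ti56_135
  have a136_0 := ti56_136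
  have a137_0 := ti56_137
  have a138_0 := ti56_138
  have a139_0 := ti56_139
  have a140_0 := ti56_140
  have a141_0 := ti56_141
  have a142_0 := ti56_142
  have a143_0 := ti56_143
  have a144_0 := ti56_144
  have a145_0 := ti56_145
  have a146_0 := ti56_146
  have a147_0 := ti56_147
  have a148_0 := ti56_148
  have a149_0 := ti56_149
  have a150_0 := ti56_150
  have a151_0 := ti56_151
  have a152_0 := ti56_152
  have a153_0 := ti56_153
  have a154_0 := ti56_154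
  have a155_0 := ti56_155
  have a156_0 := ti56_156
  have b0 : AllT (BoxesOK S56) bt56_0 :=
    (.nd (.nd (.nd (.nd (.nd (.nd (.nd (.nd (t _ a0_0) (t _ a128_0)) (t _ a64_0)) (.nd (.nd (t _
    a32_0) (.lf (cells56 h ce56_3))) (t _ a96_0))) (.nd (.nd (.nd (t _ a16_0) (t _ a144_0)) (t _
    a80_0)) (.nd (t _ a48_0) (t _ a112_0)))) (.nd (.nd (.nd (.nd (t _ a8_0) (t _ a136_0)) (t _
    a72_0)) (.nd (t _ a40_0) (t _ a104_0))) (.nd (.nd (.nd (t _ a24_0) (t _ a152_0)) (t _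
    a88_0)) (.nd (t _ a56_0) (t _ a120_0))))) (.nd (.nd (.nd (.nd (.nd (t _ a4_0) (t _ a132_0))
    (t _ a68_0)) (.nd (t _ a36_0) (t _ a100_0))) (.nd (.nd (.nd (t _ a20_0) (t _ a148_0)) (t _
    a84_0)) (.nd (t _ a52_0) (t _ a116_0)))) (.nd (.nd (.nd (.nd (t _ a12_0) (t _ a140_0)) (t _
    a76_0)) (.nd (t _ a44_0) (t _ a108_0))) (.nd (.nd (.nd (t _ a28_0) (t _ a156_0)) (t _
    a92_0)) (.nd (t _ a60_0) (t _ a124_0)))))) (.nd (.nd (.nd (.nd (.nd (.nd (t _ a2_0) (t _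
    a130_0)) (t _ a66_0)) (.nd (t _ a34_0) (t _ a98_0))) (.nd (.nd (.nd (t _ a18_0) (t _
    a146_0)) (t _ a82_0)) (.nd (t _ a50_0) (t _ a114_0)))) (.nd (.nd (.nd (.nd (t _ a10_0) (t _
    a138_0)) (t _ a74_0)) (.nd (t _ a42_0) (t _ a106_0))) (.nd (.nd (.nd (t _ a26_0) (t _
    a154_0)) (t _ a90_0)) (.nd (t _ a58_0) (t _ a122_0))))) (.nd (.nd (.nd (.nd (.nd (t _ a6_0)
    (t _ a134_0)) (t _ a70_0)) (.nd (t _ a38_0) (t _ a102_0))) (.nd (.nd (.nd (t _ a22_0) (t _
    a150_0)) (t _ a86_0)) (.nd (t _ a54_0) (t _ a118_0)))) (.nd (.nd (.nd (.nd (t _ a14_0) (t _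
    a142_0)) (t _ a78_0)) (.nd (t _ a46_0) (t _ a110_0))) (.nd (.nd (.nd (t _ a30_0) (.lf
    (cells56 h ce56_1))) (t _ a94_0)) (.nd (t _ a62_0) (t _ a126_0))))))) (.nd (.nd (.nd (.nd
    (.nd (.nd (.nd (t _ a1_0) (t _ a129_0)) (t _ a65_0)) (.nd (.nd (t _ a33_0) (.lf (cells56 h
    ce56_4))) (t _ a97_0))) (.nd (.nd (.nd (t _ a17_0) (t _ a145_0)) (t _ a81_0)) (.nd (t _
    a49_0) (t _ a113_0)))) (.nd (.nd (.nd (.nd (t _ a9_0) (t _ a137_0)) (t _ a73_0)) (.nd (t _
    a41_0) (t _ a105_0))) (.nd (.nd (.nd (t _ a25_0) (t _ a153_0)) (t _ a89_0)) (.nd (t _ a57_0)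
    (t _ a121_0))))) (.nd (.nd (.nd (.nd (.nd (t _ a5_0) (t _ a133_0)) (t _ a69_0)) (.nd (t _
    a37_0) (t _ a101_0))) (.nd (.nd (.nd (t _ a21_0) (t _ a149_0)) (t _ a85_0)) (.nd (t _ a53_0)
    (t _ a117_0)))) (.nd (.nd (.nd (.nd (t _ a13_0) (t _ a141_0)) (t _ a77_0)) (.nd (t _ a45_0)
    (t _ a109_0))) (.nd (.nd (.nd (t _ a29_0) (.lf (cells56 h ce56_0))) (t _ a93_0)) (.nd (t _
    a61_0) (t _ a125_0)))))) (.nd (.nd (.nd (.nd (.nd (.nd (t _ a3_0) (t _ a131_0)) (t _ a67_0))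
    (.nd (t _ a35_0) (t _ a99_0))) (.nd (.nd (.nd (t _ a19_0) (t _ a147_0)) (t _ a83_0)) (.nd (t
    _ a51_0) (t _ a115_0)))) (.nd (.nd (.nd (.nd (t _ a11_0) (t _ a139_0)) (t _ a75_0)) (.nd (t
    _ a43_0) (t _ a107_0))) (.nd (.nd (.nd (t _ a27_0) (t _ a155_0)) (t _ a91_0)) (.nd (t _
    a59_0) (t _ a123_0))))) (.nd (.nd (.nd (.nd (.nd (t _ a7_0) (t _ a135_0)) (t _ a71_0)) (.nd
    (t _ a39_0) (t _ a103_0))) (.nd (.nd (.nd (t _ a23_0) (t _ a151_0)) (t _ a87_0)) (.nd (t _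
    a55_0) (t _ a119_0)))) (.nd (.nd (.nd (.nd (t _ a15_0) (t _ a143_0)) (t _ a79_0)) (.nd (t _
    a47_0) (t _ a111_0))) (.nd (.nd (.nd (t _ a31_0) (.lf (cells56 h ce56_2))) (t _ a95_0)) (.nd
    (t _ a63_0) (t _ a127_0))))))))
  have b1 : AllT (BoxesOK S56) bt56_1 :=
    (.nd (.nd (.lf (trees_sound geo56 hu b0 tr56_0_0)) (.lf (trees_sound geo56 hu b0 tr56_0_2)))
    (.nd (.lf (trees_sound geo56 hu b0 tr56_0_1)) (.lf (trees_sound geo56 hu b0 tr56_0_3))))
  have b2 : AllT (BoxesOK S56) bt56_2 :=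
    (.lf (trees_sound geo56 hu b1 tr56_1_0))
  exact final S56 (trees_sound geo56 hu b2 tr56_2_0) α hα

end Pool.Agent.Lib.MP_aed2da_nt
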