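import Pool.Agent.Lib.MP_aed2da_nt.HVal
import Pool.Agent.Lib.MP_aed2da_nt.D57_0
import Pool.Agent.Lib.MP_aed2da_nt.D57_1
import Pool.Agent.Lib.MP_aed2da_nt.D57_2
import Pool.Agent.Lib.MP_aed2da_nt.D57_3
import Pool.Agent.Lib.MP_aed2da_nt.D57_4
import Pool.Agent.Lib.MP_aed2da_nt.D57_5
import Pool.Agent.Lib.MP_aed2da_nt.D57_6
import Pool.Agent.Lib.MP_aed2da_nt.D57_7
import Pool.Agent.Lib.MP_aed2da_nt.D57_8
import Pool.Agent.Lib.MP_aed2da_nt.D57_9
import Pool.Agent.Lib.MP_aed2da_nt.D57_10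
import Pool.Agent.Lib.MP_aed2da_nt.D57_11
import Pool.Agent.Lib.MP_aed2da_nt.D57_12
import Pool.Agent.Lib.MP_aed2da_nt.D57_13
import Pool.Agent.Lib.MP_aed2da_nt.D57_14
import Pool.Agent.Lib.MP_aed2da_nt.D57_15
import Pool.Agent.Lib.MP_aed2da_nt.D57_16
import Pool.Agent.Lib.MP_aed2da_nt.D57_17

/-! Sums of squares are sums of four squares, given the three-square criterion. -/

namespace Pool.Agent.Lib.MP_aed2da_nt

open H in
theorem four57 (h3 : ∀ β : Q P57, S57.Pos β → Sq2 β → Nmax57 < Q.nm β →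
    Good Ls57 fm57 β → S3 β) (α : Q P57) (hα : IsSumSq α) : S4 α := by
  have h : H3 S57 Ls57 fm57 fd57.nmax := h3
  have hN := nonsum S57 (fd := fd57) (nm := nm57)
    (.nd (.nd (.lf (ns_sound geo57 ns57_0)) (.lf (ns_sound geo57 ns57_2))) (.lf (ns_sound geo57
    ns57_1)))
  have hu := units_sound (P := P57) (B := fd57.b) (t := ut57) (by decide +kernel)
  have t := fun m => @tile_sound _ _ _ geo57 _ _ h _ _ ev57 m _ hN
  have a0_0 := ti57_0
  have a1_0 := ti57_1
  have a2_0 := ti57_2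
  have a3_0 := ti57_3
  have a4_0 := ti57_4
  have a5_0 := ti57_5
  have a6_0 := ti57_6
  have a7_0 := ti57_7
  have a8_0 := ti57_8
  have a9_0 := ti57_9
  have a10_0 := ti57_10
  have a11_0 := ti57_11
  have a12_0 := ti57_12
  have a13_0 := ti57_13
  have a14_0 := ti57_14
  have a15_0 := ti57_15
  have a16_0 := ti57_16
  have a17_0 := ti57_17
  have a18_0 := ti57_18
  have a19_0 := ti57_19
  have a20_0 := ti57_20
  have a21_0 := ti57_21
  have a22_0 := ti57_22
  have a23_0 := ti57_23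
  have a24_0 := ti57_24
  have a25_0 := ti57_25
  have a26_0 := ti57_26
  have a27_0 := ti57_27
  have a28_0 := ti57_28
  have a29_0 := ti57_29
  have a30_0 := ti57_30
  have a31_0 := ti57_31
  have a32_0 := ti57_32
  have a33_0 := ti57_33
  have a34_0 := ti57_34
  have a35_0 := ti57_35
  have a36_0 := ti57_36
  have a37_0 := ti57_37
  have a38_0 := ti57_38
  have a39_0 := ti57_39
  have a40_0 := ti57_40
  have a41_0 := ti57_41
  have a42_0 := ti57_42
  have a43_0 := ti57_43
  have a44_0 := ti57_44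
  have a45_0 := ti57_45
  have a46_0 := ti57_46
  have a47_0 := ti57_47
  have a48_0 := ti57_48
  have a49_0 := ti57_49
  have a50_0 := ti57_50
  have a51_0 := ti57_51
  have a52_0 := ti57_52
  have a53_0 := ti57_53
  have a54_0 := ti57_54
  have a55_0 := ti57_55
  have a56_0 := ti57_56
  have a57_0 := ti57_57
  have a58_0 := ti57_58
  have a59_0 := ti57_59
  have a60_0 := ti57_60
  have a61_0 := ti57_61
  have a62_0 := ti57_62
  have a63_0 := ti57_63
  have a64_0 := ti57_64
  have a65_0 := ti57_65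
  have a66_0 := ti57_66
  have a67_0 := ti57_67
  have a68_0 := ti57_68
  have a69_0 := ti57_69
  have a70_0 := ti57_70
  have a71_0 := ti57_71
  have a72_0 := ti57_72
  have a73_0 := ti57_73
  have a74_0 := ti57_74
  have a75_0 := ti57_75
  have a76_0 := ti57_76
  have a77_0 := ti57_77
  have a78_0 := ti57_78
  have a79_0 := ti57_79
  have a80_0 := ti57_80
  have a81_0 := ti57_81
  have a82_0 := ti57_82
  have a83_0 := ti57_83
  have a84_0 := ti57_84
  have a85_0 := ti57_85
  have a86_0 := ti57_86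
  have a87_0 := ti57_87
  have a88_0 := ti57_88
  have a89_0 := ti57_89
  have a90_0 := ti57_90
  have a91_0 := ti57_91
  have a92_0 := ti57_92
  have a93_0 := ti57_93
  have a94_0 := ti57_94
  have a95_0 := ti57_95
  have a96_0 := ti57_96
  have a97_0 := ti57_97
  have a98_0 := ti57_98
  have a99_0 := ti57_99
  have a100_0 := ti57_100
  have a101_0 := ti57_101
  have a102_0 := ti57_102
  have a103_0 := ti57_103
  have a104_0 := ti57_104
  have a105_0 := ti57_105
  have a106_0 := ti57_106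
  have a107_0 := ti57_107
  have a108_0 := ti57_108
  have a109_0 := ti57_109
  have a110_0 := ti57_110
  have a111_0 := ti57_111
  have a112_0 := ti57_112
  have a113_0 := ti57_113
  have a114_0 := ti57_114
  have a115_0 := ti57_115
  have a116_0 := ti57_116
  have a117_0 := ti57_117
  have a118_0 := ti57_118
  have a119_0 := ti57_119
  have a120_0 := ti57_120
  have a121_0 := ti57_121
  have a122_0 := ti57_122
  have a123_0 := ti57_123
  have a124_0 := ti57_124
  have a125_0 := ti57_125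
  have a126_0 := ti57_126
  have a127_0 := ti57_127
  have a128_0 := ti57_128
  have a129_0 := ti57_129
  have a130_0 := ti57_130
  have a131_0 := ti57_131
  have a132_0 := ti57_132
  have a133_0 := ti57_133
  have a134_0 := ti57_134
  have a135_0 := ti57_135
  have a136_0 := ti57_136
  have a137_0 := ti57_137
  have a138_0 := ti57_138
  have a139_0 := ti57_139
  have a140_0 := ti57_140
  have a141_0 := ti57_141
  have a142_0 := ti57_142
  have a143_0 := ti57_143
  have a144_0 := ti57_144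
  have a145_0 := ti57_145
  have a146_0 := ti57_146
  have a147_0 := ti57_147
  have a148_0 := ti57_148
  have a149_0 := ti57_149
  have a150_0 := ti57_150
  have a151_0 := ti57_151
  have a152_0 := ti57_152
  have a153_0 := ti57_153
  have a154_0 := ti57_154
  have a155_0 := ti57_155
  have a156_0 := ti57_156
  have a157_0 := ti57_157
  have a158_0 := ti57_158
  have a159_0 := ti57_159
  have a160_0 := ti57_160
  have a161_0 := ti57_161
  have a162_0 := ti57_162
  have a163_0 := ti57_163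
  have a164_0 := ti57_164
  have a165_0 := ti57_165
  have a166_0 := ti57_166
  have a167_0 := ti57_167
  have a168_0 := ti57_168
  have a169_0 := ti57_169
  have a170_0 := ti57_170
  have a171_0 := ti57_171
  have a172_0 := ti57_172
  have a173_0 := ti57_173
  have a174_0 := ti57_174
  have a175_0 := ti57_175
  have a176_0 := ti57_176
  have a177_0 := ti57_177
  have a178_0 := ti57_178
  have a179_0 := ti57_179
  have a180_0 := ti57_180
  have a181_0 := ti57_181
  have a182_0 := ti57_182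
  have a183_0 := ti57_183
  have a184_0 := ti57_184
  have a185_0 := ti57_185
  have a186_0 := ti57_186
  have a187_0 := ti57_187
  have a188_0 := ti57_188
  have a189_0 := ti57_189
  have a190_0 := ti57_190
  have a191_0 := ti57_191
  have a192_0 := ti57_192
  have a193_0 := ti57_193
  have a194_0 := ti57_194
  have a195_0 := ti57_195
  have a196_0 := ti57_196
  have a197_0 := ti57_197
  have a198_0 := ti57_198
  have a199_0 := ti57_199
  have a200_0 := ti57_200
  have a201_0 := ti57_201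
  have a202_0 := ti57_202
  have a203_0 := ti57_203
  have a204_0 := ti57_204
  have a205_0 := ti57_205
  have a206_0 := ti57_206
  have a207_0 := ti57_207
  have a208_0 := ti57_208
  have a209_0 := ti57_209
  have a210_0 := ti57_210
  have a211_0 := ti57_211
  have a212_0 := ti57_212
  have a213_0 := ti57_213
  have a214_0 := ti57_214
  have a215_0 := ti57_215
  have a216_0 := ti57_216
  have a217_0 := ti57_217
  have a218_0 := ti57_218
  have a219_0 := ti57_219
  have a220_0 := ti57_220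
  have a221_0 := ti57_221
  have a222_0 := ti57_222
  have a223_0 := ti57_223
  have a224_0 := ti57_224
  have a225_0 := ti57_225
  have a226_0 := ti57_226
  have a227_0 := ti57_227
  have a228_0 := ti57_228
  have a229_0 := ti57_229
  have a230_0 := ti57_230
  have a231_0 := ti57_231
  have a232_0 := ti57_232
  have a233_0 := ti57_233
  have a234_0 := ti57_234
  have a235_0 := ti57_235
  have a236_0 := ti57_236
  have a237_0 := ti57_237
  have a238_0 := ti57_238
  have a239_0 := ti57_239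
  have a240_0 := ti57_240
  have a241_0 := ti57_241
  have a242_0 := ti57_242
  have a243_0 := ti57_243
  have a244_0 := ti57_244
  have a245_0 := ti57_245
  have a246_0 := ti57_246
  have a247_0 := ti57_247
  have a248_0 := ti57_248
  have a249_0 := ti57_249
  have a250_0 := ti57_250
  have a251_0 := ti57_251
  have a252_0 := ti57_252
  have a253_0 := ti57_253
  have a254_0 := ti57_254
  have a255_0 := ti57_255
  have a256_0 := ti57_256
  have a257_0 := ti57_257
  have a258_0 := ti57_258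
  have a259_0 := ti57_259
  have a260_0 := ti57_260
  have a261_0 := ti57_261
  have a262_0 := ti57_262
  have a263_0 := ti57_263
  have a264_0 := ti57_264
  have a265_0 := ti57_265
  have a266_0 := ti57_266
  have a267_0 := ti57_267
  have a268_0 := ti57_268
  have a269_0 := ti57_269
  have a270_0 := ti57_270
  have a271_0 := ti57_271
  have a272_0 := ti57_272
  have a273_0 := ti57_273
  have a274_0 := ti57_274
  have a275_0 := ti57_275
  have a276_0 := ti57_276
  have a277_0 := ti57_277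
  have a278_0 := ti57_278
  have a279_0 := ti57_279
  have a280_0 := ti57_280
  have a281_0 := ti57_281
  have a282_0 := ti57_282
  have a283_0 := ti57_283
  have a284_0 := ti57_284
  have a285_0 := ti57_285
  have a286_0 := ti57_286
  have a287_0 := ti57_287
  have a288_0 := ti57_288
  have a289_0 := ti57_289
  have a290_0 := ti57_290
  have a291_0 := ti57_291
  have a292_0 := ti57_292
  have a293_0 := ti57_293
  have a294_0 := ti57_294
  have a295_0 := ti57_295
  have a296_0 := ti57_296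
  have a297_0 := ti57_297
  have a298_0 := ti57_298
  have a299_0 := ti57_299
  have a300_0 := ti57_300
  have a301_0 := ti57_301
  have a302_0 := ti57_302
  have a303_0 := ti57_303
  have a304_0 := ti57_304
  have a305_0 := ti57_305
  have a306_0 := ti57_306
  have a307_0 := ti57_307
  have a308_0 := ti57_308
  have a309_0 := ti57_309
  have a310_0 := ti57_310
  have a311_0 := ti57_311
  have a312_0 := ti57_312
  have a313_0 := ti57_313
  have a314_0 := ti57_314
  have a315_0 := ti57_315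
  have a316_0 := ti57_316
  have a317_0 := ti57_317
  have a318_0 := ti57_318
  have a319_0 := ti57_319
  have a320_0 := ti57_320
  have a321_0 := ti57_321
  have a322_0 := ti57_322
  have a323_0 := ti57_323
  have a324_0 := ti57_324
  have a325_0 := ti57_325
  have a326_0 := ti57_326
  have a327_0 := ti57_327
  have a328_0 := ti57_328
  have a329_0 := ti57_329
  have a330_0 := ti57_330
  have a331_0 := ti57_331
  have a332_0 := ti57_332
  have a333_0 := ti57_333
  have a334_0 := ti57_334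
  have a335_0 := ti57_335
  have a336_0 := ti57_336
  have a337_0 := ti57_337
  have a338_0 := ti57_338
  have a339_0 := ti57_339
  have a340_0 := ti57_340
  have a341_0 := ti57_341
  have a342_0 := ti57_342
  have a343_0 := ti57_343
  have a344_0 := ti57_344
  have a345_0 := ti57_345
  have a346_0 := ti57_346
  have a347_0 := ti57_347
  have a348_0 := ti57_348
  have a349_0 := ti57_349
  have a350_0 := ti57_350
  have a351_0 := ti57_351
  have a352_0 := ti57_352
  have a353_0 := ti57_353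
  have a354_0 := ti57_354
  have a355_0 := ti57_355
  have a356_0 := ti57_356
  have a357_0 := ti57_357
  have a358_0 := ti57_358
  have a359_0 := ti57_359
  have a360_0 := ti57_360
  have a361_0 := ti57_361
  have a362_0 := ti57_362
  have a363_0 := ti57_363
  have a364_0 := ti57_364
  have a365_0 := ti57_365
  have a366_0 := ti57_366
  have a367_0 := ti57_367
  have a368_0 := ti57_368
  have a369_0 := ti57_369
  have a370_0 := ti57_370
  have a371_0 := ti57_371
  have a372_0 := ti57_372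
  have a373_0 := ti57_373
  have a374_0 := ti57_374
  have a375_0 := ti57_375
  have a376_0 := ti57_376
  have a377_0 := ti57_377
  have a378_0 := ti57_378
  have a379_0 := ti57_379
  have a380_0 := ti57_380
  have a381_0 := ti57_381
  have a382_0 := ti57_382
  have a383_0 := ti57_383
  have a384_0 := ti57_384
  have a385_0 := ti57_385
  have a386_0 := ti57_386
  have a387_0 := ti57_387
  have a388_0 := ti57_388
  have a389_0 := ti57_389
  have a390_0 := ti57_390
  have a391_0 := ti57_391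
  have a392_0 := ti57_392
  have a393_0 := ti57_393
  have a394_0 := ti57_394
  have a395_0 := ti57_395
  have a396_0 := ti57_396
  have a397_0 := ti57_397
  have a398_0 := ti57_398
  have a399_0 := ti57_399
  have a400_0 := ti57_400
  have a401_0 := ti57_401
  have a402_0 := ti57_402
  have a403_0 := ti57_403
  have a404_0 := ti57_404
  have a405_0 := ti57_405
  have a406_0 := ti57_406
  have a407_0 := ti57_407
  have a408_0 := ti57_408
  have a409_0 := ti57_409
  have a410_0 := ti57_410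
  have a411_0 := ti57_411
  have a412_0 := ti57_412
  have a413_0 := ti57_413
  have a414_0 := ti57_414
  have a415_0 := ti57_415
  have a416_0 := ti57_416
  have a417_0 := ti57_417
  have a418_0 := ti57_418
  have a419_0 := ti57_419
  have a420_0 := ti57_420
  have a421_0 := ti57_421
  have a422_0 := ti57_422
  have a423_0 := ti57_423
  have a424_0 := ti57_424
  have a425_0 := ti57_425
  have a426_0 := ti57_426
  have a427_0 := ti57_427
  have a428_0 := ti57_428
  have a429_0 := ti57_429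
  have a430_0 := ti57_430
  have a431_0 := ti57_431
  have a432_0 := ti57_432
  have a433_0 := ti57_433
  have a434_0 := ti57_434
  have a435_0 := ti57_435
  have a436_0 := ti57_436
  have a437_0 := ti57_437
  have a438_0 := ti57_438
  have a439_0 := ti57_439
  have a440_0 := ti57_440
  have a441_0 := ti57_441
  have a442_0 := ti57_442
  have a443_0 := ti57_443
  have a444_0 := ti57_444
  have a445_0 := ti57_445
  have a446_0 := ti57_446
  have a447_0 := ti57_447
  have a448_0 := ti57_448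
  have a449_0 := ti57_449
  have a450_0 := ti57_450
  have a451_0 := ti57_451
  have a452_0 := ti57_452
  have a453_0 := ti57_453
  have a454_0 := ti57_454
  have a455_0 := ti57_455
  have a456_0 := ti57_456
  have a457_0 := ti57_457
  have a458_0 := ti57_458
  have a459_0 := ti57_459
  have a460_0 := ti57_460
  have a461_0 := ti57_461
  have a462_0 := ti57_462
  have a463_0 := ti57_463
  have a464_0 := ti57_464
  have a465_0 := ti57_465
  have a466_0 := ti57_466
  have a467_0 := ti57_467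
  have a468_0 := ti57_468
  have a469_0 := ti57_469
  have a470_0 := ti57_470
  have a471_0 := ti57_471
  have a472_0 := ti57_472
  have a473_0 := ti57_473
  have a474_0 := ti57_474
  have a475_0 := ti57_475
  have a476_0 := ti57_476
  have a477_0 := ti57_477
  have a478_0 := ti57_478
  have a479_0 := ti57_479
  have a480_0 := ti57_480
  have a481_0 := ti57_481
  have a482_0 := ti57_482
  have a483_0 := ti57_483
  have a484_0 := ti57_484
  have a485_0 := ti57_485
  have a486_0 := ti57_486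
  have a487_0 := ti57_487
  have a488_0 := ti57_488
  have a489_0 := ti57_489
  have a490_0 := ti57_490
  have a491_0 := ti57_491
  have a492_0 := ti57_492
  have a493_0 := ti57_493
  have a494_0 := ti57_494
  have a495_0 := ti57_495
  have a496_0 := ti57_496
  have a497_0 := ti57_497
  have a498_0 := ti57_498
  have a499_0 := ti57_499
  have a500_0 := ti57_500
  have a501_0 := ti57_501
  have a502_0 := ti57_502
  have a503_0 := ti57_503
  have a504_0 := ti57_504
  have a505_0 := ti57_505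
  have a506_0 := ti57_506
  have a507_0 := ti57_507
  have a508_0 := ti57_508
  have a509_0 := ti57_509
  have a510_0 := ti57_510
  have a511_0 := ti57_511
  have a512_0 := ti57_512
  have a513_0 := ti57_513
  have a514_0 := ti57_514
  have a515_0 := ti57_515
  have a516_0 := ti57_516
  have a517_0 := ti57_517
  have a518_0 := ti57_518
  have a519_0 := ti57_519
  have a520_0 := ti57_520
  have a521_0 := ti57_521
  have a522_0 := ti57_522
  have a523_0 := ti57_523
  have a524_0 := ti57_524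
  have a525_0 := ti57_525
  have a526_0 := ti57_526
  have a527_0 := ti57_527
  have a528_0 := ti57_528
  have a529_0 := ti57_529
  have a530_0 := ti57_530
  have a531_0 := ti57_531
  have a532_0 := ti57_532
  have a533_0 := ti57_533
  have a534_0 := ti57_534
  have a535_0 := ti57_535
  have a536_0 := ti57_536
  have a537_0 := ti57_537
  have a538_0 := ti57_538
  have b0 : AllT (BoxesOK S57) bt57_0 :=
    (.nd (.nd (.nd (.nd (.nd (.nd (.nd (.nd (.nd (.nd (t _ a0_0) (t _ a512_0)) (t _ a256_0))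
    (.nd (t _ a128_0) (t _ a384_0))) (.nd (.nd (t _ a64_0) (t _ a320_0)) (.nd (t _ a192_0) (t _
    a448_0)))) (.nd (.nd (.nd (.nd (t _ a32_0) (.lf (cells57 h ce57_5))) (t _ a288_0)) (.nd (t _
    a160_0) (t _ a416_0))) (.nd (.nd (t _ a96_0) (t _ a352_0)) (.nd (t _ a224_0) (t _
    a480_0))))) (.nd (.nd (.nd (.nd (.nd (t _ a16_0) (t _ a528_0)) (t _ a272_0)) (.nd (t _
    a144_0) (t _ a400_0))) (.nd (.nd (t _ a80_0) (t _ a336_0)) (.nd (t _ a208_0) (t _ a464_0))))
    (.nd (.nd (.nd (t _ a48_0) (t _ a304_0)) (.nd (t _ a176_0) (t _ a432_0))) (.nd (.nd (t _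
    a112_0) (t _ a368_0)) (.nd (t _ a240_0) (t _ a496_0)))))) (.nd (.nd (.nd (.nd (.nd (.nd (t _
    a8_0) (t _ a520_0)) (t _ a264_0)) (.nd (t _ a136_0) (t _ a392_0))) (.nd (.nd (t _ a72_0) (t
    _ a328_0)) (.nd (t _ a200_0) (t _ a456_0)))) (.nd (.nd (.nd (.nd (t _ a40_0) (.lf (cells57 h
    ce57_13))) (t _ a296_0)) (.nd (t _ a168_0) (t _ a424_0))) (.nd (.nd (t _ a104_0) (t _
    a360_0)) (.nd (t _ a232_0) (t _ a488_0))))) (.nd (.nd (.nd (.nd (.nd (t _ a24_0) (t _
    a536_0)) (t _ a280_0)) (.nd (t _ a152_0) (t _ a408_0))) (.nd (.nd (t _ a88_0) (t _ a344_0))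
    (.nd (t _ a216_0) (t _ a472_0)))) (.nd (.nd (.nd (t _ a56_0) (t _ a312_0)) (.nd (t _ a184_0)
    (t _ a440_0))) (.nd (.nd (t _ a120_0) (t _ a376_0)) (.nd (t _ a248_0) (t _ a504_0)))))))
    (.nd (.nd (.nd (.nd (.nd (.nd (.nd (t _ a4_0) (t _ a516_0)) (t _ a260_0)) (.nd (t _ a132_0)
    (t _ a388_0))) (.nd (.nd (t _ a68_0) (t _ a324_0)) (.nd (t _ a196_0) (t _ a452_0)))) (.nd
    (.nd (.nd (.nd (t _ a36_0) (.lf (cells57 h ce57_9))) (t _ a292_0)) (.nd (t _ a164_0) (t _
    a420_0))) (.nd (.nd (t _ a100_0) (t _ a356_0)) (.nd (t _ a228_0) (t _ a484_0))))) (.nd (.nd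
    (.nd (.nd (.nd (t _ a20_0) (t _ a532_0)) (t _ a276_0)) (.nd (t _ a148_0) (t _ a404_0))) (.nd
    (.nd (t _ a84_0) (t _ a340_0)) (.nd (t _ a212_0) (t _ a468_0)))) (.nd (.nd (.nd (t _ a52_0)
    (t _ a308_0)) (.nd (t _ a180_0) (t _ a436_0))) (.nd (.nd (t _ a116_0) (t _ a372_0)) (.nd (t
    _ a244_0) (t _ a500_0)))))) (.nd (.nd (.nd (.nd (.nd (.nd (t _ a12_0) (t _ a524_0)) (t _
    a268_0)) (.nd (t _ a140_0) (t _ a396_0))) (.nd (.nd (t _ a76_0) (t _ a332_0)) (.nd (t _
    a204_0) (t _ a460_0)))) (.nd (.nd (.nd (t _ a44_0) (t _ a300_0)) (.nd (t _ a172_0) (t _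
    a428_0))) (.nd (.nd (t _ a108_0) (t _ a364_0)) (.nd (t _ a236_0) (t _ a492_0))))) (.nd (.nd
    (.nd (.nd (.nd (t _ a28_0) (.lf (cells57 h ce57_1))) (t _ a284_0)) (.nd (t _ a156_0) (t _
    a412_0))) (.nd (.nd (t _ a92_0) (t _ a348_0)) (.nd (t _ a220_0) (t _ a476_0)))) (.nd (.nd
    (.nd (t _ a60_0) (t _ a316_0)) (.nd (t _ a188_0) (t _ a444_0))) (.nd (.nd (t _ a124_0) (t _
    a380_0)) (.nd (t _ a252_0) (t _ a508_0)))))))) (.nd (.nd (.nd (.nd (.nd (.nd (.nd (.nd (t _
    a2_0) (t _ a514_0)) (t _ a258_0)) (.nd (t _ a130_0) (t _ a386_0))) (.nd (.nd (t _ a66_0) (t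
    _ a322_0)) (.nd (t _ a194_0) (t _ a450_0)))) (.nd (.nd (.nd (.nd (t _ a34_0) (.lf (cells57 h
    ce57_7))) (t _ a290_0)) (.nd (t _ a162_0) (t _ a418_0))) (.nd (.nd (t _ a98_0) (t _ a354_0))
    (.nd (t _ a226_0) (t _ a482_0))))) (.nd (.nd (.nd (.nd (.nd (t _ a18_0) (t _ a530_0)) (t _
    a274_0)) (.nd (t _ a146_0) (t _ a402_0))) (.nd (.nd (t _ a82_0) (t _ a338_0)) (.nd (t _
    a210_0) (t _ a466_0)))) (.nd (.nd (.nd (t _ a50_0) (t _ a306_0)) (.nd (t _ a178_0) (t _
    a434_0))) (.nd (.nd (t _ a114_0) (t _ a370_0)) (.nd (t _ a242_0) (t _ a498_0)))))) (.nd (.nd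
    (.nd (.nd (.nd (.nd (t _ a10_0) (t _ a522_0)) (t _ a266_0)) (.nd (t _ a138_0) (t _ a394_0)))
    (.nd (.nd (t _ a74_0) (t _ a330_0)) (.nd (t _ a202_0) (t _ a458_0)))) (.nd (.nd (.nd (t _
    a42_0) (t _ a298_0)) (.nd (t _ a170_0) (t _ a426_0))) (.nd (.nd (t _ a106_0) (t _ a362_0))
    (.nd (t _ a234_0) (t _ a490_0))))) (.nd (.nd (.nd (.nd (.nd (t _ a26_0) (t _ a538_0)) (t _
    a282_0)) (.nd (t _ a154_0) (t _ a410_0))) (.nd (.nd (t _ a90_0) (t _ a346_0)) (.nd (t _
    a218_0) (t _ a474_0)))) (.nd (.nd (.nd (t _ a58_0) (t _ a314_0)) (.nd (t _ a186_0) (t _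
    a442_0))) (.nd (.nd (t _ a122_0) (t _ a378_0)) (.nd (t _ a250_0) (t _ a506_0))))))) (.nd
    (.nd (.nd (.nd (.nd (.nd (.nd (t _ a6_0) (t _ a518_0)) (t _ a262_0)) (.nd (t _ a134_0) (t _
    a390_0))) (.nd (.nd (t _ a70_0) (t _ a326_0)) (.nd (t _ a198_0) (t _ a454_0)))) (.nd (.nd
    (.nd (.nd (t _ a38_0) (.lf (cells57 h ce57_11))) (t _ a294_0)) (.nd (t _ a166_0) (t _
    a422_0))) (.nd (.nd (t _ a102_0) (t _ a358_0)) (.nd (t _ a230_0) (t _ a486_0))))) (.nd (.nd
    (.nd (.nd (.nd (t _ a22_0) (t _ a534_0)) (t _ a278_0)) (.nd (t _ a150_0) (t _ a406_0))) (.nd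
    (.nd (t _ a86_0) (t _ a342_0)) (.nd (t _ a214_0) (t _ a470_0)))) (.nd (.nd (.nd (t _ a54_0)
    (t _ a310_0)) (.nd (t _ a182_0) (t _ a438_0))) (.nd (.nd (t _ a118_0) (t _ a374_0)) (.nd (t
    _ a246_0) (t _ a502_0)))))) (.nd (.nd (.nd (.nd (.nd (.nd (t _ a14_0) (t _ a526_0)) (t _
    a270_0)) (.nd (t _ a142_0) (t _ a398_0))) (.nd (.nd (t _ a78_0) (t _ a334_0)) (.nd (t _
    a206_0) (t _ a462_0)))) (.nd (.nd (.nd (t _ a46_0) (t _ a302_0)) (.nd (t _ a174_0) (t _
    a430_0))) (.nd (.nd (t _ a110_0) (t _ a366_0)) (.nd (t _ a238_0) (t _ a494_0))))) (.nd (.nd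
    (.nd (.nd (.nd (t _ a30_0) (.lf (cells57 h ce57_3))) (t _ a286_0)) (.nd (t _ a158_0) (t _
    a414_0))) (.nd (.nd (t _ a94_0) (t _ a350_0)) (.nd (t _ a222_0) (t _ a478_0)))) (.nd (.nd
    (.nd (t _ a62_0) (t _ a318_0)) (.nd (t _ a190_0) (t _ a446_0))) (.nd (.nd (t _ a126_0) (t _
    a382_0)) (.nd (t _ a254_0) (t _ a510_0))))))))) (.nd (.nd (.nd (.nd (.nd (.nd (.nd (.nd (.nd
    (t _ a1_0) (t _ a513_0)) (t _ a257_0)) (.nd (t _ a129_0) (t _ a385_0))) (.nd (.nd (t _
    a65_0) (t _ a321_0)) (.nd (t _ a193_0) (t _ a449_0)))) (.nd (.nd (.nd (.nd (t _ a33_0) (.lf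
    (cells57 h ce57_6))) (t _ a289_0)) (.nd (t _ a161_0) (t _ a417_0))) (.nd (.nd (t _ a97_0) (t
    _ a353_0)) (.nd (t _ a225_0) (t _ a481_0))))) (.nd (.nd (.nd (.nd (.nd (t _ a17_0) (t _
    a529_0)) (t _ a273_0)) (.nd (t _ a145_0) (t _ a401_0))) (.nd (.nd (t _ a81_0) (t _ a337_0))
    (.nd (t _ a209_0) (t _ a465_0)))) (.nd (.nd (.nd (t _ a49_0) (t _ a305_0)) (.nd (t _ a177_0)
    (t _ a433_0))) (.nd (.nd (t _ a113_0) (t _ a369_0)) (.nd (t _ a241_0) (t _ a497_0)))))) (.nd
    (.nd (.nd (.nd (.nd (.nd (t _ a9_0) (t _ a521_0)) (t _ a265_0)) (.nd (t _ a137_0) (t _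
    a393_0))) (.nd (.nd (t _ a73_0) (t _ a329_0)) (.nd (t _ a201_0) (t _ a457_0)))) (.nd (.nd
    (.nd (.nd (t _ a41_0) (.lf (cells57 h ce57_14))) (t _ a297_0)) (.nd (t _ a169_0) (t _
    a425_0))) (.nd (.nd (t _ a105_0) (t _ a361_0)) (.nd (t _ a233_0) (t _ a489_0))))) (.nd (.nd
    (.nd (.nd (.nd (t _ a25_0) (t _ a537_0)) (t _ a281_0)) (.nd (t _ a153_0) (t _ a409_0))) (.nd
    (.nd (t _ a89_0) (t _ a345_0)) (.nd (t _ a217_0) (t _ a473_0)))) (.nd (.nd (.nd (t _ a57_0)
    (t _ a313_0)) (.nd (t _ a185_0) (t _ a441_0))) (.nd (.nd (t _ a121_0) (t _ a377_0)) (.nd (t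
    _ a249_0) (t _ a505_0))))))) (.nd (.nd (.nd (.nd (.nd (.nd (.nd (t _ a5_0) (t _ a517_0)) (t
    _ a261_0)) (.nd (t _ a133_0) (t _ a389_0))) (.nd (.nd (t _ a69_0) (t _ a325_0)) (.nd (t _
    a197_0) (t _ a453_0)))) (.nd (.nd (.nd (.nd (t _ a37_0) (.lf (cells57 h ce57_10))) (t _
    a293_0)) (.nd (t _ a165_0) (t _ a421_0))) (.nd (.nd (t _ a101_0) (t _ a357_0)) (.nd (t _
    a229_0) (t _ a485_0))))) (.nd (.nd (.nd (.nd (.nd (t _ a21_0) (t _ a533_0)) (t _ a277_0))
    (.nd (t _ a149_0) (t _ a405_0))) (.nd (.nd (t _ a85_0) (t _ a341_0)) (.nd (t _ a213_0) (t _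
    a469_0)))) (.nd (.nd (.nd (t _ a53_0) (t _ a309_0)) (.nd (t _ a181_0) (t _ a437_0))) (.nd
    (.nd (t _ a117_0) (t _ a373_0)) (.nd (t _ a245_0) (t _ a501_0)))))) (.nd (.nd (.nd (.nd (.nd
    (.nd (t _ a13_0) (t _ a525_0)) (t _ a269_0)) (.nd (t _ a141_0) (t _ a397_0))) (.nd (.nd (t _
    a77_0) (t _ a333_0)) (.nd (t _ a205_0) (t _ a461_0)))) (.nd (.nd (.nd (t _ a45_0) (t _
    a301_0)) (.nd (t _ a173_0) (t _ a429_0))) (.nd (.nd (t _ a109_0) (t _ a365_0)) (.nd (t _
    a237_0) (t _ a493_0))))) (.nd (.nd (.nd (.nd (.nd (t _ a29_0) (.lf (cells57 h ce57_2))) (t _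
    a285_0)) (.nd (t _ a157_0) (t _ a413_0))) (.nd (.nd (t _ a93_0) (t _ a349_0)) (.nd (t _
    a221_0) (t _ a477_0)))) (.nd (.nd (.nd (t _ a61_0) (t _ a317_0)) (.nd (t _ a189_0) (t _
    a445_0))) (.nd (.nd (t _ a125_0) (t _ a381_0)) (.nd (t _ a253_0) (t _ a509_0)))))))) (.nd
    (.nd (.nd (.nd (.nd (.nd (.nd (.nd (t _ a3_0) (t _ a515_0)) (t _ a259_0)) (.nd (t _ a131_0)
    (t _ a387_0))) (.nd (.nd (t _ a67_0) (t _ a323_0)) (.nd (t _ a195_0) (t _ a451_0)))) (.nd
    (.nd (.nd (.nd (t _ a35_0) (.lf (cells57 h ce57_8))) (t _ a291_0)) (.nd (t _ a163_0) (t _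
    a419_0))) (.nd (.nd (t _ a99_0) (t _ a355_0)) (.nd (t _ a227_0) (t _ a483_0))))) (.nd (.nd
    (.nd (.nd (.nd (t _ a19_0) (t _ a531_0)) (t _ a275_0)) (.nd (t _ a147_0) (t _ a403_0))) (.nd
    (.nd (t _ a83_0) (t _ a339_0)) (.nd (t _ a211_0) (t _ a467_0)))) (.nd (.nd (.nd (t _ a51_0)
    (t _ a307_0)) (.nd (t _ a179_0) (t _ a435_0))) (.nd (.nd (t _ a115_0) (t _ a371_0)) (.nd (t
    _ a243_0) (t _ a499_0)))))) (.nd (.nd (.nd (.nd (.nd (.nd (t _ a11_0) (t _ a523_0)) (t _
    a267_0)) (.nd (t _ a139_0) (t _ a395_0))) (.nd (.nd (t _ a75_0) (t _ a331_0)) (.nd (t _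
    a203_0) (t _ a459_0)))) (.nd (.nd (.nd (t _ a43_0) (t _ a299_0)) (.nd (t _ a171_0) (t _
    a427_0))) (.nd (.nd (t _ a107_0) (t _ a363_0)) (.nd (t _ a235_0) (t _ a491_0))))) (.nd (.nd
    (.nd (.nd (.nd (t _ a27_0) (.lf (cells57 h ce57_0))) (t _ a283_0)) (.nd (t _ a155_0) (t _
    a411_0))) (.nd (.nd (t _ a91_0) (t _ a347_0)) (.nd (t _ a219_0) (t _ a475_0)))) (.nd (.nd
    (.nd (t _ a59_0) (t _ a315_0)) (.nd (t _ a187_0) (t _ a443_0))) (.nd (.nd (t _ a123_0) (t _
    a379_0)) (.nd (t _ a251_0) (t _ a507_0))))))) (.nd (.nd (.nd (.nd (.nd (.nd (.nd (t _ a7_0)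
    (t _ a519_0)) (t _ a263_0)) (.nd (t _ a135_0) (t _ a391_0))) (.nd (.nd (t _ a71_0) (t _
    a327_0)) (.nd (t _ a199_0) (t _ a455_0)))) (.nd (.nd (.nd (.nd (t _ a39_0) (.lf (cells57 h
    ce57_12))) (t _ a295_0)) (.nd (t _ a167_0) (t _ a423_0))) (.nd (.nd (t _ a103_0) (t _
    a359_0)) (.nd (t _ a231_0) (t _ a487_0))))) (.nd (.nd (.nd (.nd (.nd (t _ a23_0) (t _
    a535_0)) (t _ a279_0)) (.nd (t _ a151_0) (t _ a407_0))) (.nd (.nd (t _ a87_0) (t _ a343_0))
    (.nd (t _ a215_0) (t _ a471_0)))) (.nd (.nd (.nd (t _ a55_0) (t _ a311_0)) (.nd (t _ a183_0)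
    (t _ a439_0))) (.nd (.nd (t _ a119_0) (t _ a375_0)) (.nd (t _ a247_0) (t _ a503_0)))))) (.nd
    (.nd (.nd (.nd (.nd (.nd (t _ a15_0) (t _ a527_0)) (t _ a271_0)) (.nd (t _ a143_0) (t _
    a399_0))) (.nd (.nd (t _ a79_0) (t _ a335_0)) (.nd (t _ a207_0) (t _ a463_0)))) (.nd (.nd
    (.nd (t _ a47_0) (t _ a303_0)) (.nd (t _ a175_0) (t _ a431_0))) (.nd (.nd (t _ a111_0) (t _
    a367_0)) (.nd (t _ a239_0) (t _ a495_0))))) (.nd (.nd (.nd (.nd (.nd (t _ a31_0) (.lf
    (cells57 h ce57_4))) (t _ a287_0)) (.nd (t _ a159_0) (t _ a415_0))) (.nd (.nd (t _ a95_0) (t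
    _ a351_0)) (.nd (t _ a223_0) (t _ a479_0)))) (.nd (.nd (.nd (t _ a63_0) (t _ a319_0)) (.nd
    (t _ a191_0) (t _ a447_0))) (.nd (.nd (t _ a127_0) (t _ a383_0)) (.nd (t _ a255_0) (t _
    a511_0))))))))))
  have b1 : AllT (BoxesOK S57) bt57_1 :=
    (.nd (.nd (.nd (.nd (.lf (trees_sound geo57 hu b0 tr57_0_0)) (.lf (trees_sound geo57 hu b0
    tr57_0_8))) (.nd (.lf (trees_sound geo57 hu b0 tr57_0_4)) (.lf (trees_sound geo57 hu b0
    tr57_0_12)))) (.nd (.nd (.lf (trees_sound geo57 hu b0 tr57_0_2)) (.lf (trees_sound geo57 hu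
    b0 tr57_0_10))) (.nd (.lf (trees_sound geo57 hu b0 tr57_0_6)) (.lf (trees_sound geo57 hu b0
    tr57_0_14))))) (.nd (.nd (.nd (.lf (trees_sound geo57 hu b0 tr57_0_1)) (.lf (trees_sound
    geo57 hu b0 tr57_0_9))) (.nd (.lf (trees_sound geo57 hu b0 tr57_0_5)) (.lf (trees_sound
    geo57 hu b0 tr57_0_13)))) (.nd (.nd (.lf (trees_sound geo57 hu b0 tr57_0_3)) (.lf
    (trees_sound geo57 hu b0 tr57_0_11))) (.lf (trees_sound geo57 hu b0 tr57_0_7)))))
  have b2 : AllT (BoxesOK S57) bt57_2 :=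
    (.lf (trees_sound geo57 hu b1 tr57_1_0))
  exact final S57 (trees_sound geo57 hu b2 tr57_2_0) α hα

end Pool.Agent.Lib.MP_aed2da_nt
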