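
-- part Pool.Agent.Lib.MP_aed2da_nt.HDef
section
/-! Kernel checkers for the four-square theorems: definitions only, no library import. -/

set_option linter.unusedVariables false

namespace Pool.Agent.Lib.MP_aed2da_nt.H

noncomputable def sw {α : Type} (c : Bool) (a b : α) : α := @Bool.rec (fun _ => α) b a c

noncomputable def cs2 {α : Type} (n : Nat) (a b : α) : α := @Nat.rec (fun _ => α) a (fun _ _ => b) n

noncomputable def cs3 {α : Type} (n : Nat) (a b c : α) : α :=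
  @Nat.rec (fun _ => α) a (fun m _ => cs2 m b c) n

noncomputable def cs4 {α : Type} (n : Nat) (a b c d : α) : α :=
  @Nat.rec (fun _ => α) a (fun m _ => cs3 m b c d) n

noncomputable def cs6 {α : Type} (n : Nat) (a b c d e f : α) : α :=
  @Nat.rec (fun _ => α) a (fun m _ => @Nat.rec (fun _ => α) b (fun k _ => cs4 k c d e f) m) n

noncomputable def fN (e : Nat) (f : Nat → Nat) : Nat :=
  @Nat.rec (fun _ => Nat) (nat_lit 0) (fun m _ => f m) (Nat.succ e)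

structure Row where
  a0 : Nat
  a1 : Nat
  a2 : Nat
  a3 : Nat

structure Qf where
  q00 : Nat
  q01 : Nat
  q02 : Nat
  q03 : Nat
  q11 : Nat
  q12 : Nat
  q13 : Nat
  q22 : Nat
  q23 : Nat
  q33 : Nat

structure LD where
  n1 : Nat
  n2 : Nat
  tab : Nat
  d1 : Nat
  d2 : Nat

inductive Tr : Type
  | lf : Nat → Tr
  | nd : Tr → Tr → Tr

inductive Dm : Type
  | nil : Dm
  | cons : Nat → Nat → Dm → Dm

structure FD where
  b : Nat
  nmax : Nat
  r0 : Row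
  r1 : Row
  r2 : Row
  r3 : Row
  g0 : Row
  g1 : Row
  g2 : Row
  g3 : Row
  h0 : Row
  h1 : Row
  h2 : Row
  h3 : Row
  cl : Row
  wq : Qf
  fq : Qf
  fl : Row
  fc : Nat
  cb : Nat

structure Cl where
  ls : Dm
  lb : Dm
  vm : Nat

structure Sh where
  q : Nat
  e0 : Nat
  e1 : Nat
  e2 : Nat
  e3 : Nat
  b0 : Nat
  b1 : Nat
  b2 : Nat
  b3 : Nat
  d0 : Nat
  d1 : Nat
  d2 : Nat
  d3 : Nat
  den : Nat
  s0 : Nat
  s1 : Nat
  s2 : Nat
  s3 : Nat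

noncomputable def tget  (t : Tr) : Nat → Nat :=
  (@Tr.rec (fun _ => Nat → Nat) (fun n j => n) (fun a b ih0 ih1 j => (@Nat.rec (fun _ => Nat)
    (ih0 (Nat.div j (nat_lit 2))) (fun _ _ => (ih1 (Nat.div j (nat_lit 2)))) (Nat.mod j (nat_lit
    2)))) t)

noncomputable def mget (m : Tr) (i : Nat) : Nat :=
  (@Nat.rec (fun _ => Nat) (nat_lit 0) (fun j _ => (Nat.mod (Nat.shiftRight (tget m j) (Nat.mul
    (nat_lit 64) (Nat.mod i (nat_lit 256)))) (nat_lit 18446744073709551616))) (Nat.succ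
    (Nat.shiftRight i (nat_lit 8))))

noncomputable def orT (f : Nat → Nat) (t : Tr) : Nat :=
  (@Tr.rec (fun _ => Nat) (fun n => (f n)) (fun a b ih0 ih1 => (Nat.lor ih0 ih1)) t)

noncomputable def orL (f : Nat → Nat) (l : List (Nat)) : Nat :=
  (@List.rec (Nat) (fun _ => Nat) (nat_lit 0) (fun a tl ih => (Nat.lor (f a) ih)) l)

noncomputable def idxL {α : Type} (f : Nat → α → Bool) (fin : Nat → Bool) (l : List (α)) : Nat → Bool :=
  (@List.rec (α) (fun _ => Nat → Bool) (fun i => (fin i)) (fun a tl ih i => (@Bool.rec (fun _ =>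
    Bool) false (@Nat.rec (fun _ => Bool) false (fun k _ => (ih k)) (Nat.succ (Nat.add i (nat_lit
    1)))) (f i a))) l)

noncomputable def fin80 (s i : Nat) : Bool :=
  (Nat.beq (Nat.shiftRight s (Nat.mul (nat_lit 80) i)) (nat_lit 0))

noncomputable def gr (g : Nat) : Nat :=
  (Nat.sub (Nat.shiftLeft (Nat.add (nat_lit 32) (Nat.mod g (nat_lit 32))) (Nat.div g (nat_lit
    32))) (nat_lit 32))

noncomputable def gu (g : Nat) : Nat :=
  (sw (Nat.ble (nat_lit 832) g) (nat_lit 1208925819614629174706176) (gr g))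

noncomputable def ones (d : Nat) : Nat :=
  (Nat.sub (Nat.shiftLeft (nat_lit 1) (Nat.shiftLeft (nat_lit 1) d)) (nat_lit 1))

noncomputable def ln (r : Row) (c : Nat) : Nat :=
  (Nat.add (Nat.add (Nat.add (Nat.mul r.a0 (Nat.mod c (nat_lit 65536))) (Nat.mul r.a1 (Nat.mod
    (Nat.shiftRight c (nat_lit 16)) (nat_lit 65536)))) (Nat.mul r.a2 (Nat.mod (Nat.shiftRight c
    (nat_lit 32)) (nat_lit 65536)))) (Nat.mul r.a3 (Nat.mod (Nat.shiftRight c (nat_lit 48))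
    (nat_lit 65536))))

noncomputable def qf (f : Qf) (c : Nat) : Nat :=
  (Nat.add (Nat.add (Nat.add (Nat.mul (Nat.mod c (nat_lit 65536)) (Nat.add (Nat.add (Nat.add
    (Nat.mul f.q00 (Nat.mod c (nat_lit 65536))) (Nat.mul f.q01 (Nat.mod (Nat.shiftRight c
    (nat_lit 16)) (nat_lit 65536)))) (Nat.mul f.q02 (Nat.mod (Nat.shiftRight c (nat_lit 32))
    (nat_lit 65536)))) (Nat.mul f.q03 (Nat.mod (Nat.shiftRight c (nat_lit 48)) (nat_lit
    65536))))) (Nat.mul (Nat.mod (Nat.shiftRight c (nat_lit 16)) (nat_lit 65536)) (Nat.add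
    (Nat.add (Nat.mul f.q11 (Nat.mod (Nat.shiftRight c (nat_lit 16)) (nat_lit 65536))) (Nat.mul
    f.q12 (Nat.mod (Nat.shiftRight c (nat_lit 32)) (nat_lit 65536)))) (Nat.mul f.q13 (Nat.mod
    (Nat.shiftRight c (nat_lit 48)) (nat_lit 65536)))))) (Nat.mul (Nat.mod (Nat.shiftRight c
    (nat_lit 32)) (nat_lit 65536)) (Nat.add (Nat.mul f.q22 (Nat.mod (Nat.shiftRight c (nat_lit
    32)) (nat_lit 65536))) (Nat.mul f.q23 (Nat.mod (Nat.shiftRight c (nat_lit 48)) (nat_lit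
    65536)))))) (Nat.mul (Nat.mod (Nat.shiftRight c (nat_lit 48)) (nat_lit 65536)) (Nat.mul f.q33
    (Nat.mod (Nat.shiftRight c (nat_lit 48)) (nat_lit 65536)))))

noncomputable def su (c : Nat) : Nat :=
  (Nat.add (Nat.add (Nat.add (Nat.mod c (nat_lit 65536)) (Nat.mod (Nat.shiftRight c (nat_lit 16))
    (nat_lit 65536))) (Nat.mod (Nat.shiftRight c (nat_lit 32)) (nat_lit 65536))) (Nat.mod
    (Nat.shiftRight c (nat_lit 48)) (nat_lit 65536)))

noncomputable def ep (fd : FD) (r : Row) (c : Nat) : Nat :=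
  (Nat.add (ln r c) (Nat.mul fd.b (nat_lit 35184372088832)))

noncomputable def en (fd : FD) (r : Row) (c : Nat) : Nat :=
  (Nat.add (Nat.mul (su c) (nat_lit 8796093022208)) (Nat.mul fd.b (Nat.add (Nat.add (Nat.add r.a0
    r.a1) r.a2) r.a3)))

noncomputable def mp (fd : FD) (r : Row) (c : Nat) : Nat :=
  (Nat.sub (ep fd r c) (en fd r c))

noncomputable def mn (fd : FD) (r : Row) (c : Nat) : Nat :=
  (Nat.sub (en fd r c) (ep fd r c))

noncomputable def ab (fd : FD) (r : Row) (c : Nat) : Nat :=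
  (Nat.add (Nat.sub (ep fd r c) (en fd r c)) (Nat.sub (en fd r c) (ep fd r c)))

noncomputable def qh (fd : FD) (r : Row) (c : Nat) : Nat :=
  (Nat.add (Nat.shiftRight (Nat.mul (Nat.add (ab fd r c) (nat_lit 262144)) (Nat.add (ab fd r c)
    (nat_lit 262144))) (nat_lit 68)) (nat_lit 1))

noncomputable def ql (fd : FD) (r : Row) (c : Nat) : Nat :=
  (Nat.shiftRight (Nat.mul (Nat.sub (ab fd r c) (nat_lit 262144)) (Nat.sub (ab fd r c) (nat_lit
    262144))) (nat_lit 68))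

noncomputable def ph (fd : FD) (c : Nat) : Nat :=
  (Nat.add (ln (Row.mk (nat_lit 1) (nat_lit 281474976710656) (nat_lit
    79228162514264337593543950336) (nat_lit 22300745198530623141535718272648361505980416)) c)
    fd.cb)

noncomputable def xs (fd : FD) (c : Nat) : Nat :=
  (Nat.add (Nat.add (qf fd.fq c) (ln fd.fl c)) fd.fc)

noncomputable def key (l : LD) (r : Nat) : Nat :=
  (sw (Nat.beq l.n2 (nat_lit 1)) (Nat.mod (Nat.div r l.d1) l.n1) (Nat.add (Nat.mod (Nat.div r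
    l.d1) l.n1) (Nat.shiftLeft (Nat.mod (Nat.div r l.d2) l.n2) (nat_lit 10))))

noncomputable def tab (l : LD) (rho : Nat → Nat) (d : Nat) : Nat → Nat :=
  (@Nat.rec (fun _ => Nat → Nat) (fun c => (Nat.mod (Nat.shiftRight l.tab (Nat.add (Nat.mod c
    (nat_lit 1024)) (Nat.mul l.n1 (Nat.shiftRight c (nat_lit 10))))) (nat_lit 2))) (fun m ih c =>
    (@Nat.rec (fun _ => Nat) (nat_lit 0) (fun k _ => (Nat.lor (ih c) (Nat.shiftLeft (ih k)
    (Nat.shiftLeft (nat_lit 1) m)))) (Nat.succ (Nat.add (Nat.mod (Nat.mod (Nat.add c (rho m))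
    (nat_lit 1024)) l.n1) (Nat.shiftLeft (Nat.mod (Nat.shiftRight (Nat.add c (rho m)) (nat_lit
    10)) l.n2) (nat_lit 10)))))) d)

noncomputable def sel (f : Nat → Nat) (ds : Dm) : Nat → Nat :=
  (@Dm.rec (fun _ => Nat → Nat) (fun t => (nat_lit 0)) (fun e b tl ih t => (sw (Nat.ble (Nat.succ
    t) e) (Nat.shiftLeft (f b) t) (ih (Nat.sub t e)))) ds)

noncomputable def sD (g : Nat → Nat → Nat) (ds : Dm) : Nat :=
  (@Dm.rec (fun _ => Nat) (nat_lit 0) (fun e b tl ih => (Nat.add (g e b) ih)) ds)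

noncomputable def bitsD  (ds : Dm) : Nat :=
  (@Dm.rec (fun _ => Nat) (nat_lit 0) (fun e b tl ih => (Nat.add e ih)) ds)

noncomputable def rq (fd : FD) (q b : Nat) : Nat :=
  (Nat.mul q (ln fd.cl b))

noncomputable def rho (fd : FD) (q : Nat) (ds : Dm) (l : LD) (m : Nat) : Nat :=
  (key l (sel (rq fd q) ds m))

noncomputable def tg (fd : FD) (q : Nat) (ds : Dm) (l : LD) (c : Nat) : Nat :=
  (tab l (rho fd q ds l) (bitsD ds) c)

noncomputable def dims (sh : Sh) : Dm :=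
  (Dm.cons sh.e0 sh.b0 (Dm.cons sh.e1 sh.b1 (Dm.cons sh.e2 sh.b2 (Dm.cons sh.e3 sh.b3 Dm.nil))))

noncomputable def bits (sh : Sh) : Nat :=
  (bitsD (dims sh))

noncomputable def aq (fd : FD) (r : Row) (q b : Nat) : Nat :=
  (Nat.mul q (ab fd r b))

noncomputable def cv (fd : FD) (r : Row) (s : Nat) (sh : Sh) (t : Nat) : Nat :=
  (Nat.div (sel (aq fd r sh.q) (dims sh) t) s)

noncomputable def ng (fd : FD) (r : Row) (sh : Sh) (t : Nat) : Nat :=
  (sel (mn fd r) (dims sh) t)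

noncomputable def cy (f : Nat → Nat) (c : Nat) (j : Nat) : Nat :=
  (@Nat.rec (fun _ => Nat) (nat_lit 0) (fun jj ih => (@Nat.rec (fun _ => Nat) (Nat.land (f jj)
    ih) (fun _ _ => (Nat.lor (f jj) ih)) (Nat.mod (Nat.shiftRight c jj) (nat_lit 2)))) j)

noncomputable def ad (f : Nat → Nat) (c on j : Nat) : Nat :=
  (Nat.xor (Nat.xor (f j) (@Nat.rec (fun _ => Nat) (nat_lit 0) (fun jj ih => (@Nat.rec (fun _ =>
    Nat) (Nat.land (f jj) ih) (fun _ _ => (Nat.lor (f jj) ih)) (Nat.mod (Nat.shiftRight c jj)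
    (nat_lit 2)))) j)) (Nat.mul on (Nat.mod (Nat.shiftRight c j) (nat_lit 2))))

noncomputable def vp (cf nf : Nat → Nat) (d : Nat) : Nat → Nat :=
  (@Nat.rec (fun _ => Nat → Nat) (fun j => (nat_lit 0)) (fun m ih j => (@Nat.rec (fun _ => Nat)
    (Nat.lor (ih j) (Nat.shiftLeft (ad ih (cf m) (ones m) j) (Nat.shiftLeft (nat_lit 1) m))) (fun
    _ _ => (Nat.lor (ad ih (cf m) (ones m) j) (Nat.shiftLeft (ih j) (Nat.shiftLeft (nat_lit 1)
    m)))) (nf m))) d)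

noncomputable def pl (fd : FD) (r : Row) (s : Nat) (sh : Sh) (j : Nat) : Nat :=
  (@Nat.rec (fun _ => Nat) (nat_lit 0) (fun k _ => (vp (cv fd r s sh) (ng fd r sh) (bits sh) k))
    (Nat.succ (Nat.add j (nat_lit 4))))

noncomputable def ge (p : Nat → Nat) (on : Nat) (j : Nat) : Nat → Nat :=
  (@Nat.rec (fun _ => Nat → Nat) (fun s => (@Nat.rec (fun _ => Nat) on (fun _ _ => (nat_lit 0))
    s)) (fun m ih s => (@Bool.rec (fun _ => Nat) (Nat.lor (p m) (ih s)) (@Nat.rec (fun _ => Nat)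
    (nat_lit 0) (fun t _ => (Nat.land (p m) (ih t))) (Nat.succ (Nat.sub s (Nat.shiftLeft (nat_lit
    1) m)))) (Nat.ble (Nat.shiftLeft (nat_lit 1) m) s))) j)

noncomputable def hc (fd : FD) (r : Row) (s : Nat) (sh : Sh) (t : Nat) : Nat :=
  (ge (pl fd r s sh) (ones (bits sh)) (nat_lit 9) t)

noncomputable def kq (q e b : Nat) : Nat :=
  (Nat.shiftLeft q e)

noncomputable def z1 (fd : FD) (r : Row) (q e b : Nat) : Nat :=
  (Nat.mul (Nat.sub (Nat.shiftLeft q e) (nat_lit 1)) (mn fd r b))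

noncomputable def z2 (fd : FD) (r : Row) (q e b : Nat) : Nat :=
  (Nat.mul (Nat.sub q (nat_lit 1)) (mp fd r b))

noncomputable def z3 (fd : FD) (r : Row) (q e b : Nat) : Nat :=
  (Nat.mul (Nat.sub (Nat.shiftLeft q e) q) (mn fd r b))

noncomputable def z4 (fd : FD) (r : Row) (q e b : Nat) : Nat :=
  (Nat.mul (Nat.sub (Nat.shiftLeft q e) q) (ab fd r b))

noncomputable def er (sh : Sh) : Nat :=
  (Nat.mul (nat_lit 262144) (Nat.add (nat_lit 1) (sD (kq sh.q) (dims sh))))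

noncomputable def zpN (fd : FD) (r : Row) (sh : Sh) (o : Nat) : Nat :=
  (Nat.add (Nat.add (en fd r o) (er sh)) (sD (z1 fd r sh.q) (dims sh)))

noncomputable def zqP (fd : FD) (r : Row) (s : Nat) (sh : Sh) (o : Nat) : Nat :=
  (Nat.add (Nat.add (Nat.add (ep fd r o) (er sh)) (Nat.mul (bits sh) s)) (sD (z2 fd r sh.q) (dims
    sh)))

noncomputable def zqN (fd : FD) (r : Row) (sh : Sh) (o : Nat) : Nat :=
  (Nat.add (en fd r o) (sD (z3 fd r sh.q) (dims sh)))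

noncomputable def m512 (x : Nat) : Nat :=
  (Nat.sub x (Nat.sub x (nat_lit 512)))

noncomputable def hL (fd : FD) (r : Row) (s : Nat) (sh : Sh) (o l : Nat) : Nat :=
  (fN (m512 (Nat.div (Nat.sub (Nat.add (Nat.mul l (nat_lit 268435456)) (zqN fd r sh o)) (zqP fd r
    s sh o)) (Nat.mul s (nat_lit 16)))) (fun t => (hc fd r s sh t)))

noncomputable def hU (fd : FD) (r : Row) (s : Nat) (sh : Sh) (o u : Nat) : Nat :=
  (fN (m512 (Nat.add (Nat.div (Nat.sub (Nat.add (Nat.mul u (nat_lit 268435456)) (zpN fd r sh o))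
    (ep fd r o)) (Nat.mul s (nat_lit 16))) (nat_lit 1))) (fun t => (hc fd r s sh t)))

noncomputable def bm (fd : FD) (sh : Sh) (o l0 l1 l2 l3 u0 u1 u2 u3 : Nat) : Nat :=
  (Nat.land (Nat.land (Nat.xor (hL fd fd.r0 sh.s0 sh o l0) (hU fd fd.r0 sh.s0 sh o u0)) (Nat.xor
    (hL fd fd.r1 sh.s1 sh o l1) (hU fd fd.r1 sh.s1 sh o u1))) (Nat.land (Nat.xor (hL fd fd.r2
    sh.s2 sh o l2) (hU fd fd.r2 sh.s2 sh o u2)) (Nat.xor (hL fd fd.r3 sh.s3 sh o l3) (hU fd fd.r3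
    sh.s3 sh o u3))))

noncomputable def tP (fd : FD) (d : Nat) : Row :=
  (Row.mk (mp fd fd.g0 d) (mp fd fd.g1 d) (mp fd fd.g2 d) (mp fd fd.g3 d))

noncomputable def tN (fd : FD) (d : Nat) : Row :=
  (Row.mk (mn fd fd.g0 d) (mn fd fd.g1 d) (mn fd fd.g2 d) (mn fd fd.g3 d))

noncomputable def rs (r : Row) : Nat :=
  (Nat.add (Nat.add (Nat.add r.a0 r.a1) r.a2) r.a3)

noncomputable def cP (fd : FD) (d o : Nat) : Nat :=
  (Nat.add (ln (tP fd d) o) (Nat.mul fd.b (rs (tN fd d))))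

noncomputable def cN (fd : FD) (d o : Nat) : Nat :=
  (Nat.add (ln (tN fd d) o) (Nat.mul fd.b (rs (tP fd d))))

noncomputable def mp2 (fd : FD) (r : Row) (c : Nat) : Nat :=
  (Nat.add (mp fd r c) (nat_lit 262144))

noncomputable def mn2 (fd : FD) (r : Row) (c : Nat) : Nat :=
  (Nat.add (mn fd r c) (nat_lit 262144))

noncomputable def c1 (fd : FD) (d o : Nat) : Nat :=
  (Nat.add (Nat.mul (nat_lit 4503599627370496) (cP fd d o)) (nat_lit 1))

noncomputable def c2 (fd : FD) (den d o : Nat) : Nat :=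
  (Nat.mul (nat_lit 4503599627370496) (Nat.add den (cN fd d o)))

noncomputable def c3 (fd : FD) (d o : Nat) : Nat :=
  (Nat.add (Nat.mul (nat_lit 4503599627370496) (cN fd d o)) (nat_lit 1))

noncomputable def c4 (fd : FD) (den k d o : Nat) : Nat :=
  (Nat.mul (nat_lit 4503599627370496) (Nat.add (Nat.mul den k) (cP fd d o)))

noncomputable def ct1 (fd : FD) (den k d o l0 l1 l2 l3 u0 u1 u2 u3 : Nat) : Nat :=
  (Nat.add (Nat.sub (Nat.add (Nat.add (Nat.add (Nat.add (Nat.mul (mn2 fd fd.r0 d) u0) (Nat.mul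
    (mn2 fd fd.r1 d) u1)) (Nat.mul (mn2 fd fd.r2 d) u2)) (Nat.mul (mn2 fd fd.r3 d) u3)) (c1 fd d
    o)) (Nat.add (Nat.add (Nat.add (Nat.add (Nat.mul (mp fd fd.r0 d) l0) (Nat.mul (mp fd fd.r1 d)
    l1)) (Nat.mul (mp fd fd.r2 d) l2)) (Nat.mul (mp fd fd.r3 d) l3)) (c2 fd den d o))) (Nat.sub
    (Nat.add (Nat.add (Nat.add (Nat.add (Nat.mul (mp2 fd fd.r0 d) u0) (Nat.mul (mp2 fd fd.r1 d)
    u1)) (Nat.mul (mp2 fd fd.r2 d) u2)) (Nat.mul (mp2 fd fd.r3 d) u3)) (c3 fd d o)) (Nat.add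
    (Nat.add (Nat.add (Nat.add (Nat.mul (mn fd fd.r0 d) l0) (Nat.mul (mn fd fd.r1 d) l1))
    (Nat.mul (mn fd fd.r2 d) l2)) (Nat.mul (mn fd fd.r3 d) l3)) (c4 fd den k d o))))

noncomputable def ct (fd : FD) (sh : Sh) (o l0 l1 l2 l3 u0 u1 u2 u3 : Nat) : Nat :=
  (Nat.add (Nat.add (Nat.add (ct1 fd sh.den (Nat.shiftLeft sh.q sh.e0) sh.d0 o l0 l1 l2 l3 u0 u1
    u2 u3) (ct1 fd sh.den (Nat.shiftLeft sh.q sh.e1) sh.d1 o l0 l1 l2 l3 u0 u1 u2 u3)) (ct1 fd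
    sh.den (Nat.shiftLeft sh.q sh.e2) sh.d2 o l0 l1 l2 l3 u0 u1 u2 u3)) (ct1 fd sh.den
    (Nat.shiftLeft sh.q sh.e3) sh.d3 o l0 l1 l2 l3 u0 u1 u2 u3))

noncomputable def bx1 (fd : FD) (sh : Sh) (o l0 l1 l2 l3 u0 u1 u2 u3 : Nat) : Nat :=
  (cs2 (Nat.add (ct fd sh o (gr l0) (gr l1) (gr l2) (gr l3) (gr u0) (gr u1) (gr u2) (gr u3))
    (Nat.add (Nat.add (Nat.add (Nat.div u0 (nat_lit 832)) (Nat.div u1 (nat_lit 832))) (Nat.div u2
    (nat_lit 832))) (Nat.div u3 (nat_lit 832)))) (bm fd sh o (gr l0) (gr l1) (gr l2) (gr l3) (gr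
    u0) (gr u1) (gr u2) (gr u3)) (Nat.add (ones (bits sh)) (nat_lit 1)))

noncomputable def bx2 (fd : FD) (sh : Sh) (o x : Nat) : Nat :=
  (@Nat.rec (fun _ => Nat) (nat_lit 0) (fun l0 _ => (@Nat.rec (fun _ => Nat) (nat_lit 0) (fun l1
    _ => (@Nat.rec (fun _ => Nat) (nat_lit 0) (fun l2 _ => (@Nat.rec (fun _ => Nat) (nat_lit 0)
    (fun l3 _ => (@Nat.rec (fun _ => Nat) (nat_lit 0) (fun u0 _ => (@Nat.rec (fun _ => Nat)
    (nat_lit 0) (fun u1 _ => (@Nat.rec (fun _ => Nat) (nat_lit 0) (fun u2 _ => (@Nat.rec (fun _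
    => Nat) (nat_lit 0) (fun u3 _ => (bx1 fd sh o l0 l1 l2 l3 u0 u1 u2 u3)) (Nat.succ (Nat.mod
    (Nat.shiftRight x (nat_lit 70)) (nat_lit 1024))))) (Nat.succ (Nat.mod (Nat.shiftRight x
    (nat_lit 60)) (nat_lit 1024))))) (Nat.succ (Nat.mod (Nat.shiftRight x (nat_lit 50)) (nat_lit
    1024))))) (Nat.succ (Nat.mod (Nat.shiftRight x (nat_lit 40)) (nat_lit 1024))))) (Nat.succ
    (Nat.mod (Nat.shiftRight x (nat_lit 30)) (nat_lit 1024))))) (Nat.succ (Nat.mod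
    (Nat.shiftRight x (nat_lit 20)) (nat_lit 1024))))) (Nat.succ (Nat.mod (Nat.shiftRight x
    (nat_lit 10)) (nat_lit 1024))))) (Nat.succ (Nat.mod x (nat_lit 1024))))

noncomputable def bxL (fd : FD) (sh : Sh) (o : Nat) (n : Nat) : Nat → Nat :=
  (@Nat.rec (fun _ => Nat → Nat) (fun s => (Nat.add (ones (bits sh)) (nat_lit 1))) (fun i ih s =>
    (@Nat.rec (fun _ => Nat) (nat_lit 0) (fun _ _ => (@Nat.rec (fun _ => Nat) (nat_lit 0) (fun t
    _ => (Nat.lor (bx2 fd sh o (Nat.mod s (nat_lit 1208925819614629174706176))) (ih t)))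
    (Nat.succ (Nat.shiftRight s (nat_lit 80))))) s)) n)

noncomputable def bxC (fd : FD) (sh : Sh) (o s : Nat) : Nat :=
  (bxL fd sh o (nat_lit 129) s)

noncomputable def need (fd : FD) (sh : Sh) (o : Nat) (bx : Tr) : Nat :=
  (orT (bxC fd sh o) bx)

noncomputable def eq1 (fd : FD) (sh : Sh) (g : Row) (w : Nat) : Nat :=
  (Nat.xor (Nat.mod (Nat.add (Nat.add (Nat.add (Nat.mul (mp fd g sh.d0) (ph fd sh.b0)) (Nat.mul
    (mp fd g sh.d1) (ph fd sh.b1))) (Nat.mul (mp fd g sh.d2) (ph fd sh.b2))) (Nat.mul (mp fd g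
    sh.d3) (ph fd sh.b3))) (nat_lit 6277101735386680763835789423207666416102355444464034512896))
    (Nat.mod (Nat.add (Nat.add (Nat.add (Nat.add (Nat.mul (mn fd g sh.d0) (ph fd sh.b0)) (Nat.mul
    (mn fd g sh.d1) (ph fd sh.b1))) (Nat.mul (mn fd g sh.d2) (ph fd sh.b2))) (Nat.mul (mn fd g
    sh.d3) (ph fd sh.b3))) (Nat.mul sh.den w)) (nat_lit
    6277101735386680763835789423207666416102355444464034512896)))

noncomputable def tb (fd : FD) (sh : Sh) (g : Row) : Nat :=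
  (Nat.shiftRight (Nat.add (Nat.add (Nat.add (ab fd g sh.d0) (ab fd g sh.d1)) (ab fd g sh.d2))
    (ab fd g sh.d3)) (nat_lit 24))

noncomputable def sb (fd : FD) (sh : Sh) (r : Row) (s : Nat) : Nat :=
  (Nat.sub (Nat.add (sD (z4 fd r sh.q) (dims sh)) (nat_lit 1)) (Nat.mul s (nat_lit 8192)))

noncomputable def shC (fd : FD) (sh : Sh) : Nat :=
  (Nat.add (Nat.add (Nat.add (Nat.add (Nat.add (Nat.add (Nat.sub (nat_lit 1) sh.q) (Nat.sub
    (nat_lit 1) sh.den)) (Nat.shiftRight sh.den (nat_lit 20))) (Nat.shiftRight (sD (kq sh.q)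
    (dims sh)) (nat_lit 12))) (Nat.add (Nat.add (Nat.add (tb fd sh fd.g0) (tb fd sh fd.g1)) (tb
    fd sh fd.g2)) (tb fd sh fd.g3))) (Nat.add (Nat.add (Nat.add (eq1 fd sh fd.g0 (nat_lit 1))
    (eq1 fd sh fd.g1 (nat_lit 281474976710656))) (eq1 fd sh fd.g2 (nat_lit
    79228162514264337593543950336))) (eq1 fd sh fd.g3 (nat_lit
    22300745198530623141535718272648361505980416)))) (Nat.add (Nat.add (Nat.add (sb fd sh fd.r0
    sh.s0) (sb fd sh fd.r1 sh.s1)) (sb fd sh fd.r2 sh.s2)) (sb fd sh fd.r3 sh.s3)))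

noncomputable def dv (fd : FD) (den m : Nat) (g : Row) (d : Nat) : Nat :=
  (Nat.mod (Nat.mul m (ab fd g d)) den)

noncomputable def dv4 (fd : FD) (sh : Sh) (m : Nat) (g : Row) : Nat :=
  (Nat.add (Nat.add (Nat.add (dv fd sh.den m g sh.d0) (dv fd sh.den m g sh.d1)) (dv fd sh.den m g
    sh.d2)) (dv fd sh.den m g sh.d3))

noncomputable def dvG (fd : FD) (sh : Sh) (m : Nat) : Nat :=
  (Nat.add (Nat.add (Nat.add (dv4 fd sh m fd.g0) (dv4 fd sh m fd.g1)) (dv4 fd sh m fd.g2)) (dv4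
    fd sh m fd.g3))

noncomputable def dvH (fd : FD) (sh : Sh) : Nat :=
  (Nat.add (Nat.add (Nat.add (dv4 fd sh (nat_lit 1) fd.h0) (dv4 fd sh (nat_lit 1) fd.h1)) (dv4 fd
    sh (nat_lit 1) fd.h2)) (dv4 fd sh (nat_lit 1) fd.h3))

noncomputable def dO1 (fd : FD) (den d o : Nat) : Nat :=
  (Nat.xor (Nat.mod (cP fd d o) den) (Nat.mod (cN fd d o) den))

noncomputable def dO (fd : FD) (sh : Sh) (o : Nat) : Nat :=
  (Nat.add (Nat.add (Nat.add (dO1 fd sh.den sh.d0 o) (dO1 fd sh.den sh.d1 o)) (dO1 fd sh.den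
    sh.d2 o)) (dO1 fd sh.den sh.d3 o))

noncomputable def xwd (fd : FD) (m : Tr) (dg : Nat) : Nat :=
  (@Nat.rec (fun _ => Nat) (nat_lit 0) (fun i _ => (qf fd.wq (mget m i))) (Nat.succ (Nat.mod dg
    (nat_lit 32768))))

noncomputable def mx (a b : Nat) : Nat :=
  (Nat.add a (Nat.sub b a))

noncomputable def sx (fd : FD) (r : Row) (s : Nat) (sh : Sh) (o q p : Nat) : Nat :=
  (mx (Nat.div (Nat.sub (Nat.add (Nat.add (Nat.mul (Nat.add q (Nat.mod p (nat_lit 268435456)))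
    (nat_lit 268435456)) (zpN fd r sh o)) (Nat.mul s (nat_lit 16))) (Nat.add (ep fd r o) (nat_lit
    1))) (Nat.mul s (nat_lit 16))) (Nat.mod (Nat.shiftRight p (nat_lit 28)) (nat_lit 4096)))

noncomputable def gp (fd : FD) (r : Row) (s : Nat) (sh : Sh) (o q t : Nat) : Nat :=
  (Nat.sub (Nat.add (ep fd r o) (Nat.mul (Nat.mul s (nat_lit 16)) t)) (Nat.add (zpN fd r sh o)
    (Nat.mul q (nat_lit 268435456))))

noncomputable def hx1 (fd : FD) (sh : Sh) (o c t0 t1 t2 t3 : Nat) : Nat :=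
  (sw (Nat.ble (Nat.succ (Nat.mul fd.nmax (nat_lit
    1461501637330902918203684832716283019655932542976))) (Nat.mul (Nat.mul (Nat.mul (gp fd fd.r0
    sh.s0 sh o (qh fd fd.r0 c) t0) (gp fd fd.r1 sh.s1 sh o (qh fd fd.r1 c) t1)) (gp fd fd.r2
    sh.s2 sh o (qh fd fd.r2 c) t2)) (gp fd fd.r3 sh.s3 sh o (qh fd fd.r3 c) t3))) (Nat.land
    (Nat.land (hc fd fd.r0 sh.s0 sh t0) (hc fd fd.r1 sh.s1 sh t1)) (Nat.land (hc fd fd.r2 sh.s2
    sh t2) (hc fd fd.r3 sh.s3 sh t3))) (nat_lit 0))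

noncomputable def hx2 (fd : FD) (sh : Sh) (o c p : Nat) : Nat :=
  (fN (sx fd fd.r0 sh.s0 sh o (qh fd fd.r0 c) p) (fun t0 => (fN (sx fd fd.r1 sh.s1 sh o (qh fd
    fd.r1 c) (Nat.shiftRight p (nat_lit 40))) (fun t1 => (fN (sx fd fd.r2 sh.s2 sh o (qh fd fd.r2
    c) (Nat.shiftRight p (nat_lit 80))) (fun t2 => (fN (sx fd fd.r3 sh.s3 sh o (qh fd fd.r3 c)
    (Nat.shiftRight p (nat_lit 120))) (fun t3 => (hx1 fd sh o c t0 t1 t2 t3)))))))))

noncomputable def hx (fd : FD) (m : Tr) (sh : Sh) (o ps dg : Nat) : Nat :=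
  (@Nat.rec (fun _ => Nat) (nat_lit 0) (fun i _ => (hx2 fd sh o (mget m i) (Nat.shiftRight ps
    (Nat.mul (nat_lit 160) (Nat.shiftRight dg (nat_lit 15)))))) (Nat.succ (Nat.mod dg (nat_lit
    32768))))

noncomputable def co (fd : FD) (sh : Sh) (o c : Nat) : Nat :=
  (Nat.add (Nat.add (Nat.add (Nat.add (ln fd.cl o) (Nat.mul (Nat.mod c sh.q) (ln fd.cl sh.b0)))
    (Nat.mul (Nat.mod (Nat.div c sh.q) sh.q) (ln fd.cl sh.b1))) (Nat.mul (Nat.mod (Nat.div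
    (Nat.div c sh.q) sh.q) sh.q) (ln fd.cl sh.b2))) (Nat.mul (Nat.mod (Nat.div (Nat.div (Nat.div
    c sh.q) sh.q) sh.q) sh.q) (ln fd.cl sh.b3)))

noncomputable def cf (fd : FD) (sh : Sh) (o c : Nat) : Nat :=
  (Nat.add (Nat.add (Nat.add (Nat.add (ph fd o) (Nat.mul (Nat.mod c sh.q) (ph fd sh.b0)))
    (Nat.mul (Nat.mod (Nat.div c sh.q) sh.q) (ph fd sh.b1))) (Nat.mul (Nat.mod (Nat.div (Nat.div
    c sh.q) sh.q) sh.q) (ph fd sh.b2))) (Nat.mul (Nat.mod (Nat.div (Nat.div (Nat.div c sh.q)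
    sh.q) sh.q) sh.q) (ph fd sh.b3)))

noncomputable def cvL (fd : FD) (pr : (LD → Nat → Nat) → Nat → Nat) (g : LD → Nat → Nat) (h : Nat → Nat) (m : Tr) (c s : Nat) (n : Nat) : Nat :=
  (@Nat.rec (fun _ => Nat) (nat_lit 0) (fun i ih => (@Nat.rec (fun _ => Nat) (nat_lit 0) (fun dg
    _ => (@Nat.rec (fun _ => Nat) (nat_lit 0) (fun r _ => (Nat.lor ih (Nat.land (pr g r) (h
    dg)))) (Nat.succ (Nat.add (xwd fd m dg) c)))) (Nat.succ (Nat.mod (Nat.shiftRight s (Nat.add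
    (Nat.mul (nat_lit 20) i) (nat_lit 16))) (nat_lit 1048576))))) n)

noncomputable def pq (fd : FD) (q b : Nat) : Nat :=
  (Nat.mul q (ph fd b))

noncomputable def sh2 (sh : Sh) : Nat :=
  (Nat.add sh.e0 sh.e1)

noncomputable def sh3 (sh : Sh) : Nat :=
  (Nat.add (Nat.add sh.e0 sh.e1) sh.e2)

noncomputable def pk (fd : FD) (sh : Sh) (k : Nat) : Nat :=
  (Nat.add (Nat.add (Nat.add (Nat.mul (Nat.mod k (Nat.shiftLeft (nat_lit 1) sh.e0)) (pq fd sh.q
    sh.b0)) (Nat.mul (Nat.mod (Nat.shiftRight k sh.e0) (Nat.shiftLeft (nat_lit 1) sh.e1)) (pq fd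
    sh.q sh.b1))) (Nat.mul (Nat.mod (Nat.shiftRight k (sh2 sh)) (Nat.shiftLeft (nat_lit 1)
    sh.e2)) (pq fd sh.q sh.b2))) (Nat.mul (Nat.mod (Nat.shiftRight k (sh3 sh)) (Nat.shiftLeft
    (nat_lit 1) sh.e3)) (pq fd sh.q sh.b3)))

noncomputable def xsd (fd : FD) (m : Tr) (i : Nat) : Nat :=
  (xs fd (mget m i))

noncomputable def phd (fd : FD) (m : Tr) (i : Nat) : Nat :=
  (ph fd (mget m i))

noncomputable def ex4 (fd : FD) (m : Tr) (sh : Sh) (c e : Nat) : Nat :=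
  (@Nat.rec (fun _ => Nat) (nat_lit 0) (fun k _ => (@Nat.rec (fun _ => Nat) (nat_lit 0) (fun i0 _
    => (@Nat.rec (fun _ => Nat) (nat_lit 0) (fun i1 _ => (@Nat.rec (fun _ => Nat) (nat_lit 0)
    (fun i2 _ => (@Nat.rec (fun _ => Nat) (nat_lit 0) (fun i3 _ => (Nat.shiftLeft (Nat.sub
    (nat_lit 1) (Nat.xor (Nat.mod (Nat.add c (pk fd sh k)) (nat_lit
    6277101735386680763835789423207666416102355444464034512896)) (Nat.mod (Nat.add (Nat.add
    (Nat.add (xsd fd m i0) (xsd fd m i1)) (xsd fd m i2)) (xsd fd m i3)) (nat_lit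
    6277101735386680763835789423207666416102355444464034512896)))) k)) (Nat.succ (Nat.mod
    (Nat.shiftRight e (nat_lit 63)) (nat_lit 32768))))) (Nat.succ (Nat.mod (Nat.shiftRight e
    (nat_lit 48)) (nat_lit 32768))))) (Nat.succ (Nat.mod (Nat.shiftRight e (nat_lit 33)) (nat_lit
    32768))))) (Nat.succ (Nat.mod (Nat.shiftRight e (nat_lit 18)) (nat_lit 32768))))) (Nat.succ
    (Nat.mod e (nat_lit 262144))))

noncomputable def e4L (fd : FD) (m : Tr) (sh : Sh) (c s : Nat) (n : Nat) : Nat :=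
  (@Nat.rec (fun _ => Nat) (nat_lit 0) (fun i ih => (Nat.lor ih (ex4 fd m sh c (Nat.shiftRight s
    (Nat.add (Nat.mul (nat_lit 80) i) (nat_lit 16)))))) n)

noncomputable def exN (fd : FD) (nm : Tr) (sh : Sh) (c e : Nat) : Nat :=
  (@Nat.rec (fun _ => Nat) (nat_lit 0) (fun k _ => (@Nat.rec (fun _ => Nat) (nat_lit 0) (fun i0 _
    => (Nat.shiftLeft (Nat.sub (nat_lit 1) (Nat.xor (Nat.mod (Nat.add c (pk fd sh k)) (nat_lit
    6277101735386680763835789423207666416102355444464034512896)) (Nat.mod (phd fd nm i0) (nat_lit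
    6277101735386680763835789423207666416102355444464034512896)))) k)) (Nat.succ (Nat.mod
    (Nat.shiftRight e (nat_lit 18)) (nat_lit 16384))))) (Nat.succ (Nat.mod e (nat_lit 262144))))

noncomputable def eNL (fd : FD) (nm : Tr) (sh : Sh) (c s : Nat) (n : Nat) : Nat :=
  (@Nat.rec (fun _ => Nat) (nat_lit 0) (fun i ih => (Nat.lor ih (exN fd nm sh c (Nat.shiftRight s
    (Nat.add (Nat.mul (nat_lit 32) i) (nat_lit 16)))))) n)

noncomputable def chunk (fd : FD) (pr : (LD → Nat → Nat) → Nat → Nat) (m nm : Tr) (sh : Sh) (o ps c s : Nat) : Nat :=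
  (cs3 (Nat.mod (Nat.shiftRight s (nat_lit 12)) (nat_lit 16)) (cvL fd pr (tg fd sh.q (dims sh))
    (hx fd m sh o ps) m (co fd sh o c) s (Nat.mod s (nat_lit 4096))) (e4L fd m sh (cf fd sh o c)
    s (Nat.mod s (nat_lit 4096))) (eNL fd nm sh (cf fd sh o c) s (Nat.mod s (nat_lit 4096))))

noncomputable def clsC (fd : FD) (pr : (LD → Nat → Nat) → Nat → Nat) (m nm : Tr) (sh : Sh) (o ps : Nat) (bx : Tr) (c : Nat) (l : List Nat) : Bool :=
  (Nat.beq (Nat.land (need fd sh o bx) (orL (chunk fd pr m nm sh o ps c) l)) (need fd sh o bx))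

noncomputable def finQ (q i : Nat) : Bool :=
  (Nat.ble (Nat.mul (Nat.mul (Nat.mul q q) q) q) i)

noncomputable def chkTile (fd : FD) (pr : (LD → Nat → Nat) → Nat → Nat) (m nm : Tr) (sh : Sh) (o ps : Nat) (bx : Tr) (cl : List (List Nat)) : Bool :=
  (sw (Nat.beq (Nat.add (Nat.add (Nat.add (Nat.add (shC fd sh) (dvG fd sh (nat_lit 2))) (dvH fd
    sh)) (dO fd sh o)) (Nat.shiftRight (need fd sh o bx) (Nat.shiftLeft (nat_lit 1) (bits sh))))
    (nat_lit 0)) (idxL (clsC fd pr m nm sh o ps bx) (finQ sh.q) cl (nat_lit 0)) false)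

noncomputable def xm (fd : FD) (pr : (LD → Nat → Nat) → Nat → Nat) (ds : Dm) (m : Tr) (i : Nat) : Nat :=
  (@Nat.rec (fun _ => Nat) (nat_lit 0) (fun r _ => (pr (tg fd (nat_lit 1) ds) r)) (Nat.succ (qf
    fd.wq (mget m i))))

noncomputable def xq (fd : FD) (r : Row) (m : Tr) (i : Nat) : Nat :=
  (qh fd r (mget m i))

noncomputable def n48 (fd : FD) : Nat :=
  (Nat.add (Nat.mul fd.nmax (nat_lit 281474976710656)) (nat_lit 1))

noncomputable def gS (fs : Nat → Nat) (s : Nat) : Nat :=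
  (@Nat.rec (fun _ => Nat) (nat_lit 0) (fun i _ => (fs i)) (Nat.succ (Nat.mod (Nat.shiftRight s
    (nat_lit 16)) (nat_lit 65536))))

noncomputable def gL (fd : FD) (fs fb : Nat → Nat) (m : Tr) (l0 l1 l2 l3 s : Nat) (n : Nat) : Nat :=
  (@Nat.rec (fun _ => Nat) (nat_lit 0) (fun j ih => (@Nat.rec (fun _ => Nat) (nat_lit 0) (fun i _
    => (cs2 (Nat.add (Nat.sub (n48 fd) (Nat.mul (Nat.mul (Nat.mul (Nat.sub l0 (xq fd fd.r0 m i))
    (Nat.sub l1 (xq fd fd.r1 m i))) (Nat.sub l2 (xq fd fd.r2 m i))) (Nat.sub l3 (xq fd fd.r3 m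
    i)))) (Nat.xor (fs i) (gS fs s))) (Nat.lor ih (fb i)) (nat_lit 0))) (Nat.succ (Nat.mod
    (Nat.shiftRight s (Nat.add (Nat.mul (nat_lit 16) j) (nat_lit 16))) (nat_lit 65536))))) n)

noncomputable def gB (fd : FD) (fs fb : Nat → Nat) (m : Tr) (l0 l1 l2 l3 s : Nat) : Nat :=
  (gL fd fs fb m l0 l1 l2 l3 s (Nat.mod s (nat_lit 65536)))

noncomputable def cmb (fa fb : Nat → Nat) (c : Nat) (l : List (Nat)) : Nat :=
  (@List.rec (Nat) (fun _ => Nat) (nat_lit 0) (fun a tl ih => (@Nat.rec (fun _ => Nat) ih (fun _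
    _ => (Nat.lor (fb a) ih)) (Nat.mod (Nat.shiftRight (fa a) c) (nat_lit 2)))) l)

noncomputable def cmL (fa fb : Nat → Nat) (l : List Nat) (vm on : Nat) (n : Nat) : Bool :=
  (@Nat.rec (fun _ => Bool) true (fun c ih => (@Nat.rec (fun _ => Bool) ih (fun _ _ => (sw
    (Nat.beq (cmb fa fb c l) on) ih false)) (Nat.mod (Nat.shiftRight vm c) (nat_lit 2)))) n)

noncomputable def cel1 (fd : FD) (fs fb : Nat → Nat) (cl : Cl) (m : Tr) (l0 l1 l2 l3 : Nat) (l : List Nat) : Bool :=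
  (cmL (gS fs) (gB fd fs fb m l0 l1 l2 l3) l cl.vm (ones (bitsD cl.lb)) (Nat.shiftLeft (nat_lit
    1) (bitsD cl.ls)))

noncomputable def celC (fd : FD) (ps pb : (LD → Nat → Nat) → Nat → Nat) (cl : Cl) (m : Tr) (s i : Nat) (l : List Nat) : Bool :=
  (@Nat.rec (fun _ => Bool) false (fun l0 _ => (@Nat.rec (fun _ => Bool) false (fun l1 _ =>
    (@Nat.rec (fun _ => Bool) false (fun l2 _ => (@Nat.rec (fun _ => Bool) false (fun l3 _ =>
    (cel1 fd (xm fd ps cl.ls m) (xm fd pb cl.lb m) cl m l0 l1 l2 l3 l)) (Nat.succ (gr (Nat.mod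
    (Nat.shiftRight (Nat.mod (Nat.shiftRight s (Nat.mul (nat_lit 80) i)) (nat_lit
    1208925819614629174706176)) (nat_lit 30)) (nat_lit 1024)))))) (Nat.succ (gr (Nat.mod
    (Nat.shiftRight (Nat.mod (Nat.shiftRight s (Nat.mul (nat_lit 80) i)) (nat_lit
    1208925819614629174706176)) (nat_lit 20)) (nat_lit 1024)))))) (Nat.succ (gr (Nat.mod
    (Nat.shiftRight (Nat.mod (Nat.shiftRight s (Nat.mul (nat_lit 80) i)) (nat_lit
    1208925819614629174706176)) (nat_lit 10)) (nat_lit 1024)))))) (Nat.succ (gr (Nat.mod (Nat.mod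
    (Nat.shiftRight s (Nat.mul (nat_lit 80) i)) (nat_lit 1208925819614629174706176)) (nat_lit
    1024)))))

noncomputable def chkCells (fd : FD) (ps pb : (LD → Nat → Nat) → Nat → Nat) (cl : Cl) (m : Tr) (s : Nat) (l : List (List Nat)) : Bool :=
  (idxL (celC fd ps pb cl m s) (fin80 s) l (nat_lit 0))

noncomputable def rw4 (fd : FD) (t : Nat) : Row :=
  (cs4 t fd.r0 fd.r1 fd.r2 fd.r3)

noncomputable def xk1 (fd : FD) (sh : Sh) (o y k : Nat) : Nat :=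
  (Nat.shiftLeft (Nat.sub (nat_lit 1) (Nat.xor (Nat.mod (Nat.add (ph fd o) (pk fd sh k)) (nat_lit
    6277101735386680763835789423207666416102355444464034512896)) (Nat.mod y (nat_lit
    6277101735386680763835789423207666416102355444464034512896)))) k)

noncomputable def xk (fd : FD) (sh : Sh) (o r : Nat) (m : Tr) (j : Nat) : Nat :=
  (@Nat.rec (fun _ => Nat) (nat_lit 0) (fun i _ => (xk1 fd sh o (Nat.add (phd fd m j) r) (mget m
    i))) (Nat.succ (Nat.add j (nat_lit 1))))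

noncomputable def eU (fd : FD) (c t : Nat) : Nat :=
  (Nat.add (Nat.shiftRight (Nat.sub (Nat.add (ep fd (rw4 fd t) c) (nat_lit 262144)) (en fd (rw4
    fd t) c)) (nat_lit 28)) (nat_lit 1))

noncomputable def xl (fd : FD) (m : Tr) (j t : Nat) : Nat :=
  (ql fd (rw4 fd t) (mget m j))

noncomputable def n1L (fd : FD) (m : Tr) (f : Nat → Nat) (c s : Nat) (n : Nat) : Nat :=
  (@Nat.rec (fun _ => Nat) (nat_lit 0) (fun i ih => (@Nat.rec (fun _ => Nat) (nat_lit 0) (fun j _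
    => (@Nat.rec (fun _ => Nat) (nat_lit 0) (fun t _ => (sw (Nat.ble (eU fd c t) (xl fd m j t))
    (Nat.lor ih (f j)) (nat_lit 0))) (Nat.succ (Nat.mod (Nat.shiftRight s (Nat.add (Nat.mul
    (nat_lit 15) i) (nat_lit 13))) (nat_lit 4))))) (Nat.succ (Nat.mod (Nat.shiftRight s (Nat.mul
    (nat_lit 15) i)) (nat_lit 8192))))) n)

noncomputable def n2L (fd : FD) (m nm : Tr) (f : Nat → Nat) (c s : Nat) (n : Nat) : Nat :=
  (@Nat.rec (fun _ => Nat) (nat_lit 0) (fun i ih => (@Nat.rec (fun _ => Nat) (nat_lit 0) (fun j _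
    => (@Nat.rec (fun _ => Nat) (nat_lit 0) (fun t _ => (cs2 (Nat.xor (Nat.mod (ph fd c) (nat_lit
    6277101735386680763835789423207666416102355444464034512896)) (Nat.mod (Nat.add (xsd fd m j)
    (phd fd nm t)) (nat_lit 6277101735386680763835789423207666416102355444464034512896)))
    (Nat.lor ih (f j)) (nat_lit 0))) (Nat.succ (Nat.mod (Nat.shiftRight s (Nat.add (Nat.mul
    (nat_lit 27) i) (nat_lit 13))) (nat_lit 16384))))) (Nat.succ (Nat.mod (Nat.shiftRight s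
    (Nat.mul (nat_lit 27) i)) (nat_lit 8192))))) n)

noncomputable def hB (fd : FD) (r : Row) (s : Nat) (sh : Sh) (o rr g : Nat) : Nat :=
  (Nat.xor (hL fd r s sh o (Nat.sub (Nat.mul rr (nat_lit 4096)) (gr g))) (hU fd r s sh o (Nat.add
    (Nat.mul rr (nat_lit 4096)) (gr g))))

noncomputable def rC (fd : FD) (r : Row) (c g gm : Nat) : Nat :=
  (Nat.add (Nat.sub g (Nat.mod gm (nat_lit 1024))) (Nat.sub (Nat.add (ep fd r c) (nat_lit
    262144)) (Nat.add (en fd r c) (Nat.mul (Nat.mul (gr g) (gr g)) (nat_lit 65536)))))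

noncomputable def ns2 (fd : FD) (nm : Tr) (sh : Sh) (o rr kz : Nat) (m : Tr) (c s nd : Nat) : Nat :=
  (Nat.xor (Nat.land nd (Nat.lor (xk1 fd sh o rr kz) (Nat.lor (n1L fd m (xk fd sh o rr m) c
    (Nat.shiftRight s (nat_lit 59)) (Nat.mod (Nat.shiftRight s (nat_lit 43)) (nat_lit 256))) (n2L
    fd m nm (xk fd sh o rr m) c (Nat.shiftRight s (Nat.add (nat_lit 59) (Nat.mul (nat_lit 15)
    (Nat.mod (Nat.shiftRight s (nat_lit 43)) (nat_lit 256))))) (Nat.mod (Nat.shiftRight s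
    (nat_lit 51)) (nat_lit 256)))))) nd)

noncomputable def ns1 (fd : FD) (nm : Tr) (sh : Sh) (o rr gm kz : Nat) (m : Tr) (c s g0 g1 g2 g3 : Nat) : Bool :=
  (sw (sw (Nat.beq c (Nat.mul fd.b (nat_lit 281479271743489))) false true) (Nat.beq (Nat.add
    (Nat.add (Nat.add (Nat.add (rC fd fd.r0 c g0 gm) (rC fd fd.r1 c g1 (Nat.shiftRight gm
    (nat_lit 10)))) (rC fd fd.r2 c g2 (Nat.shiftRight gm (nat_lit 20)))) (rC fd fd.r3 c g3
    (Nat.shiftRight gm (nat_lit 30)))) (ns2 fd nm sh o rr kz m c s (Nat.land (Nat.land (Nat.xor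
    (hL fd fd.r0 sh.s0 sh o (Nat.mul rr (nat_lit 4096))) (hU fd fd.r0 sh.s0 sh o (Nat.add
    (Nat.mul rr (nat_lit 4096)) (gr g0)))) (hB fd fd.r1 sh.s1 sh o rr g1)) (Nat.land (hB fd fd.r2
    sh.s2 sh o rr g2) (hB fd fd.r3 sh.s3 sh o rr g3))))) (nat_lit 0)) false)

noncomputable def nsC (fd : FD) (nm : Tr) (sh : Sh) (o rr gm kz : Nat) (m : Tr) (lf i s : Nat) : Bool :=
  (@Nat.rec (fun _ => Bool) false (fun c _ => (sw (Nat.ble (Nat.succ (Nat.mod s (nat_lit 8)))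
    (nat_lit 4)) (Nat.ble (Nat.succ (Nat.add (ep fd (rw4 fd (Nat.mod s (nat_lit 8))) c) (nat_lit
    262144))) (en fd (rw4 fd (Nat.mod s (nat_lit 8))) c)) (@Nat.rec (fun _ => Bool) false (fun g0
    _ => (@Nat.rec (fun _ => Bool) false (fun g1 _ => (@Nat.rec (fun _ => Bool) false (fun g2 _
    => (@Nat.rec (fun _ => Bool) false (fun g3 _ => (ns1 fd nm sh o rr gm kz m c s g0 g1 g2 g3))
    (Nat.succ (Nat.mod (Nat.shiftRight s (nat_lit 33)) (nat_lit 1024))))) (Nat.succ (Nat.mod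
    (Nat.shiftRight s (nat_lit 23)) (nat_lit 1024))))) (Nat.succ (Nat.mod (Nat.shiftRight s
    (nat_lit 13)) (nat_lit 1024))))) (Nat.succ (Nat.mod (Nat.shiftRight s (nat_lit 3)) (nat_lit
    1024)))))) (Nat.succ (Nat.mod (Nat.shiftRight lf (Nat.mul (nat_lit 64) i)) (nat_lit
    18446744073709551616))))

noncomputable def fin256 (i : Nat) : Bool :=
  (Nat.ble (nat_lit 256) i)

noncomputable def chkNS (fd : FD) (nm : Tr) (sh : Sh) (o rr gm kz : Nat) (m : Tr) (lf : Nat) (l : List Nat) : Bool :=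
  (sw (Nat.beq (Nat.add (Nat.add (Nat.add (Nat.add (shC fd sh) (dvG fd sh (nat_lit 1))) (Nat.add
    (Nat.sub sh.q (nat_lit 1)) (Nat.shiftRight rr (nat_lit 20)))) (Nat.add (Nat.add (Nat.sub (gr
    (Nat.mod (Nat.shiftRight gm (nat_lit 10)) (nat_lit 1024))) (Nat.mul rr (nat_lit 4096)))
    (Nat.sub (gr (Nat.mod (Nat.shiftRight gm (nat_lit 20)) (nat_lit 1024))) (Nat.mul rr (nat_lit
    4096)))) (Nat.sub (gr (Nat.mod (Nat.shiftRight gm (nat_lit 30)) (nat_lit 1024))) (Nat.mul rr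
    (nat_lit 4096))))) (ct fd sh o (Nat.mul rr (nat_lit 4096)) (Nat.sub (Nat.mul rr (nat_lit
    4096)) (gr (Nat.mod (Nat.shiftRight gm (nat_lit 10)) (nat_lit 1024)))) (Nat.sub (Nat.mul rr
    (nat_lit 4096)) (gr (Nat.mod (Nat.shiftRight gm (nat_lit 20)) (nat_lit 1024)))) (Nat.sub
    (Nat.mul rr (nat_lit 4096)) (gr (Nat.mod (Nat.shiftRight gm (nat_lit 30)) (nat_lit 1024))))
    (Nat.add (Nat.mul rr (nat_lit 4096)) (gr (Nat.mod gm (nat_lit 1024)))) (Nat.add (Nat.mul rr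
    (nat_lit 4096)) (gr (Nat.mod (Nat.shiftRight gm (nat_lit 10)) (nat_lit 1024)))) (Nat.add
    (Nat.mul rr (nat_lit 4096)) (gr (Nat.mod (Nat.shiftRight gm (nat_lit 20)) (nat_lit 1024))))
    (Nat.add (Nat.mul rr (nat_lit 4096)) (gr (Nat.mod (Nat.shiftRight gm (nat_lit 30)) (nat_lit
    1024)))))) (nat_lit 0)) (idxL (nsC fd nm sh o rr gm kz m lf) fin256 l (nat_lit 0)) false)

noncomputable def bl (x l0 l1 l2 l3 u0 u1 u2 u3 : Nat) : Nat :=
  (Nat.add (Nat.add (Nat.add (Nat.add (Nat.add (Nat.add (Nat.add (Nat.sub (Nat.mod x (nat_lit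
    1024)) l0) (Nat.sub (Nat.mod (Nat.shiftRight x (nat_lit 10)) (nat_lit 1024)) l1)) (Nat.sub
    (Nat.mod (Nat.shiftRight x (nat_lit 20)) (nat_lit 1024)) l2)) (Nat.sub (Nat.mod
    (Nat.shiftRight x (nat_lit 30)) (nat_lit 1024)) l3)) (Nat.sub u0 (Nat.mod (Nat.shiftRight x
    (nat_lit 40)) (nat_lit 1024)))) (Nat.sub u1 (Nat.mod (Nat.shiftRight x (nat_lit 50)) (nat_lit
    1024)))) (Nat.sub u2 (Nat.mod (Nat.shiftRight x (nat_lit 60)) (nat_lit 1024)))) (Nat.sub u3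
    (Nat.mod (Nat.shiftRight x (nat_lit 70)) (nat_lit 1024))))

noncomputable def up (fd : FD) (r : Row) (ut : Tr) (k : Nat) : Nat :=
  (Nat.sub (qh fd r (tget ut k)) (nat_lit 4096))

noncomputable def um (fd : FD) (r : Row) (ut : Tr) (k : Nat) : Nat :=
  (Nat.sub (nat_lit 4096) (qh fd r (tget ut k)))

noncomputable def ul1 (a b : Nat) : Nat :=
  (Nat.add (Nat.sub (Nat.add a (nat_lit 1)) b) (Nat.sub b (nat_lit 1208925819614629174706176)))

noncomputable def ul (fd : FD) (ut : Tr) (k l0 l1 l2 l3 u0 u1 u2 u3 : Nat) : Nat :=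
  (ul1 (Nat.add (Nat.add (Nat.add (Nat.mul (up fd fd.r0 ut k) (gu u0)) (Nat.mul (up fd fd.r1 ut
    k) (gu u1))) (Nat.mul (up fd fd.r2 ut k) (gu u2))) (Nat.mul (up fd fd.r3 ut k) (gu u3)))
    (Nat.add (Nat.add (Nat.add (Nat.mul (um fd fd.r0 ut k) (gr l0)) (Nat.mul (um fd fd.r1 ut k)
    (gr l1))) (Nat.mul (um fd fd.r2 ut k) (gr l2))) (Nat.mul (um fd fd.r3 ut k) (gr l3))))

noncomputable def go (fd : FD) (ut bt : Tr) (n : Nat) : Nat → Nat → Nat → Nat → Nat → Nat → Nat → Nat → Nat → Nat :=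
  (@Nat.rec (fun _ => Nat → Nat → Nat → Nat → Nat → Nat → Nat → Nat → Nat → Nat) (fun s l0 l1 l2
    l3 u0 u1 u2 u3 => (nat_lit 0)) (fun f ih s l0 l1 l2 l3 u0 u1 u2 u3 => (@Nat.rec (fun _ =>
    Nat) (@Nat.rec (fun _ => Nat) (nat_lit 0) (fun t _ => (cs2 (bl (Nat.mod (Nat.shiftRight (tget
    bt t) (Nat.mul (nat_lit 80) (Nat.mod (Nat.shiftRight s (nat_lit 17)) (nat_lit 128))))
    (nat_lit 1208925819614629174706176)) l0 l1 l2 l3 u0 u1 u2 u3) (Nat.shiftRight s (nat_lit 24))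
    (nat_lit 0))) (Nat.succ (Nat.mod (Nat.shiftRight s (nat_lit 3)) (nat_lit 16384)))) (fun z0 _
    => (@Nat.rec (fun _ => Nat) (@Nat.rec (fun _ => Nat) (nat_lit 0) (fun k _ => (cs2 (ul fd ut k
    l0 l1 l2 l3 u0 u1 u2 u3) (Nat.shiftRight s (nat_lit 11)) (nat_lit 0))) (Nat.succ (Nat.mod
    (Nat.shiftRight s (nat_lit 3)) (nat_lit 256)))) (fun z1 _ => (@Nat.rec (fun _ => Nat)
    (@Nat.rec (fun _ => Nat) (nat_lit 0) (fun g _ => (@Nat.rec (fun _ => Nat) (nat_lit 0) (fun v1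
    _ => (@Nat.rec (fun _ => Nat) (nat_lit 0) (fun v2 _ => (@Nat.rec (fun _ => Nat) (nat_lit 0)
    (fun v3 _ => (ih (ih (Nat.shiftRight s (nat_lit 13)) l0 l1 l2 l3 g v1 v2 v3) g l1 l2 l3 u0 u1
    u2 u3)) (Nat.succ (Nat.sub u3 (Nat.sub u3 g))))) (Nat.succ (Nat.sub u2 (Nat.sub u2 g)))))
    (Nat.succ (Nat.sub u1 (Nat.sub u1 g))))) (Nat.succ (Nat.mod (Nat.shiftRight s (nat_lit 3))
    (nat_lit 1024)))) (fun z2 _ => (@Nat.rec (fun _ => Nat) (@Nat.rec (fun _ => Nat) (nat_lit 0)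
    (fun g _ => (@Nat.rec (fun _ => Nat) (nat_lit 0) (fun v _ => (ih (ih (Nat.shiftRight s
    (nat_lit 13)) l0 l1 l2 l3 u0 g u2 u3) v g l2 l3 u0 u1 u2 u3)) (Nat.succ (Nat.add g (Nat.sub
    l0 g))))) (Nat.succ (Nat.mod (Nat.shiftRight s (nat_lit 3)) (nat_lit 1024)))) (fun z3 _ =>
    (@Nat.rec (fun _ => Nat) (@Nat.rec (fun _ => Nat) (nat_lit 0) (fun g _ => (@Nat.rec (fun _ =>
    Nat) (nat_lit 0) (fun v _ => (ih (ih (Nat.shiftRight s (nat_lit 13)) l0 l1 l2 l3 u0 u1 g u3)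
    v l1 g l3 u0 u1 u2 u3)) (Nat.succ (Nat.add g (Nat.sub l0 g))))) (Nat.succ (Nat.mod
    (Nat.shiftRight s (nat_lit 3)) (nat_lit 1024)))) (fun _ _ => (@Nat.rec (fun _ => Nat)
    (nat_lit 0) (fun g _ => (@Nat.rec (fun _ => Nat) (nat_lit 0) (fun v _ => (ih (ih
    (Nat.shiftRight s (nat_lit 13)) l0 l1 l2 l3 u0 u1 u2 g) v l1 l2 g u0 u1 u2 u3)) (Nat.succ
    (Nat.add g (Nat.sub l0 g))))) (Nat.succ (Nat.mod (Nat.shiftRight s (nat_lit 3)) (nat_lit
    1024))))) z3)) z2)) z1)) z0)) (Nat.mod s (nat_lit 8)))) n)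

noncomputable def tr1 (fd : FD) (ut bt : Tr) (x s : Nat) : Bool :=
  (@Nat.rec (fun _ => Bool) false (fun l0 _ => (@Nat.rec (fun _ => Bool) false (fun l1 _ =>
    (@Nat.rec (fun _ => Bool) false (fun l2 _ => (@Nat.rec (fun _ => Bool) false (fun l3 _ =>
    (@Nat.rec (fun _ => Bool) false (fun u0 _ => (@Nat.rec (fun _ => Bool) false (fun u1 _ =>
    (@Nat.rec (fun _ => Bool) false (fun u2 _ => (@Nat.rec (fun _ => Bool) false (fun u3 _ =>
    (Nat.ble (nat_lit 1) (go fd ut bt (nat_lit 300) s l0 l1 l2 l3 u0 u1 u2 u3))) (Nat.succ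
    (Nat.mod (Nat.shiftRight x (nat_lit 70)) (nat_lit 1024))))) (Nat.succ (Nat.mod
    (Nat.shiftRight x (nat_lit 60)) (nat_lit 1024))))) (Nat.succ (Nat.mod (Nat.shiftRight x
    (nat_lit 50)) (nat_lit 1024))))) (Nat.succ (Nat.mod (Nat.shiftRight x (nat_lit 40)) (nat_lit
    1024))))) (Nat.succ (Nat.mod (Nat.shiftRight x (nat_lit 30)) (nat_lit 1024))))) (Nat.succ
    (Nat.mod (Nat.shiftRight x (nat_lit 20)) (nat_lit 1024))))) (Nat.succ (Nat.mod
    (Nat.shiftRight x (nat_lit 10)) (nat_lit 1024))))) (Nat.succ (Nat.mod x (nat_lit 1024))))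

noncomputable def trC (fd : FD) (ut bt : Tr) (rt i s : Nat) : Bool :=
  (tr1 fd ut bt (Nat.mod (Nat.shiftRight rt (Nat.mul (nat_lit 80) i)) (nat_lit
    1208925819614629174706176)) s)

noncomputable def chkTrees (fd : FD) (ut bt : Tr) (rt : Nat) (l : List Nat) : Bool :=
  (idxL (trC fd ut bt rt) (fin80 rt) l (nat_lit 0))

end Pool.Agent.Lib.MP_aed2da_nt.H
end

-- part Pool.Agent.Lib.MP_aed2da_nt.HEq
section

/-! Unfolding equations of the checkers. -/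

namespace Pool.Agent.Lib.MP_aed2da_nt.H

theorem tget_lf (n : Nat) (j : Nat) :
    tget (Tr.lf n) j = n := (rfl)

theorem tget_nd (a : Tr) (b : Tr) (j : Nat) :
    tget (Tr.nd a b) j = (cs2 (j % 2) ((tget a) (j / 2)) ((tget b) (j / 2))) := (rfl)

theorem mget_eq (m : Tr) (i : Nat) :
    mget m i = (((tget m (i >>> 8)) >>> (64 * (i % 256))) % 18446744073709551616) := (rfl)

theorem orT_lf (f : Nat → Nat) (n : Nat) :
    orT f (Tr.lf n) = (f n) := (rfl)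

theorem orT_nd (f : Nat → Nat) (a : Tr) (b : Tr) :
    orT f (Tr.nd a b) = ((orT f a) ||| (orT f b)) := (rfl)

theorem orL_nil (f : Nat → Nat) :
    orL f [] = 0 := (rfl)

theorem orL_cons (f : Nat → Nat) (a : Nat) (tl : List (Nat)) :
    orL f (a :: tl) = ((f a) ||| (orL f tl)) := (rfl)

theorem idxL_nil {α : Type} (f : Nat → α → Bool) (fin : Nat → Bool) (i : Nat) :
    idxL f fin [] i = (fin i) := (rfl)

theorem idxL_cons {α : Type} (f : Nat → α → Bool) (fin : Nat → Bool) (a : α) (tl : List (α)) (i : Nat) :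
    idxL f fin (a :: tl) i = (sw (f i a) ((idxL f fin tl) (i + 1)) false) := (rfl)

theorem fin80_eq (s i : Nat) :
    fin80 s i = (Nat.beq (s >>> (80 * i)) 0) := (rfl)

theorem gr_eq (g : Nat) :
    gr g = (((32 + (g % 32)) <<< (g / 32)) - 32) := (rfl)

theorem gu_eq (g : Nat) :
    gu g = (sw (Nat.ble 832 g) 1208925819614629174706176 (gr g)) := (rfl)

theorem ones_eq (d : Nat) :
    ones d = ((1 <<< (1 <<< d)) - 1) := (rfl)

theorem ln_eq (r : Row) (c : Nat) :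
    ln r c = ((((r.a0 * (c % 65536)) + (r.a1 * ((c >>> 16) % 65536))) + (r.a2 * ((c >>> 32) %
      65536))) + (r.a3 * ((c >>> 48) % 65536))) := (rfl)

theorem qf_eq (f : Qf) (c : Nat) :
    qf f c = (((((c % 65536) * ((((f.q00 * (c % 65536)) + (f.q01 * ((c >>> 16) % 65536))) +
      (f.q02 * ((c >>> 32) % 65536))) + (f.q03 * ((c >>> 48) % 65536)))) + (((c >>> 16) % 65536)
      * (((f.q11 * ((c >>> 16) % 65536)) + (f.q12 * ((c >>> 32) % 65536))) + (f.q13 * ((c >>> 48)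
      % 65536))))) + (((c >>> 32) % 65536) * ((f.q22 * ((c >>> 32) % 65536)) + (f.q23 * ((c >>>
      48) % 65536))))) + (((c >>> 48) % 65536) * (f.q33 * ((c >>> 48) % 65536)))) := (rfl)

theorem su_eq (c : Nat) :
    su c = ((((c % 65536) + ((c >>> 16) % 65536)) + ((c >>> 32) % 65536)) + ((c >>> 48) % 65536)) := (rfl)

theorem ep_eq (fd : FD) (r : Row) (c : Nat) :
    ep fd r c = ((ln r c) + (fd.b * 35184372088832)) := (rfl)

theorem en_eq (fd : FD) (r : Row) (c : Nat) :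
    en fd r c = (((su c) * 8796093022208) + (fd.b * (((r.a0 + r.a1) + r.a2) + r.a3))) := (rfl)

theorem mp_eq (fd : FD) (r : Row) (c : Nat) :
    mp fd r c = ((ep fd r c) - (en fd r c)) := (rfl)

theorem mn_eq (fd : FD) (r : Row) (c : Nat) :
    mn fd r c = ((en fd r c) - (ep fd r c)) := (rfl)

theorem ab_eq (fd : FD) (r : Row) (c : Nat) :
    ab fd r c = (((ep fd r c) - (en fd r c)) + ((en fd r c) - (ep fd r c))) := (rfl)

theorem qh_eq (fd : FD) (r : Row) (c : Nat) :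
    qh fd r c = (((((ab fd r c) + 262144) * ((ab fd r c) + 262144)) >>> 68) + 1) := (rfl)

theorem ql_eq (fd : FD) (r : Row) (c : Nat) :
    ql fd r c = ((((ab fd r c) - 262144) * ((ab fd r c) - 262144)) >>> 68) := (rfl)

theorem ph_eq (fd : FD) (c : Nat) :
    ph fd c = ((ln (Row.mk 1 281474976710656 79228162514264337593543950336
      22300745198530623141535718272648361505980416) c) + fd.cb) := (rfl)

theorem xs_eq (fd : FD) (c : Nat) :
    xs fd c = (((qf fd.fq c) + (ln fd.fl c)) + fd.fc) := (rfl)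

theorem key_eq (l : LD) (r : Nat) :
    key l r = (sw (Nat.beq l.n2 1) ((r / l.d1) % l.n1) (((r / l.d1) % l.n1) + (((r / l.d2) %
      l.n2) <<< 10))) := (rfl)

theorem tab_zero (l : LD) (rho : Nat → Nat) (c : Nat) :
    tab l rho 0 c = ((l.tab >>> ((c % 1024) + (l.n1 * (c >>> 10)))) % 2) := (rfl)

theorem tab_succ (l : LD) (rho : Nat → Nat) (m : Nat) (c : Nat) :
    tab l rho (m + 1) c = (((tab l rho m) c) ||| (((tab l rho m) ((((c + (rho m)) % 1024) % l.n1)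
      + ((((c + (rho m)) >>> 10) % l.n2) <<< 10))) <<< (1 <<< m))) := (rfl)

theorem sel_nil (f : Nat → Nat) (t : Nat) :
    sel f Dm.nil t = 0 := (rfl)

theorem sel_cons (f : Nat → Nat) (e : Nat) (b : Nat) (tl : Dm) (t : Nat) :
    sel f (Dm.cons e b tl) t = (sw (Nat.ble (t + 1) e) ((f b) <<< t) ((sel f tl) (t - e))) := (rfl)

theorem sD_nil (g : Nat → Nat → Nat) :
    sD g Dm.nil = 0 := (rfl)

theorem sD_cons (g : Nat → Nat → Nat) (e : Nat) (b : Nat) (tl : Dm) :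
    sD g (Dm.cons e b tl) = ((g e b) + (sD g tl)) := (rfl)

theorem bitsD_nil  :
    bitsD Dm.nil = 0 := (rfl)

theorem bitsD_cons (e : Nat) (b : Nat) (tl : Dm) :
    bitsD (Dm.cons e b tl) = (e + (bitsD tl)) := (rfl)

theorem rq_eq (fd : FD) (q b : Nat) :
    rq fd q b = (q * (ln fd.cl b)) := (rfl)

theorem rho_eq (fd : FD) (q : Nat) (ds : Dm) (l : LD) (m : Nat) :
    rho fd q ds l m = (key l (sel (rq fd q) ds m)) := (rfl)

theorem tg_eq (fd : FD) (q : Nat) (ds : Dm) (l : LD) (c : Nat) :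
    tg fd q ds l c = (tab l (rho fd q ds l) (bitsD ds) c) := (rfl)

theorem dims_eq (sh : Sh) :
    dims sh = (Dm.cons sh.e0 sh.b0 (Dm.cons sh.e1 sh.b1 (Dm.cons sh.e2 sh.b2 (Dm.cons sh.e3 sh.b3
      Dm.nil)))) := (rfl)

theorem bits_eq (sh : Sh) :
    bits sh = (bitsD (dims sh)) := (rfl)

theorem aq_eq (fd : FD) (r : Row) (q b : Nat) :
    aq fd r q b = (q * (ab fd r b)) := (rfl)

theorem cv_eq (fd : FD) (r : Row) (s : Nat) (sh : Sh) (t : Nat) :
    cv fd r s sh t = ((sel (aq fd r sh.q) (dims sh) t) / s) := (rfl)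

theorem ng_eq (fd : FD) (r : Row) (sh : Sh) (t : Nat) :
    ng fd r sh t = (sel (mn fd r) (dims sh) t) := (rfl)

theorem cy_zero (f : Nat → Nat) (c : Nat) :
    cy f c 0 = 0 := (rfl)

theorem cy_succ (f : Nat → Nat) (c : Nat) (jj : Nat) :
    cy f c (jj + 1) = (cs2 ((c >>> jj) % 2) ((f jj) &&& (cy f c jj)) ((f jj) ||| (cy f c jj))) := (rfl)

theorem ad_eq (f : Nat → Nat) (c on j : Nat) :
    ad f c on j = (((f j) ^^^ (cy f c j)) ^^^ (on * ((c >>> j) % 2))) := (rfl)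

theorem vp_zero (cf nf : Nat → Nat) (j : Nat) :
    vp cf nf 0 j = 0 := (rfl)

theorem vp_succ (cf nf : Nat → Nat) (m : Nat) (j : Nat) :
    vp cf nf (m + 1) j = (cs2 (nf m) (((vp cf nf m) j) ||| ((ad (vp cf nf m) (cf m) (ones m) j)
      <<< (1 <<< m))) ((ad (vp cf nf m) (cf m) (ones m) j) ||| (((vp cf nf m) j) <<< (1 <<< m)))) := (rfl)

theorem pl_eq (fd : FD) (r : Row) (s : Nat) (sh : Sh) (j : Nat) :
    pl fd r s sh j = (vp (cv fd r s sh) (ng fd r sh) (bits sh) (j + 4)) := (rfl)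

theorem ge_zero (p : Nat → Nat) (on : Nat) (s : Nat) :
    ge p on 0 s = (cs2 s on 0) := (rfl)

theorem ge_succ (p : Nat → Nat) (on : Nat) (m : Nat) (s : Nat) :
    ge p on (m + 1) s = (sw (Nat.ble (1 <<< m) s) ((p m) &&& ((ge p on m) (s - (1 <<< m)))) ((p
      m) ||| ((ge p on m) s))) := (rfl)

theorem hc_eq (fd : FD) (r : Row) (s : Nat) (sh : Sh) (t : Nat) :
    hc fd r s sh t = (ge (pl fd r s sh) (ones (bits sh)) 9 t) := (rfl)

theorem kq_eq (q e b : Nat) :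
    kq q e b = (q <<< e) := (rfl)

theorem z1_eq (fd : FD) (r : Row) (q e b : Nat) :
    z1 fd r q e b = (((q <<< e) - 1) * (mn fd r b)) := (rfl)

theorem z2_eq (fd : FD) (r : Row) (q e b : Nat) :
    z2 fd r q e b = ((q - 1) * (mp fd r b)) := (rfl)

theorem z3_eq (fd : FD) (r : Row) (q e b : Nat) :
    z3 fd r q e b = (((q <<< e) - q) * (mn fd r b)) := (rfl)

theorem z4_eq (fd : FD) (r : Row) (q e b : Nat) :
    z4 fd r q e b = (((q <<< e) - q) * (ab fd r b)) := (rfl)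

theorem er_eq (sh : Sh) :
    er sh = (262144 * (1 + (sD (kq sh.q) (dims sh)))) := (rfl)

theorem zpN_eq (fd : FD) (r : Row) (sh : Sh) (o : Nat) :
    zpN fd r sh o = (((en fd r o) + (er sh)) + (sD (z1 fd r sh.q) (dims sh))) := (rfl)

theorem zqP_eq (fd : FD) (r : Row) (s : Nat) (sh : Sh) (o : Nat) :
    zqP fd r s sh o = ((((ep fd r o) + (er sh)) + ((bits sh) * s)) + (sD (z2 fd r sh.q) (dims
      sh))) := (rfl)

theorem zqN_eq (fd : FD) (r : Row) (sh : Sh) (o : Nat) :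
    zqN fd r sh o = ((en fd r o) + (sD (z3 fd r sh.q) (dims sh))) := (rfl)

theorem m512_eq (x : Nat) :
    m512 x = (x - (x - 512)) := (rfl)

theorem hL_eq (fd : FD) (r : Row) (s : Nat) (sh : Sh) (o l : Nat) :
    hL fd r s sh o l = (fN (m512 ((((l * 268435456) + (zqN fd r sh o)) - (zqP fd r s sh o)) / (s
      * 16))) (fun t => (hc fd r s sh t))) := (rfl)

theorem hU_eq (fd : FD) (r : Row) (s : Nat) (sh : Sh) (o u : Nat) :
    hU fd r s sh o u = (fN (m512 (((((u * 268435456) + (zpN fd r sh o)) - (ep fd r o)) / (s *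
      16)) + 1)) (fun t => (hc fd r s sh t))) := (rfl)

theorem bm_eq (fd : FD) (sh : Sh) (o l0 l1 l2 l3 u0 u1 u2 u3 : Nat) :
    bm fd sh o l0 l1 l2 l3 u0 u1 u2 u3 = ((((hL fd fd.r0 sh.s0 sh o l0) ^^^ (hU fd fd.r0 sh.s0 sh
      o u0)) &&& ((hL fd fd.r1 sh.s1 sh o l1) ^^^ (hU fd fd.r1 sh.s1 sh o u1))) &&& (((hL fd
      fd.r2 sh.s2 sh o l2) ^^^ (hU fd fd.r2 sh.s2 sh o u2)) &&& ((hL fd fd.r3 sh.s3 sh o l3) ^^^
      (hU fd fd.r3 sh.s3 sh o u3)))) := (rfl)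

theorem tP_eq (fd : FD) (d : Nat) :
    tP fd d = (Row.mk (mp fd fd.g0 d) (mp fd fd.g1 d) (mp fd fd.g2 d) (mp fd fd.g3 d)) := (rfl)

theorem tN_eq (fd : FD) (d : Nat) :
    tN fd d = (Row.mk (mn fd fd.g0 d) (mn fd fd.g1 d) (mn fd fd.g2 d) (mn fd fd.g3 d)) := (rfl)

theorem rs_eq (r : Row) :
    rs r = (((r.a0 + r.a1) + r.a2) + r.a3) := (rfl)

theorem cP_eq (fd : FD) (d o : Nat) :
    cP fd d o = ((ln (tP fd d) o) + (fd.b * (rs (tN fd d)))) := (rfl)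

theorem cN_eq (fd : FD) (d o : Nat) :
    cN fd d o = ((ln (tN fd d) o) + (fd.b * (rs (tP fd d)))) := (rfl)

theorem mp2_eq (fd : FD) (r : Row) (c : Nat) :
    mp2 fd r c = ((mp fd r c) + 262144) := (rfl)

theorem mn2_eq (fd : FD) (r : Row) (c : Nat) :
    mn2 fd r c = ((mn fd r c) + 262144) := (rfl)

theorem c1_eq (fd : FD) (d o : Nat) :
    c1 fd d o = ((4503599627370496 * (cP fd d o)) + 1) := (rfl)

theorem c2_eq (fd : FD) (den d o : Nat) :
    c2 fd den d o = (4503599627370496 * (den + (cN fd d o))) := (rfl)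

theorem c3_eq (fd : FD) (d o : Nat) :
    c3 fd d o = ((4503599627370496 * (cN fd d o)) + 1) := (rfl)

theorem c4_eq (fd : FD) (den k d o : Nat) :
    c4 fd den k d o = (4503599627370496 * ((den * k) + (cP fd d o))) := (rfl)

theorem ct1_eq (fd : FD) (den k d o l0 l1 l2 l3 u0 u1 u2 u3 : Nat) :
    ct1 fd den k d o l0 l1 l2 l3 u0 u1 u2 u3 = ((((((((mn2 fd fd.r0 d) * u0) + ((mn2 fd fd.r1 d)
      * u1)) + ((mn2 fd fd.r2 d) * u2)) + ((mn2 fd fd.r3 d) * u3)) + (c1 fd d o)) - ((((((mp fd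
      fd.r0 d) * l0) + ((mp fd fd.r1 d) * l1)) + ((mp fd fd.r2 d) * l2)) + ((mp fd fd.r3 d) *
      l3)) + (c2 fd den d o))) + (((((((mp2 fd fd.r0 d) * u0) + ((mp2 fd fd.r1 d) * u1)) + ((mp2
      fd fd.r2 d) * u2)) + ((mp2 fd fd.r3 d) * u3)) + (c3 fd d o)) - ((((((mn fd fd.r0 d) * l0) +
      ((mn fd fd.r1 d) * l1)) + ((mn fd fd.r2 d) * l2)) + ((mn fd fd.r3 d) * l3)) + (c4 fd den k
      d o)))) := (rfl)

theorem ct_eq (fd : FD) (sh : Sh) (o l0 l1 l2 l3 u0 u1 u2 u3 : Nat) :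
    ct fd sh o l0 l1 l2 l3 u0 u1 u2 u3 = ((((ct1 fd sh.den (sh.q <<< sh.e0) sh.d0 o l0 l1 l2 l3
      u0 u1 u2 u3) + (ct1 fd sh.den (sh.q <<< sh.e1) sh.d1 o l0 l1 l2 l3 u0 u1 u2 u3)) + (ct1 fd
      sh.den (sh.q <<< sh.e2) sh.d2 o l0 l1 l2 l3 u0 u1 u2 u3)) + (ct1 fd sh.den (sh.q <<< sh.e3)
      sh.d3 o l0 l1 l2 l3 u0 u1 u2 u3)) := (rfl)

theorem bx1_eq (fd : FD) (sh : Sh) (o l0 l1 l2 l3 u0 u1 u2 u3 : Nat) :
    bx1 fd sh o l0 l1 l2 l3 u0 u1 u2 u3 = (cs2 ((ct fd sh o (gr l0) (gr l1) (gr l2) (gr l3) (gr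
      u0) (gr u1) (gr u2) (gr u3)) + ((((u0 / 832) + (u1 / 832)) + (u2 / 832)) + (u3 / 832))) (bm
      fd sh o (gr l0) (gr l1) (gr l2) (gr l3) (gr u0) (gr u1) (gr u2) (gr u3)) ((ones (bits sh))
      + 1)) := (rfl)

theorem bx2_eq (fd : FD) (sh : Sh) (o x : Nat) :
    bx2 fd sh o x = (bx1 fd sh o (x % 1024) ((x >>> 10) % 1024) ((x >>> 20) % 1024) ((x >>> 30) %
      1024) ((x >>> 40) % 1024) ((x >>> 50) % 1024) ((x >>> 60) % 1024) ((x >>> 70) % 1024)) := (rfl)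

theorem bxL_zero (fd : FD) (sh : Sh) (o : Nat) (s : Nat) :
    bxL fd sh o 0 s = ((ones (bits sh)) + 1) := (rfl)

theorem bxL_succ (fd : FD) (sh : Sh) (o : Nat) (i : Nat) (s : Nat) :
    bxL fd sh o (i + 1) s = (cs2 s 0 ((bx2 fd sh o (s % 1208925819614629174706176)) ||| ((bxL fd
      sh o i) (s >>> 80)))) := (rfl)

theorem bxC_eq (fd : FD) (sh : Sh) (o s : Nat) :
    bxC fd sh o s = (bxL fd sh o 129 s) := (rfl)

theorem need_eq (fd : FD) (sh : Sh) (o : Nat) (bx : Tr) :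
    need fd sh o bx = (orT (bxC fd sh o) bx) := (rfl)

theorem eq1_eq (fd : FD) (sh : Sh) (g : Row) (w : Nat) :
    eq1 fd sh g w = (((((((mp fd g sh.d0) * (ph fd sh.b0)) + ((mp fd g sh.d1) * (ph fd sh.b1))) +
      ((mp fd g sh.d2) * (ph fd sh.b2))) + ((mp fd g sh.d3) * (ph fd sh.b3))) %
      6277101735386680763835789423207666416102355444464034512896) ^^^ (((((((mn fd g sh.d0) * (ph
      fd sh.b0)) + ((mn fd g sh.d1) * (ph fd sh.b1))) + ((mn fd g sh.d2) * (ph fd sh.b2))) + ((mn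
      fd g sh.d3) * (ph fd sh.b3))) + (sh.den * w)) %
      6277101735386680763835789423207666416102355444464034512896)) := (rfl)

theorem tb_eq (fd : FD) (sh : Sh) (g : Row) :
    tb fd sh g = (((((ab fd g sh.d0) + (ab fd g sh.d1)) + (ab fd g sh.d2)) + (ab fd g sh.d3)) >>>
      24) := (rfl)

theorem sb_eq (fd : FD) (sh : Sh) (r : Row) (s : Nat) :
    sb fd sh r s = (((sD (z4 fd r sh.q) (dims sh)) + 1) - (s * 8192)) := (rfl)

theorem shC_eq (fd : FD) (sh : Sh) :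
    shC fd sh = (((((((1 - sh.q) + (1 - sh.den)) + (sh.den >>> 20)) + ((sD (kq sh.q) (dims sh))
      >>> 12)) + ((((tb fd sh fd.g0) + (tb fd sh fd.g1)) + (tb fd sh fd.g2)) + (tb fd sh fd.g3)))
      + ((((eq1 fd sh fd.g0 1) + (eq1 fd sh fd.g1 281474976710656)) + (eq1 fd sh fd.g2
      79228162514264337593543950336)) + (eq1 fd sh fd.g3
      22300745198530623141535718272648361505980416))) + ((((sb fd sh fd.r0 sh.s0) + (sb fd sh
      fd.r1 sh.s1)) + (sb fd sh fd.r2 sh.s2)) + (sb fd sh fd.r3 sh.s3))) := (rfl)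

theorem dv_eq (fd : FD) (den m : Nat) (g : Row) (d : Nat) :
    dv fd den m g d = ((m * (ab fd g d)) % den) := (rfl)

theorem dv4_eq (fd : FD) (sh : Sh) (m : Nat) (g : Row) :
    dv4 fd sh m g = ((((dv fd sh.den m g sh.d0) + (dv fd sh.den m g sh.d1)) + (dv fd sh.den m g
      sh.d2)) + (dv fd sh.den m g sh.d3)) := (rfl)

theorem dvG_eq (fd : FD) (sh : Sh) (m : Nat) :
    dvG fd sh m = ((((dv4 fd sh m fd.g0) + (dv4 fd sh m fd.g1)) + (dv4 fd sh m fd.g2)) + (dv4 fd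
      sh m fd.g3)) := (rfl)

theorem dvH_eq (fd : FD) (sh : Sh) :
    dvH fd sh = ((((dv4 fd sh 1 fd.h0) + (dv4 fd sh 1 fd.h1)) + (dv4 fd sh 1 fd.h2)) + (dv4 fd sh
      1 fd.h3)) := (rfl)

theorem dO1_eq (fd : FD) (den d o : Nat) :
    dO1 fd den d o = (((cP fd d o) % den) ^^^ ((cN fd d o) % den)) := (rfl)

theorem dO_eq (fd : FD) (sh : Sh) (o : Nat) :
    dO fd sh o = ((((dO1 fd sh.den sh.d0 o) + (dO1 fd sh.den sh.d1 o)) + (dO1 fd sh.den sh.d2 o))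
      + (dO1 fd sh.den sh.d3 o)) := (rfl)

theorem xwd_eq (fd : FD) (m : Tr) (dg : Nat) :
    xwd fd m dg = (qf fd.wq (mget m (dg % 32768))) := (rfl)

theorem mx_eq (a b : Nat) :
    mx a b = (a + (b - a)) := (rfl)

theorem sx_eq (fd : FD) (r : Row) (s : Nat) (sh : Sh) (o q p : Nat) :
    sx fd r s sh o q p = (mx ((((((q + (p % 268435456)) * 268435456) + (zpN fd r sh o)) + (s *
      16)) - ((ep fd r o) + 1)) / (s * 16)) ((p >>> 28) % 4096)) := (rfl)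

theorem gp_eq (fd : FD) (r : Row) (s : Nat) (sh : Sh) (o q t : Nat) :
    gp fd r s sh o q t = (((ep fd r o) + ((s * 16) * t)) - ((zpN fd r sh o) + (q * 268435456))) := (rfl)

theorem hx1_eq (fd : FD) (sh : Sh) (o c t0 t1 t2 t3 : Nat) :
    hx1 fd sh o c t0 t1 t2 t3 = (sw (Nat.ble ((fd.nmax *
      1461501637330902918203684832716283019655932542976) + 1) ((((gp fd fd.r0 sh.s0 sh o (qh fd
      fd.r0 c) t0) * (gp fd fd.r1 sh.s1 sh o (qh fd fd.r1 c) t1)) * (gp fd fd.r2 sh.s2 sh o (qh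
      fd fd.r2 c) t2)) * (gp fd fd.r3 sh.s3 sh o (qh fd fd.r3 c) t3))) (((hc fd fd.r0 sh.s0 sh
      t0) &&& (hc fd fd.r1 sh.s1 sh t1)) &&& ((hc fd fd.r2 sh.s2 sh t2) &&& (hc fd fd.r3 sh.s3 sh
      t3))) 0) := (rfl)

theorem hx2_eq (fd : FD) (sh : Sh) (o c p : Nat) :
    hx2 fd sh o c p = (fN (sx fd fd.r0 sh.s0 sh o (qh fd fd.r0 c) p) (fun t0 => (fN (sx fd fd.r1
      sh.s1 sh o (qh fd fd.r1 c) (p >>> 40)) (fun t1 => (fN (sx fd fd.r2 sh.s2 sh o (qh fd fd.r2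
      c) (p >>> 80)) (fun t2 => (fN (sx fd fd.r3 sh.s3 sh o (qh fd fd.r3 c) (p >>> 120)) (fun t3
      => (hx1 fd sh o c t0 t1 t2 t3))))))))) := (rfl)

theorem hx_eq (fd : FD) (m : Tr) (sh : Sh) (o ps dg : Nat) :
    hx fd m sh o ps dg = (hx2 fd sh o (mget m (dg % 32768)) (ps >>> (160 * (dg >>> 15)))) := (rfl)

theorem co_eq (fd : FD) (sh : Sh) (o c : Nat) :
    co fd sh o c = (((((ln fd.cl o) + ((c % sh.q) * (ln fd.cl sh.b0))) + (((c / sh.q) % sh.q) *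
      (ln fd.cl sh.b1))) + ((((c / sh.q) / sh.q) % sh.q) * (ln fd.cl sh.b2))) + (((((c / sh.q) /
      sh.q) / sh.q) % sh.q) * (ln fd.cl sh.b3))) := (rfl)

theorem cf_eq (fd : FD) (sh : Sh) (o c : Nat) :
    cf fd sh o c = (((((ph fd o) + ((c % sh.q) * (ph fd sh.b0))) + (((c / sh.q) % sh.q) * (ph fd
      sh.b1))) + ((((c / sh.q) / sh.q) % sh.q) * (ph fd sh.b2))) + (((((c / sh.q) / sh.q) / sh.q)
      % sh.q) * (ph fd sh.b3))) := (rfl)

theorem cvL_zero (fd : FD) (pr : (LD → Nat → Nat) → Nat → Nat) (g : LD → Nat → Nat) (h : Nat → Nat) (m : Tr) (c s : Nat) :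
    cvL fd pr g h m c s 0 = 0 := (rfl)

theorem cvL_succ (fd : FD) (pr : (LD → Nat → Nat) → Nat → Nat) (g : LD → Nat → Nat) (h : Nat → Nat) (m : Tr) (c s : Nat) (i : Nat) :
    cvL fd pr g h m c s (i + 1) = ((cvL fd pr g h m c s i) ||| ((pr g ((xwd fd m ((s >>> ((20 *
      i) + 16)) % 1048576)) + c)) &&& (h ((s >>> ((20 * i) + 16)) % 1048576)))) := (rfl)

theorem pq_eq (fd : FD) (q b : Nat) :
    pq fd q b = (q * (ph fd b)) := (rfl)

theorem sh2_eq (sh : Sh) :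
    sh2 sh = (sh.e0 + sh.e1) := (rfl)

theorem sh3_eq (sh : Sh) :
    sh3 sh = ((sh.e0 + sh.e1) + sh.e2) := (rfl)

theorem pk_eq (fd : FD) (sh : Sh) (k : Nat) :
    pk fd sh k = (((((k % (1 <<< sh.e0)) * (pq fd sh.q sh.b0)) + (((k >>> sh.e0) % (1 <<< sh.e1))
      * (pq fd sh.q sh.b1))) + (((k >>> (sh2 sh)) % (1 <<< sh.e2)) * (pq fd sh.q sh.b2))) + (((k
      >>> (sh3 sh)) % (1 <<< sh.e3)) * (pq fd sh.q sh.b3))) := (rfl)

theorem xsd_eq (fd : FD) (m : Tr) (i : Nat) :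
    xsd fd m i = (xs fd (mget m i)) := (rfl)

theorem phd_eq (fd : FD) (m : Tr) (i : Nat) :
    phd fd m i = (ph fd (mget m i)) := (rfl)

theorem ex4_eq (fd : FD) (m : Tr) (sh : Sh) (c e : Nat) :
    ex4 fd m sh c e = ((1 - (((c + (pk fd sh (e % 262144))) %
      6277101735386680763835789423207666416102355444464034512896) ^^^ (((((xsd fd m ((e >>> 18) %
      32768)) + (xsd fd m ((e >>> 33) % 32768))) + (xsd fd m ((e >>> 48) % 32768))) + (xsd fd m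
      ((e >>> 63) % 32768))) % 6277101735386680763835789423207666416102355444464034512896))) <<<
      (e % 262144)) := (rfl)

theorem e4L_zero (fd : FD) (m : Tr) (sh : Sh) (c s : Nat) :
    e4L fd m sh c s 0 = 0 := (rfl)

theorem e4L_succ (fd : FD) (m : Tr) (sh : Sh) (c s : Nat) (i : Nat) :
    e4L fd m sh c s (i + 1) = ((e4L fd m sh c s i) ||| (ex4 fd m sh c (s >>> ((80 * i) + 16)))) := (rfl)

theorem exN_eq (fd : FD) (nm : Tr) (sh : Sh) (c e : Nat) :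
    exN fd nm sh c e = ((1 - (((c + (pk fd sh (e % 262144))) %
      6277101735386680763835789423207666416102355444464034512896) ^^^ ((phd fd nm ((e >>> 18) %
      16384)) % 6277101735386680763835789423207666416102355444464034512896))) <<< (e % 262144)) := (rfl)

theorem eNL_zero (fd : FD) (nm : Tr) (sh : Sh) (c s : Nat) :
    eNL fd nm sh c s 0 = 0 := (rfl)

theorem eNL_succ (fd : FD) (nm : Tr) (sh : Sh) (c s : Nat) (i : Nat) :
    eNL fd nm sh c s (i + 1) = ((eNL fd nm sh c s i) ||| (exN fd nm sh c (s >>> ((32 * i) +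
      16)))) := (rfl)

theorem chunk_eq (fd : FD) (pr : (LD → Nat → Nat) → Nat → Nat) (m nm : Tr) (sh : Sh) (o ps c s : Nat) :
    chunk fd pr m nm sh o ps c s = (cs3 ((s >>> 12) % 16) (cvL fd pr (tg fd sh.q (dims sh)) (hx
      fd m sh o ps) m (co fd sh o c) s (s % 4096)) (e4L fd m sh (cf fd sh o c) s (s % 4096)) (eNL
      fd nm sh (cf fd sh o c) s (s % 4096))) := (rfl)

theorem clsC_eq (fd : FD) (pr : (LD → Nat → Nat) → Nat → Nat) (m nm : Tr) (sh : Sh) (o ps : Nat) (bx : Tr) (c : Nat) (l : List Nat) :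
    clsC fd pr m nm sh o ps bx c l = (Nat.beq ((need fd sh o bx) &&& (orL (chunk fd pr m nm sh o
      ps c) l)) (need fd sh o bx)) := (rfl)

theorem finQ_eq (q i : Nat) :
    finQ q i = (Nat.ble (((q * q) * q) * q) i) := (rfl)

theorem chkTile_eq (fd : FD) (pr : (LD → Nat → Nat) → Nat → Nat) (m nm : Tr) (sh : Sh) (o ps : Nat) (bx : Tr) (cl : List (List Nat)) :
    chkTile fd pr m nm sh o ps bx cl = (sw (Nat.beq (((((shC fd sh) + (dvG fd sh 2)) + (dvH fd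
      sh)) + (dO fd sh o)) + ((need fd sh o bx) >>> (1 <<< (bits sh)))) 0) (idxL (clsC fd pr m nm
      sh o ps bx) (finQ sh.q) cl 0) false) := (rfl)

theorem xm_eq (fd : FD) (pr : (LD → Nat → Nat) → Nat → Nat) (ds : Dm) (m : Tr) (i : Nat) :
    xm fd pr ds m i = (pr (tg fd 1 ds) (qf fd.wq (mget m i))) := (rfl)

theorem xq_eq (fd : FD) (r : Row) (m : Tr) (i : Nat) :
    xq fd r m i = (qh fd r (mget m i)) := (rfl)

theorem n48_eq (fd : FD) :
    n48 fd = ((fd.nmax * 281474976710656) + 1) := (rfl)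

theorem gS_eq (fs : Nat → Nat) (s : Nat) :
    gS fs s = (fs ((s >>> 16) % 65536)) := (rfl)

theorem gL_zero (fd : FD) (fs fb : Nat → Nat) (m : Tr) (l0 l1 l2 l3 s : Nat) :
    gL fd fs fb m l0 l1 l2 l3 s 0 = 0 := (rfl)

theorem gL_succ (fd : FD) (fs fb : Nat → Nat) (m : Tr) (l0 l1 l2 l3 s : Nat) (j : Nat) :
    gL fd fs fb m l0 l1 l2 l3 s (j + 1) = (cs2 (((n48 fd) - ((((l0 - (xq fd fd.r0 m ((s >>> ((16
      * j) + 16)) % 65536))) * (l1 - (xq fd fd.r1 m ((s >>> ((16 * j) + 16)) % 65536)))) * (l2 -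
      (xq fd fd.r2 m ((s >>> ((16 * j) + 16)) % 65536)))) * (l3 - (xq fd fd.r3 m ((s >>> ((16 *
      j) + 16)) % 65536))))) + ((fs ((s >>> ((16 * j) + 16)) % 65536)) ^^^ (gS fs s))) ((gL fd fs
      fb m l0 l1 l2 l3 s j) ||| (fb ((s >>> ((16 * j) + 16)) % 65536))) 0) := (rfl)

theorem gB_eq (fd : FD) (fs fb : Nat → Nat) (m : Tr) (l0 l1 l2 l3 s : Nat) :
    gB fd fs fb m l0 l1 l2 l3 s = (gL fd fs fb m l0 l1 l2 l3 s (s % 65536)) := (rfl)

theorem cmb_nil (fa fb : Nat → Nat) (c : Nat) :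
    cmb fa fb c [] = 0 := (rfl)

theorem cmb_cons (fa fb : Nat → Nat) (c : Nat) (a : Nat) (tl : List (Nat)) :
    cmb fa fb c (a :: tl) = (cs2 (((fa a) >>> c) % 2) (cmb fa fb c tl) ((fb a) ||| (cmb fa fb c
      tl))) := (rfl)

theorem cmL_zero (fa fb : Nat → Nat) (l : List Nat) (vm on : Nat) :
    cmL fa fb l vm on 0 = true := (rfl)

theorem cmL_succ (fa fb : Nat → Nat) (l : List Nat) (vm on : Nat) (c : Nat) :
    cmL fa fb l vm on (c + 1) = (cs2 ((vm >>> c) % 2) (cmL fa fb l vm on c) (sw (Nat.beq (cmb fa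
      fb c l) on) (cmL fa fb l vm on c) false)) := (rfl)

theorem cel1_eq (fd : FD) (fs fb : Nat → Nat) (cl : Cl) (m : Tr) (l0 l1 l2 l3 : Nat) (l : List Nat) :
    cel1 fd fs fb cl m l0 l1 l2 l3 l = (cmL (gS fs) (gB fd fs fb m l0 l1 l2 l3) l cl.vm (ones
      (bitsD cl.lb)) (1 <<< (bitsD cl.ls))) := (rfl)

theorem celC_eq (fd : FD) (ps pb : (LD → Nat → Nat) → Nat → Nat) (cl : Cl) (m : Tr) (s i : Nat) (l : List Nat) :
    celC fd ps pb cl m s i l = (cel1 fd (xm fd ps cl.ls m) (xm fd pb cl.lb m) cl m (gr (((s >>>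
      (80 * i)) % 1208925819614629174706176) % 1024)) (gr ((((s >>> (80 * i)) %
      1208925819614629174706176) >>> 10) % 1024)) (gr ((((s >>> (80 * i)) %
      1208925819614629174706176) >>> 20) % 1024)) (gr ((((s >>> (80 * i)) %
      1208925819614629174706176) >>> 30) % 1024)) l) := (rfl)

theorem chkCells_eq (fd : FD) (ps pb : (LD → Nat → Nat) → Nat → Nat) (cl : Cl) (m : Tr) (s : Nat) (l : List (List Nat)) :
    chkCells fd ps pb cl m s l = (idxL (celC fd ps pb cl m s) (fin80 s) l 0) := (rfl)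

theorem rw4_eq (fd : FD) (t : Nat) :
    rw4 fd t = (cs4 t fd.r0 fd.r1 fd.r2 fd.r3) := (rfl)

theorem xk1_eq (fd : FD) (sh : Sh) (o y k : Nat) :
    xk1 fd sh o y k = ((1 - ((((ph fd o) + (pk fd sh k)) %
      6277101735386680763835789423207666416102355444464034512896) ^^^ (y %
      6277101735386680763835789423207666416102355444464034512896))) <<< k) := (rfl)

theorem xk_eq (fd : FD) (sh : Sh) (o r : Nat) (m : Tr) (j : Nat) :
    xk fd sh o r m j = (xk1 fd sh o ((phd fd m j) + r) (mget m (j + 1))) := (rfl)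

theorem eU_eq (fd : FD) (c t : Nat) :
    eU fd c t = (((((ep fd (rw4 fd t) c) + 262144) - (en fd (rw4 fd t) c)) >>> 28) + 1) := (rfl)

theorem xl_eq (fd : FD) (m : Tr) (j t : Nat) :
    xl fd m j t = (ql fd (rw4 fd t) (mget m j)) := (rfl)

theorem n1L_zero (fd : FD) (m : Tr) (f : Nat → Nat) (c s : Nat) :
    n1L fd m f c s 0 = 0 := (rfl)

theorem n1L_succ (fd : FD) (m : Tr) (f : Nat → Nat) (c s : Nat) (i : Nat) :
    n1L fd m f c s (i + 1) = (sw (Nat.ble (eU fd c ((s >>> ((15 * i) + 13)) % 4)) (xl fd m ((s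
      >>> (15 * i)) % 8192) ((s >>> ((15 * i) + 13)) % 4))) ((n1L fd m f c s i) ||| (f ((s >>>
      (15 * i)) % 8192))) 0) := (rfl)

theorem n2L_zero (fd : FD) (m nm : Tr) (f : Nat → Nat) (c s : Nat) :
    n2L fd m nm f c s 0 = 0 := (rfl)

theorem n2L_succ (fd : FD) (m nm : Tr) (f : Nat → Nat) (c s : Nat) (i : Nat) :
    n2L fd m nm f c s (i + 1) = (cs2 (((ph fd c) %
      6277101735386680763835789423207666416102355444464034512896) ^^^ (((xsd fd m ((s >>> (27 *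
      i)) % 8192)) + (phd fd nm ((s >>> ((27 * i) + 13)) % 16384))) %
      6277101735386680763835789423207666416102355444464034512896)) ((n2L fd m nm f c s i) ||| (f
      ((s >>> (27 * i)) % 8192))) 0) := (rfl)

theorem hB_eq (fd : FD) (r : Row) (s : Nat) (sh : Sh) (o rr g : Nat) :
    hB fd r s sh o rr g = ((hL fd r s sh o ((rr * 4096) - (gr g))) ^^^ (hU fd r s sh o ((rr *
      4096) + (gr g)))) := (rfl)

theorem rC_eq (fd : FD) (r : Row) (c g gm : Nat) :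
    rC fd r c g gm = ((g - (gm % 1024)) + (((ep fd r c) + 262144) - ((en fd r c) + (((gr g) * (gr
      g)) * 65536)))) := (rfl)

theorem ns2_eq (fd : FD) (nm : Tr) (sh : Sh) (o rr kz : Nat) (m : Tr) (c s nd : Nat) :
    ns2 fd nm sh o rr kz m c s nd = ((nd &&& ((xk1 fd sh o rr kz) ||| ((n1L fd m (xk fd sh o rr
      m) c (s >>> 59) ((s >>> 43) % 256)) ||| (n2L fd m nm (xk fd sh o rr m) c (s >>> (59 + (15 *
      ((s >>> 43) % 256)))) ((s >>> 51) % 256))))) ^^^ nd) := (rfl)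

theorem ns1_eq (fd : FD) (nm : Tr) (sh : Sh) (o rr gm kz : Nat) (m : Tr) (c s g0 g1 g2 g3 : Nat) :
    ns1 fd nm sh o rr gm kz m c s g0 g1 g2 g3 = (sw (sw (Nat.beq c (fd.b * 281479271743489))
      false true) (Nat.beq (((((rC fd fd.r0 c g0 gm) + (rC fd fd.r1 c g1 (gm >>> 10))) + (rC fd
      fd.r2 c g2 (gm >>> 20))) + (rC fd fd.r3 c g3 (gm >>> 30))) + (ns2 fd nm sh o rr kz m c s
      ((((hL fd fd.r0 sh.s0 sh o (rr * 4096)) ^^^ (hU fd fd.r0 sh.s0 sh o ((rr * 4096) + (gr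
      g0)))) &&& (hB fd fd.r1 sh.s1 sh o rr g1)) &&& ((hB fd fd.r2 sh.s2 sh o rr g2) &&& (hB fd
      fd.r3 sh.s3 sh o rr g3))))) 0) false) := (rfl)

theorem nsC_eq (fd : FD) (nm : Tr) (sh : Sh) (o rr gm kz : Nat) (m : Tr) (lf i s : Nat) :
    nsC fd nm sh o rr gm kz m lf i s = (sw (Nat.ble ((s % 8) + 1) 4) (Nat.ble (((ep fd (rw4 fd (s
      % 8)) ((lf >>> (64 * i)) % 18446744073709551616)) + 262144) + 1) (en fd (rw4 fd (s % 8))
      ((lf >>> (64 * i)) % 18446744073709551616))) (ns1 fd nm sh o rr gm kz m ((lf >>> (64 * i))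
      % 18446744073709551616) s ((s >>> 3) % 1024) ((s >>> 13) % 1024) ((s >>> 23) % 1024) ((s
      >>> 33) % 1024))) := (rfl)

theorem fin256_eq (i : Nat) :
    fin256 i = (Nat.ble 256 i) := (rfl)

theorem chkNS_eq (fd : FD) (nm : Tr) (sh : Sh) (o rr gm kz : Nat) (m : Tr) (lf : Nat) (l : List Nat) :
    chkNS fd nm sh o rr gm kz m lf l = (sw (Nat.beq (((((shC fd sh) + (dvG fd sh 1)) + ((sh.q -
      1) + (rr >>> 20))) + ((((gr ((gm >>> 10) % 1024)) - (rr * 4096)) + ((gr ((gm >>> 20) %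
      1024)) - (rr * 4096))) + ((gr ((gm >>> 30) % 1024)) - (rr * 4096)))) + (ct fd sh o (rr *
      4096) ((rr * 4096) - (gr ((gm >>> 10) % 1024))) ((rr * 4096) - (gr ((gm >>> 20) % 1024)))
      ((rr * 4096) - (gr ((gm >>> 30) % 1024))) ((rr * 4096) + (gr (gm % 1024))) ((rr * 4096) +
      (gr ((gm >>> 10) % 1024))) ((rr * 4096) + (gr ((gm >>> 20) % 1024))) ((rr * 4096) + (gr
      ((gm >>> 30) % 1024))))) 0) (idxL (nsC fd nm sh o rr gm kz m lf) fin256 l 0) false) := (rfl)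

theorem bl_eq (x l0 l1 l2 l3 u0 u1 u2 u3 : Nat) :
    bl x l0 l1 l2 l3 u0 u1 u2 u3 = (((((((((x % 1024) - l0) + (((x >>> 10) % 1024) - l1)) + (((x
      >>> 20) % 1024) - l2)) + (((x >>> 30) % 1024) - l3)) + (u0 - ((x >>> 40) % 1024))) + (u1 -
      ((x >>> 50) % 1024))) + (u2 - ((x >>> 60) % 1024))) + (u3 - ((x >>> 70) % 1024))) := (rfl)

theorem up_eq (fd : FD) (r : Row) (ut : Tr) (k : Nat) :
    up fd r ut k = ((qh fd r (tget ut k)) - 4096) := (rfl)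

theorem um_eq (fd : FD) (r : Row) (ut : Tr) (k : Nat) :
    um fd r ut k = (4096 - (qh fd r (tget ut k))) := (rfl)

theorem ul1_eq (a b : Nat) :
    ul1 a b = (((a + 1) - b) + (b - 1208925819614629174706176)) := (rfl)

theorem ul_eq (fd : FD) (ut : Tr) (k l0 l1 l2 l3 u0 u1 u2 u3 : Nat) :
    ul fd ut k l0 l1 l2 l3 u0 u1 u2 u3 = (ul1 (((((up fd fd.r0 ut k) * (gu u0)) + ((up fd fd.r1
      ut k) * (gu u1))) + ((up fd fd.r2 ut k) * (gu u2))) + ((up fd fd.r3 ut k) * (gu u3)))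
      (((((um fd fd.r0 ut k) * (gr l0)) + ((um fd fd.r1 ut k) * (gr l1))) + ((um fd fd.r2 ut k) *
      (gr l2))) + ((um fd fd.r3 ut k) * (gr l3)))) := (rfl)

theorem go_zero (fd : FD) (ut bt : Tr) (s l0 l1 l2 l3 u0 u1 u2 u3 : Nat) :
    go fd ut bt 0 s l0 l1 l2 l3 u0 u1 u2 u3 = 0 := (rfl)

theorem go_succ (fd : FD) (ut bt : Tr) (f : Nat) (s l0 l1 l2 l3 u0 u1 u2 u3 : Nat) :
    go fd ut bt (f + 1) s l0 l1 l2 l3 u0 u1 u2 u3 = (cs6 (s % 8) (cs2 (bl (((tget bt ((s >>> 3) %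
      16384)) >>> (80 * ((s >>> 17) % 128))) % 1208925819614629174706176) l0 l1 l2 l3 u0 u1 u2
      u3) (s >>> 24) 0) (cs2 (ul fd ut ((s >>> 3) % 256) l0 l1 l2 l3 u0 u1 u2 u3) (s >>> 11) 0)
      ((go fd ut bt f) ((go fd ut bt f) (s >>> 13) l0 l1 l2 l3 ((s >>> 3) % 1024) (u1 - (u1 - ((s
      >>> 3) % 1024))) (u2 - (u2 - ((s >>> 3) % 1024))) (u3 - (u3 - ((s >>> 3) % 1024)))) ((s >>>
      3) % 1024) l1 l2 l3 u0 u1 u2 u3) ((go fd ut bt f) ((go fd ut bt f) (s >>> 13) l0 l1 l2 l3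
      u0 ((s >>> 3) % 1024) u2 u3) (((s >>> 3) % 1024) + (l0 - ((s >>> 3) % 1024))) ((s >>> 3) %
      1024) l2 l3 u0 u1 u2 u3) ((go fd ut bt f) ((go fd ut bt f) (s >>> 13) l0 l1 l2 l3 u0 u1 ((s
      >>> 3) % 1024) u3) (((s >>> 3) % 1024) + (l0 - ((s >>> 3) % 1024))) l1 ((s >>> 3) % 1024)
      l3 u0 u1 u2 u3) ((go fd ut bt f) ((go fd ut bt f) (s >>> 13) l0 l1 l2 l3 u0 u1 u2 ((s >>>
      3) % 1024)) (((s >>> 3) % 1024) + (l0 - ((s >>> 3) % 1024))) l1 l2 ((s >>> 3) % 1024) u0 u1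
      u2 u3)) := (rfl)

theorem tr1_eq (fd : FD) (ut bt : Tr) (x s : Nat) :
    tr1 fd ut bt x s = (Nat.ble 1 (go fd ut bt 300 s (x % 1024) ((x >>> 10) % 1024) ((x >>> 20) %
      1024) ((x >>> 30) % 1024) ((x >>> 40) % 1024) ((x >>> 50) % 1024) ((x >>> 60) % 1024) ((x
      >>> 70) % 1024))) := (rfl)

theorem trC_eq (fd : FD) (ut bt : Tr) (rt i s : Nat) :
    trC fd ut bt rt i s = (tr1 fd ut bt ((rt >>> (80 * i)) % 1208925819614629174706176) s) := (rfl)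

theorem chkTrees_eq (fd : FD) (ut bt : Tr) (rt : Nat) (l : List Nat) :
    chkTrees fd ut bt rt l = (idxL (trC fd ut bt rt) (fin80 rt) l 0) := (rfl)

end Pool.Agent.Lib.MP_aed2da_nt.H
end
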