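import Mathlib
import Pool.Agent.Lib.MP_aed2da_nt.HEq

-- part Pool.Agent.Lib.MP_aed2da_nt.HBit
section

/-! Bit-level specifications of the checkers. -/

namespace Pool.Agent.Lib.MP_aed2da_nt.H

theorem sw_eq {α : Type} (c : Bool) (a b : α) : sw c a b = if c = true then a else b := by
  cases c <;> rfl

theorem sw_and {a b : Bool} : sw a b false = true ↔ a = true ∧ b = true := by
  cases a <;> simp [sw_eq]

theorem cs2_eq {α : Type} (n : ℕ) (a b : α) : cs2 n a b = if n = 0 then a else b := by
  cases n <;> rfl

theorem cs3_eq {α : Type} (n : ℕ) (a b c : α) :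
    cs3 n a b c = if n = 0 then a else if n = 1 then b else c := by
  rcases n with _ | _ | n <;> rfl

theorem cs6_eq {α : Type} (n : ℕ) (a b c d e f : α) :
    cs6 n a b c d e f = if n = 0 then a else if n = 1 then b else if n = 2 then c else
      if n = 3 then d else if n = 4 then e else f := by
  rcases n with _ | _ | _ | _ | _ | n <;> rfl

theorem fN_eq (e : ℕ) (f : ℕ → ℕ) : fN e f = f e := (rfl)

theorem cs2_bit {n a k : ℕ} (h : (cs2 n a 0).testBit k = true) : n = 0 ∧ a.testBit k = true := by
  rw [cs2_eq] at h
  split_ifs at h with h0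
  · exact ⟨h0, h⟩
  · simp at h

theorem sw_bit {c : Bool} {a k : ℕ} (h : (sw c a 0).testBit k = true) :
    c = true ∧ a.testBit k = true := by
  rw [sw_eq] at h
  split_ifs at h with h0
  · exact ⟨h0, h⟩
  · simp at h

/-- all leaves satisfy `p` -/
def AllT (p : ℕ → Prop) : Tr → Prop
  | Tr.lf n => p n
  | Tr.nd a b => AllT p a ∧ AllT p b

theorem AllT.lf {p : ℕ → Prop} {n : ℕ} (h : p n) : AllT p (Tr.lf n) := h

theorem AllT.nd {p : ℕ → Prop} {a b : Tr} (h : AllT p a) (h' : AllT p b) : AllT p (Tr.nd a b) :=
  ⟨h, h'⟩

theorem AllT.get {p : ℕ → Prop} {t : Tr} (h : AllT p t) (j : ℕ) : p (tget t j) := by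
  induction t generalizing j with
  | lf n => rw [tget_lf]; exact h
  | nd a b iha ihb =>
    rw [tget_nd, cs2_eq]
    split_ifs
    · exact iha h.1 _
    · exact ihb h.2 _

theorem allT_or {p : ℕ → Prop} (f : ℕ → ℕ) (t : Tr)
    (h : ∀ n, (∀ k, (f n).testBit k = true → (orT f t).testBit k = true) → p n) : AllT p t := by
  induction t with
  | lf n => exact h n fun k hk => by rwa [orT_lf]
  | nd a b iha ihb =>
    refine ⟨iha fun n hn => h n fun k hk => ?_, ihb fun n hn => h n fun k hk => ?_⟩ <;>
      rw [orT_nd, Nat.testBit_or, hn k hk] <;> simp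

theorem orL_bit {f : ℕ → ℕ} {l : List ℕ} {k : ℕ} (h : (orL f l).testBit k = true) :
    ∃ a, (f a).testBit k = true := by
  induction l with
  | nil => simp [orL_nil] at h
  | cons a tl ih =>
    rw [orL_cons, Nat.testBit_or, Bool.or_eq_true] at h
    exact h.elim (fun h => ⟨a, h⟩) ih

theorem idxL_spec {α : Type} {f : ℕ → α → Bool} {fin : ℕ → Bool} {l : List α} {i : ℕ}
    (h : idxL f fin l i = true) :
    ∃ n, i ≤ n ∧ fin n = true ∧ ∀ j, i ≤ j → j < n → ∃ a, f j a = true := by
  induction l generalizing i with
  | nil => exact ⟨i, le_rfl, by rwa [idxL_nil] at h, fun j h1 h2 => by omega⟩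
  | cons a tl ih =>
    rw [idxL_cons, sw_and] at h
    obtain ⟨n, h1, h2, h3⟩ := ih h.2
    refine ⟨n, by omega, h2, fun j h4 h5 => ?_⟩
    rcases h4.eq_or_lt with rfl | h4
    · exact ⟨a, h.1⟩
    · exact h3 j h4 h5

theorem shr_zero {s a b : ℕ} (h : s >>> a = 0) (hab : a ≤ b) : s >>> b = 0 := by
  obtain ⟨c, rfl⟩ := Nat.exists_eq_add_of_le hab
  rw [Nat.shiftRight_add, h, Nat.zero_shiftRight]

theorem idx80 {α : Type} {f : ℕ → α → Bool} {s : ℕ} {l : List α}
    (h : idxL f (fin80 s) l 0 = true) (j : ℕ) : s >>> (80 * j) = 0 ∨ ∃ a, f j a = true := by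
  obtain ⟨n, -, h2, h3⟩ := idxL_spec h
  rw [fin80_eq, Nat.beq_eq] at h2
  by_cases hj : j < n
  · exact Or.inr (h3 j (Nat.zero_le _) hj)
  · exact Or.inl (shr_zero h2 (by omega))

theorem gr_succ (g : ℕ) : gr g ≤ gr (g + 1) := by
  rw [gr_eq, gr_eq, Nat.shiftLeft_eq, Nat.shiftLeft_eq]
  apply Nat.sub_le_sub_right
  by_cases h : g % 32 = 31
  · rw [show (g + 1) / 32 = g / 32 + 1 by omega, show (g + 1) % 32 = 0 by omega, h, pow_succ]
    omega
  · rw [show (g + 1) / 32 = g / 32 by omega]
    exact Nat.mul_le_mul_right _ (by omega)

theorem gr_mono : Monotone gr := monotone_nat_of_le_succ gr_succ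

theorem gr_zero : gr 0 = 0 := by rw [gr_eq]; rfl

theorem ones_bit (d k : ℕ) : (ones d).testBit k = decide (k < 2 ^ d) := by
  rw [ones_eq, Nat.one_shiftLeft, Nat.one_shiftLeft, Nat.testBit_two_pow_sub_one]

theorem ones_succ (d : ℕ) : (ones d + 1).testBit (2 ^ d) = true := by
  rw [ones_eq, Nat.one_shiftLeft, Nat.one_shiftLeft, Nat.sub_add_cancel Nat.one_le_two_pow,
    Nat.testBit_two_pow_self]

theorem shr_bit (x j : ℕ) : (x >>> j) % 2 = 0 ↔ x.testBit j = false := by
  rw [Nat.testBit_eq_decide_div_mod_eq, Nat.shiftRight_eq_div_pow]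
  simp only [decide_eq_false_iff_not]
  omega

theorem eq_bit {a b k j : ℕ} (h : ((1 - (a ^^^ b)) <<< k).testBit j = true) : a = b ∧ j = k := by
  by_cases hab : a ^^^ b = 0
  · rw [hab, Nat.sub_zero, Nat.one_shiftLeft, Nat.testBit_two_pow] at h
    exact ⟨Nat.xor_eq_zero_iff.mp hab, (of_decide_eq_true h).symm⟩
  · rw [show 1 - (a ^^^ b) = 0 by omega] at h
    simp at h

theorem cov_bit {a b k : ℕ} (h : a &&& b = a) (hk : a.testBit k = true) : b.testBit k = true := by
  have := congrArg (fun x => Nat.testBit x k) h
  simpa [hk] using this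

/-- both halves of a doubled mask -/
theorem dbl_bit (a b m k : ℕ) (ha : ∀ j, 2 ^ m ≤ j → a.testBit j = false) :
    (a ||| b <<< (1 <<< m)).testBit k =
      if k < 2 ^ m then a.testBit k else b.testBit (k - 2 ^ m) := by
  rw [Nat.one_shiftLeft, Nat.testBit_or, Nat.testBit_shiftLeft]
  split_ifs with h
  · simp [Nat.not_le.mpr h]
  · simp [ha k (by omega), Nat.not_lt.mp h]

section pt
variable {A : Type*} [AddCommMonoid A]

/-- the point with index `k` -/
def pt (γ : ℕ → A) (d k : ℕ) : A := ∑ t ∈ Finset.range d, if k.testBit t then γ t else 0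

theorem pt_lo (γ : ℕ → A) {m k : ℕ} (h : k < 2 ^ m) : pt γ (m + 1) k = pt γ m k := by
  simp [pt, Finset.sum_range_succ, Nat.testBit_lt_two_pow h]

theorem bit_hi {m k : ℕ} (h : 2 ^ m ≤ k) (h' : k - 2 ^ m < 2 ^ m) :
    k.testBit m = true ∧ ∀ t < m, k.testBit t = (k - 2 ^ m).testBit t := by
  obtain ⟨j, rfl⟩ := Nat.exists_eq_add_of_le h
  rw [Nat.add_sub_cancel_left] at h' ⊢
  exact ⟨by simp [Nat.testBit_two_pow_add_eq, Nat.testBit_lt_two_pow h'],
    fun t ht => Nat.testBit_two_pow_add_gt ht _⟩

theorem pt_hi (γ : ℕ → A) {m k : ℕ} (h : 2 ^ m ≤ k) (h' : k - 2 ^ m < 2 ^ m) :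
    pt γ (m + 1) k = γ m + pt γ m (k - 2 ^ m) := by
  obtain ⟨h1, h2⟩ := bit_hi h h'
  rw [pt, Finset.sum_range_succ, h1, add_comm, pt]
  congr 1
  exact Finset.sum_congr rfl fun t ht => by rw [h2 t (Finset.mem_range.mp ht)]

end pt

/-- the rounded value sliced by `vp` -/
def vv (cf nf : ℕ → ℕ) (d k : ℕ) : ℕ :=
  ∑ t ∈ Finset.range d, if k.testBit t = decide (nf t = 0) then cf t else 0

theorem carry_succ (a c j : ℕ) : (2 ^ (j + 1) ≤ a % 2 ^ (j + 1) + c % 2 ^ (j + 1)) ↔
    if c.testBit j then a.testBit j = true ∨ 2 ^ j ≤ a % 2 ^ j + c % 2 ^ j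
    else a.testBit j = true ∧ 2 ^ j ≤ a % 2 ^ j + c % 2 ^ j := by
  have h1 := Nat.mod_lt a (Nat.two_pow_pos j)
  have h2 := Nat.mod_lt c (Nat.two_pow_pos j)
  rw [Nat.mod_pow_succ, Nat.mod_pow_succ, Nat.testBit_eq_decide_div_mod_eq,
    Nat.testBit_eq_decide_div_mod_eq, pow_succ]
  rcases Nat.mod_two_eq_zero_or_one (a / 2 ^ j) with h | h <;>
    rcases Nat.mod_two_eq_zero_or_one (c / 2 ^ j) with h' | h' <;> simp [h, h'] <;> omega

theorem add_bit (a c j : ℕ) : (a + c).testBit j =
    ((a.testBit j ^^ decide (2 ^ j ≤ a % 2 ^ j + c % 2 ^ j)) ^^ c.testBit j) := by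
  simp only [Nat.testBit_eq_decide_div_mod_eq, Nat.add_div (Nat.two_pow_pos j)]
  rcases Nat.mod_two_eq_zero_or_one (a / 2 ^ j) with h | h <;>
    rcases Nat.mod_two_eq_zero_or_one (c / 2 ^ j) with h' | h' <;>
    by_cases hc : 2 ^ j ≤ a % 2 ^ j + c % 2 ^ j <;> simp [h, h', hc] <;> omega

section slice
variable {f v : ℕ → ℕ} {N : ℕ} (hf : ∀ j k, (f j).testBit k = (decide (k < N) && (v k).testBit j))
include hf

theorem cy_spec (c j k : ℕ) : (cy f c j).testBit k =
    (decide (k < N) && decide (2 ^ j ≤ v k % 2 ^ j + c % 2 ^ j)) := by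
  induction j with
  | zero => simp [cy_zero, Nat.mod_one]
  | succ j ih =>
    rw [cy_succ, cs2_eq]
    simp only [shr_bit, carry_succ (v k) c j]
    by_cases hc : c.testBit j = true <;> by_cases hk : k < N <;> simp [hf, ih, hk, hc]

theorem ad_spec {on : ℕ} (hon : ∀ k, on.testBit k = decide (k < N)) (c j k : ℕ) :
    (ad f c on j).testBit k = (decide (k < N) && (v k + c).testBit j) := by
  have h : (on * ((c >>> j) % 2)).testBit k = (decide (k < N) && c.testBit j) := by
    cases hc : c.testBit j
    · simp [(shr_bit c j).mpr hc]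
    · have : (c >>> j) % 2 = 1 := by
        have := (shr_bit c j).not.mpr (by simp [hc])
        omega
      simp [this, hon]
  rw [ad_eq, Nat.testBit_xor, Nat.testBit_xor, h, hf, cy_spec hf, add_bit]
  cases decide (k < N) <;> simp

theorem ge_spec {on : ℕ} (hon : ∀ k, on.testBit k = decide (k < N)) (j s k : ℕ) :
    (ge f on j s).testBit k = (decide (k < N) && decide (s ≤ v k % 2 ^ j)) := by
  induction j generalizing s with
  | zero => rw [ge_zero, cs2_eq]; split_ifs with h <;> simp [h, hon, Nat.mod_one]
  | succ j ih =>
    have h1 := Nat.mod_lt (v k) (Nat.two_pow_pos j)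
    rw [ge_succ, sw_eq, Nat.one_shiftLeft, Nat.mod_pow_succ]
    simp only [Nat.ble_eq]
    split_ifs with h <;> simp only [Nat.testBit_and, Nat.testBit_or, hf, ih,
      Nat.testBit_eq_decide_div_mod_eq (x := v k)] <;> cases decide (k < N) <;>
      rcases Nat.mod_two_eq_zero_or_one (v k / 2 ^ j) with h' | h' <;> simp [h'] <;> omega

end slice

theorem vp_spec (cf nf : ℕ → ℕ) (d j k : ℕ) :
    (vp cf nf d j).testBit k = (decide (k < 2 ^ d) && (vv cf nf d k).testBit j) := by
  induction d generalizing j k with
  | zero => simp [vp_zero, vv]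
  | succ m ih =>
    have ha := ad_spec ih (ones_bit m) (cf m) j
    have lo : k < 2 ^ m → vv cf nf (m + 1) k = vv cf nf m k + if nf m = 0 then 0 else cf m := by
      intro h
      rw [vv, Finset.sum_range_succ, Nat.testBit_lt_two_pow h]
      by_cases h0 : nf m = 0 <;> simp [h0, vv]
    have hi : 2 ^ m ≤ k → k - 2 ^ m < 2 ^ m → vv cf nf (m + 1) k =
        vv cf nf m (k - 2 ^ m) + if nf m = 0 then cf m else 0 := by
      intro h h'
      obtain ⟨h1, h2⟩ := bit_hi h h'
      rw [vv, Finset.sum_range_succ, h1, vv]
      congr 1
      · exact Finset.sum_congr rfl fun t ht => by rw [h2 t (Finset.mem_range.mp ht)]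
      · by_cases h0 : nf m = 0 <;> simp [h0]
    rw [vp_succ, cs2_eq]
    split_ifs with h0 <;> rw [dbl_bit _ _ _ _ fun i hi => by simp [ih, ha, Nat.not_lt.mpr hi]] <;>
      split_ifs with h
    · rw [ih, lo h]; simp [h0, h, show k < 2 ^ (m + 1) by omega]
    · rw [ha]
      by_cases h' : k - 2 ^ m < 2 ^ m
      · rw [hi (by omega) h']; simp [h0, h', show k < 2 ^ (m + 1) by omega]
      · simp [h', show ¬ k < 2 ^ (m + 1) by omega]
    · rw [ha, lo h]; simp [h0, h, show k < 2 ^ (m + 1) by omega]
    · rw [ih]
      by_cases h' : k - 2 ^ m < 2 ^ m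
      · rw [hi (by omega) h']; simp [h0, h', show k < 2 ^ (m + 1) by omega]
      · simp [h', show ¬ k < 2 ^ (m + 1) by omega]

theorem hc_spec (fd : FD) (r : Row) (s : ℕ) (sh : Sh) (t k : ℕ) :
    (hc fd r s sh t).testBit k = (decide (k < 2 ^ bits sh) &&
      decide (t ≤ vv (cv fd r s sh) (ng fd r sh) (bits sh) k / 16 % 512)) := by
  rw [hc_eq]
  refine ge_spec (v := fun k => vv (cv fd r s sh) (ng fd r sh) (bits sh) k / 16) ?_ (ones_bit _) 9 t k
  intro j k
  rw [pl_eq, vp_spec, show 16 = 2 ^ 4 by norm_num, Nat.testBit_div_two_pow]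

end Pool.Agent.Lib.MP_aed2da_nt.H
end

-- part Pool.Agent.Lib.MP_aed2da_nt.HFld
section

/-! Constants of the six fields for the checkers. -/

namespace Pool.Agent.Lib.MP_aed2da_nt.H

def fd23 : FD :=
  ⟨nat_lit 32766, nat_lit 0,
   ⟨nat_lit 9895604649984, nat_lit 10351037278196, nat_lit 10920186377356, nat_lit 11800014652805⟩,
   ⟨nat_lit 9895604649984, nat_lit 10351037278196, nat_lit 8226943923048, nat_lit 7991194647163⟩,
   ⟨nat_lit 9895604649984, nat_lit 7241148766220, nat_lit 6671999667060, nat_lit 11800014652805⟩,
   ⟨nat_lit 9895604649984, nat_lit 7241148766220, nat_lit 9365242121368, nat_lit 7991194647163⟩,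
   ⟨nat_lit 8796093022212, nat_lit 8796093022208, nat_lit 8796093022208, nat_lit 8796093022212⟩,
   ⟨nat_lit 8796093022208, nat_lit 8796093022216, nat_lit 8796093022212, nat_lit 8796093022208⟩,
   ⟨nat_lit 8796093022208, nat_lit 8796093022212, nat_lit 8796093022216, nat_lit 8796093022208⟩,
   ⟨nat_lit 8796093022212, nat_lit 8796093022208, nat_lit 8796093022208, nat_lit 8796093022224⟩,
   ⟨nat_lit 8796093022212, nat_lit 8796093022208, nat_lit 8796093022208, nat_lit 8796093022212⟩,
   ⟨nat_lit 8796093022216, nat_lit 8796093022208, nat_lit 8796093022208, nat_lit 8796093022216⟩,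
   ⟨nat_lit 8796093022216, nat_lit 8796093022208, nat_lit 8796093022208, nat_lit 8796093022228⟩,
   ⟨nat_lit 8796093022224, nat_lit 8796093022208, nat_lit 8796093022208, nat_lit 8796093022248⟩,
   ⟨nat_lit 4398046511107, nat_lit 19342813113851658981343236, nat_lit 38685626227703317962686473, nat_lit 4398046511106⟩,
   ⟨nat_lit 8796093022213, nat_lit 19342813113851658981343236, nat_lit 38685626227703317962686472, nat_lit 4398046511106, nat_lit 4398046511106, nat_lit 4398046511106, nat_lit 19342813113851658981343236, nat_lit 4398046511107, nat_lit 38685626227703317962686472, nat_lit 8796093022212⟩,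
   ⟨nat_lit 1, nat_lit 562949953421312, nat_lit 158456325028528675187087900672, nat_lit 44601490397061246283071436545296723011960832, nat_lit 2, nat_lit 44601490397061246283071436545296723011960832, nat_lit 316912650057057350374175801344, nat_lit 22300745198530623141535718272648361505980417, nat_lit 316912650057057913324129222656, nat_lit 44601490397061246283071436545296723011960834⟩,
   ⟨nat_lit 6277101733925268329485675435516601841470146219958169698308, nat_lit 6277101733925268329485670243536655956699575039836016214024, nat_lit 6277101732463855895135556255845591382085811433503954239492, nat_lit 6277101731002443460785442268154526807472047827171892133896⟩,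
   nat_lit 167596239383705677403021336773078605319756570762149912,
   nat_lit 6277101734655974546660732429362134128786250832211102105602⟩

def l23_0 : LD :=
  ⟨nat_lit 2, nat_lit 1, nat_lit 2, nat_lit 1, nat_lit 1⟩

def l23_1 : LD :=
  ⟨nat_lit 3, nat_lit 3, nat_lit 78, nat_lit 4398046511106, nat_lit 19342813113851658981343236⟩

noncomputable def pr23 (g : LD → Nat → Nat) (r : Nat) : Nat :=
  @Nat.rec (fun _ => Nat) (nat_lit 0) (fun k0 _ =>
  @Nat.rec (fun _ => Nat) (nat_lit 0) (fun k1 _ =>
  (Nat.land (g l23_0 k0) (g l23_1 k1)))
  (Nat.succ (Nat.add (Nat.mod (Nat.div r (nat_lit 4398046511106)) (nat_lit 3)) (Nat.shiftLeft (Nat.mod (Nat.div r (nat_lit 19342813113851658981343236)) (nat_lit 3)) (nat_lit 10)))))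
  (Nat.succ (Nat.mod (Nat.div r (nat_lit 1)) (nat_lit 2)))

noncomputable def ps23 (g : LD → Nat → Nat) (r : Nat) : Nat :=
  @Nat.rec (fun _ => Nat) (nat_lit 0) (fun k0 _ =>
  (g l23_0 k0))
  (Nat.succ (Nat.mod (Nat.div r (nat_lit 1)) (nat_lit 2)))

noncomputable def pb23 (g : LD → Nat → Nat) (r : Nat) : Nat :=
  @Nat.rec (fun _ => Nat) (nat_lit 0) (fun k1 _ =>
  (g l23_1 k1))
  (Nat.succ (Nat.add (Nat.mod (Nat.div r (nat_lit 4398046511106)) (nat_lit 3)) (Nat.shiftLeft (Nat.mod (Nat.div r (nat_lit 19342813113851658981343236)) (nat_lit 3)) (nat_lit 10))))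

def cl23 : Cl :=
  ⟨(Dm.cons (nat_lit 1) (nat_lit 9222949822242127870) Dm.nil),
   (Dm.cons (nat_lit 2) (nat_lit 9222949826537095166) (Dm.cons (nat_lit 2) (nat_lit 9223231292923871230) Dm.nil)),
   nat_lit 3⟩

def fd35 : FD :=
  ⟨nat_lit 32736, nat_lit 0,
   ⟨nat_lit 9895604649984, nat_lit 10575140206975, nat_lit 10700503025029, nat_lit 11877493135287⟩,
   ⟨nat_lit 9895604649984, nat_lit 10575140206975, nat_lit 6891683019387, nat_lit 5714692909129⟩,
   ⟨nat_lit 9895604649984, nat_lit 8116557465217, nat_lit 10700503025029, nat_lit 7619102911949⟩,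
   ⟨nat_lit 9895604649984, nat_lit 8116557465217, nat_lit 6891683019387, nat_lit 9973083132467⟩,
   ⟨nat_lit 8796093022212, nat_lit 8796093022210, nat_lit 8796093022208, nat_lit 8796093022208⟩,
   ⟨nat_lit 8796093022210, nat_lit 8796093022214, nat_lit 8796093022208, nat_lit 8796093022208⟩,
   ⟨nat_lit 8796093022208, nat_lit 8796093022208, nat_lit 8796093022220, nat_lit 8796093022214⟩,
   ⟨nat_lit 8796093022208, nat_lit 8796093022208, nat_lit 8796093022214, nat_lit 8796093022226⟩,
   ⟨nat_lit 8796093022212, nat_lit 8796093022210, nat_lit 8796093022208, nat_lit 8796093022208⟩,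
   ⟨nat_lit 8796093022214, nat_lit 8796093022216, nat_lit 8796093022208, nat_lit 8796093022208⟩,
   ⟨nat_lit 8796093022220, nat_lit 8796093022214, nat_lit 8796093022208, nat_lit 8796093022208⟩,
   ⟨nat_lit 8796093022226, nat_lit 8796093022232, nat_lit 8796093022208, nat_lit 8796093022208⟩,
   ⟨nat_lit 31828687133374442524217443427563090375469212343082711059908995297625469289992930633833141, nat_lit 254629497066995540193739540838486493253493872680671532166019940437947799348456631281111286, nat_lit 190972122800239418139726716175469224004063196015082897787396810412556525445185657120652753, nat_lit 127314748533519481113603603588971201374499748147287063879124337572409619327242458427084878⟩,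
   ⟨nat_lit 318286871333744425242174434275630903754692123430827110599089952821512187984893909836894953, nat_lit 190972122800246655145304655628864869940120404510503670392162888786555625778215813484430664, nat_lit 318286871333679292191972934766447039515923421040106793450575501468571857279676646955117072, nat_lit 95486061400159512600542058814254092117434697956882748193379046744823506970721618390498272, nat_lit 63657374266748885048434893437144410501198250750155833644845213880701703838965737350572887, nat_lit 95486061400159512600542058814254092117434697956882748193379046744823506970721618390498272, nat_lit 63657374266799544087480504166509638239469641700626774277584373980819674012098870931882192, nat_lit 254629497066995540193739547420504723003753698744661688479271962226261249404908048569228673, nat_lit 222800809933621097669522107283950747503414399433574098111284844758324870791275727282350512, nat_lit 190972122800246655145304662210883099690380230574493826705414910574869075834676026865570383⟩,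
   ⟨nat_lit 1, nat_lit 562949953421312, nat_lit 158456325028528675187087900672, nat_lit 44601490397061246283071436545296723011960832, nat_lit 281474976710657, nat_lit 44601490397061246283071436545296723011960832, nat_lit 44601490397061404739396465073971910099861504, nat_lit 3, nat_lit 1688849860263936, nat_lit 844424930131971⟩,
   ⟨nat_lit 6277101733926606374197587277658783735422382265759768182848, nat_lit 6277101732466531984559390319336157188657120011565018316864, nat_lit 6277101733926606374197587277658783735385524806409367912640, nat_lit 6277101732466531984559390319336157188583405092864217907392⟩,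
   nat_lit 143390985657588386501025949506196677793387109498757120,
   nat_lit 6277101734656643569016688350433225075762368855111901347872⟩

def l35_0 : LD :=
  ⟨nat_lit 2, nat_lit 2, nat_lit 14, nat_lit 1, nat_lit 4398046511166⟩

def l35_1 : LD :=
  ⟨nat_lit 3, nat_lit 3, nat_lit 278, nat_lit 19342813114379424562679556, nat_lit 85070591733832379105067506554233922296⟩

def l35_2 : LD :=
  ⟨nat_lit 11, nat_lit 1, nat_lit 1477, nat_lit 374144419177808653809687624551759340319770740357136, nat_lit 1⟩

def l35_3 : LD :=
  ⟨nat_lit 11, nat_lit 1, nat_lit 1477, nat_lit 1645504557437190812096819751692151251280621379440670821651780576, nat_lit 1⟩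

def l35_4 : LD :=
  ⟨nat_lit 11, nat_lit 1, nat_lit 1477, nat_lit 7237005577944389909318248377933624235559918247473632587652268175608565911616, nat_lit 1⟩

def l35_5 : LD :=
  ⟨nat_lit 11, nat_lit 1, nat_lit 1477, nat_lit 31828687133367205518639497392149214689526322202849590795700582740521865126447305113104256, nat_lit 1⟩

noncomputable def pr35 (g : LD → Nat → Nat) (r : Nat) : Nat :=
  @Nat.rec (fun _ => Nat) (nat_lit 0) (fun k0 _ =>
  @Nat.rec (fun _ => Nat) (nat_lit 0) (fun k1 _ =>
  @Nat.rec (fun _ => Nat) (nat_lit 0) (fun k2 _ =>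
  @Nat.rec (fun _ => Nat) (nat_lit 0) (fun k3 _ =>
  @Nat.rec (fun _ => Nat) (nat_lit 0) (fun k4 _ =>
  @Nat.rec (fun _ => Nat) (nat_lit 0) (fun k5 _ =>
  (Nat.land (g l35_0 k0) (Nat.land (g l35_1 k1) (Nat.lor (g l35_2 k2) (Nat.lor (g l35_3 k3) (Nat.lor (g l35_4 k4) (g l35_5 k5)))))))
  (Nat.succ (Nat.mod (Nat.div r (nat_lit 31828687133367205518639497392149214689526322202849590795700582740521865126447305113104256)) (nat_lit 11))))
  (Nat.succ (Nat.mod (Nat.div r (nat_lit 7237005577944389909318248377933624235559918247473632587652268175608565911616)) (nat_lit 11))))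
  (Nat.succ (Nat.mod (Nat.div r (nat_lit 1645504557437190812096819751692151251280621379440670821651780576)) (nat_lit 11))))
  (Nat.succ (Nat.mod (Nat.div r (nat_lit 374144419177808653809687624551759340319770740357136)) (nat_lit 11))))
  (Nat.succ (Nat.add (Nat.mod (Nat.div r (nat_lit 19342813114379424562679556)) (nat_lit 3)) (Nat.shiftLeft (Nat.mod (Nat.div r (nat_lit 85070591733832379105067506554233922296)) (nat_lit 3)) (nat_lit 10)))))
  (Nat.succ (Nat.add (Nat.mod (Nat.div r (nat_lit 1)) (nat_lit 2)) (Nat.shiftLeft (Nat.mod (Nat.div r (nat_lit 4398046511166)) (nat_lit 2)) (nat_lit 10))))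

noncomputable def ps35 (g : LD → Nat → Nat) (r : Nat) : Nat :=
  @Nat.rec (fun _ => Nat) (nat_lit 0) (fun k0 _ =>
  @Nat.rec (fun _ => Nat) (nat_lit 0) (fun k1 _ =>
  (Nat.land (g l35_0 k0) (g l35_1 k1)))
  (Nat.succ (Nat.add (Nat.mod (Nat.div r (nat_lit 19342813114379424562679556)) (nat_lit 3)) (Nat.shiftLeft (Nat.mod (Nat.div r (nat_lit 85070591733832379105067506554233922296)) (nat_lit 3)) (nat_lit 10)))))
  (Nat.succ (Nat.add (Nat.mod (Nat.div r (nat_lit 1)) (nat_lit 2)) (Nat.shiftLeft (Nat.mod (Nat.div r (nat_lit 4398046511166)) (nat_lit 2)) (nat_lit 10))))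

noncomputable def pb35 (g : LD → Nat → Nat) (r : Nat) : Nat :=
  @Nat.rec (fun _ => Nat) (nat_lit 0) (fun k2 _ =>
  @Nat.rec (fun _ => Nat) (nat_lit 0) (fun k3 _ =>
  @Nat.rec (fun _ => Nat) (nat_lit 0) (fun k4 _ =>
  (Nat.lor (g l35_2 k2) (Nat.lor (g l35_3 k3) (g l35_4 k4))))
  (Nat.succ (Nat.mod (Nat.div r (nat_lit 7237005577944389909318248377933624235559918247473632587652268175608565911616)) (nat_lit 11))))
  (Nat.succ (Nat.mod (Nat.div r (nat_lit 1645504557437190812096819751692151251280621379440670821651780576)) (nat_lit 11))))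
  (Nat.succ (Nat.mod (Nat.div r (nat_lit 374144419177808653809687624551759340319770740357136)) (nat_lit 11)))

def cl35 : Cl :=
  ⟨(Dm.cons (nat_lit 2) (nat_lit 9214505439795118048) (Dm.cons (nat_lit 2) (nat_lit 9214505439794855908) (Dm.cons (nat_lit 1) (nat_lit 9215349864724987872) (Dm.cons (nat_lit 1) (nat_lit 9214505452679757792) Dm.nil)))),
   (Dm.cons (nat_lit 4) (nat_lit 9215912823268343776) (Dm.cons (nat_lit 4) (nat_lit 9215349864725446624) (Dm.cons (nat_lit 4) (nat_lit 9217038744650481632) Dm.nil))),
   nat_lit 537906888301807479⟩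

def fd37 : FD :=
  ⟨nat_lit 32766, nat_lit 0,
   ⟨nat_lit 9895604649984, nat_lit 11865146466980, nat_lit 11202815188978, nat_lit 15513947358569⟩,
   ⟨nat_lit 9895604649984, nat_lit 11865146466980, nat_lit 6389370855438, nat_lit 2078238685847⟩,
   ⟨nat_lit 9895604649984, nat_lit 6826551205212, nat_lit 8293780858259, nat_lit 9695878697130⟩,
   ⟨nat_lit 9895604649984, nat_lit 6826551205212, nat_lit 9298405186157, nat_lit 7896307347286⟩,
   ⟨nat_lit 8796093022212, nat_lit 8796093022210, nat_lit 8796093022208, nat_lit 8796093022208⟩,
   ⟨nat_lit 8796093022210, nat_lit 8796093022230, nat_lit 8796093022208, nat_lit 8796093022208⟩,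
   ⟨nat_lit 8796093022208, nat_lit 8796093022208, nat_lit 8796093022218, nat_lit 8796093022234⟩,
   ⟨nat_lit 8796093022208, nat_lit 8796093022208, nat_lit 8796093022234, nat_lit 8796093022284⟩,
   ⟨nat_lit 8796093022212, nat_lit 8796093022210, nat_lit 8796093022208, nat_lit 8796093022208⟩,
   ⟨nat_lit 8796093022230, nat_lit 8796093022240, nat_lit 8796093022208, nat_lit 8796093022208⟩,
   ⟨nat_lit 8796093022218, nat_lit 8796093022234, nat_lit 8796093022208, nat_lit 8796093022208⟩,
   ⟨nat_lit 8796093022284, nat_lit 8796093022414, nat_lit 8796093022208, nat_lit 8796093022208⟩,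
   ⟨nat_lit 374144419157391711793985677672623048256781824294933, nat_lit 1645504557324947486346539781922212879437221977543763989004025898, nat_lit 3291009114649894972693079478773834028523771210560814544689561675, nat_lit 3291009114650269117112236870485628014220786646722918587448688737⟩,
   ⟨nat_lit 748288838314783423587971355345246096513563648589865, nat_lit 1645504557324947486346539781922212879437221977543759590957514792, nat_lit 3291009114649894972693079478773834028523771210560810146643050568, nat_lit 3291009114650269117112236870485628014220786646722918587448688736, nat_lit 3291009114650269117112236955556219744552116578135780361785835623, nat_lit 3291009114650269117112236870485628014220786646722918587448688736, nat_lit 374144419157391711793985697015436162108440805638168, nat_lit 3291009114650269117112236955556219744552116578135780361785835622, nat_lit 748288838314783423587971355345246096513563648589864, nat_lit 1645504557324947486346539781922212879437221977543759590957514793⟩,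
   ⟨nat_lit 1, nat_lit 562949953421312, nat_lit 158456325028528675187087900672, nat_lit 44601490397061246283071436545296723011960832, nat_lit 281474976710661, nat_lit 44601490397061246283071436545296723011960832, nat_lit 44601490397062038564696579188672658451464192, nat_lit 281474976710658, nat_lit 1688849860263946, nat_lit 2251799813685263⟩,
   ⟨nat_lit 6277101733925268329485675435516601841470146219958169698308, nat_lit 6277101732463855895135545871885699612526223455085844430868, nat_lit 6277101733925268329485675435516601841414809365436761178140, nat_lit 6277101732463855895135545871885699612360212891521619066960⟩,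
   nat_lit 143653919471748015123300986142000842964621882665336964,
   nat_lit 6277101734655974546660732429362134128786250832211102105602⟩

def l37_0 : LD :=
  ⟨nat_lit 2, nat_lit 2, nat_lit 14, nat_lit 1, nat_lit 4398046511106⟩

def l37_1 : LD :=
  ⟨nat_lit 3, nat_lit 3, nat_lit 141, nat_lit 19342813113851658981343236, nat_lit 85070591730350672744526709035271979016⟩

def l37_2 : LD :=
  ⟨nat_lit 3, nat_lit 3, nat_lit 141, nat_lit 374144419157391711793985658329809934405122842951696, nat_lit 1645504557324947486346539696851621149086549233017050555685535776⟩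

noncomputable def pr37 (g : LD → Nat → Nat) (r : Nat) : Nat :=
  @Nat.rec (fun _ => Nat) (nat_lit 0) (fun k0 _ =>
  @Nat.rec (fun _ => Nat) (nat_lit 0) (fun k1 _ =>
  @Nat.rec (fun _ => Nat) (nat_lit 0) (fun k2 _ =>
  (Nat.land (g l37_0 k0) (Nat.land (g l37_1 k1) (g l37_2 k2))))
  (Nat.succ (Nat.add (Nat.mod (Nat.div r (nat_lit 374144419157391711793985658329809934405122842951696)) (nat_lit 3)) (Nat.shiftLeft (Nat.mod (Nat.div r (nat_lit 1645504557324947486346539696851621149086549233017050555685535776)) (nat_lit 3)) (nat_lit 10)))))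
  (Nat.succ (Nat.add (Nat.mod (Nat.div r (nat_lit 19342813113851658981343236)) (nat_lit 3)) (Nat.shiftLeft (Nat.mod (Nat.div r (nat_lit 85070591730350672744526709035271979016)) (nat_lit 3)) (nat_lit 10)))))
  (Nat.succ (Nat.add (Nat.mod (Nat.div r (nat_lit 1)) (nat_lit 2)) (Nat.shiftLeft (Nat.mod (Nat.div r (nat_lit 4398046511106)) (nat_lit 2)) (nat_lit 10))))

noncomputable def ps37 (g : LD → Nat → Nat) (r : Nat) : Nat :=
  @Nat.rec (fun _ => Nat) (nat_lit 0) (fun k0 _ =>
  (g l37_0 k0))
  (Nat.succ (Nat.add (Nat.mod (Nat.div r (nat_lit 1)) (nat_lit 2)) (Nat.shiftLeft (Nat.mod (Nat.div r (nat_lit 4398046511106)) (nat_lit 2)) (nat_lit 10))))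

noncomputable def pb37 (g : LD → Nat → Nat) (r : Nat) : Nat :=
  @Nat.rec (fun _ => Nat) (nat_lit 0) (fun k1 _ =>
  @Nat.rec (fun _ => Nat) (nat_lit 0) (fun k2 _ =>
  (Nat.land (g l37_1 k1) (g l37_2 k2)))
  (Nat.succ (Nat.add (Nat.mod (Nat.div r (nat_lit 374144419157391711793985658329809934405122842951696)) (nat_lit 3)) (Nat.shiftLeft (Nat.mod (Nat.div r (nat_lit 1645504557324947486346539696851621149086549233017050555685535776)) (nat_lit 3)) (nat_lit 10)))))
  (Nat.succ (Nat.add (Nat.mod (Nat.div r (nat_lit 19342813113851658981343236)) (nat_lit 3)) (Nat.shiftLeft (Nat.mod (Nat.div r (nat_lit 85070591730350672744526709035271979016)) (nat_lit 3)) (nat_lit 10))))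

def cl37 : Cl :=
  ⟨(Dm.cons (nat_lit 1) (nat_lit 9223231297218838526) (Dm.cons (nat_lit 1) (nat_lit 9223231292923871230) Dm.nil)),
   (Dm.cons (nat_lit 2) (nat_lit 9222949822242258942) (Dm.cons (nat_lit 2) (nat_lit 9223512772195549184) (Dm.cons (nat_lit 2) (nat_lit 9222949826537226238) (Dm.cons (nat_lit 2) (nat_lit 9223231301513805824) Dm.nil)))),
   nat_lit 15⟩

def fd27 : FD :=
  ⟨nat_lit 32760, nat_lit 4489,
   ⟨nat_lit 9895604649984, nat_lit 10351037278196, nat_lit 11630563052158, nat_lit 12804638980703⟩,
   ⟨nat_lit 9895604649984, nat_lit 10351037278196, nat_lit 7516567248246, nat_lit 6986570319265⟩,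
   ⟨nat_lit 9895604649984, nat_lit 7241148766220, nat_lit 5961622992258, nat_lit 12804638980703⟩,
   ⟨nat_lit 9895604649984, nat_lit 7241148766220, nat_lit 10075618796170, nat_lit 6986570319265⟩,
   ⟨nat_lit 8796093022212, nat_lit 8796093022208, nat_lit 8796093022208, nat_lit 8796093022212⟩,
   ⟨nat_lit 8796093022208, nat_lit 8796093022216, nat_lit 8796093022212, nat_lit 8796093022208⟩,
   ⟨nat_lit 8796093022208, nat_lit 8796093022212, nat_lit 8796093022224, nat_lit 8796093022208⟩,
   ⟨nat_lit 8796093022212, nat_lit 8796093022208, nat_lit 8796093022208, nat_lit 8796093022240⟩,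
   ⟨nat_lit 8796093022212, nat_lit 8796093022208, nat_lit 8796093022208, nat_lit 8796093022212⟩,
   ⟨nat_lit 8796093022216, nat_lit 8796093022208, nat_lit 8796093022208, nat_lit 8796093022216⟩,
   ⟨nat_lit 8796093022224, nat_lit 8796093022208, nat_lit 8796093022208, nat_lit 8796093022252⟩,
   ⟨nat_lit 8796093022240, nat_lit 8796093022208, nat_lit 8796093022208, nat_lit 8796093022296⟩,
   ⟨nat_lit 1645504557280050156048142783115298744988828676625607160358843607, nat_lit 7237005577115055612409504028106017064251180600570182814595133361951783363742, nat_lit 7237005577115055612409503653961597915026245612631301620512307612846001360283, nat_lit 3291009114560100312096285396089414032042334139463590543949478670⟩,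
   ⟨nat_lit 3291009114560100312096285566230597490055028605705794123898974437, nat_lit 7237005577115055612409504028106017064251180600570221500221360634261187963026, nat_lit 7237005577115055612409503653961597915026245612631320963325421249000703659924, nat_lit 3291009114560100312096285396089414032119705391918170347130765894, nat_lit 1645504557280050156048142783115298745066199929080186963540130830, nat_lit 3291009114560100312096285396089414032119705391918170347130765894, nat_lit 14474011154230111224819007307923195830052491225262641926650842467215081742274, nat_lit 1645504557280050156048142698044707016069524102515907648963043851, nat_lit 14474011154230111224819007307923195830052491225262583898211501558750974843348, nat_lit 3291009114560100312096285396089414032139048205031815297926087700⟩,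
   ⟨nat_lit 1, nat_lit 562949953421312, nat_lit 158456325028528675187087900672, nat_lit 44601490397061246283071436545296723011960832, nat_lit 2, nat_lit 44601490397061246283071436545296723011960832, nat_lit 316912650057057350374175801344, nat_lit 22300745198530623141535718272648361505980419, nat_lit 316912650057059039224036065280, nat_lit 44601490397061246283071436545296723011960838⟩,
   ⟨nat_lit 6277101733925535938428057803945038220260593429118489395216, nat_lit 6277101733925535938428052612915830285661194300118863314976, nat_lit 6277101732464391113020320993653202089800990044299236016176, nat_lit 6277101731003246287612589374390573893977670269427772948576⟩,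
   nat_lit 167534865681250762551828226841732989777527297049363200,
   nat_lit 6277101734656108351131923613576352318181474436791261954056⟩

def l27_0 : LD :=
  ⟨nat_lit 2, nat_lit 1, nat_lit 2, nat_lit 1, nat_lit 1⟩

def l27_1 : LD :=
  ⟨nat_lit 7, nat_lit 1, nat_lit 104, nat_lit 4398046511082, nat_lit 1⟩

def l27_2 : LD :=
  ⟨nat_lit 7, nat_lit 1, nat_lit 104, nat_lit 19342813113640552748810724, nat_lit 1⟩

def l27_3 : LD :=
  ⟨nat_lit 3, nat_lit 3, nat_lit 78, nat_lit 85070591728957990200336989412986443368, nat_lit 374144419149224934987938842508456598476796377404176⟩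

def l27_4 : LD :=
  ⟨nat_lit 3, nat_lit 3, nat_lit 78, nat_lit 1645504557280050156048142698044707016011495663174972796577078432, nat_lit 7237005577115055612409503653961597915026245612631262934886080309750271183424⟩

def l27_5 : LD :=
  ⟨nat_lit 7, nat_lit 1, nat_lit 105, nat_lit 4398046511082, nat_lit 1⟩

def l27_6 : LD :=
  ⟨nat_lit 7, nat_lit 1, nat_lit 105, nat_lit 19342813113640552748810724, nat_lit 1⟩

def l27_7 : LD :=
  ⟨nat_lit 3, nat_lit 3, nat_lit 79, nat_lit 85070591728957990200336989412986443368, nat_lit 374144419149224934987938842508456598476796377404176⟩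

def l27_8 : LD :=
  ⟨nat_lit 3, nat_lit 3, nat_lit 79, nat_lit 1645504557280050156048142698044707016011495663174972796577078432, nat_lit 7237005577115055612409503653961597915026245612631262934886080309750271183424⟩

noncomputable def pr27 (g : LD → Nat → Nat) (r : Nat) : Nat :=
  @Nat.rec (fun _ => Nat) (nat_lit 0) (fun k0 _ =>
  @Nat.rec (fun _ => Nat) (nat_lit 0) (fun k5 _ =>
  @Nat.rec (fun _ => Nat) (nat_lit 0) (fun k2 _ =>
  @Nat.rec (fun _ => Nat) (nat_lit 0) (fun k3 _ =>
  @Nat.rec (fun _ => Nat) (nat_lit 0) (fun k4 _ =>
  (Nat.land (g l27_0 k0) (Nat.lor (Nat.land (Nat.lor (Nat.land (g l27_5 k5) (g l27_2 k2)) (Nat.land (g l27_1 k5) (g l27_6 k2))) (Nat.land (g l27_3 k3) (g l27_4 k4))) (Nat.land (g l27_1 k5) (Nat.land (g l27_2 k2) (Nat.lor (Nat.land (g l27_7 k3) (g l27_4 k4)) (Nat.land (g l27_3 k3) (g l27_8 k4))))))))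
  (Nat.succ (Nat.add (Nat.mod (Nat.div r (nat_lit 1645504557280050156048142698044707016011495663174972796577078432)) (nat_lit 3)) (Nat.shiftLeft (Nat.mod (Nat.div r (nat_lit 7237005577115055612409503653961597915026245612631262934886080309750271183424)) (nat_lit 3)) (nat_lit 10)))))
  (Nat.succ (Nat.add (Nat.mod (Nat.div r (nat_lit 85070591728957990200336989412986443368)) (nat_lit 3)) (Nat.shiftLeft (Nat.mod (Nat.div r (nat_lit 374144419149224934987938842508456598476796377404176)) (nat_lit 3)) (nat_lit 10)))))
  (Nat.succ (Nat.mod (Nat.div r (nat_lit 19342813113640552748810724)) (nat_lit 7))))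
  (Nat.succ (Nat.mod (Nat.div r (nat_lit 4398046511082)) (nat_lit 7))))
  (Nat.succ (Nat.mod (Nat.div r (nat_lit 1)) (nat_lit 2)))

noncomputable def ps27 (g : LD → Nat → Nat) (r : Nat) : Nat :=
  @Nat.rec (fun _ => Nat) (nat_lit 0) (fun k0 _ =>
  (g l27_0 k0))
  (Nat.succ (Nat.mod (Nat.div r (nat_lit 1)) (nat_lit 2)))

noncomputable def pb27 (g : LD → Nat → Nat) (r : Nat) : Nat :=
  @Nat.rec (fun _ => Nat) (nat_lit 0) (fun k5 _ =>
  @Nat.rec (fun _ => Nat) (nat_lit 0) (fun k2 _ =>
  @Nat.rec (fun _ => Nat) (nat_lit 0) (fun k3 _ =>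
  @Nat.rec (fun _ => Nat) (nat_lit 0) (fun k4 _ =>
  (Nat.lor (Nat.land (Nat.lor (Nat.land (g l27_5 k5) (g l27_2 k2)) (Nat.land (g l27_1 k5) (g l27_6 k2))) (Nat.land (g l27_3 k3) (g l27_4 k4))) (Nat.land (g l27_1 k5) (Nat.land (g l27_2 k2) (Nat.lor (Nat.land (g l27_7 k3) (g l27_4 k4)) (Nat.land (g l27_3 k3) (g l27_8 k4)))))))
  (Nat.succ (Nat.add (Nat.mod (Nat.div r (nat_lit 1645504557280050156048142698044707016011495663174972796577078432)) (nat_lit 3)) (Nat.shiftLeft (Nat.mod (Nat.div r (nat_lit 7237005577115055612409503653961597915026245612631262934886080309750271183424)) (nat_lit 3)) (nat_lit 10)))))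
  (Nat.succ (Nat.add (Nat.mod (Nat.div r (nat_lit 85070591728957990200336989412986443368)) (nat_lit 3)) (Nat.shiftLeft (Nat.mod (Nat.div r (nat_lit 374144419149224934987938842508456598476796377404176)) (nat_lit 3)) (nat_lit 10)))))
  (Nat.succ (Nat.mod (Nat.div r (nat_lit 19342813113640552748810724)) (nat_lit 7))))
  (Nat.succ (Nat.mod (Nat.div r (nat_lit 4398046511082)) (nat_lit 7)))

def cl27 : Cl :=
  ⟨(Dm.cons (nat_lit 1) (nat_lit 9221260946611666936) Dm.nil),
   (Dm.cons (nat_lit 2) (nat_lit 9221260972381470712) (Dm.cons (nat_lit 2) (nat_lit 9225201591990648824) (Dm.cons (nat_lit 2) (nat_lit 9221261002446700536) (Dm.cons (nat_lit 2) (nat_lit 9223231267153674239) (Dm.cons (nat_lit 3) (nat_lit 9226327530552197112) (Dm.cons (nat_lit 3) (nat_lit 9226327543437099000) Dm.nil)))))),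
   nat_lit 3⟩

def fd56 : FD :=
  ⟨nat_lit 32490, nat_lit 13945,
   ⟨nat_lit 9895604649984, nat_lit 10575140206975, nat_lit 11489335476516, nat_lit 13153850853223⟩,
   ⟨nat_lit 9895604649984, nat_lit 10575140206975, nat_lit 6102850567900, nat_lit 4438335191193⟩,
   ⟨nat_lit 9895604649984, nat_lit 8116557465217, nat_lit 11489335476516, nat_lit 7131577645501⟩,
   ⟨nat_lit 9895604649984, nat_lit 8116557465217, nat_lit 6102850567900, nat_lit 10460608398915⟩,
   ⟨nat_lit 8796093022212, nat_lit 8796093022210, nat_lit 8796093022208, nat_lit 8796093022208⟩,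
   ⟨nat_lit 8796093022210, nat_lit 8796093022214, nat_lit 8796093022208, nat_lit 8796093022208⟩,
   ⟨nat_lit 8796093022208, nat_lit 8796093022208, nat_lit 8796093022232, nat_lit 8796093022220⟩,
   ⟨nat_lit 8796093022208, nat_lit 8796093022208, nat_lit 8796093022220, nat_lit 8796093022244⟩,
   ⟨nat_lit 8796093022212, nat_lit 8796093022210, nat_lit 8796093022208, nat_lit 8796093022208⟩,
   ⟨nat_lit 8796093022214, nat_lit 8796093022216, nat_lit 8796093022208, nat_lit 8796093022208⟩,
   ⟨nat_lit 8796093022232, nat_lit 8796093022220, nat_lit 8796093022208, nat_lit 8796093022208⟩,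
   ⟨nat_lit 8796093022244, nat_lit 8796093022256, nat_lit 8796093022208, nat_lit 8796093022208⟩,
   ⟨nat_lit 615656347456291069274106942761501884031847203545804193472011376479257696319639837975541871758603071688046244483101, nat_lit 3078281737281455346370535032094380978829794690580434219281174281739503657375739071639003857749058840374731544830910, nat_lit 8619188864386815113418862601062592469535272836572854542100444656173986642884121266356174473365533558943011654916100, nat_lit 8003532516930804012237785186934274472363685140263096350720327066294156828959116432301329313289284790768331474938300⟩,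
   ⟨nat_lit 11081814254213239246933924969707033912573249663824475482496204770640327824490021699245472363879457550930074327112401, nat_lit 5540907127106619623466962453024829800419568964627098226111004739395190888859766327079625901365781302921805452392400, nat_lit 6156563474562770708694554472326303961772851145117108138441478804462510632686169854963048769530048477250549015938300, nat_lit 7387876169474792911056708695837883994916971271447407002964868449881565642524720992525644285963704020065365537449400, nat_lit 8003532516931783900563389937612652933743454973244046199728705292275092684893457288594553700442321569038160415604711, nat_lit 7387876169474792911056708695837883994916971271447407002964868449881565642524720992525644285963704020065365537449400, nat_lit 1846969042370693000427015406181234852451522465671977594732195283530744619579883275737548707145721460015299239427200, nat_lit 8003532516931783900563390255899524492414013646095454515136147889366472600878929936582119842873178476671635527292400, nat_lit 9850501559300657108385710893211907209307220053022020131702246537628303771953439008653077896888410619213078314292400,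 nat_lit 1231312694912582138548214394781998261936588283653866957210517365686249647041334971388498172931874131221178029073100⟩,
   ⟨nat_lit 1, nat_lit 562949953421312, nat_lit 158456325028528675187087900672, nat_lit 44601490397061246283071436545296723011960832, nat_lit 281474976710657, nat_lit 44601490397061246283071436545296723011960832, nat_lit 44601490397061404739396465073971910099861504, nat_lit 6, nat_lit 3377699720527872, nat_lit 1688849860263942⟩,
   ⟨nat_lit 6277101733937578340835264383224675265830717841332875756076, nat_lit 6277101732488475917834744491487684292455737066687609897516, nat_lit 6277101733937578340835264383224675265739266621399583296776, nat_lit 6277101732488475917834744491487684292272834626821025303816⟩,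
   nat_lit 141244013169861008380629601674061012023136386488763000,
   nat_lit 6277101734662129552335526903216170840966536642898455134486⟩

def l56_0 : LD :=
  ⟨nat_lit 2, nat_lit 2, nat_lit 14, nat_lit 1, nat_lit 4398046511610⟩

def l56_1 : LD :=
  ⟨nat_lit 5, nat_lit 1, nat_lit 18, nat_lit 19342813118284889864792100, nat_lit 1⟩

def l56_2 : LD :=
  ⟨nat_lit 5, nat_lit 1, nat_lit 18, nat_lit 85070591759597006176021939962886281000, nat_lit 1⟩

def l56_3 : LD :=
  ⟨nat_lit 5, nat_lit 1, nat_lit 19, nat_lit 19342813118284889864792100, nat_lit 1⟩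

def l56_4 : LD :=
  ⟨nat_lit 5, nat_lit 1, nat_lit 19, nat_lit 85070591759597006176021939962886281000, nat_lit 1⟩

def l56_5 : LD :=
  ⟨nat_lit 3, nat_lit 3, nat_lit 278, nat_lit 374144419328894024751852918680596861019176222410000, nat_lit 1645504558267791422839259724886996028398103974286158007180100000⟩

def l56_6 : LD :=
  ⟨nat_lit 19, nat_lit 1, nat_lit 324876, nat_lit 7237005582328014051437284714794021184148205680447314363387708138010961000000, nat_lit 1⟩

def l56_7 : LD :=
  ⟨nat_lit 19, nat_lit 1, nat_lit 324876, nat_lit 31828687155859818861702813146590218628627457422132097320290357678331915469993757210000000, nat_lit 1⟩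

def l56_8 : LD :=
  ⟨nat_lit 19, nat_lit 1, nat_lit 324876, nat_lit 139984046514955288714878538383884758605782227197671873828116036459506859316535437525917786208100000000, nat_lit 1⟩

def l56_9 : LD :=
  ⟨nat_lit 19, nat_lit 1, nat_lit 324876, nat_lit 615656347456151085227591955644099849626407451502057250603157790889033717637955709801807808596187974526041000000000, nat_lit 1⟩

noncomputable def pr56 (g : LD → Nat → Nat) (r : Nat) : Nat :=
  @Nat.rec (fun _ => Nat) (nat_lit 0) (fun k0 _ =>
  @Nat.rec (fun _ => Nat) (nat_lit 0) (fun k5 _ =>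
  @Nat.rec (fun _ => Nat) (nat_lit 0) (fun k3 _ =>
  @Nat.rec (fun _ => Nat) (nat_lit 0) (fun k2 _ =>
  @Nat.rec (fun _ => Nat) (nat_lit 0) (fun k6 _ =>
  @Nat.rec (fun _ => Nat) (nat_lit 0) (fun k8 _ =>
  @Nat.rec (fun _ => Nat) (nat_lit 0) (fun k7 _ =>
  @Nat.rec (fun _ => Nat) (nat_lit 0) (fun k9 _ =>
  (Nat.land (g l56_0 k0) (Nat.land (g l56_5 k5) (Nat.lor (Nat.land (g l56_3 k3) (Nat.land (g l56_2 k2) (Nat.lor (g l56_6 k6) (g l56_8 k8)))) (Nat.land (g l56_1 k3) (Nat.land (g l56_4 k2) (Nat.lor (g l56_7 k7) (g l56_9 k9))))))))
  (Nat.succ (Nat.mod (Nat.div r (nat_lit 615656347456151085227591955644099849626407451502057250603157790889033717637955709801807808596187974526041000000000)) (nat_lit 19))))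
  (Nat.succ (Nat.mod (Nat.div r (nat_lit 31828687155859818861702813146590218628627457422132097320290357678331915469993757210000000)) (nat_lit 19))))
  (Nat.succ (Nat.mod (Nat.div r (nat_lit 139984046514955288714878538383884758605782227197671873828116036459506859316535437525917786208100000000)) (nat_lit 19))))
  (Nat.succ (Nat.mod (Nat.div r (nat_lit 7237005582328014051437284714794021184148205680447314363387708138010961000000)) (nat_lit 19))))
  (Nat.succ (Nat.mod (Nat.div r (nat_lit 85070591759597006176021939962886281000)) (nat_lit 5))))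
  (Nat.succ (Nat.mod (Nat.div r (nat_lit 19342813118284889864792100)) (nat_lit 5))))
  (Nat.succ (Nat.add (Nat.mod (Nat.div r (nat_lit 374144419328894024751852918680596861019176222410000)) (nat_lit 3)) (Nat.shiftLeft (Nat.mod (Nat.div r (nat_lit 1645504558267791422839259724886996028398103974286158007180100000)) (nat_lit 3)) (nat_lit 10)))))
  (Nat.succ (Nat.add (Nat.mod (Nat.div r (nat_lit 1)) (nat_lit 2)) (Nat.shiftLeft (Nat.mod (Nat.div r (nat_lit 4398046511610)) (nat_lit 2)) (nat_lit 10))))

noncomputable def ps56 (g : LD → Nat → Nat) (r : Nat) : Nat :=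
  @Nat.rec (fun _ => Nat) (nat_lit 0) (fun k0 _ =>
  @Nat.rec (fun _ => Nat) (nat_lit 0) (fun k5 _ =>
  (Nat.land (g l56_0 k0) (g l56_5 k5)))
  (Nat.succ (Nat.add (Nat.mod (Nat.div r (nat_lit 374144419328894024751852918680596861019176222410000)) (nat_lit 3)) (Nat.shiftLeft (Nat.mod (Nat.div r (nat_lit 1645504558267791422839259724886996028398103974286158007180100000)) (nat_lit 3)) (nat_lit 10)))))
  (Nat.succ (Nat.add (Nat.mod (Nat.div r (nat_lit 1)) (nat_lit 2)) (Nat.shiftLeft (Nat.mod (Nat.div r (nat_lit 4398046511610)) (nat_lit 2)) (nat_lit 10))))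

noncomputable def pb56 (g : LD → Nat → Nat) (r : Nat) : Nat :=
  @Nat.rec (fun _ => Nat) (nat_lit 0) (fun k3 _ =>
  @Nat.rec (fun _ => Nat) (nat_lit 0) (fun k2 _ =>
  @Nat.rec (fun _ => Nat) (nat_lit 0) (fun k6 _ =>
  @Nat.rec (fun _ => Nat) (nat_lit 0) (fun k7 _ =>
  (Nat.lor (Nat.land (g l56_3 k3) (Nat.land (g l56_2 k2) (g l56_6 k6))) (Nat.land (g l56_1 k3) (Nat.land (g l56_4 k2) (g l56_7 k7)))))
  (Nat.succ (Nat.mod (Nat.div r (nat_lit 31828687155859818861702813146590218628627457422132097320290357678331915469993757210000000)) (nat_lit 19))))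
  (Nat.succ (Nat.mod (Nat.div r (nat_lit 7237005582328014051437284714794021184148205680447314363387708138010961000000)) (nat_lit 19))))
  (Nat.succ (Nat.mod (Nat.div r (nat_lit 85070591759597006176021939962886281000)) (nat_lit 5))))
  (Nat.succ (Nat.mod (Nat.div r (nat_lit 19342813118284889864792100)) (nat_lit 5)))

def cl56 : Cl :=
  ⟨(Dm.cons (nat_lit 2) (nat_lit 9145261538946219754) (Dm.cons (nat_lit 2) (nat_lit 9145261538945957614) (Dm.cons (nat_lit 1) (nat_lit 9145261538946154218) (Dm.cons (nat_lit 1) (nat_lit 9145261538945957613) Dm.nil)))),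
   (Dm.cons (nat_lit 5) (nat_lit 9148076288716013290) (Dm.cons (nat_lit 5) (nat_lit 9169186911969312490) (Dm.cons (nat_lit 3) (nat_lit 9150609563508440810) (Dm.cons (nat_lit 3) (nat_lit 9166653637180948202) Dm.nil)))),
   nat_lit 537906888301807479⟩

def fd57 : FD :=
  ⟨nat_lit 33060, nat_lit 35449,
   ⟨nat_lit 9895604649984, nat_lit 10575140206975, nat_lit 11705127352927, nat_lit 13503009443752⟩,
   ⟨nat_lit 9895604649984, nat_lit 10575140206975, nat_lit 5887058691489, nat_lit 4089176600664⟩,
   ⟨nat_lit 9895604649984, nat_lit 8116557465217, nat_lit 11705127352927, nat_lit 6998210931383⟩,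
   ⟨nat_lit 9895604649984, nat_lit 8116557465217, nat_lit 5887058691489, nat_lit 10593975113033⟩,
   ⟨nat_lit 8796093022212, nat_lit 8796093022210, nat_lit 8796093022208, nat_lit 8796093022208⟩,
   ⟨nat_lit 8796093022210, nat_lit 8796093022214, nat_lit 8796093022208, nat_lit 8796093022208⟩,
   ⟨nat_lit 8796093022208, nat_lit 8796093022208, nat_lit 8796093022236, nat_lit 8796093022222⟩,
   ⟨nat_lit 8796093022208, nat_lit 8796093022208, nat_lit 8796093022222, nat_lit 8796093022250⟩,
   ⟨nat_lit 8796093022212, nat_lit 8796093022210, nat_lit 8796093022208, nat_lit 8796093022208⟩,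
   ⟨nat_lit 8796093022214, nat_lit 8796093022216, nat_lit 8796093022208, nat_lit 8796093022208⟩,
   ⟨nat_lit 8796093022236, nat_lit 8796093022222, nat_lit 8796093022208, nat_lit 8796093022208⟩,
   ⟨nat_lit 8796093022250, nat_lit 8796093022264, nat_lit 8796093022208, nat_lit 8796093022208⟩,
   ⟨nat_lit 230344387090893673631614740959100791791934317799675009264752116615640859402885312494192916853855604507255636080593143815804893593501987487027703939951490434704509813, nat_lit 3455165806363405104474220995301254933823705502552024429949869185927139487275112153723386535814849627606332558247001275345582418688725734701235129402680978971372695902, nat_lit 1842755096727306511802607103722551698485502981194219699200501647065181720603289429056034257701993951757364662100715442492279581424317959004982690680311761012096918981, nat_lit 1382066322545728661538963142236574489901210040257308766443604368716039108543845573947743265687878841185509224819892903014059794836240188728208158178121247016174984510⟩,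
   ⟨nat_lit 4146198967636086125369065337263814252254817720394156323329021279410137033557817112445878698607764882653649306121184250878401860397863195383793288396926325516436774505, nat_lit 1842755096727149389052917939581332028641005468841715131836579565322041482687497749064932381912437564858163289891533406296612254999830761469386890279167245169257420088, nat_lit 691033161273361886143497319092865620025926188185208926396184312292403154287536340866208648801941819531732322987659064069155721955120705556533690822144663784514691844, nat_lit 1612410709636517586670785242064820037194512070059030791909978868990688378405501019154266035256758488809658208182323017382300855877319730760314147945610350808226844952, nat_lit 691033161272681020894844341962559318431112217842131893379152093482997546282704958722492162792915255052253261552825071544845697436498274461035864134143206506258316415, nat_lit 1612410709636517586670785242064820037194512070059030791909978868990688378405501019154266035256758488809658208182323017382300855877319730760314147945610350808226844952, nat_lit 2303443870908884362066251112842631684270258145864440580136850185719972658676689702210137575587992866977926223804048312012276183757884980989868800333070174430479745948,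 nat_lit 2764132645090724083579376891509209501503211813596106267740508579716291877140505237480721197484631255610115489637627632850089868719834432911150898230353909930272654825, nat_lit 4146198967636086125369065194361505920588446603062426730183180087374554727721263318238292716211199939585917507414222328128006859044923587736667096189224798235666978488, nat_lit 460688774181787347263229636729035609555770679375378046672503470776554408481973655972932260393693668166957406469907693084443806082935772702698332885652777080763024255⟩,
   ⟨nat_lit 1, nat_lit 562949953421312, nat_lit 158456325028528675187087900672, nat_lit 44601490397061246283071436545296723011960832, nat_lit 281474976710657, nat_lit 44601490397061246283071436545296723011960832, nat_lit 44601490397061404739396465073971910099861504, nat_lit 7, nat_lit 3940649673949184, nat_lit 1970324836974599⟩,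
   ⟨nat_lit 6277101733912155491308939382523219280738232971102504549816, nat_lit 6277101732437630218782094580404877588532112182866970869176, nat_lit 6277101733912155491308939382523219280626566218341852704776, nat_lit 6277101732437630218782094580404877588308778677345667575816⟩,
   nat_lit 146243416529212813848088020940147685467131823078560000,
   nat_lit 6277101734649418127572364402865442848420294207783269531356⟩

def l57_0 : LD :=
  ⟨nat_lit 2, nat_lit 2, nat_lit 14, nat_lit 1, nat_lit 4398046512294⟩

def l57_1 : LD :=
  ⟨nat_lit 3, nat_lit 3, nat_lit 278, nat_lit 19342813124301417493142436, nat_lit 85070591799288458700915491311967108184⟩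

def l57_2 : LD :=
  ⟨nat_lit 3, nat_lit 3, nat_lit 278, nat_lit 374144419561647163860408234629432398453086184014096, nat_lit 1645504559547365337342085157383012793537443012383792409733296224⟩

def l57_3 : LD :=
  ⟨nat_lit 29, nat_lit 1, nat_lit 332473074, nat_lit 7237005589081164761193986386413903500939333143313319258600433276687559777856, nat_lit 1⟩

def l57_4 : LD :=
  ⟨nat_lit 29, nat_lit 1, nat_lit 332473074, nat_lit 31828687190510601606056387221934184478216510483831303832564177436252980578137218212961664, nat_lit 1⟩

def l57_5 : LD :=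
  ⟨nat_lit 29, nat_lit 1, nat_lit 332473074, nat_lit 139984046689121864926548008768929587781233314150821352299467515916435391747538512308871261699526697216, nat_lit 1⟩

def l57_6 : LD :=
  ⟨nat_lit 29, nat_lit 1, nat_lit 332473074, nat_lit 615656348317892876109741434455141302092916295166902684776137765409626607828047343819476641793450733681369759573504, nat_lit 1⟩

def l57_7 : LD :=
  ⟨nat_lit 19, nat_lit 1, nat_lit 324877, nat_lit 2707685255491168797369556950603574805866700354682076201402197589315467056810965738957559921188085556398463706176850584132658176, nat_lit 1⟩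

def l57_8 : LD :=
  ⟨nat_lit 19, nat_lit 1, nat_lit 324877, nat_lit 11908525694302823241188818348014058213150569624783478010771675020035944448117121026276222854665777194105139738690838896305793907980083615744, nat_lit 1⟩

def l57_9 : LD :=
  ⟨nat_lit 19, nat_lit 1, nat_lit 324877, nat_lit 52374249896392016581788047301794343445627948383758391690189406285433488050557836764842435856222713833574995284088746537426733217896559120637392067956736, nat_lit 1⟩

def l57_10 : LD :=
  ⟨nat_lit 19, nat_lit 1, nat_lit 324877, nat_lit 230344387090841299381718337033993309439101597011919248848592270089917313976667019124744643255907716212658134366674009420903812966527957383382657782720982999684112384, nat_lit 1⟩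

noncomputable def pr57 (g : LD → Nat → Nat) (r : Nat) : Nat :=
  @Nat.rec (fun _ => Nat) (nat_lit 0) (fun k0 _ =>
  @Nat.rec (fun _ => Nat) (nat_lit 0) (fun k1 _ =>
  @Nat.rec (fun _ => Nat) (nat_lit 0) (fun k2 _ =>
  @Nat.rec (fun _ => Nat) (nat_lit 0) (fun k3 _ =>
  @Nat.rec (fun _ => Nat) (nat_lit 0) (fun k4 _ =>
  @Nat.rec (fun _ => Nat) (nat_lit 0) (fun k5 _ =>
  @Nat.rec (fun _ => Nat) (nat_lit 0) (fun k6 _ =>
  @Nat.rec (fun _ => Nat) (nat_lit 0) (fun k7 _ =>
  @Nat.rec (fun _ => Nat) (nat_lit 0) (fun k8 _ =>
  @Nat.rec (fun _ => Nat) (nat_lit 0) (fun k9 _ =>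
  @Nat.rec (fun _ => Nat) (nat_lit 0) (fun k10 _ =>
  (Nat.land (g l57_0 k0) (Nat.land (g l57_1 k1) (Nat.land (g l57_2 k2) (Nat.land (Nat.lor (Nat.land (g l57_3 k3) (g l57_4 k4)) (Nat.land (g l57_5 k5) (g l57_6 k6))) (Nat.lor (g l57_7 k7) (Nat.lor (g l57_8 k8) (Nat.lor (g l57_9 k9) (g l57_10 k10)))))))))
  (Nat.succ (Nat.mod (Nat.div r (nat_lit 230344387090841299381718337033993309439101597011919248848592270089917313976667019124744643255907716212658134366674009420903812966527957383382657782720982999684112384)) (nat_lit 19))))
  (Nat.succ (Nat.mod (Nat.div r (nat_lit 52374249896392016581788047301794343445627948383758391690189406285433488050557836764842435856222713833574995284088746537426733217896559120637392067956736)) (nat_lit 19))))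
  (Nat.succ (Nat.mod (Nat.div r (nat_lit 11908525694302823241188818348014058213150569624783478010771675020035944448117121026276222854665777194105139738690838896305793907980083615744)) (nat_lit 19))))
  (Nat.succ (Nat.mod (Nat.div r (nat_lit 2707685255491168797369556950603574805866700354682076201402197589315467056810965738957559921188085556398463706176850584132658176)) (nat_lit 19))))
  (Nat.succ (Nat.mod (Nat.div r (nat_lit 615656348317892876109741434455141302092916295166902684776137765409626607828047343819476641793450733681369759573504)) (nat_lit 29))))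
  (Nat.succ (Nat.mod (Nat.div r (nat_lit 139984046689121864926548008768929587781233314150821352299467515916435391747538512308871261699526697216)) (nat_lit 29))))
  (Nat.succ (Nat.mod (Nat.div r (nat_lit 31828687190510601606056387221934184478216510483831303832564177436252980578137218212961664)) (nat_lit 29))))
  (Nat.succ (Nat.mod (Nat.div r (nat_lit 7237005589081164761193986386413903500939333143313319258600433276687559777856)) (nat_lit 29))))
  (Nat.succ (Nat.add (Nat.mod (Nat.div r (nat_lit 374144419561647163860408234629432398453086184014096)) (nat_lit 3)) (Nat.shiftLeft (Nat.mod (Nat.div r (nat_lit 1645504559547365337342085157383012793537443012383792409733296224)) (nat_lit 3)) (nat_lit 10)))))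
  (Nat.succ (Nat.add (Nat.mod (Nat.div r (nat_lit 19342813124301417493142436)) (nat_lit 3)) (Nat.shiftLeft (Nat.mod (Nat.div r (nat_lit 85070591799288458700915491311967108184)) (nat_lit 3)) (nat_lit 10)))))
  (Nat.succ (Nat.add (Nat.mod (Nat.div r (nat_lit 1)) (nat_lit 2)) (Nat.shiftLeft (Nat.mod (Nat.div r (nat_lit 4398046512294)) (nat_lit 2)) (nat_lit 10))))

noncomputable def ps57 (g : LD → Nat → Nat) (r : Nat) : Nat :=
  @Nat.rec (fun _ => Nat) (nat_lit 0) (fun k1 _ =>
  @Nat.rec (fun _ => Nat) (nat_lit 0) (fun k2 _ =>
  (Nat.land (g l57_1 k1) (g l57_2 k2)))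
  (Nat.succ (Nat.add (Nat.mod (Nat.div r (nat_lit 374144419561647163860408234629432398453086184014096)) (nat_lit 3)) (Nat.shiftLeft (Nat.mod (Nat.div r (nat_lit 1645504559547365337342085157383012793537443012383792409733296224)) (nat_lit 3)) (nat_lit 10)))))
  (Nat.succ (Nat.add (Nat.mod (Nat.div r (nat_lit 19342813124301417493142436)) (nat_lit 3)) (Nat.shiftLeft (Nat.mod (Nat.div r (nat_lit 85070591799288458700915491311967108184)) (nat_lit 3)) (nat_lit 10))))

noncomputable def pb57 (g : LD → Nat → Nat) (r : Nat) : Nat :=
  @Nat.rec (fun _ => Nat) (nat_lit 0) (fun k0 _ =>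
  @Nat.rec (fun _ => Nat) (nat_lit 0) (fun k3 _ =>
  @Nat.rec (fun _ => Nat) (nat_lit 0) (fun k4 _ =>
  @Nat.rec (fun _ => Nat) (nat_lit 0) (fun k7 _ =>
  (Nat.land (g l57_0 k0) (Nat.land (Nat.land (g l57_3 k3) (g l57_4 k4)) (g l57_7 k7))))
  (Nat.succ (Nat.mod (Nat.div r (nat_lit 2707685255491168797369556950603574805866700354682076201402197589315467056810965738957559921188085556398463706176850584132658176)) (nat_lit 19))))
  (Nat.succ (Nat.mod (Nat.div r (nat_lit 31828687190510601606056387221934184478216510483831303832564177436252980578137218212961664)) (nat_lit 29))))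
  (Nat.succ (Nat.mod (Nat.div r (nat_lit 7237005589081164761193986386413903500939333143313319258600433276687559777856)) (nat_lit 29))))
  (Nat.succ (Nat.add (Nat.mod (Nat.div r (nat_lit 1)) (nat_lit 2)) (Nat.shiftLeft (Nat.mod (Nat.div r (nat_lit 4398046512294)) (nat_lit 2)) (nat_lit 10))))

def cl57 : Cl :=
  ⟨(Dm.cons (nat_lit 2) (nat_lit 9305986198816588068) (Dm.cons (nat_lit 2) (nat_lit 9305704728134713638) (Dm.cons (nat_lit 2) (nat_lit 9306267673793298724) (Dm.cons (nat_lit 2) (nat_lit 9305704732429680934) Dm.nil)))),
   (Dm.cons (nat_lit 5) (nat_lit 9452634661682708772) (Dm.cons (nat_lit 5) (nat_lit 9530321755302166820) (Dm.cons (nat_lit 5) (nat_lit 9391273116807102756) (Dm.cons (nat_lit 1) (nat_lit 9460797436007317796) (Dm.cons (nat_lit 1) (nat_lit 9305707090366726436) Dm.nil))))),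
   nat_lit 2792972246313709472045385922614196917014116183770999⟩

end Pool.Agent.Lib.MP_aed2da_nt.H
end
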