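import Pool.Agent.Lib.MP_aed2da_nt.FracB
import Pool.Agent.Lib.MP_aed2da_nt.HFld

-- part Pool.Agent.Lib.MP_aed2da_nt.HArith
section

/-! Arithmetic meaning of the packed numbers used by the checkers. -/

namespace Pool.Agent.Lib.MP_aed2da_nt.H

variable {P : Par}

/-- the four digits of a code -/
def uv (c : ℕ) : Q P :=
  ⟨(c % 65536 : ℕ), ((c >>> 16) % 65536 : ℕ), ((c >>> 32) % 65536 : ℕ), ((c >>> 48) % 65536 : ℕ)⟩

def one4 : Q P := ⟨1, 1, 1, 1⟩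

/-- the element with code `c` -/
def dec (B c : ℕ) : Q P := uv c - (B : ℤ) • one4

def eb (j : Fin 4) : Q P := ![⟨1, 0, 0, 0⟩, ⟨0, 1, 0, 0⟩, ⟨0, 0, 1, 0⟩, ⟨0, 0, 0, 1⟩] j

def rowQ (r : Row) : Q P :=
  ⟨r.a0 - 8796093022208, r.a1 - 8796093022208, r.a2 - 8796093022208, r.a3 - 8796093022208⟩

def n1 (x : Q P) : ℤ := |x.a| + |x.b| + |x.c| + |x.d|

def phv : Q P := ⟨1, 281474976710656, 79228162514264337593543950336,
  22300745198530623141535718272648361505980416⟩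

def trv (y : Q P) : Q P := ⟨Q.tr (eb 0 * y), Q.tr (eb 1 * y), Q.tr (eb 2 * y), Q.tr (eb 3 * y)⟩

theorem dot_add (l x y : Q P) : Q.dot l (x + y) = Q.dot l x + Q.dot l y := by
  simp [Q.dot]; ring

theorem dot_sub (l x y : Q P) : Q.dot l (x - y) = Q.dot l x - Q.dot l y := by
  simp [Q.dot]; ring

theorem dot_neg (l x : Q P) : Q.dot l (-x) = -Q.dot l x := by
  simp [Q.dot]; ring

theorem dot_smul (l x : Q P) (n : ℤ) : Q.dot l (n • x) = n * Q.dot l x := by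
  simp only [Q.dot, Q.zsmul_a, Q.zsmul_b, Q.zsmul_c, Q.zsmul_d]; ring

theorem dot_zero (l : Q P) : Q.dot l 0 = 0 := by simp [Q.dot]

theorem tr_mul (x y : Q P) : Q.tr (x * y) = Q.dot (trv y) x := by
  simp [Q.dot, trv, eb, Q.tr, Q.mul_a, Q.mul_b, Q.mul_c, Q.mul_d, Q.mul, Q.mulAux]; ring

theorem dot_mul (l x y : Q P) : Q.dot l (x * y) = x.a * Q.dot l (eb 0 * y) +
    x.b * Q.dot l (eb 1 * y) + x.c * Q.dot l (eb 2 * y) + x.d * Q.dot l (eb 3 * y) := by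
  simp [Q.dot, eb, Q.mul_a, Q.mul_b, Q.mul_c, Q.mul_d, Q.mul, Q.mulAux]; ring

theorem dot_sq (l x : Q P) : Q.dot l (x * x) =
    x.a * (Q.dot l (eb 0 * eb 0) * x.a + 2 * Q.dot l (eb 0 * eb 1) * x.b +
      2 * Q.dot l (eb 0 * eb 2) * x.c + 2 * Q.dot l (eb 0 * eb 3) * x.d) +
    x.b * (Q.dot l (eb 1 * eb 1) * x.b + 2 * Q.dot l (eb 1 * eb 2) * x.c +
      2 * Q.dot l (eb 1 * eb 3) * x.d) +
    x.c * (Q.dot l (eb 2 * eb 2) * x.c + 2 * Q.dot l (eb 2 * eb 3) * x.d) +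
    x.d * (Q.dot l (eb 3 * eb 3) * x.d) := by
  simp [Q.dot, eb, Q.mul_a, Q.mul_b, Q.mul_c, Q.mul_d, Q.mul, Q.mulAux]; ring

theorem comb (x : Q P) : x = x.a • eb 0 + x.b • eb 1 + x.c • eb 2 + x.d • eb 3 := by
  ext <;> simp only [Q.add_a, Q.add_b, Q.add_c, Q.add_d, Q.zsmul_a, Q.zsmul_b, Q.zsmul_c,
    Q.zsmul_d] <;> simp [eb]

theorem n1_nonneg (x : Q P) : 0 ≤ n1 x := by unfold n1; positivity

theorem n1_add (x y : Q P) : n1 (x + y) ≤ n1 x + n1 y := by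
  simp only [n1, Q.add_a, Q.add_b, Q.add_c, Q.add_d]
  linarith [abs_add_le x.a y.a, abs_add_le x.b y.b, abs_add_le x.c y.c, abs_add_le x.d y.d]

theorem n1_smul (n : ℤ) (x : Q P) : n1 (n • x) = |n| * n1 x := by
  simp only [n1, Q.zsmul_a, Q.zsmul_b, Q.zsmul_c, Q.zsmul_d, abs_mul]; ring

theorem n1_neg (x : Q P) : n1 (-x) = n1 x := by simp [n1]

theorem n1_sub (x y : Q P) : n1 (x - y) ≤ n1 x + n1 y := by
  rw [sub_eq_add_neg, ← n1_neg y]; exact n1_add _ _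

theorem n1_mul_le (x y : Q P) (c : ℤ) (h : ∀ j, n1 (eb j * y) ≤ c) : n1 (x * y) ≤ n1 x * c := by
  have e : x * y = x.a • (eb 0 * y) + x.b • (eb 1 * y) + x.c • (eb 2 * y) + x.d • (eb 3 * y) := by
    conv_lhs => rw [comb x]
    simp only [add_mul, smul_mul_assoc]
  have h1 := n1_add (x.a • (eb 0 * y) + x.b • (eb 1 * y) + x.c • (eb 2 * y)) (x.d • (eb 3 * y))
  have h2 := n1_add (x.a • (eb 0 * y) + x.b • (eb 1 * y)) (x.c • (eb 2 * y))
  have h3 := n1_add (x.a • (eb 0 * y)) (x.b • (eb 1 * y))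
  simp only [n1_smul] at h1 h2 h3
  rw [e, show n1 x = |x.a| + |x.b| + |x.c| + |x.d| from rfl]
  nlinarith [mul_le_mul_of_nonneg_left (h 0) (abs_nonneg x.a),
    mul_le_mul_of_nonneg_left (h 1) (abs_nonneg x.b),
    mul_le_mul_of_nonneg_left (h 2) (abs_nonneg x.c),
    mul_le_mul_of_nonneg_left (h 3) (abs_nonneg x.d)]

theorem n1_dec {B : ℕ} (hB : B ≤ 65536) (c : ℕ) : n1 (dec B c : Q P) ≤ 262144 := by
  simp only [n1, dec, uv, one4, Q.sub_a, Q.sub_b, Q.sub_c, Q.sub_d, Q.zsmul_a, Q.zsmul_b,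
    Q.zsmul_c, Q.zsmul_d, mul_one]
  have h : ∀ u : ℕ, |((u % 65536 : ℕ) : ℤ) - B| ≤ 65536 := fun u => by
    rw [abs_le]; omega
  linarith [h c, h (c >>> 16), h (c >>> 32), h (c >>> 48)]

theorem ln_cast (r : Row) (c : ℕ) :
    (ln r c : ℤ) = Q.dot (⟨r.a0, r.a1, r.a2, r.a3⟩ : Q P) (uv c) := by
  simp only [ln_eq, Q.dot, uv]; push_cast; ring

/-- the signed value of a row on a code -/
def ev (P : Par) (fd : FD) (r : Row) (c : ℕ) : ℤ := Q.dot (rowQ r : Q P) (dec fd.b c)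

theorem ep_en (P : Par) (fd : FD) (r : Row) (c : ℕ) :
    (ep fd r c : ℤ) = en fd r c + ev P fd r c := by
  simp only [ep_eq, en_eq, ln_eq, su_eq, ev, Q.dot, rowQ, dec, uv, one4, Q.sub_a, Q.sub_b, Q.sub_c,
    Q.sub_d, Q.zsmul_a, Q.zsmul_b, Q.zsmul_c, Q.zsmul_d]
  push_cast; ring

theorem mp_mn (P : Par) (fd : FD) (r : Row) (c : ℕ) : (mp fd r c : ℤ) = mn fd r c + ev P fd r c ∧
    ab fd r c = mp fd r c + mn fd r c ∧ (mp fd r c = 0 ∨ mn fd r c = 0) := by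
  have := ep_en P fd r c
  rw [ab_eq, mp_eq, mn_eq]
  omega

theorem ab_abs (P : Par) (fd : FD) (r : Row) (c : ℕ) : (ab fd r c : ℤ) = |ev P fd r c| := by
  obtain ⟨h1, h2, h3⟩ := mp_mn P fd r c
  rcases abs_cases (ev P fd r c) with h | h <;> omega

/-- the row approximates the embedding -/
def Ap (f : Q P →+* ℝ) (r : Row) : Prop :=
  ∀ x : Q P, |2 ^ 40 * f x - ((Q.dot (rowQ r) x : ℤ) : ℝ)| ≤ ((n1 x : ℤ) : ℝ)

theorem ap_of (S : Setup P) (i : Fin 4) {r : Row}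
    (h : (rowQ r : Q P) = ⟨S.M i 0, S.M i 1, S.M i 2, S.M i 3⟩) : Ap (S.σ i) r := by
  intro x
  have hb : ∀ j, |2 ^ 40 * S.σ i (eb j) - S.M i j| ≤ 1 := fun j => by
    have := S.approx i j
    rwa [Q.basis_apply] at this
  have e : 2 ^ 40 * S.σ i x - ((Q.dot (rowQ r) x : ℤ) : ℝ) =
      x.a * (2 ^ 40 * S.σ i (eb 0) - S.M i 0) + x.b * (2 ^ 40 * S.σ i (eb 1) - S.M i 1) +
      x.c * (2 ^ 40 * S.σ i (eb 2) - S.M i 2) + x.d * (2 ^ 40 * S.σ i (eb 3) - S.M i 3) := by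
    conv_lhs => rw [h, Q.dot]; enter [1, 2]; rw [comb x]
    simp only [map_add, zsmul_eq_mul, map_mul, map_intCast]
    push_cast; ring
  have hm : ∀ (a : ℤ) (j : Fin 4), |(a : ℝ) * (2 ^ 40 * S.σ i (eb j) - S.M i j)| ≤ |(a : ℝ)| :=
    fun a j => by rw [abs_mul]; exact mul_le_of_le_one_right (abs_nonneg _) (hb j)
  rw [e, n1]
  push_cast
  refine (abs_add_le _ _).trans (add_le_add ((abs_add_le _ _).trans (add_le_add
    ((abs_add_le _ _).trans (add_le_add (hm _ _) (hm _ _))) (hm _ _))) (hm _ _))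

section
variable {f : Q P →+* ℝ} {r : Row} {fd : FD} (hA : Ap f r) (hB : fd.b ≤ 65536)
include hA hB

theorem Ap.code (c : ℕ) : |2 ^ 40 * f (dec fd.b c) - ev P fd r c| ≤ 262144 :=
  (hA _).trans (by exact_mod_cast n1_dec hB c)

theorem qh_spec (c : ℕ) : 4096 * f (dec fd.b c) ^ 2 < qh fd r c := by
  have h := hA.code hB c
  have h1 : |2 ^ 40 * f (dec fd.b c)| ≤ ((ab fd r c + 262144 : ℕ) : ℝ) := by
    have : (ab fd r c : ℝ) = |(ev P fd r c : ℝ)| := by exact_mod_cast ab_abs P fd r c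
    push_cast
    linarith [abs_sub_abs_le_abs_sub (2 ^ 40 * f (dec fd.b c)) (ev P fd r c : ℝ)]
  rw [qh_eq, Nat.shiftRight_eq_div_pow]
  generalize ab fd r c + 262144 = a at h1
  have h2 : ((a * a : ℕ) : ℝ) < (2 ^ 68 * (a * a / 2 ^ 68 + 1) : ℕ) := by
    exact_mod_cast Nat.lt_mul_div_succ _ (by norm_num)
  have h3 := mul_self_le_mul_self (abs_nonneg _) h1
  rw [abs_mul_abs_self] at h3
  push_cast at h2 ⊢
  nlinarith

theorem ql_spec (c : ℕ) : (ql fd r c : ℝ) ≤ 4096 * f (dec fd.b c) ^ 2 := by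
  have h := hA.code hB c
  have h1 : ((ab fd r c - 262144 : ℕ) : ℝ) ≤ |2 ^ 40 * f (dec fd.b c)| := by
    have : (ab fd r c : ℝ) = |(ev P fd r c : ℝ)| := by exact_mod_cast ab_abs P fd r c
    by_cases h0 : 262144 ≤ ab fd r c
    · rw [Nat.cast_sub h0, this]
      rw [abs_sub_comm] at h
      push_cast
      linarith [abs_sub_abs_le_abs_sub (ev P fd r c : ℝ) (2 ^ 40 * f (dec fd.b c))]
    · rw [show ab fd r c - 262144 = 0 by omega]; simp
  rw [ql_eq, Nat.shiftRight_eq_div_pow]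
  generalize ab fd r c - 262144 = a at h1
  have h2 : ((2 ^ 68 * (a * a / 2 ^ 68) : ℕ) : ℝ) ≤ (a * a : ℕ) := by
    exact_mod_cast Nat.mul_div_le _ _
  have h3 := mul_self_le_mul_self (Nat.cast_nonneg _) h1
  rw [abs_mul_abs_self] at h3
  push_cast at h2 ⊢
  nlinarith

end

/-! ### the packing `phv` -/

abbrev MD : ℤ := 6277101735386680763835789423207666416102355444464034512896

/-- constants of the packing -/
def PhOK (P : Par) (fd : FD) : Prop :=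
  fd.b ≤ 65536 ∧ (∀ j k, n1 (eb j * eb k : Q P) ≤ 64) ∧
  fd.cb ≡ -fd.b * Q.dot phv (one4 : Q P) [ZMOD MD] ∧
  fd.fc ≡ fd.b * fd.b * Q.dot phv (one4 * one4 : Q P) [ZMOD MD] ∧
  (fd.fl.a0 ≡ -2 * fd.b * Q.dot phv (eb 0 * one4 : Q P) [ZMOD MD] ∧
  fd.fl.a1 ≡ -2 * fd.b * Q.dot phv (eb 1 * one4 : Q P) [ZMOD MD] ∧
  fd.fl.a2 ≡ -2 * fd.b * Q.dot phv (eb 2 * one4 : Q P) [ZMOD MD] ∧
  fd.fl.a3 ≡ -2 * fd.b * Q.dot phv (eb 3 * one4 : Q P) [ZMOD MD]) ∧
  fd.fq.q00 = Q.dot phv (eb 0 * eb 0 : Q P) ∧ fd.fq.q01 = 2 * Q.dot phv (eb 0 * eb 1 : Q P) ∧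
  fd.fq.q02 = 2 * Q.dot phv (eb 0 * eb 2 : Q P) ∧ fd.fq.q03 = 2 * Q.dot phv (eb 0 * eb 3 : Q P) ∧
  fd.fq.q11 = Q.dot phv (eb 1 * eb 1 : Q P) ∧ fd.fq.q12 = 2 * Q.dot phv (eb 1 * eb 2 : Q P) ∧
  fd.fq.q13 = 2 * Q.dot phv (eb 1 * eb 3 : Q P) ∧ fd.fq.q22 = Q.dot phv (eb 2 * eb 2 : Q P) ∧
  fd.fq.q23 = 2 * Q.dot phv (eb 2 * eb 3 : Q P) ∧ fd.fq.q33 = Q.dot phv (eb 3 * eb 3 : Q P)

instance (P : Par) (fd : FD) : Decidable (PhOK P fd) := by unfold PhOK; infer_instance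

/-- `R` packs `y` -/
def Ph (R : ℕ) (y : Q P) : Prop := (R : ℤ) ≡ Q.dot phv y [ZMOD MD]

theorem Ph.add {R R' : ℕ} {y y' : Q P} (h : Ph R y) (h' : Ph R' y') : Ph (R + R') (y + y') := by
  unfold Ph; rw [dot_add]; push_cast; exact Int.ModEq.add h h'

theorem Ph.smul {R : ℕ} {y : Q P} (h : Ph R y) (n : ℕ) : Ph (n * R) ((n : ℤ) • y) := by
  unfold Ph; rw [dot_smul]; push_cast; exact Int.ModEq.mul_left _ h

theorem Ph.nat (n : ℕ) : Ph n (n : Q P) := by simp [Ph, Q.dot, phv]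

theorem Ph.inj {R R' : ℕ} {y y' : Q P} (h : Ph R y) (h' : Ph R' y')
    (e : R % 6277101735386680763835789423207666416102355444464034512896 =
      R' % 6277101735386680763835789423207666416102355444464034512896)
    (hn : n1 y + n1 y' < 140737488355328) : y = y' := by
  have e1 : (R : ℤ) ≡ R' [ZMOD MD] := by
    unfold Int.ModEq MD; exact_mod_cast congrArg (Nat.cast : ℕ → ℤ) e
  obtain ⟨k, hk⟩ := (h.symm.trans (e1.trans h')).dvd
  have h1 := (n1_sub y' y).trans_lt (by rwa [add_comm])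
  rw [← dot_sub] at hk
  rw [eq_comm, ← sub_eq_zero]
  generalize y' - y = z at hk h1
  simp only [Q.dot, phv, MD, n1] at hk h1
  have ha := abs_nonneg z.a
  have hb := abs_nonneg z.b
  have hc := abs_nonneg z.c
  have hd := abs_nonneg z.d
  obtain ⟨a1, a2⟩ := abs_lt.mp (show |z.a| < 140737488355328 by linarith)
  obtain ⟨b1, b2⟩ := abs_lt.mp (show |z.b| < 140737488355328 by linarith)
  obtain ⟨c1, c2⟩ := abs_lt.mp (show |z.c| < 140737488355328 by linarith)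
  obtain ⟨d1, d2⟩ := abs_lt.mp (show |z.d| < 140737488355328 by linarith)
  have e0 : z.a = 0 := by omega
  have e1 : z.b = 0 := by omega
  have e2 : z.c = 0 := by omega
  have e3 : z.d = 0 := by omega
  ext <;> simp [*]

section
variable {fd : FD} (h : PhOK P fd)
include h

theorem ph_spec (c : ℕ) : Ph (ph fd c) (dec fd.b c : Q P) := by
  unfold Ph
  rw [ph_eq, Nat.cast_add, ln_cast (P := P), dec, dot_sub, dot_smul, sub_eq_add_neg, ← neg_mul]
  exact Int.ModEq.add rfl h.2.2.1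

theorem xs_spec (c : ℕ) : Ph (xs fd c) (dec fd.b c * dec fd.b c : Q P) := by
  obtain ⟨-, -, -, h1, ⟨h2, h3, h4, h5⟩, q0, q1, q2, q3, q4, q5, q6, q7, q8, q9⟩ := h
  have e : (dec fd.b c * dec fd.b c : Q P) =
      uv c * uv c + (-2 * fd.b : ℤ) • (uv c * one4) + (fd.b * fd.b : ℤ) • (one4 * one4) := by
    simp only [dec, zsmul_eq_mul]; push_cast; ring
  have e1 : (qf fd.fq c : ℤ) = Q.dot phv (uv c * uv c : Q P) := by
    rw [dot_sq, ← q1, ← q2, ← q3, ← q5, ← q6, ← q8, ← q0, ← q4, ← q7, ← q9, qf_eq]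
    simp only [uv]; push_cast; ring
  unfold Ph
  rw [xs_eq, Nat.cast_add, Nat.cast_add, e, dot_add, dot_add, dot_smul, dot_smul, e1,
    ln_cast (P := P), dot_mul phv (uv c) one4]
  refine Int.ModEq.add (Int.ModEq.add rfl ?_) h1
  convert (((h2.mul_right (uv c : Q P).a).add (h3.mul_right (uv c : Q P).b)).add
    (h4.mul_right (uv c : Q P).c)).add (h5.mul_right (uv c : Q P).d) using 1
  · rfl
  · ring

theorem n1_sq (c : ℕ) : n1 (dec fd.b c * dec fd.b c : Q P) ≤ 4398046511104 := by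
  have h1 := n1_dec (P := P) h.1 c
  have h2 := n1_mul_le (dec fd.b c : Q P) (dec fd.b c) (262144 * 64) fun j => by
    rw [mul_comm]
    have := n1_mul_le (dec fd.b c : Q P) (eb j) 64 fun k => h.2.1 k j
    linarith
  linarith

end

/-! ### packed residues -/

/-- the digit of `R` at `D` is congruent to `dot l y`, with weight `w` -/
def Rep (l : Q P) (n D R : ℕ) (y : Q P) (w : ℕ) : Prop :=
  ∃ lo mid : ℕ, R = lo + D * mid ∧ lo * 68719476736 + w ≤ w * D ∧ (mid : ℤ) ≡ Q.dot l y [ZMOD n]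

def RB (l : Q P) (n D C : ℕ) (z : Q P) : Prop :=
  C % D * 68719476736 + 1 ≤ D ∧ ((C / D : ℕ) : ℤ) ≡ Q.dot l z [ZMOD n]

instance (l : Q P) (n D C : ℕ) (z : Q P) : Decidable (RB l n D C z) := by
  unfold RB; infer_instance

def FunOK (fd : FD) (l : Q P) (n D : ℕ) : Prop :=
  n ∣ fd.b ∧ 0 < n ∧ (RB l n D fd.cl.a0 (eb 0) ∧ RB l n D fd.cl.a1 (eb 1) ∧
    RB l n D fd.cl.a2 (eb 2) ∧ RB l n D fd.cl.a3 (eb 3)) ∧
  RB l n D fd.wq.q00 (-(eb 0 * eb 0)) ∧ RB l n D fd.wq.q01 (-(2 * (eb 0 * eb 1))) ∧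
  RB l n D fd.wq.q02 (-(2 * (eb 0 * eb 2))) ∧ RB l n D fd.wq.q03 (-(2 * (eb 0 * eb 3))) ∧
  RB l n D fd.wq.q11 (-(eb 1 * eb 1)) ∧ RB l n D fd.wq.q12 (-(2 * (eb 1 * eb 2))) ∧
  RB l n D fd.wq.q13 (-(2 * (eb 1 * eb 3))) ∧ RB l n D fd.wq.q22 (-(eb 2 * eb 2)) ∧
  RB l n D fd.wq.q23 (-(2 * (eb 2 * eb 3))) ∧ RB l n D fd.wq.q33 (-(eb 3 * eb 3))

instance (fd : FD) (l : Q P) (n D : ℕ) : Decidable (FunOK fd l n D) := by
  unfold FunOK; infer_instance

section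
variable {l : Q P} {n D R R' : ℕ} {y y' : Q P} {w w' : ℕ}

theorem RB.rep (h : RB l n D R y) : Rep l n D R y 1 :=
  ⟨R % D, R / D, (Nat.mod_add_div R D).symm, by simpa using h.1, h.2⟩

theorem Rep.add (h : Rep l n D R y w) (h' : Rep l n D R' y' w') :
    Rep l n D (R + R') (y + y') (w + w') := by
  obtain ⟨a, b, rfl, h1, h2⟩ := h
  obtain ⟨a', b', rfl, h1', h2'⟩ := h'
  exact ⟨a + a', b + b', by ring, by nlinarith, by rw [dot_add]; push_cast; exact h2.add h2'⟩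

theorem Rep.smul (h : Rep l n D R y w) (c : ℕ) : Rep l n D (c * R) ((c : ℤ) • y) (c * w) := by
  obtain ⟨a, b, rfl, h1, h2⟩ := h
  exact ⟨c * a, c * b, by ring, by nlinarith [Nat.mul_le_mul_left c h1],
    by rw [dot_smul]; push_cast; exact h2.mul_left _⟩

theorem Rep.of (h : Rep l n D R y w) (hD : 1 ≤ D) (e : R = R') (hw : w ≤ w')
    (hy : Q.dot l y ≡ Q.dot l y' [ZMOD n]) : Rep l n D R' y' w' := by
  obtain ⟨a, b, rfl, h1, h2⟩ := h
  obtain ⟨u, rfl⟩ := Nat.exists_eq_add_of_le hw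
  exact ⟨a, b, e.symm, by nlinarith [Nat.mul_le_mul_left u hD], h2.trans hy⟩

theorem Rep.key (h : Rep l n D R y w) (hD : 1 ≤ D) (hw : w ≤ 68719476736) :
    R / D % n = (Q.dot l y % n).toNat := by
  obtain ⟨a, b, rfl, h1, h2⟩ := h
  obtain ⟨D, rfl⟩ := Nat.exists_eq_add_of_le' hD
  have : a < D + 1 := by nlinarith [Nat.mul_le_mul_right D hw]
  rw [Nat.add_mul_div_left _ _ (by omega), Nat.div_eq_of_lt this, zero_add, ← h2]
  norm_cast

end

/-- `R` packs the residues of `y` -/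
def Rp (fd : FD) (R : ℕ) (y : Q P) (w : ℕ) : Prop :=
  ∀ l n D, FunOK fd l n D → Rep l n D R y w

theorem FunOK.pos {fd : FD} {l : Q P} {n D : ℕ} (h : FunOK fd l n D) : 1 ≤ D := by
  have := h.2.2.1.1.1; omega

section
variable {fd : FD} {R R' : ℕ} {y y' : Q P} {w w' : ℕ}

theorem Rp.add (h : Rp fd R y w) (h' : Rp fd R' y' w') : Rp fd (R + R') (y + y') (w + w') :=
  fun l n D H => (h l n D H).add (h' l n D H)

theorem Rp.smul (h : Rp fd R y w) (c : ℕ) : Rp fd (c * R) ((c : ℤ) • y) (c * w) :=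
  fun l n D H => (h l n D H).smul c

theorem Rp.of (h : Rp fd R y w) (e : R = R') (hy : y = y') (hw : w ≤ w') : Rp fd R' y' w' :=
  fun l n D H => (h l n D H).of H.pos e hw (by rw [hy])

theorem rp_zero (fd : FD) : Rp fd 0 (0 : Q P) 0 :=
  fun l n D _ => ⟨0, 0, by simp, by simp, by simp [dot_zero]⟩

end

theorem dot_shift {B n : ℕ} (h : n ∣ B) (l y z : Q P) :
    Q.dot l (y + (B : ℤ) • z) ≡ Q.dot l y [ZMOD n] := by
  rw [dot_add, dot_smul]
  exact (Int.modEq_iff_dvd.mpr (by simpa using (Int.natCast_dvd_natCast.mpr h).mul_right _))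

theorem rp_ln (fd : FD) (c : ℕ) : Rp fd (ln fd.cl c) (dec fd.b c : Q P) 262144 := by
  intro l n D H
  obtain ⟨hn, -, ⟨h0, h1, h2, h3⟩, -⟩ := id H
  refine ((((h0.rep.smul (c % 65536)).add (h1.rep.smul ((c >>> 16) % 65536))).add
    (h2.rep.smul ((c >>> 32) % 65536))).add (h3.rep.smul ((c >>> 48) % 65536))).of H.pos
    (by rw [ln_eq]; ring) (by omega) ?_
  refine .trans ?_ (dot_shift hn l _ one4)
  rw [dec, sub_add_cancel, comb (uv c)]
  rfl

theorem rp_qf (fd : FD) (c : ℕ) :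
    Rp fd (qf fd.wq c) (-(dec fd.b c * dec fd.b c) : Q P) 42949672960 := by
  intro l n D H
  obtain ⟨hn, -, -, q0, q1, q2, q3, q4, q5, q6, q7, q8, q9⟩ := id H
  have e : (uv c : Q P) = _ := comb (uv c)
  rw [qf_eq]
  simp only [uv] at e
  have b0 : c % 65536 ≤ 65536 := by omega
  have b1 : (c >>> 16) % 65536 ≤ 65536 := by omega
  have b2 : (c >>> 32) % 65536 ≤ 65536 := by omega
  have b3 : (c >>> 48) % 65536 ≤ 65536 := by omega
  have e1 : (dec fd.b c : Q P) = _ := congrArg (· - (fd.b : ℤ) • one4) e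
  rw [e1]
  generalize c % 65536 = u0 at *
  generalize (c >>> 16) % 65536 = u1 at *
  generalize (c >>> 32) % 65536 = u2 at *
  generalize (c >>> 48) % 65536 = u3 at *
  refine ((((((((((q0.rep.smul (u0 * u0)).add (q1.rep.smul (u0 * u1))).add
    (q2.rep.smul (u0 * u2))).add (q3.rep.smul (u0 * u3))).add (q4.rep.smul (u1 * u1))).add
    (q5.rep.smul (u1 * u2))).add (q6.rep.smul (u1 * u3))).add (q7.rep.smul (u2 * u2))).add
    (q8.rep.smul (u2 * u3))).add (q9.rep.smul (u3 * u3))).of H.pos (by ring) ?_ ?_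
  · nlinarith [Nat.mul_le_mul b0 b0, Nat.mul_le_mul b0 b1, Nat.mul_le_mul b0 b2,
      Nat.mul_le_mul b0 b3, Nat.mul_le_mul b1 b1, Nat.mul_le_mul b1 b2, Nat.mul_le_mul b1 b3,
      Nat.mul_le_mul b2 b2, Nat.mul_le_mul b2 b3, Nat.mul_le_mul b3 b3]
  · refine .trans ?_ (dot_shift hn l _ (((fd.b : Q P) * one4 - 2 * ((u0 : ℤ) • eb 0 + (u1 : ℤ) • eb 1 +
      (u2 : ℤ) • eb 2 + (u3 : ℤ) • eb 3)) * one4))
    refine congrArg (fun z => Q.dot l z % n) ?_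
    simp only [zsmul_eq_mul]; push_cast; ring

/-- the table key of `y` -/
def kc (L : Lit P) (y : Q P) : ℕ :=
  (Q.dot L.l1 y % L.n1).toNat + (Q.dot L.l2 y % L.n2).toNat <<< 10

def LitOK (fd : FD) (L : Lit P) (l : LD) : Prop :=
  l.n1 = L.n1 ∧ l.n2 = L.n2 ∧ l.tab = L.tab ∧ L.n1 ≤ 512 ∧ FunOK fd L.l1 L.n1 l.d1 ∧
    FunOK fd L.l2 L.n2 l.d2

instance (fd : FD) (L : Lit P) (l : LD) : Decidable (LitOK fd L l) := by
  unfold LitOK; infer_instance

theorem key_spec {fd : FD} {L : Lit P} {l : LD} (H : LitOK fd L l) {R w : ℕ} {y : Q P}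
    (h : Rp fd R y w) (hw : w ≤ 68719476736) : key l R = kc L y := by
  obtain ⟨h1, h2, -, -, f1, f2⟩ := H
  rw [key_eq, sw_eq, h1, h2, (h _ _ _ f1).key f1.pos hw, (h _ _ _ f2).key f2.pos hw, kc]
  split_ifs with h3
  · rw [Nat.beq_eq] at h3
    simp [h3]
  · rfl

theorem res_lt (a : ℤ) {n : ℕ} (h : 0 < n) : (a % n).toNat < n := by
  have := Int.emod_lt_of_pos a (Int.natCast_pos.mpr h)
  omega

theorem res_add (a b : ℤ) {n : ℕ} (h : 0 < n) :
    ((a % n).toNat + (b % n).toNat) % n = ((a + b) % n).toNat := by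
  have h0 : (n : ℤ) ≠ 0 := by omega
  zify
  rw [Int.toNat_of_nonneg (Int.emod_nonneg _ h0), Int.toNat_of_nonneg (Int.emod_nonneg _ h0),
    Int.toNat_of_nonneg (Int.emod_nonneg _ h0), ← Int.add_emod]

theorem tab_spec {fd : FD} {L : Lit P} {l : LD} (H : LitOK fd L l) {rho : ℕ → ℕ} {γ : ℕ → Q P}
    (hρ : ∀ m, rho m = kc L (γ m)) (d : ℕ) (y : Q P) (k : ℕ)
    (h : (tab l rho d (kc L y)).testBit k = true) : k < 2 ^ d ∧ L.holds (y + pt γ d k) := by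
  obtain ⟨h1, h2, h3, h4, f1, f2⟩ := H
  induction d generalizing y k with
  | zero =>
    have b := res_lt (Q.dot L.l1 y) f1.2.1
    have hm : ∀ x : ℕ, x % 2 = x % 2 ^ 1 := fun x => rfl
    rw [tab_zero, h1, h3, kc, Nat.shiftLeft_eq, Nat.shiftRight_eq_div_pow (_ + _), hm,
      Nat.testBit_mod_two_pow, Bool.and_eq_true, decide_eq_true_eq, Nat.testBit_shiftRight] at h
    refine ⟨h.1, ?_⟩
    rw [Lit.holds, Lit.code, pt, Finset.sum_range_zero, add_zero, ← h.2]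
    generalize (Q.dot L.l1 y % L.n1).toNat = a at *
    generalize (Q.dot L.l2 y % L.n2).toNat = a' at *
    rw [show (a + a' * 2 ^ 10) % 1024 = a by omega, show (a + a' * 2 ^ 10) / 2 ^ 10 = a' by omega,
      show k = 0 by omega, add_zero]
  | succ m ih =>
    have b1 := res_lt (Q.dot L.l1 y) f1.2.1
    have b2 := res_lt (Q.dot L.l1 (γ m)) f1.2.1
    have e : (kc L y + rho m) % 1024 % l.n1 + (((kc L y + rho m) >>> 10) % l.n2) <<< 10 =
        kc L (y + γ m) := by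
      rw [hρ, h1, h2, kc, kc, kc, dot_add, dot_add, ← res_add _ _ f1.2.1, ← res_add _ _ f2.2.1]
      simp only [Nat.shiftLeft_eq, Nat.shiftRight_eq_div_pow]
      congr 2
      · omega
      · congr 1; omega
    rw [tab_succ, e, dbl_bit _ _ _ _ fun j hj => by
      by_contra hc
      exact absurd (ih y j (by simpa using hc)).1 (by omega)] at h
    split_ifs at h with hk
    · exact ⟨by omega, by rw [pt_lo _ hk]; exact (ih _ _ h).2⟩
    · obtain ⟨a, b⟩ := ih _ _ h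
      exact ⟨by omega, by rwa [pt_hi _ (by omega) a, ← add_assoc]⟩

/-! ### formulas -/

/-- bitwise value of a formula -/
noncomputable def evF (g : LD → ℕ → ℕ) (ld : List LD) (r : ℕ) : Fm → ℕ
  | Fm.lit i => g (ld.getD i ⟨0, 0, 0, 0, 0⟩) (key (ld.getD i ⟨0, 0, 0, 0, 0⟩) r)
  | Fm.and a b => evF g ld r a &&& evF g ld r b
  | Fm.or a b => evF g ld r a ||| evF g ld r b

/-- all literals of a formula satisfy `p` -/
def allF (Ls : List (Lit P)) (ld : List LD) (p : Lit P → LD → Bool) : Fm → Bool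
  | Fm.lit i => (Ls[i]?).any fun L => p L (ld.getD i ⟨0, 0, 0, 0, 0⟩)
  | Fm.and a b => allF Ls ld p a && allF Ls ld p b
  | Fm.or a b => allF Ls ld p a && allF Ls ld p b

theorem evF_spec {Ls : List (Lit P)} {ld : List LD} {p : Lit P → LD → Bool} {g : LD → ℕ → ℕ}
    {r k : ℕ} {z : Q P} (hp : ∀ L l, p L l = true → (g l (key l r)).testBit k = true → L.holds z)
    {f : Fm} (hf : allF Ls ld p f = true) (h : (evF g ld r f).testBit k = true) : Good Ls f z := by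
  induction f with
  | lit i =>
    obtain ⟨L, h1, h2⟩ := (Option.any_eq_true _ _).mp hf
    exact ⟨L, h1, hp L _ h2 h⟩
  | and a b iha ihb =>
    rw [allF, Bool.and_eq_true] at hf
    rw [evF, Nat.testBit_and, Bool.and_eq_true] at h
    exact ⟨iha hf.1 h.1, ihb hf.2 h.2⟩
  | or a b iha ihb =>
    rw [allF, Bool.and_eq_true] at hf
    rw [evF, Nat.testBit_or, Bool.or_eq_true] at h
    exact h.imp (iha hf.1) (ihb hf.2)

end Pool.Agent.Lib.MP_aed2da_nt.H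
end

-- part Pool.Agent.Lib.MP_aed2da_nt.HGeo
section

/-! Geometry of tiles. -/

namespace Pool.Agent.Lib.MP_aed2da_nt.H

variable {P : Par}

/-- generator attached to a bit -/
def gam (B q : ℕ) : Dm → ℕ → Q P
  | Dm.nil, _ => 0
  | Dm.cons e b tl, t => if t < e then ((2 ^ t * q : ℕ) : ℤ) • dec B b else gam B q tl (t - e)

/-- point with index `k` -/
def ptd (B q : ℕ) : Dm → ℕ → Q P
  | Dm.nil, _ => 0
  | Dm.cons e b tl, k => ((k % 2 ^ e * q : ℕ) : ℤ) • dec B b + ptd B q tl (k >>> e)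

/-- offset of the class `c` -/
def clp (B q : ℕ) : Dm → ℕ → Q P
  | Dm.nil, _ => 0
  | Dm.cons _ b tl, c => ((c % q : ℕ) : ℤ) • dec B b + clp B q tl (c / q)

theorem sum_bits (k e : ℕ) :
    ∑ t ∈ Finset.range e, (if k.testBit t then 2 ^ t else 0) = k % 2 ^ e := by
  induction e with
  | zero => simp [Nat.mod_one]
  | succ e ih =>
    rw [Finset.sum_range_succ, ih, Nat.mod_pow_succ, Nat.testBit_eq_decide_div_mod_eq]
    rcases Nat.mod_two_eq_zero_or_one (k / 2 ^ e) with h | h <;> simp [h]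

theorem pt_gam (B q : ℕ) (ds : Dm) (k : ℕ) :
    pt (gam B q ds : ℕ → Q P) (bitsD ds) k = ptd B q ds k := by
  induction ds generalizing k with
  | nil => simp [pt, bitsD_nil, ptd]
  | cons e b tl ih =>
    rw [bitsD_cons, pt, Finset.sum_range_add, ptd, ← ih, pt, ← sum_bits, Finset.sum_mul,
      Nat.cast_sum, Finset.sum_smul]
    congr 1
    · refine Finset.sum_congr rfl fun t ht => ?_
      rw [gam, if_pos (Finset.mem_range.mp ht)]
      split_ifs <;> simp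
    · refine Finset.sum_congr rfl fun t _ => ?_
      rw [gam, if_neg (show ¬ e + t < e by omega), Nat.add_sub_cancel_left, Nat.testBit_shiftRight]

theorem rp_sel (fd : FD) (q : ℕ) (ds : Dm) (h : sD (kq q) ds ≤ 4096) (m : ℕ) :
    Rp fd (sel (rq fd q) ds m) (gam fd.b q ds m : Q P) 1073741824 := by
  induction ds generalizing m with
  | nil => rw [sel_nil]; exact (rp_zero fd).of rfl rfl (by omega)
  | cons e b tl ih =>
    rw [sD_cons, kq_eq, Nat.shiftLeft_eq] at h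
    rw [sel_cons, sw_eq, gam]
    simp only [Nat.ble_eq, Nat.succ_le_iff]
    split_ifs with h1
    · refine ((rp_ln fd b).smul (2 ^ m * q)).of (by rw [rq_eq, Nat.shiftLeft_eq]; ring) rfl ?_
      have : 2 ^ m * q ≤ q * 2 ^ e := by
        rw [mul_comm]; exact Nat.mul_le_mul_left _ (Nat.pow_le_pow_right (by omega) h1.le)
      omega
    · exact ih (by omega) _

theorem tg_spec {fd : FD} {L : Lit P} {l : LD} (H : LitOK fd L l) {q : ℕ} {ds : Dm}
    (h : sD (kq q) ds ≤ 4096) {R w k : ℕ} {y : Q P} (hR : Rp fd R y w) (hw : w ≤ 68719476736)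
    (hk : (tg fd q ds l (key l R)).testBit k = true) : L.holds (y + ptd fd.b q ds k) := by
  rw [tg_eq, key_spec H hR hw] at hk
  rw [← pt_gam]
  exact (tab_spec H (fun m => by
    rw [rho_eq]; exact key_spec H (rp_sel fd q ds h m) (by omega)) _ _ _ hk).2

theorem sum_sel (f : ℕ → ℕ) (q : ℕ) (g : ℕ → ℕ → ℕ) (hg : ∀ e b, g e b = (q <<< e - q) * f b)
    (ds : Dm) : ∑ t ∈ Finset.range (bitsD ds), sel (fun b => q * f b) ds t = sD g ds := by
  induction ds with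
  | nil => simp [bitsD_nil, sD_nil]
  | cons e b tl ih =>
    rw [bitsD_cons, Finset.sum_range_add, sD_cons, ← ih, hg]
    congr 1
    · rw [Finset.sum_congr rfl fun t ht => show _ = q * f b * 2 ^ t by
        rw [sel_cons, sw_eq, if_pos (by simpa [Nat.succ_le_iff] using ht), Nat.shiftLeft_eq],
        ← Finset.mul_sum, Nat.geomSum_eq le_rfl, Nat.shiftLeft_eq]
      simp only [Nat.add_one_sub_one, Nat.div_one, Nat.mul_sub, Nat.sub_mul]
      congr 1 <;> ring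
    · refine Finset.sum_congr rfl fun t _ => ?_
      rw [sel_cons, sw_eq, if_neg (by simp), Nat.add_sub_cancel_left]

theorem sel_ev (fd : FD) (r : Row) (q : ℕ) (ds : Dm) (t : ℕ) :
    (sel (aq fd r q) ds t : ℤ) = Q.dot (rowQ r) (gam fd.b q ds t : Q P) +
      2 * (sel (fun b => q * mn fd r b) ds t : ℕ) ∧
    (sel (mn fd r) ds t = 0 → sel (fun b => q * mn fd r b) ds t = 0) ∧
    (sel (mn fd r) ds t ≠ 0 → sel (aq fd r q) ds t = sel (fun b => q * mn fd r b) ds t) := by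
  induction ds generalizing t with
  | nil => simp [sel_nil, gam, dot_zero]
  | cons e b tl ih =>
    simp only [sel_cons, sw_eq, gam, Nat.ble_eq, Nat.succ_le_iff]
    split_ifs with h1
    · obtain ⟨a1, a2, a3⟩ := mp_mn P fd r b
      simp only [aq_eq, Nat.shiftLeft_eq, dot_smul, a2]
      refine ⟨?_, fun h => ?_, fun h => ?_⟩
      · rw [ev] at a1; push_cast; rw [a1]; ring
      · rw [(Nat.mul_eq_zero.mp h).resolve_right (by positivity)]; simp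
      · rw [a3.resolve_right fun h0 => h (by simp [h0]), zero_add]
    · exact ih _

theorem vv_bound (fd : FD) (r : Row) {s : ℕ} (hs : 0 < s) (sh : Sh) (k : ℕ) :
    let v := vv (cv fd r s sh) (ng fd r sh) (bits sh) k
    let x := Q.dot (rowQ r) (ptd fd.b sh.q (dims sh) k : Q P) + sD (z3 fd r sh.q) (dims sh)
    (s * v : ℕ) ≤ x ∧ x ≤ (s * v + bits sh * s : ℕ) ∧ s * v ≤ sD (z4 fd r sh.q) (dims sh) := by
  intro v x
  have hx : x = ∑ t ∈ Finset.range (bits sh),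
      ((if k.testBit t then Q.dot (rowQ r) (gam fd.b sh.q (dims sh) t : Q P) else 0) +
        (sel (fun b => sh.q * mn fd r b) (dims sh) t : ℕ)) := by
    rw [Finset.sum_add_distrib, ← Nat.cast_sum, bits_eq,
      sum_sel _ _ _ (z3_eq fd r sh.q), show x = _ + _ from rfl, ← pt_gam, pt]
    congr 1
    induction Finset.range (bitsD (dims sh)) using Finset.cons_induction with
    | empty => simp [dot_zero]
    | cons a s ha ih =>
      rw [Finset.sum_cons, Finset.sum_cons, dot_add, ih]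
      split_ifs <;> simp [dot_zero]
  have key : ∀ t, let w := if k.testBit t = decide (ng fd r sh t = 0) then cv fd r s sh t else 0
      let y := (if k.testBit t then Q.dot (rowQ r) (gam fd.b sh.q (dims sh) t : Q P) else 0) +
        (sel (fun b => sh.q * mn fd r b) (dims sh) t : ℕ)
      (s * w : ℕ) ≤ y ∧ y ≤ (s * w + s : ℕ) ∧ s * w ≤ sel (aq fd r sh.q) (dims sh) t := by
    intro t
    obtain ⟨a1, a2, a3⟩ := sel_ev (P := P) fd r sh.q (dims sh) t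
    have b1 := Nat.mul_div_le (sel (aq fd r sh.q) (dims sh) t) s
    have b2 := Nat.lt_mul_div_succ (sel (aq fd r sh.q) (dims sh) t) hs
    rw [mul_add, mul_one] at b2
    rw [ng_eq, cv_eq]
    by_cases h0 : sel (mn fd r) (dims sh) t = 0 <;> cases k.testBit t <;>
      simp only [h0, decide_true, decide_false, if_true, if_false, Bool.false_eq_true,
        Bool.true_eq_false, mul_zero, ne_eq, not_false_eq_true, forall_true_left] at * <;> omega
  refine ⟨?_, ?_, ?_⟩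
  · rw [hx, show v = ∑ _ ∈ _, _ from rfl, Finset.mul_sum, Nat.cast_sum]
    exact Finset.sum_le_sum fun t _ => (key t).1
  · rw [hx, show v = ∑ _ ∈ _, _ from rfl, Finset.mul_sum, ← Finset.card_range (bits sh),
      ← smul_eq_mul (Finset.card _), ← Finset.sum_const, Finset.card_range,
      ← Finset.sum_add_distrib, Nat.cast_sum]
    exact Finset.sum_le_sum fun t _ => (key t).2.1
  · rw [show v = ∑ _ ∈ _, _ from rfl, Finset.mul_sum, ← sum_sel _ _ _ (z4_eq fd r sh.q), ← bits_eq]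
    exact Finset.sum_le_sum fun t _ => (key t).2.2

theorem le_shl (q e : ℕ) : q ≤ q <<< e := by
  rw [Nat.shiftLeft_eq]; exact Nat.le_mul_of_pos_right _ (by positivity)

theorem clp_bound (fd : FD) (r : Row) {q : ℕ} (hq : 0 < q) (ds : Dm) (c : ℕ) :
    (sD (z3 fd r q) ds : ℤ) ≤ Q.dot (rowQ r) (clp fd.b q ds c : Q P) + sD (z1 fd r q) ds ∧
    Q.dot (rowQ r) (clp fd.b q ds c : Q P) ≤ sD (z2 fd r q) ds := by
  induction ds generalizing c with
  | nil => simp [sD_nil, clp, dot_zero]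
  | cons e b tl ih =>
    obtain ⟨h1, h2⟩ := ih (c / q)
    obtain ⟨a1, -, -⟩ := mp_mn P fd r b
    have a2 := Nat.mod_lt c hq
    have a3 := le_shl q e
    rw [ev] at a1
    simp only [sD_cons, clp, dot_add, dot_smul, z1_eq, z2_eq, z3_eq]
    generalize q <<< e = K at *
    generalize c % q = u at *
    obtain ⟨w, rfl⟩ := Nat.exists_eq_add_of_lt a2
    obtain ⟨K, rfl⟩ := Nat.exists_eq_add_of_le a3
    rw [Nat.add_sub_cancel_left, show u + w + 1 + K - 1 = u + w + K by omega,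
      Nat.add_sub_cancel]
    push_cast
    constructor <;> nlinarith [Int.natCast_nonneg (u * mp fd r b), Int.natCast_nonneg (w * mp fd r b),
      Int.natCast_nonneg (u * mn fd r b), Int.natCast_nonneg (w * mn fd r b)]

theorem n1_pt {B q : ℕ} (hB : B ≤ 65536) (hq : 0 < q) (ds : Dm) (c k : ℕ) :
    n1 (clp B q ds c + ptd B q ds k : Q P) ≤ 262144 * (sD (kq q) ds : ℕ) := by
  induction ds generalizing c k with
  | nil => simp [clp, ptd, n1, sD_nil]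
  | cons e b tl ih =>
    have h1 := ih (c / q) (k >>> e)
    have h2 := n1_dec (P := P) hB b
    have h3 : c % q + k % 2 ^ e * q ≤ q <<< e := by
      have a := Nat.mod_lt c hq
      have a' := Nat.mul_le_mul_right q (Nat.mod_lt k (Nat.two_pow_pos e))
      rw [Nat.shiftLeft_eq]
      nlinarith
    rw [clp, ptd, add_add_add_comm, ← add_smul, ← Nat.cast_add, sD_cons, kq_eq]
    refine (n1_add _ _).trans ?_
    rw [n1_smul, abs_of_nonneg (Int.natCast_nonneg _)]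
    have h4 : ((c % q + k % 2 ^ e * q : ℕ) : ℤ) ≤ (q <<< e : ℕ) := by exact_mod_cast h3
    have h5 := mul_le_mul h4 h2 (n1_nonneg _) (Int.natCast_nonneg _)
    rw [Nat.cast_add (q <<< e)]
    linarith

/-- the point of a tile with class `c` and index `k` -/
noncomputable def pnt (fd : FD) (sh : Sh) (o c k : ℕ) : Q P :=
  dec fd.b o + clp fd.b sh.q (dims sh) c + ptd fd.b sh.q (dims sh) k

theorem n1_pnt {fd : FD} (hB : fd.b ≤ 65536) {sh : Sh} (hq : 0 < sh.q) (o c k : ℕ) :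
    n1 (pnt fd sh o c k : Q P) ≤ er sh := by
  have h1 := n1_pt (P := P) hB hq (dims sh) c k
  have h2 := n1_dec (P := P) hB o
  rw [pnt, add_assoc, er_eq]
  refine (n1_add _ _).trans ?_
  push_cast
  linarith

section
variable {f : Q P →+* ℝ} {r : Row} {fd : FD} (hA : Ap f r) (hB : fd.b ≤ 65536) {sh : Sh}
  (hq : 0 < sh.q) {s : ℕ} (hs : sb fd sh r s = 0) {o c k : ℕ}
include hA hB hq hs

theorem pnt_bound : let v := vv (cv fd r s sh) (ng fd r sh) (bits sh) k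
    0 < s ∧ v < 8192 ∧
    ((ep fd r o + s * v : ℕ) : ℝ) ≤ 2 ^ 40 * f (pnt fd sh o c k) + zpN fd r sh o ∧
    2 ^ 40 * f (pnt fd sh o c k) + zqN fd r sh o ≤ (zqP fd r s sh o + s * v : ℕ) := by
  dsimp only
  rw [sb_eq] at hs
  have s0 : 0 < s := by omega
  obtain ⟨a1, a2, a3⟩ := vv_bound (P := P) fd r s0 sh k
  generalize vv _ _ _ k = v at *
  obtain ⟨b1, b2⟩ := clp_bound (P := P) fd r hq (dims sh) c
  have c1 := ep_en P fd r o
  obtain ⟨d1, d2⟩ := abs_le.mp ((hA (pnt fd sh o c k)).trans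
    (Int.cast_le.mpr (n1_pnt hB hq o c k)))
  have e : Q.dot (rowQ r) (pnt fd sh o c k : Q P) = ev P fd r o +
      Q.dot (rowQ r) (clp fd.b sh.q (dims sh) c : Q P) +
      Q.dot (rowQ r) (ptd fd.b sh.q (dims sh) k : Q P) := by rw [pnt, dot_add, dot_add, ev]
  refine ⟨s0, lt_of_mul_lt_mul_left (a := s) (by omega) (Nat.zero_le _), ?_, ?_⟩
  · have : ((ep fd r o + s * v : ℕ) : ℤ) + er sh ≤
        Q.dot (rowQ r) (pnt fd sh o c k : Q P) + zpN fd r sh o := by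
      rw [zpN_eq]; omega
    have := (Int.cast_le (R := ℝ)).mpr this
    simp only [Int.cast_add, Int.cast_natCast] at this d1
    linarith
  · have : Q.dot (rowQ r) (pnt fd sh o c k : Q P) + zqN fd r sh o + er sh ≤
        ((zqP fd r s sh o + s * v : ℕ) : ℤ) := by
      rw [zqN_eq, zqP_eq]; omega
    have := (Int.cast_le (R := ℝ)).mpr this
    simp only [Int.cast_add, Int.cast_natCast] at this d2
    linarith

theorem band {l u : ℕ} (hk : k < 2 ^ bits sh) (hl : (l : ℝ) ≤ 4096 * f (pnt fd sh o c k))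
    (hu : 4096 * f (pnt fd sh o c k) ≤ u) :
    (hL fd r s sh o l ^^^ hU fd r s sh o u).testBit k = true := by
  obtain ⟨s0, h1, h2, h3⟩ := pnt_bound hA hB hq hs (o := o) (c := c) (k := k)
  rw [hL_eq, hU_eq, fN_eq, fN_eq, Nat.testBit_xor, hc_spec, hc_spec, m512_eq, m512_eq]
  generalize vv _ _ _ k = v at *
  have a1 : l * 268435456 + zqN fd r sh o ≤ zqP fd r s sh o + s * v := by
    have : ((l * 268435456 + zqN fd r sh o : ℕ) : ℝ) ≤ (zqP fd r s sh o + s * v : ℕ) := by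
      rw [Nat.cast_add, Nat.cast_mul]; norm_num at h3 ⊢; linarith
    exact_mod_cast this
  have a2 : ep fd r o + s * v ≤ u * 268435456 + zpN fd r sh o := by
    have : ((ep fd r o + s * v : ℕ) : ℝ) ≤ (u * 268435456 + zpN fd r sh o : ℕ) := by
      rw [Nat.cast_add (u * _), Nat.cast_mul u]; norm_num at h2 ⊢; linarith
    exact_mod_cast this
  have b1 := Nat.div_le_div_right (c := s * 16)
    (show l * 268435456 + zqN fd r sh o - zqP fd r s sh o ≤ s * v by omega)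
  have b2 := Nat.div_le_div_right (c := s * 16)
    (show s * v ≤ u * 268435456 + zpN fd r sh o - ep fd r o by omega)
  rw [Nat.mul_div_mul_left _ _ s0] at b1 b2
  simp only [hk, decide_true, Bool.true_and]
  rw [decide_eq_true (by omega), decide_eq_false (by omega)]
  rfl

theorem gp_spec {q t : ℕ} (h : (hc fd r s sh t).testBit k = true) (h0 : gp fd r s sh o q t ≠ 0) :
    (gp fd r s sh o q t : ℝ) ≤ 2 ^ 40 * f (pnt fd sh o c k) - 2 ^ 28 * q := by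
  obtain ⟨-, -, h2, -⟩ := pnt_bound hA hB hq hs (o := o) (c := c) (k := k)
  rw [hc_spec, Bool.and_eq_true, decide_eq_true_eq, decide_eq_true_eq] at h
  generalize vv _ _ _ k = v at *
  have a : s * 16 * t ≤ s * v := by rw [mul_assoc]; exact Nat.mul_le_mul_left _ (by omega)
  have b : gp fd r s sh o q t + zpN fd r sh o + q * 268435456 ≤ ep fd r o + s * v := by
    rw [gp_eq] at h0 ⊢; omega
  have := (Nat.cast_le (α := ℝ)).mpr b
  rw [Nat.cast_add, Nat.cast_add, Nat.cast_mul] at this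
  norm_num at h2 this ⊢
  linarith

end

/-- the rows of the field data are correct -/
structure Geo (S : Setup P) (fd : FD) : Prop where
  ph : PhOK P fd
  a0 : Ap (S.σ 0) fd.r0
  a1 : Ap (S.σ 1) fd.r1
  a2 : Ap (S.σ 2) fd.r2
  a3 : Ap (S.σ 3) fd.r3
  g : rowQ fd.g0 = trv (eb 0 : Q P) ∧ rowQ fd.g1 = trv (eb 1 : Q P) ∧
    rowQ fd.g2 = trv (eb 2 : Q P) ∧ rowQ fd.g3 = trv (eb 3 : Q P)
  h : rowQ fd.h0 = trv (eb 0 * eb 0 : Q P) ∧ rowQ fd.h1 = trv (eb 1 * eb 1 : Q P) ∧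
    rowQ fd.h2 = trv (eb 2 * eb 2 : Q P) ∧ rowQ fd.h3 = trv (eb 3 * eb 3 : Q P)

theorem ival {y a n : ℝ} {p m l u : ℕ} {E : ℤ} (h : |y - E| ≤ n) (e : (p : ℤ) = m + E)
    (hl : (l : ℝ) ≤ a) (hu : a ≤ u) :
    p * l - (m + n) * u ≤ y * a ∧ y * a ≤ (p + n) * u - m * l := by
  obtain ⟨h1, h2⟩ := abs_le.mp h
  have e' : (p : ℝ) = m + E := by exact_mod_cast e
  have a0 : 0 ≤ a := (Nat.cast_nonneg l).trans hl
  have n0 : 0 ≤ n := (abs_nonneg _).trans h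
  have p0 : (0 : ℝ) ≤ p := Nat.cast_nonneg p
  have m0 : (0 : ℝ) ≤ m := Nat.cast_nonneg m
  constructor <;> nlinarith [mul_le_mul_of_nonneg_left hl p0, mul_le_mul_of_nonneg_left hl m0,
    mul_le_mul_of_nonneg_left hu (add_nonneg p0 n0), mul_le_mul_of_nonneg_left hu (add_nonneg m0 n0),
    mul_le_mul_of_nonneg_right h1 a0, mul_le_mul_of_nonneg_right h2 a0]

section
variable {S : Setup P} {fd : FD} (G : Geo S fd)
include G

theorem Geo.tr (d : ℕ) (y : Q P) : Q.tr (dec fd.b d * y) = y.a * ev P fd fd.g0 d +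
    y.b * ev P fd fd.g1 d + y.c * ev P fd fd.g2 d + y.d * ev P fd fd.g3 d := by
  obtain ⟨g0, g1, g2, g3⟩ := G.g
  simp only [ev, g0, g1, g2, g3, ← tr_mul]
  rw [mul_comm, tr_mul]
  simp only [Q.dot, trv, mul_comm (dec fd.b d)]
  ring

theorem Geo.cPN (d o : ℕ) : (cP fd d o : ℤ) = cN fd d o + Q.tr (dec fd.b d * dec fd.b o : Q P) := by
  rw [G.tr, cP_eq, cN_eq, tP_eq, tN_eq, rs_eq, rs_eq]
  push_cast
  rw [ln_cast (P := P), ln_cast (P := P)]
  simp only [Q.dot, (mp_mn P fd _ d).1, dec, one4, Q.sub_a, Q.sub_b, Q.sub_c,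
    Q.sub_d, Q.zsmul_a, Q.zsmul_b, Q.zsmul_c, Q.zsmul_d]
  ring

theorem ct1_spec {den K d o l0 l1 l2 l3 u0 u1 u2 u3 : ℕ}
    (h : ct1 fd den K d o l0 l1 l2 l3 u0 u1 u2 u3 = 0) {α : Q P}
    (h0 : (l0 : ℝ) ≤ 4096 * S.σ 0 α ∧ 4096 * S.σ 0 α ≤ u0)
    (h1 : (l1 : ℝ) ≤ 4096 * S.σ 1 α ∧ 4096 * S.σ 1 α ≤ u1)
    (h2 : (l2 : ℝ) ≤ 4096 * S.σ 2 α ∧ 4096 * S.σ 2 α ≤ u2)
    (h3 : (l3 : ℝ) ≤ 4096 * S.σ 3 α ∧ 4096 * S.σ 3 α ≤ u3) {κ : ℤ}
    (e : Q.tr (dec fd.b d * (α - dec fd.b o)) = den * κ) : ∃ n : ℕ, κ = n ∧ n < K := by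
  have hB := G.ph.1
  obtain ⟨a0, b0⟩ := ival (G.a0.code hB d) (mp_mn P fd _ d).1 h0.1 h0.2
  obtain ⟨a1, b1⟩ := ival (G.a1.code hB d) (mp_mn P fd _ d).1 h1.1 h1.2
  obtain ⟨a2, b2⟩ := ival (G.a2.code hB d) (mp_mn P fd _ d).1 h2.1 h2.2
  obtain ⟨a3, b3⟩ := ival (G.a3.code hB d) (mp_mn P fd _ d).1 h3.1 h3.2
  have t := S.sum_σ (dec fd.b d * α)
  have e1 : Q.tr (dec fd.b d * α) + cN fd d o = den * κ + cP fd d o := by
    rw [G.cPN, ← e, mul_comm (dec fd.b d), mul_comm (dec fd.b d), mul_comm (dec fd.b d), tr_mul,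
      tr_mul, tr_mul, dot_sub]
    ring
  have e2 := congrArg (Int.cast : ℤ → ℝ) e1
  rw [Fin.sum_univ_four] at t
  simp only [map_mul] at t
  rw [ct1_eq, Nat.add_eq_zero_iff, Nat.sub_eq_zero_iff_le, Nat.sub_eq_zero_iff_le,
    ← Nat.cast_le (α := ℝ), ← Nat.cast_le (α := ℝ)] at h
  simp only [mp2_eq, mn2_eq, c1_eq, c2_eq, c3_eq, c4_eq] at h
  push_cast at h e2
  have r1 : (den : ℝ) * (-1) < den * κ := by linarith [h.1]
  have r2 : (den : ℝ) * κ < den * K := by linarith [h.2]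
  have d0 : (0 : ℝ) ≤ den := Nat.cast_nonneg den
  have r3 : (-1 : ℤ) < κ := by exact_mod_cast lt_of_mul_lt_mul_left r1 d0
  have r4 : κ < K := by exact_mod_cast lt_of_mul_lt_mul_left r2 d0
  exact ⟨κ.toNat, by omega, by omega⟩

theorem eq1_spec {sh : Sh} {g : Row} {w : ℕ} {e : Q P} (hw : Ph w e) (he : n1 e = 1)
    (hd : sh.den >>> 20 = 0) (ht : tb fd sh g = 0) (h : eq1 fd sh g w = 0) :
    (sh.den : Q P) * e = ev P fd g sh.d0 • dec fd.b sh.b0 + ev P fd g sh.d1 • dec fd.b sh.b1 +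
      ev P fd g sh.d2 • dec fd.b sh.b2 + ev P fd g sh.d3 • dec fd.b sh.b3 := by
  have p := ph_spec G.ph
  have nb : ∀ (m b : ℕ), n1 ((m : ℤ) • dec fd.b b : Q P) ≤ m * 262144 := fun m b => by
    rw [n1_smul, abs_of_nonneg (Int.natCast_nonneg _)]
    exact mul_le_mul_of_nonneg_left (n1_dec G.ph.1 b) (Int.natCast_nonneg _)
  have n4 : ∀ m0 m1 m2 m3 : ℕ, n1 ((m0 : ℤ) • dec fd.b sh.b0 + (m1 : ℤ) • dec fd.b sh.b1 +
      (m2 : ℤ) • dec fd.b sh.b2 + (m3 : ℤ) • dec fd.b sh.b3 : Q P) ≤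
      (m0 + m1 + m2 + m3) * 262144 := fun m0 m1 m2 m3 => by
    refine (n1_add _ _).trans ((add_le_add ((n1_add _ _).trans (add_le_add ((n1_add _ _).trans
      (add_le_add (nb _ _) (nb _ _))) (nb _ _))) (nb _ _)).trans (le_of_eq (by ring)))
  obtain ⟨a0, b0, -⟩ := mp_mn P fd g sh.d0
  obtain ⟨a1, b1, -⟩ := mp_mn P fd g sh.d1
  obtain ⟨a2, b2, -⟩ := mp_mn P fd g sh.d2
  obtain ⟨a3, b3, -⟩ := mp_mn P fd g sh.d3
  rw [eq1_eq, Nat.xor_eq_zero_iff] at h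
  rw [tb_eq, Nat.shiftRight_eq_div_pow] at ht
  rw [Nat.shiftRight_eq_div_pow] at hd
  have := Ph.inj (((((p _).smul _).add ((p _).smul _)).add ((p _).smul _)).add ((p _).smul _))
    ((((((p _).smul _).add ((p _).smul _)).add ((p _).smul _)).add ((p _).smul _)).add
      (hw.smul _)) h (by
      have c1 := n4 (mp fd g sh.d0) (mp fd g sh.d1) (mp fd g sh.d2) (mp fd g sh.d3)
      have c2 := n4 (mn fd g sh.d0) (mn fd g sh.d1) (mn fd g sh.d2) (mn fd g sh.d3)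
      refine lt_of_le_of_lt (add_le_add c1 ((n1_add _ _).trans (add_le_add c2 le_rfl))) ?_
      rw [n1_smul, he, abs_of_nonneg (Int.natCast_nonneg _)]
      omega)
  rw [a0, a1, a2, a3] at this
  simp only [zsmul_eq_mul] at this ⊢
  push_cast at this
  linear_combination -this

/-- consequences of the shape check -/
theorem shC_spec {sh : Sh} (h : shC fd sh = 0) :
    0 < sh.q ∧ 0 < sh.den ∧ sD (kq sh.q) (dims sh) ≤ 4096 ∧
    (sb fd sh fd.r0 sh.s0 = 0 ∧ sb fd sh fd.r1 sh.s1 = 0 ∧ sb fd sh fd.r2 sh.s2 = 0 ∧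
      sb fd sh fd.r3 sh.s3 = 0) ∧
    ∀ y : Q P, (sh.den : Q P) * y = Q.tr (dec fd.b sh.d0 * y) • dec fd.b sh.b0 +
      Q.tr (dec fd.b sh.d1 * y) • dec fd.b sh.b1 + Q.tr (dec fd.b sh.d2 * y) • dec fd.b sh.b2 +
      Q.tr (dec fd.b sh.d3 * y) • dec fd.b sh.b3 := by
  rw [shC_eq] at h
  simp only [Nat.add_eq_zero_iff] at h
  obtain ⟨⟨⟨⟨⟨⟨h1, h2⟩, h3⟩, h4⟩, ⟨⟨⟨t0, t1⟩, t2⟩, t3⟩⟩, ⟨⟨⟨e0, e1⟩, e2⟩, e3⟩⟩, ⟨⟨⟨s0, s1⟩, s2⟩, s3⟩⟩ := h
  rw [Nat.shiftRight_eq_div_pow] at h4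
  refine ⟨by omega, by omega, by omega, ⟨s0, s1, s2, s3⟩, fun y => ?_⟩
  have f0 := eq1_spec G (e := eb 0) (by simp [Ph, Q.dot, phv, eb]) (by simp [n1, eb]) h3 t0 e0
  have f1 := eq1_spec G (e := eb 1) (by simp [Ph, Q.dot, phv, eb]) (by simp [n1, eb]) h3 t1 e1
  have f2 := eq1_spec G (e := eb 2) (by simp [Ph, Q.dot, phv, eb]) (by simp [n1, eb]) h3 t2 e2
  have f3 := eq1_spec G (e := eb 3) (by simp [Ph, Q.dot, phv, eb]) (by simp [n1, eb]) h3 t3 e3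
  have c := comb y
  simp only [zsmul_eq_mul] at c f0 f1 f2 f3
  simp only [G.tr, zsmul_eq_mul]
  push_cast
  linear_combination (sh.den : Q P) * c + y.a * f0 + y.b * f1 + y.c * f2 + y.d * f3

end

theorem cons_idx (B : ℕ) {q : ℕ} (hq : 0 < q) (e b : ℕ) (tl : Dm) {n c k N M : ℕ} (hn : n < q <<< e)
    (hc : c < N) (hk : k < 2 ^ M) : ∃ c' < q * N, ∃ k' < 2 ^ (e + M),
      (clp B q (Dm.cons e b tl) c' + ptd B q (Dm.cons e b tl) k' : Q P) =
        (n : ℤ) • dec B b + (clp B q tl c + ptd B q tl k) := by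
  have h1 := Nat.mod_lt n hq
  have h2 : n / q < 2 ^ e := Nat.div_lt_of_lt_mul (by rwa [Nat.shiftLeft_eq] at hn)
  refine ⟨n % q + q * c, by nlinarith, n / q + 2 ^ e * k, by
    rw [pow_add]; nlinarith [Nat.mul_le_mul_left (2 ^ e) hk], ?_⟩
  rw [clp, ptd, Nat.add_mul_mod_self_left, Nat.mod_mod, Nat.add_mul_div_left _ _ hq,
    Nat.div_eq_of_lt h1, zero_add, Nat.add_mul_mod_self_left, Nat.mod_eq_of_lt h2,
    Nat.shiftRight_eq_div_pow, Nat.add_mul_div_left _ _ (Nat.two_pow_pos e), Nat.div_eq_of_lt h2,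
    zero_add, add_add_add_comm, ← add_smul, ← Nat.cast_add, Nat.mod_add_div']

/-- a point of the box is a point of the tile, and its bit is set in the mask of the box -/
theorem loc {S : Setup P} {fd : FD} (G : Geo S fd) {sh : Sh} (hs : shC fd sh = 0)
    {o l0 l1 l2 l3 u0 u1 u2 u3 : ℕ} (h : ct fd sh o l0 l1 l2 l3 u0 u1 u2 u3 = 0) {α : Q P}
    (h0 : (l0 : ℝ) ≤ 4096 * S.σ 0 α ∧ 4096 * S.σ 0 α ≤ u0)
    (h1 : (l1 : ℝ) ≤ 4096 * S.σ 1 α ∧ 4096 * S.σ 1 α ≤ u1)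
    (h2 : (l2 : ℝ) ≤ 4096 * S.σ 2 α ∧ 4096 * S.σ 2 α ≤ u2)
    (h3 : (l3 : ℝ) ≤ 4096 * S.σ 3 α ∧ 4096 * S.σ 3 α ≤ u3)
    (hd : ∀ d ∈ [sh.d0, sh.d1, sh.d2, sh.d3],
      (sh.den : ℤ) ∣ Q.tr (dec fd.b d * (α - dec fd.b o))) :
    ∃ c < sh.q * sh.q * sh.q * sh.q, ∃ k < 2 ^ bits sh, α = pnt fd sh o c k := by
  obtain ⟨hq, d0, -, -, hy⟩ := shC_spec G hs
  obtain ⟨k0, e0⟩ := hd sh.d0 (by simp)
  obtain ⟨k1, e1⟩ := hd sh.d1 (by simp)
  obtain ⟨k2, e2⟩ := hd sh.d2 (by simp)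
  obtain ⟨k3, e3⟩ := hd sh.d3 (by simp)
  rw [ct_eq] at h
  simp only [Nat.add_eq_zero_iff] at h
  obtain ⟨n0, rfl, b0⟩ := ct1_spec G h.1.1.1 h0 h1 h2 h3 e0
  obtain ⟨n1, rfl, b1⟩ := ct1_spec G h.1.1.2 h0 h1 h2 h3 e1
  obtain ⟨n2, rfl, b2⟩ := ct1_spec G h.1.2 h0 h1 h2 h3 e2
  obtain ⟨n3, rfl, b3⟩ := ct1_spec G h.2 h0 h1 h2 h3 e3
  obtain ⟨c3, a3, j3, f3, g3⟩ := cons_idx (P := P) fd.b hq _ sh.b3 Dm.nil b3 Nat.one_pos
    (Nat.two_pow_pos 0)
  obtain ⟨c2, a2, j2, f2, g2⟩ := cons_idx (P := P) fd.b hq _ sh.b2 _ b2 a3 f3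
  obtain ⟨c1, a1, j1, f1, g1⟩ := cons_idx (P := P) fd.b hq _ sh.b1 _ b1 a2 f2
  obtain ⟨c0, a0, j0, f0, g0⟩ := cons_idx (P := P) fd.b hq _ sh.b0 _ b0 a1 f1
  refine ⟨c0, by simpa [mul_assoc] using a0, j0, by
    simpa only [bits_eq, dims_eq, bitsD_cons, bitsD_nil] using f0, ?_⟩
  have := S.isDomain
  have e := hy (α - dec fd.b o)
  rw [e0, e1, e2, e3] at e
  rw [pnt, add_assoc, dims_eq, g0, g1, g2, g3, clp, ptd]
  apply mul_left_cancel₀ (Nat.cast_ne_zero.mpr d0.ne' : (sh.den : Q P) ≠ 0)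
  simp only [zsmul_eq_mul] at e ⊢
  push_cast at e ⊢
  linear_combination e

theorem bm_spec {S : Setup P} {fd : FD} (G : Geo S fd) {sh : Sh} (hs : shC fd sh = 0)
    {o l0 l1 l2 l3 u0 u1 u2 u3 c k : ℕ} (hk : k < 2 ^ bits sh) {α : Q P} (e : α = pnt fd sh o c k)
    (h0 : (l0 : ℝ) ≤ 4096 * S.σ 0 α ∧ 4096 * S.σ 0 α ≤ u0)
    (h1 : (l1 : ℝ) ≤ 4096 * S.σ 1 α ∧ 4096 * S.σ 1 α ≤ u1)
    (h2 : (l2 : ℝ) ≤ 4096 * S.σ 2 α ∧ 4096 * S.σ 2 α ≤ u2)
    (h3 : (l3 : ℝ) ≤ 4096 * S.σ 3 α ∧ 4096 * S.σ 3 α ≤ u3) :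
    (bm fd sh o l0 l1 l2 l3 u0 u1 u2 u3).testBit k = true := by
  obtain ⟨hq, -, -, ⟨s0, s1, s2, s3⟩, -⟩ := shC_spec G hs
  subst e
  rw [bm_eq, Nat.testBit_and, Nat.testBit_and, Nat.testBit_and,
    band G.a0 G.ph.1 hq s0 hk h0.1 h0.2, band G.a1 G.ph.1 hq s1 hk h1.1 h1.2,
    band G.a2 G.ph.1 hq s2 hk h2.1 h2.2, band G.a3 G.ph.1 hq s3 hk h3.1 h3.2]
  rfl

end Pool.Agent.Lib.MP_aed2da_nt.H
end
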