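import Pool.Agent.Lib.MP_aed2da_nt.Pid
import Pool.Agent.Lib.MP_aed2da_nt.HGeo

-- part Pool.Agent.Lib.MP_aed2da_nt.Link
section

/-! The explicit rings are the rings of integers of the six biquadratic fields. -/

open NumberField

namespace Pool.Agent.Lib.MP_aed2da_nt

theorem Link.finrank_eq (P : Par) (K : Type*) [Field K] [CharZero K] [Algebra (Q P) K]
    [IsFractionRing (Q P) K] : Module.finrank ℚ K = 4 := by
  rw [IsFractionRing.finrank_eq ℤ ℚ (Q P) K, Module.finrank_eq_card_basis Q.basis, Fintype.card_fin]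

section
variable {P : Par} (S : Setup P) [IsDomain (Q P)] [IsPrincipalIdealRing (Q P)]
  (K : Type*) [Field K] [CharZero K] [Algebra (Q P) K] [IsFractionRing (Q P) K]
include S
set_option linter.unusedSectionVars false in
theorem Setup.numberField : NumberField K :=
  { to_finiteDimensional := Module.finite_of_finrank_pos (by rw [Link.finrank_eq P K]; norm_num) }
theorem Setup.link [NumberField K] : IsTotallyReal K ∧ Module.finrank ℚ K = 4 ∧
    (∀ x : Q P, TotPos (algebraMap (Q P) K x) ↔ S.Pos x) ∧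
    ∃ e : Q P ≃+* 𝓞 K, ∀ x, ((e x : 𝓞 K) : K) = algebraMap (Q P) K x := by
  have h4 := Link.finrank_eq P K
  let ρ : Fin 4 → K →+* ℝ := fun i => IsFractionRing.lift (S.inj i)
  have hρ : ∀ i x, ρ i (algebraMap _ K x) = S.σ i x := fun i x =>
    IsFractionRing.lift_algebraMap (S.inj i) x
  have hinj : Function.Injective fun i => Complex.ofRealHom.comp (ρ i) := fun i j h => by
    by_contra hij
    have h0 : (Matrix.of fun i j => S.σ i (Q.basis j)).det = 0 :=
      Matrix.det_zero_of_row_eq hij (funext fun k => by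
        have := DFunLike.congr_fun h (algebraMap _ K (Q.basis k : Q P))
        simpa [hρ] using this)
    have := S.det_sq
    rw [h0] at this
    exact S.D_pos.ne (by exact_mod_cast (zero_pow two_ne_zero).symm.trans this)
  have hs := ((Fintype.bijective_iff_injective_and_card _).2
    ⟨hinj, by rw [Embeddings.card, h4, Fintype.card_fin]⟩).2
  refine ⟨⟨fun v => ?_⟩, h4, fun x => ⟨fun h i => hρ i x ▸ h (ρ i), fun h f => ?_⟩,
    (RingOfIntegers.equiv (Q P)).symm, fun x => ?_⟩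
  · obtain ⟨i, hi⟩ := hs v.embedding
    rw [InfinitePlace.isReal_iff, ← hi, ComplexEmbedding.isReal_iff]
    ext x
    simp
  · obtain ⟨i, hi⟩ := hs (Complex.ofRealHom.comp f)
    have := DFunLike.congr_fun hi (algebraMap _ K x)
    simp only [RingHom.comp_apply, Complex.ofRealHom_eq_coe, Complex.ofReal_inj, hρ] at this
    exact this ▸ h i
  · exact IsIntegralClosure.algebraMap_equiv ℤ (Q P) K (𝓞 K) x
end

/-- the biquadratic field -/
noncomputable abbrev KK (a b : ℕ) : IntermediateField ℚ ℝ :=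
  IntermediateField.adjoin ℚ {Real.sqrt a, Real.sqrt b}

theorem Link.iso {P : Par} (S : Setup P) [IsDomain (Q P)] [IsPrincipalIdealRing (Q P)] {a b : ℕ}
    (h1 : S.σ 0 Q.gw ∈ KK a b) (h2 : S.σ 0 Q.gh ∈ KK a b) (x y : Q P)
    (hx : S.σ 0 x = Real.sqrt a) (hy : S.σ 0 y = Real.sqrt b) : Nonempty (Q P ≃+* 𝓞 (KK a b)) := by
  have hm : ∀ x, S.σ 0 x ∈ KK a b := fun x => by
    rw [Q.map_eq]
    exact add_mem (add_mem (add_mem (intCast_mem _ _) (mul_mem (intCast_mem _ _) h1))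
      (mul_mem (intCast_mem _ _) h2)) (mul_mem (intCast_mem _ _) (mul_mem h1 h2))
  let _ : Algebra (Q P) (KK a b) := ((S.σ 0).codRestrict (KK a b) hm).toAlgebra
  have : FaithfulSMul (Q P) (KK a b) := (faithfulSMul_iff_algebraMap_injective _ _).2
    fun x y h => S.inj 0 (congrArg Subtype.val h)
  have : IsFractionRing (Q P) (KK a b) := IsFractionRing.of_field _ _ fun z => by
    have h : (KK a b).toSubfield ≤ Subfield.closure ((S.σ 0).range : Set ℝ) := by
      rw [IntermediateField.adjoin_toSubfield, Subfield.closure_le]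
      rintro t (⟨q, rfl⟩ | rfl | rfl)
      · exact SubfieldClass.ratCast_mem _ q
      · exact Subfield.subset_closure ⟨x, hx⟩
      · exact Subfield.subset_closure ⟨y, hy⟩
    obtain ⟨u, hu, v, hv, e⟩ := Subfield.mem_closure_iff.1 (h z.2)
    rw [Subring.closure_eq] at hu hv
    obtain ⟨u, rfl⟩ := hu
    obtain ⟨v, rfl⟩ := hv
    exact ⟨u, v, Subtype.ext e.symm⟩
  have := S.numberField (KK a b)
  obtain ⟨-, -, -, e, -⟩ := S.link (KK a b)
  exact ⟨e⟩

theorem Link.mem (a b : ℕ) : Real.sqrt a ∈ KK a b ∧ Real.sqrt b ∈ KK a b ∧ (2 : ℝ) ∈ KK a b :=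
  ⟨IntermediateField.subset_adjoin _ _ (by simp), IntermediateField.subset_adjoin _ _ (by simp),
    ofNat_mem _ 2⟩

theorem Link.sqrt_mul (a b c : ℕ) (h : c = a * b) :
    Real.sqrt c = Real.sqrt a * Real.sqrt b := by
  rw [h, Nat.cast_mul, Real.sqrt_mul (by positivity)]

theorem iso23 : Nonempty (Q P23 ≃+* 𝓞 (KK 2 3)) := by
  obtain ⟨h1, h2, h3⟩ := Link.mem 2 3
  have e := Link.sqrt_mul 2 3 6 rfl
  have hs : Real.sqrt 2 * Real.sqrt 2 = 2 := Real.mul_self_sqrt (by norm_num)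
  push_cast at h1 h2 e
  refine Link.iso S23 ?_ ?_ Q.gw ⟨-1, 0, 0, 1⟩ ?_ ?_ <;>
    simp [S23, Fld.gal23.zero, Q.lift_apply, Q.gw, Q.gh, e]
  · exact h1
  · exact div_mem (add_mem h1 (mul_mem h1 h2)) h3
  · linear_combination (1 + Real.sqrt 3) / 2 * hs
theorem iso35 : Nonempty (Q P35 ≃+* 𝓞 (KK 3 5)) := by
  obtain ⟨h1, h2, h3⟩ := Link.mem 3 5
  push_cast at h1 h2
  refine Link.iso S35 ?_ ?_ Q.gh ⟨-1, 2, 0, 0⟩ ?_ ?_ <;>
    simp [S35, Fld.gal35.zero, Q.lift_apply, Q.gw, Q.gh]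
  · exact div_mem (add_mem (one_mem _) h2) h3
  · exact h1
  · ring
theorem iso37 : Nonempty (Q P37 ≃+* 𝓞 (KK 3 7)) := by
  obtain ⟨h1, h2, h3⟩ := Link.mem 3 7
  have e := Link.sqrt_mul 3 7 21 rfl
  have hs : Real.sqrt 3 * Real.sqrt 3 = 3 := Real.mul_self_sqrt (by norm_num)
  have ht : Real.sqrt 7 * Real.sqrt 7 = 7 := Real.mul_self_sqrt (by norm_num)
  push_cast at h1 h2 e
  refine Link.iso S37 ?_ ?_ ⟨0, 0, -2, 1⟩ ⟨0, 0, 4, -1⟩ ?_ ?_ <;>
    simp [S37, Fld.gal37.zero, Q.lift_apply, Q.gw, Q.gh, e]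
  · exact div_mem (add_mem (one_mem _) (mul_mem h1 h2)) h3
  · exact div_mem (add_mem h1 h2) h3
  · linear_combination Real.sqrt 7 / 4 * hs + Real.sqrt 3 / 4 * ht
  · linear_combination -Real.sqrt 7 / 4 * hs - Real.sqrt 3 / 4 * ht
theorem iso27 : Nonempty (Q P27 ≃+* 𝓞 (KK 2 7)) := by
  obtain ⟨h1, h2, h3⟩ := Link.mem 2 7
  have e := Link.sqrt_mul 2 7 14 rfl
  have hs : Real.sqrt 2 * Real.sqrt 2 = 2 := Real.mul_self_sqrt (by norm_num)
  push_cast at h1 h2 e
  refine Link.iso S27 ?_ ?_ Q.gw ⟨-1, 0, 0, 1⟩ ?_ ?_ <;>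
    simp [S27, Fld.gal27.zero, Q.lift_apply, Q.gw, Q.gh, e]
  · exact h1
  · exact div_mem (add_mem h1 (mul_mem h1 h2)) h3
  · linear_combination (1 + Real.sqrt 7) / 2 * hs
theorem iso56 : Nonempty (Q P56 ≃+* 𝓞 (KK 5 6)) := by
  obtain ⟨h1, h2, h3⟩ := Link.mem 5 6
  push_cast at h1 h2
  refine Link.iso S56 ?_ ?_ ⟨-1, 2, 0, 0⟩ Q.gh ?_ ?_ <;>
    simp [S56, Fld.gal56.zero, Q.lift_apply, Q.gw, Q.gh]
  · exact div_mem (add_mem (one_mem _) h1) h3
  · exact h2
  · ring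
theorem iso57 : Nonempty (Q P57 ≃+* 𝓞 (KK 5 7)) := by
  obtain ⟨h1, h2, h3⟩ := Link.mem 5 7
  push_cast at h1 h2
  refine Link.iso S57 ?_ ?_ ⟨-1, 2, 0, 0⟩ Q.gh ?_ ?_ <;>
    simp [S57, Fld.gal57.zero, Q.lift_apply, Q.gw, Q.gh]
  · exact div_mem (add_mem (one_mem _) h1) h3
  · exact h2
  · ring

end Pool.Agent.Lib.MP_aed2da_nt
end

-- part Pool.Agent.Lib.MP_aed2da_nt.HTile
section

/-! Soundness of the tile checker and of the cell checker. -/

namespace Pool.Agent.Lib.MP_aed2da_nt.H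

variable {P : Par}

/-- the coordinate `i` lies between the grid points `l` and `u` -/
def InB (S : Setup P) (i : Fin 4) (l u : ℕ) (α : Q P) : Prop :=
  (gr l : ℝ) ≤ 4096 * S.σ i α ∧ (u < 832 → 4096 * S.σ i α ≤ gr u)

/-- reduced under automorphisms and squares of units -/
def Red (S : Setup P) (α : Q P) : Prop :=
  (∀ j, S.σ j α ≤ S.σ 0 α) ∧ ∀ u : Q P, IsUnit u → Q.tr α ≤ Q.tr (u * u * α)

def BOK (S : Setup P) (l0 l1 l2 l3 u0 u1 u2 u3 : ℕ) : Prop :=
  ∀ α, IsSumSq α → Red S α → InB S 0 l0 u0 α → InB S 1 l1 u1 α → InB S 2 l2 u2 α →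
    InB S 3 l3 u3 α → S4 α

def BoxOK (S : Setup P) (x : ℕ) : Prop :=
  BOK S (x % 1024) ((x >>> 10) % 1024) ((x >>> 20) % 1024) ((x >>> 30) % 1024)
    ((x >>> 40) % 1024) ((x >>> 50) % 1024) ((x >>> 60) % 1024) ((x >>> 70) % 1024)

def BoxesOK (S : Setup P) (s : ℕ) : Prop :=
  ∀ i, BoxOK S ((s >>> (80 * i)) % 1208925819614629174706176)

theorem boxOK_zero (S : Setup P) {s : ℕ} (h : s = 0) :
    BoxOK S (s % 1208925819614629174706176) := by
  subst h
  intro α _ _ h0 _ _ _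
  simp only [InB, Nat.zero_mod, Nat.zero_shiftRight, gr_zero, Nat.cast_zero] at h0
  have : S.σ 0 α = S.σ 0 0 := by rw [map_zero]; linarith [h0.1, h0.2 (by norm_num)]
  exact ⟨0, 0, 0, 0, by simp [S.inj 0 this]⟩

def H3 (S : Setup P) (Ls : List (Lit P)) (fm : Fm) (N : ℕ) : Prop :=
  ∀ β : Q P, S.Pos β → Sq2 β → (N : ℤ) < Q.nm β → Good Ls fm β → S3 β

theorem sq2_of {α : Q P} (h : IsSumSq α) : Sq2 α := by
  induction h with
  | zero => exact ⟨0, by simp⟩
  | sq_add a _ ih =>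
    obtain ⟨t, z, hz⟩ := ih
    exact ⟨a + t, z - a * t, by linear_combination hz⟩

theorem fin4 {S : Setup P} {Ls : List (Lit P)} {fm : Fm} {N : ℕ} (h3 : H3 S Ls fm N) {α x : Q P}
    (hα : IsSumSq α) (hg : Good Ls fm (-(x * x) + α)) {c : ℝ} (hc : 0 < c) {C g0 g1 g2 g3 : ℕ}
    (hC : (C : ℝ) = c ^ 4) (hN : N * C + 1 ≤ g0 * g1 * g2 * g3)
    (h0 : g0 ≠ 0 → (g0 : ℝ) ≤ c * (S.σ 0 α - S.σ 0 x ^ 2))
    (h1 : g1 ≠ 0 → (g1 : ℝ) ≤ c * (S.σ 1 α - S.σ 1 x ^ 2))
    (h2 : g2 ≠ 0 → (g2 : ℝ) ≤ c * (S.σ 2 α - S.σ 2 x ^ 2))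
    (h3' : g3 ≠ 0 → (g3 : ℝ) ≤ c * (S.σ 3 α - S.σ 3 x ^ 2)) : S4 α := by
  have hp : g0 * g1 * g2 * g3 ≠ 0 := by omega
  simp only [ne_eq, Nat.mul_eq_zero, not_or] at hp
  obtain ⟨⟨⟨p0, p1⟩, p2⟩, p3⟩ := hp
  have e : ∀ i, S.σ i α - S.σ i x ^ 2 = S.σ i (-(x * x) + α) := fun i => by
    simp only [map_add, map_neg, map_mul]; ring
  simp only [e] at h0 h1 h2 h3'
  have a0 := h0 p0
  have a1 := h1 p1
  have a2 := h2 p2
  have a3 := h3' p3
  have pos : ∀ {g : ℕ} {y : ℝ}, g ≠ 0 → (g : ℝ) ≤ c * y → 0 < y := fun hg h =>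
    (mul_pos_iff_of_pos_left hc).mp ((Nat.cast_pos.mpr (Nat.pos_of_ne_zero hg)).trans_le h)
  obtain ⟨t, z, hz⟩ := sq2_of hα
  obtain ⟨a, b, d, hd⟩ := h3 (-(x * x) + α) (fun i => by
      fin_cases i
      exacts [pos p0 a0, pos p1 a1, pos p2 a2, pos p3 a3])
    ⟨t - x, z + x * t - x * x, by linear_combination hz⟩ (by
      have n := S.prod_σ (-(x * x) + α)
      rw [Fin.prod_univ_four] at n
      have m : ((g0 * g1 * g2 * g3 : ℕ) : ℝ) ≤ c ^ 4 * Q.nm (-(x * x) + α) := by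
        rw [← n]
        push_cast
        calc _ ≤ c * S.σ 0 (-(x * x) + α) * (c * S.σ 1 (-(x * x) + α)) *
            (c * S.σ 2 (-(x * x) + α)) * (c * S.σ 3 (-(x * x) + α)) := by
              gcongr
              all_goals first | positivity | exact mul_nonneg (mul_nonneg ((Nat.cast_nonneg _).trans a0) ((Nat.cast_nonneg _).trans a1)) ((Nat.cast_nonneg _).trans a2) | exact mul_nonneg ((Nat.cast_nonneg _).trans a0) ((Nat.cast_nonneg _).trans a1) | exact (Nat.cast_nonneg _).trans a0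
          _ = _ := by ring
      have m' : ((N * C + 1 : ℕ) : ℝ) ≤ _ := (Nat.cast_le.mpr hN).trans m
      push_cast at m'
      rw [hC] at m'
      have : (N : ℝ) < Q.nm (-(x * x) + α) :=
        lt_of_mul_lt_mul_left (a := c ^ 4) (by linarith) (by positivity)
      exact_mod_cast this) hg
  exact ⟨x, a, b, d, by linear_combination hd⟩

theorem s4_of {α a b c d : Q P} (h : α = a * a + b * b + c * c + d * d) : S4 α :=
  ⟨a, b, c, d, by rw [h]; ring⟩

theorem dv_spec {fd : FD} {den m d : ℕ} {g : Row} (h : dv fd den m g d = 0) :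
    (den : ℤ) ∣ m * ev P fd g d := by
  rw [dv_eq] at h
  have := Int.natCast_dvd_natCast.mpr (Nat.dvd_of_mod_eq_zero h)
  rwa [Nat.cast_mul, ab_abs P, ← abs_of_nonneg (Int.natCast_nonneg m), ← abs_mul, dvd_abs] at this

theorem dv4_spec {fd : FD} {sh : Sh} {m : ℕ} {g : Row} (h : dv4 fd sh m g = 0) :
    ∀ d ∈ [sh.d0, sh.d1, sh.d2, sh.d3], (sh.den : ℤ) ∣ m * ev P fd g d := by
  simp only [dv4_eq, Nat.add_eq_zero_iff] at h
  simp [dv_spec h.1.1.1, dv_spec h.1.1.2, dv_spec h.1.2, dv_spec h.2]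

section
variable {S : Setup P} {fd : FD} (G : Geo S fd) {sh : Sh}
include G

theorem dvG_spec {m : ℕ} (h : dvG fd sh m = 0) : ∀ d ∈ [sh.d0, sh.d1, sh.d2, sh.d3], ∀ y : Q P,
    (sh.den : ℤ) ∣ m * Q.tr (dec fd.b d * y) := by
  intro d hd y
  simp only [dvG_eq, Nat.add_eq_zero_iff] at h
  rw [G.tr]
  refine (((((dv4_spec (P := P) h.1.1.1 d hd).mul_left y.a).add
    ((dv4_spec (P := P) h.1.1.2 d hd).mul_left y.b)).add
    ((dv4_spec (P := P) h.1.2 d hd).mul_left y.c)).add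
    ((dv4_spec (P := P) h.2 d hd).mul_left y.d)).trans (dvd_of_eq (by ring))

theorem dvd_sum (h : dvG fd sh 2 = 0) (h' : dvH fd sh = 0) {o : ℕ} (ho : dO fd sh o = 0) {α : Q P}
    (hα : IsSumSq α) : ∀ d ∈ [sh.d0, sh.d1, sh.d2, sh.d3],
      (sh.den : ℤ) ∣ Q.tr (dec fd.b d * (α - dec fd.b o)) := by
  intro d hd
  rw [mul_comm, tr_mul, dot_sub]
  refine dvd_sub ?_ ?_
  · induction hα with
    | zero => simp [dot_zero]
    | sq_add a _ ih =>
      have g := dvG_spec G h d hd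
      simp only [dvH_eq, Nat.add_eq_zero_iff] at h'
      have h0 := dv4_spec (P := P) h'.1.1.1 d hd
      have h1 := dv4_spec (P := P) h'.1.1.2 d hd
      have h2 := dv4_spec (P := P) h'.1.2 d hd
      have h3 := dv4_spec (P := P) h'.2 d hd
      simp only [ev, G.h, ← tr_mul, Nat.cast_one, one_mul, Nat.cast_ofNat,
        mul_comm (dec fd.b d)] at h0 h1 h2 h3 g
      rw [dot_add, dot_sq]
      refine dvd_add ?_ ih
      simp only [← tr_mul]
      exact ((((((h0.mul_right _).add ((g _).mul_right _)).add ((g _).mul_right _)).add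
        ((g _).mul_right _)).mul_left _).add (((((h1.mul_right _).add ((g _).mul_right _)).add
        ((g _).mul_right _)).mul_left _)) |>.add (((h2.mul_right _).add
        ((g _).mul_right _)).mul_left _)).add ((h3.mul_right _).mul_left _)
  · rw [← tr_mul, mul_comm]
    have e : dO1 fd sh.den d o = 0 := by
      simp only [dO_eq, Nat.add_eq_zero_iff] at ho
      simp only [List.mem_cons, List.not_mem_nil, or_false] at hd
      rcases hd with rfl | rfl | rfl | rfl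
      exacts [ho.1.1.1, ho.1.1.2, ho.1.2, ho.2]
    rw [dO1_eq, Nat.xor_eq_zero_iff] at e
    have := (Int.natCast_modEq_iff.mpr e).symm.dvd
    rwa [G.cPN, add_sub_cancel_left] at this

theorem ph_pnt (o c k : ℕ) : Ph (cf fd sh o c + pk fd sh k) (pnt fd sh o c k : Q P) := by
  have p := ph_spec G.ph
  have := ((((((((p o).add ((p sh.b0).smul (c % sh.q))).add ((p sh.b1).smul (c / sh.q % sh.q))).add
    ((p sh.b2).smul (c / sh.q / sh.q % sh.q))).add
    ((p sh.b3).smul (c / sh.q / sh.q / sh.q % sh.q))).add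
    ((p sh.b0).smul (k % 2 ^ sh.e0 * sh.q))).add
    ((p sh.b1).smul (k >>> sh.e0 % 2 ^ sh.e1 * sh.q))).add
    ((p sh.b2).smul (k >>> sh.e0 >>> sh.e1 % 2 ^ sh.e2 * sh.q))).add
    ((p sh.b3).smul (k >>> sh.e0 >>> sh.e1 >>> sh.e2 % 2 ^ sh.e3 * sh.q))
  convert this using 1
  · simp only [cf_eq, pk_eq, pq_eq, sh2_eq, sh3_eq, Nat.shiftRight_add, Nat.one_shiftLeft]; ring
  · simp only [pnt, dims_eq, clp, ptd]; abel

theorem pnt_eq (hs : shC fd sh = 0) {o c k j R : ℕ} {y : Q P} (hy : Ph R y)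
    (hn : n1 y ≤ 70368744177664) (h : ((1 - ((cf fd sh o c + pk fd sh j) %
      6277101735386680763835789423207666416102355444464034512896 ^^^ R %
      6277101735386680763835789423207666416102355444464034512896)) <<< j).testBit k = true) :
    pnt fd sh o c k = y := by
  obtain ⟨h1, rfl⟩ := eq_bit h
  obtain ⟨hq, -, h2, -⟩ := shC_spec G hs
  refine (ph_pnt G o c k).inj hy h1 ?_
  have := n1_pnt (P := P) G.ph.1 hq o c k
  rw [er_eq] at this
  omega

end

theorem rp_co (fd : FD) (sh : Sh) (h : sD (kq sh.q) (dims sh) ≤ 4096) (hq : 0 < sh.q) (o c : ℕ) :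
    Rp fd (co fd sh o c) (dec fd.b o + clp fd.b sh.q (dims sh) c : Q P) 8589934592 := by
  have p := rp_ln (P := P) fd
  refine (((((p o).add ((p sh.b0).smul (c % sh.q))).add ((p sh.b1).smul (c / sh.q % sh.q))).add
    ((p sh.b2).smul (c / sh.q / sh.q % sh.q))).add
    ((p sh.b3).smul (c / sh.q / sh.q / sh.q % sh.q))).of (co_eq _ _ _ _).symm ?_ ?_
  · simp only [dims_eq, clp]; abel
  · rw [dims_eq, sD_cons, kq_eq] at h
    have := le_shl sh.q sh.e0
    have := Nat.mod_lt c hq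
    have := Nat.mod_lt (c / sh.q) hq
    have := Nat.mod_lt (c / sh.q / sh.q) hq
    have := Nat.mod_lt (c / sh.q / sh.q / sh.q) hq
    omega

theorem loop_bit {F f : ℕ → ℕ} (h0 : F 0 = 0) (hs : ∀ i, F (i + 1) = F i ||| f i) {n k : ℕ}
    (h : (F n).testBit k = true) : ∃ i, (f i).testBit k = true := by
  induction n with
  | zero => simp [h0] at h
  | succ n ih =>
    rw [hs, Nat.testBit_or, Bool.or_eq_true] at h
    exact h.elim ih fun h => ⟨n, h⟩

theorem bxL_spec (fd : FD) (sh : Sh) (o n s i : ℕ) :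
    (bxL fd sh o n s).testBit (2 ^ bits sh) = true ∨ s >>> (80 * i) = 0 ∨
    ∀ k, (bx2 fd sh o ((s >>> (80 * i)) % 1208925819614629174706176)).testBit k = true →
      (bxL fd sh o n s).testBit k = true := by
  induction n generalizing s i with
  | zero => exact Or.inl (by rw [bxL_zero]; exact ones_succ _)
  | succ n ih =>
    rw [bxL_succ, cs2_eq]
    split_ifs with h
    · exact Or.inr (Or.inl (by rw [h, Nat.zero_shiftRight]))
    simp only [Nat.testBit_or, Bool.or_eq_true]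
    cases i with
    | zero => exact Or.inr (Or.inr fun k hk => Or.inl hk)
    | succ i =>
      rw [mul_add, mul_one, add_comm, Nat.shiftRight_add]
      exact (ih (s >>> 80) i).imp Or.inr (Or.imp id fun h k hk => Or.inr (h k hk))

/-- the evaluator `pr` computes the formula `f` -/
structure Ev (Ls : List (Lit P)) (ld : List LD) (p : Lit P → LD → Bool) (f : Fm)
    (pr : (LD → ℕ → ℕ) → ℕ → ℕ) : Prop where
  ev : ∀ g r, pr g r = evF g ld r f
  all : allF Ls ld p f = true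

section
variable {S : Setup P} {fd : FD} (G : Geo S fd) {Ls : List (Lit P)} {fm : Fm}
  (h3 : H3 S Ls fm fd.nmax) {ld : List LD}
include G h3

theorem chunk_sound {pr : (LD → ℕ → ℕ) → ℕ → ℕ}
    (E : Ev Ls ld (fun L l => decide (LitOK fd L l)) fm pr) {m nm : Tr}
    (hN : ∀ i, ¬ IsSumSq (dec fd.b (mget nm i) : Q P)) {sh : Sh} (hs : shC fd sh = 0)
    {o ps c s k : ℕ} (h : (chunk fd pr m nm sh o ps c s).testBit k = true)
    (hα : IsSumSq (pnt fd sh o c k : Q P)) : S4 (pnt fd sh o c k : Q P) := by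
  obtain ⟨hq, -, hK, ⟨s0, s1, s2, s3⟩, -⟩ := shC_spec G hs
  have hB := G.ph.1
  rw [chunk_eq, cs3_eq] at h
  split_ifs at h
  · obtain ⟨i, h⟩ := loop_bit (cvL_zero _ _ _ _ _ _ _) (cvL_succ _ _ _ _ _ _ _) h
    generalize (s >>> (20 * i + 16)) % 1048576 = dg at h
    rw [Nat.testBit_and, Bool.and_eq_true, E.ev, xwd_eq, hx_eq, hx2_eq, fN_eq, fN_eq, fN_eq, fN_eq,
      hx1_eq] at h
    generalize mget m (dg % 32768) = x at h
    obtain ⟨h1, h2⟩ := h
    obtain ⟨h2, h4⟩ := sw_bit h2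
    simp only [Nat.testBit_and, Bool.and_eq_true] at h4
    have gp : ∀ {f : Q P →+* ℝ} {r : Row} {s t : ℕ}, Ap f r → sb fd sh r s = 0 →
        (hc fd r s sh t).testBit k = true → gp fd r s sh o (qh fd r x) t ≠ 0 →
        (gp fd r s sh o (qh fd r x) t : ℝ) ≤
          2 ^ 40 * (f (pnt fd sh o c k) - f (dec fd.b x) ^ 2) := fun hA a b d => by
      have := gp_spec hA hB hq a (c := c) b d
      have := qh_spec hA hB x
      linarith
    refine fin4 h3 hα (x := dec fd.b x) (c := 2 ^ 40) ?_ (by positivity) (by norm_num)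
      (Nat.ble_eq.mp h2) (gp G.a0 s0 h4.1.1) (gp G.a1 s1 h4.1.2) (gp G.a2 s2 h4.2.1)
      (gp G.a3 s3 h4.2.2)
    refine evF_spec (fun L l hl hk => ?_) E.all h1
    rw [pnt, ← add_assoc]
    exact tg_spec (of_decide_eq_true hl) hK ((rp_qf fd x).add (rp_co fd sh hK hq o c))
      (by norm_num) hk
  · obtain ⟨i, h⟩ := loop_bit (e4L_zero _ _ _ _ _) (e4L_succ _ _ _ _ _) h
    simp only [ex4_eq, xsd_eq] at h
    have p := xs_spec G.ph
    have b := n1_sq G.ph
    refine s4_of (pnt_eq G hs ((((p _).add (p _)).add (p _)).add (p _)) ?_ h)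
    exact ((n1_add _ _).trans (add_le_add ((n1_add _ _).trans (add_le_add ((n1_add _ _).trans
      (add_le_add (b _) (b _))) (b _))) (b _))).trans (by norm_num)
  · obtain ⟨i, h⟩ := loop_bit (eNL_zero _ _ _ _ _) (eNL_succ _ _ _ _ _) h
    rw [exN_eq, phd_eq] at h
    rw [pnt_eq G hs (ph_spec G.ph _) ((n1_dec hB _).trans (by norm_num)) h] at hα
    exact absurd hα (hN _)

theorem tile_sound {pr : (LD → ℕ → ℕ) → ℕ → ℕ}
    (E : Ev Ls ld (fun L l => decide (LitOK fd L l)) fm pr) {m nm : Tr}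
    (hN : ∀ i, ¬ IsSumSq (dec fd.b (mget nm i) : Q P)) {sh : Sh} {o ps : ℕ} {bx : Tr}
    {cl : List (List ℕ)} (h : chkTile fd pr m nm sh o ps bx cl = true) : AllT (BoxesOK S) bx := by
  rw [chkTile_eq, sw_and, Nat.beq_eq] at h
  obtain ⟨h, hc⟩ := h
  simp only [Nat.add_eq_zero_iff] at h
  obtain ⟨⟨⟨⟨hs, d1⟩, d2⟩, d3⟩, hn⟩ := h
  obtain ⟨n, -, n1, n2⟩ := idxL_spec hc
  rw [finQ_eq, Nat.ble_eq] at n1
  refine allT_or (bxC fd sh o) bx fun s hsub i => ?_
  have np : ¬ (need fd sh o bx).testBit (2 ^ bits sh) = true := by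
    rw [← Nat.add_zero (2 ^ bits sh), ← Nat.testBit_shiftRight, ← Nat.one_shiftLeft, hn]
    simp
  rw [← need_eq, bxC_eq] at hsub
  rcases bxL_spec fd sh o 129 s i with h0 | h0 | h0
  · exact absurd (hsub _ h0) np
  · exact boxOK_zero S h0
  intro α hα _ b0 b1 b2 b3
  have sub := fun k hk => hsub k (h0 k hk)
  rw [bx2_eq, bx1_eq, cs2_eq] at sub
  split_ifs at sub with h0
  · simp only [Nat.add_eq_zero_iff, Nat.div_eq_zero_iff, OfNat.ofNat_ne_zero, false_or] at h0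
    obtain ⟨h0, ⟨⟨u0, u1⟩, u2⟩, u3⟩ := h0
    have a0 := And.intro b0.1 (b0.2 u0)
    have a1 := And.intro b1.1 (b1.2 u1)
    have a2 := And.intro b2.1 (b2.2 u2)
    have a3 := And.intro b3.1 (b3.2 u3)
    obtain ⟨c, hc, k, hk, e⟩ := loc G hs h0 a0 a1 a2 a3 (dvd_sum G d1 d2 d3 hα)
    obtain ⟨l, hl⟩ := n2 c (Nat.zero_le _) (by omega)
    rw [clsC_eq, Nat.beq_eq] at hl
    obtain ⟨a, ha⟩ := orL_bit (cov_bit hl (sub k (bm_spec G hs hk e a0 a1 a2 a3)))
    subst e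
    exact chunk_sound G h3 E hN hs ha hα
  · exact absurd (sub _ (ones_succ _)) np

end

/-! ### frontier cells -/

/-- a digit of a residue layout -/
structure Ly (P : Par) where
  e : ℕ
  b : ℕ
  l : Q P
  n : ℕ

def toDm : List (Ly P) → Dm
  | [] => Dm.nil
  | a :: t => Dm.cons a.e a.b (toDm t)

def kof : List (Ly P) → Q P → ℕ
  | [], _ => 0
  | a :: t, y => (Q.dot a.l y % a.n).toNat + 2 ^ a.e * kof t y

def vld : List (Ly P) → ℕ → Bool
  | [], _ => true
  | a :: t, k => decide (k % 2 ^ a.e < a.n) && vld t (k / 2 ^ a.e)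

def lsum (B : ℕ) (l : Q P) : List (Ly P) → Q P
  | [] => 0
  | a :: t => Q.dot l (dec B a.b) • a.l + lsum B l t

def FunLay (B : ℕ) (ly : List (Ly P)) (l : Q P) (n : ℕ) : Prop :=
  (∀ a ∈ ly, (n : ℤ) ∣ a.n * Q.dot l (dec B a.b)) ∧ Q.dvdZ n (lsum B l ly - l) = true

instance (B : ℕ) (ly : List (Ly P)) (l : Q P) (n : ℕ) : Decidable (FunLay B ly l n) := by
  unfold FunLay; infer_instance

theorem kof_spec {ly : List (Ly P)} (h : ∀ a ∈ ly, 0 < a.n ∧ a.n ≤ 2 ^ a.e) (y : Q P) :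
    kof ly y < 2 ^ bitsD (toDm ly) ∧ vld ly (kof ly y) = true ∧
    ∀ (B : ℕ) (l : Q P) (n : ℕ), (∀ a ∈ ly, (n : ℤ) ∣ a.n * Q.dot l (dec B a.b)) →
      Q.dot l (ptd B 1 (toDm ly) (kof ly y)) ≡ Q.dot y (lsum B l ly) [ZMOD n] := by
  induction ly with
  | nil => simp [kof, vld, toDm, ptd, lsum, dot_zero, Int.ModEq]
  | cons a t ih =>
    obtain ⟨h1, h2, h3⟩ := ih fun b hb => h b (List.mem_cons_of_mem _ hb)
    obtain ⟨a1, a2⟩ := h a List.mem_cons_self
    have a3 := res_lt (Q.dot a.l y) a1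
    have a4 := a3.trans_le a2
    rw [kof, vld, toDm, bitsD_cons, pow_add]
    have e1 : ((Q.dot a.l y % a.n).toNat + 2 ^ a.e * kof t y) % 2 ^ a.e =
        (Q.dot a.l y % a.n).toNat := by rw [Nat.add_mul_mod_self_left, Nat.mod_eq_of_lt a4]
    have e2 : ((Q.dot a.l y % a.n).toNat + 2 ^ a.e * kof t y) / 2 ^ a.e = kof t y := by
      rw [Nat.add_mul_div_left _ _ (Nat.two_pow_pos _), Nat.div_eq_of_lt a4, zero_add]
    refine ⟨by nlinarith [Nat.mul_le_mul_left (2 ^ a.e) h1], by simp [e1, e2, a3, h2],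
      fun B l n hn => ?_⟩
    rw [ptd, lsum, Nat.shiftRight_eq_div_pow, e1, e2, dot_add, dot_add, dot_smul, dot_smul, mul_one,
      Int.toNat_of_nonneg (Int.emod_nonneg _ (by omega))]
    refine Int.ModEq.add ?_ (h3 B l n fun b hb => hn b (List.mem_cons_of_mem _ hb))
    refine Int.modEq_iff_dvd.mpr ?_
    refine ((hn a List.mem_cons_self).mul_left (Q.dot a.l y / a.n)).trans (dvd_of_eq ?_)
    rw [Int.emod_def, show Q.dot y a.l = Q.dot a.l y by simp only [Q.dot]; ring]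
    ring

theorem funLay_spec {B n : ℕ} {ly : List (Ly P)} (h : ∀ a ∈ ly, 0 < a.n ∧ a.n ≤ 2 ^ a.e) {l : Q P}
    (H : FunLay B ly l n) (z y : Q P) :
    Q.dot l (z + ptd B 1 (toDm ly) (kof ly y)) % n = Q.dot l (z + y) % n := by
  rw [dot_add, dot_add]
  refine Int.ModEq.add rfl (((kof_spec h y).2.2 B l n H.1).trans ?_)
  obtain ⟨w, hw⟩ := (Q.dvdZ_iff _ _).mp H.2
  rw [sub_eq_iff_eq_add'.mp hw, ← zsmul_eq_mul, dot_add, dot_smul,
    show Q.dot y l = Q.dot l y by simp only [Q.dot]; ring]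
  exact Int.modEq_iff_dvd.mpr (by simp)

/-- a layout adapted to a formula -/
structure Lay (fd : FD) (Ls : List (Lit P)) (ld : List LD) (f : Fm)
    (pr : (LD → ℕ → ℕ) → ℕ → ℕ) (ly : List (Ly P)) (ds : Dm) : Prop where
  ev : Ev Ls ld (fun L l => decide (LitOK fd L l ∧ FunLay fd.b ly L.l1 L.n1 ∧
    FunLay fd.b ly L.l2 L.n2)) f pr
  ds : ds = toDm ly
  ok : (∀ a ∈ ly, 0 < a.n ∧ a.n ≤ 2 ^ a.e) ∧ sD (kq 1) (toDm ly) ≤ 4096

theorem Lay.spec {fd : FD} {Ls : List (Lit P)} {ld : List LD} {f : Fm}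
    {pr : (LD → ℕ → ℕ) → ℕ → ℕ} {ly : List (Ly P)} {ds : Dm} (H : Lay fd Ls ld f pr ly ds)
    {m : Tr} {i : ℕ} {y : Q P} (h : (xm fd pr ds m i).testBit (kof ly y) = true) :
    Good Ls f (-(dec fd.b (mget m i) * dec fd.b (mget m i)) + y) := by
  rw [xm_eq, H.ev.ev, H.ds] at h
  refine evF_spec (fun L l hl hk => ?_) H.ev.all h
  obtain ⟨h1, h2, h3⟩ := of_decide_eq_true hl
  have := tg_spec h1 H.ok.2 (rp_qf fd _) (by norm_num) hk
  rwa [Lit.holds, Lit.code, funLay_spec H.ok.1 h2, funLay_spec H.ok.1 h3] at this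

theorem cells_sound {S : Setup P} {fd : FD} (G : Geo S fd) {Ls : List (Lit P)} {fm : Fm}
    (h3 : H3 S Ls fm fd.nmax) {ld : List LD} {fS fB : Fm} {ps pb : (LD → ℕ → ℕ) → ℕ → ℕ}
    {ls lb : List (Ly P)} {cl : Cl} (HS : Lay fd Ls ld fS ps ls cl.ls)
    (HB : Lay fd Ls ld fB pb lb cl.lb)
    (hv : ∀ k < 2 ^ bitsD cl.ls, vld ls k = true → cl.vm.testBit k = true)
    (hf : ∀ T, fS.holds T → fB.holds T → fm.holds T) {m : Tr} {s : ℕ} {l : List (List ℕ)}
    (h : chkCells fd ps pb cl m s l = true) : BoxesOK S s := by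
  intro i
  rw [chkCells_eq] at h
  rcases idx80 h i with h0 | ⟨l, h⟩
  · exact boxOK_zero S h0
  intro α hα _ b0 b1 b2 b3
  rw [celC_eq, cel1_eq, Nat.one_shiftLeft] at h
  replace b0 := b0.1
  replace b1 := b1.1
  replace b2 := b2.1
  replace b3 := b3.1
  generalize gr _ = l0 at b0 h
  generalize gr _ = l1 at b1 h
  generalize gr _ = l2 at b2 h
  generalize gr _ = l3 at b3 h
  obtain ⟨k1, k2, -⟩ := kof_spec HS.ok.1 α
  rw [← HS.ds] at k1
  have e1 : ∀ {fa fb : ℕ → ℕ} {on n : ℕ}, cmL fa fb l cl.vm on n = true → kof ls α < n →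
      cmb fa fb (kof ls α) l = on := fun {fa fb on n} h hn => by
    induction n with
    | zero => omega
    | succ n ih =>
      rw [cmL_succ, cs2_eq] at h
      rcases (Nat.lt_succ_iff.mp hn).eq_or_lt with rfl | hn
      · rw [if_neg (by rw [shr_bit, hv _ k1 k2]; simp), sw_and, Nat.beq_eq] at h
        exact h.1
      · split_ifs at h
        exacts [ih h hn, ih (sw_and.mp h).2 hn]
  have e2 : ∀ {fa fb : ℕ → ℕ} {c k : ℕ} {l : List ℕ}, (cmb fa fb c l).testBit k = true →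
      ∃ a, (fa a).testBit c = true ∧ (fb a).testBit k = true := fun {fa fb c k l} h => by
    induction l with
    | nil => simp [cmb_nil] at h
    | cons a t ih =>
      rw [cmb_cons, cs2_eq] at h
      split_ifs at h with h0
      · exact ih h
      · rw [Nat.testBit_or, Bool.or_eq_true] at h
        exact h.elim (fun h => ⟨a, by simpa [shr_bit] using h0, h⟩) ih
  obtain ⟨a, a1, a2⟩ := e2 (k := kof lb α) (by
    rw [e1 h k1, ones_bit, HB.ds]; exact decide_eq_true (kof_spec HB.ok.1 α).1)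
  rw [gB_eq] at a2
  generalize a % 65536 = n at a2
  induction n with
  | zero => simp [gL_zero] at a2
  | succ n ih =>
    rw [gL_succ] at a2
    obtain ⟨c1, c2⟩ := cs2_bit a2
    rw [Nat.testBit_or, Bool.or_eq_true] at c2
    refine c2.elim ih fun c2 => ?_
    rw [Nat.add_eq_zero_iff, Nat.xor_eq_zero_iff, Nat.sub_eq_zero_iff_le, n48_eq] at c1
    rw [← c1.2] at a1
    simp only [xq_eq] at c1
    have gp : ∀ {f : Q P →+* ℝ} {r : Row} {l x : ℕ}, Ap f r → (l : ℝ) ≤ 4096 * f α →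
        l - qh fd r x ≠ 0 → ((l - qh fd r x : ℕ) : ℝ) ≤ 4096 * (f α - f (dec fd.b x) ^ 2) :=
      fun {f r l x} hA a b => by
        have := qh_spec hA G.ph.1 x
        rw [Nat.cast_sub (by omega)]
        linarith
    exact fin4 h3 hα (hf _ (HS.spec a1) (HB.spec c2)) (c := 4096) (by norm_num) (by norm_num) c1.1
      (gp G.a0 b0) (gp G.a1 b1) (gp G.a2 b2) (gp G.a3 b3)

end Pool.Agent.Lib.MP_aed2da_nt.H
end

-- part Pool.Agent.Lib.MP_aed2da_nt.HTree
section

/-! Soundness of the checkers for non-sums and for trees of boxes, and the final reduction. -/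

namespace Pool.Agent.Lib.MP_aed2da_nt.H

variable {P : Par}

theorem sum_nonneg (f : Q P →+* ℝ) {α : Q P} (h : IsSumSq α) : 0 ≤ f α := by
  induction h with
  | zero => simp
  | sq_add a _ ih => rw [map_add, map_mul]; exact add_nonneg (mul_self_nonneg _) ih

theorem tr_nonneg (S : Setup P) {α : Q P} (h : IsSumSq α) : 0 ≤ Q.tr α := by
  have := S.sum_σ α
  have h1 : (0 : ℝ) ≤ Q.tr α := this ▸ Finset.sum_nonneg fun i _ => sum_nonneg _ h
  exact_mod_cast h1

theorem peel (S : Setup P) {α : Q P} (h : IsSumSq α) (h0 : α ≠ 0) :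
    ∃ x, x ≠ 0 ∧ 0 ≤ S.σ 0 x ∧ IsSumSq (α - x * x) := by
  induction h with
  | zero => exact absurd rfl h0
  | sq_add a hs ih =>
    by_cases ha : a = 0
    · simpa [ha] using ih (by simpa [ha] using h0)
    · rcases le_total 0 (S.σ 0 a) with h | h
      · exact ⟨a, ha, h, by simpa using hs⟩
      · exact ⟨-a, by simpa using ha, by simpa using h, by simpa using hs⟩

theorem tr_lt (S : Setup P) (e : Q P) {x : Q P} (h : x ≠ 0) : Q.tr (e - x * x) < Q.tr e := by
  have h1 := S.sum_σ (e - x * x)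
  have h2 := S.sum_σ e
  have h3 : S.σ 0 x ≠ 0 := fun h0 => h (S.inj 0 (by simpa using h0))
  simp only [Fin.sum_univ_four, map_sub, map_mul] at h1 h2
  have : (Q.tr (e - x * x) : ℝ) < Q.tr e := by
    nlinarith [mul_self_pos.mpr h3, mul_self_nonneg (S.σ 1 x), mul_self_nonneg (S.σ 2 x),
      mul_self_nonneg (S.σ 3 x)]
  exact_mod_cast this

theorem dec_zero {B c : ℕ} (hc : c < 18446744073709551616) (e : (dec B c : Q P) = 0) :
    c = B * 281479271743489 := by
  have a := congrArg Q.a e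
  have b := congrArg Q.b e
  have d := congrArg Q.c e
  have f := congrArg Q.d e
  simp only [dec, uv, one4, Q.sub_a, Q.sub_b, Q.sub_c, Q.sub_d, Q.zsmul_a, Q.zsmul_b, Q.zsmul_c,
    Q.zsmul_d, Q.zero_a, Q.zero_b, Q.zero_c, Q.zero_d, Nat.shiftRight_eq_div_pow, mul_one,
    sub_eq_zero, Nat.cast_inj] at a b d f
  have e1 := Nat.mod_add_div c 65536
  have e2 := Nat.mod_add_div (c / 2 ^ 16) 65536
  have e3 := Nat.mod_add_div (c / 2 ^ 32) 65536
  rw [Nat.div_div_eq_div_mul] at e2 e3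
  rw [Nat.mod_eq_of_lt (by omega)] at f
  rw [a] at e1
  rw [b] at e2
  rw [d] at e3
  norm_num at e1 e2 e3 f
  rw [← e1, ← e2, ← e3, f]
  ring

/-- descent step inside the list of non-sums -/
def Step (fd : FD) (nm : Tr) (e : Q P) : Prop :=
  IsSumSq e → ∃ i, IsSumSq (dec fd.b (mget nm i) : Q P) ∧ Q.tr (dec fd.b (mget nm i) : Q P) < Q.tr e

def StepL (P : Par) (fd : FD) (nm : Tr) (lf : ℕ) : Prop :=
  ∀ i < 256, Step fd nm (dec fd.b ((lf >>> (64 * i)) % 18446744073709551616) : Q P)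

theorem nonsum (S : Setup P) {fd : FD} {nm : Tr} (h : AllT (StepL P fd nm) nm) (i : ℕ) :
    ¬ IsSumSq (dec fd.b (mget nm i) : Q P) := by
  induction hn : (Q.tr (dec fd.b (mget nm i) : Q P)).toNat using Nat.strong_induction_on
    generalizing i with
  | _ n ih =>
    intro hs
    have := h.get (i >>> 8) (i % 256) (Nat.mod_lt _ (by norm_num))
    rw [← mget_eq] at this
    obtain ⟨j, h1, h2⟩ := this hs
    have := tr_nonneg S h1
    exact ih _ (by omega) j rfl h1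

section
variable {S : Setup P} {fd : FD} (G : Geo S fd)
include G

theorem Geo.rw4 (t : ℕ) : ∃ i, Ap (S.σ i) (rw4 fd t) := by
  rw [rw4_eq]
  rcases t with _ | _ | _ | t
  exacts [⟨0, G.a0⟩, ⟨1, G.a1⟩, ⟨2, G.a2⟩, ⟨3, G.a3⟩]

omit G in
theorem up_bound {f : Q P →+* ℝ} {r : Row} (hA : Ap f r) (hB : fd.b ≤ 65536) (c : ℕ) :
    2 ^ 40 * f (dec fd.b c) + en fd r c ≤ (ep fd r c + 262144 : ℕ) := by
  have h1 := (abs_le.mp (hA.code hB c)).2
  have h2 := congrArg (Int.cast : ℤ → ℝ) (ep_en P fd r c)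
  push_cast at h2 ⊢
  linarith

omit G in
theorem rC_spec {f : Q P →+* ℝ} {r : Row} (hA : Ap f r) (hB : fd.b ≤ 65536) {c g gm : ℕ}
    (h : rC fd r c g gm = 0) {x : Q P} (hx : IsSumSq (dec fd.b c - x * x)) :
    gr g ≤ gr (gm % 1024) ∧ -(gr g : ℝ) ≤ 4096 * f x ∧ 4096 * f x ≤ gr g := by
  rw [rC_eq, Nat.add_eq_zero_iff, Nat.sub_eq_zero_iff_le, Nat.sub_eq_zero_iff_le,
    ← Nat.cast_le (α := ℝ) (m := _ + _)] at h
  have h1 := (up_bound hA hB c).trans h.2
  have h2 := sum_nonneg f hx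
  rw [map_sub, map_mul] at h2
  push_cast at h1
  exact ⟨gr_mono h.1, abs_le_of_sq_le_sq' (by nlinarith) (Nat.cast_nonneg _)⟩

theorem ns_sound {nm : Tr} {sh : Sh} {o rr gm kz : ℕ} {m : Tr} {lf : ℕ} {l : List ℕ}
    (h : chkNS fd nm sh o rr gm kz m lf l = true) : StepL P fd nm lf := by
  rw [chkNS_eq, sw_and, Nat.beq_eq] at h
  obtain ⟨h, hc⟩ := h
  simp only [Nat.add_eq_zero_iff, Nat.sub_eq_zero_iff_le] at h
  obtain ⟨⟨⟨⟨hs, d1⟩, hq, hr⟩, ⟨m1, m2⟩, m3⟩, hct⟩ := h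
  obtain ⟨n, -, n0, n2⟩ := idxL_spec hc
  rw [fin256_eq, Nat.ble_eq] at n0
  intro i hi he
  obtain ⟨s, h⟩ := n2 i (Nat.zero_le _) (by omega)
  have hB := G.ph.1
  rw [nsC_eq, sw_eq] at h
  have hc := Nat.mod_lt (lf >>> (64 * i)) (show 0 < 18446744073709551616 by norm_num)
  generalize (lf >>> (64 * i)) % 18446744073709551616 = c at h he hc ⊢
  split_ifs at h
  · obtain ⟨j, hj⟩ := G.rw4 (s % 8)
    have h1 := up_bound hj hB c
    have h2 := sum_nonneg (S.σ j) he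
    rw [Nat.ble_eq, ← Nat.cast_le (α := ℝ), Nat.cast_add_one] at h
    exfalso
    linarith
  rw [ns1_eq, sw_and, Nat.beq_eq] at h
  obtain ⟨h0, h⟩ := h
  simp only [Nat.add_eq_zero_iff] at h
  obtain ⟨⟨⟨⟨r0, r1⟩, r2⟩, r3⟩, h⟩ := h
  obtain ⟨x, x0, x1, hx⟩ := peel S he fun e => by
    rw [sw_eq, if_pos (Nat.beq_eq.mpr (dec_zero hc e))] at h0
    simp at h0
  obtain ⟨a0, -, c0⟩ := rC_spec G.a0 hB r0 hx
  obtain ⟨a1, b1, c1⟩ := rC_spec G.a1 hB r1 hx
  obtain ⟨a2, b2, c2⟩ := rC_spec G.a2 hB r2 hx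
  obtain ⟨a3, b3, c3⟩ := rC_spec G.a3 hB r3 hx
  have up : ∀ {j : Fin 4} {g g' : ℕ}, g ≤ g' → 4096 * S.σ j x ≤ g →
      4096 * S.σ j (x + rr) ≤ (rr * 4096 + g' : ℕ) := fun a b => by
    have := (Nat.cast_le (α := ℝ)).mpr a
    simp only [map_add, map_natCast]; push_cast; linarith
  have lo : ∀ {j : Fin 4} {g g' : ℕ}, g ≤ g' → g' ≤ rr * 4096 → -(g : ℝ) ≤ 4096 * S.σ j x →
      ((rr * 4096 - g' : ℕ) : ℝ) ≤ 4096 * S.σ j (x + rr) := fun a b d => by
    have := (Nat.cast_le (α := ℝ)).mpr a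
    simp only [map_add, map_natCast, Nat.cast_sub b]; push_cast; linarith
  have l0 : ((rr * 4096 : ℕ) : ℝ) ≤ 4096 * S.σ 0 (x + rr) := by
    simp only [map_add, map_natCast]; push_cast; linarith
  obtain ⟨c', hc', k, hk, e⟩ := loc G hs hct ⟨l0, up a0 c0⟩ ⟨lo a1 m1 b1, up a1 c1⟩
    ⟨lo a2 m2 b2, up a2 c2⟩ ⟨lo a3 m3 b3, up a3 c3⟩ fun d hd => by
      simpa using dvG_spec G d1 d hd _
  obtain rfl : c' = 0 := by
    have : sh.q * sh.q * sh.q * sh.q ≤ 1 * 1 * 1 * 1 := by gcongr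
    omega
  have nd := bm_spec G hs hk e ⟨l0, up le_rfl c0⟩ ⟨lo le_rfl (a1.trans m1) b1, up le_rfl c1⟩
    ⟨lo le_rfl (a2.trans m2) b2, up le_rfl c2⟩ ⟨lo le_rfl (a3.trans m3) b3, up le_rfl c3⟩
  rw [bm_eq, ← hB_eq, ← hB_eq, ← hB_eq] at nd
  rw [ns2_eq, Nat.xor_eq_zero_iff] at h
  have cov := cov_bit h nd
  rw [Nat.shiftRight_eq_div_pow] at hr
  have hrn : n1 (rr : Q P) ≤ 1048576 := by simp [n1]; omega
  have k1 : ∀ {y j : ℕ} {z : Q P}, Ph y z → n1 z ≤ 70368744177664 →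
      (xk1 fd sh o y j).testBit k = true → x + rr = z := fun hy hz hb => by
    rw [xk1_eq, show ph fd o = cf fd sh o 0 by simp [cf_eq]] at hb
    exact e.trans (pnt_eq G hs hy hz hb)
  have k2 : ∀ {j : ℕ}, (xk fd sh o rr m j).testBit k = true → x = dec fd.b (mget m j) :=
    fun hb => by
      rw [xk_eq, phd_eq] at hb
      exact add_right_cancel (k1 ((ph_spec G.ph _).add (Ph.nat rr))
        ((n1_add _ _).trans ((add_le_add (n1_dec hB _) hrn).trans (by norm_num))) hb)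
  rw [Nat.testBit_or, Nat.testBit_or, Bool.or_eq_true, Bool.or_eq_true] at cov
  rcases cov with cov | cov | cov
  · exact absurd (by simpa using k1 (Ph.nat rr) (hrn.trans (by norm_num)) cov) x0
  · generalize (s >>> 43) % 256 = n at cov
    induction n with
    | zero => simp [n1L_zero] at cov
    | succ n ih =>
      rw [n1L_succ] at cov
      obtain ⟨v1, v2⟩ := sw_bit cov
      rw [Nat.testBit_or, Bool.or_eq_true] at v2
      refine v2.elim ih fun v2 => ?_
      rw [Nat.ble_eq, eU_eq, xl_eq, Nat.shiftRight_eq_div_pow _ 28] at v1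
      generalize (s >>> 59 >>> (15 * n + 13)) % 4 = t at v1
      obtain ⟨j, hj⟩ := G.rw4 t
      have w1 := up_bound hj hB c
      have w2 := ql_spec hj hB (mget m ((s >>> 59 >>> (15 * n)) % 8192))
      have w3 := sum_nonneg (S.σ j) hx
      rw [← k2 v2] at w2
      rw [map_sub, map_mul] at w3
      have w4 : ep fd (rw4 fd t) c + 262144 + 1 ≤ en fd (rw4 fd t) c +
          268435456 * ql fd (rw4 fd t) (mget m ((s >>> 59 >>> (15 * n)) % 8192)) := by omega
      rw [← Nat.cast_le (α := ℝ), Nat.cast_add_one, Nat.cast_add (en _ _ _), Nat.cast_mul] at w4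
      exfalso
      norm_num at w1 w4
      nlinarith
  · generalize (s >>> 51) % 256 = n at cov
    induction n with
    | zero => simp [n2L_zero] at cov
    | succ n ih =>
      rw [n2L_succ] at cov
      obtain ⟨v1, v2⟩ := cs2_bit cov
      rw [Nat.testBit_or, Bool.or_eq_true] at v2
      refine v2.elim ih fun v2 => ?_
      rw [Nat.xor_eq_zero_iff, xsd_eq, phd_eq] at v1
      have := (ph_spec G.ph _).inj ((xs_spec G.ph _).add (ph_spec G.ph _)) v1
        ((add_le_add (n1_dec hB _) ((n1_add _ _).trans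
          (add_le_add (n1_sq G.ph _) (n1_dec hB _)))).trans_lt (by norm_num))
      rw [← k2 v2, ← sub_eq_iff_eq_add'] at this
      exact ⟨_, this ▸ hx, this ▸ tr_lt S _ x0⟩

end

theorem InB.mono {S : Setup P} {i : Fin 4} {l u l' u' : ℕ} {α : Q P} (h : InB S i l u α)
    (hl : l' ≤ l) (hu : u ≤ u') : InB S i l' u' α :=
  ⟨(Nat.cast_le.mpr (gr_mono hl)).trans h.1,
    fun h' => (h.2 (hu.trans_lt h')).trans (Nat.cast_le.mpr (gr_mono hu))⟩

theorem InB.split {S : Setup P} {i : Fin 4} {l u : ℕ} {α : Q P} (h : InB S i l u α) (g : ℕ) :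
    InB S i l g α ∨ InB S i g u α :=
  (le_total _ _).imp (fun h' => ⟨h.1, fun _ => h'⟩) fun h' => ⟨h', h.2⟩

theorem InB.min {S : Setup P} {i : Fin 4} {l u l' g : ℕ} {α : Q P} (h : InB S i l u α)
    (hr : Red S α) (h0 : InB S 0 l' g α) : InB S i l (u - (u - g)) α := by
  refine ⟨h.1, fun h' => ?_⟩
  rcases le_total u g with h1 | h1
  · rw [show u - (u - g) = u by omega] at h' ⊢
    exact h.2 h'
  · rw [show u - (u - g) = g by omega] at h' ⊢
    linarith [h0.2 h', hr.1 i]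

theorem InB.max {S : Setup P} {i : Fin 4} {l u u' g : ℕ} {α : Q P} (h : InB S 0 l u α)
    (hr : Red S α) (h0 : InB S i g u' α) : InB S 0 (g + (l - g)) u α := by
  refine ⟨?_, h.2⟩
  rcases le_total l g with h1 | h1
  · rw [show g + (l - g) = g by omega]
    linarith [h0.1, hr.1 i]
  · rw [show g + (l - g) = l by omega]
    exact h.1

theorem go_nil (fd : FD) (ut bt : Tr) (n l0 l1 l2 l3 u0 u1 u2 u3 : ℕ) :
    go fd ut bt n 0 l0 l1 l2 l3 u0 u1 u2 u3 = 0 := by
  cases n with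
  | zero => exact go_zero ..
  | succ n => rw [go_succ, cs6_eq, if_pos (Nat.zero_mod 8), cs2_eq, Nat.zero_shiftRight 24, ite_self]

theorem uterm {S : Setup P} {fd : FD} {ut : Tr} {i : Fin 4} {r : Row} (hA : Ap (S.σ i) r)
    (hB : fd.b ≤ 65536) {k l u : ℕ} {α : Q P} (h : InB S i l u α)
    (hu : up fd r ut k * gu u < 1208925819614629174706176) :
    16777216 * (S.σ i (dec fd.b (tget ut k) * dec fd.b (tget ut k) * α) - S.σ i α) ≤
      (up fd r ut k * gu u : ℕ) - (um fd r ut k * gr l : ℕ) := by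
  have h1 := qh_spec hA hB (tget ut k)
  have h2 := (Nat.cast_nonneg _).trans h.1
  have h4 := mul_le_mul_of_nonneg_right h1.le h2
  rw [up_eq, gu_eq, sw_eq] at *
  rw [um_eq, map_mul, map_mul, Nat.cast_mul, Nat.cast_mul]
  generalize qh fd r (tget ut k) = q at *
  rcases le_total q 4096 with hq | hq
  · have : (q : ℝ) ≤ (4096 : ℕ) := Nat.cast_le.mpr hq
    have h5 := mul_le_mul_of_nonneg_left h.1 (sub_nonneg.mpr this)
    rw [Nat.sub_eq_zero_of_le hq, Nat.cast_sub hq, Nat.cast_zero]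
    rw [Nat.cast_ofNat] at h5 ⊢
    linarith
  · have : ((4096 : ℕ) : ℝ) ≤ q := Nat.cast_le.mpr hq
    rw [Nat.sub_eq_zero_of_le hq, Nat.cast_zero]
    split_ifs at hu ⊢ with h3
    · rw [show q = 4096 by omega] at h4 ⊢
      rw [Nat.sub_self, Nat.cast_zero]
      rw [Nat.cast_ofNat] at h4
      linarith
    · have h5 := mul_le_mul_of_nonneg_left (h.2 (by simpa using h3)) (sub_nonneg.mpr this)
      rw [Nat.cast_sub hq]
      rw [Nat.cast_ofNat] at h5 ⊢
      linarith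

section
variable {S : Setup P} {fd : FD} (G : Geo S fd) {ut bt : Tr}
  (hu : AllT (fun c => IsUnit (dec fd.b c : Q P)) ut) (hb : AllT (BoxesOK S) bt)
include G hu hb

theorem go_sound (n s l0 l1 l2 l3 u0 u1 u2 u3 : ℕ)
    (h : go fd ut bt n s l0 l1 l2 l3 u0 u1 u2 u3 ≠ 0) : BOK S l0 l1 l2 l3 u0 u1 u2 u3 := by
  induction n generalizing s l0 l1 l2 l3 u0 u1 u2 u3 with
  | zero => exact absurd (go_zero ..) h
  | succ n ih =>
    intro α hα hr b0 b1 b2 b3
    have nz : ∀ {a l0 l1 l2 l3 u0 u1 u2 u3 : ℕ}, go fd ut bt n a l0 l1 l2 l3 u0 u1 u2 u3 ≠ 0 →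
        a ≠ 0 := fun h h0 => h (by rw [h0, go_nil])
    rw [go_succ, cs6_eq] at h
    generalize (s >>> 3) % 1024 = g at h
    split_ifs at h
    · rw [cs2_eq] at h
      split_ifs at h with h0
      swap
      · exact absurd rfl h
      simp only [bl_eq, Nat.add_eq_zero_iff, Nat.sub_eq_zero_iff_le] at h0
      obtain ⟨⟨⟨⟨⟨⟨⟨a0, a1⟩, a2⟩, a3⟩, c0⟩, c1⟩, c2⟩, c3⟩ := h0
      exact hb.get _ _ α hα hr (b0.mono a0 c0) (b1.mono a1 c1) (b2.mono a2 c2) (b3.mono a3 c3)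
    · rw [cs2_eq] at h
      split_ifs at h with h0
      swap
      · exact absurd rfl h
      generalize (s >>> 3) % 256 = k at h0
      rw [ul_eq, ul1_eq, Nat.add_eq_zero_iff, Nat.sub_eq_zero_iff_le, Nat.sub_eq_zero_iff_le] at h0
      have t0 := uterm G.a0 G.ph.1 (ut := ut) (k := k) b0 (by omega)
      have t1 := uterm G.a1 G.ph.1 (ut := ut) (k := k) b1 (by omega)
      have t2 := uterm G.a2 G.ph.1 (ut := ut) (k := k) b2 (by omega)
      have t3 := uterm G.a3 G.ph.1 (ut := ut) (k := k) b3 (by omega)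
      have e1 := S.sum_σ α
      have e2 := S.sum_σ (dec fd.b (tget ut k) * dec fd.b (tget ut k) * α)
      have e3 := (Int.cast_le (R := ℝ)).mpr (hr.2 _ (hu.get k))
      have e4 := (Nat.cast_le (α := ℝ)).mpr h0.1
      rw [Fin.sum_univ_four] at e1 e2
      simp only [Nat.cast_add, Nat.cast_one] at e4
      exfalso
      linarith
    · rcases b0.split g with b | b
      · exact ih _ _ _ _ _ _ _ _ _ (nz h) α hα hr b (b1.min hr b) (b2.min hr b) (b3.min hr b)
      · exact ih _ _ _ _ _ _ _ _ _ h α hα hr b b1 b2 b3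
    · rcases b1.split g with b | b
      · exact ih _ _ _ _ _ _ _ _ _ (nz h) α hα hr b0 b b2 b3
      · exact ih _ _ _ _ _ _ _ _ _ h α hα hr (b0.max hr b) b b2 b3
    · rcases b2.split g with b | b
      · exact ih _ _ _ _ _ _ _ _ _ (nz h) α hα hr b0 b1 b b3
      · exact ih _ _ _ _ _ _ _ _ _ h α hα hr (b0.max hr b) b1 b b3
    · rcases b3.split g with b | b
      · exact ih _ _ _ _ _ _ _ _ _ (nz h) α hα hr b0 b1 b2 b
      · exact ih _ _ _ _ _ _ _ _ _ h α hα hr (b0.max hr b) b1 b2 b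

theorem trees_sound {rt : ℕ} {l : List ℕ} (h : chkTrees fd ut bt rt l = true) : BoxesOK S rt := by
  intro i
  rw [chkTrees_eq] at h
  rcases idx80 h i with h0 | ⟨s, h⟩
  · exact boxOK_zero S h0
  · rw [trC_eq, tr1_eq, Nat.ble_eq] at h
    exact go_sound G hu hb _ _ _ _ _ _ _ _ _ _ (Nat.one_le_iff_ne_zero.mp h)

end

/-- test that all leaves are codes of units -/
def unitB (P : Par) (B : ℕ) : Tr → Bool
  | Tr.lf c => (Q.nm (dec B c : Q P)).natAbs == 1
  | Tr.nd a b => unitB P B a && unitB P B b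

theorem units_sound {B : ℕ} {t : Tr} (h : unitB P B t = true) :
    AllT (fun c => IsUnit (dec B c : Q P)) t := by
  induction t with
  | lf c =>
    have e := Q.mul_adj (dec B c : Q P)
    refine isUnit_of_mul_isUnit_left (y := Q.adj (dec B c)) ?_
    rw [e]
    exact (Int.isUnit_iff_natAbs_eq.mpr (by simpa [unitB] using h)).map (Int.castRingHom (Q P))
  | nd a b iha ihb =>
    rw [unitB, Bool.and_eq_true] at h
    exact ⟨iha h.1, ihb h.2⟩

theorem tr_tau (S : Setup P) (j : Fin 4) (x : Q P) : Q.tr (S.τ j x) = Q.tr x := by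
  have h1 := S.sum_σ (S.τ j x)
  have h2 := S.sum_σ x
  simp only [S.σ_τ, Fin.sum_univ_four] at h1 h2
  have : (Q.tr (S.τ j x) : ℝ) = Q.tr x := by
    rw [← h1, ← h2]
    fin_cases j <;> simp [vm] <;> ring
  exact_mod_cast this

theorem sum_map (f : Q P →+* Q P) {α : Q P} (h : IsSumSq α) : IsSumSq (f α) := by
  induction h with
  | zero => simp
  | sq_add a _ ih => rw [map_add, map_mul]; exact IsSumSq.sq_add _ ih

theorem final (S : Setup P) (h : BoxesOK S 983212396792235268505600) (α : Q P) (hα : IsSumSq α) :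
    S4 α := by
  have h0 : BOK S 0 0 0 0 832 832 832 832 := by
    have := h 0
    unfold BoxOK at this
    norm_num [Nat.shiftRight_eq_div_pow] at this
    exact this
  induction hn : (Q.tr α).toNat using Nat.strong_induction_on generalizing α with
  | _ n ih =>
    by_cases hr : ∀ u : Q P, IsUnit u → Q.tr α ≤ Q.tr (u * u * α)
    · obtain ⟨j, -, hj⟩ := Finset.exists_max_image Finset.univ (fun j => S.σ j α) ⟨0, by simp⟩
      have hs := sum_map (S.τ j) hα
      have b : ∀ i, InB S i 0 832 (S.τ j α) := fun i =>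
        ⟨by rw [gr_zero]; simpa using sum_nonneg _ hs, fun h => absurd h (by omega)⟩
      obtain ⟨a, b, c, d, e⟩ := h0 (S.τ j α) hs ⟨fun i => by
          rw [S.σ_τ, S.σ_τ, show vm 0 j = j by fin_cases j <;> rfl]
          exact hj _ (Finset.mem_univ _), fun u hu => by
          rw [tr_tau, ← tr_tau S j (u * u * _), map_mul, map_mul, S.τ_τ]
          exact hr _ (hu.map _)⟩ (b 0) (b 1) (b 2) (b 3)
      exact ⟨S.τ j a, S.τ j b, S.τ j c, S.τ j d, by
        rw [← S.τ_τ j α, e]; simp only [map_add, map_pow]⟩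
    · push Not at hr
      obtain ⟨u, hu, h1⟩ := hr
      have hs : IsSumSq (u * u * α) := (IsSumSq.mul_self u).mul hα
      have := tr_nonneg S hs
      obtain ⟨a, b, c, d, e⟩ := ih _ (by omega) _ hs rfl
      obtain ⟨v, hv⟩ := hu.exists_right_inv
      exact ⟨v * a, v * b, v * c, v * d, by
        linear_combination v ^ 2 * e - α * (u * v + 1) * hv⟩

end Pool.Agent.Lib.MP_aed2da_nt.H
end
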