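import Pool.Agent.Lib.MP_aed2da_nt.FracB
import Pool.Agent.Lib.MP_aed2da_nt.HTree

/-!
Totally positive elements prime to two are sums of three squares of fractions, in six fields.
-/

open NumberField

namespace Pool.Agent.Lib.MP_aed2da_nt

namespace Frac

theorem Cert.frac {P : Par} (S : Setup P) [IsDomain (Q P)] [IsPrincipalIdealRing (Q P)]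
    (C : Cert P) (H : C.ok S.M) (H' : coverB S.M C.u C.l C.A C.B C.ts = true)
    (β : Q P) (hβ : S.Pos β) (hodd : IsCoprime β 2) : ∃ t : Q P, t ≠ 0 ∧ S3 (t ^ 2 * β) := by
  have : CharZero (FractionRing (Q P)) :=
    charZero_of_injective_algebraMap (IsFractionRing.injective (Q P) _)
  have := S.numberField (FractionRing (Q P))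
  obtain ⟨h1, h2, h3, e, he⟩ := S.link (FractionRing (Q P))
  exact C.sound S h2 e (fun x => by rw [he, h3]) H H' β hβ hodd

def C37 : Cert P37 where
  u := ![⟨-1, 0, 0, 0⟩, ⟨0, 0, 1, 0⟩, ⟨1, 1, 0, 1⟩, ⟨1, 1, 2, 0⟩]
  l := ![⟨1, 0, -1, 0⟩, ⟨1, 0, 1, 0⟩, ⟨3, 0, -1, 0⟩, ⟨1, 0, 3, 0⟩]
  q := ![3, 3, 37, 37]
  w := ![2, 2, 7, 31]
  h := ![1, 2, 3, 12]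
  ts := [⟨0, 0, 0, 1⟩, ⟨0, 0, 1, 0⟩, ⟨0, 0, 1, 1⟩, ⟨0, 1, 0, 0⟩, ⟨0, 1, 0, 1⟩,
    ⟨0, 1, 1, 0⟩, ⟨1, 0, 0, 0⟩, ⟨1, 0, 1, 0⟩, ⟨1, 0, 1, 1⟩, ⟨1, 1, 0, 0⟩,
    ⟨1, 1, 0, 1⟩, ⟨1, 1, 1, 1⟩]
  A := ![({0}, ∅, ⟨0, 0, 0, 1⟩), ({0}, {0, 2}, ⟨0, 0, 1, 0⟩), ({0}, {1, 2}, ⟨0, 1, 0, 1⟩),
    ({0}, {0, 1}, ⟨1, 1, 0, 0⟩), ({0}, {1, 3}, ⟨1, 1, 0, 0⟩),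
    ({0}, {0, 1, 2, 3}, ⟨0, 1, 0, 0⟩), ({0}, {2, 3}, ⟨0, 0, 1, 0⟩),
    ({0}, {0, 3}, ⟨1, 0, 1, 1⟩), (∅, {0, 3}, ⟨0, 1, 0, 1⟩), (∅, {2, 3}, ⟨1, 1, 0, 0⟩),
    (∅, {0, 1, 2, 3}, ⟨0, 0, 1, 1⟩), (∅, {1, 3}, ⟨0, 0, 1, 0⟩), (∅, {0, 1}, ⟨0, 0, 1, 0⟩),
    (∅, {1, 2}, ⟨1, 0, 1, 1⟩), (∅, {0, 2}, ⟨1, 1, 0, 0⟩), (∅, ∅, ⟨1, 0, 0, 0⟩)]
  B := [(∅, ∅), (∅, {2}), ({1}, {3}), ({1}, {2, 3}), ({0, 2}, {0, 1, 3}), ({0, 2}, {0, 1, 2, 3}),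
    ({0, 1, 2}, {0, 1}), ({0, 1, 2}, {0, 1, 2}), ({3}, {3}), ({3}, {2, 3}), ({1, 3}, ∅),
    ({1, 3}, {2}), ({0, 2, 3}, {0, 1}), ({0, 2, 3}, {0, 1, 2}), ({0, 1, 2, 3}, {0, 1, 3}),
    ({0, 1, 2, 3}, {0, 1, 2, 3})]
  s := ⟨0, 0, 0, 1⟩
  a := ⟨-4, -2, 0, 0⟩
  c := ⟨1, 0, 0, 0⟩
  c1 := ⟨1, 0, 0, 0⟩
  c2 := ⟨0, 0, 0, 0⟩
  n1 := 2
  n2 := 1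
  E1 := ![∅, {1, 3}]
  K1 := ![∅, {0}]
  E2 := ![⟨1, 0, 0, 0⟩]
  K2 := ![∅]
  f := ![0, 0]
  x := ![⟨1, 0, 0, 0⟩, ⟨-2, -1, 1, 0⟩]
  y := ![⟨0, 0, 0, 0⟩, ⟨0, 0, 1, 0⟩]

def C23 : Cert P23 where
  u := ![⟨-1, 0, 0, 0⟩, ⟨0, 0, 1, 0⟩, ⟨1, 1, 0, 0⟩, ⟨2, 0, 1, 0⟩]
  l := ![⟨1, 1, 0, 1⟩, ⟨0, 1, -1, -1⟩, ⟨0, 1, -1, 1⟩, ⟨1, -2, 0, 1⟩]
  q := ![23, 23, 23, 47]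
  w := ![5, 5, 18, 7]
  h := ![8, 20, 3, 22]
  ts := [⟨0, 0, 1, 0⟩, ⟨0, 0, 1, 1⟩, ⟨0, 1, 1, 0⟩, ⟨0, 1, 1, 1⟩, ⟨1, 0, 0, 0⟩,
    ⟨1, 0, 0, 1⟩, ⟨1, 1, 0, 0⟩, ⟨1, 1, 0, 1⟩]
  A := ![({0}, ∅, ⟨1, 0, 0, 1⟩), ({0, 1}, {0, 1, 3}, ⟨1, 1, 0, 1⟩), ({0}, {3}, ⟨0, 1, 1, 1⟩),
    ({0, 1}, {0, 1}, ⟨0, 0, 1, 0⟩), ({0, 1}, {0, 2, 3}, ⟨1, 0, 0, 0⟩),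
    ({0}, {1, 2}, ⟨0, 0, 1, 0⟩), ({0, 1}, {0, 2}, ⟨0, 1, 1, 1⟩),
    ({0}, {1, 2, 3}, ⟨1, 1, 0, 1⟩), (∅, {1, 2, 3}, ⟨1, 1, 0, 0⟩),
    ({1}, {0, 2}, ⟨0, 0, 1, 1⟩), (∅, {1, 2}, ⟨0, 1, 1, 0⟩), ({1}, {0, 2, 3}, ⟨1, 0, 0, 1⟩),
    ({1}, {0, 1}, ⟨0, 1, 1, 0⟩), (∅, {3}, ⟨0, 0, 1, 1⟩), ({1}, {0, 1, 3}, ⟨1, 1, 0, 0⟩),
    (∅, ∅, ⟨1, 0, 0, 0⟩)]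
  B := [(∅, ∅), (∅, {0, 2}), ({0}, {1, 3}), ({0}, {0, 1, 2, 3}), ({1, 2}, {0, 3}),
    ({1, 2}, {2, 3}), ({0, 1, 2}, {0, 1}), ({0, 1, 2}, {1, 2}), ({3}, ∅), ({3}, {0, 2}),
    ({0, 3}, {1, 3}), ({0, 3}, {0, 1, 2, 3}), ({1, 2, 3}, {0, 3}), ({1, 2, 3}, {2, 3}),
    ({0, 1, 2, 3}, {0, 1}), ({0, 1, 2, 3}, {1, 2})]
  s := ⟨1, 0, 0, 1⟩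
  a := ⟨-1, 0, 0, -1⟩
  c := ⟨1, 0, 0, 0⟩
  c1 := ⟨1, 0, 0, 0⟩
  c2 := ⟨0, 0, 0, 0⟩
  n1 := 2
  n2 := 1
  E1 := ![∅, {3}]
  K1 := ![∅, {0}]
  E2 := ![⟨1, 0, 0, 0⟩]
  K2 := ![∅]
  f := ![0, 0]
  x := ![⟨1, 0, 0, 0⟩, ⟨1, 0, 0, 0⟩]
  y := ![⟨0, 0, 0, 0⟩, ⟨0, -1, 1, 0⟩]

def C35 : Cert P35 where
  u := ![⟨-1, 0, 0, 0⟩, ⟨0, 1, 0, 0⟩, ⟨1, 0, 0, 1⟩, ⟨0, 1, 1, 0⟩]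
  l := ![⟨2, 0, 0, 1⟩, ⟨2, 0, 0, -1⟩, ⟨1, 0, -1, -1⟩, ⟨1, -1, 0, -2⟩]
  q := ![11, 11, 11, 61]
  w := ![4, 4, 8, 18]
  h := ![5, 6, 5, 8]
  ts := [⟨0, 0, 0, 1⟩, ⟨0, 0, 1, 0⟩, ⟨0, 0, 1, 1⟩, ⟨0, 1, 0, 0⟩, ⟨0, 1, 1, 0⟩,
    ⟨0, 1, 1, 1⟩, ⟨1, 0, 0, 0⟩, ⟨1, 0, 0, 1⟩, ⟨1, 0, 1, 1⟩, ⟨1, 1, 0, 0⟩,
    ⟨1, 1, 0, 1⟩, ⟨1, 1, 1, 0⟩]
  A := ![({0}, ∅, ⟨0, 0, 1, 0⟩), ({1, 3}, {2, 3}, ⟨0, 1, 1, 1⟩),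
    ({1, 3}, {0, 1, 2, 3}, ⟨1, 0, 0, 1⟩), ({0}, {0, 1}, ⟨0, 0, 1, 1⟩),
    ({0, 2, 3}, {1, 3}, ⟨0, 0, 0, 1⟩), ({1, 2}, {1, 2}, ⟨0, 0, 1, 1⟩),
    ({1, 2}, {0, 2}, ⟨1, 1, 0, 0⟩), ({0, 2, 3}, {0, 3}, ⟨0, 1, 0, 0⟩),
    ({2, 3}, {0, 3}, ⟨0, 0, 0, 1⟩), ({0, 1, 2}, {0, 2}, ⟨0, 0, 1, 1⟩),
    ({0, 1, 2}, {1, 2}, ⟨1, 1, 0, 0⟩), ({2, 3}, {1, 3}, ⟨0, 1, 0, 0⟩),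
    (∅, {0, 1}, ⟨1, 1, 0, 0⟩), ({0, 1, 3}, {0, 1, 2, 3}, ⟨0, 1, 1, 0⟩),
    ({0, 1, 3}, {2, 3}, ⟨1, 1, 0, 1⟩), (∅, ∅, ⟨1, 0, 0, 0⟩)]
  B := [(∅, ∅), (∅, {1, 2}), ({0, 1}, {0, 1}), ({0, 1}, {0, 2}), ({0, 2}, {3}),
    ({0, 2}, {1, 2, 3}), ({1, 2}, {0, 1, 3}), ({1, 2}, {0, 2, 3}), ({3}, {0, 1, 3}),
    ({3}, {0, 2, 3}), ({0, 1, 3}, {3}), ({0, 1, 3}, {1, 2, 3}), ({0, 2, 3}, {0, 1}),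
    ({0, 2, 3}, {0, 2}), ({1, 2, 3}, ∅), ({1, 2, 3}, {1, 2})]
  s := ⟨0, 0, 1, 0⟩
  a := ⟨-1, 0, 0, 0⟩
  c := ⟨1, 0, 0, 0⟩
  c1 := ⟨1, 0, 0, 0⟩
  c2 := ⟨0, 0, 0, 0⟩
  n1 := 2
  n2 := 1
  E1 := ![∅, {1, 2, 3}]
  K1 := ![∅, {0}]
  E2 := ![⟨1, 0, 0, 0⟩]
  K2 := ![∅]
  f := ![0, 0]
  x := ![⟨1, 0, 0, 0⟩, ⟨-1, 1, 1, 0⟩]
  y := ![⟨0, 0, 0, 0⟩, ⟨-1, 1, 1, 0⟩]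

def C27 : Cert P27 where
  u := ![⟨-1, 0, 0, 0⟩, ⟨1, 1, 0, 0⟩, ⟨0, 1, 1, 0⟩, ⟨1, 2, 0, -1⟩]
  l := ![⟨1, 0, -2, 0⟩, ⟨2, 0, 1, 0⟩, ⟨2, 0, -1, 0⟩, ⟨2, 0, -1, 1⟩]
  q := ![113, 7, 7, 31]
  w := ![51, 3, 4, 8]
  h := ![57, 5, 2, 13]
  ts := [⟨0, 0, 1, 0⟩, ⟨0, 0, 1, 1⟩, ⟨0, 1, 1, 0⟩, ⟨0, 1, 1, 1⟩, ⟨1, 0, 0, 0⟩,
    ⟨1, 0, 0, 1⟩, ⟨1, 1, 0, 0⟩, ⟨1, 1, 0, 1⟩]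
  A := ![({0}, ∅, ⟨1, 0, 0, 1⟩), ({0, 1, 2}, {0, 3}, ⟨1, 1, 0, 1⟩),
    ({1, 2, 3}, {0, 3}, ⟨0, 1, 1, 0⟩), ({3}, ∅, ⟨0, 1, 1, 1⟩),
    ({0, 1, 2}, {0, 1, 2, 3}, ⟨0, 1, 1, 1⟩), ({0}, {1, 2}, ⟨0, 1, 1, 0⟩),
    ({3}, {1, 2}, ⟨1, 1, 0, 0⟩), ({1, 2, 3}, {0, 1, 2, 3}, ⟨1, 0, 0, 0⟩),
    ({0, 1, 2, 3}, {0, 1, 2, 3}, ⟨1, 0, 0, 1⟩), ({0, 3}, {1, 2}, ⟨1, 1, 0, 1⟩),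
    (∅, {1, 2}, ⟨0, 0, 1, 0⟩), ({1, 2}, {0, 1, 2, 3}, ⟨0, 0, 1, 1⟩),
    ({0, 3}, ∅, ⟨0, 0, 1, 1⟩), ({0, 1, 2, 3}, {0, 3}, ⟨0, 0, 1, 0⟩),
    ({1, 2}, {0, 3}, ⟨1, 1, 0, 0⟩), (∅, ∅, ⟨1, 0, 0, 0⟩)]
  B := [(∅, ∅), (∅, {0, 2, 3}), ({1}, {0, 1, 2}), ({1}, {1, 3}), ({2}, {0, 1, 2}), ({2}, {1, 3}),
    ({1, 2}, ∅), ({1, 2}, {0, 2, 3}), ({3}, {0, 1, 2}), ({3}, {1, 3}), ({1, 3}, ∅),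
    ({1, 3}, {0, 2, 3}), ({2, 3}, ∅), ({2, 3}, {0, 2, 3}), ({1, 2, 3}, {0, 1, 2}),
    ({1, 2, 3}, {1, 3})]
  s := ⟨1, 0, 0, 1⟩
  a := ⟨-2, 0, 0, -1⟩
  c := ⟨1, 0, 0, 0⟩
  c1 := ⟨1, 0, 0, 0⟩
  c2 := ⟨0, 0, 0, 0⟩
  n1 := 4
  n2 := 2
  E1 := ![∅, {1, 2}, {1, 3}, {2, 3}]
  K1 := ![∅, {0}, {1}, {0, 1}]
  E2 := ![⟨1, 0, 0, 0⟩, ⟨2, 1, 1, 1⟩]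
  K2 := ![∅, {0}]
  f := ![0, 1, 1, 0]
  x := ![⟨1, 0, 0, 0⟩, ⟨1, 0, 0, 0⟩, ⟨-1, -2, 0, 1⟩, ⟨-4, 2, 3, -2⟩]
  y := ![⟨0, 0, 0, 0⟩, ⟨0, 0, 0, 0⟩, ⟨-1, -1, 1, 0⟩, ⟨1, -1, -1, 1⟩]

def C56 : Cert P56 where
  u := ![⟨-1, 0, 0, 0⟩, ⟨0, 1, 0, 0⟩, ⟨2, 1, 0, 1⟩, ⟨5, 0, 2, 0⟩]
  l := ![⟨1, 1, 1, 0⟩, ⟨0, 1, -1, 0⟩, ⟨0, 1, 1, 0⟩, ⟨1, 0, 0, 1⟩]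
  q := ![5, 19, 19, 19]
  w := ![3, 5, 5, 15]
  h := ![1, 5, 14, 5]
  ts := [⟨0, 1, 0, 0⟩, ⟨0, 1, 0, 1⟩, ⟨0, 1, 1, 0⟩, ⟨0, 1, 1, 1⟩, ⟨1, 0, 0, 0⟩,
    ⟨1, 0, 0, 1⟩, ⟨1, 0, 1, 0⟩, ⟨1, 0, 1, 1⟩, ⟨1, 1, 0, 0⟩, ⟨1, 1, 0, 1⟩,
    ⟨1, 1, 1, 0⟩, ⟨1, 1, 1, 1⟩]
  A := ![({0, 3}, ∅, ⟨1, 0, 1, 0⟩), ({0, 3}, {0, 1, 2, 3}, ⟨0, 1, 0, 0⟩),
    ({0, 1, 3}, {0, 3}, ⟨1, 0, 0, 0⟩), ({0, 1, 3}, {1, 2}, ⟨1, 0, 1, 0⟩),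
    ({0, 2}, {0, 2}, ⟨0, 1, 1, 0⟩), ({0, 2}, {1, 3}, ⟨1, 1, 0, 1⟩),
    ({0, 1, 2}, {2, 3}, ⟨1, 0, 0, 0⟩), ({0, 1, 2}, {0, 1}, ⟨1, 1, 0, 0⟩),
    ({1, 2, 3}, {0, 1}, ⟨1, 1, 1, 1⟩), ({1, 2, 3}, {2, 3}, ⟨1, 0, 1, 0⟩),
    ({2, 3}, {1, 3}, ⟨1, 1, 1, 0⟩), ({2, 3}, {0, 2}, ⟨0, 1, 1, 1⟩),
    ({1}, {1, 2}, ⟨1, 0, 0, 0⟩), ({1}, {0, 3}, ⟨1, 0, 1, 0⟩),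
    (∅, {0, 1, 2, 3}, ⟨0, 1, 0, 1⟩), (∅, ∅, ⟨1, 0, 0, 0⟩)]
  B := [(∅, ∅), ({0}, {1, 2}), ({1}, {2, 3}), ({0, 1}, {1, 3}), ({2}, {3}), ({0, 2}, {1, 2, 3}),
    ({1, 2}, {2}), ({0, 1, 2}, {1}), ({3}, ∅), ({0, 3}, {1, 2}), ({1, 3}, {2, 3}),
    ({0, 1, 3}, {1, 3}), ({2, 3}, {3}), ({0, 2, 3}, {1, 2, 3}), ({1, 2, 3}, {2}),
    ({0, 1, 2, 3}, {1})]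
  s := ⟨1, 0, 1, 0⟩
  a := ⟨-3, 0, -1, 0⟩
  c := ⟨0, 0, 1, 0⟩
  c1 := ⟨3, 0, 1, 0⟩
  c2 := ⟨3, 0, 1, 0⟩
  n1 := 2
  n2 := 1
  E1 := ![∅, {3}]
  K1 := ![∅, {0}]
  E2 := ![⟨1, 0, 0, 0⟩]
  K2 := ![∅]
  f := ![0, 0]
  x := ![⟨1, 0, 0, 0⟩, ⟨-1, 0, -1, 0⟩]
  y := ![⟨0, 0, 0, 0⟩, ⟨2, 0, 0, 0⟩]

def C57 : Cert P57 where
  u := ![⟨-1, 0, 0, 0⟩, ⟨0, 1, 0, 0⟩, ⟨1, 1, 1, 0⟩, ⟨1, 0, 1, 1⟩]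
  l := ![⟨2, 0, 0, -1⟩, ⟨2, 0, 0, 1⟩, ⟨0, 2, 1, 0⟩, ⟨0, 1, -1, 0⟩]
  q := ![19, 19, 19, 29]
  w := ![5, 5, 15, 6]
  h := ![8, 11, 8, 6]
  ts := [⟨0, 0, 0, 1⟩, ⟨0, 0, 1, 0⟩, ⟨0, 0, 1, 1⟩, ⟨0, 1, 0, 0⟩, ⟨0, 1, 1, 0⟩,
    ⟨0, 1, 1, 1⟩, ⟨1, 0, 0, 0⟩, ⟨1, 0, 0, 1⟩, ⟨1, 0, 1, 1⟩, ⟨1, 1, 0, 0⟩,
    ⟨1, 1, 0, 1⟩, ⟨1, 1, 1, 0⟩]
  A := ![({0}, ∅, ⟨0, 0, 1, 0⟩), ({0, 1, 2}, {1, 3}, ⟨0, 0, 1, 1⟩),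
    ({0, 1, 2}, {0, 3}, ⟨1, 1, 0, 0⟩), ({0}, {0, 1}, ⟨0, 0, 1, 1⟩),
    ({1, 2}, {2, 3}, ⟨1, 0, 1, 1⟩), (∅, {1, 2}, ⟨1, 1, 1, 0⟩), (∅, {0, 2}, ⟨1, 0, 1, 1⟩),
    ({1, 2}, {0, 1, 2, 3}, ⟨1, 1, 0, 1⟩), ({0, 1, 2}, {0, 1, 2, 3}, ⟨0, 1, 1, 1⟩),
    ({0}, {0, 2}, ⟨1, 1, 1, 0⟩), ({0}, {1, 2}, ⟨1, 0, 1, 1⟩),
    ({0, 1, 2}, {2, 3}, ⟨1, 1, 1, 0⟩), (∅, {0, 1}, ⟨1, 1, 0, 0⟩),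
    ({1, 2}, {0, 3}, ⟨0, 0, 1, 1⟩), ({1, 2}, {1, 3}, ⟨1, 1, 0, 0⟩), (∅, ∅, ⟨1, 0, 0, 0⟩)]
  B := [(∅, ∅), ({0}, {1, 2, 3}), ({1}, {0, 2, 3}), ({0, 1}, {0, 1}), ({2}, {1, 2}),
    ({0, 2}, {3}), ({1, 2}, {0, 1, 3}), ({0, 1, 2}, {0, 2}), ({3}, {1, 2}), ({0, 3}, {3}),
    ({1, 3}, {0, 1, 3}), ({0, 1, 3}, {0, 2}), ({2, 3}, ∅), ({0, 2, 3}, {1, 2, 3}),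
    ({1, 2, 3}, {0, 2, 3}), ({0, 1, 2, 3}, {0, 1})]
  s := ⟨0, 0, 1, 0⟩
  a := ⟨-2, 0, 0, 0⟩
  c := ⟨1, 0, 0, 0⟩
  c1 := ⟨1, 0, 0, 0⟩
  c2 := ⟨0, 0, 0, 0⟩
  n1 := 2
  n2 := 1
  E1 := ![∅, {2, 3}]
  K1 := ![∅, {0}]
  E2 := ![⟨1, 0, 0, 0⟩]
  K2 := ![∅]
  f := ![0, 0]
  x := ![⟨1, 0, 0, 0⟩, ⟨0, -2, 0, -1⟩]
  y := ![⟨0, 0, 0, 0⟩, ⟨0, 3, 0, 1⟩]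

lemma ok37 : C37.ok M37 := by decide +kernel
lemma cov37 : coverB M37 C37.u C37.l C37.A C37.B C37.ts = true := by decide +kernel

lemma ok23 : C23.ok M23 := by decide +kernel
lemma cov23 : coverB M23 C23.u C23.l C23.A C23.B C23.ts = true := by decide +kernel

lemma ok35 : C35.ok M35 := by decide +kernel
lemma cov35 : coverB M35 C35.u C35.l C35.A C35.B C35.ts = true := by decide +kernel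

lemma ok27 : C27.ok M27 := by decide +kernel
lemma cov27 : coverB M27 C27.u C27.l C27.A C27.B C27.ts = true := by decide +kernel

lemma ok56 : C56.ok M56 := by decide +kernel
lemma cov56 : coverB M56 C56.u C56.l C56.A C56.B C56.ts = true := by decide +kernel

lemma ok57 : C57.ok M57 := by decide +kernel
lemma cov57 : coverB M57 C57.u C57.l C57.A C57.B C57.ts = true := by decide +kernel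

end Frac

theorem frac23 (β : Q P23) (h : S23.Pos β) (h2 : IsCoprime β 2) :
    ∃ t : Q P23, t ≠ 0 ∧ S3 (t ^ 2 * β) :=
  Frac.C23.frac S23 Frac.ok23 Frac.cov23 β h h2
theorem frac35 (β : Q P35) (h : S35.Pos β) (h2 : IsCoprime β 2) :
    ∃ t : Q P35, t ≠ 0 ∧ S3 (t ^ 2 * β) :=
  Frac.C35.frac S35 Frac.ok35 Frac.cov35 β h h2
theorem frac37 (β : Q P37) (h : S37.Pos β) (h2 : IsCoprime β 2) :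
    ∃ t : Q P37, t ≠ 0 ∧ S3 (t ^ 2 * β) :=
  Frac.C37.frac S37 Frac.ok37 Frac.cov37 β h h2
theorem frac27 (β : Q P27) (h : S27.Pos β) (h2 : IsCoprime β 2) :
    ∃ t : Q P27, t ≠ 0 ∧ S3 (t ^ 2 * β) :=
  Frac.C27.frac S27 Frac.ok27 Frac.cov27 β h h2
theorem frac56 (β : Q P56) (h : S56.Pos β) (h2 : IsCoprime β 2) :
    ∃ t : Q P56, t ≠ 0 ∧ S3 (t ^ 2 * β) :=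
  Frac.C56.frac S56 Frac.ok56 Frac.cov56 β h h2
theorem frac57 (β : Q P57) (h : S57.Pos β) (h2 : IsCoprime β 2) :
    ∃ t : Q P57, t ≠ 0 ∧ S3 (t ^ 2 * β) :=
  Frac.C57.frac S57 Frac.ok57 Frac.cov57 β h h2

end Pool.Agent.Lib.MP_aed2da_nt
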