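import Pool.Agent.Lib.MP_aed2da_nt.QCheb
import Pool.Agent.Lib.MP_aed2da_nt.QRecip

-- part Pool.Agent.Lib.MP_aed2da_nt.ThreeSq
section

open NumberField

namespace Pool.Agent.Lib.MP_aed2da_nt

open Genus

variable {K : Type*} [Field K] [NumberField K]

omit [NumberField K] in
theorem sq_mod_iff {k x : 𝓞 K} :
    (∃ r : 𝓞 K, k ∣ x - r ^ 2) ↔ IsSquare (Ideal.Quotient.mk (Ideal.span {k}) x) := by
  constructor
  · rintro ⟨r, hr⟩
    exact ⟨Ideal.Quotient.mk _ r, by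
      rw [← map_mul, ← sq]; exact Ideal.Quotient.eq.mpr (Ideal.mem_span_singleton.mpr hr)⟩
  · rintro ⟨r, hr⟩
    obtain ⟨r, rfl⟩ := Ideal.Quotient.mk_surjective r
    rw [← map_mul, ← sq] at hr
    exact ⟨r, Ideal.mem_span_singleton.mp (Ideal.Quotient.eq.mp hr)⟩

theorem sq_mod_mul {k x y : 𝓞 K} (hk : Prime k)
    (h : (∃ r : 𝓞 K, k ∣ x - r ^ 2) ↔ ∃ r : 𝓞 K, k ∣ y - r ^ 2) :
    ∃ r : 𝓞 K, k ∣ x * y - r ^ 2 := by
  classical
  simp only [sq_mod_iff, map_mul] at h ⊢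
  have h0 : Ideal.span {k} ≠ ⊥ := by simpa using hk.ne_zero
  have := ((Ideal.span_singleton_prime hk.ne_zero).mpr hk).isMaximal h0
  let := Ideal.Quotient.field (Ideal.span {k})
  have := Ideal.finiteQuotientOfFreeOfNeBot _ h0
  let := Fintype.ofFinite (𝓞 K ⧸ Ideal.span {k})
  by_cases hx : IsSquare (Ideal.Quotient.mk (Ideal.span {k}) x)
  · exact hx.mul (h.mp hx)
  · by_contra hxy
    have hy := mt h.mpr hx
    rw [← quadraticChar_neg_one_iff_not_isSquare] at hx hy hxy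
    rw [map_mul, hx, hy] at hxy
    norm_num at hxy

variable [IsTotallyReal K] [IsPrincipalIdealRing (𝓞 K)]

open Classical in
/-- three squares in the field -/
theorem three_sq_field {n : ℕ} (hn : Module.finrank ℚ K = n) (u : Fin n → (𝓞 K)ˣ)
    {m : ℕ} (l : Fin m → 𝓞 K) (hl : ∀ i, Prime (l i) ∧ ¬ l i ∣ 2)
    (hc : ∀ i j, i ≠ j → ¬ l i ∣ l j)
    (hind : ∀ J : Finset (Fin n), J.Nonempty → ∃ i, ¬ ∃ r : 𝓞 K, l i ∣ (∏ j ∈ J, u j : (𝓞 K)ˣ) - r ^ 2)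
    (hsep : ∀ I : Finset (Fin m), I.Nonempty → ∃ j,
      ¬ Even (I.filter (fun i => ¬ ∃ r : 𝓞 K, l i ∣ u j - r ^ 2)).card)
    (hcover : ∀ p : 𝓞 K, Prime p → ¬ p ∣ 2 → ∃ (w : (𝓞 K)ˣ) (I : Finset (Fin m)),
      TotPos ((p * (w * ∏ i ∈ I, l i) : 𝓞 K) : K) ∧
        ∃ t : 𝓞 K, 4 ∣ p - w * (∏ i ∈ I, l i) * t ^ 2)
    (η : 𝓞 K) (hU : ∀ v : (𝓞 K)ˣ, TotPos ((v : 𝓞 K) : K) → ∃ w : (𝓞 K)ˣ,
      (v : 𝓞 K) = w ^ 2 ∨ (v : 𝓞 K) = η * w ^ 2)
    (s a : 𝓞 K) (hd : IsUnit (s ^ 2 + 4 * a)) (hdpos : TotPos ((-(s ^ 2 + 4 * a) : 𝓞 K) : K))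
    (hη : ∃ x y : 𝓞 K, η = x ^ 2 + s * x * y - a * y ^ 2)
    (hd2 : ∃ c₁ c₂ : K, ((-(s ^ 2 + 4 * a) : 𝓞 K) : K) = c₁ ^ 2 + c₂ ^ 2)
    (κ : 𝓞 K) (hκ : Prime κ) (hκ2 : ¬ κ ∣ 2) (hκpos : ∀ w : (𝓞 K)ˣ, ¬ TotPos ((w * κ : 𝓞 K) : K))
    (β : 𝓞 K) (hβ : TotPos (β : K)) (hodd : IsCoprime β 2) :
    ∃ x y z : K, (β : K) = x ^ 2 + y ^ 2 + z ^ 2 := by
  have hβ0 : β ≠ 0 := fun h => TotPos.ne_zero hβ (by simp [h])
  have hsq : ∀ x : 𝓞 K, IsSquare (x : K) → ∃ r, x = r * r := by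
    rintro x ⟨r, hr⟩
    have : IsIntegral ℤ r := IsIntegral.of_pow two_pos (by rw [sq, ← hr]; exact x.isIntegral_coe)
    exact ⟨⟨r, this⟩, RingOfIntegers.coe_injective hr⟩
  obtain ⟨S, hS1, hS2, hS3⟩ : ∃ S : Finset (𝓞 K), (∀ q ∈ S, Prime q) ∧
      (∀ q ∈ S, ∀ q' ∈ S, q ∣ q' → q = q') ∧
      ∀ k, Prime k → k ∣ β * κ → ∃ q ∈ S, Associated k q := by
    let := (UniqueFactorizationMonoid.strongNormalizationMonoid : StrongNormalizationMonoid (𝓞 K))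
    refine ⟨(UniqueFactorizationMonoid.normalizedFactors (β * κ)).toFinset, fun q hq =>
      UniqueFactorizationMonoid.prime_of_normalized_factor q (Multiset.mem_toFinset.mp hq),
      fun q hq q' hq' h => UniqueFactorizationMonoid.normalizedFactors_eq_of_dvd _ q
        (Multiset.mem_toFinset.mp hq) q' (Multiset.mem_toFinset.mp hq') h, fun k hk h => ?_⟩
    obtain ⟨q, hq, e⟩ := UniqueFactorizationMonoid.exists_mem_normalizedFactors_of_dvd
      (mul_ne_zero hβ0 hκ.ne_zero) hk.irreducible h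
    exact ⟨q, Multiset.mem_toFinset.mpr hq, e⟩
  obtain ⟨P, hP, -, hP2, hPd⟩ := exists_prime_prescribed
    (Sum.elim (fun j => (u j : 𝓞 K)) (fun q : S => q.1))
    (Sum.elim (fun _ => True) fun q : S => ∃ r : 𝓞 K, q.1 ∣ s ^ 2 + 4 * a - r ^ 2) (by
      intro J hJ h
      obtain ⟨r, hr⟩ := hsq _ h
      rw [Finset.prod_sum_eq_prod_toLeft_mul_prod_toRight] at hr
      simp only [Sum.elim_inl, Sum.elim_inr, ← Units.coe_prod] at hr
      rcases J.toRight.eq_empty_or_nonempty with h0 | ⟨q, hq⟩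
      · obtain ⟨i, hi⟩ := hind J.toLeft (by
          obtain ⟨j | j, hj⟩ := hJ
          · exact ⟨j, by simpa using hj⟩
          · exact absurd (Finset.mem_toRight.mpr hj) (by simp [h0]))
        rw [h0, Finset.prod_empty, mul_one] at hr
        exact hi ⟨r, by rw [hr, sq, sub_self]; exact dvd_zero _⟩
      · have hq1 := hS1 q.1 q.2
        rw [← Finset.mul_prod_erase _ _ hq, mul_left_comm] at hr
        obtain ⟨t, rfl⟩ : q.1 ∣ r := by simpa using hq1.dvd_or_dvd ⟨_, hr.symm⟩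
        have h1 := mul_left_cancel₀ hq1.ne_zero (hr.trans (mul_assoc _ _ _))
        obtain ⟨q', hq', h2⟩ := (hq1.dvd_finsetProd_iff _).mp
          (Units.dvd_mul_left.mp (h1 ▸ (dvd_mul_right q.1 t).mul_left t))
        exact (Finset.mem_erase.mp hq').1 (Subtype.ext (hS2 _ q.2 _ q'.2 h2).symm)) ∅
  obtain ⟨p', rfl⟩ : ∃ p', P = Ideal.span {p'} := (IsPrincipalIdealRing.principal P).principal
  simp only [Ideal.mem_span_singleton] at hP2 hPd
  have hp'0 : p' ≠ 0 := fun h => Ring.ne_bot_of_isMaximal_of_not_isField hP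
    (RingOfIntegers.not_isField K) (by simp [h])
  have hp' : Prime p' := (Ideal.span_singleton_prime hp'0).mp hP.isPrime
  obtain ⟨w, I, hpos, t, ht⟩ := hcover p' hp' hP2
  obtain rfl : I = ∅ := by
    by_contra hI
    obtain ⟨j, hj⟩ := hsep I (Finset.nonempty_iff_ne_empty.mpr hI)
    exact hj ((unit_symbol (u j) w p' hp' hP2 I l (fun i _ => hl i) (fun i _ j _ => hc i j) hpos
      ⟨t, ht⟩).mp ((hPd (Sum.inl j)).2.mpr trivial))
  rw [Finset.prod_empty, mul_one] at hpos ht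
  obtain ⟨c, hc4⟩ := ht
  have hpp : Associated p' (p' * w) := ⟨w, rfl⟩
  have hT : p' * w = (w * t) ^ 2 + 4 * (w * c) := by linear_combination (w : 𝓞 K) * hc4
  simp only [hpp.dvd_iff_dvd_left] at hP2 hPd
  have hp := hpp.prime hp'
  generalize p' * w = p at *
  generalize (w : 𝓞 K) * t = T at *
  generalize (w : 𝓞 K) * c = M at *
  have hω : (s * T) ^ 2 + 4 * (a * T ^ 2 + M * (s ^ 2 + 4 * a)) = (s ^ 2 + 4 * a) * p := by
    rw [hT]; ring
  have hsplit : ∀ k, Prime k → k ∣ β * κ → ¬ k ∣ 2 ∧ ∃ r : 𝓞 K,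
      k ∣ (s * T) ^ 2 + 4 * (a * T ^ 2 + M * (s ^ 2 + 4 * a)) - r ^ 2 := by
    intro k hk h
    have hk2 : ¬ k ∣ 2 := fun h2 => by
      rcases hk.dvd_or_dvd h with h | h
      · exact hk.not_isUnit (hodd.isUnit_of_dvd' h h2)
      · exact hκ2 (((hk.dvd_prime_iff_associated hκ).mp h).symm.dvd.trans h2)
    obtain ⟨q, hq, e⟩ := hS3 k hk h
    simp only [e.dvd_iff_dvd_left] at hk2 ⊢
    refine ⟨hk2, hω ▸ sq_mod_mul (hS1 q hq) ?_⟩
    rw [recip_primary p q hp (hS1 q hq) hP2 hk2 (hPd (Sum.inr ⟨q, hq⟩)).1 hpos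
      ⟨T, M, by rw [hT]; ring⟩]
    exact (hPd (Sum.inr ⟨q, hq⟩)).2.symm
  obtain ⟨x, y, h1⟩ := norm_form_rep (s * T) (a * T ^ 2 + M * (s ^ 2 + 4 * a)) η
    (Or.inl (hω ▸ (associated_unit_mul_right p _ hd).prime hp))
    (by rw [hω, ← neg_mul]; simpa using TotPos.mul hdpos hpos) hU
    (Or.inr ⟨κ, hκ, hκ2, (hsplit κ hκ (dvd_mul_left _ _)).2, hκpos⟩) (-(s ^ 2 + 4 * a) * β)
    (by simpa using TotPos.mul hdpos hβ)
    fun k hk h => hsplit k hk ((hd.neg.dvd_mul_left.mp h).mul_right κ)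
  obtain ⟨x', y', h2⟩ := norm_form_rep s a η (Or.inr hd) hdpos hU (Or.inl hη) p hpos (by
    intro k hk h
    simp only [((hk.dvd_prime_iff_associated hp).mp h).dvd_iff_dvd_left]
    refine ⟨hP2, ?_⟩
    obtain ⟨J, z, e⟩ := units_mod_squares hn u (fun J hJ ⟨r, hr⟩ => by
      obtain ⟨i, hi⟩ := hind J hJ
      exact hi ⟨r, by rw [hr, sq]; simp⟩) hd.unit
    rw [← hd.unit_spec, e, sq_mod_iff, Units.val_mul, Units.val_pow_eq_pow_val, Units.coe_prod,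
      map_mul, map_pow, map_prod]
    exact (IsSquare.sq _).mul (Finset.prod_induction _ _ (fun _ _ => IsSquare.mul) IsSquare.one
      fun j _ => sq_mod_iff.mp ((hPd (Sum.inl j)).2.mpr trivial)))
  obtain ⟨c₁, c₂, h3⟩ := hd2
  have h4 := TotPos.ne_zero hdpos
  have h5 := congrArg (algebraMap (𝓞 K) K) hT
  simp only [RingOfIntegers.coe_eq_algebraMap, map_mul, map_add, map_neg, map_pow, map_ofNat]
    at h1 h2 h3 h4 h5 ⊢
  generalize algebraMap (𝓞 K) K s = s at *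
  generalize algebraMap (𝓞 K) K a = a at *
  obtain ⟨A, hA⟩ : ∃ A, x + s * algebraMap (𝓞 K) K T * y / 2 = -(s ^ 2 + 4 * a) * A :=
    ⟨_, (mul_div_cancel₀ _ h4).symm⟩
  refine ⟨(x' + s * y' / 2) * (y / 2), c₁ * A - c₂ * (y' / 2 * (y / 2)),
    c₂ * A + c₁ * (y' / 2 * (y / 2)), mul_left_cancel₀ h4 ?_⟩
  rw [h1]
  linear_combination (x + s * algebraMap (𝓞 K) K T * y / 2 - (s ^ 2 + 4 * a) * A) * hA -
    (s ^ 2 + 4 * a) * (y / 2) ^ 2 * (h2 - h5) -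
    (s ^ 2 + 4 * a) * (A ^ 2 + (y' / 2 * (y / 2)) ^ 2) * h3

end Pool.Agent.Lib.MP_aed2da_nt
end

-- part Pool.Agent.Lib.MP_aed2da_nt.Genus2
section

/-!
Genus theory and the three squares theorem when the totally positive units modulo squares
form a group of any order.
-/

open NumberField QuadraticAlgebra

namespace Pool.Agent.Lib.MP_aed2da_nt

open Genus

variable {K : Type*} [Field K] [NumberField K] [IsTotallyReal K] [IsPrincipalIdealRing (𝓞 K)]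

/-- genus theory for a CM extension with at most one ramified prime -/
theorem norm_form_gen (s a : 𝓞 K) (hω : Prime (s ^ 2 + 4 * a) ∨ IsUnit (s ^ 2 + 4 * a))
    (hneg : TotPos ((-(s ^ 2 + 4 * a) : 𝓞 K) : K)) {ι : Type} [Finite ι] (η κ : ι → 𝓞 K)
    (hU : ∀ u : (𝓞 K)ˣ, TotPos ((u : 𝓞 K) : K) → ∃ (i : ι) (x y : 𝓞 K),
      (u : 𝓞 K) = η i * (x ^ 2 + s * x * y - a * y ^ 2))
    (hκ0 : ∀ i, κ i ≠ 0)
    (hκ : ∀ i k, Prime k → k ∣ κ i → ¬ k ∣ 2 ∧ ∃ r : 𝓞 K, k ∣ s ^ 2 + 4 * a - r ^ 2)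
    (hκp : ∀ i j, i ≠ j → ∀ w : (𝓞 K)ˣ, ¬ TotPos ((w * (κ i * κ j) : 𝓞 K) : K))
    (β : 𝓞 K) (hβ : TotPos (β : K))
    (hsplit : ∀ κ : 𝓞 K, Prime κ → κ ∣ β → ¬ κ ∣ 2 ∧ ∃ r : 𝓞 K, κ ∣ s ^ 2 + 4 * a - r ^ 2) :
    ∃ x y : K, (β : K) = x ^ 2 + s * x * y - a * y ^ 2 := by
  have hsf : Squarefree (s ^ 2 + 4 * a) := hω.elim (·.squarefree) (·.squarefree)
  have hneg' : TotPos (-((s : K) ^ 2 + 4 * a)) := by
    convert hneg using 1
    simp [map_ofNat]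
  obtain ⟨_, _⟩ := dedekind hsf hneg'
  have hpos : ∀ z : QuadraticAlgebra (𝓞 K) a s, z ≠ 0 → TotPos ((norm z : 𝓞 K) : K) := fun z hz =>
    norm_phi z ▸ norm_pos hneg' ((map_ne_zero_iff _ phi_injective).mpr hz)
  have hβ0 : β ≠ 0 := fun h => TotPos.ne_zero hβ (by simp [h])
  have hU' : ∀ u : (𝓞 K)ˣ, TotPos ((u : 𝓞 K) : K) → ∃ (i : ι) (z : QuadraticAlgebra (𝓞 K) a s),
      (u : 𝓞 K) = η i * norm z := by
    intro u hu
    obtain ⟨i, x, y, h⟩ := hU u hu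
    exact ⟨i, ⟨x, y⟩, by rw [h, norm_def]; ring⟩
  let sq : ClassGroup (QuadraticAlgebra (𝓞 K) a s) →* _ := powMonoidHom 2
  have hT : ∀ g : sq.ker, ∃ (i : ι) (I : Ideal (QuadraticAlgebra (𝓞 K) a s))
      (x y z : QuadraticAlgebra (𝓞 K) a s), I ≠ 0 ∧ cl I = g ∧ x ≠ 0 ∧ y ≠ 0 ∧
      Ideal.span {x} * I = Ideal.span {y} * cj I ∧ IsUnit (η i * norm z) ∧
      norm x = η i * norm z * norm y := by
    rintro ⟨g, hg⟩
    obtain ⟨I, x, y, u, hI, rfl, hx, hy, e, hn⟩ := two_torsion hω hg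
    obtain ⟨i, z, hz⟩ := hU' u (TotPos.of_mul (by rw [hn]; simp) (hpos y hy) (hpos x hx))
    exact ⟨i, I, x, y, z, hI, rfl, hx, hy, e, hz ▸ u.isUnit, hz ▸ hn⟩
  choose φ hφ using hT
  have hφi : Function.Injective φ := by
    intro g g' h
    obtain ⟨J, x, y, z, hJ, e1, hx, hy, e, hu, hn⟩ := hφ g
    obtain ⟨J', x', y', z', hJ', e1', hx', hy', e', hu', hn'⟩ := hφ g'
    rw [← h] at hu' hn'
    have := hilbert hω (mul_ne_zero hJ hJ') (mul_ne_zero hx hx') (y := y * y')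
      (ε := algebraMap _ _ (η (φ g)) * z * z')
      (by
        rw [map_mul, map_mul, QuadraticAlgebra.norm_algebraMap]
        convert hu.mul hu' using 1
        ring)
      (by rw [cj_mul, ← Ideal.span_singleton_mul_span_singleton,
        ← Ideal.span_singleton_mul_span_singleton, mul_mul_mul_comm, e, e', mul_mul_mul_comm])
      (by rw [map_mul, map_mul, map_mul, map_mul, QuadraticAlgebra.norm_algebraMap, hn, hn']; ring)
    rw [cl_mul hJ hJ', e1, e1'] at this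
    have h2 : g'.1 * g'.1 = 1 := (pow_two _).symm.trans g'.2
    exact Subtype.ext (mul_right_cancel (this.trans h2.symm))
  have hne : ∀ (γ : 𝓞 K) (J : Ideal (QuadraticAlgebra (𝓞 K) a s)), γ ≠ 0 →
      J * cj J = Ideal.span {algebraMap _ _ γ} → J ≠ 0 := by
    rintro γ _ hγ h rfl
    rw [zero_mul, eq_comm, Ideal.zero_eq_bot, Ideal.span_singleton_eq_bot] at h
    exact hγ (algebraMap_injective (h.trans (map_zero _).symm))
  have hns : ∀ (γ : 𝓞 K) (J : Ideal (QuadraticAlgebra (𝓞 K) a s)), γ ≠ 0 →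
      J * cj J = Ideal.span {algebraMap _ _ γ} → cl J ∈ sq.range →
      ∃ w : (𝓞 K)ˣ, TotPos ((w * γ : 𝓞 K) : K) := by
    intro γ J hγ hJ h
    obtain ⟨x, y, u, hx, hy, e⟩ := sq_class hω hγ hJ h
    have e2 : (u⁻¹ : (𝓞 K)ˣ) * γ * norm x = norm y := by
      rw [mul_assoc, e, Units.inv_mul_cancel_left]
    exact ⟨u⁻¹, TotPos.of_mul (by rw [← e2]; simp) (hpos x hx) (hpos y hy)⟩
  have hmul : ∀ (γ γ' : 𝓞 K) (J J' : Ideal (QuadraticAlgebra (𝓞 K) a s)), γ ≠ 0 → γ' ≠ 0 →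
      J * cj J = Ideal.span {algebraMap _ _ γ} → J' * cj J' = Ideal.span {algebraMap _ _ γ'} →
      (QuotientGroup.mk (cl J) : _ ⧸ sq.range) = QuotientGroup.mk (cl J') →
      ∃ w : (𝓞 K)ˣ, TotPos ((w * (γ * γ') : 𝓞 K) : K) := by
    intro γ γ' J J' hγ hγ' hJ hJ' h
    refine hns _ (J * J') (mul_ne_zero hγ hγ') ?_ ?_
    · rw [cj_mul, mul_mul_mul_comm, hJ, hJ', Ideal.span_singleton_mul_span_singleton, map_mul]
    · obtain ⟨g, hg⟩ := QuotientGroup.eq.mp h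
      refine ⟨cl J * g, ?_⟩
      rw [map_mul, hg, cl_mul (hne _ _ hγ hJ) (hne _ _ hγ' hJ')]
      change cl J ^ 2 * _ = _
      group
  choose P hP using fun i => exists_norm_ideal hsf (κ i) (hκ0 i) (hκ i)
  let ψ : ι → _ ⧸ sq.range := fun i => QuotientGroup.mk (cl (P i))
  have hψi : Function.Injective ψ := by
    intro i j h
    by_contra hij
    obtain ⟨w, hw⟩ := hmul _ _ _ _ (hκ0 i) (hκ0 j) (hP i) (hP j) h
    exact hκp i j hij w hw
  have hc : Nat.card (_ ⧸ sq.range) = Nat.card sq.ker := Subgroup.index_range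
  have hψs := (hψi.bijective_of_nat_card_le
    (hc ▸ Nat.card_le_card_of_injective _ hφi)).2
  have hφs := (hφi.bijective_of_nat_card_le
    (hc ▸ Nat.card_le_card_of_injective _ hψi)).2
  obtain ⟨I, hI⟩ := exists_norm_ideal hsf β hβ0 hsplit
  have key : cl I ∈ sq.range := by
    obtain ⟨i, hi⟩ := hψs (QuotientGroup.mk (cl I))
    obtain ⟨j, hj⟩ := hψs 1
    obtain ⟨w, hw⟩ := hmul _ _ _ _ (hκ0 i) hβ0 (hP i) hI hi
    obtain ⟨w', hw'⟩ := hns _ _ (hκ0 j) (hP j) ((QuotientGroup.eq_one_iff _).mp hj)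
    obtain rfl : i = j := by
      by_contra hij
      refine hκp i j hij (w * w') (TotPos.of_mul ?_ hβ (TotPos.mul hw hw'))
      simp only [Units.val_mul, RingOfIntegers.coe_eq_algebraMap, map_mul]
      ring
    exact (QuotientGroup.eq_one_iff _).mp (hi.symm.trans hj)
  obtain ⟨x, y, u, hx, hy, e⟩ := sq_class hω hβ0 hI key
  obtain ⟨x, y, hx, e⟩ : ∃ x y : QuadraticAlgebra (𝓞 K) a s, x ≠ 0 ∧ β * norm x = norm y := by
    obtain ⟨i, z, hz⟩ := hU' u (TotPos.of_mul (by rw [← map_mul, ← e]; simp) (hpos y hy)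
      (TotPos.mul hβ (hpos x hx)))
    obtain ⟨g, rfl⟩ := hφs i
    obtain ⟨-, x', y', z', -, -, -, hy', -, hu, hn⟩ := hφ g
    have hz' : z' ≠ 0 := by
      rintro rfl
      simp at hu
    refine ⟨x * (z' * y'), z * y * x', mul_ne_zero hx (mul_ne_zero hz' hy'), ?_⟩
    simp only [map_mul]
    rw [← mul_assoc, e, hz, hn]
    ring
  have hn := TotPos.ne_zero (hpos x hx)
  have e2 := norm_phi (y * star x)
  rw [map_mul QuadraticAlgebra.norm, QuadraticAlgebra.norm_star, ← e, norm_def] at e2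
  refine ⟨(phi a s (y * star x)).re / (norm x : 𝓞 K), (phi a s (y * star x)).im / (norm x : 𝓞 K), ?_⟩
  simp only [RingOfIntegers.coe_eq_algebraMap, map_mul (algebraMap (𝓞 K) K)] at e2 hn ⊢
  field_simp
  linear_combination -e2

open Classical in
/-- three squares in the field -/
theorem three_sq_gen {n : ℕ} (hn : Module.finrank ℚ K = n) (u : Fin n → (𝓞 K)ˣ)
    {m : ℕ} (l : Fin m → 𝓞 K) (hl : ∀ i, Prime (l i) ∧ ¬ l i ∣ 2)
    (hc : ∀ i j, i ≠ j → ¬ l i ∣ l j)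
    (hind : ∀ J : Finset (Fin n), J.Nonempty → ∃ i, ¬ ∃ r : 𝓞 K, l i ∣ (∏ j ∈ J, u j : (𝓞 K)ˣ) - r ^ 2)
    (hsep : ∀ I : Finset (Fin m), I.Nonempty → ∃ j,
      ¬ Even (I.filter (fun i => ¬ ∃ r : 𝓞 K, l i ∣ u j - r ^ 2)).card)
    (hcover : ∀ p : 𝓞 K, Prime p → ¬ p ∣ 2 → ∃ (w : (𝓞 K)ˣ) (I : Finset (Fin m)),
      TotPos ((p * (w * ∏ i ∈ I, l i) : 𝓞 K) : K) ∧
        ∃ t : 𝓞 K, 4 ∣ p - w * (∏ i ∈ I, l i) * t ^ 2)
    {ι ι' : Type} [Fintype ι] [Finite ι'] (η κ : ι → 𝓞 K)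
    (hU : ∀ v : (𝓞 K)ˣ, TotPos ((v : 𝓞 K) : K) → ∃ (i : ι) (w : 𝓞 K), (v : 𝓞 K) = η i * w ^ 2)
    (hκ0 : ∀ i, κ i ≠ 0) (hκ : ∀ i, IsCoprime (κ i) 2)
    (hκp : ∀ i j, i ≠ j → ∀ w : (𝓞 K)ˣ, ¬ TotPos ((w * (κ i * κ j) : 𝓞 K) : K))
    (s a : 𝓞 K) (hd : IsUnit (s ^ 2 + 4 * a)) (hdpos : TotPos ((-(s ^ 2 + 4 * a) : 𝓞 K) : K))
    (η' κ' : ι' → 𝓞 K)
    (hη : ∀ i, ∃ (j : ι') (x y : 𝓞 K), η i = η' j * (x ^ 2 + s * x * y - a * y ^ 2))
    (hκ0' : ∀ i, κ' i ≠ 0)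
    (hκ' : ∀ i k, Prime k → k ∣ κ' i → ¬ k ∣ 2 ∧ ∃ r : 𝓞 K, k ∣ s ^ 2 + 4 * a - r ^ 2)
    (hκp' : ∀ i j, i ≠ j → ∀ w : (𝓞 K)ˣ, ¬ TotPos ((w * (κ' i * κ' j) : 𝓞 K) : K))
    (hd2 : ∃ c₁ c₂ : K, ((-(s ^ 2 + 4 * a) : 𝓞 K) : K) = c₁ ^ 2 + c₂ ^ 2)
    (β : 𝓞 K) (hβ : TotPos (β : K)) (hodd : IsCoprime β 2) :
    ∃ x y z : K, (β : K) = x ^ 2 + y ^ 2 + z ^ 2 := by
  have hβ0 : β ≠ 0 := fun h => TotPos.ne_zero hβ (by simp [h])
  obtain ⟨κ₀, hκ₀⟩ : ∃ κ₀, κ₀ = ∏ i, κ i := ⟨_, rfl⟩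
  have hκ₀0 : κ₀ ≠ 0 := hκ₀ ▸ Finset.prod_ne_zero_iff.mpr fun i _ => hκ0 i
  have hκ₀2 : IsCoprime κ₀ 2 := hκ₀ ▸ IsCoprime.prod_left fun i _ => hκ i
  have hsq : ∀ x : 𝓞 K, IsSquare (x : K) → ∃ r, x = r * r := by
    rintro x ⟨r, hr⟩
    have : IsIntegral ℤ r := IsIntegral.of_pow two_pos (by rw [sq, ← hr]; exact x.isIntegral_coe)
    exact ⟨⟨r, this⟩, RingOfIntegers.coe_injective hr⟩
  obtain ⟨S, hS1, hS2, hS3⟩ : ∃ S : Finset (𝓞 K), (∀ q ∈ S, Prime q) ∧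
      (∀ q ∈ S, ∀ q' ∈ S, q ∣ q' → q = q') ∧
      ∀ k, Prime k → k ∣ β * κ₀ → ∃ q ∈ S, Associated k q := by
    let := (UniqueFactorizationMonoid.strongNormalizationMonoid : StrongNormalizationMonoid (𝓞 K))
    refine ⟨(UniqueFactorizationMonoid.normalizedFactors (β * κ₀)).toFinset, fun q hq =>
      UniqueFactorizationMonoid.prime_of_normalized_factor q (Multiset.mem_toFinset.mp hq),
      fun q hq q' hq' h => UniqueFactorizationMonoid.normalizedFactors_eq_of_dvd _ q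
        (Multiset.mem_toFinset.mp hq) q' (Multiset.mem_toFinset.mp hq') h, fun k hk h => ?_⟩
    obtain ⟨q, hq, e⟩ := UniqueFactorizationMonoid.exists_mem_normalizedFactors_of_dvd
      (mul_ne_zero hβ0 hκ₀0) hk.irreducible h
    exact ⟨q, Multiset.mem_toFinset.mpr hq, e⟩
  obtain ⟨P, hP, -, hP2, hPd⟩ := exists_prime_prescribed
    (Sum.elim (fun j => (u j : 𝓞 K)) (fun q : S => q.1))
    (Sum.elim (fun _ => True) fun q : S => ∃ r : 𝓞 K, q.1 ∣ s ^ 2 + 4 * a - r ^ 2) (by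
      intro J hJ h
      obtain ⟨r, hr⟩ := hsq _ h
      rw [Finset.prod_sum_eq_prod_toLeft_mul_prod_toRight] at hr
      simp only [Sum.elim_inl, Sum.elim_inr, ← Units.coe_prod] at hr
      rcases J.toRight.eq_empty_or_nonempty with h0 | ⟨q, hq⟩
      · obtain ⟨i, hi⟩ := hind J.toLeft (by
          obtain ⟨j | j, hj⟩ := hJ
          · exact ⟨j, by simpa using hj⟩
          · exact absurd (Finset.mem_toRight.mpr hj) (by simp [h0]))
        rw [h0, Finset.prod_empty, mul_one] at hr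
        exact hi ⟨r, by rw [hr, sq, sub_self]; exact dvd_zero _⟩
      · have hq1 := hS1 q.1 q.2
        rw [← Finset.mul_prod_erase _ _ hq, mul_left_comm] at hr
        obtain ⟨t, rfl⟩ : q.1 ∣ r := by simpa using hq1.dvd_or_dvd ⟨_, hr.symm⟩
        have h1 := mul_left_cancel₀ hq1.ne_zero (hr.trans (mul_assoc _ _ _))
        obtain ⟨q', hq', h2⟩ := (hq1.dvd_finsetProd_iff _).mp
          (Units.dvd_mul_left.mp (h1 ▸ (dvd_mul_right q.1 t).mul_left t))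
        exact (Finset.mem_erase.mp hq').1 (Subtype.ext (hS2 _ q.2 _ q'.2 h2).symm)) ∅
  obtain ⟨p', rfl⟩ : ∃ p', P = Ideal.span {p'} := (IsPrincipalIdealRing.principal P).principal
  simp only [Ideal.mem_span_singleton] at hP2 hPd
  have hp'0 : p' ≠ 0 := fun h => Ring.ne_bot_of_isMaximal_of_not_isField hP
    (RingOfIntegers.not_isField K) (by simp [h])
  have hp' : Prime p' := (Ideal.span_singleton_prime hp'0).mp hP.isPrime
  obtain ⟨w, I, hpos, t, ht⟩ := hcover p' hp' hP2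
  obtain rfl : I = ∅ := by
    by_contra hI
    obtain ⟨j, hj⟩ := hsep I (Finset.nonempty_iff_ne_empty.mpr hI)
    exact hj ((unit_symbol (u j) w p' hp' hP2 I l (fun i _ => hl i) (fun i _ j _ => hc i j) hpos
      ⟨t, ht⟩).mp ((hPd (Sum.inl j)).2.mpr trivial))
  rw [Finset.prod_empty, mul_one] at hpos ht
  obtain ⟨c, hc4⟩ := ht
  have hpp : Associated p' (p' * w) := ⟨w, rfl⟩
  have hT : p' * w = (w * t) ^ 2 + 4 * (w * c) := by linear_combination (w : 𝓞 K) * hc4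
  simp only [hpp.dvd_iff_dvd_left] at hP2 hPd
  have hp := hpp.prime hp'
  generalize p' * w = p at *
  generalize (w : 𝓞 K) * t = T at *
  generalize (w : 𝓞 K) * c = M at *
  have hω : (s * T) ^ 2 + 4 * (a * T ^ 2 + M * (s ^ 2 + 4 * a)) = (s ^ 2 + 4 * a) * p := by
    rw [hT]; ring
  have hsplit : ∀ k, Prime k → k ∣ β * κ₀ → ¬ k ∣ 2 ∧ ∃ r : 𝓞 K,
      k ∣ (s * T) ^ 2 + 4 * (a * T ^ 2 + M * (s ^ 2 + 4 * a)) - r ^ 2 := by
    intro k hk h
    have hk2 : ¬ k ∣ 2 := fun h2 => by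
      rcases hk.dvd_or_dvd h with h | h
      · exact hk.not_isUnit (hodd.isUnit_of_dvd' h h2)
      · exact hk.not_isUnit (hκ₀2.isUnit_of_dvd' h h2)
    obtain ⟨q, hq, e⟩ := hS3 k hk h
    simp only [e.dvd_iff_dvd_left] at hk2 ⊢
    refine ⟨hk2, hω ▸ sq_mod_mul (hS1 q hq) ?_⟩
    rw [recip_primary p q hp (hS1 q hq) hP2 hk2 (hPd (Sum.inr ⟨q, hq⟩)).1 hpos
      ⟨T, M, by rw [hT]; ring⟩]
    exact (hPd (Sum.inr ⟨q, hq⟩)).2.symm
  obtain ⟨x, y, h1⟩ := norm_form_gen (s * T) (a * T ^ 2 + M * (s ^ 2 + 4 * a))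
    (Or.inl (hω ▸ (associated_unit_mul_right p _ hd).prime hp))
    (by rw [hω, ← neg_mul]; simpa using TotPos.mul hdpos hpos) η κ
    (fun v hv => by
      obtain ⟨i, w, h⟩ := hU v hv
      exact ⟨i, w, 0, by rw [h]; ring⟩) hκ0
    (fun i k hk h => hsplit k hk
      ((h.trans (hκ₀ ▸ Finset.dvd_prod_of_mem κ (Finset.mem_univ i))).mul_left β)) hκp
    (-(s ^ 2 + 4 * a) * β) (by simpa using TotPos.mul hdpos hβ)
    fun k hk h => hsplit k hk ((hd.neg.dvd_mul_left.mp h).mul_right κ₀)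
  obtain ⟨x', y', h2⟩ := norm_form_gen s a (Or.inr hd) hdpos η' κ'
    (fun v hv => by
      obtain ⟨i, w, h⟩ := hU v hv
      obtain ⟨j, x, y, h'⟩ := hη i
      exact ⟨j, w * x, w * y, by rw [h, h']; ring⟩) hκ0' hκ' hκp' p hpos (by
    intro k hk h
    simp only [((hk.dvd_prime_iff_associated hp).mp h).dvd_iff_dvd_left]
    refine ⟨hP2, ?_⟩
    obtain ⟨J, z, e⟩ := units_mod_squares hn u (fun J hJ ⟨r, hr⟩ => by
      obtain ⟨i, hi⟩ := hind J hJ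
      exact hi ⟨r, by rw [hr, sq]; simp⟩) hd.unit
    rw [← hd.unit_spec, e, sq_mod_iff, Units.val_mul, Units.val_pow_eq_pow_val, Units.coe_prod,
      map_mul, map_pow, map_prod]
    exact (IsSquare.sq _).mul (Finset.prod_induction _ _ (fun _ _ => IsSquare.mul) IsSquare.one
      fun j _ => sq_mod_iff.mp ((hPd (Sum.inl j)).2.mpr trivial)))
  obtain ⟨c₁, c₂, h3⟩ := hd2
  have h4 := TotPos.ne_zero hdpos
  have h5 := congrArg (algebraMap (𝓞 K) K) hT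
  simp only [RingOfIntegers.coe_eq_algebraMap, map_mul, map_add, map_neg, map_pow, map_ofNat]
    at h1 h2 h3 h4 h5 ⊢
  generalize algebraMap (𝓞 K) K s = s at *
  generalize algebraMap (𝓞 K) K a = a at *
  obtain ⟨A, hA⟩ : ∃ A, x + s * algebraMap (𝓞 K) K T * y / 2 = -(s ^ 2 + 4 * a) * A :=
    ⟨_, (mul_div_cancel₀ _ h4).symm⟩
  refine ⟨(x' + s * y' / 2) * (y / 2), c₁ * A - c₂ * (y' / 2 * (y / 2)),
    c₂ * A + c₁ * (y' / 2 * (y / 2)), mul_left_cancel₀ h4 ?_⟩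
  rw [h1]
  linear_combination (x + s * algebraMap (𝓞 K) K T * y / 2 - (s ^ 2 + 4 * a) * A) * hA -
    (s ^ 2 + 4 * a) * (y / 2) ^ 2 * (h2 - h5) -
    (s ^ 2 + 4 * a) * (A ^ 2 + (y' / 2 * (y / 2)) ^ 2) * h3

end Pool.Agent.Lib.MP_aed2da_nt
end

-- part Pool.Agent.Lib.MP_aed2da_nt.Ring
section

/-!
The explicit quartic ring `Z[w][h]` with `w^2 = r + p w`, `h^2 = (t0 + t1 w) + (s0 + s1 w) h`.
-/

namespace Pool.Agent.Lib.MP_aed2da_nt

structure Par where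
  r : ℤ
  p : ℤ
  t0 : ℤ
  t1 : ℤ
  s0 : ℤ
  s1 : ℤ

/-- `a + b w + c h + d w h` -/
@[ext] structure Q (P : Par) where
  a : ℤ
  b : ℤ
  c : ℤ
  d : ℤ
deriving DecidableEq

namespace Q
variable {P : Par}

/-- last step of the product; `m0 + m1 w` is the product of the two `h` parts -/
def mulAux (P : Par) (u0 u1 v0 v1 m0 m1 : ℤ) : Q P :=
  ⟨u0 + (m0 * P.t0 + P.r * (m1 * P.t1)), u1 + (m0 * P.t1 + m1 * (P.t0 + P.p * P.t1)),
   v0 + (m0 * P.s0 + P.r * (m1 * P.s1)), v1 + (m0 * P.s1 + m1 * (P.s0 + P.p * P.s1))⟩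

def mul (x y : Q P) : Q P :=
  mulAux P (x.a * y.a + P.r * (x.b * y.b)) (x.a * y.b + x.b * (y.a + P.p * y.b))
    (x.a * y.c + x.c * y.a + P.r * (x.b * y.d + x.d * y.b))
    (x.a * y.d + x.d * y.a + x.b * y.c + x.c * y.b + P.p * (x.b * y.d + x.d * y.b))
    (x.c * y.c + P.r * (x.d * y.d)) (x.c * y.d + x.d * (y.c + P.p * y.d))

instance : Zero (Q P) := ⟨⟨0, 0, 0, 0⟩⟩
instance : One (Q P) := ⟨⟨1, 0, 0, 0⟩⟩
instance : Add (Q P) := ⟨fun x y => ⟨x.a + y.a, x.b + y.b, x.c + y.c, x.d + y.d⟩⟩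
instance : Sub (Q P) := ⟨fun x y => ⟨x.a - y.a, x.b - y.b, x.c - y.c, x.d - y.d⟩⟩
instance : Neg (Q P) := ⟨fun x => ⟨-x.a, -x.b, -x.c, -x.d⟩⟩
instance : Mul (Q P) := ⟨mul⟩
instance : IntCast (Q P) := ⟨fun n => ⟨n, 0, 0, 0⟩⟩
instance : NatCast (Q P) := ⟨fun n => ⟨n, 0, 0, 0⟩⟩
instance smulNat : SMul ℕ (Q P) := ⟨fun n x => ⟨n * x.a, n * x.b, n * x.c, n * x.d⟩⟩
instance smulInt : SMul ℤ (Q P) := ⟨fun n x => ⟨n * x.a, n * x.b, n * x.c, n * x.d⟩⟩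

@[simp] lemma zero_a : (0 : Q P).a = 0 := rfl
@[simp] lemma zero_b : (0 : Q P).b = 0 := rfl
@[simp] lemma zero_c : (0 : Q P).c = 0 := rfl
@[simp] lemma zero_d : (0 : Q P).d = 0 := rfl
@[simp] lemma one_a : (1 : Q P).a = 1 := rfl
@[simp] lemma one_b : (1 : Q P).b = 0 := rfl
@[simp] lemma one_c : (1 : Q P).c = 0 := rfl
@[simp] lemma one_d : (1 : Q P).d = 0 := rfl
@[simp] lemma add_a (x y : Q P) : (x + y).a = x.a + y.a := rfl
@[simp] lemma add_b (x y : Q P) : (x + y).b = x.b + y.b := rfl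
@[simp] lemma add_c (x y : Q P) : (x + y).c = x.c + y.c := rfl
@[simp] lemma add_d (x y : Q P) : (x + y).d = x.d + y.d := rfl
@[simp] lemma sub_a (x y : Q P) : (x - y).a = x.a - y.a := rfl
@[simp] lemma sub_b (x y : Q P) : (x - y).b = x.b - y.b := rfl
@[simp] lemma sub_c (x y : Q P) : (x - y).c = x.c - y.c := rfl
@[simp] lemma sub_d (x y : Q P) : (x - y).d = x.d - y.d := rfl
@[simp] lemma neg_a (x : Q P) : (-x).a = -x.a := rfl
@[simp] lemma neg_b (x : Q P) : (-x).b = -x.b := rfl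
@[simp] lemma neg_c (x : Q P) : (-x).c = -x.c := rfl
@[simp] lemma neg_d (x : Q P) : (-x).d = -x.d := rfl
@[simp] lemma intCast_a (n : ℤ) : (n : Q P).a = n := rfl
@[simp] lemma intCast_b (n : ℤ) : (n : Q P).b = 0 := rfl
@[simp] lemma intCast_c (n : ℤ) : (n : Q P).c = 0 := rfl
@[simp] lemma intCast_d (n : ℤ) : (n : Q P).d = 0 := rfl
@[simp] lemma natCast_a (n : ℕ) : (n : Q P).a = n := rfl
@[simp] lemma natCast_b (n : ℕ) : (n : Q P).b = 0 := rfl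
@[simp] lemma natCast_c (n : ℕ) : (n : Q P).c = 0 := rfl
@[simp] lemma natCast_d (n : ℕ) : (n : Q P).d = 0 := rfl
@[simp] lemma nsmul_a (n : ℕ) (x : Q P) : (n • x).a = n * x.a := rfl
@[simp] lemma nsmul_b (n : ℕ) (x : Q P) : (n • x).b = n * x.b := rfl
@[simp] lemma nsmul_c (n : ℕ) (x : Q P) : (n • x).c = n * x.c := rfl
@[simp] lemma nsmul_d (n : ℕ) (x : Q P) : (n • x).d = n * x.d := rfl
@[simp] lemma zsmul_a (n : ℤ) (x : Q P) : (n • x).a = n * x.a := rfl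
@[simp] lemma zsmul_b (n : ℤ) (x : Q P) : (n • x).b = n * x.b := rfl
@[simp] lemma zsmul_c (n : ℤ) (x : Q P) : (n • x).c = n * x.c := rfl
@[simp] lemma zsmul_d (n : ℤ) (x : Q P) : (n • x).d = n * x.d := rfl
lemma mul_a (x y : Q P) : (x * y).a = (mul x y).a := rfl
lemma mul_b (x y : Q P) : (x * y).b = (mul x y).b := rfl
lemma mul_c (x y : Q P) : (x * y).c = (mul x y).c := rfl
lemma mul_d (x y : Q P) : (x * y).d = (mul x y).d := rfl

instance : AddCommGroup (Q P) where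
  add_assoc x y z := by ext <;> simp [add_assoc]
  zero_add x := by ext <;> simp
  add_zero x := by ext <;> simp
  add_comm x y := by ext <;> simp [add_comm]
  neg_add_cancel x := by ext <;> simp
  sub_eq_add_neg x y := by ext <;> simp [sub_eq_add_neg]
  nsmul n x := n • x
  zsmul n x := n • x
  nsmul_zero x := by ext <;> simp
  nsmul_succ n x := by ext <;> simp [add_mul]
  zsmul_zero' x := by ext <;> simp
  zsmul_succ' n x := by ext <;> simp [add_mul]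
  zsmul_neg' n x := by ext <;> simp [Int.negSucc_eq] <;> ring

instance : CommRing (Q P) where
  __ := (inferInstance : AddCommGroup (Q P))
  left_distrib x y z := by ext <;> simp [mul_a, mul_b, mul_c, mul_d, mul, mulAux] <;> ring
  right_distrib x y z := by ext <;> simp [mul_a, mul_b, mul_c, mul_d, mul, mulAux] <;> ring
  zero_mul x := by ext <;> simp [mul_a, mul_b, mul_c, mul_d, mul, mulAux]
  mul_zero x := by ext <;> simp [mul_a, mul_b, mul_c, mul_d, mul, mulAux]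
  mul_assoc x y z := by ext <;> simp [mul_a, mul_b, mul_c, mul_d, mul, mulAux] <;> ring
  one_mul x := by ext <;> simp [mul_a, mul_b, mul_c, mul_d, mul, mulAux]
  mul_one x := by ext <;> simp [mul_a, mul_b, mul_c, mul_d, mul, mulAux]
  mul_comm x y := by ext <;> simp [mul_a, mul_b, mul_c, mul_d, mul, mulAux] <;> ring
  natCast_zero := by ext <;> simp
  natCast_succ n := by ext <;> simp
  intCast_ofNat n := by ext <;> simp
  intCast_negSucc n := by ext <;> simp [Int.negSucc_eq]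

@[simp] lemma ofNat_a (n : ℕ) [n.AtLeastTwo] : (ofNat(n) : Q P).a = ofNat(n) := rfl
@[simp] lemma ofNat_b (n : ℕ) [n.AtLeastTwo] : (ofNat(n) : Q P).b = 0 := rfl
@[simp] lemma ofNat_c (n : ℕ) [n.AtLeastTwo] : (ofNat(n) : Q P).c = 0 := rfl
@[simp] lemma ofNat_d (n : ℕ) [n.AtLeastTwo] : (ofNat(n) : Q P).d = 0 := rfl

/-- the relations satisfied by a pair of images of the generators -/
def Rel (P : Par) {A : Type*} [CommRing A] (w h : A) : Prop :=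
  w * w = P.r + P.p * w ∧ h * h = (P.t0 + P.t1 * w) + (P.s0 + P.s1 * w) * h

/-- the ring homomorphism sending the generators to `w`, `h` -/
def lift {A : Type*} [CommRing A] (w h : A) (H : Rel P w h) : Q P →+* A where
  toFun x := x.a + x.b * w + x.c * h + x.d * (w * h)
  map_one' := by simp
  map_zero' := by simp
  map_add' x y := by simp; ring
  map_mul' x y := by
    obtain ⟨h1, h2⟩ := H
    simp only [mul_a, mul_b, mul_c, mul_d, mul, mulAux]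
    push_cast
    linear_combination
      (-(x.b * y.b : A) - (x.b * y.d + x.d * y.b) * h - x.d * y.d * (h * h)
        - (x.c * y.d + x.d * y.c + P.p * (x.d * y.d)) * (P.t1 + P.s1 * h)) * h1
      - ((x.c * y.c + P.r * (x.d * y.d)) + (x.c * y.d + x.d * (y.c + P.p * y.d)) * w) * h2

lemma lift_apply {A : Type*} [CommRing A] (w h : A) (H : Rel P w h) (x : Q P) :
    lift w h H x = x.a + x.b * w + x.c * h + x.d * (w * h) := rfl

@[simp] lemma intCast_mul_a (n : ℤ) (x : Q P) : ((n : Q P) * x).a = n * x.a := by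
  simp [mul_a, mul, mulAux]
@[simp] lemma intCast_mul_b (n : ℤ) (x : Q P) : ((n : Q P) * x).b = n * x.b := by
  simp [mul_b, mul, mulAux]
@[simp] lemma intCast_mul_c (n : ℤ) (x : Q P) : ((n : Q P) * x).c = n * x.c := by
  simp [mul_c, mul, mulAux]
@[simp] lemma intCast_mul_d (n : ℤ) (x : Q P) : ((n : Q P) * x).d = n * x.d := by
  simp [mul_d, mul, mulAux]

def gw : Q P := ⟨0, 1, 0, 0⟩
def gh : Q P := ⟨0, 0, 1, 0⟩

lemma eq_comb (x : Q P) :
    x = (x.a : Q P) + (x.b : Q P) * gw + (x.c : Q P) * gh + (x.d : Q P) * (gw * gh) := by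
  ext <;> simp [mul_a, mul_b, mul_c, mul_d, mul, mulAux, gw, gh]

lemma rel_gen : Rel P (gw : Q P) gh := by
  constructor <;> ext <;> simp [mul_a, mul_b, mul_c, mul_d, mul, mulAux, gw, gh]

lemma map_eq {A : Type*} [CommRing A] (f : Q P →+* A) (x : Q P) :
    f x = x.a + x.b * f gw + x.c * f gh + x.d * (f gw * f gh) := by
  conv_lhs => rw [eq_comb x]
  simp

lemma hom_ext {A : Type*} [CommRing A] {f g : Q P →+* A} (h1 : f gw = g gw) (h2 : f gh = g gh) :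
    f = g := by
  ext x
  rw [map_eq f, map_eq g, h1, h2]

lemma rel_map {A : Type*} [CommRing A] (f : Q P →+* A) : Rel P (f gw) (f gh) := by
  obtain ⟨h1, h2⟩ := (rel_gen : Rel P (gw : Q P) gh)
  constructor
  · simpa using congrArg f h1
  · simpa using congrArg f h2

/-- coordinates -/
def equivFun : Q P ≃ₗ[ℤ] (Fin 4 → ℤ) where
  toFun x := ![x.a, x.b, x.c, x.d]
  invFun f := ⟨f 0, f 1, f 2, f 3⟩
  map_add' x y := by ext i; fin_cases i <;> simp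
  map_smul' n x := by ext i; fin_cases i <;> rfl
  left_inv x := by ext <;> simp
  right_inv f := by ext i; fin_cases i <;> simp

noncomputable def basis : Module.Basis (Fin 4) ℤ (Q P) := Module.Basis.ofEquivFun equivFun

instance : Module.Free ℤ (Q P) := Module.Free.of_basis basis
instance : Module.Finite ℤ (Q P) := Module.Finite.of_basis basis

instance : CharZero (Q P) := ⟨fun m n h => by simpa using congrArg Q.a h⟩

lemma basis_apply (j : Fin 4) :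
    (basis j : Q P) = ![⟨1, 0, 0, 0⟩, ⟨0, 1, 0, 0⟩, ⟨0, 0, 1, 0⟩, ⟨0, 0, 0, 1⟩] j := by
  fin_cases j <;> ext <;> simp [basis, equivFun, Module.Basis.ofEquivFun]

/-- trace to the integers -/
def tr (x : Q P) : ℤ :=
  4 * x.a + 2 * P.p * x.b + (2 * P.s0 + P.p * P.s1) * x.c +
    (P.p * P.s0 + (P.p * P.p + 2 * P.r) * P.s1) * x.d

/-- conjugation fixing `w` -/
def cj (x : Q P) : Q P :=
  ⟨x.a + (x.c * P.s0 + P.r * (x.d * P.s1)), x.b + (x.c * P.s1 + x.d * (P.s0 + P.p * P.s1)),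
    -x.c, -x.d⟩

/-- norm to the integers -/
def nm (x : Q P) : ℤ :=
  (x * cj x).a * (x * cj x).a + P.p * ((x * cj x).a * (x * cj x).b) -
    P.r * ((x * cj x).b * (x * cj x).b)

/-- `x * adj x = nm x` -/
def adj (x : Q P) : Q P := cj x * ⟨(x * cj x).a + P.p * (x * cj x).b, -(x * cj x).b, 0, 0⟩

lemma mul_cj (x : Q P) : x * cj x = ⟨(x * cj x).a, (x * cj x).b, 0, 0⟩ := by
  ext <;> simp [mul_a, mul_b, mul_c, mul_d, mul, mulAux, cj] <;> ring

lemma mul_adj (x : Q P) : x * adj x = (nm x : Q P) := by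
  rw [adj, ← mul_assoc, nm]
  generalize hy : x * cj x = y
  have h := mul_cj x
  rw [hy] at h
  rw [h]
  ext <;> simp [mul_a, mul_b, mul_c, mul_d, mul, mulAux] <;> ring

/-- all coordinates divisible by `n` -/
def dvdZ (n : ℤ) (x : Q P) : Bool :=
  x.a % n == 0 && x.b % n == 0 && x.c % n == 0 && x.d % n == 0

lemma dvdZ_iff (n : ℤ) (x : Q P) : dvdZ n x = true ↔ (n : Q P) ∣ x := by
  simp only [dvdZ, Bool.and_eq_true, beq_iff_eq, ← Int.dvd_iff_emod_eq_zero]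
  constructor
  · rintro ⟨⟨⟨⟨a, ha⟩, ⟨b, hb⟩⟩, ⟨c, hc⟩⟩, ⟨d, hd⟩⟩
    refine ⟨⟨a, b, c, d⟩, ?_⟩
    ext <;> simp [mul_a, mul_b, mul_c, mul_d, mul, mulAux, ha, hb, hc, hd]
  · rintro ⟨y, rfl⟩
    simp [mul_a, mul_b, mul_c, mul_d, mul, mulAux]

/-- divisibility test -/
def dvdB (m x : Q P) : Bool := dvdZ (nm m) (x * adj m)

lemma dvdB_iff [IsDomain (Q P)] {m : Q P} (hm : nm m ≠ 0) (x : Q P) :
    dvdB m x = true ↔ m ∣ x := by
  rw [dvdB, dvdZ_iff, ← mul_adj]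
  have h : adj m ≠ 0 := by
    intro h
    have h2 := mul_adj m
    rw [h, mul_zero] at h2
    exact hm (by exact_mod_cast h2.symm)
  exact mul_dvd_mul_iff_right h

end Q

/-- group law of the Klein four group on `Fin 4` -/
def vm (i j : Fin 4) : Fin 4 := ![![0, 1, 2, 3], ![1, 0, 3, 2], ![2, 3, 0, 1], ![3, 2, 1, 0]] i j

/-- Galois action, real embeddings and their approximations -/
structure Setup (P : Par) where
  τ : Fin 4 → (Q P →+* Q P)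
  σ : Fin 4 → (Q P →+* ℝ)
  D : ℕ
  M : Fin 4 → Fin 4 → ℤ
  inj : ∀ i, Function.Injective (σ i)
  τ_τ : ∀ i x, τ i (τ i x) = x
  σ_τ : ∀ i j x, σ i (τ j x) = σ (vm i j) x
  D_pos : 0 < D
  det_sq : (Matrix.of fun i j => σ i (Q.basis j)).det ^ 2 = D
  approx : ∀ i j, |2 ^ 40 * σ i (Q.basis j) - M i j| ≤ 1
  sum_σ : ∀ x, ∑ i, σ i x = Q.tr x
  prod_σ : ∀ x, ∏ i, σ i x = Q.nm x

/-- totally positive -/
def Setup.Pos {P : Par} (S : Setup P) (x : Q P) : Prop := ∀ i, 0 < S.σ i x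

theorem Setup.isDomain {P : Par} (S : Setup P) : IsDomain (Q P) :=
  Function.Injective.isDomain (S.σ 0) (S.inj 0)

/-- sum of three squares -/
def S3 {R : Type*} [CommRing R] (x : R) : Prop := ∃ a b c : R, x = a ^ 2 + b ^ 2 + c ^ 2

/-- sum of four squares -/
def S4 {R : Type*} [CommRing R] (x : R) : Prop := ∃ a b c d : R, x = a ^ 2 + b ^ 2 + c ^ 2 + d ^ 2

/-- a square modulo two -/
def Sq2 {R : Type*} [CommRing R] (x : R) : Prop := ∃ t : R, 2 ∣ x - t ^ 2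

def P23 : Par := ⟨2, 0, 1, 0, 0, 1⟩
def P27 : Par := ⟨2, 0, 3, 0, 0, 1⟩
def P35 : Par := ⟨1, 1, 3, 0, 0, 0⟩
def P56 : Par := ⟨1, 1, 6, 0, 0, 0⟩
def P57 : Par := ⟨1, 1, 7, 0, 0, 0⟩
def P37 : Par := ⟨5, 1, 2, 1, 0, 0⟩

/-! ### residue conditions -/

/-- a condition on the class of an element in a quotient `Z/n1 x Z/n2` of the additive group -/
structure Lit (P : Par) where
  n1 : ℕ
  n2 : ℕ
  l1 : Q P
  l2 : Q P
  tab : ℕ

def Q.dot {P : Par} (l x : Q P) : ℤ := l.a * x.a + l.b * x.b + l.c * x.c + l.d * x.d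

def Lit.code {P : Par} (L : Lit P) (x : Q P) : ℕ :=
  (Q.dot L.l1 x % L.n1).toNat + L.n1 * (Q.dot L.l2 x % L.n2).toNat

def Lit.holds {P : Par} (L : Lit P) (x : Q P) : Prop := L.tab.testBit (L.code x) = true

/-- positive Boolean combinations of numbered conditions -/
inductive Fm : Type
  | lit : ℕ → Fm
  | and : Fm → Fm → Fm
  | or : Fm → Fm → Fm

def Fm.holds (T : ℕ → Prop) : Fm → Prop
  | Fm.lit i => T i
  | Fm.and f g => f.holds T ∧ g.holds T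
  | Fm.or f g => f.holds T ∨ g.holds T

/-- the formula `f` holds for `x`, the numbers referring to the list `Ls` -/
def Good {P : Par} (Ls : List (Lit P)) (f : Fm) (x : Q P) : Prop :=
  f.holds fun i => ∃ L, Ls[i]? = some L ∧ L.holds x

end Pool.Agent.Lib.MP_aed2da_nt
end

-- part Pool.Agent.Lib.MP_aed2da_nt.FracA
section

/-!
The three squares theorem transported to a ring isomorphic to the ring of integers.
-/

open NumberField

namespace Pool.Agent.Lib.MP_aed2da_nt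

namespace Frac

open Genus

open Classical in
theorem three_sq_ring {R : Type*} [CommRing R] [IsDomain R] [IsPrincipalIdealRing R]
    {K : Type*} [Field K] [NumberField K] [IsTotallyReal K] (hn : Module.finrank ℚ K = 4)
    (e : R ≃+* 𝓞 K) (Pos : R → Prop) (hPos : ∀ x, TotPos ((e x : 𝓞 K) : K) ↔ Pos x)
    (u : Fin 4 → R) (hu : ∀ j, IsUnit (u j)) (l : Fin 4 → R)
    (hl : ∀ i, Prime (l i) ∧ ¬ l i ∣ 2) (hc : ∀ i j, i ≠ j → ¬ l i ∣ l j)
    (hind : ∀ J : Finset (Fin 4), J.Nonempty → ∃ i, ¬ ∃ r, l i ∣ ∏ j ∈ J, u j - r ^ 2)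
    (hsep : ∀ I : Finset (Fin 4), I.Nonempty → ∃ j,
      ¬ Even (I.filter (fun i => ¬ ∃ r, l i ∣ u j - r ^ 2)).card)
    (hcover : ∀ p : R, Prime p → ¬ p ∣ 2 → ∃ J I : Finset (Fin 4),
      Pos (p * ((∏ j ∈ J, u j) * ∏ i ∈ I, l i)) ∧
        ∃ t, 4 ∣ p - (∏ j ∈ J, u j) * (∏ i ∈ I, l i) * t ^ 2)
    {n1 n2 : ℕ} (E1 K1 : Fin n1 → Finset (Fin 4)) (E2 : Fin n2 → R)
    (K2 : Fin n2 → Finset (Fin 4))
    (hU : ∀ J : Finset (Fin 4), Pos (∏ j ∈ J, u j) → ∃ i, J = E1 i)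
    (hκp : ∀ i j, i ≠ j → ∀ J : Finset (Fin 4),
      ¬ Pos ((∏ j ∈ J, u j) * ((∏ k ∈ K1 i, l k) * ∏ k ∈ K1 j, l k)))
    (s a : R) (hd : IsUnit (s ^ 2 + 4 * a)) (hdpos : Pos (-(s ^ 2 + 4 * a)))
    (hη : ∀ i, ∃ j x y, ∏ k ∈ E1 i, u k = E2 j * (x ^ 2 + s * x * y - a * y ^ 2))
    (hK2 : ∀ i, ∀ k ∈ K2 i, ∃ r, l k ∣ s ^ 2 + 4 * a - r ^ 2)
    (hκp' : ∀ i j, i ≠ j → ∀ J : Finset (Fin 4),
      ¬ Pos ((∏ j ∈ J, u j) * ((∏ k ∈ K2 i, l k) * ∏ k ∈ K2 j, l k)))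
    (c c₁ c₂ : R) (hc0 : c ≠ 0) (hd2 : c ^ 2 * -(s ^ 2 + 4 * a) = c₁ ^ 2 + c₂ ^ 2)
    (β : R) (hβ : Pos β) (hodd : IsCoprime β 2) : ∃ t : R, t ≠ 0 ∧ S3 (t ^ 2 * β) := by
  have : IsPrincipalIdealRing (𝓞 K) :=
    IsPrincipalIdealRing.of_surjective e.toRingHom e.surjective
  have hdvd : ∀ x y : R, e x ∣ e y ↔ x ∣ y := fun x y => map_dvd_iff e
  have h2 : (2 : 𝓞 K) = e 2 := (map_ofNat e 2).symm
  have h4 : (4 : 𝓞 K) = e 4 := (map_ofNat e 4).symm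
  have hsq : ∀ k x : R, (∃ r : 𝓞 K, e k ∣ e x - r ^ 2) ↔ ∃ r, k ∣ x - r ^ 2 := by
    intro k x
    rw [e.surjective.exists]
    simp only [← map_pow, ← map_sub, hdvd]
  have hpr : ∀ x : R, Prime (e x) ↔ Prime x := fun x => MulEquiv.prime_iff e
  have hD : e s ^ 2 + 4 * e a = e (s ^ 2 + 4 * a) := by simp [h4]
  let v : Fin 4 → (𝓞 K)ˣ := fun j => ((hu j).map e).unit
  have hv : ∀ J : Finset (Fin 4), ((∏ j ∈ J, v j : (𝓞 K)ˣ) : 𝓞 K) = e (∏ j ∈ J, u j) := by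
    intro J
    rw [Units.coe_prod, map_prod]
    rfl
  have hind' : ∀ J : Finset (Fin 4), J.Nonempty → ∃ i,
      ¬ ∃ r : 𝓞 K, e (l i) ∣ (∏ j ∈ J, v j : (𝓞 K)ˣ) - r ^ 2 := by
    intro J hJ
    simpa only [hv, hsq] using hind J hJ
  have hun : ∀ (w : (𝓞 K)ˣ) (γ : R), TotPos ((w * e γ : 𝓞 K) : K) →
      ∃ (J : Finset (Fin 4)) (z : 𝓞 K), (w : 𝓞 K) = e (∏ j ∈ J, u j) * z ^ 2 ∧
        Pos ((∏ j ∈ J, u j) * γ) := by
    intro w γ h
    obtain ⟨J, z, hz⟩ := units_mod_squares hn v (fun J hJ ⟨r, hr⟩ => by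
      obtain ⟨i, hi⟩ := hind' J hJ
      exact hi ⟨r, by rw [hr, sq]; simp⟩) w
    have hw : (w : 𝓞 K) = e (∏ j ∈ J, u j) * (z : 𝓞 K) ^ 2 := by
      rw [hz, Units.val_mul, hv, Units.val_pow_eq_pow_val, mul_comm]
    refine ⟨J, z, hw, (hPos _).mp (TotPos.of_mul (y := ((z : 𝓞 K) : K) ^ 2) ?_ ?_ h)⟩
    · rw [hw]
      simp only [RingOfIntegers.coe_eq_algebraMap, map_mul, map_pow]
      ring
    · intro σ
      rw [map_pow]
      exact sq_pos_of_ne_zero ((map_ne_zero σ).mpr (by simp))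
  have hκ0 : ∀ I : Finset (Fin 4), e (∏ k ∈ I, l k) ≠ 0 := fun I =>
    (map_ne_zero_iff e e.injective).mpr (Finset.prod_ne_zero_iff.mpr fun k _ => (hl k).1.ne_zero)
  obtain ⟨x, y, z, h⟩ := three_sq_gen hn v (fun i => e (l i))
    (fun i => ⟨(hpr _).mpr (hl i).1, by rw [h2, hdvd]; exact (hl i).2⟩)
    (fun i j hij => by rw [hdvd]; exact hc i j hij) hind'
    (fun I hI => by
      obtain ⟨j, hj⟩ := hsep I hI
      refine ⟨j, ?_⟩
      have : ((v j : (𝓞 K)ˣ) : 𝓞 K) = e (u j) := rfl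
      simpa only [this, hsq] using hj)
    (fun p hp hp2 => by
      obtain ⟨p, rfl⟩ := e.surjective p
      rw [h2, hdvd] at hp2
      obtain ⟨J, I, h1, t, ht⟩ := hcover p ((hpr p).mp hp) hp2
      refine ⟨∏ j ∈ J, v j, I, ?_, e t, ?_⟩
      · rw [hv, ← map_prod, ← map_mul, ← map_mul, hPos]
        exact h1
      · rw [hv, ← map_prod, ← map_pow, ← map_mul, ← map_mul, ← map_sub, h4, hdvd]
        exact ht)
    (fun i => e (∏ k ∈ E1 i, u k)) (fun i => e (∏ k ∈ K1 i, l k))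
    (fun w hw => by
      obtain ⟨J, z, h1, h3⟩ := hun w 1 (by simpa using hw)
      obtain ⟨i, rfl⟩ := hU J (by simpa using h3)
      exact ⟨i, z, h1⟩)
    (fun i => hκ0 _)
    (fun i => by
      rw [h2]
      exact (IsCoprime.prod_left fun k _ =>
        (hl k).1.irreducible.coprime_iff_not_dvd.mpr (hl k).2).map e.toRingHom)
    (fun i j hij w hw => by
      rw [← map_mul] at hw
      obtain ⟨J, -, -, h3⟩ := hun w _ hw
      exact hκp i j hij J h3)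
    (e s) (e a) (hD ▸ hd.map e) (by rw [hD, ← map_neg, hPos]; exact hdpos)
    (fun j => e (E2 j)) (fun i => e (∏ k ∈ K2 i, l k))
    (fun i => by
      obtain ⟨j, x, y, h⟩ := hη i
      exact ⟨j, e x, e y, by rw [h]; simp⟩)
    (fun i => hκ0 _)
    (fun i k hk h => by
      obtain ⟨k, rfl⟩ := e.surjective k
      rw [hdvd] at h
      rw [hpr] at hk
      obtain ⟨j, hj, h⟩ := (hk.dvd_finsetProd_iff _).mp h
      have ha := (hk.dvd_prime_iff_associated (hl j).1).mp h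
      rw [h2, hdvd, hD, hsq]
      simp only [ha.dvd_iff_dvd_left]
      exact ⟨(hl j).2, hK2 i j hj⟩)
    (fun i j hij w hw => by
      rw [← map_mul] at hw
      obtain ⟨J, -, -, h3⟩ := hun w _ hw
      exact hκp' i j hij J h3)
    (by
      have h0 : ((e c : 𝓞 K) : K) ≠ 0 := by simpa using hc0
      have h1 := congrArg (fun x => ((e x : 𝓞 K) : K)) hd2
      refine ⟨(e c₁ : 𝓞 K) / (e c : 𝓞 K), (e c₂ : 𝓞 K) / (e c : 𝓞 K), ?_⟩
      rw [hD]
      simp only [RingOfIntegers.coe_eq_algebraMap, map_mul, map_add, map_pow, map_neg] at h0 h1 ⊢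
      field_simp
      linear_combination h1)
    (e β) ((hPos β).mpr hβ) (h2 ▸ hodd.map e.toRingHom)
  obtain ⟨x, x', hx, rfl⟩ := IsFractionRing.div_surjective (A := 𝓞 K) x
  obtain ⟨y, y', hy, rfl⟩ := IsFractionRing.div_surjective (A := 𝓞 K) y
  obtain ⟨z, z', hz, rfl⟩ := IsFractionRing.div_surjective (A := 𝓞 K) z
  replace hx := nonZeroDivisors.ne_zero hx
  replace hy := nonZeroDivisors.ne_zero hy
  replace hz := nonZeroDivisors.ne_zero hz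
  refine ⟨e.symm (x' * y' * z'), by simp [hx, hy, hz], e.symm (x * y' * z'), e.symm (x' * y * z'),
    e.symm (x' * y' * z), e.injective (RingOfIntegers.coe_injective ?_)⟩
  have hx' : algebraMap (𝓞 K) K x' ≠ 0 := by simpa using hx
  have hy' : algebraMap (𝓞 K) K y' ≠ 0 := by simpa using hy
  have hz' : algebraMap (𝓞 K) K z' ≠ 0 := by simpa using hz
  simp only [RingOfIntegers.coe_eq_algebraMap, map_mul, map_add, map_pow,
    RingEquiv.apply_symm_apply] at h ⊢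
  rw [h]
  field_simp

end Frac

end Pool.Agent.Lib.MP_aed2da_nt
end

-- part Pool.Agent.Lib.MP_aed2da_nt.FracB
section

/-!
A finite certificate for the hypotheses of the three squares theorem in the explicit quartic rings.
-/

open NumberField

namespace Pool.Agent.Lib.MP_aed2da_nt

namespace Frac

variable {P : Par}

/-- positivity test through the approximations -/
def posB (M : Fin 4 → Fin 4 → ℤ) (i : Fin 4) (x : Q P) : Bool :=
  decide (((x.a.natAbs + x.b.natAbs + x.c.natAbs + x.d.natAbs : ℕ) : ℤ) <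
    x.a * M i 0 + x.b * M i 1 + x.c * M i 2 + x.d * M i 3)

lemma posB_sound (S : Setup P) {i : Fin 4} {x : Q P} (h : posB S.M i x = true) :
    0 < S.σ i x := by
  have h0 := S.approx i 0
  have h1 := S.approx i 1
  have h2 := S.approx i 2
  have h3 := S.approx i 3
  have e0 : (Q.basis 0 : Q P) = 1 := Q.basis_apply 0
  have e1 : (Q.basis 1 : Q P) = Q.gw := Q.basis_apply 1
  have e2 : (Q.basis 2 : Q P) = Q.gh := Q.basis_apply 2
  have e3 : (Q.basis 3 : Q P) = Q.gw * Q.gh := by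
    rw [Q.basis_apply]
    ext <;> simp [Q.mul_a, Q.mul_b, Q.mul_c, Q.mul_d, Q.mul, Q.mulAux, Q.gw, Q.gh]
  rw [e0, map_one] at h0
  rw [e1] at h1
  rw [e2] at h2
  rw [e3, map_mul] at h3
  rw [Q.map_eq]
  have h4 : (|(x.a : ℝ)| + |(x.b : ℝ)| + |(x.c : ℝ)| + |(x.d : ℝ)|) <
      x.a * S.M i 0 + x.b * S.M i 1 + x.c * S.M i 2 + x.d * S.M i 3 := by
    have := of_decide_eq_true h
    push_cast at this
    exact_mod_cast this
  have key : ∀ t v m : ℝ, |2 ^ 40 * v - m| ≤ 1 → t * m - |t| ≤ 2 ^ 40 * (t * v) := by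
    intro t v m hv
    have : |t * (2 ^ 40 * v - m)| ≤ |t| := by
      rw [abs_mul]; exact mul_le_of_le_one_right (abs_nonneg _) hv
    linarith [neg_abs_le (t * (2 ^ 40 * v - m))]
  have k0 := key x.a _ _ h0
  have k1 := key x.b _ _ h1
  have k2 := key x.c _ _ h2
  have k3 := key x.d _ _ h3
  nlinarith

lemma not_pos (S : Setup P) {x : Q P} (h : ∃ i, posB S.M i (-x) = true) : ¬ S.Pos x := by
  obtain ⟨i, h⟩ := h
  intro hx
  have := posB_sound S h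
  rw [map_neg] at this
  linarith [hx i]

/-- value at a pair of integers -/
def ev (w h : ℤ) (x : Q P) : ℤ := x.a + x.b * w + x.c * h + x.d * (w * h)

/-- `l` generates the prime of degree one over `q` given by the residues `w`, `h` -/
def Deg1 (l : Q P) (q : ℕ) (w h : ℤ) : Prop :=
  2 < q ∧ (∀ m < q, 2 ≤ m → q % m ≠ 0) ∧ Q.nm l ≠ 0 ∧
  (w * w - (P.r + P.p * w)) % q = 0 ∧
  (h * h - ((P.t0 + P.t1 * w) + (P.s0 + P.s1 * w) * h)) % q = 0 ∧ ev w h l % q = 0 ∧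
  Q.dvdB l (Q.gw - (w : Q P)) = true ∧ Q.dvdB l (Q.gh - (h : Q P)) = true ∧
  Q.dvdB l (q : Q P) = true

instance (l : Q P) (q : ℕ) (w h : ℤ) : Decidable (Deg1 l q w h) := by
  unfold Deg1; infer_instance

/-- nonsquare modulo `q` -/
def NS (q : ℕ) (v : ℤ) : Prop := ∀ n < q, (v - (n : ℕ) * (n : ℕ)) % q ≠ 0

instance (q : ℕ) (v : ℤ) : Decidable (NS q v) := by
  unfold NS; infer_instance

lemma Deg1.hom [IsDomain (Q P)] {l : Q P} {q : ℕ} {w h : ℤ} (H : Deg1 l q w h) :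
    ∃ φ : Q P →+* ZMod q, (∀ x, φ x = (ev w h x : ℤ)) ∧ ∀ x, l ∣ x ↔ φ x = 0 := by
  obtain ⟨-, -, h0, h1, h2, h3, h4, h5, h6⟩ := H
  rw [Q.dvdB_iff h0] at h4 h5 h6
  rw [← Int.dvd_iff_emod_eq_zero, ← ZMod.intCast_zmod_eq_zero_iff_dvd] at h1 h2 h3
  have rel : Q.Rel P (w : ZMod q) (h : ZMod q) := by
    push_cast at h1 h2
    exact ⟨sub_eq_zero.mp h1, sub_eq_zero.mp h2⟩
  have hφ : ∀ x, Q.lift _ _ rel x = (ev w h x : ℤ) := fun x => by simp [Q.lift_apply, ev]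
  refine ⟨Q.lift _ _ rel, hφ, fun x => ⟨?_, fun hx => ?_⟩⟩
  · rintro ⟨y, rfl⟩
    rw [map_mul, hφ l, h3, zero_mul]
  · rw [hφ, ZMod.intCast_zmod_eq_zero_iff_dvd] at hx
    obtain ⟨k, hk⟩ := hx
    obtain ⟨a, ha⟩ := h4
    obtain ⟨b, hb⟩ := h5
    obtain ⟨c, hc⟩ := h6
    have e := congrArg (fun n : ℤ => (n : Q P)) hk
    simp only [ev] at e
    push_cast at e
    refine ⟨c * (k : Q P) + (x.b : Q P) * a + (x.c : Q P) * b +
      (x.d : Q P) * (a * Q.gh + (w : Q P) * b), ?_⟩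
    conv_lhs => rw [Q.eq_comb x]
    linear_combination e + k * hc + ((x.b : Q P) + x.d * Q.gh) * ha + ((x.c : Q P) + x.d * w) * hb

section
variable [IsDomain (Q P)] {l : Q P} {q : ℕ} {w h : ℤ}

lemma Deg1.dvd_iff (H : Deg1 l q w h) (x : Q P) : l ∣ x ↔ ev w h x % q = 0 := by
  obtain ⟨φ, h1, h2⟩ := H.hom
  rw [h2, h1, ZMod.intCast_zmod_eq_zero_iff_dvd, Int.dvd_iff_emod_eq_zero]

lemma Deg1.prime (H : Deg1 l q w h) : Prime l ∧ ¬ l ∣ 2 := by
  obtain ⟨φ, -, h2⟩ := H.hom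
  obtain ⟨hq, hq', h0, -⟩ := H
  have : Fact q.Prime := ⟨Nat.prime_def_lt'.mpr ⟨hq.le, fun m h1 h3 h4 =>
    hq' m h3 h1 (Nat.mod_eq_zero_of_dvd h4)⟩⟩
  refine ⟨⟨?_, fun hu => ?_, fun x y => ?_⟩, ?_⟩
  · rintro rfl
    exact h0 (by simp [Q.nm])
  · simpa using (h2 1).mp hu.dvd
  · simp only [h2, map_mul, mul_eq_zero, imp_self]
  · rw [h2, map_ofNat]
    intro h3
    have h4 : q ∣ 2 := (ZMod.natCast_eq_zero_iff 2 q).mp (by exact_mod_cast h3)
    exact absurd (Nat.le_of_dvd two_pos h4) (by omega)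

lemma Deg1.sq_iff (H : Deg1 l q w h) (x : Q P) :
    (¬ ∃ r, l ∣ x - r ^ 2) ↔ NS q (ev w h x) := by
  obtain ⟨φ, h1, h2⟩ := H.hom
  have : NeZero q := ⟨by have := H.1; omega⟩
  simp only [h2, map_sub, map_pow, NS, ne_eq, ← Int.dvd_iff_emod_eq_zero,
    ← ZMod.intCast_zmod_eq_zero_iff_dvd, not_exists]
  push_cast
  rw [← h1]
  constructor
  · intro hr n _
    simpa [sq] using hr n
  · intro hr r
    simpa [sq] using hr (φ r).val (ZMod.val_lt _)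

end

/-! ### the cover of signs and classes modulo four -/

noncomputable def force {α : Type} (n : ℕ) (k : ℕ → α) : α :=
  Nat.rec (motive := fun _ => α) (k 0) (fun m _ => k (Nat.succ m)) n

lemma force_eq {α : Type} (n : ℕ) (k : ℕ → α) : force n k = k n := by
  cases n <;> rfl

noncomputable def forceZ {α : Type} (n : ℤ) (k : ℤ → α) : α :=
  Int.rec (motive := fun _ => α) (fun m => force m fun m' => k (Int.ofNat m'))
    (fun m => force m fun m' => k (Int.negSucc m')) n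

lemma forceZ_eq {α : Type} (n : ℤ) (k : ℤ → α) : forceZ n k = k n := by
  cases n <;> simp [forceZ, force_eq]

noncomputable def forceQ {α : Type} (x : Q P) (k : Q P → α) : α :=
  forceZ x.a fun a => forceZ x.b fun b => forceZ x.c fun c => forceZ x.d fun d => k ⟨a, b, c, d⟩

lemma forceQ_eq {α : Type} (x : Q P) (k : Q P → α) : forceQ x k = k x := by
  simp only [forceQ, forceZ_eq]

/-- code of the class modulo four -/
def c4 (x : Q P) : ℕ :=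
  (x.a % 4).toNat + 4 * (x.b % 4).toNat + 16 * (x.c % 4).toNat + 64 * (x.d % 4).toNat

def sg (M : Fin 4 → Fin 4 → ℤ) (i : Fin 4) (x : Q P) : ℕ :=
  bif posB M i x then 1 else bif posB M i (-x) then 0 else 16

/-- code of the signs -/
def sc (M : Fin 4 → Fin 4 → ℤ) (x : Q P) : ℕ :=
  sg M 0 x + 2 * sg M 1 x + 4 * sg M 2 x + 8 * sg M 3 x

/-- union of bit masks -/
noncomputable def orL {α : Type} (L : List α) (f : α → ℕ) : ℕ :=
  List.rec (motive := fun _ => ℕ) 0 (fun a _ ih => Nat.lor (f a) ih) L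

lemma orL_test {α : Type} {L : List α} {f : α → ℕ} {k : ℕ} (h : (orL L f).testBit k = true) :
    ∃ a ∈ L, (f a).testBit k = true := by
  induction L with
  | nil => simp [orL] at h
  | cons a L ih =>
    change (f a ||| orL L f).testBit k = true at h
    rw [Nat.testBit_or, Bool.or_eq_true] at h
    rcases h with h | h
    · exact ⟨a, List.mem_cons_self, h⟩
    · obtain ⟨b, hb, h⟩ := ih h
      exact ⟨b, List.mem_cons_of_mem _ hb, h⟩

/-- product of some units and some primes -/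
def gp (u l : Fin 4 → Q P) (J I : Finset (Fin 4)) : Q P := (∏ j ∈ J, u j) * ∏ i ∈ I, l i

lemma prod_mul_prod (f : Fin 4 → Q P) (J J' : Finset (Fin 4)) :
    (∏ j ∈ J, f j) * ∏ j ∈ J', f j = (∏ j ∈ symmDiff J J', f j) * (∏ j ∈ J ∩ J', f j) ^ 2 := by
  have e3 : ∏ j ∈ symmDiff J J', f j = (∏ j ∈ J \ J', f j) * ∏ j ∈ J' \ J, f j := by
    rw [← Finset.prod_union disjoint_sdiff_sdiff]; rfl
  rw [e3, ← Finset.prod_inter_mul_prod_sdiff J J', ← Finset.prod_inter_mul_prod_sdiff J' J,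
    Finset.inter_comm J' J]
  ring

lemma gp_mul (u l : Fin 4 → Q P) (J I J' I' : Finset (Fin 4)) :
    ∃ J'' I'' z, gp u l J I * gp u l J' I' = gp u l J'' I'' * z ^ 2 :=
  ⟨symmDiff J J', symmDiff I I', (∏ j ∈ J ∩ J', u j) * ∏ j ∈ I ∩ I', l j, by
    rw [gp, gp, gp, mul_mul_mul_comm, prod_mul_prod, prod_mul_prod]; ring⟩

noncomputable def mask (M : Fin 4 → Fin 4 → ℤ) (u l : Fin 4 → Q P)
    (B : List (Finset (Fin 4) × Finset (Fin 4))) (ts : List (Q P)) : ℕ :=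
  orL B fun b => forceQ (gp u l b.1 b.2) fun g =>
    bif Nat.beq (sc M g) 15 then orL ts fun t => Nat.shiftLeft 1 (c4 (g * (t * t))) else 0

def Cov1 (m a b c d : ℕ) : Prop :=
  ∀ a' < 2, ∀ b' < 2, ∀ c' < 2, ∀ d' < 2, m.testBit
    (a + 2 * a' + 4 * (b + 2 * b') + 16 * (c + 2 * c') + 64 * (d + 2 * d')) = true

instance (m a b c d : ℕ) : Decidable (Cov1 m a b c d) := by
  unfold Cov1; infer_instance

def Cov (P : Par) (m : ℕ) : Prop :=
  ∀ a < 2, ∀ b < 2, ∀ c < 2, ∀ d < 2,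
    Q.dvdZ 2 ((⟨(a : ℕ), (b : ℕ), (c : ℕ), (d : ℕ)⟩ : Q P) ^ 4) = true ∨ Cov1 m a b c d

instance (m : ℕ) : Decidable (Cov P m) := by
  unfold Cov; infer_instance

noncomputable def coverB (M : Fin 4 → Fin 4 → ℤ) (u l : Fin 4 → Q P)
    (A : Fin 16 → Finset (Fin 4) × Finset (Fin 4) × Q P)
    (B : List (Finset (Fin 4) × Finset (Fin 4))) (ts : List (Q P)) : Bool :=
  (force (mask M u l B ts) fun m => decide (Cov P m)) &&
    decide (∀ s : Fin 16, (forceQ (gp u l (A s).1 (A s).2.1) fun g =>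
      (Nat.beq (sc M g) s && Q.dvdZ 4 (g * (A s).2.2 ^ 2 - 1) : Bool)) = true)

lemma sg_cases (M : Fin 4 → Fin 4 → ℤ) (i : Fin 4) (x : Q P) :
    (sg M i x = 1 ∧ posB M i x = true) ∨ (sg M i x = 0 ∧ posB M i (-x) = true) ∨
      sg M i x = 16 := by
  unfold sg
  cases posB M i x <;> cases posB M i (-x) <;> simp

lemma code_inj {a b c d a' b' c' d' : ℕ} (ha : a < 4) (hb : b < 4) (hc : c < 4)
    (ha' : a' < 4) (hb' : b' < 4) (hc' : c' < 4)
    (h : a + 4 * b + 16 * c + 64 * d = a' + 4 * b' + 16 * c' + 64 * d') :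
    a = a' ∧ b = b' ∧ c = c' ∧ d = d' := by
  omega

lemma sg_inj {a b c d a' b' c' d' : ℕ} (ha : a ≤ 1 ∨ a = 16) (hb : b ≤ 1 ∨ b = 16)
    (hc : c ≤ 1 ∨ c = 16) (hd : d ≤ 1 ∨ d = 16) (ha' : a' ≤ 1) (hb' : b' ≤ 1) (hc' : c' ≤ 1)
    (hd' : d' ≤ 1) (h : a + 2 * b + 4 * c + 8 * d = a' + 2 * b' + 4 * c' + 8 * d') :
    a = a' ∧ b = b' ∧ c = c' ∧ d = d' := by
  omega

lemma m4_lt (x : ℤ) : (x % 4).toNat < 4 := by omega

lemma m4_eq {x y : ℤ} (h : (x % 4).toNat = (y % 4).toNat) : (y - x) % 4 = 0 := by omega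

lemma m2_two (x : ℤ) : (x - ((x % 2).toNat : ℕ)) % 2 = 0 := by omega

lemma m2_lt (x : ℤ) : (x % 2).toNat < 2 := by omega

lemma m4_split (x : ℤ) : ∃ k < 2, (x % 2).toNat + 2 * k = (x % 4).toNat :=
  ⟨(x % 4).toNat / 2, by omega, by omega⟩

lemma sc_sound (S : Setup P) {g p : Q P} {s : Fin 4 → ℕ}
    (hs : ∀ i, (s i = 1 ∧ 0 < S.σ i p) ∨ (s i = 0 ∧ S.σ i p < 0))
    (hsc : sc S.M g = s 0 + 2 * s 1 + 4 * s 2 + 8 * s 3) : S.Pos (p * g) := by
  intro i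
  have hs' : ∀ i, s i ≤ 1 := fun i => by rcases hs i with h | h <;> omega
  have hi : sg S.M i g = s i := by
    have g0 : ∀ j, sg S.M j g ≤ 1 ∨ sg S.M j g = 16 := fun j => by
      rcases sg_cases S.M j g with h | h | h <;> omega
    obtain ⟨e0, e1, e2, e3⟩ := sg_inj (g0 0) (g0 1) (g0 2) (g0 3) (hs' 0) (hs' 1) (hs' 2)
      (hs' 3) hsc
    fin_cases i
    exacts [e0, e1, e2, e3]
  rw [map_mul]
  rcases sg_cases S.M i g with h | h | h <;> rcases hs i with h' | h'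
  · exact mul_pos h'.2 (posB_sound S h.2)
  · omega
  · omega
  · exact mul_pos_of_neg_of_neg h'.2 (by simpa using posB_sound S h.2)
  · omega
  · omega

lemma cover_sound (S : Setup P) [IsDomain (Q P)] [IsPrincipalIdealRing (Q P)]
    {u l : Fin 4 → Q P} {A : Fin 16 → Finset (Fin 4) × Finset (Fin 4) × Q P}
    {B : List (Finset (Fin 4) × Finset (Fin 4))} {ts : List (Q P)}
    (H : coverB S.M u l A B ts = true) (p : Q P)
    (hp : Prime p) (h2 : ¬ p ∣ 2) : ∃ J I : Finset (Fin 4),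
      S.Pos (p * ((∏ j ∈ J, u j) * ∏ i ∈ I, l i)) ∧
        ∃ t, 4 ∣ p - (∏ j ∈ J, u j) * (∏ i ∈ I, l i) * t ^ 2 := by
  classical
  rw [coverB, force_eq, Bool.and_eq_true, decide_eq_true_iff, decide_eq_true_iff] at H
  obtain ⟨H, HA⟩ := H
  rcases H _ (m2_lt p.a) _ (m2_lt p.b) _ (m2_lt p.c) _ (m2_lt p.d) with H | H
  · exfalso
    generalize hx : (⟨((p.a % 2).toNat : ℕ), ((p.b % 2).toNat : ℕ), ((p.c % 2).toNat : ℕ),
      ((p.d % 2).toNat : ℕ)⟩ : Q P) = x at H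
    have h3 : ((2 : ℤ) : Q P) ∣ p - x := by
      rw [← Q.dvdZ_iff, ← hx]
      simp only [Q.dvdZ, Q.sub_a, Q.sub_b, Q.sub_c, Q.sub_d, Bool.and_eq_true, beq_iff_eq]
      exact ⟨⟨⟨m2_two _, m2_two _⟩, m2_two _⟩, m2_two _⟩
    rw [Q.dvdZ_iff] at H
    have h4 := dvd_add (h3.trans (sub_dvd_pow_sub_pow p x 4)) H
    rw [sub_add_cancel] at h4
    have h5 := ((hp.irreducible.coprime_iff_not_dvd.mpr h2).pow_left (m := 4)).isUnit_of_dvd'
      (by exact_mod_cast h4) dvd_rfl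
    have h6 : ((2 : ℤ) : Q P) ∣ 1 := by exact_mod_cast h5.dvd
    rw [← Q.dvdZ_iff] at h6
    simp [Q.dvdZ] at h6
  · obtain ⟨s, hs⟩ : ∃ s : Fin 4 → ℕ, ∀ i, (s i = 1 ∧ 0 < S.σ i p) ∨ (s i = 0 ∧ S.σ i p < 0) := by
      refine ⟨fun i => if 0 < S.σ i p then 1 else 0, fun i => ?_⟩
      by_cases h : 0 < S.σ i p
      · simp [h]
      · exact Or.inr ⟨by simp [h], lt_of_le_of_ne (not_lt.mp h)
          ((map_ne_zero_iff _ (S.inj i)).mpr hp.ne_zero)⟩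
    have hs' : ∀ i, s i ≤ 1 := fun i => by rcases hs i with h | h <;> omega
    have HA := HA ⟨s 0 + 2 * s 1 + 4 * s 2 + 8 * s 3, by
      have := hs' 0
      have := hs' 1
      have := hs' 2
      have := hs' 3
      omega⟩
    rw [forceQ_eq, Bool.and_eq_true, Nat.beq_eq, Q.dvdZ_iff] at HA
    obtain ⟨hA, z, hz⟩ := HA
    replace hA := sc_sound S hs hA
    generalize A _ = a at hA hz
    obtain ⟨ka, ha, ea⟩ := m4_split p.a
    obtain ⟨kb, hb, eb⟩ := m4_split p.b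
    obtain ⟨kc, hc, ec⟩ := m4_split p.c
    obtain ⟨kd, hd, ed⟩ := m4_split p.d
    have H := H _ ha _ hb _ hc _ hd
    rw [ea, eb, ec, ed] at H
    obtain ⟨b, -, H⟩ := orL_test H
    rw [forceQ_eq] at H
    have hB : sc S.M (gp u l b.1 b.2) = 15 := by
      by_contra h
      rw [Bool.eq_false_iff.mpr (mt Nat.eq_of_beq_eq_true h)] at H
      simp at H
    rw [hB] at H
    obtain ⟨t, -, H⟩ := orL_test H
    change (1 <<< _).testBit _ = true at H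
    rw [Nat.one_shiftLeft, Nat.testBit_two_pow, decide_eq_true_iff, ← sq] at H
    obtain ⟨ea, eb, ec, ed⟩ := code_inj (m4_lt _) (m4_lt _) (m4_lt _) (m4_lt _)
      (m4_lt _) (m4_lt _) H
    obtain ⟨y, hy⟩ : ((4 : ℤ) : Q P) ∣ p - gp u l b.1 b.2 * t ^ 2 := by
      rw [← Q.dvdZ_iff]
      simp only [Q.dvdZ, Q.sub_a, Q.sub_b, Q.sub_c, Q.sub_d, Bool.and_eq_true, beq_iff_eq]
      exact ⟨⟨⟨m4_eq ea, m4_eq eb⟩, m4_eq ec⟩, m4_eq ed⟩
    replace hB := sc_sound S (p := 1) (s := fun _ => 1) (fun i => by simp) hB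
    obtain ⟨J, I, v, hv⟩ := gp_mul u l a.1 a.2.1 b.1 b.2
    refine ⟨J, I, fun i => ?_, v * a.2.2 * t, y - gp u l b.1 b.2 * t ^ 2 * z, ?_⟩
    · have h1 := mul_pos (hA i) (hB i)
      rw [← map_mul, one_mul, mul_assoc, hv, ← mul_assoc, map_mul, map_pow] at h1
      exact pos_of_mul_pos_left h1 (sq_nonneg _)
    · change p - gp u l J I * _ = _
      push_cast at hy hz
      linear_combination hy - gp u l b.1 b.2 * t ^ 2 * hz + (a.2.2 * t) ^ 2 * hv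

/-! ### certificates -/

structure Cert (P : Par) where
  u : Fin 4 → Q P
  l : Fin 4 → Q P
  q : Fin 4 → ℕ
  w : Fin 4 → ℤ
  h : Fin 4 → ℤ
  ts : List (Q P)
  A : Fin 16 → Finset (Fin 4) × Finset (Fin 4) × Q P
  B : List (Finset (Fin 4) × Finset (Fin 4))
  s : Q P
  a : Q P
  c : Q P
  c1 : Q P
  c2 : Q P
  n1 : ℕ
  n2 : ℕ
  E1 : Fin n1 → Finset (Fin 4)
  K1 : Fin n1 → Finset (Fin 4)
  E2 : Fin n2 → Q P
  K2 : Fin n2 → Finset (Fin 4)
  f : Fin n1 → Fin n2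
  x : Fin n1 → Q P
  y : Fin n1 → Q P

def Cert.ok (C : Cert P) (M : Fin 4 → Fin 4 → ℤ) : Prop :=
  (∀ j, C.u j * Q.adj (C.u j) * Q.nm (C.u j) = 1) ∧
  (∀ i, Deg1 (C.l i) (C.q i) (C.w i) (C.h i)) ∧
  (∀ i j, i ≠ j → ev (C.w i) (C.h i) (C.l j) % C.q i ≠ 0) ∧
  (∀ J : Finset (Fin 4), J.Nonempty → ∃ i, NS (C.q i) (ev (C.w i) (C.h i) (∏ j ∈ J, C.u j))) ∧
  (∀ I : Finset (Fin 4), I.Nonempty → ∃ j,
    ¬ Even (I.filter fun i => NS (C.q i) (ev (C.w i) (C.h i) (C.u j))).card) ∧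
  (∀ J : Finset (Fin 4), (∃ i, J = C.E1 i) ∨ ∃ i, posB M i (-∏ j ∈ J, C.u j) = true) ∧
  (∀ i j, i ≠ j → ∀ J : Finset (Fin 4), ∃ k, posB M k
    (-((∏ j ∈ J, C.u j) * ((∏ k ∈ C.K1 i, C.l k) * ∏ k ∈ C.K1 j, C.l k))) = true) ∧
  (C.s ^ 2 + 4 * C.a) * Q.adj (C.s ^ 2 + 4 * C.a) = 1 ∧
  (∀ i, posB M i (-(C.s ^ 2 + 4 * C.a)) = true) ∧
  (∀ i, ∏ k ∈ C.E1 i, C.u k =
    C.E2 (C.f i) * (C.x i ^ 2 + C.s * C.x i * C.y i - C.a * C.y i ^ 2)) ∧
  (∀ i, ∀ k ∈ C.K2 i, ¬ NS (C.q k) (ev (C.w k) (C.h k) (C.s ^ 2 + 4 * C.a))) ∧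
  (∀ i j, i ≠ j → ∀ J : Finset (Fin 4), ∃ k, posB M k
    (-((∏ j ∈ J, C.u j) * ((∏ k ∈ C.K2 i, C.l k) * ∏ k ∈ C.K2 j, C.l k))) = true) ∧
  C.c ≠ 0 ∧ C.c ^ 2 * -(C.s ^ 2 + 4 * C.a) = C.c1 ^ 2 + C.c2 ^ 2

instance (C : Cert P) (M : Fin 4 → Fin 4 → ℤ) : Decidable (C.ok M) := by
  unfold Cert.ok; infer_instance

theorem Cert.sound (S : Setup P) [IsDomain (Q P)] [IsPrincipalIdealRing (Q P)]
    {K : Type*} [Field K] [NumberField K] [IsTotallyReal K] (hn : Module.finrank ℚ K = 4)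
    (e : Q P ≃+* 𝓞 K) (hPos : ∀ x, TotPos ((e x : 𝓞 K) : K) ↔ S.Pos x)
    (C : Cert P) (H : C.ok S.M) (H' : coverB S.M C.u C.l C.A C.B C.ts = true)
    (β : Q P) (hβ : S.Pos β) (hodd : IsCoprime β 2) : ∃ t : Q P, t ≠ 0 ∧ S3 (t ^ 2 * β) := by
  obtain ⟨h1, h2, h3, h4, h5, h6, h7, h8, h9, h10, h11, h12, h13, h14⟩ := H
  refine three_sq_ring hn e S.Pos hPos C.u
    (fun j => IsUnit.of_mul_eq_one _ ((mul_assoc _ _ _).symm.trans (h1 j))) C.l
    (fun i => (h2 i).prime) (fun i j hij => by rw [(h2 i).dvd_iff]; exact h3 i j hij)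
    (fun J hJ => by simpa only [fun i => (h2 i).sq_iff] using h4 J hJ)
    (fun I hI => by
      obtain ⟨j, hj⟩ := h5 I hI
      refine ⟨j, ?_⟩
      convert hj using 4 with i
      exact (h2 i).sq_iff _)
    (cover_sound S H') C.E1 C.K1 C.E2 C.K2
    (fun J hJ => (h6 J).resolve_right fun h => not_pos S h hJ)
    (fun i j hij J => not_pos S (h7 i j hij J)) C.s C.a (IsUnit.of_mul_eq_one _ h8)
    (fun i => posB_sound S (h9 i)) (fun i => ⟨_, _, _, h10 i⟩)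
    (fun i k hk => not_not.mp (mt ((h2 k).sq_iff _).mp (h11 i k hk)))
    (fun i j hij J => not_pos S (h12 i j hij J)) C.c C.c1 C.c2 h13 h14 β hβ hodd

end Frac

end Pool.Agent.Lib.MP_aed2da_nt
end
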