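import Pool.Agent.Lib.MP_aed2da_nt.Fields
import Pool.Agent.Lib.MP_aed2da_nt.HTree
import Pool.Agent.Lib.MP_aed2da_nt.HFld

/-! The constants of the checkers are correct. -/

namespace Pool.Agent.Lib.MP_aed2da_nt.H

def ld23 : List LD := [l23_0, l23_1]

theorem geo23 : Geo S23 fd23 :=
  ⟨by decide +kernel, ap_of _ 0 (by decide +kernel), ap_of _ 1 (by decide +kernel),
    ap_of _ 2 (by decide +kernel), ap_of _ 3 (by decide +kernel), by decide +kernel,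
    by decide +kernel⟩

theorem ev23 : Ev Ls23 ld23 (fun L l => decide (LitOK fd23 L l)) fm23 pr23 :=
  ⟨fun _ _ => rfl, by decide +kernel⟩

theorem cells23 (h3 : H3 S23 Ls23 fm23 fd23.nmax) {m : Tr} {s : ℕ} {l : List (List ℕ)}
    (h : chkCells fd23 ps23 pb23 cl23 m s l = true) : BoxesOK S23 s :=
  cells_sound geo23 h3 (ld := ld23)
    (fS := (.lit 0))
    (fB := (.lit 1))
    (ls := [⟨1, 9222949822242127870, ⟨1, 0, 1, 0⟩, 2⟩])
    (lb := [⟨2, 9222949826537095166, ⟨0, 1, 2, 0⟩, 3⟩,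
   ⟨2, 9223231292923871230, ⟨1, 0, 0, 1⟩, 3⟩])
    ⟨⟨fun _ _ => rfl, by decide +kernel⟩, rfl, by decide +kernel⟩
    ⟨⟨fun _ _ => rfl, by decide +kernel⟩, rfl, by decide +kernel⟩
    (by decide +kernel) (fun T => by simp only [fm23, Fm.holds]; tauto) h

def ld35 : List LD := [l35_0, l35_1, l35_2, l35_3, l35_4, l35_5]

theorem geo35 : Geo S35 fd35 :=
  ⟨by decide +kernel, ap_of _ 0 (by decide +kernel), ap_of _ 1 (by decide +kernel),
    ap_of _ 2 (by decide +kernel), ap_of _ 3 (by decide +kernel), by decide +kernel,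
    by decide +kernel⟩

theorem ev35 : Ev Ls35 ld35 (fun L l => decide (LitOK fd35 L l)) fm35 pr35 :=
  ⟨fun _ _ => rfl, by decide +kernel⟩

theorem cells35 (h3 : H3 S35 Ls35 fm35 fd35.nmax) {m : Tr} {s : ℕ} {l : List (List ℕ)}
    (h : chkCells fd35 ps35 pb35 cl35 m s l = true) : BoxesOK S35 s :=
  cells_sound geo35 h3 (ld := ld35)
    (fS := (.and (.lit 0) (.lit 1)))
    (fB := (.or (.lit 2) (.or (.lit 3) (.lit 4))))
    (ls := [⟨2, 9214505439795118048, ⟨0, 1, 0, 0⟩, 3⟩,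
   ⟨2, 9214505439794855908, ⟨1, 0, 0, 0⟩, 3⟩,
   ⟨1, 9215349864724987872, ⟨0, 1, 0, 1⟩, 2⟩,
   ⟨1, 9214505452679757792, ⟨1, 0, 1, 0⟩, 2⟩])
    (lb := [⟨4, 9215912823268343776, ⟨1, 8, 5, 7⟩, 11⟩,
   ⟨4, 9215349864725446624, ⟨1, 4, 6, 2⟩, 11⟩,
   ⟨4, 9217038744650481632, ⟨1, 4, 5, 9⟩, 11⟩])
    ⟨⟨fun _ _ => rfl, by decide +kernel⟩, rfl, by decide +kernel⟩
    ⟨⟨fun _ _ => rfl, by decide +kernel⟩, rfl, by decide +kernel⟩
    (by decide +kernel) (fun T => by simp only [fm35, Fm.holds]; tauto) h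

def ld37 : List LD := [l37_0, l37_1, l37_2]

theorem geo37 : Geo S37 fd37 :=
  ⟨by decide +kernel, ap_of _ 0 (by decide +kernel), ap_of _ 1 (by decide +kernel),
    ap_of _ 2 (by decide +kernel), ap_of _ 3 (by decide +kernel), by decide +kernel,
    by decide +kernel⟩

theorem ev37 : Ev Ls37 ld37 (fun L l => decide (LitOK fd37 L l)) fm37 pr37 :=
  ⟨fun _ _ => rfl, by decide +kernel⟩

theorem cells37 (h3 : H3 S37 Ls37 fm37 fd37.nmax) {m : Tr} {s : ℕ} {l : List (List ℕ)}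
    (h : chkCells fd37 ps37 pb37 cl37 m s l = true) : BoxesOK S37 s :=
  cells_sound geo37 h3 (ld := ld37)
    (fS := (.lit 0))
    (fB := (.and (.lit 1) (.lit 2)))
    (ls := [⟨1, 9223231297218838526, ⟨0, 1, 1, 0⟩, 2⟩,
   ⟨1, 9223231292923871230, ⟨1, 0, 1, 1⟩, 2⟩])
    (lb := [⟨2, 9222949822242258942, ⟨0, 1, 2, 2⟩, 3⟩,
   ⟨2, 9223512772195549184, ⟨1, 0, 0, 1⟩, 3⟩,
   ⟨2, 9222949826537226238, ⟨0, 1, 1, 1⟩, 3⟩,
   ⟨2, 9223231301513805824, ⟨1, 0, 0, 2⟩, 3⟩])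
    ⟨⟨fun _ _ => rfl, by decide +kernel⟩, rfl, by decide +kernel⟩
    ⟨⟨fun _ _ => rfl, by decide +kernel⟩, rfl, by decide +kernel⟩
    (by decide +kernel) (fun T => by simp only [fm37, Fm.holds]; tauto) h

def ld27 : List LD := [l27_0, l27_1, l27_2, l27_3, l27_4, l27_5, l27_6, l27_7, l27_8]

theorem geo27 : Geo S27 fd27 :=
  ⟨by decide +kernel, ap_of _ 0 (by decide +kernel), ap_of _ 1 (by decide +kernel),
    ap_of _ 2 (by decide +kernel), ap_of _ 3 (by decide +kernel), by decide +kernel,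
    by decide +kernel⟩

theorem ev27 : Ev Ls27 ld27 (fun L l => decide (LitOK fd27 L l)) fm27 pr27 :=
  ⟨fun _ _ => rfl, by decide +kernel⟩

theorem cells27 (h3 : H3 S27 Ls27 fm27 fd27.nmax) {m : Tr} {s : ℕ} {l : List (List ℕ)}
    (h : chkCells fd27 ps27 pb27 cl27 m s l = true) : BoxesOK S27 s :=
  cells_sound geo27 h3 (ld := ld27)
    (fS := (.lit 0))
    (fB := (.or (.and (.or (.and (.lit 5) (.lit 2)) (.and (.lit 1) (.lit 6))) (.and (.lit 3) (.lit 4))) (.and (.lit 1) (.and (.lit 2) (.or (.and (.lit 7) (.lit 4)) (.and (.lit 3) (.lit 8)))))))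
    (ls := [⟨1, 9221260946611666936, ⟨1, 0, 1, 0⟩, 2⟩])
    (lb := [⟨2, 9221260972381470712, ⟨0, 1, 1, 0⟩, 3⟩,
   ⟨2, 9225201591990648824, ⟨1, 0, 0, 2⟩, 3⟩,
   ⟨2, 9221261002446700536, ⟨0, 1, 0, 0⟩, 3⟩,
   ⟨2, 9223231267153674239, ⟨1, 0, 0, 0⟩, 3⟩,
   ⟨3, 9226327530552197112, ⟨1, 4, 2, 1⟩, 7⟩,
   ⟨3, 9226327543437099000, ⟨1, 3, 5, 1⟩, 7⟩])
    ⟨⟨fun _ _ => rfl, by decide +kernel⟩, rfl, by decide +kernel⟩
    ⟨⟨fun _ _ => rfl, by decide +kernel⟩, rfl, by decide +kernel⟩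
    (by decide +kernel) (fun T => by simp only [fm27, Fm.holds]; tauto) h

def ld56 : List LD := [l56_0, l56_1, l56_2, l56_3, l56_4, l56_5, l56_6, l56_7, l56_8, l56_9]

theorem geo56 : Geo S56 fd56 :=
  ⟨by decide +kernel, ap_of _ 0 (by decide +kernel), ap_of _ 1 (by decide +kernel),
    ap_of _ 2 (by decide +kernel), ap_of _ 3 (by decide +kernel), by decide +kernel,
    by decide +kernel⟩

theorem ev56 : Ev Ls56 ld56 (fun L l => decide (LitOK fd56 L l)) fm56 pr56 :=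
  ⟨fun _ _ => rfl, by decide +kernel⟩

theorem cells56 (h3 : H3 S56 Ls56 fm56 fd56.nmax) {m : Tr} {s : ℕ} {l : List (List ℕ)}
    (h : chkCells fd56 ps56 pb56 cl56 m s l = true) : BoxesOK S56 s :=
  cells_sound geo56 h3 (ld := ld56)
    (fS := (.and (.lit 0) (.lit 5)))
    (fB := (.or (.and (.lit 3) (.and (.lit 2) (.lit 6))) (.and (.lit 1) (.and (.lit 4) (.lit 7)))))
    (ls := [⟨2, 9145261538946219754, ⟨0, 1, 0, 0⟩, 3⟩,
   ⟨2, 9145261538945957614, ⟨1, 0, 0, 0⟩, 3⟩,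
   ⟨1, 9145261538946154218, ⟨0, 1, 0, 0⟩, 2⟩,
   ⟨1, 9145261538945957613, ⟨1, 0, 0, 0⟩, 2⟩])
    (lb := [⟨5, 9148076288716013290, ⟨1, 15, 14, 1⟩, 19⟩,
   ⟨5, 9169186911969312490, ⟨1, 15, 5, 18⟩, 19⟩,
   ⟨3, 9150609563508440810, ⟨1, 3, 4, 2⟩, 5⟩,
   ⟨3, 9166653637180948202, ⟨1, 3, 1, 3⟩, 5⟩])
    ⟨⟨fun _ _ => rfl, by decide +kernel⟩, rfl, by decide +kernel⟩
    ⟨⟨fun _ _ => rfl, by decide +kernel⟩, rfl, by decide +kernel⟩
    (by decide +kernel) (fun T => by simp only [fm56, Fm.holds]; tauto) h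

def ld57 : List LD := [l57_0, l57_1, l57_2, l57_3, l57_4, l57_5, l57_6, l57_7, l57_8, l57_9, l57_10]

theorem geo57 : Geo S57 fd57 :=
  ⟨by decide +kernel, ap_of _ 0 (by decide +kernel), ap_of _ 1 (by decide +kernel),
    ap_of _ 2 (by decide +kernel), ap_of _ 3 (by decide +kernel), by decide +kernel,
    by decide +kernel⟩

theorem ev57 : Ev Ls57 ld57 (fun L l => decide (LitOK fd57 L l)) fm57 pr57 :=
  ⟨fun _ _ => rfl, by decide +kernel⟩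

theorem cells57 (h3 : H3 S57 Ls57 fm57 fd57.nmax) {m : Tr} {s : ℕ} {l : List (List ℕ)}
    (h : chkCells fd57 ps57 pb57 cl57 m s l = true) : BoxesOK S57 s :=
  cells_sound geo57 h3 (ld := ld57)
    (fS := (.and (.lit 1) (.lit 2)))
    (fB := (.and (.lit 0) (.and (.and (.lit 3) (.lit 4)) (.lit 7))))
    (ls := [⟨2, 9305986198816588068, ⟨0, 1, 0, 2⟩, 3⟩,
   ⟨2, 9305704728134713638, ⟨1, 0, 2, 0⟩, 3⟩,
   ⟨2, 9306267673793298724, ⟨0, 1, 0, 1⟩, 3⟩,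
   ⟨2, 9305704732429680934, ⟨1, 0, 1, 0⟩, 3⟩])
    (lb := [⟨5, 9452634661682708772, ⟨1, 5, 11, 17⟩, 19⟩,
   ⟨5, 9530321755302166820, ⟨1, 24, 23, 1⟩, 29⟩,
   ⟨5, 9391273116807102756, ⟨1, 24, 6, 28⟩, 29⟩,
   ⟨1, 9460797436007317796, ⟨0, 1, 0, 1⟩, 2⟩,
   ⟨1, 9305707090366726436, ⟨1, 0, 1, 0⟩, 2⟩])
    ⟨⟨fun _ _ => rfl, by decide +kernel⟩, rfl, by decide +kernel⟩
    ⟨⟨fun _ _ => rfl, by decide +kernel⟩, rfl, by decide +kernel⟩
    (by decide +kernel) (fun T => by simp only [fm57, Fm.holds]; tauto) h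

end Pool.Agent.Lib.MP_aed2da_nt.H
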