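import Pool.Agent.Lib.MP_aed2da_nt.Fields
import Pool.Agent.Lib.MP_aed2da_nt.QuatPID

/-! The six explicit rings are principal ideal domains; norms and primes. -/

namespace Pool.Agent.Lib.MP_aed2da_nt

namespace Pid
variable {P : Par}

/-- no solution of the relations modulo `q` -/
def noSol (P : Par) (q : ℕ) : Bool :=
  (List.range q).all fun w => ((w : ℤ) * w - (P.r + P.p * w)) % q != 0 ||
    (List.range q).all fun h => ((h : ℤ) * h - (P.t0 + P.t1 * w + (P.s0 + P.s1 * w) * h)) % q != 0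

theorem noSol_sound {q : ℕ} (hq : q ≠ 0) (H : noSol P q = true) (w h : ZMod q) :
    ¬ Q.Rel P w h := by
  have : NeZero q := ⟨hq⟩
  rintro ⟨h1, h2⟩
  simp only [noSol, List.all_eq_true, List.mem_range, Bool.or_eq_true, bne_iff_ne, ne_eq,
    ← Int.dvd_iff_emod_eq_zero, ← ZMod.intCast_zmod_eq_zero_iff_dvd] at H
  rcases H w.val (ZMod.val_lt w) with H | H
  · exact H (by simp [h1])
  · exact H h.val (ZMod.val_lt h) (by simp [h2])

/-- an ideal of prime index gives a solution of the relations -/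
theorem sol_of_index (J : Ideal (Q P)) {p : ℕ} (hp : p.Prime) (h : J.toAddSubgroup.index = p) :
    ∃ w h : ZMod p, Q.Rel P w h := by
  have hc : Nat.card (Q P ⧸ J) = p := h
  have : Finite (Q P ⧸ J) := Nat.finite_of_card_ne_zero (hc ▸ hp.ne_zero)
  have := Fintype.ofFinite (Q P ⧸ J)
  let e := ZMod.ringEquivOfPrime (Q P ⧸ J) hp (Nat.card_eq_fintype_card.symm.trans hc)
  exact ⟨_, _, Q.rel_map (e.symm.toRingHom.comp (Ideal.Quotient.mk J))⟩

theorem norm_eq (S : Setup P) (x : Q P) : Algebra.norm ℤ x = Q.nm x := by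
  set A := Matrix.of fun i j => S.σ i (Q.basis j) with hA
  have h0 : A.det ≠ 0 := fun h => by
    have := S.det_sq
    rw [← hA, h] at this
    exact S.D_pos.ne (by exact_mod_cast (zero_pow two_ne_zero).symm.trans this)
  have : A * (Algebra.leftMulMatrix Q.basis x).map (Int.castRingHom ℝ) =
      Matrix.diagonal (fun i => S.σ i x) * A := by
    ext i j
    rw [Matrix.diagonal_mul, hA, Matrix.of_apply, ← map_mul,
      ← (Q.basis (P := P)).sum_repr (x * Q.basis j), map_sum, Matrix.mul_apply]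
    simp [Algebra.leftMulMatrix_eq_repr_mul, mul_comm]
  have h2 := congrArg Matrix.det this
  rw [Matrix.det_mul, Matrix.det_mul, ← RingHom.mapMatrix_apply, ← RingHom.map_det,
    Matrix.det_diagonal, S.prod_σ, mul_comm, ← Algebra.norm_eq_matrix_det] at h2
  exact Int.cast_injective (α := ℝ) (mul_right_cancel₀ h0 h2)

theorem nm_ne_zero (S : Setup P) {x : Q P} (hx : x ≠ 0) : Q.nm x ≠ 0 := fun h => by
  have := S.prod_σ x
  rw [h, Int.cast_zero, Finset.prod_eq_zero_iff] at this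
  obtain ⟨i, -, hi⟩ := this
  exact hx (S.inj i (by rw [hi, map_zero]))

theorem index_span (S : Setup P) {x : Q P} (hx : x ≠ 0) :
    (Ideal.span {x}).toAddSubgroup.index = (Q.nm x).natAbs := by
  have := S.isDomain
  rw [← norm_eq S, Algebra.norm_apply]
  refine (Submodule.natAbs_det_equiv ((Ideal.span {x}).restrictScalars ℤ)
    (Q.basis.equiv (Ideal.basisSpanSingleton Q.basis hx) (Equiv.refl _))).symm.trans ?_
  congr 2

theorem nm_mul (S : Setup P) (x y : Q P) : Q.nm (x * y) = Q.nm x * Q.nm y := by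
  rw [← norm_eq S, ← norm_eq S, ← norm_eq S, map_mul]

theorem eq_of_index_le {J J' : Ideal (Q P)} (h : J ≤ J') (h0 : J.toAddSubgroup.index ≠ 0)
    (hle : J.toAddSubgroup.index ≤ J'.toAddSubgroup.index) : J = J' := by
  have h1 := AddSubgroup.relIndex_mul_index (show J.toAddSubgroup ≤ J'.toAddSubgroup from h)
  have h2 : J'.toAddSubgroup.index ≠ 0 := by omega
  have h3 : J.toAddSubgroup.relIndex J'.toAddSubgroup = 1 := by
    rcases Nat.lt_trichotomy (J.toAddSubgroup.relIndex J'.toAddSubgroup) 1 with h | h | h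
    · rw [Nat.lt_one_iff.1 h] at h1; omega
    · exact h
    · nlinarith [Nat.pos_of_ne_zero h2]
  exact le_antisymm h (AddSubgroup.relIndex_eq_one.1 h3)

/-- certificate for the primes above `p` of norm at most `B` -/
def ok (B p : ℕ) (L : List (Q P)) : Bool :=
  (Q.dvdZ p L.prod && L.all fun x => (Q.nm x).natAbs == p) || (noSol P p &&
    (B < p ^ 2 || (Q.dvdZ p L.prod && L.all fun x => (Q.nm x).natAbs == p ^ 2)))

def cert (B : ℕ) (data : List (ℕ × List (Q P))) : Bool :=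
  (List.range (B + 1)).all fun n => n < 2 || ((List.range n).any fun d => 2 ≤ d && n % d == 0) ||
    data.any fun e => e.1 == n && ok B n e.2

theorem principal_of_cert (S : Setup P) {B : ℕ} {data : List (ℕ × List (Q P))}
    (H : cert B data = true) (J : Ideal (Q P)) (hJ : J.IsPrime) (h0 : J.toAddSubgroup.index ≠ 0)
    (hB : J.toAddSubgroup.index ≤ B) : ∃ π, J = Ideal.span {π} := by
  set q := J.toAddSubgroup.index with hq
  have h1 : q ≠ 1 := fun h => hJ.ne_top (by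
    have := AddSubgroup.index_eq_one.1 h
    exact eq_top_iff.2 fun x _ => (this ▸ AddSubgroup.mem_top x : x ∈ J.toAddSubgroup))
  have h2 : ((q.primeFactorsList.map Nat.cast).prod : Q P) ∈ J := by
    rw [← Nat.cast_list_prod, Nat.prod_primeFactorsList h0]
    simpa using J.toAddSubgroup.nsmul_index_mem 1
  obtain ⟨_, h3, hpJ⟩ := (hJ.multiset_prod_mem_iff_exists_mem
    (q.primeFactorsList.map Nat.cast : List (Q P))).1 (by simpa using h2)
  obtain ⟨p, h4, rfl⟩ := List.mem_map.1 (Multiset.mem_coe.1 h3)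
  have hp := Nat.prime_of_mem_primeFactorsList h4
  have hpq := Nat.le_of_mem_primeFactorsList h4
  have key : ∀ (L : List (Q P)) (n : ℕ), n ≠ 0 → n ≤ q → Q.dvdZ p L.prod = true →
      (∀ x ∈ L, (Q.nm x).natAbs = n) → ∃ π, J = Ideal.span {π} := fun L n hn hnq h5 h6 => by
    obtain ⟨π, h7, h8⟩ := (hJ.multiset_prod_mem_iff_exists_mem (L : Multiset (Q P))).1
      (by simpa using J.mem_of_dvd ((Q.dvdZ_iff _ _).1 h5) (by simpa using hpJ))
    have h9 := h6 π (Multiset.mem_coe.1 h7)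
    have hπ : π ≠ 0 := by
      rintro rfl
      exact hn (by rw [← h9, ← norm_eq S, Algebra.norm_zero]; rfl)
    have h10 := (index_span S hπ).trans h9
    exact ⟨π, (eq_of_index_le ((Ideal.span_singleton_le_iff_mem _).2 h8) (h10 ▸ hn)
      (h10 ▸ hnq)).symm⟩
  simp only [cert, ok, List.all_eq_true, List.mem_range, Bool.or_eq_true, decide_eq_true_eq,
    List.any_eq_true, Bool.and_eq_true, beq_iff_eq] at H
  rcases H p (by omega) with (h | ⟨d, h, h', h''⟩) | ⟨e, -, -, h | ⟨hn, h⟩⟩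
  · exact absurd hp.two_le (by omega)
  · rcases (Nat.dvd_prime hp).1 (Nat.dvd_of_mod_eq_zero h'') with h | h <;> omega
  · exact key _ p hp.ne_zero hpq h.1 h.2
  · have h5 : q ∣ p ^ 4 := by
      have hp0 : ((p : ℕ) : Q P) ≠ 0 := Nat.cast_ne_zero.2 hp.ne_zero
      have := AddSubgroup.index_dvd_of_le (show (Ideal.span {((p : ℕ) : Q P)}).toAddSubgroup ≤
        J.toAddSubgroup from (Ideal.span_singleton_le_iff_mem _).2 hpJ)
      rwa [index_span S hp0, ← norm_eq S, Algebra.norm_natCast,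
        Module.finrank_eq_card_basis Q.basis, Fintype.card_fin, Int.natAbs_pow,
        Int.natAbs_natCast] at this
    obtain ⟨f, -, hf⟩ := (Nat.dvd_prime_pow hp).1 h5
    have h6 : p ^ 2 ≤ q := by
      rw [hf]
      refine Nat.pow_le_pow_right hp.pos ?_
      by_contra hlt
      interval_cases f
      · exact h1 (by simpa using hf)
      · obtain ⟨w, h, hr⟩ := sol_of_index J hp (by simpa using hf)
        exact noSol_sound hp.ne_zero hn w h hr
    rcases h with h | h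
    · omega
    · exact key _ _ (pow_ne_zero 2 hp.ne_zero) h6 h.1 h.2

theorem pid_of_cert (S : Setup P) (B : ℕ) (data : List (ℕ × List (Q P)))
    (hB : 2027 ^ 2 * S.D < 10 ^ 8 * (B + 1) ^ 2) (H : cert B data = true) :
    IsPrincipalIdealRing (Q P) := by
  classical
  have := S.isDomain
  refine ⟨fun I => ?_⟩
  by_cases hI : I = ⊥
  · exact hI ▸ bot_isPrincipal
  obtain ⟨x0, hx0, hx00⟩ := Submodule.exists_mem_ne_zero_of_ne_bot hI
  have hex : ∃ n, ∃ x ∈ I, x ≠ 0 ∧ (Q.nm x).natAbs = n := ⟨_, x0, hx0, hx00, rfl⟩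
  obtain ⟨x, hx, hx0, hxn⟩ := Nat.find_spec hex
  have hmin : ∀ y ∈ I, y ≠ 0 → (Q.nm x).natAbs ≤ (Q.nm y).natAbs := fun y hy hy0 =>
    hxn ▸ Nat.find_min' hex ⟨y, hy, hy0, rfl⟩
  have hle : (Ideal.span {x}).toAddSubgroup ≤ I.toAddSubgroup :=
    (Ideal.span_singleton_le_iff_mem _).2 hx
  have hk := AddSubgroup.relIndex_mul_index hle
  set k := (Ideal.span {x}).toAddSubgroup.relIndex I.toAddSubgroup with hkd
  rw [index_span S hx0] at hk
  have hn0 : (Q.nm x).natAbs ≠ 0 := by simpa using nm_ne_zero S hx0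
  have hk0 : k ≠ 0 := fun h => hn0 (by rw [← hk, h, zero_mul])
  have hI0 : I.toAddSubgroup.index ≠ 0 := fun h => hn0 (by rw [← hk, h, mul_zero])
  have hkB : k ≤ B := by
    obtain ⟨y, hy, hy0, h⟩ := mink_four Q.basis S.σ S.D S.D_pos S.det_sq I.toAddSubgroup hI0
    rw [S.prod_σ] at h
    have h1 : ((k : ℝ) * I.toAddSubgroup.index) ^ 2 ≤ (Q.nm y : ℝ) ^ 2 := by
      have := hmin y hy hy0
      rw [← hk] at this
      have h2 : (k : ℝ) * I.toAddSubgroup.index ≤ |(Q.nm y : ℝ)| := by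
        rw [← Int.cast_abs, Int.abs_eq_natAbs]; exact_mod_cast this
      rw [← sq_abs (Q.nm y : ℝ)]
      gcongr
    have h3 : (0 : ℝ) < (I.toAddSubgroup.index : ℝ) ^ 2 := by positivity
    have h4 : (k : ℝ) ^ 2 ≤ (2027 / 10000) ^ 2 * S.D :=
      le_of_mul_le_mul_right (by rw [← mul_pow]; exact h1.trans h) h3
    have h5 : (2027 : ℝ) ^ 2 * S.D < 10 ^ 8 * (B + 1) ^ 2 := by exact_mod_cast hB
    have h6 : (k : ℝ) < B + 1 := lt_of_pow_lt_pow_left₀ 2 (by positivity) (by linarith)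
    exact Nat.lt_succ_iff.1 (by exact_mod_cast h6)
  refine ⟨x, le_antisymm ?_ hle⟩
  by_contra hn
  let J : Q P → Ideal (Q P) := fun y =>
    Submodule.comap (LinearMap.toSpanSingleton (Q P) (Q P) y) (Ideal.span {x})
  have hJ : ∀ y r, r ∈ J y ↔ x ∣ r * y := fun y r => Ideal.mem_span_singleton (x := r * y)
  have hJi : ∀ y ∈ I, (J y).toAddSubgroup.index ≠ 0 ∧ (J y).toAddSubgroup.index ≤ k :=
    fun y hy => by
      have h1 : (J y).toAddSubgroup.index = _ := AddSubgroup.index_comap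
        (Ideal.span {x}).toAddSubgroup (LinearMap.toSpanSingleton (Q P) (Q P) y).toAddMonoidHom
      have h2 : (LinearMap.toSpanSingleton (Q P) (Q P) y).toAddMonoidHom.range ≤
          I.toAddSubgroup := by
        rintro _ ⟨r, rfl⟩
        exact I.smul_mem r hy
      rw [h1]
      exact ⟨fun h => hk0 (AddSubgroup.relIndex_eq_zero_of_le_right h2 h),
        AddSubgroup.relIndex_le_of_le_right h2 hk0⟩
  have hex2 : ∃ n, ∃ y ∈ I, ¬ x ∣ y ∧ (J y).toAddSubgroup.index = n := by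
    obtain ⟨y, hy, hy'⟩ := SetLike.not_le_iff_exists.1 hn
    exact ⟨_, y, hy, fun h => hy' (Ideal.mem_span_singleton.2 h), rfl⟩
  obtain ⟨y, hy, hxy, hyn⟩ := Nat.find_spec hex2
  have hpr : (J y).IsPrime := ⟨fun h => hxy (by simpa using (hJ y 1).1 (h ▸ Submodule.mem_top)),
    fun {a b} hab => or_iff_not_imp_right.2 fun hb => by
      have : J y = J (b * y) := eq_of_index_le
        (fun r hr => (hJ _ _).2 (by rw [mul_left_comm]; exact ((hJ _ _).1 hr).mul_left b))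
        (hJi y hy).1 (hyn ▸ Nat.find_min' hex2
          ⟨b * y, I.mul_mem_left b hy, fun h => hb ((hJ _ _).2 h), rfl⟩)
      rw [this, hJ, ← mul_assoc]
      exact (hJ _ _).1 hab⟩
  obtain ⟨π, hπ⟩ := principal_of_cert S H (J y) hpr (hJi y hy).1 ((hJi y hy).2.trans hkB)
  obtain ⟨x', hx'⟩ : π ∣ x := Ideal.mem_span_singleton.1 (hπ ▸ (hJ y x).2 (dvd_mul_right x y))
  obtain ⟨z, hz⟩ : x ∣ π * y := (hJ y π).1 (hπ ▸ Ideal.mem_span_singleton_self π)
  have hπ0 : π ≠ 0 := by rintro rfl; exact hx0 (by simpa using hx')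
  have hx'0 : x' ≠ 0 := by rintro rfl; exact hx0 (by simpa using hx')
  have hyz : y = x' * z := mul_left_cancel₀ hπ0 (by rw [hz, hx', mul_assoc])
  have := Ring.DimensionLEOne.of_isIntegral ℤ (Q P)
  have hmax : (Ideal.span {π}).IsMaximal :=
    (hπ ▸ hpr).isMaximal (by simpa using hπ0)
  obtain ⟨v, i, hi, h1⟩ := hmax.exists_inv (x := z) fun h => by
    obtain ⟨c, rfl⟩ := Ideal.mem_span_singleton.1 h
    exact hxy ⟨c, by rw [hyz, hx']; ring⟩
  obtain ⟨u, rfl⟩ := Ideal.mem_span_singleton.1 hi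
  have hx'I : x' ∈ I := by
    have : x' = v * y + u * x := by rw [hyz, hx']; linear_combination -x' * h1
    exact this ▸ I.add_mem (I.mul_mem_left v hy) (I.mul_mem_left u hx)
  have h2 := hmin x' hx'I hx'0
  rw [hx', nm_mul S, Int.natAbs_mul] at h2
  have h3 : (Q.nm x').natAbs ≠ 0 := by simpa using nm_ne_zero S hx'0
  have h4 : (Ideal.span {π}).toAddSubgroup.index ≤ 1 := by
    rw [index_span S hπ0]
    exact Nat.le_of_mul_le_mul_right (by simpa using h2) (Nat.pos_of_ne_zero h3)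
  exact hmax.ne_top (eq_of_index_le le_top (hπ ▸ (hJi y hy).1) (by simpa using h4))

end Pid

instance pid23 : IsPrincipalIdealRing (Q P23) := Pid.pid_of_cert S23 9
  [(2, [⟨1, 0, 1, 0⟩, ⟨1, 0, 1, 0⟩, ⟨1, 0, 1, 0⟩, ⟨1, 0, 1, 0⟩]),
    (3, [⟨1, 0, 0, -1⟩, ⟨1, 0, 0, -1⟩]), (5, []), (7, [])]
  (by norm_num [S23]) (by decide +kernel)
instance pid35 : IsPrincipalIdealRing (Q P35) := Pid.pid_of_cert S35 12
  [(2, [⟨1, 0, 1, 0⟩, ⟨1, 0, 1, 0⟩]), (3, [⟨0, 0, 1, 0⟩, ⟨0, 0, 1, 0⟩]), (5, []), (7, []),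
    (11, [⟨2, 0, 0, 1⟩, ⟨2, 0, 0, -1⟩, ⟨1, 0, 1, 1⟩, ⟨1, 0, -1, -1⟩])]
  (by norm_num [S35]) (by decide +kernel)
instance pid37 : IsPrincipalIdealRing (Q P37) := Pid.pid_of_cert S37 17
  [(2, [⟨1, 1, 1, 0⟩, ⟨1, 1, 1, 0⟩]),
    (3, [⟨1, 0, 1, 0⟩, ⟨1, 0, 1, 0⟩, ⟨1, 0, -1, 0⟩, ⟨1, 0, -1, 0⟩]),
    (5, []), (7, []), (11, []), (13, []), (17, [])]
  (by norm_num [S37]) (by decide +kernel)
instance pid27 : IsPrincipalIdealRing (Q P27) := Pid.pid_of_cert S27 22
  [(2, [⟨1, 0, 1, 0⟩, ⟨1, 0, 1, 0⟩, ⟨1, 0, 1, 0⟩, ⟨1, 0, 1, 0⟩]),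
    (3, [⟨0, 0, 1, 0⟩, ⟨1, 0, 0, 1⟩]), (5, []),
    (7, [⟨2, 0, 1, 0⟩, ⟨2, 0, 1, 0⟩, ⟨2, 0, -1, 0⟩, ⟨2, 0, -1, 0⟩]),
    (11, []), (13, []), (17, []), (19, [])]
  (by norm_num [S27]) (by decide +kernel)
instance pid56 : IsPrincipalIdealRing (Q P56) := Pid.pid_of_cert S56 24
  [(2, [⟨2, 0, 1, 0⟩, ⟨2, 0, 1, 0⟩]), (3, [⟨3, 0, 1, 0⟩, ⟨3, 0, 1, 0⟩]),
    (5, [⟨1, 1, 1, 0⟩, ⟨1, 1, 1, 0⟩, ⟨1, 1, -1, 0⟩, ⟨1, 1, -1, 0⟩]),
    (7, []), (11, []), (13, []), (17, []),
    (19, [⟨1, 0, 0, 1⟩, ⟨1, 0, 0, -1⟩, ⟨0, 1, 1, 0⟩, ⟨0, 1, -1, 0⟩]), (23, [])]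
  (by norm_num [S56]) (by decide +kernel)
instance pid57 : IsPrincipalIdealRing (Q P57) := Pid.pid_of_cert S57 28
  [(2, [⟨3, 0, 1, 0⟩, ⟨3, 0, 1, 0⟩]), (3, [⟨2, 0, 1, 0⟩, ⟨2, 0, -1, 0⟩]),
    (5, [⟨2, 1, 0, 0⟩, ⟨2, 1, 0, 0⟩]), (7, []), (11, []), (13, []), (17, []),
    (19, [⟨2, 0, 0, 1⟩, ⟨2, 0, 0, -1⟩, ⟨0, 2, 1, 0⟩, ⟨0, 2, -1, 0⟩]), (23, [])]
  (by norm_num [S57]) (by decide +kernel)

section
variable {P : Par} (S : Setup P)
include S
theorem Setup.absNorm_span [IsDomain (Q P)] [IsPrincipalIdealRing (Q P)] (x : Q P) :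
    Ideal.absNorm (Ideal.span {x}) = (Q.nm x).natAbs := by
  rw [Ideal.absNorm_span_singleton, Pid.norm_eq S]
theorem Setup.nm_mul (x y : Q P) : Q.nm (x * y) = Q.nm x * Q.nm y := Pid.nm_mul S x y
theorem Setup.isUnit_iff (x : Q P) : IsUnit x ↔ (Q.nm x).natAbs = 1 := by
  rw [← Int.isUnit_iff_natAbs_eq]
  refine ⟨fun h => Pid.norm_eq S x ▸ h.map (Algebra.norm ℤ), fun h => ?_⟩
  exact isUnit_of_mul_isUnit_left (Q.mul_adj x ▸ h.map (Int.castRingHom (Q P)) :
    IsUnit (x * Q.adj x))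
theorem Setup.prime_of_nm [IsDomain (Q P)] [IsPrincipalIdealRing (Q P)] (x : Q P)
    (h : (Q.nm x).natAbs.Prime) : Prime x := by
  refine Irreducible.prime ⟨fun hu => h.ne_one ((S.isUnit_iff x).1 hu), fun a b e => ?_⟩
  rw [e, S.nm_mul, Int.natAbs_mul] at h
  simpa only [S.isUnit_iff, Nat.isUnit_iff] using h.isUnit_or_isUnit rfl
theorem Setup.prime_of_nm_sq [IsDomain (Q P)] [IsPrincipalIdealRing (Q P)] (x : Q P) (p : ℕ)
    (hp : p.Prime) (h : (Q.nm x).natAbs = p ^ 2)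
    (hno : ∀ w h : ZMod p, ¬ Q.Rel P w h) : Prime x := by
  refine Irreducible.prime ⟨fun hu => ?_, fun a b e => ?_⟩
  · exact hp.ne_one (by simpa [h] using (S.isUnit_iff x).1 hu)
  · by_contra hn
    simp only [S.isUnit_iff, not_or] at hn
    rw [e, S.nm_mul, Int.natAbs_mul] at h
    have h1 := ((hp.mul_eq_prime_sq_iff hn.1 hn.2).1 h).1
    have ha : a ≠ 0 := by
      rintro rfl
      exact hp.ne_zero (by rw [← h1, ← Pid.norm_eq S, Algebra.norm_zero]; rfl)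
    obtain ⟨w, h, hr⟩ := Pid.sol_of_index _ hp ((Pid.index_span S ha).trans h1)
    exact hno w h hr
end

end Pool.Agent.Lib.MP_aed2da_nt
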