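import Pool.Agent.Lib.MP_aed2da_nt.FracB

/-!
Sums of three squares in the ring of integers of the field generated by the square roots of
two and three: the dyadic descent.
-/

namespace Pool.Agent.Lib.MP_aed2da_nt.Three

abbrev O : Type := Q P23

def ww : O := ⟨0, 1, 0, 0⟩
def hh : O := ⟨0, 0, 1, 0⟩

/-- the norm form of the cyclotomic ring of level twenty four -/
def N (x y : O) : O := x ^ 2 + hh * x * y + y ^ 2

lemma N_rot (x y : O) : N (-y) (x + hh * y) = N x y := by unfold N; ring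

lemma N_conj (x y : O) : N (x + hh * y) (-y) = N x y := by unfold N; ring

lemma N_mul (x y c d : O) :
    N (x * c - y * d) (x * d + y * c + hh * y * d) = N x y * N c d := by unfold N; ring

lemma N_smul (c x y : O) : N (c * x) (c * y) = c ^ 2 * N x y := by unfold N; ring

lemma s3_mul {x : O} (h : S3 x) (r : O) : S3 (r ^ 2 * x) := by
  obtain ⟨a, b, c, rfl⟩ := h
  exact ⟨r * a, r * b, r * c, by ring⟩

lemma s3_even (a x m : O) : S3 (a ^ 2 + N x (2 * m)) := by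
  have h1 : hh ^ 2 + (hh - ww) ^ 2 = 4 := by decide
  exact ⟨a, x + hh * m, (hh - ww) * m, by unfold N; linear_combination (-m ^ 2) * h1⟩

def go2 : ℕ → O → O → Bool
  | 0, _, _ => false
  | n + 1, x, y => Q.dvdZ 2 y || go2 n (-y) (x + hh * y)

lemma go2_sound (a : O) : ∀ (n : ℕ) (x y m k : O), go2 n x y = true →
    S3 (a ^ 2 + N (x + 2 * m) (y + 2 * k)) := by
  intro n
  induction n with
  | zero => intro x y m k h; simp [go2] at h
  | succ n ih =>
    intro x y m k h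
    rw [go2, Bool.or_eq_true] at h
    rcases h with h | h
    · obtain ⟨z, hz⟩ := (Q.dvdZ_iff 2 y).1 h
      have := s3_even a (x + 2 * m) (z + k)
      rwa [show 2 * (z + k) = y + 2 * k by rw [hz]; push_cast; ring] at this
    · have := ih _ _ (-k) (m + hh * k) h
      rw [← N_rot (x + 2 * m)]
      convert this using 3 <;> ring

def rp (a b c d : Fin 2) : O := ⟨(a : ℕ), (b : ℕ), (c : ℕ), (d : ℕ)⟩

lemma exists_rp (x : O) : ∃ (a b c d : Fin 2) (m : O), x = rp a b c d + 2 * m := by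
  have key : ∀ n : ℤ, ∃ (a : Fin 2) (m : ℤ), n = (a : ℕ) + 2 * m := fun n => by
    rcases Int.emod_two_eq_zero_or_one n with h | h
    · exact ⟨0, n / 2, by simp; omega⟩
    · exact ⟨1, n / 2, by simp; omega⟩
  obtain ⟨a, a', ha⟩ := key x.a
  obtain ⟨b, b', hb⟩ := key x.b
  obtain ⟨c, c', hc⟩ := key x.c
  obtain ⟨d, d', hd⟩ := key x.d
  refine ⟨a, b, c, d, ⟨a', b', c', d'⟩, ?_⟩
  ext <;> simp [rp, Q.mul_a, Q.mul_b, Q.mul_c, Q.mul_d, Q.mul, Q.mulAux, ha, hb, hc, hd]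

/-- divisibility by the square root of two -/
def dW (x : O) : Bool := Q.dvdZ 2 (ww * x)

lemma ww_sq : ww * ww = 2 := by decide

lemma dW_iff (x : O) : dW x = true ↔ ww ∣ x := by
  rw [dW, Q.dvdZ_iff]
  constructor
  · rintro ⟨z, hz⟩
    refine ⟨z, ?_⟩
    have h : (2 : O) * x = 2 * (ww * z) := by
      push_cast at hz
      linear_combination ww * hz - x * ww_sq
    ext
    · have := congrArg Q.a h
      simp only [two_mul, Q.add_a] at this; omega
    · have := congrArg Q.b h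
      simp only [two_mul, Q.add_b] at this; omega
    · have := congrArg Q.c h
      simp only [two_mul, Q.add_c] at this; omega
    · have := congrArg Q.d h
      simp only [two_mul, Q.add_d] at this; omega
  · rintro ⟨z, rfl⟩
    exact ⟨z, by push_cast; linear_combination z * ww_sq⟩

lemma chk2 : ∀ a b c d e f g h : Fin 2, go2 12 (rp a b c d) (rp e f g h) = true ∨
    (∀ i j k l : Fin 2, Q.dvdZ 2 (N (rp a b c d) (rp e f g h) - rp i j k l ^ 2) = false) ∨
    (dW (rp a b c d) = true ∧ dW (rp e f g h) = true ∧ ∀ i j k l : Fin 2,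
      dW (rp i j k l) = true →
        Q.dvdZ 4 (ww * (N (rp a b c d) (rp e f g h) - rp i j k l ^ 2)) = false) := by
  decide +kernel

lemma chk3 : ∀ i j k l : Fin 2, Q.dvdZ 2 (rp i j k l ^ 2) = true → dW (rp i j k l) = true := by
  decide +kernel

/-- the dyadic alternatives for an element represented by the big lattice -/
lemma dyadic (a x y t : O) (h : 2 ∣ a ^ 2 + N x y - t ^ 2) :
    S3 (a ^ 2 + N x y) ∨ (ww ∣ x ∧ ww ∣ y ∧ ¬ 2 * ww ∣ a ^ 2 + N x y - t ^ 2) := by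
  obtain ⟨a1, a2, a3, a4, m, rfl⟩ := exists_rp x
  obtain ⟨b1, b2, b3, b4, k, rfl⟩ := exists_rp y
  obtain ⟨i, j, r, l, s, hs⟩ := exists_rp (t - a)
  obtain rfl : t = a + rp i j r l + 2 * s := by linear_combination hs
  obtain ⟨z, hz⟩ := h
  rcases chk2 a1 a2 a3 a4 b1 b2 b3 b4 with H | H | ⟨H1, H2, H3⟩
  · exact Or.inl (go2_sound a _ _ _ _ _ H)
  · exfalso
    have := H i j r l
    rw [← Bool.not_eq_true, Q.dvdZ_iff] at this
    generalize rp a1 a2 a3 a4 = x at *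
    generalize rp b1 b2 b3 b4 = y at *
    generalize rp i j r l = d at *
    refine this ⟨z + a * d + 2 * a * s + 2 * d * s + 2 * s ^ 2 - (2 * x * m + hh * (x * k + y * m) +
      2 * y * k + 2 * N m k), ?_⟩
    unfold N at *
    push_cast
    linear_combination hz
  · right
    obtain ⟨x, hx⟩ := (dW_iff _).1 H1
    obtain ⟨y, hy⟩ := (dW_iff _).1 H2
    have h2 : ww ∣ 2 := ⟨ww, ww_sq.symm⟩
    refine ⟨dvd_add ⟨x, hx⟩ (h2.mul_right _), dvd_add ⟨y, hy⟩ (h2.mul_right _), ?_⟩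
    have hd : dW (rp i j r l) = true := by
      refine chk3 i j r l ((Q.dvdZ_iff _ _).2 ?_)
      rw [hx, hy] at hz
      generalize rp i j r l = d at *
      refine ⟨N (x + ww * m) (y + ww * k) - z - a * d - 2 * a * s - 2 * d * s - 2 * s ^ 2, ?_⟩
      unfold N at *
      push_cast
      linear_combination (exp := 1) -hz + (x ^ 2 + hh * x * y + y ^ 2 - 2 * m ^ 2 - 2 * hh * m * k -
        2 * k ^ 2) * ww_sq
    rintro ⟨u, hu⟩
    have := H3 i j r l hd
    rw [← Bool.not_eq_true, Q.dvdZ_iff] at this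
    obtain ⟨d, hd⟩ := (dW_iff _).1 hd
    rw [hx, hy, hd] at this hu
    refine this ⟨u + a * d + ww * a * s + 2 * d * s + ww * s ^ 2 - (2 * x * m + hh * (x * k + y * m) +
      2 * y * k + ww * N m k), ?_⟩
    unfold N at *
    push_cast
    linear_combination ww * hu + (2 * u + 2 * a * d + 4 * d * s - 4 * x * m -
      2 * hh * (x * k + y * m) - 4 * y * k) * ww_sq

def pp : O := ⟨1, 0, 1, 0⟩

def rho : O →+* ZMod 2 := Q.lift 0 1 ⟨by decide, by decide⟩

lemma pp_dvd {x : O} (h : rho x = 0) : pp ∣ x := by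
  have h1 : ((x.a + x.c : ℤ) : ZMod 2) = 0 := by
    have h0 : (x.a : ZMod 2) + x.b * 0 + x.c * 1 + x.d * (0 * 1) = 0 := h
    push_cast
    linear_combination h0
  obtain ⟨k, hk⟩ := (ZMod.intCast_zmod_eq_zero_iff_dvd _ 2).1 h1
  have e1 : ww = pp * ⟨1, 1, -1, 0⟩ := by decide
  have e2 : (2 : O) = pp * ⟨2, 1, 0, -1⟩ := by decide
  have e3 : pp = 1 + hh := by decide
  have e4 : x = x.a + x.b * ww + x.c * hh + x.d * (ww * hh) := Q.eq_comb x
  have e5 : (x.a : O) + x.c = 2 * k := by exact_mod_cast congrArg (Int.cast : ℤ → O) hk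
  refine ⟨(k - x.c) * ⟨2, 1, 0, -1⟩ + x.c + (x.b + x.d * hh) * ⟨1, 1, -1, 0⟩, ?_⟩
  linear_combination e4 + e5 + (k - x.c) * e2 + (x.b + x.d * hh) * e1 - x.c * e3

variable [IsDomain O]

lemma desc_aux {g a b c : O} (h : pp ^ 2 * g = a ^ 2 + b ^ 2 + c ^ 2) (ha : rho a = 0)
    (hb : rho b = rho c) : ∃ a x y, g = a ^ 2 + N x y := by
  obtain ⟨a, rfl⟩ := pp_dvd ha
  have r1 : rho hh = 1 := by decide
  obtain ⟨x, hx⟩ := pp_dvd (x := b - hh ^ 2 * c) (by simp [r1, hb])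
  have e2 : (2 : O) = pp * ⟨2, 1, 0, -1⟩ := by decide
  have e3 : hh ^ 2 * (4 - hh ^ 2) = 1 := by decide
  have h0 : pp ^ 2 ≠ 0 := by decide
  refine ⟨a, x, ⟨2, 1, 0, -1⟩ * hh * c, mul_left_cancel₀ h0 ?_⟩
  have := N_smul pp x (⟨2, 1, 0, -1⟩ * hh * c)
  rw [← hx, show pp * (⟨2, 1, 0, -1⟩ * hh * c) = 2 * hh * c by linear_combination (-hh * c) * e2]
    at this
  rw [h, mul_add, ← this]
  unfold N
  linear_combination (-c ^ 2) * e3

lemma desc {g : O} (h : S3 (pp ^ 2 * g)) : ∃ a x y, g = a ^ 2 + N x y := by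
  obtain ⟨a, b, c, h⟩ := h
  have h1 := congrArg rho h
  have r1 : rho pp = 0 := by decide
  simp only [map_mul, map_pow, map_add, r1] at h1
  have key : ∀ t u v w : ZMod 2, 0 ^ 2 * t = u ^ 2 + v ^ 2 + w ^ 2 →
      (u = 0 ∧ v = w) ∨ (v = 0 ∧ u = w) ∨ (w = 0 ∧ u = v) := by decide
  rcases key _ _ _ _ h1 with ⟨h2, h3⟩ | ⟨h2, h3⟩ | ⟨h2, h3⟩
  · exact desc_aux h h2 h3
  · exact desc_aux (b := a) (c := c) (by rw [h]; ring) h2 h3
  · exact desc_aux (b := a) (c := b) (by rw [h]; ring) h2 h3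

omit [IsDomain O] in
/-- two squares congruent modulo two whose difference is small -/
lemma s3_of_rep {g : O} (hr : ∃ a x y, g = a ^ 2 + N x y) (h : ∃ t, 2 * ww ∣ g - t ^ 2) :
    S3 g := by
  obtain ⟨a, x, y, rfl⟩ := hr
  obtain ⟨t, ht⟩ := h
  rcases dyadic a x y t ((dvd_mul_right 2 ww).trans ht) with h | ⟨-, -, h⟩
  · exact h
  · exact absurd ht h

lemma desc_pow : ∀ (k : ℕ) (g : O), Sq2 g → S3 ((pp ^ (k + 1)) ^ 2 * g) →
    ∃ a x y, g = a ^ 2 + N x y := by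
  intro k
  induction k with
  | zero => intro g _ h; exact desc (by simpa using h)
  | succ k ih =>
    intro g ⟨t, z, ht⟩ h
    have e : pp ^ 2 = ww * ⟨0, 1, 1, 1⟩ := by decide
    refine desc (s3_of_rep (ih _ ⟨pp * t, pp ^ 2 * z, by linear_combination pp ^ 2 * ht⟩
      (by convert h using 1; ring)) ⟨pp * t, ⟨0, 1, 1, 1⟩ * z, ?_⟩)
    linear_combination pp ^ 2 * ht + 2 * z * e

lemma rep_of_pow {g : O} {n : ℕ} (h2 : Sq2 g) (h : S3 ((2 : O) ^ (2 * n) * g)) :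
    ∃ a x y, g = a ^ 2 + N x y := by
  have e : pp ^ 4 = 2 * ⟨5, 2, 8, 5⟩ := by decide
  refine desc_pow (4 * n) g h2 ?_
  convert s3_mul h (pp * ⟨5, 2, 8, 5⟩ ^ n) using 1
  rw [pow_succ pp (4 * n), pow_mul pp 4 n, e]
  ring

omit [IsDomain O] in
/-- either three squares or the second lattice of the spinor genus -/
lemma alt {g : O} (h2 : Sq2 g) (hr : ∃ a x y, g = a ^ 2 + N x y) :
    S3 g ∨ ∃ a x y, g = a ^ 2 + 2 * N x y := by
  obtain ⟨a, x, y, rfl⟩ := hr
  obtain ⟨t, ht⟩ := h2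
  rcases dyadic a x y t ht with h | ⟨⟨x, rfl⟩, ⟨y, rfl⟩, -⟩
  · exact Or.inl h
  · exact Or.inr ⟨a, x, y, by rw [N_smul, sq ww, ww_sq]⟩

end Pool.Agent.Lib.MP_aed2da_nt.Three
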