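import Pool.Agent.Lib.MP_aed2da_nt.ThreeA

/-!
Sums of three squares in the ring of integers of the field generated by the square roots of
two and three: the neighbours of the second lattice at the primes above three and five.
-/

namespace Pool.Agent.Lib.MP_aed2da_nt.Three

/-- the data of an isometry from the second lattice to the sum of three squares -/
structure Iso (R : Type) where
  a1 : R
  b1 : R
  c1 : R
  a2 : R
  b2 : R
  c2 : R
  a3 : R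
  b3 : R
  c3 : R

def Iso.map {R S : Type} (f : R → S) (I : Iso R) : Iso S :=
  ⟨f I.a1, f I.b1, f I.c1, f I.a2, f I.b2, f I.c2, f I.a3, f I.b3, f I.c3⟩

def Iso.ok (I : Iso O) (q : O) : Prop :=
  I.a1 ^ 2 + I.a2 ^ 2 + I.a3 ^ 2 = q ^ 2 ∧ I.b1 ^ 2 + I.b2 ^ 2 + I.b3 ^ 2 = 2 * q ^ 2 ∧
  I.c1 ^ 2 + I.c2 ^ 2 + I.c3 ^ 2 = 2 * q ^ 2 ∧ I.a1 * I.b1 + I.a2 * I.b2 + I.a3 * I.b3 = 0 ∧
  I.a1 * I.c1 + I.a2 * I.c2 + I.a3 * I.c3 = 0 ∧
  I.b1 * I.c1 + I.b2 * I.c2 + I.b3 * I.c3 = hh * q ^ 2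

instance (I : Iso O) (q : O) : Decidable (I.ok q) := by unfold Iso.ok; infer_instance

lemma Iso.eq {I : Iso O} {q : O} (h : I.ok q) (a x y : O) :
    q ^ 2 * (a ^ 2 + 2 * N x y) = (I.a1 * a + I.b1 * x + I.c1 * y) ^ 2 +
      (I.a2 * a + I.b2 * x + I.c2 * y) ^ 2 + (I.a3 * a + I.b3 * x + I.c3 * y) ^ 2 := by
  obtain ⟨h1, h2, h3, h4, h5, h6⟩ := h
  unfold N
  linear_combination (-a ^ 2) * h1 - x ^ 2 * h2 - y ^ 2 * h3 - 2 * a * x * h4 - 2 * a * y * h5 -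
    2 * x * y * h6

section
variable {F : Type} [CommRing F] [DecidableEq F]

def go (J : Iso F) (h : F) : ℕ → F → F → F → Bool
  | 0, _, _, _ => false
  | n + 1, a, x, y => (J.a1 * a + J.b1 * x + J.c1 * y == 0 && J.a2 * a + J.b2 * x + J.c2 * y == 0 &&
      J.a3 * a + J.b3 * x + J.c3 * y == 0) || go J h n a (-y) (x + h * y)

/-- the twelfth power is one -/
def sqb (g : F) : Bool := (fun s : F => s * s * s == 1) ((fun s : F => s * s) (g * g))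

/-- the image under multiplication by `c + d z` is not zero -/
def G (h c d x y : F) : Prop := x * c - y * d ≠ 0 ∨ x * d + y * c + h * y * d ≠ 0

instance (h c d x y : F) : Decidable (G h c d x y) := by unfold G; infer_instance

lemma go_smul (J : Iso F) (h c a : F) : ∀ (n : ℕ) (x y : F), go J h n a x y = true →
    go J h n (c * a) (c * x) (c * y) = true := by
  intro n
  induction n with
  | zero => intro x y h; simp [go] at h
  | succ n ih =>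
    intro x y H
    simp only [go, Bool.or_eq_true, Bool.and_eq_true, beq_iff_eq] at H ⊢
    rcases H with ⟨⟨h1, h2⟩, h3⟩ | H
    · exact Or.inl ⟨⟨by linear_combination c * h1, by linear_combination c * h2⟩,
        by linear_combination c * h3⟩
    · right
      convert ih _ _ H using 2 <;> ring

lemma go_all (J : Iso F) (h : F) (hi : ∀ y : F, y ≠ 0 → ∃ z, y * z = 1)
    (hs : ∀ t : F, t ≠ 0 → sqb (t ^ 2) = true)
    (h0 : ∀ a : F, sqb (a * a + 2) = true → go J h 24 a 1 0 = true)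
    (h1 : ∀ a x : F, sqb (a * a + 2 * (x * x + h * x + 1)) = true → go J h 24 a x 1 = true)
    (a x y t : F) (hxy : x ≠ 0 ∨ y ≠ 0) (ht : t ≠ 0)
    (e : a ^ 2 + 2 * (x ^ 2 + h * x * y + y ^ 2) = t ^ 2) : go J h 24 a x y = true := by
  have hz : ∀ y z : F, y * z = 1 → z * t ≠ 0 := fun y z hz h =>
    ht (by linear_combination y * h - t * hz)
  by_cases hy : y = 0
  · obtain ⟨z, hz'⟩ := hi x (hxy.resolve_right (not_not.2 hy))
    subst hy
    have := go_smul J h x _ _ _ _ (h0 (z * a) (by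
      convert hs _ (hz _ _ hz') using 2
      linear_combination z ^ 2 * e - 2 * (x * z + 1) * hz'))
    rwa [← mul_assoc, hz', one_mul, mul_one, mul_zero] at this
  · obtain ⟨z, hz'⟩ := hi y hy
    have := go_smul J h y _ _ _ _ (h1 (z * a) (z * x) (by
      convert hs _ (hz _ _ hz') using 2
      linear_combination z ^ 2 * e - 2 * (y * z + 1 + h * x * z) * hz'))
    rwa [← mul_assoc, ← mul_assoc, hz', one_mul, one_mul, mul_one] at this

variable [IsDomain O] (φ : O →+* F) {q : O} (hker : ∀ x, φ x = 0 → q ∣ x) (hq : q ≠ 0)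
  {I : Iso O} (hI : I.ok q)
include hker hq hI

lemma go_sound (a : O) : ∀ (n : ℕ) (x y : O), go (I.map φ) (φ hh) n (φ a) (φ x) (φ y) = true →
    S3 (a ^ 2 + 2 * N x y) := by
  intro n
  induction n with
  | zero => intro x y h; simp [go] at h
  | succ n ih =>
    intro x y h
    rw [go, Bool.or_eq_true] at h
    rcases h with h | h
    · simp only [Bool.and_eq_true, beq_iff_eq, Iso.map, ← map_mul, ← map_add] at h
      obtain ⟨⟨h1, h2⟩, h3⟩ := h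
      obtain ⟨u, hu⟩ := hker _ h1
      obtain ⟨v, hv⟩ := hker _ h2
      obtain ⟨w, hw⟩ := hker _ h3
      refine ⟨u, v, w, mul_left_cancel₀ (pow_ne_zero 2 hq) ?_⟩
      rw [Iso.eq hI, hu, hv, hw]
      ring
    · rw [← N_rot]
      exact ih _ _ (by simpa using h)

omit hker hq hI [IsDomain O] [DecidableEq F] in
lemma up {c d : O} (hcd : N c d = q ^ 2)
    (hG : ∀ x y : F, G (φ hh) (φ c) (φ d) x y →
      G (φ hh) (φ c) (φ d) (x * φ c - y * φ d) (x * φ d + y * φ c + φ hh * y * φ d))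
    (m : ℕ) (x y : O) (h : G (φ hh) (φ c) (φ d) (φ x) (φ y)) :
    ∃ x' y', N x' y' = (q ^ m) ^ 2 * N x y ∧ G (φ hh) (φ c) (φ d) (φ x') (φ y') := by
  induction m with
  | zero => exact ⟨x, y, by simp, h⟩
  | succ m ih =>
    obtain ⟨x', y', h1, h2⟩ := ih
    exact ⟨_, _, by rw [N_mul x' y' c d, h1, hcd]; ring, by simpa using hG _ _ h2⟩

theorem split [WfDvdMonoid O] (hu : ¬ IsUnit q) {c d : O} (hcd : N c d = q ^ 2)
    (hG : ∀ x y : F, G (φ hh) (φ c) (φ d) x y →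
      G (φ hh) (φ c) (φ d) (x * φ c - y * φ d) (x * φ d + y * φ c + φ hh * y * φ d))
    (hG' : ∀ x y : F, x ≠ 0 ∨ y ≠ 0 → G (φ hh) (φ c) (φ d) x y ∨
      G (φ hh) (φ c) (φ d) (x + φ hh * y) (-y))
    (hgo : ∀ a x y t : F, x ≠ 0 ∨ y ≠ 0 → t ≠ 0 →
      a ^ 2 + 2 * (x ^ 2 + φ hh * x * y + y ^ 2) = t ^ 2 → go (I.map φ) (φ hh) 24 a x y = true)
    (hq0 : φ q = 0) (a x y t : O) (ht : ¬ q ∣ t) (h : q ∣ a ^ 2 + 2 * N x y - t ^ 2) :
    S3 (a ^ 2 + 2 * N x y) := by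
  by_cases h0 : x = 0 ∧ y = 0
  · exact ⟨a, 0, 0, by simp [h0.1, h0.2, N]⟩
  have hex : ∃ n : ℕ, ¬ (q ^ (n + 1) ∣ x ∧ q ^ (n + 1) ∣ y) := by
    rcases not_and_or.1 h0 with h1 | h1
    · obtain ⟨n, hn⟩ := FiniteMultiplicity.of_not_isUnit hu h1
      exact ⟨n, fun h => hn h.1⟩
    · obtain ⟨n, hn⟩ := FiniteMultiplicity.of_not_isUnit hu h1
      exact ⟨n, fun h => hn h.2⟩
  classical
  have h1 := Nat.find_spec hex
  have h2 : q ^ Nat.find hex ∣ x ∧ q ^ Nat.find hex ∣ y := by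
    rcases hm : Nat.find hex with _ | m
    · simp
    · exact not_not.1 (Nat.find_min hex (hm ▸ Nat.lt_succ_self m))
  generalize Nat.find hex = m at h1 h2
  obtain ⟨⟨x, rfl⟩, ⟨y, rfl⟩⟩ := h2
  have h3 : φ x ≠ 0 ∨ φ y ≠ 0 := by
    by_contra! h4
    exact h1 ⟨by rw [pow_succ]; exact mul_dvd_mul_left _ (hker _ h4.1),
      by rw [pow_succ]; exact mul_dvd_mul_left _ (hker _ h4.2)⟩
  obtain ⟨x', y', h4, h5⟩ : ∃ x' y', N x' y' = (q ^ m) ^ 2 * N x y ∧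
      G (φ hh) (φ c) (φ d) (φ x') (φ y') := by
    rcases hG' _ _ h3 with h4 | h4
    · exact up φ hcd hG m x y h4
    · rw [← N_conj]
      exact up φ hcd hG m _ _ (by simpa using h4)
  rw [N_smul, ← h4] at h ⊢
  refine go_sound φ hker hq hI a 24 x' y' (hgo _ _ _ (φ t) ?_ (fun h => ht (hker _ h)) ?_)
  · by_contra! h6
    simp [G, h6.1, h6.2] at h5
  · obtain ⟨z, hz⟩ := h
    have h6 := congrArg φ hz
    simp only [N, map_sub, map_add, map_mul, map_pow, map_ofNat, hq0] at h6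
    linear_combination h6

end

abbrev F (p : ℕ) : Type := QuadraticAlgebra (ZMod p) 2 0

lemma ker_ph {p : ℕ} {u v : ℤ} (H : Q.Rel P23 (⟨0, 1⟩ : F p) ⟨u, v⟩) {q e e' : O}
    (h1 : (p : O) = q * e) (h2 : hh - u - v * ww = q * e') (x : O)
    (h : Q.lift (P := P23) _ _ H x = 0) : q ∣ x := by
  have h3 : ((x.a + x.c * u + 2 * x.d * v : ℤ) : ZMod p) = 0 := by
    have := congrArg QuadraticAlgebra.re h
    rw [Q.lift_apply] at this
    simp at this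
    push_cast
    linear_combination this
  have h4 : ((x.b + x.c * v + x.d * u : ℤ) : ZMod p) = 0 := by
    have := congrArg QuadraticAlgebra.im h
    rw [Q.lift_apply] at this
    simp at this
    push_cast
    linear_combination this
  obtain ⟨k, hk⟩ := (ZMod.intCast_zmod_eq_zero_iff_dvd _ p).1 h3
  obtain ⟨l, hl⟩ := (ZMod.intCast_zmod_eq_zero_iff_dvd _ p).1 h4
  have e4 : x = x.a + x.b * ww + x.c * hh + x.d * (ww * hh) := Q.eq_comb x
  have e5 : (x.a : O) + x.c * u + 2 * x.d * v = p * k := by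
    exact_mod_cast congrArg (Int.cast : ℤ → O) hk
  have e6 : (x.b : O) + x.c * v + x.d * u = p * l := by
    exact_mod_cast congrArg (Int.cast : ℤ → O) hl
  refine ⟨e * (k + l * ww) + e' * (x.c + x.d * ww), ?_⟩
  linear_combination e4 + e5 + ww * e6 + (k + l * ww) * h1 + (x.c + x.d * ww) * h2 +
    x.d * v * ww_sq

lemma all_F {p : ℕ} {A : F p → Prop} (h : ∀ a b : ZMod p, A ⟨a, b⟩) (x : F p) : A x :=
  h x.re x.im

def q3 : O := ⟨-1, 0, 0, 1⟩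
def q5 : O := ⟨1, -1, 2, 0⟩
def q6 : O := ⟨1, 1, -2, 0⟩
def I3 : Iso O := ⟨⟨-1, 0, 0, 0⟩, ⟨-2, 0, 0, 0⟩, ⟨0, 0, -1, 0⟩, ⟨-1, 0, 0, 0⟩, ⟨1, 0, 0, 0⟩,
  ⟨0, 1, 0, 0⟩, ⟨1, 0, 0, 0⟩, ⟨-1, 0, 0, 0⟩, ⟨0, 1, -1, 0⟩⟩
def I5 : Iso O := ⟨⟨-1, 0, 0, 0⟩, ⟨-2, 1, -2, 0⟩, ⟨0, 0, -1, -1⟩, ⟨-1, 1, 0, 1⟩, ⟨1, 0, 0, -1⟩,
  ⟨0, -1, 0, 0⟩, ⟨-1, 0, 0, 0⟩, ⟨-1, 0, 0, 0⟩, ⟨-2, 1, -1, 1⟩⟩
def I6 : Iso O := ⟨⟨-1, 0, 0, 0⟩, ⟨-2, -1, 2, 0⟩, ⟨0, 0, -1, 1⟩, ⟨-1, -1, 0, 1⟩, ⟨1, 0, 0, -1⟩,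
  ⟨0, -1, 0, 0⟩, ⟨-1, 0, 0, 0⟩, ⟨-1, 0, 0, 0⟩, ⟨2, 1, -1, -1⟩⟩

lemma rel3 : Q.Rel P23 (⟨0, 1⟩ : F 3) ⟨((0 : ℤ) : ZMod 3), ((2 : ℤ) : ZMod 3)⟩ :=
  ⟨by decide, by decide⟩
lemma rel5 : Q.Rel P23 (⟨0, 1⟩ : F 5) ⟨((2 : ℤ) : ZMod 5), ((3 : ℤ) : ZMod 5)⟩ :=
  ⟨by decide, by decide⟩
lemma rel6 : Q.Rel P23 (⟨0, 1⟩ : F 5) ⟨((3 : ℤ) : ZMod 5), ((3 : ℤ) : ZMod 5)⟩ :=
  ⟨by decide, by decide⟩


def f3 : O →+* F 3 := Q.lift _ _ rel3

theorem split3 [IsDomain O] [WfDvdMonoid O] (a x y t : O)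
    (h : q3 ^ 2 ∣ a ^ 2 + 2 * N x y - t ^ 2) (ht : ¬ q3 ∣ t) : S3 (a ^ 2 + 2 * N x y) := by
  have : Nontrivial (F 3) := ⟨⟨0, 1, by decide⟩⟩
  refine split f3 (ker_ph rel3 (e := ⟨-1, 0, 0, 1⟩) (e' := ⟨0, 1, -1, 0⟩) (by decide) (by decide))
    (by decide) (I := I3) (by decide) (fun hu => ?_) (c := ⟨-1, -1, 0, -1⟩) (d := ⟨0, 0, 2, 0⟩) (by decide)
    (all_F fun a b => all_F fun c d => ?_) (all_F fun a b => all_F fun c d => ?_)
    (go_all _ _ (all_F fun a b => ?_) (all_F ?_) (all_F ?_) (all_F fun a b => all_F fun c d => ?_))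
    (by decide +kernel) a x y t ht ((dvd_pow_self _ two_ne_zero).trans h)
  · exact absurd (hu.map f3) (by
      rw [show f3 q3 = 0 by decide +kernel]; exact not_isUnit_zero)
  · revert a b c d; decide +kernel
  · revert a b c d; decide +kernel
  · intro h
    obtain ⟨c, d, h⟩ := (by decide +kernel : ∀ a b : ZMod 3, (⟨a, b⟩ : F 3) ≠ 0 →
      ∃ c d : ZMod 3, (⟨a, b⟩ : F 3) * ⟨c, d⟩ = 1) a b h
    exact ⟨_, h⟩
  · decide +kernel
  · decide +kernel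
  · revert a b c d; decide +kernel

def f5 : O →+* F 5 := Q.lift _ _ rel5

theorem split5 [IsDomain O] [WfDvdMonoid O] (a x y t : O)
    (h : q5 ^ 2 ∣ a ^ 2 + 2 * N x y - t ^ 2) (ht : ¬ q5 ∣ t) : S3 (a ^ 2 + 2 * N x y) := by
  have : Nontrivial (F 5) := ⟨⟨0, 1, by decide⟩⟩
  refine split f5 (ker_ph rel5 (e := ⟨-1, -1, 2, 0⟩) (e' := ⟨2, 1, -1, -1⟩) (by decide) (by decide))
    (by decide) (I := I5) (by decide) (fun hu => ?_) (c := ⟨-1, 0, -2, 1⟩) (d := ⟨0, 0, 0, 2⟩) (by decide)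
    (all_F fun a b => all_F fun c d => ?_) (all_F fun a b => all_F fun c d => ?_)
    (go_all _ _ (all_F fun a b => ?_) (all_F ?_) (all_F ?_) (all_F fun a b => all_F fun c d => ?_))
    (by decide +kernel) a x y t ht ((dvd_pow_self _ two_ne_zero).trans h)
  · exact absurd (hu.map f5) (by
      rw [show f5 q5 = 0 by decide +kernel]; exact not_isUnit_zero)
  · revert a b c d; decide +kernel
  · revert a b c d; decide +kernel
  · intro h
    obtain ⟨c, d, h⟩ := (by decide +kernel : ∀ a b : ZMod 5, (⟨a, b⟩ : F 5) ≠ 0 →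
      ∃ c d : ZMod 5, (⟨a, b⟩ : F 5) * ⟨c, d⟩ = 1) a b h
    exact ⟨_, h⟩
  · decide +kernel
  · decide +kernel
  · revert a b c d; decide +kernel

def f6 : O →+* F 5 := Q.lift _ _ rel6

theorem split6 [IsDomain O] [WfDvdMonoid O] (a x y t : O)
    (h : q6 ^ 2 ∣ a ^ 2 + 2 * N x y - t ^ 2) (ht : ¬ q6 ∣ t) : S3 (a ^ 2 + 2 * N x y) := by
  have : Nontrivial (F 5) := ⟨⟨0, 1, by decide⟩⟩
  refine split f6 (ker_ph rel6 (e := ⟨-1, 1, -2, 0⟩) (e' := ⟨-1, 0, 1, 1⟩) (by decide) (by decide))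
    (by decide) (I := I6) (by decide) (fun hu => ?_) (c := ⟨-1, 0, 2, 1⟩) (d := ⟨0, 0, 0, -2⟩) (by decide)
    (all_F fun a b => all_F fun c d => ?_) (all_F fun a b => all_F fun c d => ?_)
    (go_all _ _ (all_F fun a b => ?_) (all_F ?_) (all_F ?_) (all_F fun a b => all_F fun c d => ?_))
    (by decide +kernel) a x y t ht ((dvd_pow_self _ two_ne_zero).trans h)
  · exact absurd (hu.map f6) (by
      rw [show f6 q6 = 0 by decide +kernel]; exact not_isUnit_zero)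
  · revert a b c d; decide +kernel
  · revert a b c d; decide +kernel
  · intro h
    obtain ⟨c, d, h⟩ := (by decide +kernel : ∀ a b : ZMod 5, (⟨a, b⟩ : F 5) ≠ 0 →
      ∃ c d : ZMod 5, (⟨a, b⟩ : F 5) * ⟨c, d⟩ = 1) a b h
    exact ⟨_, h⟩
  · decide +kernel
  · decide +kernel
  · revert a b c d; decide +kernel

end Pool.Agent.Lib.MP_aed2da_nt.Three
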