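import Pool.Agent.Lib.MP_aed2da_nt.Frac

/-!
The three squares theorem in the field for elements exactly divisible by the prime above two.
-/

open NumberField

namespace Pool.Agent.Lib.MP_aed2da_nt

open Genus

section
variable {K : Type*} [Field K] [NumberField K] [IsTotallyReal K] [IsPrincipalIdealRing (𝓞 K)]

/-- supplementary law for the prime above two -/
theorem suppl (p π T M : 𝓞 K) (hp : Prime p) (hp2 : ¬ p ∣ 2) (hpos : TotPos (p : K))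
    (hπ : Prime π) (hπ2 : ∀ k, Prime k → k ∣ 2 → k ∣ π) (hπ2' : π ∣ 2)
    (hun : ∀ w : (𝓞 K)ˣ, ∃ r : 𝓞 K, p ∣ w - r ^ 2) (e : p = T ^ 2 + 4 * π * M) :
    ∃ r : 𝓞 K, p ∣ π - r ^ 2 := by
  have hTo : ¬ π ∣ T := fun h => hp2 (((hπ.dvd_prime_iff_associated hp).mp (by
    rw [e]
    exact dvd_add (dvd_pow h two_ne_zero) ⟨4 * M, by ring⟩)).symm.dvd.trans hπ2')
  obtain ⟨k, hk⟩ : ∃ k, ¬ π ∣ M - k * T := by
    by_cases h : π ∣ M
    · exact ⟨1, fun h' => hTo (by simpa using dvd_sub h h')⟩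
    · exact ⟨0, by simpa using h⟩
  obtain ⟨T, M, e, hM, hT⟩ : ∃ T M : 𝓞 K, p = T ^ 2 + 4 * π * M ∧ ¬ π ∣ M ∧ ¬ p ∣ T := by
    by_cases h : p ∣ T + 2 * π * k
    · refine ⟨T + 2 * π * (k + π), M - (k + π) * T - π * (k + π) ^ 2, by rw [e]; ring,
        fun ⟨c, hc⟩ => hk ⟨c + T + (k + π) ^ 2, by linear_combination hc⟩, fun h' => ?_⟩
      have h1 := dvd_sub h' h
      rw [show T + 2 * π * (k + π) - (T + 2 * π * k) = 2 * π ^ 2 by ring] at h1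
      exact (hp.dvd_or_dvd h1).elim hp2 fun h2 => hp2 ((hp.dvd_of_dvd_pow h2).trans hπ2')
    · exact ⟨T + 2 * π * k, M - k * T - π * k ^ 2, by rw [e]; ring,
        fun ⟨c, hc⟩ => hk ⟨c + k ^ 2, by linear_combination hc⟩, h⟩
  have key : ∀ m : 𝓞 K, m ∣ M → IsSquare (Ideal.Quotient.mk (Ideal.span {p}) m) := by
    intro m
    induction m using UniqueFactorizationMonoid.induction_on_prime with
    | h₁ => intro _; simp
    | h₂ x hx => intro _; exact sq_mod_iff.mp (hun hx.unit)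
    | h₃ x q hx hq ih =>
      intro h
      have hqM : q ∣ M := (dvd_mul_right q x).trans h
      rw [map_mul]
      refine IsSquare.mul (sq_mod_iff.mp ?_) (ih ((dvd_mul_left x q).trans h))
      refine (recip_primary p q hp hq hp2 (fun h2 => hM (((hq.dvd_prime_iff_associated hπ).mp
        (hπ2 q hq h2)).symm.dvd.trans hqM)) (fun h2 => hT (hp.dvd_of_dvd_pow (n := 2) ?_)) hpos
        ⟨T, π * M, by rw [e]; ring⟩).mp ⟨T, ?_⟩
      · rw [show T ^ 2 = p - 4 * π * M by rw [e]; ring]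
        exact dvd_sub dvd_rfl ((h2.trans hqM).mul_left _)
      · rw [show p - T ^ 2 = 4 * π * M by rw [e]; ring]
        exact hqM.mul_left _
  have h0 : Ideal.span {p} ≠ ⊥ := by simpa using hp.ne_zero
  have := ((Ideal.span_singleton_prime hp.ne_zero).mpr hp).isMaximal h0
  let := Ideal.Quotient.field (Ideal.span {p})
  obtain ⟨m, hm⟩ := key M dvd_rfl
  obtain ⟨i, hi⟩ := sq_mod_iff.mp (hun (-1))
  have h1 : Ideal.Quotient.mk (Ideal.span {p}) p = 0 :=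
    Ideal.Quotient.eq_zero_iff_mem.mpr (Ideal.mem_span_singleton_self p)
  have h2 : Ideal.Quotient.mk (Ideal.span {p}) T ≠ 0 := fun h =>
    hT (Ideal.mem_span_singleton.mp (Ideal.Quotient.eq_zero_iff_mem.mp h))
  have h3 := congrArg (Ideal.Quotient.mk (Ideal.span {p})) e
  rw [h1] at h3
  simp only [Units.val_neg, Units.val_one, map_neg, map_one, map_add, map_mul, map_pow, map_ofNat,
    hm] at hi h3
  rw [sq_mod_iff]
  generalize Ideal.Quotient.mk (Ideal.span {p}) T = t at *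
  generalize Ideal.Quotient.mk (Ideal.span {p}) π = z at *
  have h4 : t ^ 2 = (2 * i * m) ^ 2 * z := by linear_combination -h3 + 4 * m ^ 2 * z * hi
  have h5 : 2 * i * m ≠ 0 := fun h => h2 (by simpa [h] using h4)
  exact ⟨t / (2 * i * m), by rw [div_mul_div_comm, eq_div_iff (mul_ne_zero h5 h5)]; linear_combination -h4⟩

open Classical in
/-- three squares in the field, for elements exactly divisible by the prime above two -/
theorem three_sq_ev {n : ℕ} (hn : Module.finrank ℚ K = n) (u : Fin n → (𝓞 K)ˣ)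
    {m : ℕ} (l : Fin m → 𝓞 K) (hl : ∀ i, Prime (l i) ∧ ¬ l i ∣ 2)
    (hc : ∀ i j, i ≠ j → ¬ l i ∣ l j)
    (hind : ∀ J : Finset (Fin n), J.Nonempty → ∃ i, ¬ ∃ r : 𝓞 K, l i ∣ (∏ j ∈ J, u j : (𝓞 K)ˣ) - r ^ 2)
    (hsep : ∀ I : Finset (Fin m), I.Nonempty → ∃ j,
      ¬ Even (I.filter (fun i => ¬ ∃ r : 𝓞 K, l i ∣ u j - r ^ 2)).card)
    (hcover : ∀ p : 𝓞 K, Prime p → ¬ p ∣ 2 → ∃ (w : (𝓞 K)ˣ) (I : Finset (Fin m)),
      TotPos ((p * (w * ∏ i ∈ I, l i) : 𝓞 K) : K) ∧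
        ∃ t : 𝓞 K, 4 ∣ p - w * (∏ i ∈ I, l i) * t ^ 2)
    {ι ι' : Type} [Fintype ι] [Finite ι'] (η κ : ι → 𝓞 K)
    (hU : ∀ v : (𝓞 K)ˣ, TotPos ((v : 𝓞 K) : K) → ∃ (i : ι) (w : 𝓞 K), (v : 𝓞 K) = η i * w ^ 2)
    (hκ0 : ∀ i, κ i ≠ 0) (hκ : ∀ i, IsCoprime (κ i) 2)
    (hκp : ∀ i j, i ≠ j → ∀ w : (𝓞 K)ˣ, ¬ TotPos ((w * (κ i * κ j) : 𝓞 K) : K))
    (s a : 𝓞 K) (hd : IsUnit (s ^ 2 + 4 * a)) (hdpos : TotPos ((-(s ^ 2 + 4 * a) : 𝓞 K) : K))
    (η' κ' : ι' → 𝓞 K)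
    (hη : ∀ i, ∃ (j : ι') (x y : 𝓞 K), η i = η' j * (x ^ 2 + s * x * y - a * y ^ 2))
    (hκ0' : ∀ i, κ' i ≠ 0)
    (hκ' : ∀ i k, Prime k → k ∣ κ' i → ¬ k ∣ 2 ∧ ∃ r : 𝓞 K, k ∣ s ^ 2 + 4 * a - r ^ 2)
    (hκp' : ∀ i j, i ≠ j → ∀ w : (𝓞 K)ˣ, ¬ TotPos ((w * (κ' i * κ' j) : 𝓞 K) : K))
    (hd2 : ∃ c₁ c₂ : K, ((-(s ^ 2 + 4 * a) : 𝓞 K) : K) = c₁ ^ 2 + c₂ ^ 2)
    (π : 𝓞 K) (hπ : Prime π) (hπ2 : ∀ k, Prime k → k ∣ 2 → k ∣ π) (hπ2' : π ∣ 2)
    (hres : ∀ x, π ∣ x ∨ π ∣ x - 1) (ha : π ∣ a - 1)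
    (β : 𝓞 K) (hβ : TotPos ((π * β : 𝓞 K) : K)) (hodd : IsCoprime β 2) :
    ∃ x y z : K, ((π * β : 𝓞 K) : K) = x ^ 2 + y ^ 2 + z ^ 2 := by
  have hβ0 : π * β ≠ 0 := fun h => TotPos.ne_zero hβ (by simp [h])
  obtain ⟨κ₀, hκ₀⟩ : ∃ κ₀, κ₀ = ∏ i, κ i := ⟨_, rfl⟩
  have hκ₀0 : κ₀ ≠ 0 := hκ₀ ▸ Finset.prod_ne_zero_iff.mpr fun i _ => hκ0 i
  have hκ₀2 : IsCoprime κ₀ 2 := hκ₀ ▸ IsCoprime.prod_left fun i _ => hκ i
  have hsq : ∀ x : 𝓞 K, IsSquare (x : K) → ∃ r, x = r * r := by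
    rintro x ⟨r, hr⟩
    have : IsIntegral ℤ r := IsIntegral.of_pow two_pos (by rw [sq, ← hr]; exact x.isIntegral_coe)
    exact ⟨⟨r, this⟩, RingOfIntegers.coe_injective hr⟩
  obtain ⟨S, hS1, hS2, hS3⟩ : ∃ S : Finset (𝓞 K), (∀ q ∈ S, Prime q) ∧
      (∀ q ∈ S, ∀ q' ∈ S, q ∣ q' → q = q') ∧
      ∀ k, Prime k → k ∣ π * β * κ₀ → ∃ q ∈ S, Associated k q := by
    let := (UniqueFactorizationMonoid.strongNormalizationMonoid : StrongNormalizationMonoid (𝓞 K))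
    refine ⟨(UniqueFactorizationMonoid.normalizedFactors (π * β * κ₀)).toFinset, fun q hq =>
      UniqueFactorizationMonoid.prime_of_normalized_factor q (Multiset.mem_toFinset.mp hq),
      fun q hq q' hq' h => UniqueFactorizationMonoid.normalizedFactors_eq_of_dvd _ q
        (Multiset.mem_toFinset.mp hq) q' (Multiset.mem_toFinset.mp hq') h, fun k hk h => ?_⟩
    obtain ⟨q, hq, e⟩ := UniqueFactorizationMonoid.exists_mem_normalizedFactors_of_dvd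
      (mul_ne_zero hβ0 hκ₀0) hk.irreducible h
    exact ⟨q, Multiset.mem_toFinset.mpr hq, e⟩
  obtain ⟨P, hP, -, hP2, hPd⟩ := exists_prime_prescribed
    (Sum.elim (fun j => (u j : 𝓞 K)) (fun q : S => q.1))
    (Sum.elim (fun _ => True) fun q : S => ¬ q.1 ∣ 2 ∧ ∃ r : 𝓞 K, q.1 ∣ s ^ 2 + 4 * a - r ^ 2) (by
      intro J hJ h
      obtain ⟨r, hr⟩ := hsq _ h
      rw [Finset.prod_sum_eq_prod_toLeft_mul_prod_toRight] at hr
      simp only [Sum.elim_inl, Sum.elim_inr, ← Units.coe_prod] at hr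
      rcases J.toRight.eq_empty_or_nonempty with h0 | ⟨q, hq⟩
      · obtain ⟨i, hi⟩ := hind J.toLeft (by
          obtain ⟨j | j, hj⟩ := hJ
          · exact ⟨j, by simpa using hj⟩
          · exact absurd (Finset.mem_toRight.mpr hj) (by simp [h0]))
        rw [h0, Finset.prod_empty, mul_one] at hr
        exact hi ⟨r, by rw [hr, sq, sub_self]; exact dvd_zero _⟩
      · have hq1 := hS1 q.1 q.2
        rw [← Finset.mul_prod_erase _ _ hq, mul_left_comm] at hr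
        obtain ⟨t, rfl⟩ : q.1 ∣ r := by simpa using hq1.dvd_or_dvd ⟨_, hr.symm⟩
        have h1 := mul_left_cancel₀ hq1.ne_zero (hr.trans (mul_assoc _ _ _))
        obtain ⟨q', hq', h2⟩ := (hq1.dvd_finsetProd_iff _).mp
          (Units.dvd_mul_left.mp (h1 ▸ (dvd_mul_right q.1 t).mul_left t))
        exact (Finset.mem_erase.mp hq').1 (Subtype.ext (hS2 _ q.2 _ q'.2 h2).symm)) ∅
  obtain ⟨p', rfl⟩ : ∃ p', P = Ideal.span {p'} := (IsPrincipalIdealRing.principal P).principal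
  simp only [Ideal.mem_span_singleton] at hP2 hPd
  have hp'0 : p' ≠ 0 := fun h => Ring.ne_bot_of_isMaximal_of_not_isField hP
    (RingOfIntegers.not_isField K) (by simp [h])
  have hp' : Prime p' := (Ideal.span_singleton_prime hp'0).mp hP.isPrime
  obtain ⟨w, I, hpos, t, ht⟩ := hcover p' hp' hP2
  obtain rfl : I = ∅ := by
    by_contra hI
    obtain ⟨j, hj⟩ := hsep I (Finset.nonempty_iff_ne_empty.mpr hI)
    exact hj ((unit_symbol (u j) w p' hp' hP2 I l (fun i _ => hl i) (fun i _ j _ => hc i j) hpos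
      ⟨t, ht⟩).mp ((hPd (Sum.inl j)).2.mpr trivial))
  rw [Finset.prod_empty, mul_one] at hpos ht
  obtain ⟨c, hc4⟩ := ht
  have hpp : Associated p' (p' * w) := ⟨w, rfl⟩
  have hT : p' * w = (w * t) ^ 2 + 4 * (w * c) := by linear_combination (w : 𝓞 K) * hc4
  simp only [hpp.dvd_iff_dvd_left] at hP2 hPd
  have hp := hpp.prime hp'
  generalize p' * w = p at *
  generalize (w : 𝓞 K) * t = T at *
  generalize (w : 𝓞 K) * c = M at *
  have hω : (s * T) ^ 2 + 4 * (a * T ^ 2 + M * (s ^ 2 + 4 * a)) = (s ^ 2 + 4 * a) * p := by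
    rw [hT]; ring
  have hsplit : ∀ k, Prime k → k ∣ β * κ₀ → ¬ k ∣ 2 ∧ ∃ r : 𝓞 K,
      k ∣ (s * T) ^ 2 + 4 * (a * T ^ 2 + M * (s ^ 2 + 4 * a)) - r ^ 2 := by
    intro k hk h
    have hk2 : ¬ k ∣ 2 := fun h2 => by
      rcases hk.dvd_or_dvd h with h | h
      · exact hk.not_isUnit (hodd.isUnit_of_dvd' h h2)
      · exact hk.not_isUnit (hκ₀2.isUnit_of_dvd' h h2)
    obtain ⟨q, hq, e⟩ := hS3 k hk (by rw [mul_assoc]; exact h.mul_left π)
    simp only [e.dvd_iff_dvd_left] at hk2 ⊢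
    refine ⟨hk2, hω ▸ sq_mod_mul (hS1 q hq) ?_⟩
    rw [recip_primary p q hp (hS1 q hq) hP2 hk2 (hPd (Sum.inr ⟨q, hq⟩)).1 hpos
      ⟨T, M, by rw [hT]; ring⟩]
    exact ((hPd (Sum.inr ⟨q, hq⟩)).2.trans (and_iff_right hk2)).symm
  have hun : ∀ w : (𝓞 K)ˣ, ∃ r : 𝓞 K, p ∣ w - r ^ 2 := by
    intro w
    obtain ⟨J, z, e⟩ := units_mod_squares hn u (fun J hJ ⟨r, hr⟩ => by
      obtain ⟨i, hi⟩ := hind J hJ
      exact hi ⟨r, by rw [hr, sq]; simp⟩) w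
    rw [e, sq_mod_iff, Units.val_mul, Units.val_pow_eq_pow_val, Units.coe_prod,
      map_mul, map_pow, map_prod]
    exact (IsSquare.sq _).mul (Finset.prod_induction _ _ (fun _ _ => IsSquare.mul) IsSquare.one
      fun j _ => sq_mod_iff.mp ((hPd (Sum.inl j)).2.mpr trivial))
  have hM : ¬ π ∣ M := by
    rintro ⟨M, rfl⟩
    have h1 := suppl p π T M hp hP2 hpos hπ hπ2 hπ2' hun (by rw [hT]; ring)
    obtain ⟨q, hq, v, e⟩ := hS3 π hπ (by rw [mul_assoc]; exact dvd_mul_right _ _)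
    refine ((hPd (Sum.inr ⟨q, hq⟩)).2.mp ?_).1 ?_
    · have h2 := hun v
      rw [sq_mod_iff] at h1 h2
      change ∃ r : 𝓞 K, p ∣ q - r ^ 2
      rw [sq_mod_iff, ← e, map_mul]
      exact h1.mul h2
    · change q ∣ 2
      rw [← e]
      exact Units.mul_right_dvd.mpr hπ2'
  have hTo : ¬ π ∣ T := fun h => hP2 (((hπ.dvd_prime_iff_associated hp).mp (by
    rw [hT]
    exact dvd_add (dvd_pow h two_ne_zero)
      ((hπ2'.trans ⟨2, by norm_num⟩).mul_right _))).symm.dvd.trans hπ2')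
  have hDo : ¬ π ∣ s ^ 2 + 4 * a := fun h => hπ.not_isUnit (isUnit_of_dvd_unit h hd)
  have hso : ¬ π ∣ s := fun h => hDo (dvd_add (dvd_pow h two_ne_zero)
    ((hπ2'.trans ⟨2, by norm_num⟩).mul_right _))
  obtain ⟨x₀, N, hN, hN'⟩ : ∃ x₀ N, x₀ ^ 2 + s * T * x₀ - (a * T ^ 2 + M * (s ^ 2 + 4 * a)) = π * N ∧
      ¬ π ∣ N := by
    obtain ⟨a1, e1⟩ := ha
    obtain ⟨T1, e2⟩ := (hres T).resolve_left hTo
    obtain ⟨M1, e3⟩ := (hres M).resolve_left hM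
    obtain ⟨D1, e4⟩ := (hres _).resolve_left hDo
    obtain ⟨c2, e5⟩ := hπ2'
    obtain ⟨A, hA⟩ : π ∣ a * T ^ 2 + M * (s ^ 2 + 4 * a) :=
      ⟨a1 * T ^ 2 + T1 * (T + 1) + M1 * (s ^ 2 + 4 * a) + D1 + c2, by
        linear_combination T ^ 2 * e1 + (T + 1) * e2 + (s ^ 2 + 4 * a) * e3 + e4 + e5⟩
    by_cases h : π ∣ A
    · refine ⟨π, π + s * T - A, by rw [hA]; ring, fun h' => ?_⟩
      have := dvd_sub (dvd_add h' h) (dvd_refl π)
      rw [show π + s * T - A + A - π = s * T by ring] at this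
      exact (hπ.dvd_or_dvd this).elim hso hTo
    · exact ⟨0, -A, by rw [hA]; ring, by rwa [dvd_neg]⟩
  have hN0 : ((N : 𝓞 K) : K) ≠ 0 := by
    intro h
    exact hN' (by rw [show N = 0 by exact_mod_cast h]; exact dvd_zero _)
  have hNp : TotPos ((N * β : 𝓞 K) : K) := by
    have h1 : TotPos ((π * N : 𝓞 K) : K) := fun σ => by
      have h2 := TotPos.mul hdpos hpos σ
      have h3 : (4 : 𝓞 K) * (π * N) = (2 * x₀ + s * T) ^ 2 + -(s ^ 2 + 4 * a) * p := by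
        linear_combination (-4) * hN - hω
      have h4 := congrArg (fun x : 𝓞 K => σ (x : K)) h3
      simp only [RingOfIntegers.coe_eq_algebraMap, map_mul, map_add, map_pow, map_ofNat] at h2 h4 ⊢
      nlinarith [sq_nonneg (2 * σ (algebraMap (𝓞 K) K x₀) +
        σ (algebraMap (𝓞 K) K s) * σ (algebraMap (𝓞 K) K T))]
    refine TotPos.of_mul (y := ((π : 𝓞 K) : K) ^ 2) ?_ ?_ (TotPos.mul h1 hβ)
    · simp only [RingOfIntegers.coe_eq_algebraMap, map_mul]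
      ring
    · intro σ
      rw [map_pow]
      exact sq_pos_of_ne_zero ((map_ne_zero σ).mpr (by simpa using hπ.ne_zero))
  obtain ⟨x, y, h1⟩ := norm_form_gen (s * T) (a * T ^ 2 + M * (s ^ 2 + 4 * a))
    (Or.inl (hω ▸ (associated_unit_mul_right p _ hd).prime hp))
    (by rw [hω, ← neg_mul]; simpa using TotPos.mul hdpos hpos) η κ
    (fun v hv => by
      obtain ⟨i, w, h⟩ := hU v hv
      exact ⟨i, w, 0, by rw [h]; ring⟩) hκ0
    (fun i k hk h => hsplit k hk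
      ((h.trans (hκ₀ ▸ Finset.dvd_prod_of_mem κ (Finset.mem_univ i))).mul_left β)) hκp
    (-(s ^ 2 + 4 * a) * (N * β)) (by simpa using TotPos.mul hdpos hNp)
    fun k hk h => by
      rcases hk.dvd_or_dvd (hd.neg.dvd_mul_left.mp h) with h | h
      · refine ⟨fun h2 => hN' (((hk.dvd_prime_iff_associated hπ).mp
          (hπ2 k hk h2)).symm.dvd.trans h), 2 * x₀ + s * T, ?_⟩
        obtain ⟨c, rfl⟩ := h
        exact ⟨-4 * π * c, by linear_combination (-4) * hN⟩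
      · exact hsplit k hk (h.mul_right κ₀)
  obtain ⟨x, y, h1⟩ : ∃ x y : K, ((-(s ^ 2 + 4 * a) * (π * β) : 𝓞 K) : K) =
      x ^ 2 + (s * T : 𝓞 K) * x * y - (a * T ^ 2 + M * (s ^ 2 + 4 * a) : 𝓞 K) * y ^ 2 := by
    have h2 := congrArg (algebraMap (𝓞 K) K) hN
    generalize s * T = s' at *
    generalize a * T ^ 2 + M * (s ^ 2 + 4 * a) = a' at *
    generalize -(s ^ 2 + 4 * a) = D at *
    refine ⟨(x * x₀ + a' * y) / N, (x + y * x₀ + s' * y) / N, ?_⟩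
    simp only [RingOfIntegers.coe_eq_algebraMap, map_mul, map_add, map_sub, map_pow] at h1 h2 hN0 ⊢
    field_simp
    linear_combination algebraMap (𝓞 K) K π * algebraMap (𝓞 K) K N * h1 -
      (x ^ 2 + algebraMap (𝓞 K) K s' * x * y - algebraMap (𝓞 K) K a' * y ^ 2) * h2
  obtain ⟨x', y', h2⟩ := norm_form_gen s a (Or.inr hd) hdpos η' κ'
    (fun v hv => by
      obtain ⟨i, w, h⟩ := hU v hv
      obtain ⟨j, x, y, h'⟩ := hη i
      exact ⟨j, w * x, w * y, by rw [h, h']; ring⟩) hκ0' hκ' hκp' p hpos (by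
    intro k hk h
    simp only [((hk.dvd_prime_iff_associated hp).mp h).dvd_iff_dvd_left]
    refine ⟨hP2, ?_⟩
    obtain ⟨J, z, e⟩ := units_mod_squares hn u (fun J hJ ⟨r, hr⟩ => by
      obtain ⟨i, hi⟩ := hind J hJ
      exact hi ⟨r, by rw [hr, sq]; simp⟩) hd.unit
    rw [← hd.unit_spec, e, sq_mod_iff, Units.val_mul, Units.val_pow_eq_pow_val, Units.coe_prod,
      map_mul, map_pow, map_prod]
    exact (IsSquare.sq _).mul (Finset.prod_induction _ _ (fun _ _ => IsSquare.mul) IsSquare.one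
      fun j _ => sq_mod_iff.mp ((hPd (Sum.inl j)).2.mpr trivial)))
  obtain ⟨c₁, c₂, h3⟩ := hd2
  generalize π * β = β at *
  have h4 := TotPos.ne_zero hdpos
  have h5 := congrArg (algebraMap (𝓞 K) K) hT
  simp only [RingOfIntegers.coe_eq_algebraMap, map_mul, map_add, map_neg, map_pow, map_ofNat]
    at h1 h2 h3 h4 h5 ⊢
  generalize algebraMap (𝓞 K) K s = s at *
  generalize algebraMap (𝓞 K) K a = a at *
  obtain ⟨A, hA⟩ : ∃ A, x + s * algebraMap (𝓞 K) K T * y / 2 = -(s ^ 2 + 4 * a) * A :=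
    ⟨_, (mul_div_cancel₀ _ h4).symm⟩
  refine ⟨(x' + s * y' / 2) * (y / 2), c₁ * A - c₂ * (y' / 2 * (y / 2)),
    c₂ * A + c₁ * (y' / 2 * (y / 2)), mul_left_cancel₀ h4 ?_⟩
  rw [h1]
  linear_combination (x + s * algebraMap (𝓞 K) K T * y / 2 - (s ^ 2 + 4 * a) * A) * hA -
    (s ^ 2 + 4 * a) * (y / 2) ^ 2 * (h2 - h5) -
    (s ^ 2 + 4 * a) * (A ^ 2 + (y' / 2 * (y / 2)) ^ 2) * h3

end

namespace Frac

open Classical in
theorem three_sq_ring_ev {R : Type*} [CommRing R] [IsDomain R] [IsPrincipalIdealRing R]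
    {K : Type*} [Field K] [NumberField K] [IsTotallyReal K] (hn : Module.finrank ℚ K = 4)
    (e : R ≃+* 𝓞 K) (Pos : R → Prop) (hPos : ∀ x, TotPos ((e x : 𝓞 K) : K) ↔ Pos x)
    (u : Fin 4 → R) (hu : ∀ j, IsUnit (u j)) (l : Fin 4 → R)
    (hl : ∀ i, Prime (l i) ∧ ¬ l i ∣ 2) (hc : ∀ i j, i ≠ j → ¬ l i ∣ l j)
    (hind : ∀ J : Finset (Fin 4), J.Nonempty → ∃ i, ¬ ∃ r, l i ∣ ∏ j ∈ J, u j - r ^ 2)
    (hsep : ∀ I : Finset (Fin 4), I.Nonempty → ∃ j,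
      ¬ Even (I.filter (fun i => ¬ ∃ r, l i ∣ u j - r ^ 2)).card)
    (hcover : ∀ p : R, Prime p → ¬ p ∣ 2 → ∃ J I : Finset (Fin 4),
      Pos (p * ((∏ j ∈ J, u j) * ∏ i ∈ I, l i)) ∧
        ∃ t, 4 ∣ p - (∏ j ∈ J, u j) * (∏ i ∈ I, l i) * t ^ 2)
    {n1 n2 : ℕ} (E1 K1 : Fin n1 → Finset (Fin 4)) (E2 : Fin n2 → R)
    (K2 : Fin n2 → Finset (Fin 4))
    (hU : ∀ J : Finset (Fin 4), Pos (∏ j ∈ J, u j) → ∃ i, J = E1 i)
    (hκp : ∀ i j, i ≠ j → ∀ J : Finset (Fin 4),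
      ¬ Pos ((∏ j ∈ J, u j) * ((∏ k ∈ K1 i, l k) * ∏ k ∈ K1 j, l k)))
    (s a : R) (hd : IsUnit (s ^ 2 + 4 * a)) (hdpos : Pos (-(s ^ 2 + 4 * a)))
    (hη : ∀ i, ∃ j x y, ∏ k ∈ E1 i, u k = E2 j * (x ^ 2 + s * x * y - a * y ^ 2))
    (hK2 : ∀ i, ∀ k ∈ K2 i, ∃ r, l k ∣ s ^ 2 + 4 * a - r ^ 2)
    (hκp' : ∀ i j, i ≠ j → ∀ J : Finset (Fin 4),
      ¬ Pos ((∏ j ∈ J, u j) * ((∏ k ∈ K2 i, l k) * ∏ k ∈ K2 j, l k)))
    (c c₁ c₂ : R) (hc0 : c ≠ 0) (hd2 : c ^ 2 * -(s ^ 2 + 4 * a) = c₁ ^ 2 + c₂ ^ 2)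
    (π : R) (hπ : Prime π) (hπ2 : ∀ k, Prime k → k ∣ 2 → k ∣ π) (hπ2' : π ∣ 2)
    (hres : ∀ x, π ∣ x ∨ π ∣ x - 1) (ha : π ∣ a - 1)
    (β : R) (hβ : Pos (π * β)) (hodd : IsCoprime β 2) :
    ∃ t : R, t ≠ 0 ∧ S3 (t ^ 2 * (π * β)) := by
  have : IsPrincipalIdealRing (𝓞 K) :=
    IsPrincipalIdealRing.of_surjective e.toRingHom e.surjective
  have hdvd : ∀ x y : R, e x ∣ e y ↔ x ∣ y := fun x y => map_dvd_iff e
  have h2 : (2 : 𝓞 K) = e 2 := (map_ofNat e 2).symm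
  have h4 : (4 : 𝓞 K) = e 4 := (map_ofNat e 4).symm
  have hsq : ∀ k x : R, (∃ r : 𝓞 K, e k ∣ e x - r ^ 2) ↔ ∃ r, k ∣ x - r ^ 2 := by
    intro k x
    rw [e.surjective.exists]
    simp only [← map_pow, ← map_sub, hdvd]
  have hpr : ∀ x : R, Prime (e x) ↔ Prime x := fun x => MulEquiv.prime_iff e
  have hD : e s ^ 2 + 4 * e a = e (s ^ 2 + 4 * a) := by simp [h4]
  let v : Fin 4 → (𝓞 K)ˣ := fun j => ((hu j).map e).unit
  have hv : ∀ J : Finset (Fin 4), ((∏ j ∈ J, v j : (𝓞 K)ˣ) : 𝓞 K) = e (∏ j ∈ J, u j) := by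
    intro J
    rw [Units.coe_prod, map_prod]
    rfl
  have hind' : ∀ J : Finset (Fin 4), J.Nonempty → ∃ i,
      ¬ ∃ r : 𝓞 K, e (l i) ∣ (∏ j ∈ J, v j : (𝓞 K)ˣ) - r ^ 2 := by
    intro J hJ
    simpa only [hv, hsq] using hind J hJ
  have hun : ∀ (w : (𝓞 K)ˣ) (γ : R), TotPos ((w * e γ : 𝓞 K) : K) →
      ∃ (J : Finset (Fin 4)) (z : 𝓞 K), (w : 𝓞 K) = e (∏ j ∈ J, u j) * z ^ 2 ∧
        Pos ((∏ j ∈ J, u j) * γ) := by
    intro w γ h
    obtain ⟨J, z, hz⟩ := units_mod_squares hn v (fun J hJ ⟨r, hr⟩ => by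
      obtain ⟨i, hi⟩ := hind' J hJ
      exact hi ⟨r, by rw [hr, sq]; simp⟩) w
    have hw : (w : 𝓞 K) = e (∏ j ∈ J, u j) * (z : 𝓞 K) ^ 2 := by
      rw [hz, Units.val_mul, hv, Units.val_pow_eq_pow_val, mul_comm]
    refine ⟨J, z, hw, (hPos _).mp (TotPos.of_mul (y := ((z : 𝓞 K) : K) ^ 2) ?_ ?_ h)⟩
    · rw [hw]
      simp only [RingOfIntegers.coe_eq_algebraMap, map_mul, map_pow]
      ring
    · intro σ
      rw [map_pow]
      exact sq_pos_of_ne_zero ((map_ne_zero σ).mpr (by simp))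
  have hκ0 : ∀ I : Finset (Fin 4), e (∏ k ∈ I, l k) ≠ 0 := fun I =>
    (map_ne_zero_iff e e.injective).mpr (Finset.prod_ne_zero_iff.mpr fun k _ => (hl k).1.ne_zero)
  obtain ⟨x, y, z, h⟩ := three_sq_ev hn v (fun i => e (l i))
    (fun i => ⟨(hpr _).mpr (hl i).1, by rw [h2, hdvd]; exact (hl i).2⟩)
    (fun i j hij => by rw [hdvd]; exact hc i j hij) hind'
    (fun I hI => by
      obtain ⟨j, hj⟩ := hsep I hI
      refine ⟨j, ?_⟩
      have : ((v j : (𝓞 K)ˣ) : 𝓞 K) = e (u j) := rfl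
      simpa only [this, hsq] using hj)
    (fun p hp hp2 => by
      obtain ⟨p, rfl⟩ := e.surjective p
      rw [h2, hdvd] at hp2
      obtain ⟨J, I, h1, t, ht⟩ := hcover p ((hpr p).mp hp) hp2
      refine ⟨∏ j ∈ J, v j, I, ?_, e t, ?_⟩
      · rw [hv, ← map_prod, ← map_mul, ← map_mul, hPos]
        exact h1
      · rw [hv, ← map_prod, ← map_pow, ← map_mul, ← map_mul, ← map_sub, h4, hdvd]
        exact ht)
    (fun i => e (∏ k ∈ E1 i, u k)) (fun i => e (∏ k ∈ K1 i, l k))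
    (fun w hw => by
      obtain ⟨J, z, h1, h3⟩ := hun w 1 (by simpa using hw)
      obtain ⟨i, rfl⟩ := hU J (by simpa using h3)
      exact ⟨i, z, h1⟩)
    (fun i => hκ0 _)
    (fun i => by
      rw [h2]
      exact (IsCoprime.prod_left fun k _ =>
        (hl k).1.irreducible.coprime_iff_not_dvd.mpr (hl k).2).map e.toRingHom)
    (fun i j hij w hw => by
      rw [← map_mul] at hw
      obtain ⟨J, -, -, h3⟩ := hun w _ hw
      exact hκp i j hij J h3)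
    (e s) (e a) (hD ▸ hd.map e) (by rw [hD, ← map_neg, hPos]; exact hdpos)
    (fun j => e (E2 j)) (fun i => e (∏ k ∈ K2 i, l k))
    (fun i => by
      obtain ⟨j, x, y, h⟩ := hη i
      exact ⟨j, e x, e y, by rw [h]; simp⟩)
    (fun i => hκ0 _)
    (fun i k hk h => by
      obtain ⟨k, rfl⟩ := e.surjective k
      rw [hdvd] at h
      rw [hpr] at hk
      obtain ⟨j, hj, h⟩ := (hk.dvd_finsetProd_iff _).mp h
      have ha := (hk.dvd_prime_iff_associated (hl j).1).mp h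
      rw [h2, hdvd, hD, hsq]
      simp only [ha.dvd_iff_dvd_left]
      exact ⟨(hl j).2, hK2 i j hj⟩)
    (fun i j hij w hw => by
      rw [← map_mul] at hw
      obtain ⟨J, -, -, h3⟩ := hun w _ hw
      exact hκp' i j hij J h3)
    (by
      have h0 : ((e c : 𝓞 K) : K) ≠ 0 := by simpa using hc0
      have h1 := congrArg (fun x => ((e x : 𝓞 K) : K)) hd2
      refine ⟨(e c₁ : 𝓞 K) / (e c : 𝓞 K), (e c₂ : 𝓞 K) / (e c : 𝓞 K), ?_⟩
      rw [hD]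
      simp only [RingOfIntegers.coe_eq_algebraMap, map_mul, map_add, map_pow, map_neg] at h0 h1 ⊢
      field_simp
      linear_combination h1)
    (e π) ((hpr π).mpr hπ)
    (fun k hk h => by
      obtain ⟨k, rfl⟩ := e.surjective k
      rw [h2, hdvd] at h
      exact (hdvd _ _).mpr (hπ2 k ((hpr k).mp hk) h))
    (by rw [h2, hdvd]; exact hπ2')
    (fun x => by
      obtain ⟨x, rfl⟩ := e.surjective x
      rw [← map_one e, ← map_sub, hdvd, hdvd]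
      exact hres x)
    (by rw [← map_one e, ← map_sub, hdvd]; exact ha)
    (e β) (by rw [← map_mul]; exact (hPos _).mpr hβ) (h2 ▸ hodd.map e.toRingHom)
  obtain ⟨x, x', hx, rfl⟩ := IsFractionRing.div_surjective (A := 𝓞 K) x
  obtain ⟨y, y', hy, rfl⟩ := IsFractionRing.div_surjective (A := 𝓞 K) y
  obtain ⟨z, z', hz, rfl⟩ := IsFractionRing.div_surjective (A := 𝓞 K) z
  replace hx := nonZeroDivisors.ne_zero hx
  replace hy := nonZeroDivisors.ne_zero hy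
  replace hz := nonZeroDivisors.ne_zero hz
  refine ⟨e.symm (x' * y' * z'), by simp [hx, hy, hz], e.symm (x * y' * z'), e.symm (x' * y * z'),
    e.symm (x' * y' * z), e.injective (RingOfIntegers.coe_injective ?_)⟩
  have hx' : algebraMap (𝓞 K) K x' ≠ 0 := by simpa using hx
  have hy' : algebraMap (𝓞 K) K y' ≠ 0 := by simpa using hy
  have hz' : algebraMap (𝓞 K) K z' ≠ 0 := by simpa using hz
  simp only [RingOfIntegers.coe_eq_algebraMap, map_mul, map_add, map_pow,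
    RingEquiv.apply_symm_apply] at h ⊢
  rw [h]
  field_simp

variable {P : Par}

theorem Cert.sound_ev (S : Setup P) [IsDomain (Q P)] [IsPrincipalIdealRing (Q P)]
    {K : Type*} [Field K] [NumberField K] [IsTotallyReal K] (hn : Module.finrank ℚ K = 4)
    (e : Q P ≃+* 𝓞 K) (hPos : ∀ x, TotPos ((e x : 𝓞 K) : K) ↔ S.Pos x)
    (C : Cert P) (H : C.ok S.M) (H' : coverB S.M C.u C.l C.A C.B C.ts = true)
    (π : Q P) (hπ : Prime π) (hπ2 : ∀ k, Prime k → k ∣ 2 → k ∣ π) (hπ2' : π ∣ 2)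
    (hres : ∀ x, π ∣ x ∨ π ∣ x - 1) (ha : π ∣ C.a - 1)
    (β : Q P) (hβ : S.Pos (π * β)) (hodd : IsCoprime β 2) :
    ∃ t : Q P, t ≠ 0 ∧ S3 (t ^ 2 * (π * β)) := by
  obtain ⟨h1, h2, h3, h4, h5, h6, h7, h8, h9, h10, h11, h12, h13, h14⟩ := H
  refine three_sq_ring_ev hn e S.Pos hPos C.u
    (fun j => IsUnit.of_mul_eq_one _ ((mul_assoc _ _ _).symm.trans (h1 j))) C.l
    (fun i => (h2 i).prime) (fun i j hij => by rw [(h2 i).dvd_iff]; exact h3 i j hij)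
    (fun J hJ => by simpa only [fun i => (h2 i).sq_iff] using h4 J hJ)
    (fun I hI => by
      obtain ⟨j, hj⟩ := h5 I hI
      refine ⟨j, ?_⟩
      convert hj using 4 with i
      exact (h2 i).sq_iff _)
    (cover_sound S H') C.E1 C.K1 C.E2 C.K2
    (fun J hJ => (h6 J).resolve_right fun h => not_pos S h hJ)
    (fun i j hij J => not_pos S (h7 i j hij J)) C.s C.a (IsUnit.of_mul_eq_one _ h8)
    (fun i => posB_sound S (h9 i)) (fun i => ⟨_, _, _, h10 i⟩)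
    (fun i k hk => not_not.mp (mt ((h2 k).sq_iff _).mp (h11 i k hk)))
    (fun i j hij J => not_pos S (h12 i j hij J)) C.c C.c1 C.c2 h13 h14 π hπ hπ2 hπ2' hres ha
    β hβ hodd

theorem Cert.frac_ev (S : Setup P) [IsDomain (Q P)] [IsPrincipalIdealRing (Q P)]
    (C : Cert P) (H : C.ok S.M) (H' : coverB S.M C.u C.l C.A C.B C.ts = true)
    (π : Q P) (hπ : Prime π) (hπ2 : ∀ k, Prime k → k ∣ 2 → k ∣ π) (hπ2' : π ∣ 2)
    (hres : ∀ x, π ∣ x ∨ π ∣ x - 1) (ha : π ∣ C.a - 1)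
    (β : Q P) (hβ : S.Pos (π * β)) (hodd : IsCoprime β 2) :
    ∃ t : Q P, t ≠ 0 ∧ S3 (t ^ 2 * (π * β)) := by
  have : CharZero (FractionRing (Q P)) :=
    charZero_of_injective_algebraMap (IsFractionRing.injective (Q P) _)
  have := S.numberField (FractionRing (Q P))
  obtain ⟨h1, h2, h3, e, he⟩ := S.link (FractionRing (Q P))
  exact C.sound_ev S h2 e (fun x => by rw [he, h3]) H H' π hπ hπ2 hπ2' hres ha β hβ hodd

end Frac

end Pool.Agent.Lib.MP_aed2da_nt
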