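import Pool.Agent.Lib.MP_aed2da_nt.ThreeB
import Pool.Agent.Lib.MP_aed2da_nt.ThreeD
import Pool.Agent.Lib.MP_aed2da_nt.Prim

/-!
Sums of three squares in the ring of integers of the field generated by the square roots of
two and three: the criterion.
-/

namespace Pool.Agent.Lib.MP_aed2da_nt.Three

lemma rep {g : O} (h2 : Sq2 g) (h : ∃ t : O, t ≠ 0 ∧ S3 (t ^ 2 * g)) :
    ∃ a x y, g = a ^ 2 + N x y := by
  obtain ⟨t, ht, h⟩ := h
  obtain ⟨n, hn⟩ := Clr.core23.clear g t ht h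
  exact rep_of_pow h2 (by simpa [t23, show (⟨1, 0, 0, 0⟩ : O) = 1 from rfl] using hn)

lemma at_prime {q m : O} {I : Iso O} (hI : I.ok q) (hq : q ≠ 0) (hm : q ^ 2 = 1 + 2 * m)
    (H : ∀ a x y t : O, q ^ 2 ∣ a ^ 2 + 2 * N x y - t ^ 2 → ¬ q ∣ t → S3 (a ^ 2 + 2 * N x y))
    {g : O} (h2 : Sq2 g) (h : ∃ t : O, t ≠ 0 ∧ S3 (t ^ 2 * g)) (t : O) (ht : q ^ 2 ∣ g - t ^ 2) :
    S3 g := by
  by_cases h1 : q ∣ t
  · obtain ⟨t, rfl⟩ := h1
    obtain ⟨z, hz⟩ := ht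
    obtain rfl : g = q ^ 2 * (z + t ^ 2) := by linear_combination hz
    generalize z + t ^ 2 = g at *
    obtain ⟨s, hs, h⟩ := h
    obtain ⟨r, u, hr⟩ := h2
    have h3 : Sq2 g := ⟨r, u - m * g, by linear_combination hr - g * hm⟩
    rcases alt h3 (rep h3 ⟨s * q, mul_ne_zero hs hq, by convert h using 1; ring⟩) with
      h4 | ⟨a, x, y, rfl⟩
    · exact s3_mul h4 q
    · exact ⟨_, _, _, Iso.eq hI a x y⟩
  · rcases alt h2 (rep h2 h) with h4 | ⟨a, x, y, rfl⟩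
    · exact h4
    · exact H a x y t ht h1

theorem crit {g : O} (h2 : Sq2 g) (h : ∃ t : O, t ≠ 0 ∧ S3 (t ^ 2 * g))
    (hc : (∃ s t, s ^ 2 = 2 ∧ 2 * s ∣ g - t ^ 2) ∨ (∃ t, 3 ∣ g - t ^ 2) ∨
      ∃ s t, s ^ 2 = 6 ∧ (1 + s) ^ 2 ∣ g - t ^ 2) : S3 g := by
  rcases hc with ⟨s, t, hs, ht⟩ | ⟨t, ht⟩ | ⟨s, t, hs, ht⟩
  · refine s3_of_rep (rep h2 h) ⟨t, ?_⟩
    rcases sq_eq_sq_iff_eq_or_eq_neg.1 (hs.trans (by decide : (2 : O) = ww ^ 2)) with rfl | rfl
    · exact ht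
    · rwa [mul_neg, neg_dvd] at ht
  · exact at_prime (q := q3) (m := 1) (I := I3) (by decide) (by decide) (by decide) split3 h2 h t
      (by rwa [show q3 ^ 2 = 3 by decide])
  · rcases sq_eq_sq_iff_eq_or_eq_neg.1 (hs.trans (by decide : (6 : O) = ⟨0, -1, 2, 0⟩ ^ 2))
      with rfl | rfl
    · exact at_prime (q := q5) (m := ⟨3, -1, 2, 0⟩) (I := I5) (by decide) (by decide) (by decide)
        split5 h2 h t ht
    · exact at_prime (q := q6) (m := ⟨3, 1, -2, 0⟩) (I := I6) (by decide) (by decide) (by decide)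
        split6 h2 h t ht

lemma pp_prime : Prime pp := by
  have r1 : rho pp = 0 := by decide
  refine ⟨by decide, fun h => ?_, fun x y ⟨z, h⟩ => ?_⟩
  · exact absurd (h.map rho) (by rw [r1]; exact not_isUnit_zero)
  · have h1 := congrArg rho h
    rw [map_mul, map_mul, r1, zero_mul] at h1
    exact (mul_eq_zero.1 h1).imp pp_dvd pp_dvd

/-- every totally positive element is a sum of three squares of fractions -/
theorem frac_all {g : O} (hg : S23.Pos g) : ∃ t : O, t ≠ 0 ∧ S3 (t ^ 2 * g) := by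
  have h2 : ∀ k : O, Prime k → k ∣ 2 → k ∣ pp := fun k hk h =>
    hk.dvd_of_dvd_pow (n := 4) (h.trans ⟨⟨5, 2, 8, 5⟩, by decide⟩)
  obtain ⟨n, y, hy, rfl⟩ := WfDvdMonoid.max_power_factor (a₀ := g)
    (fun h => by simpa [h] using hg 0) pp_prime.irreducible
  have hc : IsCoprime y 2 := (isCoprime_of_prime_dvd (by simp) fun k hk h1 h3 =>
    hy (((hk.dvd_prime_iff_associated pp_prime).1 (h2 k hk h3)).symm.dvd.trans h1))
  have key : ∀ (m : ℕ) (z : O), S23.Pos ((pp ^ m) ^ 2 * z) → S23.Pos z := fun m z h i => by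
    have := h i
    rw [map_mul, map_pow] at this
    by_contra h'
    nlinarith [sq_nonneg (S23.σ i (pp ^ m))]
  obtain ⟨m, rfl | rfl⟩ := Nat.even_or_odd' n
  · obtain ⟨t, ht, h⟩ := frac23 y (key m y (by convert hg using 2; ring)) hc
    exact ⟨t, ht, by convert s3_mul h (pp ^ m) using 1; ring⟩
  · obtain ⟨t, ht, h⟩ := Frac.C23.frac_ev S23 Frac.ok23 Frac.cov23 pp pp_prime h2
      ⟨⟨2, 1, 0, -1⟩, by decide⟩ (fun x => by
        have : ∀ u : ZMod 2, u = 0 ∨ u - 1 = 0 := by decide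
        exact (this (rho x)).imp pp_dvd fun h => pp_dvd (by simpa using h))
      (pp_dvd (by decide)) y (key m _ (by convert hg using 1; ring)) hc
    exact ⟨t, ht, by convert s3_mul h (pp ^ m) using 1; ring⟩

end Pool.Agent.Lib.MP_aed2da_nt.Three
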