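import Pool.Agent.Lib.MP_aed2da_nt.Conc

-- part Pool.Agent.Lib.MP_aed2da_nt.Cyc
section

/-! Periodic walks: a vector that can follow a rotation forever lies on its axis. -/

namespace Pool.Agent.Lib.MP_aed2da_nt.Eng
open Matrix Clr

variable {P : Par}

lemma gq_one (v : Fin 3 → Q P) : gq 1 v = v 0 ^ 2 + v 1 ^ 2 + v 2 ^ 2 := by
  simp [gq, dotProduct, Fin.sum_univ_three, pow_two]

lemma S3.mul {R : Type*} [CommRing R] {x : R} (h : S3 x) (r : R) : S3 (r ^ 2 * x) := by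
  obtain ⟨a, b, c, rfl⟩ := h
  exact ⟨r * a, r * b, r * c, by ring⟩

lemma aniso (S : Setup P) {G G' M : Mat P} {a : Q P} (ha : a ≠ 0) (hG : G * G' = 1)
    (h : M * Mᵀ = a • G) {x : Fin 3 → Q P} (hx : gq G x = 0) : x = 0 := by
  have := S.isDomain
  have h1 := gq_edge (G' := 1) (by rw [Matrix.mul_one, h]) x
  rw [hx, mul_zero, gq_one] at h1
  have h2 := congrArg (S.σ 0) h1
  simp only [map_add, map_pow, map_zero] at h2
  have h3 : x ᵥ* M = 0 := funext fun j => S.inj 0 (by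
    rw [Pi.zero_apply, map_zero]
    fin_cases j <;> simp <;> nlinarith [sq_nonneg (S.σ 0 ((x ᵥ* M) 0)),
      sq_nonneg (S.σ 0 ((x ᵥ* M) 1)), sq_nonneg (S.σ 0 ((x ᵥ* M) 2))])
  have h4 : a • x = 0 := by
    have := congrArg (fun u => u ᵥ* (Mᵀ * G')) h3
    simpa [← Matrix.mul_assoc, h, hG, vecMul_smul] using this
  exact (smul_eq_zero.1 h4).resolve_left ha

theorem cyc_alg [IsDomain (Q P)] [IsPrincipalIdealRing (Q P)] {G M : Mat P} {a c d : Q P}
    {w u : Fin 3 → Q P} (ha : a ≠ 0) (hau : ¬ IsUnit a) (hc : IsCoprime c a)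
    (han : ∀ x, gq G x = 0 → x = 0) (h1 : w ᵥ* M = a • w) (h2 : M * G * Mᵀ = (a * a) • G)
    (h3 : ∀ x, x ᵥ* G ⬝ᵥ w = 0 → d • (x ᵥ* M ᵥ* M + (a * a) • x) = d • c • x ᵥ* M)
    (h4 : w ⬝ᵥ u = 1) (h5 : gq G w = d) (v : ℕ → Fin 3 → Q P) (hv : ∀ n, a • v (n + 1) = v n ᵥ* M) :
    v 0 = (v 0 ⬝ᵥ u) • w := by
  have hd : d ≠ 0 := fun h => by simp [han w (h5.trans h)] at h4
  have haa := mul_ne_zero ha ha
  obtain ⟨b, hb⟩ : ∃ b, ∀ n, v n ᵥ* G ⬝ᵥ w = b := ⟨_, fun n => by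
    induction n with
    | zero => rfl
    | succ n ih =>
      have := bil_vecMul G M (v n) w
      rw [← hv, h1, h2, vecMul_smul, smul_vecMul] at this
      simp only [smul_dotProduct, dotProduct_smul, smul_eq_mul, ← mul_assoc] at this
      rw [← ih, mul_left_cancel₀ haa this]⟩
  let x : ℕ → Fin 3 → Q P := fun n => d • v n - b • w
  have x1 : ∀ n, x n ᵥ* G ⬝ᵥ w = 0 := fun n => by
    simp only [x, sub_vecMul, smul_vecMul, sub_dotProduct, smul_dotProduct, hb, smul_eq_mul]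
    rw [← gq, h5]; ring
  have x2 : ∀ n, a • x (n + 1) = x n ᵥ* M := fun n => by
    simp only [x, sub_vecMul, smul_vecMul, smul_sub, h1, ← hv, smul_comm a]
  have x3 : ∀ n, a • (x (n + 2) + x n) = c • x (n + 1) := fun n => by
    have := smul_right_injective _ hd (h3 _ (x1 n))
    rw [← x2, smul_vecMul, ← x2, mul_smul, ← smul_add, ← smul_add, smul_comm c] at this
    exact smul_right_injective _ ha this
  have x4 : ∀ k n, k ≤ n → VD (a ^ k) (x n) := fun k => by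
    induction k with
    | zero => intro n _ j; simp
    | succ k ih =>
      intro n hn j
      obtain ⟨m, rfl⟩ : ∃ m, n = m + 1 := ⟨n - 1, by omega⟩
      refine (hc.symm.pow_left (m := k + 1)).dvd_of_dvd_mul_left ?_
      have := congrFun (x3 m) j
      simp only [Pi.smul_apply, smul_eq_mul, Pi.add_apply] at this
      rw [← this, pow_succ']
      exact mul_dvd_mul_left _ (dvd_add (ih _ (by omega) j) (ih _ (by omega) j))
  have x5 : ∀ n, gq G (x n) = gq G (x 0) := fun n => by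
    induction n with
    | zero => rfl
    | succ n ih =>
      have := gq_edge h2 (x n)
      rw [← x2, gq_smul, pow_two] at this
      rw [← ih, mul_left_cancel₀ haa this]
  have x6 : x 0 = 0 := han _ (by
    by_contra hne
    obtain ⟨k, hk⟩ := FiniteMultiplicity.of_not_isUnit hau hne
    obtain ⟨y, hy⟩ := (x4 (k + 1) _ le_rfl).ex
    rw [← x5 (k + 1), hy, gq_smul, pow_two, mul_assoc] at hk
    exact hk (dvd_mul_right _ _))
  have x7 : d • v 0 = b • w := sub_eq_zero.1 x6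
  have x8 := congrArg (· ⬝ᵥ u) x7
  simp only [smul_dotProduct, h4, smul_eq_mul, mul_one] at x8
  exact smul_right_injective _ hd (by dsimp only; rw [x7, smul_smul, x8])

def rowV (kb x : ℕ) : Fin 3 → Q P := fun j => decQ kb (entry kb x j)
def rowM (v : Fin 3 → Q P) : Mat P := Matrix.of ![v, 0, 0]
def Phi.row (F : Phi) (kb x : ℕ) : TM :=
  ⟨⟨F.ev kb (entry kb x 0), F.ev kb (entry kb x 1), F.ev kb (entry kb x 2), 0, 0, 0, 0, 0, 0⟩,
    Nat.add kb 5⟩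
def TM.e0 : TM := ⟨⟨1, 0, 0, 0, 0, 0, 0, 0, 0⟩, 0⟩

lemma Ctx.rep_row {F : Phi} (X : Ctx P F) (kb x : ℕ) : X.Rep (rowM (rowV kb x)) (F.row kb x) := by
  refine ⟨fun i j => ?_, fun i j => ?_⟩
  · fin_cases i <;> fin_cases j <;> simp [M9.get, Phi.row, X.ev, rowM, rowV]
  · fin_cases i
    exacts [bd_dec X.S X.hM _ _, bd_zero _ _, bd_zero _ _]

lemma Ctx.rep_e0 {F : Phi} (X : Ctx P F) : X.Rep (rowM ![1, 0, 0]) TM.e0 := by
  refine ⟨fun i j => ?_, fun i j k => ?_⟩ <;>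
    fin_cases i <;> fin_cases j <;> simp [M9.get, TM.e0, rowM]

lemma rowM_dot (v w : Fin 3 → Q P) (G : Mat P) : (rowM v * G * (rowM w)ᵀ) 0 0 = v ᵥ* G ⬝ᵥ w := by
  simp [rowM, mul_apply, vecMul, dotProduct]

/-- certificate of a cycle -/
structure Cy where
  cyc : ℕ
  w : ℕ
  u : ℕ
  d : ℕ
  c : ℕ
  x : ℕ
  y : ℕ
  an : ℕ
  kind : ℕ
  a : ℕ

def Goal (c0 : ℕ) (Exc : List ℕ) (β l : Q P) : Prop :=
  S3 (decQ 16 c0 ^ 2 * β) ∨ ∃ d ∈ Exc, ∃ t, β = t ^ 2 * decQ 16 d ∧ ¬ l ∣ t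

namespace FD
variable (E : FD)

noncomputable def matT (t : ℕ) : Mat P := if t = 0 then 1 else matT (t / 2048) * E.S (t % 2048)
decreasing_by omega
noncomputable def lamT (t : ℕ) : Q P :=
  if t = 0 then 1 else lamT (t / 2048) * E.w (E.dr (t % 2048 % 128))
decreasing_by omega

noncomputable def mT (f : ℕ → TM) (fuel : ℕ) : ℕ → TM :=
  Nat.rec (motive := fun _ => ℕ → TM) (fun _ => TM.one) (fun _ ih t =>
    Bool.rec (motive := fun _ => TM) (E.F.mul (ih (Nat.div t 2048)) (f (Nat.mod t 2048))) TM.one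
      (Nat.beq t 0)) fuel
noncomputable def mM (t : ℕ) : TM := E.mT E.mS 12 t
noncomputable def mL (t : ℕ) : TM := E.mT (fun c => E.mP (E.dr (Nat.mod c 128))) 12 t

/-- the walk `t` leads from the class `i` to the sum of three squares -/
noncomputable def chkAn (i t : ℕ) : Bool :=
  Nat.blt t (Nat.pow 2048 12) && !Nat.beq (Nat.mod (E.mL t).m.a E.F.N) 0 &&
    (E.F.mul (E.mM t) (E.mM t).tr).eq (E.F.mul (E.F.mul (E.mL t) (E.mL t)) (E.mG i))

noncomputable def chkCy2 (c0 : ℕ) (Exc : List ℕ) (y : Cy) (M L LL G W D C Z : TM) : Bool :=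
  (E.F.mul W M).eq (E.F.mul L W) && (E.F.mul (E.F.mul M G) M.tr).eq (E.F.mul LL G) &&
  (E.F.add (E.F.mul D (E.F.add (E.F.mul M M) LL)) (E.F.mul (E.F.mul L C) Z)).eq
    (E.F.add (E.F.mul D (E.F.mul C M)) (E.F.mul (E.F.add LL LL) Z)) &&
  (E.F.mul (E.F.mul W TM.one) (E.F.row 16 y.u).tr).eq TM.e0 &&
  (E.F.mul (E.F.mul W G) W.tr).eq (E.F.mul D TM.e0) &&
  (E.F.add (E.F.mul (E.F.sc 48 y.x) C) (E.F.mul (E.F.sc 48 y.y) L)).eq TM.one &&
  cond (Nat.beq y.kind 0)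
    ((E.F.mul (E.F.mul (E.F.row 16 y.a) TM.one) (E.F.row 16 y.a).tr).eq
      (E.F.mul (E.F.mul (E.F.mul (E.F.sc 16 c0) (E.F.sc 16 c0)) D) TM.e0))
    (cond (Nat.beq y.kind 1) (D.eq (E.F.mul (E.mP 1) (E.F.sc 16 y.a))) (mem y.d Exc))

noncomputable def chkCy (c0 : ℕ) (Exc : List ℕ) (y : Cy) : Bool :=
  frc (Nat.mod (Nat.pred y.cyc) 1024) fun d => frc (Nat.div (Nat.pred y.cyc) 1024) fun t =>
  frc (Nat.div d 64) fun i => Nat.blt 0 t && Nat.blt t (Nat.pow 2048 12) && E.chkAn i y.an &&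
    E.chkCy2 c0 Exc y (E.F.mul (E.mM t) (E.mC d)) (E.mL t) (E.F.mul (E.mL t) (E.mL t)) (E.mG i)
      (E.F.row 16 y.w) (E.F.sc 16 y.d) (E.F.sc 48 y.c)
      (E.F.mul (E.mG i) (E.F.mul (E.F.row 16 y.w).tr (E.F.row 16 y.w)))

variable {E} (X : Ctx P E.F)
include X

lemma rT {f : ℕ → TM} {A B : ℕ → Mat P} (hf : ∀ c, X.Rep (B c) (f c)) (h0 : A 0 = 1)
    (h1 : ∀ t, t ≠ 0 → A t = A (t / 2048) * B (t % 2048)) (n : ℕ) :
    ∀ t < 2048 ^ n, X.Rep (A t) (E.mT f n t) := by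
  induction n with
  | zero => intro t ht; rw [show t = 0 by simpa using ht, h0]; exact Ctx.rep_one
  | succ n ih =>
    intro t ht
    change X.Rep _ (Bool.rec (motive := fun _ => TM) (E.F.mul (E.mT f n (t / 2048)) (f (t % 2048)))
      TM.one (Nat.beq t 0))
    rw [brec]
    split_ifs with h
    · rw [Nat.eq_of_beq_eq_true h, h0]; exact Ctx.rep_one
    · rw [h1 t (by simpa using h)]
      exact (ih _ (by rw [pow_succ] at ht; omega)).mul (hf _)

lemma rM {t : ℕ} (ht : t < 2048 ^ 12) : X.Rep (E.matT t) (E.mM t) :=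
  rT X (rS X) (by rw [matT, if_pos rfl]) (fun t h => by rw [matT, if_neg h]) 12 t ht

lemma rL {t : ℕ} (ht : t < 2048 ^ 12) : X.Rep ((E.lamT t : Q P) • (1 : Mat P)) (E.mL t) :=
  rT X (A := fun t => (E.lamT t : Q P) • (1 : Mat P)) (fun c => rP X (E.dr (c % 128)))
    (by rw [lamT, if_pos rfl, one_smul]) (fun t h => by
      rw [lamT, if_neg h, smul_mul_assoc, Matrix.one_mul, mul_smul, Nat.mod_mod_of_dvd _ (by norm_num)]) 12 t ht

lemma an_of {i t : ℕ} (h : E.chkAn i t = true) : t < 2048 ^ 12 ∧ (E.lamT t : Q P) ≠ 0 ∧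
    (E.matT t : Mat P) * (E.matT t)ᵀ = (E.lamT t * E.lamT t : Q P) • E.G i := by
  simp only [chkAn, Bool.and_eq_true, Nat.blt_eq, Bool.not_eq_true', Bool.eq_false_iff, ne_eq,
    Nat.beq_eq, md] at h
  obtain ⟨⟨h1, h2⟩, h3⟩ := h
  refine ⟨h1, fun h0 => h2 ?_, ?_⟩
  · have := (rL X h1).1 0 0
    rw [h0, M9.get00, zero_smul, Matrix.zero_apply, map_zero] at this
    exact Nat.mod_eq_zero_of_dvd ((ZMod.natCast_eq_zero_iff _ _).1 this.symm)
  · rw [((rM X h1).mul (rM X h1).tr).eq (((rL X h1).mul (rL X h1)).mul (rG X i)) h3]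
    simp [mul_smul]

variable [IsDomain (Q P)] [IsPrincipalIdealRing (Q P)] {β l : Q P} (hG : E.chkG = true)
  (hD : E.Dirs l)
include hG hD

omit [IsPrincipalIdealRing (Q P)] in
lemma trc_of {Gl : Prop} {t : ℕ} {s s' : (E.sys β l Gl).St} (h : Trc _ t s s') :
    (E.lamT t : Q P) • s'.1.2 = s.1.2 ᵥ* E.matT t ∧ (E.lamT t : Q P) ≠ 0 ∧
      (t ≠ 0 → ¬ IsUnit (E.lamT t : Q P)) := by
  induction h with
  | nil s => rw [lamT, matT]; simp
  | @snoc t c s0 s s' _ h hc ih =>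
    obtain ⟨h0, h1, h2, -, h4⟩ := h
    have h3 : c % 128 ≠ 0 := fun h3 => h2 ((chkG_sound X hG).2.2.1 _ (by omega))
    have e : cd (c % 128) s.1.1 = c := by
      have : s.1.1 = c / 128 := h0
      simp only [cd, Nat.add_eq, Nat.mul_eq]; omega
    rw [lamT, matT, if_neg (by omega), if_neg (by omega), show (c + t * 2 ^ 11) / 2048 = t by omega,
      show (c + t * 2 ^ 11) % 2048 = c by omega, mul_smul, h4, e, ← smul_vecMul, ih.1, vecMul_vecMul]
    exact ⟨rfl, mul_ne_zero ih.2.1 (hD.ne _ h1 h2), fun _ hu =>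
      hD.nu _ h1 h2 (isUnit_of_mul_isUnit_right hu)⟩

theorem cyc_sound {c0 : ℕ} {Exc : List ℕ} {y : Cy} (hodd : ¬ E.w 1 ∣ β)
    (h : E.chkCy c0 Exc y = true) : CycOK (E.sys β l (Goal c0 Exc β l)) y.cyc := by
  intro Z hZ s hs
  simp only [chkCy, frc_eq, Bool.and_eq_true, Nat.blt_eq, md] at h
  obtain ⟨⟨⟨ht0, ht⟩, han⟩, h⟩ := h
  generalize hd : y.cyc.pred % 1024 = d at han h
  generalize ht' : Nat.div y.cyc.pred 1024 = t at ht0 ht h
  have step : ∀ s, Z s → ∃ s', Z s' ∧ s'.1.1 = d / 64 ∧ (E.lamT t : Q P) ≠ 0 ∧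
      ¬ IsUnit (E.lamT t : Q P) ∧ (E.lamT t : Q P) • s'.1.2 = s.1.2 ᵥ* (E.matT t * E.C d) := by
    intro s hs
    obtain ⟨s', ⟨d', t', s1, e, hd', h1, h2, h3, h4⟩, h5⟩ := hZ s hs
    have e1 : y.cyc.pred / 1024 = t := ht'
    rw [e, Nat.pred_succ] at hd e1
    obtain rfl : d' = d := by omega
    obtain rfl : t' = t := by omega
    obtain ⟨a1, a2, a3⟩ := trc_of X hG hD h1
    exact ⟨s', h5, h3.trans h2, a2, a3 ht0.ne', by rw [h4, ← smul_vecMul, a1, vecMul_vecMul]⟩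
  obtain ⟨s1, hs1, hi, ha, hau, -⟩ := step s hs
  choose f f1 _ _ _ f2 using step
  let v : ℕ → {s // Z s} := fun n => (fun s : {s // Z s} => ⟨f s.1 s.2, f1 _ _⟩)^[n] ⟨s1, hs1⟩
  obtain ⟨g1, -, -, -, g2⟩ := chkG_sound X hG
  obtain ⟨-, b1, b2⟩ := an_of X han
  have rM' := (rM X ht).mul (rC X d)
  have rL' := rL X ht
  have rLL := rL'.mul rL'
  have rG' := rG X (Nat.div d 64)
  have rW := X.rep_row 16 y.w
  have rD := Ctx.rep_sc (X := X) 16 y.d
  have rC' := Ctx.rep_sc (X := X) 48 y.c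
  have rZ := rG'.mul (rW.tr.mul rW)
  simp only [chkCy2, Bool.and_eq_true] at h
  obtain ⟨⟨⟨⟨⟨⟨c1, c2⟩, c3⟩, c4⟩, c5⟩, c6⟩, c7⟩ := h
  replace c1 := congrFun ((rW.mul rM').eq (rL'.mul rW) c1) 0
  replace c2 := ((rM'.mul rG').mul rM'.tr).eq (rLL.mul rG') c2
  replace c3 := ((rD.mul ((rM'.mul rM').add rLL)).add ((rL'.mul rC').mul rZ)).eq
    ((rD.mul (rC'.mul rM')).add ((rLL.add rLL).mul rZ)) c3
  replace c4 := congrFun₂ (((rW.mul Ctx.rep_one).mul (X.rep_row 16 y.u).tr).eq X.rep_e0 c4) 0 0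
  replace c5 := congrFun₂ (((rW.mul rG').mul rW.tr).eq (rD.mul X.rep_e0) c5) 0 0
  replace c6 := congrFun₂ ((((Ctx.rep_sc 48 y.x).mul rC').add ((Ctx.rep_sc 48 y.y).mul rL')).eq
    Ctx.rep_one c6) 0 0
  rw [rowM_dot] at c4 c5
  have c5' : gq (E.G (d / 64)) (rowV 16 y.w) = (decQ 16 y.d : Q P) := c5.trans (by simp [rowM])
  have key := cyc_alg (G := E.G (d / 64)) (M := E.matT t * E.C d) (c := decQ 48 y.c)
    (w := rowV 16 y.w) (u := rowV 16 y.u) ha hau ⟨decQ 48 y.x, decQ 48 y.y, by simpa [mul_comm] using c6⟩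
    (fun x hx => aniso X.S (mul_ne_zero b1 b1) (g2 _ ((hi ▸ s1.2.1).trans_le g1)).inv b2 hx)
    (by rw [smul_mul_assoc, Matrix.one_mul] at c1; exact c1) (c2.trans (by simp [mul_smul]; rfl))
    (fun x hx => by
      have h0 : x ᵥ* (E.G (Nat.div d 64) * ((rowM (rowV 16 y.w))ᵀ * rowM (rowV 16 y.w))) = 0 := by
        rw [← vecMul_vecMul, ← vecMul_vecMul]
        have : x ᵥ* E.G (Nat.div d 64) ᵥ* (rowM (rowV 16 y.w))ᵀ = 0 := by
          ext1 k
          fin_cases k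
          exacts [hx, dotProduct_zero _, dotProduct_zero _]
        rw [this, zero_vecMul]
      have := congrArg (fun A => x ᵥ* A) c3
      simp only [smul_mul_assoc, Matrix.one_mul, vecMul_add, vecMul_smul, h0, smul_zero, add_zero,
        add_mul, vecMul_one] at this
      rw [vecMul_vecMul, mul_smul, this])
    (by simpa [rowM] using c4) c5' (fun n => (v n).1.1.2) (fun n => by
      simp only [v, Function.iterate_succ_apply']; exact f2 _ _)
  have hβ := s1.2.2.1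
  have hl := s1.2.2.2
  change s1.1.2 = (s1.1.2 ⬝ᵥ _) • _ at key
  generalize s1.1.2 ⬝ᵥ rowV 16 y.u = r at key
  rw [hi, key, gq_smul, c5'] at hβ
  cases hk : Nat.beq y.kind 0
  · rw [hk, cond_false] at c7
    cases hk1 : Nat.beq y.kind 1
    · rw [hk1, cond_false] at c7
      refine Or.inr ⟨_, mem_sound c7, r, hβ.symm, fun hr => hl ?_⟩
      rw [key]; exact fun j => hr.mul_right _
    · rw [hk1, cond_true] at c7
      have := congrFun₂ (rD.eq ((rP X 1).mul (Ctx.rep_sc 16 y.a)) c7) 0 0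
      refine absurd ?_ hodd
      rw [← hβ, show decQ 16 y.d = E.w 1 * decQ 16 y.a by simpa [mul_comm] using this]
      exact (dvd_mul_right _ _).mul_left _
  · rw [hk, cond_true] at c7
    have := congrFun₂ ((((X.rep_row 16 y.a).mul Ctx.rep_one).mul (X.rep_row 16 y.a).tr).eq
      ((((Ctx.rep_sc 16 c0).mul (Ctx.rep_sc 16 c0)).mul rD).mul X.rep_e0) c7) 0 0
    rw [rowM_dot, ← gq, gq_one] at this
    have h3 : S3 (decQ 16 c0 ^ 2 * decQ 16 y.d : Q P) := ⟨_, _, _, by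
      rw [this]; simp [rowM]; ring⟩
    exact Or.inl (by convert S3.mul h3 r using 1; rw [← hβ]; ring)

end FD

end Pool.Agent.Lib.MP_aed2da_nt.Eng
end

-- part Pool.Agent.Lib.MP_aed2da_nt.Top
section

/-! From the checked tables to representations as sums of three squares. -/

namespace Pool.Agent.Lib.MP_aed2da_nt.Eng
open Matrix Clr

variable {P : Par}

/-- `-β` is a square modulo `w` -/
def Sq (w β : Q P) : Prop := ∃ r, w ∣ β + r ^ 2
def SqA (w β : Q P) : Prop := Sq w β ∧ ¬ w ∣ β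

theorem dyOK [IsDomain (Q P)] {w e : Q P} {k : ℕ} (hw : Prime w) (he : IsUnit e)
    (h : 2 = e * w ^ (2 * k + 2)) : DyOK w := by
  have key : ∀ (k : ℕ) (t : Q P), w ^ (2 * k + 1) ∣ t ^ 2 → w ^ (k + 1) ∣ t := by
    intro k
    induction k with
    | zero => intro t ht; simpa using hw.dvd_of_dvd_pow (by simpa using ht)
    | succ k ih =>
      intro t ht
      obtain ⟨u, rfl⟩ := hw.dvd_of_dvd_pow ((dvd_pow_self w (by omega)).trans ht)
      rw [pow_succ' w (k + 1)]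
      refine mul_dvd_mul_left _ (ih u ?_)
      rwa [mul_pow, show 2 * (k + 1) + 1 = 2 + (2 * k + 1) by ring, pow_add,
        mul_dvd_mul_iff_left (pow_ne_zero _ hw.ne_zero)] at ht
  refine ⟨e * w ^ (2 * k + 1), by rw [h]; ring, fun b ⟨t, z, hz⟩ => ?_⟩
  obtain ⟨u, rfl⟩ := key k t ⟨e * b - e * w * z, by rw [h] at hz; linear_combination -hz⟩
  refine (he.dvd_mul_left).1 ⟨u ^ 2 + e * z, mul_left_cancel₀ (pow_ne_zero (2 * k + 1) hw.ne_zero) ?_⟩
  rw [h] at hz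
  linear_combination hz

structure Inst where
  T : Tabs
  n0 : ℕ
  np : ℕ
  c0 : ℕ
  dead : ℕ
  d0 : List (ℕ × ℕ)
  cys : List Cy
  Exc : List ℕ

def typ (dirs a : ℕ) : ℕ := dirs / 2 ^ (a * 16) / 2 ^ 12 % 4

namespace FD
variable (E : FD)

noncomputable def chkE1 (D : Res) (hb i y gi : ℕ) : Bool :=
  D.chkY y gi && allN (fun k => frc (cd (Nat.add D.base k) i) fun c => frc (E.tg c) fun j =>
    Nat.blt j hb && E.chkEdge D.pi i c &&
      D.chkL y gi (E.g j) (E.s c) (Nat.shiftRight (E.s c) 616) k) (Nat.succ D.q)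

noncomputable def chkE (a i0 n hb : ℕ) : Bool :=
  Nat.ble hb E.h && Nat.ble (Nat.add i0 n) E.h && allN (fun k => frc (Nat.add i0 k) fun i =>
    frc (Nat.add (Nat.mul a 16) i) fun key => E.chkE1 (E.res a) hb i (get E.tY key) (E.g i)) n

structure DirF (P : Par) (a i hb : ℕ) : Prop where
  edge : ∀ k ≤ (E.res a).q, E.tg (cd ((E.res a).base + k) i) < hb ∧
    E.S (cd ((E.res a).base + k) i) * E.G (E.tg (cd ((E.res a).base + k) i)) *
      (E.S (cd ((E.res a).base + k) i))ᵀ = (E.w a * E.w a : Q P) • (E.G i : Mat P)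
  one : ∀ v, (E.res a).dy = true ∨ Sq (E.w a : Q P) (gq (E.G i) v) →
    ∃ k ≤ (E.res a).q, VD (E.w a : Q P) (v ᵥ* E.S (cd ((E.res a).base + k) i))
  two : (E.res a).dy = false → ∀ v, SqA (E.w a : Q P) (gq (E.G i) v) →
    ∃ k ≤ (E.res a).q, ∃ k' ≤ (E.res a).q, k ≠ k' ∧
      VD (E.w a : Q P) (v ᵥ* E.S (cd ((E.res a).base + k) i)) ∧
      VD (E.w a : Q P) (v ᵥ* E.S (cd ((E.res a).base + k') i))
  red : ∀ v β, gq (E.G i) v = (E.w a : Q P) ^ 2 * β → Sq2 β → ∃ k ≤ (E.res a).q,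
    VD (E.w a * E.w a : Q P) (v ᵥ* E.S (cd ((E.res a).base + k) i)) ∨ VD (E.w a) v

def Rp (hb : ℕ) (β l : Q P) : Prop := ∃ i < hb, ∃ v, gq (E.G i) v = β ∧ ¬ VD l v

noncomputable def chkDir (dirs r a : ℕ) : Bool :=
  typ dirs a == 0 || (0 < a && a ≤ r && dirs / 2 ^ (a * 16) % 128 == (E.res a).base &&
    dirs / 2 ^ (a * 16) / 2 ^ 7 % 32 == (E.res a).q + 1 && 0 < (E.res a).base &&
    (E.res a).base + (E.res a).q < 128 && (typ dirs a ≤ 1 || !(E.res a).dy) &&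
    allN (fun k => E.dr ((E.res a).base + k) == a) ((E.res a).q + 1))

noncomputable def chkD0 (I : Inst) (k : ℕ) (p : ℕ × ℕ) : Bool :=
  pat I.T k < 16 && E.chkAn (pat I.T k) p.1 &&
    (E.F.sc 16 I.c0).eq (E.F.mul (E.mL p.1) (E.F.sc 16 p.2))

noncomputable def chkI (r : ℕ) (I : Inst) : Bool :=
  I.T.dirs < 2 ^ 128 && allN (E.chkDir I.T.dirs r) 8 &&
  allN (fun k => E.chkD0 I k (I.d0.getD k (0, 0))) I.n0 &&
  allN (fun i => I.dead / 2 ^ (13 * i) % 8192 < I.np && pat I.T (I.dead / 2 ^ (13 * i) % 8192) == i)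
    E.hI && I.cys.all (E.chkCy I.c0 I.Exc)

/-- the facts about a field which are used by all runs -/
structure Fld (P : Par) (r : ℕ) where
  X : Ctx P E.F
  T : Tabs
  hG : E.chkG = true
  hT : ∀ i < E.hI, E.chkT T i = true
  hA : ∀ i < E.hI, E.chkA T i = true
  ok : ∀ a ≤ r, 0 < a → (E.res a).ok P
  drle : ∀ y < 128, E.dr y ≤ r
  nd : ∀ a ≤ r, ∀ b ≤ r, 0 < a → 0 < b → a ≠ b → Q.dvdB (E.w a : Q P) (E.w b) = false
  dirF : ∀ a ≤ r, 0 < a → ∀ i < E.hI, E.DirF P a i E.h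
  dy : ∀ i < E.h, E.DirF P 1 i E.h
  e : Q P
  k : ℕ
  he : IsUnit e
  two : 2 = e * E.w 1 ^ (2 * k + 2)
  h0 : 0 < E.h
  r0 : 1 ≤ r
  n : ℕ
  okx : ∀ a ≤ n, 0 < a → (E.res a).ok P ∧ ((E.res a).dy = true → a = 1)

variable {E} [IsDomain (Q P)] [IsPrincipalIdealRing (Q P)]

omit [IsDomain (Q P)] [IsPrincipalIdealRing (Q P)] in
lemma DirF.mono {a i hb hb' : ℕ} (h : E.DirF P a i hb) (hh : hb ≤ hb') : E.DirF P a i hb' :=
  ⟨fun k hk => ⟨(h.edge k hk).1.trans_le hh, (h.edge k hk).2⟩, h.one, h.two, h.red⟩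

theorem dirF_of (X : Ctx P E.F) (hG : E.chkG = true) {a i0 n hb : ℕ} (ok : (E.res a).ok P)
    (hdy : (E.res a).dy = true → DyOK (E.w a : Q P)) (h : E.chkE a i0 n hb = true) (i : ℕ)
    (h1 : i0 ≤ i) (h2 : i < i0 + n) : E.DirF P a i hb := by
  simp only [chkE, Bool.and_eq_true, Nat.ble_eq, frc_eq, Nat.add_eq] at h
  obtain ⟨⟨h3, h4⟩, h5⟩ := h
  have h6 := allN_sound h5 (i - i0) (by omega)
  rw [show i0 + (i - i0) = i by omega, chkE1, Bool.and_eq_true] at h6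
  obtain ⟨-, -, -, -, g⟩ := chkG_sound X hG
  obtain ⟨F, _, π, H⟩ := Res.exists_hom X.S ok
  have h7 := fun k (hk : k ≤ (E.res a).q) => allN_sound h6.2 k (Nat.lt_succ_of_le hk)
  simp only [frc_eq, Bool.and_eq_true, Nat.blt_eq, Nat.add_eq] at h7
  have L := fun k hk => Lab.mk (P := P) (h7 k hk).2 (edge_of X (h7 k hk).1.2)
    (g _ ((h7 k hk).1.1.trans_le h3)).sq2
  have hG' := g i (by omega)
  exact ⟨fun k hk => ⟨(h7 k hk).1.1, (L k hk).edge⟩, dir_one H hG' h6.1 L,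
    fun hd v ⟨⟨r, hr⟩, h0⟩ => dir_two H hG' h6.1 L hd v r hr h0, dir_red H hG' h6.1 L hdy⟩

section
variable (X : Ctx P E.F) (hG : E.chkG = true) {a : ℕ} (hw : (E.w a : Q P) ≠ 0) {l : Q P}
include X hG hw

omit [IsPrincipalIdealRing (Q P)] in
lemma red_step (hF : ∀ i < E.h, E.DirF P a i E.h) {β : Q P} (hβ : Sq2 β)
    (h : E.Rp E.h (E.w a ^ 2 * β) l) : E.Rp E.h β l := by
  obtain ⟨i, hi, v, h1, h2⟩ := h
  obtain ⟨-, -, -, -, g⟩ := chkG_sound X hG
  obtain ⟨k, hk, h3 | h3⟩ := (hF i hi).red v β h1 hβ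
  · obtain ⟨u, hu⟩ := h3.ex
    obtain ⟨h4, h5⟩ := (hF i hi).edge k hk
    refine ⟨_, h4, u, ?_, fun h => h2 ?_⟩
    · have := gq_edge h5 v
      rw [hu, gq_smul, h1] at this
      exact mul_left_cancel₀ (pow_ne_zero 2 (mul_ne_zero hw hw)) (by rw [this]; ring)
    · have := vd_edge hw (g i hi).inv h5 ((mul_smul _ _ u).symm.trans hu.symm)
      rw [smul_vecMul] at this
      rw [smul_right_injective _ hw this]
      exact h.vecMul _
  · obtain ⟨u, rfl⟩ := h3.ex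
    rw [gq_smul] at h1
    exact ⟨i, hi, u, mul_left_cancel₀ (pow_ne_zero 2 hw) h1, fun h => h2 fun j => (h j).mul_left _⟩

omit [IsPrincipalIdealRing (Q P)] in
lemma red_pow (hF : ∀ i < E.h, E.DirF P a i E.h) {β : Q P} (hβ : Sq2 β) (m : ℕ)
    (h : E.Rp E.h ((E.w a ^ m) ^ 2 * β) l) : E.Rp E.h β l := by
  induction m with
  | zero => simpa using h
  | succ m ih =>
    exact ih (red_step X hG hw hF (Sq2.mul hβ _) (by convert h using 1; ring))

omit [IsPrincipalIdealRing (Q P)] in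
lemma switch (hF : ∀ i, E.hI ≤ i → i < E.h → E.DirF P a i E.hI) {β : Q P} (hβ : Sq (E.w a) β)
    (hl : ∀ x, l ∣ E.w a * x → l ∣ x) (h : E.Rp E.h β l) : E.Rp E.hI β l := by
  obtain ⟨i, hi, v, h1, h2⟩ := h
  by_cases h3 : i < E.hI
  · exact ⟨i, h3, v, h1, h2⟩
  obtain ⟨-, -, -, -, g⟩ := chkG_sound X hG
  obtain ⟨k, hk, h4⟩ := (hF i (by omega) hi).one v (Or.inr (h1 ▸ hβ))
  obtain ⟨u, hu⟩ := h4.ex
  obtain ⟨h5, h6⟩ := (hF i (by omega) hi).edge k hk
  refine ⟨_, h5, u, ?_, fun h => h2 fun j => hl _ ?_⟩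
  · have := gq_edge h6 v
    rw [hu, gq_smul, h1, ← pow_two] at this
    exact mul_left_cancel₀ (pow_ne_zero 2 hw) this
  · rw [show E.w a * v j = _ from congrFun (vd_edge hw (g i hi).inv h6 hu.symm) j]
    exact h.vecMul _ j

end

variable {r : ℕ} (K : E.Fld P r)
include K

lemma Fld.prime {a : ℕ} (h : a ≤ r) (h0 : 0 < a) : Prime (E.w a : Q P) := Res.prime K.X.S (K.ok a h h0)

/-- removal of the denominators -/
theorem Fld.descend {t β l : Q P} (ht : t = 1 ∨ ∃ a, t = E.w a ∧ t ≠ 0 ∧ ∀ i < E.h, E.DirF P a i E.h)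
    (hβ : Sq2 β) {n : ℕ} {x y z : Q P} (h : (2 * t) ^ (2 * n) * β = x ^ 2 + y ^ 2 + z ^ 2)
    (hl : ¬ (l ∣ x ∧ l ∣ y ∧ l ∣ z)) : E.Rp E.h β l := by
  obtain ⟨u, hu⟩ := (K.he.pow n).exists_right_inv
  have h1 : E.Rp E.h ((E.w 1 ^ ((2 * K.k + 2) * n)) ^ 2 * ((t ^ n) ^ 2 * β)) l := by
    refine ⟨0, K.h0, u • ![x, y, z], ?_, fun hv => hl ?_⟩
    · rw [gq_smul, (chkG_sound K.X K.hG).2.2.2.1, gq_one]
      simp only [cons_val_zero, cons_val_one, cons_val]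
      have e2 : (2 : Q P) ^ n = K.e ^ n * E.w 1 ^ ((2 * K.k + 2) * n) := by
        rw [pow_mul, ← mul_pow, ← K.two]
      rw [← h, mul_comm 2 n, pow_mul, mul_pow, e2]
      linear_combination (K.e ^ n * u + 1) * ((E.w 1 ^ ((2 * K.k + 2) * n)) ^ 2 * ((t ^ n) ^ 2 * β)) * hu
    · have : ∀ j, l ∣ ![x, y, z] j := fun j => by
        have := (hv j).mul_left (K.e ^ n)
        rwa [Pi.smul_apply, smul_eq_mul, ← mul_assoc, hu, one_mul] at this
      exact ⟨this 0, this 1, this 2⟩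
  have h2 := red_pow K.X K.hG (K.prime K.r0 one_pos).ne_zero K.dy (Sq2.mul hβ _) _ h1
  rcases ht with rfl | ⟨a, rfl, h3, h4⟩
  · simpa using h2
  · exact red_pow K.X K.hG h3 h4 hβ n h2

theorem Fld.run {I : Inst} (hT : I.T = ⟨K.T.tT, K.T.tA, I.T.tP, I.T.dirs⟩) (hI : E.chkI r I = true)
    (hS : StOK I.T (I.cys.map Cy.cyc) I.n0 I.np) {β l : Q P}
    (hl : ∀ a ≤ r, 0 < a → ∀ x, l ∣ E.w a * x → l ∣ x) (hodd : ¬ E.w 1 ∣ β)
    (hs : ∀ a ≤ r, (1 ≤ typ I.T.dirs a → (E.res a).dy = true ∨ Sq (E.w a) β) ∧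
      (2 ≤ typ I.T.dirs a → ¬ E.w a ∣ β))
    (h : E.Rp E.hI β l) : Goal I.c0 I.Exc β l := by
  have hD : E.Dirs l := ⟨fun y hy h => (K.prime (K.drle y hy) (by omega)).ne_zero,
    fun y hy h => (K.prime (K.drle y hy) (by omega)).not_isUnit, fun y hy y' hy' h h' hne => by
      rw [(K.prime (K.drle y hy) (by omega)).irreducible.coprime_iff_not_dvd,
        ← Q.dvdB_iff (m := E.w (E.dr y)) (K.ok _ (K.drle y hy) (by omega)).2.2.1, Bool.not_eq_true]
      exact K.nd _ (K.drle y hy) _ (K.drle y' hy') (by omega) (by omega) hne,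
    fun y hy h => hl _ (K.drle y hy) (by omega)⟩
  have H : TabOK (E.sys β l (Goal I.c0 I.Exc β l)) I.T :=
    hT ▸ (tabOK K.X K.hG K.hT K.hA hD).congr _ _
  simp only [chkI, Bool.and_eq_true, decide_eq_true_eq, List.all_eq_true] at hI
  obtain ⟨⟨⟨⟨i1, i2⟩, i3⟩, i4⟩, i5⟩ := hI
  obtain ⟨g1, g2, -, -, g⟩ := chkG_sound K.X K.hG
  have key := hS _ H (fun a => ?_) (fun c hc => ?_) (fun k hk s hs => ?_)
  · obtain ⟨i, hi, v, h1, h2⟩ := h
    have := allN_sound i4 i hi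
    simp only [Bool.and_eq_true, decide_eq_true_eq, beq_iff_eq] at this
    refine key _ this.1 ⟨(i, v), hi, h1, h2⟩ ?_
    rw [this.2]
    exact ⟨(Nat.mod_eq_of_lt (show i < 16 by omega)).symm, fun k => .nil (by
      rw [Nat.div_eq_of_lt (show i < 2 ^ 4 by omega)]; simp)⟩
  · by_cases h0 : typ I.T.dirs a = 0
    · exact ⟨fun h => absurd h (by unfold typ at h0; omega),
        fun h => absurd h (by unfold typ at h0; omega)⟩
    have ha : a < 8 := by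
      by_contra ha
      refine h0 ?_
      rw [typ, Nat.div_eq_of_lt (i1.trans_le (Nat.pow_le_pow_right two_pos (by omega)))]
      rfl
    have h1 := allN_sound i2 a ha
    simp only [chkDir, Bool.or_eq_true, beq_iff_eq, h0, false_or, Bool.and_eq_true,
      decide_eq_true_eq, Bool.not_eq_true'] at h1
    obtain ⟨⟨⟨⟨⟨⟨⟨a1, a2⟩, a3⟩, a4⟩, a5⟩, a6⟩, a7⟩, a8⟩ := h1
    have mk : ∀ (s : (E.sys β l (Goal I.c0 I.Exc β l)).St) k, k ≤ (E.res a).q →
        VD (E.w a : Q P) (s.1.2 ᵥ* E.S (cd ((E.res a).base + k) s.1.1)) →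
        ∃ s', (E.sys β l (Goal I.c0 I.Exc β l)).Mv ((E.res a).base + k) s s' := by
      intro s k hk h
      obtain ⟨u, hu⟩ := h.ex
      have e : E.dr ((E.res a).base + k) = a := by simpa using allN_sound a8 k (by omega)
      obtain ⟨s', h, -⟩ := mkMv K.X K.hG K.hT hD s (y := (E.res a).base + k) (by omega) (by omega)
        (u := u) (by rw [e, hu])
      exact ⟨s', h⟩
    rw [DirOK, a3, a4]
    refine ⟨fun h => ⟨by omega, a5, fun s => ?_⟩, fun h s => ?_⟩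
    · obtain ⟨k, hk, h2⟩ := (K.dirF a a2 a1 _ s.2.1).one s.1.2 (by rw [s.2.2.1]; exact (hs a a2).1 h)
      exact ⟨k, by omega, mk s k hk h2⟩
    · have hd : (E.res a).dy = false := a7.resolve_left (by unfold typ; omega)
      obtain ⟨k, hk, k', hk', h2, h3, h4⟩ := (K.dirF a a2 a1 _ s.2.1).two hd s.1.2 (by
        rw [s.2.2.1]
        exact ⟨((hs a a2).1 (by omega)).resolve_left (by simp [hd]), (hs a a2).2 h⟩)
      exact ⟨k, by omega, k', by omega, h2, mk s k hk h3, mk s k' hk' h4⟩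
  · obtain ⟨y, hy, rfl⟩ := List.mem_map.1 hc
    exact cyc_sound K.X K.hG hD hodd (i5 y hy)
  · have h1 := allN_sound i3 k hk
    simp only [chkD0, Bool.and_eq_true, decide_eq_true_eq] at h1
    generalize I.d0.getD k (0, 0) = p at h1
    obtain ⟨⟨a1, a2⟩, a3⟩ := h1
    obtain ⟨b1, -, b2⟩ := an_of K.X a2
    have b3 := congrFun₂ ((Ctx.rep_sc 16 I.c0).eq ((rL K.X b1).mul (Ctx.rep_sc 16 _)) a3) 0 0
    have b4 := gq_edge (G' := 1) (by rw [Matrix.mul_one, b2]) s.1.2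
    have e : s.1.1 = pat I.T k := hs.1.trans (Nat.mod_eq_of_lt a1)
    rw [← e, s.2.2.1, gq_one] at b4
    left
    convert S3.mul ⟨_, _, _, b4.symm⟩ (decQ 16 p.2) using 1
    rw [show decQ 16 I.c0 = _ by simpa using b3]
    ring

end FD

end Pool.Agent.Lib.MP_aed2da_nt.Eng
end

-- part Pool.Agent.Lib.MP_aed2da_nt.Top2
section

/-! Exceptional square classes, residue conditions and Galois transfer. -/

namespace Pool.Agent.Lib.MP_aed2da_nt.Eng
open Matrix Clr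

variable {P : Par}

def Req (w : Q P) (ty : ℕ) (β : Q P) : Prop := (1 ≤ ty → Sq w β) ∧ (2 ≤ ty → ¬ w ∣ β)

lemma Req.mono {w β : Q P} {a b : ℕ} (h : Req w a β) (hab : b ≤ a) : Req w b β :=
  ⟨fun h1 => h.1 (h1.trans hab), fun h1 => h.2 (h1.trans hab)⟩

lemma Req.cancel {w s β : Q P} {a : ℕ} (hc : IsCoprime w s) (h : Req w a (s ^ 2 * β)) :
    Req w a β := by
  refine ⟨fun h1 => ?_, fun h1 h2 => h.2 h1 (h2.mul_left _)⟩
  obtain ⟨r, z, hz⟩ := h.1 h1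
  obtain ⟨u, v, huv⟩ := hc
  exact ⟨v * r, v ^ 2 * z + u * (1 + v * s) * β, by
    linear_combination v ^ 2 * hz - (1 + v * s) * β * huv⟩

lemma Sq2.cancel {s β : Q P} (hc : IsCoprime s 2) (h : Sq2 (s ^ 2 * β)) : Sq2 β := by
  obtain ⟨r, z, hz⟩ := h
  obtain ⟨u, v, huv⟩ := hc
  exact ⟨u * r, u ^ 2 * z + v * (1 + u * s) * β, by
    linear_combination u ^ 2 * hz - (1 + u * s) * β * huv⟩

lemma Pos.cancel {S : Setup P} {s β : Q P} (h : S.Pos (s ^ 2 * β)) : S.Pos β := fun i => by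
  have := h i
  rw [map_mul, map_pow] at this
  by_contra hn
  nlinarith [sq_nonneg (S.σ i s)]

lemma Pos.nm {S : Setup P} {β : Q P} (h : S.Pos β) : 0 < Q.nm β := by
  have := Finset.prod_pos (s := Finset.univ) fun i _ => h i
  rw [S.prod_σ] at this
  exact_mod_cast this

noncomputable def anyN (f : ℕ → Bool) (n : ℕ) : Bool := !allN (fun k => !f k) n

lemma anyN_sound {f : ℕ → Bool} {n : ℕ} (h : anyN f n = true) : ∃ k, f k = true := by
  by_contra hn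
  have : ∀ n, allN (fun k => !f k) n = true := fun n => by
    induction n with
    | zero => rfl
    | succ n ih =>
      change Bool.rec (motive := fun _ => Bool) false (allN _ n) (!f n) = true
      rw [band]
      exact ⟨by simpa using fun h => hn ⟨n, h⟩, ih⟩
  simp [anyN, this] at h

noncomputable def Res.chkLit (D : Res) (tab ty : ℕ) : Bool :=
  allN (fun k => !tab.testBit k ||
    (anyN (fun z => D.eq (D.dot (D.repF z) (D.repF z) (D.repF k) ⟨1, 0⟩ ⟨0, 0⟩ ⟨0, 0⟩) ⟨0, 0⟩) D.q &&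
    (Nat.blt ty 2 ||
      anyN (fun z => D.eq (D.dot (D.repF z) (D.repF k) ⟨0, 0⟩ ⟨0, 0⟩ ⟨0, 0⟩ ⟨0, 0⟩) ⟨1, 0⟩) D.q))) D.q

/-- no square of a non-unit divides an element of norm `n` -/
def sqf (P : Par) (n : ℕ) : Bool := 0 < n && n < 40000 && (List.range 200).all fun k =>
  k < 2 || n % (k * k) != 0 || (k ∈ [7, 67] && Pid.noSol P k)

/-- `d` is a product of two different primes -/
def fac (d x y : Q P) : Bool :=
  d = x * y && (Q.nm x).natAbs ∈ [19, 29] && (Q.nm y).natAbs ∈ [19, 29] && !Q.dvdB x y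

def dnf : Fm → List (List ℕ)
  | .lit i => [[i]]
  | .and f g => (dnf f).flatMap fun c => (dnf g).map fun d => c ++ d
  | .or f g => dnf f ++ dnf g

lemma dnf_sound {T : ℕ → Prop} {f : Fm} (h : f.holds T) : ∃ c ∈ dnf f, ∀ i ∈ c, T i := by
  induction f with
  | lit i => exact ⟨[i], by simp [dnf], by simpa [Fm.holds] using h⟩
  | and f g hf hg =>
    obtain ⟨c, h1, h2⟩ := hf h.1
    obtain ⟨d, h3, h4⟩ := hg h.2
    exact ⟨c ++ d, List.mem_flatMap.2 ⟨c, h1, List.mem_map.2 ⟨d, h3, rfl⟩⟩, fun i hi =>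
      (List.mem_append.1 hi).elim (h2 i) (h4 i)⟩
  | or f g hf hg =>
    rcases h with h | h
    · obtain ⟨c, h1, h2⟩ := hf h
      exact ⟨c, List.mem_append_left _ h1, h2⟩
    · obtain ⟨c, h1, h2⟩ := hg h
      exact ⟨c, List.mem_append_right _ h1, h2⟩

lemma lit_cong (L : Lit P) (m g : Q P) (h1 : 0 < L.n1) (h2 : 0 < L.n2) (a1 : m ∣ L.n1)
    (a2 : m ∣ L.n2 * g) (b1 : m ∣ 1 - (L.l1.a + L.l2.a * g))
    (b2 : m ∣ Q.gw - ((L.l1.b : Q P) + (L.l2.b : Q P) * g))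
    (b3 : m ∣ Q.gh - ((L.l1.c : Q P) + (L.l2.c : Q P) * g))
    (b4 : m ∣ Q.gw * Q.gh - ((L.l1.d : Q P) + (L.l2.d : Q P) * g)) (x : Q P) :
    ∃ u < L.n1, ∃ v < L.n2, L.code x = u + L.n1 * v ∧ m ∣ x - (u + v * g) := by
  have hp : (0 : ℤ) < L.n1 := by exact_mod_cast h1
  have hn : (0 : ℤ) < L.n2 := by exact_mod_cast h2
  obtain ⟨u, hu⟩ := Int.eq_ofNat_of_zero_le (Int.emod_nonneg (Q.dot L.l1 x) hp.ne')
  obtain ⟨v, hv⟩ := Int.eq_ofNat_of_zero_le (Int.emod_nonneg (Q.dot L.l2 x) hn.ne')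
  refine ⟨u, by exact_mod_cast hu ▸ Int.emod_lt_of_pos _ hp, v,
    by exact_mod_cast hv ▸ Int.emod_lt_of_pos _ hn, by rw [Lit.code, hu, hv]; simp, ?_⟩
  have e1 := congrArg (Int.cast : ℤ → Q P) (hu.symm.trans (Int.emod_def _ _))
  have e2 := congrArg (Int.cast : ℤ → Q P) (hv.symm.trans (Int.emod_def _ _))
  simp only [Q.dot] at e1 e2
  generalize (_ : ℤ) / (L.n1 : ℤ) = k1 at e1
  generalize (_ : ℤ) / (L.n2 : ℤ) = k2 at e2
  push_cast at e1 e2
  obtain ⟨c1, a1⟩ := a1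
  obtain ⟨c2, a2⟩ := a2
  obtain ⟨d1, b1⟩ := b1
  obtain ⟨d2, b2⟩ := b2
  obtain ⟨d3, b3⟩ := b3
  obtain ⟨d4, b4⟩ := b4
  exact ⟨x.a * d1 + x.b * d2 + x.c * d3 + x.d * d4 + k1 * c1 + k2 * c2, by
    linear_combination x.eq_comb + x.a * b1 + x.b * b2 + x.c * b3 + x.d * b4 - e1 - g * e2 +
      k1 * a1 + k2 * a2⟩

noncomputable def chkS3 (F : Phi) (c d x : ℕ) : Bool :=
  (F.mul (F.mul (F.row 16 x) TM.one) (F.row 16 x).tr).eq
    (F.mul (F.mul (F.mul (F.sc 16 c) (F.sc 16 c)) (F.sc 16 d)) TM.e0)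

lemma s3_of {F : Phi} (X : Ctx P F) {c d x : ℕ} (h : chkS3 F c d x = true) :
    S3 (decQ 16 c ^ 2 * decQ 16 d : Q P) := by
  have := congrFun₂ ((((X.rep_row 16 x).mul Ctx.rep_one).mul (X.rep_row 16 x).tr).eq
    ((((Ctx.rep_sc 16 c).mul (Ctx.rep_sc 16 c)).mul (Ctx.rep_sc 16 d)).mul X.rep_e0) h) 0 0
  rw [rowM_dot, ← gq, gq_one] at this
  exact ⟨_, _, _, by rw [this]; simp [rowM]; ring⟩

variable [IsDomain (Q P)] [IsPrincipalIdealRing (Q P)]

lemma lit_sem (S : Setup P) {D : Res} (ok : D.ok P) {tab ty : ℕ} (h : D.chkLit tab ty = true)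
    {x : Q P} (hx : (D.lit P tab).holds x) : Req D.w ty x := by
  obtain ⟨F, _, π, H⟩ := Res.exists_hom S ok
  obtain ⟨h1, h2⟩ := H.code tab x
  have h3 := allN_sound h _ h1
  have h4 : tab.testBit ((D.lit P tab).code x) = true := hx
  simp only [h4, Bool.not_true, Bool.false_or, Bool.and_eq_true, Bool.or_eq_true, Nat.blt_eq] at h3
  refine ⟨fun _ => ?_, fun h5 h6 => ?_⟩
  · obtain ⟨z, hz⟩ := anyN_sound h3.1
    have := H.eq hz
    rw [H.dot, ← Res.val_rep, ← Res.val_rep, ← h2] at this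
    exact ⟨D.rep z, (H.ker _).1 (by simpa [Res.val, pow_two, add_comm] using this)⟩
  · obtain ⟨z, hz⟩ := anyN_sound (h3.2.resolve_left (by omega))
    have := H.eq hz
    rw [H.dot, ← Res.val_rep, ← Res.val_rep, ← h2, (H.ker _).2 h6] at this
    simp [Res.val] at this

omit [IsDomain (Q P)] [IsPrincipalIdealRing (Q P)] in
lemma sqf_sound (S : Setup P) {d l : Q P} (h : sqf P (Q.nm d).natAbs = true) (hl : Prime l) :
    ¬ l ^ 2 ∣ d := fun h1 => by
  simp only [sqf, Bool.and_eq_true, decide_eq_true_eq, List.all_eq_true, List.mem_range,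
    Bool.or_eq_true, bne_iff_ne, ne_eq] at h
  have h2 := nm_dvd (S := S) h1
  rw [pow_two, S.nm_mul, Int.natAbs_mul] at h2
  have h3 := Nat.le_of_dvd h.1.1 h2
  have h4 := Pid.index_span S hl.ne_zero
  have h5 : (Q.nm l).natAbs ≠ 1 := fun h => hl.not_isUnit ((S.isUnit_iff l).2 h)
  have h6 : (Q.nm l).natAbs ≠ 0 := by simpa using Pid.nm_ne_zero S hl.ne_zero
  generalize (Q.nm l).natAbs = k at h2 h3 h4 h5 h6
  rcases h.2 k (by nlinarith [h.1.2]) with (h7 | h7) | h7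
  · omega
  · exact h7 (Nat.mod_eq_zero_of_dvd h2)
  · have hp : k.Prime := by
      have := h7.1
      simp only [List.mem_cons, List.not_mem_nil, or_false] at this
      rcases this with h | h <;> rw [h] <;> norm_num
    obtain ⟨w, h, hr⟩ := Pid.sol_of_index _ hp h4
    exact Pid.noSol_sound h6 h7.2 w h hr

lemma fac_sound (S : Setup P) {d x y l : Q P} (h : fac d x y = true) (hl : Prime l) :
    ¬ l ^ 2 ∣ d := fun h1 => by
  simp only [fac, Bool.and_eq_true, decide_eq_true_eq, Bool.not_eq_true'] at h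
  obtain ⟨⟨⟨rfl, h2⟩, h3⟩, h4⟩ := h
  have hp : ∀ x : Q P, (Q.nm x).natAbs ∈ [19, 29] → Prime x := fun x h => S.prime_of_nm x (by
    simp only [List.mem_cons, List.not_mem_nil, or_false] at h
    rcases h with h | h <;> rw [h] <;> norm_num)
  have hx := hp x h2
  have h5 : ¬ x ∣ y := by rw [← Q.dvdB_iff (Pid.nm_ne_zero S hx.ne_zero), h4]; simp
  have h6 : ∀ x y : Q P, Prime x → l ^ 2 ∣ x * y → l ∣ y := fun x y hx h => by
    by_contra hn
    obtain ⟨z, hz⟩ := hl.pow_dvd_of_dvd_mul_right 2 hn h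
    rw [pow_two, mul_assoc] at hz
    exact hl.not_isUnit ((hx.irreducible.isUnit_or_isUnit hz).elim id isUnit_of_mul_isUnit_left)
  exact h5 ((hl.associated_of_dvd hx (h6 y x (hp y h3) (mul_comm x y ▸ h1))).symm.dvd.trans
    (h6 x y hx h1))

namespace FD
variable (E : FD)

/-- `c ^ 2 * β` is a sum of three squares under the residue conditions `q` -/
def Solv (S : Setup P) (c : Q P) (N : ℤ) (q : List (ℕ × ℕ)) : Prop :=
  ∀ β, S.Pos β → Sq2 β → N < Q.nm β → (∀ p ∈ q, Req (E.w p.1) p.2 β) → S3 (c ^ 2 * β)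

def reqOf (r dirs sw : ℕ) : List (ℕ × ℕ) :=
  (1, 2) :: (sw, 1) :: (List.range (r + 1)).map fun a => (a, typ dirs a)

noncomputable def chkX (P : Par) (r sw ti : ℕ) (N : ℤ) (I : Inst) (ws : List (ℕ × ℕ × ℕ)) : Bool :=
  I.Exc.all fun d => Q.nm (decQ 16 d : Q P) ≤ N && (sqf P (Q.nm (decQ 16 d : Q P)).natAbs ||
    ws.any fun e => e.1 == 0 && fac (decQ 16 d : Q P) (rowV 16 e.2.2 0) (rowV 16 e.2.2 1)) &&
    (sw :: ti :: List.range (r + 1)).all fun a => a ≤ 1 || (a ≤ r && 2 ≤ typ I.T.dirs a) ||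
      ws.any fun e => e.1 == a && e.2.1 == d && chkS3 E.F (E.pc a) d e.2.2

noncomputable def chkSem (P : Par) (nd : ℕ) (Ls : List (Lit P)) (sem : List (ℕ × ℕ)) : Bool :=
  allN (fun i => Ls[i]?.all fun L => frc (sem.getD i (0, 0)).1 fun a => 0 < a && a ≤ nd &&
    L.n1 == (E.res a).p && L.n2 == (E.res a).n2 && L.l1 == ((E.res a).lit P 0).l1 &&
    L.l2 == ((E.res a).lit P 0).l2 && (E.res a).chkLit L.tab (sem.getD i (0, 0)).2) Ls.length

noncomputable def chkF (P : Par) (r n e k : ℕ) : Bool :=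
  allN (fun y => E.dr y ≤ r) 128 &&
  allN (fun a => a == 0 || (decide ((E.res a).ok P) && (a == 1 || !(E.res a).dy))) (n + 1) &&
  allN (fun a => allN (fun b => a == 0 || b == 0 || a == b || !Q.dvdB (E.w a : Q P) (E.w b)) (r + 1))
    (r + 1) && (Q.nm (decQ 16 e : Q P)).natAbs == 1 &&
  decide (2 = (decQ 16 e : Q P) * E.w 1 ^ (2 * k + 2)) && 0 < E.h && 1 ≤ r && r ≤ n

def pmv (pm j a : ℕ) : ℕ := pm / 16 ^ (16 * j + a) % 16

noncomputable def chkPm (τ : Fin 4 → (Q P →+* Q P)) (nd pm : ℕ) : Bool :=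
  (List.finRange 4).all fun j => allN (fun a => a == 0 || frc (pmv pm j a) fun b =>
    0 < b && b ≤ nd && pmv pm j b == a && Q.dvdB (E.w b) (τ j (E.w a))) (nd + 1)

def chkCov (f : Fm) (sem : List (ℕ × ℕ)) (pm : ℕ) (qs : List (List (ℕ × ℕ))) : Bool :=
  (dnf f).all fun c => (List.finRange 4).any fun j => qs.any fun q => q.all fun p =>
    p.2 == 0 || c.any fun i => p.2 ≤ (sem.getD i (0, 0)).2 && pmv pm j (sem.getD i (0, 0)).1 == p.1

variable {E}

theorem cover (S : Setup P) {nd pm : ℕ} (ok : ∀ a ≤ nd, 0 < a → (E.res a).ok P) {Ls : List (Lit P)}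
    {f : Fm} {sem : List (ℕ × ℕ)} {qs : List (List (ℕ × ℕ))} {N : ℤ} {c : Q P}
    (h1 : E.chkSem P nd Ls sem = true) (h2 : E.chkPm S.τ nd pm = true)
    (h3 : chkCov f sem pm qs = true) (hc : c = 1) (h4 : ∀ q ∈ qs, E.Solv S c N q) (β : Q P)
    (b1 : S.Pos β) (b2 : Sq2 β) (b3 : N < Q.nm β) (b4 : Good Ls f β) : S3 β := by
  obtain ⟨c, c1, c2⟩ := dnf_sound b4
  simp only [chkCov, List.all_eq_true, List.any_eq_true, Bool.or_eq_true, Bool.and_eq_true,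
    beq_iff_eq, decide_eq_true_eq] at h3
  obtain ⟨j, hj, q, hq, h5⟩ := h3 c c1
  have h6 : ∀ a ≤ nd, 0 < a → 0 < pmv pm j a ∧ pmv pm j a ≤ nd ∧ pmv pm j (pmv pm j a) = a ∧
      E.w (pmv pm j a) ∣ S.τ j (E.w a) := fun a ha h0 => by
    have := allN_sound (List.all_eq_true.1 h2 j hj) a (by omega)
    simp only [frc_eq, Bool.or_eq_true, beq_iff_eq, h0.ne', false_or, Bool.and_eq_true,
      decide_eq_true_eq] at this
    exact ⟨this.1.1.1, this.1.1.2, this.1.2,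
      (Q.dvdB_iff (m := E.w _) (ok _ this.1.1.2 this.1.1.1).2.2.1 _).1 this.2⟩
  obtain ⟨x, y, z, h7⟩ := h4 q hq (S.τ j β) (fun i => by rw [S.σ_τ]; exact b1 _)
    (by obtain ⟨t, ht⟩ := b2; exact ⟨S.τ j t, by simpa [map_ofNat] using map_dvd (S.τ j) ht⟩)
    (by rwa [nm_tau]) fun p hp => by
      rcases h5 p hp with h | ⟨i, hi, h, h'⟩
      · exact ⟨by omega, by omega⟩
      obtain ⟨L, l1, l2⟩ := c2 i hi
      have := allN_sound h1 i (List.getElem?_eq_some_iff.1 l1).1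
      simp only [l1, Option.all_some, frc_eq, Bool.and_eq_true, beq_iff_eq,
        decide_eq_true_eq] at this
      generalize sem.getD i (0, 0) = s at h h' this
      obtain ⟨⟨⟨⟨⟨⟨a1, a2⟩, a3⟩, a4⟩, a5⟩, a6⟩, a7⟩ := this
      have e : L = (E.res s.1).lit P L.tab := by
        cases L
        simp only at a3 a4 a5 a6
        subst a3 a4 a5 a6
        rfl
      have h8 : Req (E.w s.1) p.2 β := (lit_sem S (ok _ a2 a1) a7 (e ▸ l2)).mono h
      obtain ⟨d1, d2, d3, d4⟩ := h6 _ a2 a1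
      have d5 := (h6 _ d2 d1).2.2.2
      rw [d3, h'] at d5
      rw [h'] at d4
      refine ⟨fun h => ?_, fun h h9 => h8.2 h (d5.trans ?_)⟩
      · obtain ⟨r, hr⟩ := h8.1 h
        exact ⟨S.τ j r, d4.trans (by simpa using map_dvd (S.τ j) hr)⟩
      · simpa [S.τ_τ] using map_dvd (S.τ j) h9
  exact ⟨S.τ j x, S.τ j y, S.τ j z, by simpa [hc, S.τ_τ] using congrArg (S.τ j) h7⟩

noncomputable def Fld.of (S : Setup P) (hM : ∀ i j, |S.M i j| < 2 ^ 43) (hF : E.F.ok P) (T : Tabs)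
    (hG : E.chkG = true) (hT : ∀ i < E.hI, E.chkT T i = true) (hA : ∀ i < E.hI, E.chkA T i = true)
    {r : ℕ} (n e k : ℕ) (hC : E.chkF P r n e k = true)
    (hE : ∀ a ≤ r, 0 < a → E.chkE a 0 E.hI E.h = true)
    (h1 : E.chkE 1 E.hI (E.h - E.hI) E.h = true) : E.Fld P r :=
  have c : ((((((_ ∧ _) ∧ _) ∧ _) ∧ (2 : Q P) = _) ∧ 0 < E.h) ∧ 1 ≤ r) ∧ r ≤ n :=
    (by simp only [chkF, Bool.and_eq_true, decide_eq_true_eq, beq_iff_eq]; exact Iff.rfl :
      E.chkF P r n e k = true ↔ ((((((allN _ _ = true ∧ allN _ _ = true) ∧ allN _ _ = true) ∧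
        (Q.nm (decQ 16 e : Q P)).natAbs = 1) ∧ (2 : Q P) = decQ 16 e * E.w 1 ^ (2 * k + 2)) ∧ _) ∧ _) ∧ _).1 hC
  have okx : ∀ a ≤ n, 0 < a → (E.res a).ok P ∧ ((E.res a).dy = true → a = 1) := fun a ha h => by
    have := allN_sound c.1.1.1.1.1.1.2 a (by omega)
    simp only [Bool.or_eq_true, beq_iff_eq, h.ne', false_or, Bool.and_eq_true, decide_eq_true_eq,
      Bool.not_eq_true'] at this
    exact ⟨this.1, fun h => this.2.resolve_right (by simp [h])⟩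
  have he := (S.isUnit_iff _).2 c.1.1.1.1.2
  have df : ∀ a ≤ r, 0 < a → ∀ {i0 m hb}, E.chkE a i0 m hb = true → ∀ i, i0 ≤ i → i < i0 + m →
      E.DirF P a i hb := fun a ha h _ _ _ =>
    dirF_of (Ctx.of S hM _ hF) hG (okx a (ha.trans c.2) h).1 fun hd => by
      obtain rfl := (okx a (ha.trans c.2) h).2 hd
      exact dyOK (Res.prime S (okx 1 (ha.trans c.2) h).1) he c.1.1.1.2
  { X := Ctx.of S hM _ hF, T := T, hG := hG, hT := hT, hA := hA
    ok := fun a ha h => (okx a (ha.trans c.2) h).1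
    drle := fun y hy => by simpa using allN_sound c.1.1.1.1.1.1.1 y hy
    nd := fun a ha b hb a0 b0 hab => by
      simpa [a0.ne', b0.ne', hab] using allN_sound (allN_sound c.1.1.1.1.1.2 a (by omega)) b (by omega)
    dirF := fun a ha h i hi => df a ha h (hE a ha h) i i.zero_le (by omega)
    dy := fun i hi => if h : i < E.hI then df 1 c.1.2 one_pos (hE 1 c.1.2 one_pos) i i.zero_le (by omega)
      else df 1 c.1.2 one_pos h1 i (by omega) (by omega)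
    e := decQ 16 e, k := k, he := he, two := c.1.1.1.2, h0 := c.1.1.2, r0 := c.1.2, n := n
    okx := okx }

variable {r : ℕ} (K : E.Fld P r)
include K

lemma Fld.dirX {a i0 m hb : ℕ} (ha : a ≤ K.n) (h0 : 0 < a) (h : E.chkE a i0 m hb = true) (i : ℕ)
    (h1 : i0 ≤ i) (h2 : i < i0 + m) : E.DirF P a i hb :=
  dirF_of K.X K.hG (K.okx a ha h0).1 (fun hd => by
    obtain rfl := (K.okx a ha h0).2 hd
    exact dyOK (K.prime K.r0 one_pos) K.he K.two) h i h1 h2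

lemma Fld.cop {x : Q P} (h : ¬ E.w 1 ∣ x) : IsCoprime x 2 := by
  rw [K.two, isCoprime_mul_unit_left_right K.he]
  exact (((K.prime K.r0 one_pos).irreducible.coprime_iff_not_dvd.2 h).symm).pow_right

theorem Fld.solv {I : Inst} (hT : I.T = ⟨K.T.tT, K.T.tA, I.T.tP, I.T.dirs⟩) (hI : E.chkI r I = true)
    (hS : StOK I.T (I.cys.map Cy.cyc) I.n0 I.np) {sw ti : ℕ} {t : Q P}
    (hsw : E.chkE sw E.hI (E.h - E.hI) E.hI = true)
    (ht : t = 1 ∧ ti = 1 ∨ t = E.w ti ∧ E.chkE ti 0 E.hI E.h = true ∧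
      E.chkE ti E.hI (E.h - E.hI) E.hI = true)
    (core : Core (2 * t)) (frac : ∀ β, K.X.S.Pos β → IsCoprime β 2 → ∃ s ≠ 0, S3 (s ^ 2 * β))
    {N : ℤ} {ws : List (ℕ × ℕ × ℕ)} (hX : E.chkX P r sw ti N I ws = true)
    (hn : typ I.T.dirs 0 = 0 ∧ 0 < sw ∧ 0 < ti ∧ sw ≤ K.n ∧ ti ≤ K.n) :
    E.Solv K.X.S (decQ 16 I.c0) N (reqOf r I.T.dirs sw) := by
  obtain ⟨h0, sw0, ti0, swn, tin⟩ := hn
  replace hsw := fun i h1 (h2 : i < E.h) => K.dirX swn sw0 hsw i h1 (by omega)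
  replace ht := ht.imp id fun h => And.intro h.1 fun i (hi : i < E.h) =>
    if h1 : i < E.hI then K.dirX tin ti0 h.2.1 i i.zero_le (by omega)
    else (K.dirX tin ti0 h.2.2 i (by omega) (by omega)).mono (chkG_sound K.X K.hG).1
  have hp : ∀ a ∈ sw :: ti :: List.range (r + 1), 0 < a → Prime (E.w a : Q P) := fun a ha h => by
    simp only [List.mem_cons, List.mem_range] at ha
    rcases ha with rfl | rfl | ha
    · exact Res.prime K.X.S (K.okx _ swn h).1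
    · exact Res.prime K.X.S (K.okx _ tin h).1
    · exact K.prime (by omega) h
  have m1 : 1 ∈ sw :: ti :: List.range (r + 1) := by have := K.r0; simp; omega
  have run : ∀ β l : Q P, Sq2 β → (∀ p ∈ reqOf r I.T.dirs sw, Req (E.w p.1) p.2 β) →
      (∀ a ∈ sw :: ti :: List.range (r + 1), 0 < a → ∀ x, l ∣ E.w a * x → l ∣ x) →
      (∃ (n : ℕ) (x y z : Q P), (2 * t) ^ (2 * n) * β = x ^ 2 + y ^ 2 + z ^ 2 ∧
        ¬ (l ∣ x ∧ l ∣ y ∧ l ∣ z)) → Goal I.c0 I.Exc β l := by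
    rintro β l b2 b4 hl ⟨n, x, y, z, h1, h2⟩
    refine K.run hT hI hS (fun a ha => hl a (by simp; omega)) ((b4 (1, 2) (by simp [reqOf])).2 le_rfl)
      (fun a ha => ?_) (switch K.X K.hG (hp sw (by simp) sw0).ne_zero hsw
        ((b4 (sw, 1) (by simp [reqOf])).1 le_rfl) (hl sw (by simp) sw0) (K.descend ?_ b2 h1 h2))
    · have := b4 (a, typ I.T.dirs a) (by simp [reqOf]; omega)
      exact ⟨fun h => Or.inr (this.1 h), this.2⟩
    · exact ht.imp And.left fun h : t = _ ∧ _ => ⟨ti, h.1, h.1 ▸ (hp ti (by simp) ti0).ne_zero, h.2⟩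
  intro β b1 b2 b3 b4
  have hodd : ¬ E.w 1 ∣ β := (b4 (1, 2) (by simp [reqOf])).2 le_rfl
  have hβ : β ≠ 0 := fun h => hodd (h ▸ dvd_zero _)
  have ht0 : 2 * t ≠ 0 := mul_ne_zero two_ne_zero (by
    rcases ht with ⟨h, -⟩ | ⟨h, -⟩
    exacts [h ▸ one_ne_zero, h ▸ (hp ti (by simp) ti0).ne_zero])
  obtain ⟨s0, hs0, h1⟩ := frac β b1 (K.cop hodd)
  obtain ⟨n, x, y, z, h2⟩ := core.clear β s0 hs0 h1
  rcases run β 0 b2 b4 (fun a ha h x hx => by simpa [(hp a ha h).ne_zero] using hx)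
    ⟨n, x, y, z, h2, fun h => by
      simp only [zero_dvd_iff] at h
      simp [h.1, h.2.1, h.2.2, ht0, hβ] at h2⟩ with h | ⟨d, hd, s, rfl, hs⟩
  · exact h
  simp only [chkX, List.all_eq_true, Bool.and_eq_true, decide_eq_true_eq, Bool.or_eq_true,
    List.any_eq_true, beq_iff_eq] at hX
  have sf : ∀ d ∈ I.Exc, ∀ l : Q P, Prime l → ¬ l ^ 2 ∣ decQ 16 d := fun d hd l hl =>
    (hX d hd).1.2.elim (sqf_sound K.X.S · hl) fun ⟨_, _, _, h⟩ => fac_sound K.X.S h hl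
  by_cases h3 : ∃ a ∈ sw :: ti :: List.range (r + 1), 0 < a ∧ E.w a ∣ s
  · obtain ⟨a, ha, a0, u, rfl⟩ := h3
    have h4 : E.w a ∣ (E.w a * u) ^ 2 * (decQ 16 d : Q P) := ⟨_, by rw [pow_two, mul_assoc, mul_assoc]⟩
    rcases (hX d hd).2 a ha with (h | h) | ⟨e, -, -, h⟩
    · exact absurd (show a = 1 by omega ▸ h4) hodd
    · exact absurd h4 ((b4 (a, typ I.T.dirs a) (by simp [reqOf]; omega)).2 h.2)
    · have := S3.mul (s3_of K.X h) (decQ 16 I.c0 * u)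
      rwa [show _ * _ = decQ 16 I.c0 ^ 2 * ((E.w a * u) ^ 2 * (decQ 16 d : Q P)) by
        rw [w]; ring] at this
  have hu : ¬ IsUnit s := fun h => by
    have := (K.X.S.isUnit_iff _).1 h
    rw [pow_two, K.X.S.nm_mul, K.X.S.nm_mul, ← Int.natAbs_mul_self, this] at b3
    have := (hX d hd).1.1
    omega
  obtain ⟨l, hl, s1, rfl⟩ := WfDvdMonoid.exists_irreducible_factor hu (by simpa using hs)
  have hl := hl.prime
  have h4 : ∀ a ∈ sw :: ti :: List.range (r + 1), 0 < a → ¬ l ∣ E.w a := fun a ha a0 h =>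
    h3 ⟨a, ha, a0, ((hl.associated_of_dvd (hp a ha a0) h).symm.dvd).mul_right _⟩
  have h5 : ∀ a ∈ sw :: ti :: List.range (r + 1), 0 < a → ¬ E.w a ∣ s1 := fun a ha a0 h =>
    h3 ⟨a, ha, a0, h.mul_left _⟩
  have e : (l * s1) ^ 2 * (decQ 16 d : Q P) = s1 ^ 2 * (l ^ 2 * decQ 16 d) := by ring
  rw [e] at b2 b4 ⊢
  rcases run (l ^ 2 * decQ 16 d) l (Sq2.cancel (K.cop (h5 1 m1 one_pos)) b2) (fun p hp' => by
      by_cases p0 : p.1 = 0
      · have : p.2 = 0 := by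
          simp only [reqOf, List.mem_cons, List.mem_map] at hp'
          rcases hp' with rfl | rfl | ⟨a, -, rfl⟩
          exacts [absurd p0 one_ne_zero, absurd p0 sw0.ne', (show a = 0 from p0) ▸ h0]
        exact ⟨by omega, by omega⟩
      have hm : p.1 ∈ sw :: ti :: List.range (r + 1) := by
        simp only [reqOf, List.mem_cons, List.mem_map] at hp'
        rcases hp' with rfl | rfl | ⟨a, ha, rfl⟩
        exacts [m1, by simp, by simp [ha]]
      exact (b4 p hp').cancel ((hp _ hm (by omega)).irreducible.coprime_iff_not_dvd.2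
        (h5 _ hm (by omega))))
    (fun a ha a0 x hx => (hl.dvd_or_dvd hx).resolve_left (h4 a ha a0))
    (core.prim (K.X.S.σ 0) (K.X.S.inj 0) (dvd_mul_right _ _) _ (s0 * (l * s1)) l
      (mul_ne_zero hs0 (by simpa using hs)) (by rwa [mul_pow, mul_assoc]) hl (fun h => by
        rcases hl.dvd_or_dvd h with h | h
        · rw [K.two, K.he.dvd_mul_left] at h
          exact h4 1 m1 one_pos (hl.dvd_of_dvd_pow h)
        · rcases ht with ⟨h', -⟩ | ⟨h', -⟩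
          exacts [hl.not_dvd_one (h' ▸ h), h4 ti (by simp) ti0 (h' ▸ h)])
      (sf d hd l hl)) with h | ⟨d1, hd1, t1, h6, h7⟩
  · have := S3.mul h s1
    rwa [mul_left_comm] at this
  · exact absurd ((Prime.pow_dvd_of_dvd_mul_left hl 2 (fun h => h7 (hl.dvd_of_dvd_pow h)) ⟨_, h6.symm⟩)) (sf d1 hd1 l hl)

end FD

end Pool.Agent.Lib.MP_aed2da_nt.Eng
end
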